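import Mathlib
import Pool.Agent.Helper70.GC.Main

/-!
# Project DN (MP_34c02d_nt): density one for a fixed pair `(m, d)`; definitions

Words are functions `w : ℤ → Option B` with period `L` (`GC70.Per`), `Fintype.card B = b`,
`d = b + 1`. `GC70.zf w j` is the number of letters other than `none` in `[0, j)`.
-/

set_option autoImplicit false

namespace GC85

open Finset GC70

variable {B : Type} [Fintype B] [DecidableEq B]

/-- the word `w` read from the position `h` on -/
def sh (h : ℤ) (w : ℤ → Option B) : ℤ → Option B := fun j => w (j + h)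

/-- `δ = d` and `μ = m` in `ZMod g`, and `d ^ L = m ^ s` there -/
structure Un (d m g L s : ℕ) (δ μ : (ZMod g)ˣ) : Prop where
  hδ : (δ : ZMod g) = d
  hμ : (μ : ZMod g) = m
  per : δ ^ L = μ ^ s

/-- the normalised coefficient vector of a word -/
noncomputable def vc {g : ℕ} (δ μ : (ZMod g)ˣ) (L : ℕ) (w : ℤ → Option B) (i : B) : ZMod g :=
  ∑ j ∈ (Ico (0 : ℤ) L).filter (fun j => w j = some i), cz δ μ (zf w) j

/-- periodic words with `s` letters other than `none` -/
structure Wd (w : ℤ → Option B) (L s : ℕ) : Prop where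
  per : Per w L
  cnt : (sk w L).card = s

/-- the integer part of the coefficient vector: positions `x, x + 1, ..., x + n - 1`, counting
function `z`, normalised at height `Z` -/
def xs (d m : ℕ) (z : ℤ → ℤ) (Z x : ℤ) (n : ℕ) (w : ℤ → Option B) (i : B) : ℤ :=
  ∑ t ∈ range n, (d : ℤ) ^ t *
    (if w (x + (t : ℤ)) = some i then (m : ℤ) ^ ((Z - z (x + (t : ℤ))).toNat) else 0)

/-- number of positions in `[0, n)` where two words differ -/
noncomputable def dis (w w' : ℤ → Option B) (n : ℕ) : ℕ := ((Ico (0 : ℤ) n).filter (fun j => w j ≠ w' j)).card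

/-- number of positions in `[0, L)` where the counting functions of two words differ -/
noncomputable def kd (w w' : ℤ → Option B) (L : ℕ) : ℕ :=
  ((Ico (0 : ℤ) L).filter (fun j => zf w j ≠ zf w' j)).card

/-- all words of period `L` -/
noncomputable def PW (B : Type) [Fintype B] [DecidableEq B] (L : ℕ) : Finset (ℤ → Option B) := by
  classical
  exact if h : L = 0 then ∅ else
    (letI : NeZero L := ⟨h⟩; (univ : Finset (Fin L → Option B)).image (ext L))

/-- typical words: the letter `none` has frequency `1 / (b + 1)` with error `Δ` -/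
def Ty (b : ℕ) (w : ℤ → Option B) (L Δ : ℕ) : Prop :=
  ∀ x y : ℤ, x ≤ y → y ≤ x + L →
    |((b : ℤ) + 1) * (zf w y - zf w x) - (b : ℤ) * (y - x)| ≤ ((b : ℤ) + 1) * (Δ : ℤ)

/-- the eighth root of `L` (up to rounding) -/
def rt (L : ℕ) : ℕ := Nat.sqrt (Nat.sqrt (Nat.sqrt L))

/-- the error allowed for typical words -/
def Del (L : ℕ) : ℕ := L / rt L

/-- the sum of all coefficients of a word with the positions `N` of the letters other than `none` -/
def TN (d m : ℕ) (N : Finset ℕ) : ℕ := ∑ j ∈ N, wt d m N j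

/-- primitive words: the coefficients have no common prime factor with `D` -/
def Prim (d m D L : ℕ) (w : ℤ → Option B) : Prop :=
  ∀ p : ℕ, p.Prime → p ∣ D → ∃ i, ¬ p ∣ V d m w L i

/-- the coefficient vectors of two words are proportional modulo `g` -/
def RelG (d m g L L' : ℕ) (w w' : ℤ → Option B) : Prop :=
  ∃ l : (ZMod g)ˣ, ∀ i, (V d m w' L' i : ZMod g) = l * (V d m w L i : ZMod g)

/-- the greatest common divisor of `D` and the differences of the coefficients -/
noncomputable def gG (d m D L : ℕ) (w w' : ℤ → Option B) : ℕ :=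
  Nat.gcd D (univ.gcd fun i : B => ((V d m w L i : ℤ) - (V d m w' L i : ℤ)).natAbs)

/-- numerical parameters: `y ≈ L / (2 * 10 ^ 12)`, `ε` is small compared with `y`, and all factors
`16 ^ L`, `(m / d) ^ L` are at most `d ^ ε` -/
structure NP (b m L s y ε : ℕ) : Prop where
  b1 : 2 ^ 60 ≤ b
  dm : b + 1 ≤ m
  m2 : m ≤ 2 * (b + 1)
  cop : Nat.Coprime m (b + 1)
  hm : m ^ b < (b + 1) ^ (b + 1)
  Lge : 2 * 10 ^ 12 * y ≤ L
  Lle : L ≤ 2 * 10 ^ 12 * (y + 1)
  yge : 10 ^ 6 ≤ y
  eps : 10 * ε ≤ y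
  eps1 : 1 ≤ ε
  pw : 16 ^ L ≤ (b + 1) ^ ε
  mL : m ^ L ≤ (b + 1) ^ (L + ε)
  sL : s ≤ L
  zer : L ≤ s + ε

/-- the modulus `D`, a divisor of `(b + 1) ^ L - m ^ s` with a small cofactor and with all prime
factors at least `M0` -/
structure DP (b m L s M0 D : ℕ) : Prop where
  M17 : 17 ≤ M0
  dvd : D ∣ (b + 1) ^ L - m ^ s
  le2 : 2 * m ^ s ≤ (b + 1) ^ L
  ge : (b + 1) ^ L ≤ D * (b + 1) ^ 2
  prm : ∀ p : ℕ, p.Prime → p ∣ D → M0 ≤ p

end GC85
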