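import Mathlib
import Pool.Agent.Helper85.DN.Defs

/-!
# DN-Base: shifts of words, the vectors `vc` and `V`

* `zf_sh`: both sides satisfy `IsZ (sh h w)` (`GC70.zf_isZ`) and vanish at `j = 0`; the difference of
  two functions with `IsZ` is constant (induction on `j`, `Int.induction_on`).
* `Wd.zf_add` is `GC70.zf_per`. `Wd.sh`: the number of letters in a window of length `L` is constant
  (`zf` at `h + L` minus `zf` at `h`; `GC70.zf_nat`).
* `vc_sh`: reindex `j ↦ j + h`, then `GC70.sum_cz_window` with `o = h`.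
* `V_eq_vc` is `GC70.V_eq_cz`.
* `exists_un`: `ZMod.unitOfCoprime` (see `GC70.exists_unit` in `Helper70/GC/Index.lean`).
* `mem_PW`: if `Per w L` then `w = ext L (fun j => w j)`; `card_PW`: `GC70.ext_injective`.
* `Prim_sh`, `RelG_sh`, `veq_sh`: by `V_eq_vc` and `vc_sh` the vectors of a word and of its shift differ
  by a unit factor modulo `g` (modulo the prime `p` for `Prim_sh`); for `veq_sh` the two factors are
  equal because `zf w h = zf w' h`.
-/

set_option autoImplicit false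

namespace GC85

open Finset GC70

variable {B : Type} [Fintype B] [DecidableEq B]

omit [Fintype B] in
theorem zf_sh (h j : ℤ) (w : ℤ → Option B) : zf (sh h w) j = zf w (j + h) - zf w h := by
  have h1 : ∀ j, zf (sh h w) (j + 1) = zf (sh h w) j + if (w (j + h)).isSome then 1 else 0 :=
    zf_isZ (sh h w)
  have h2 := zf_isZ w
  induction j using Int.induction_on with
  | zero => rw [zf_zero, zero_add, sub_self]
  | succ i ih =>
    rw [h1 i, ih, show (i : ℤ) + 1 + h = i + h + 1 by ring, h2 (i + h)]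
    ring
  | pred i ih =>
    have h3 := h1 (-(i : ℤ) - 1)
    have h4 := h2 (-(i : ℤ) - 1 + h)
    rw [show -(i : ℤ) - 1 + 1 = -i by ring, ih] at h3
    rw [show -(i : ℤ) - 1 + h + 1 = -i + h by ring] at h4
    linarith

omit [Fintype B] in
theorem Wd.zf_add {w : ℤ → Option B} {L s : ℕ} (hw : Wd w L s) (j : ℤ) :
    zf w (j + L) = zf w j + s := by
  have h := zf_per w hw.per j
  rwa [hw.cnt] at h

omit [Fintype B] in
theorem Wd.sh {w : ℤ → Option B} {L s : ℕ} (hw : Wd w L s) (h : ℤ) : Wd (sh h w) L s := by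
  refine ⟨fun x => ?_, ?_⟩
  · change w (x + L + h) = w (x + h)
    rw [show x + L + h = x + h + L by ring]
    exact hw.per (x + h)
  · have h1 := zf_nat (GC85.sh h w) L
    rw [zf_sh, add_comm, hw.zf_add] at h1
    have h2 : (s : ℤ) = ((sk (GC85.sh h w) L).card : ℤ) := by linarith
    exact_mod_cast h2.symm

omit [Fintype B] in
theorem sh_sh (h k : ℤ) (w : ℤ → Option B) : sh h (sh k w) = sh (h + k) w := by
  funext j
  change w (j + h + k) = w (j + (h + k))
  rw [add_assoc]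

omit [Fintype B] in
theorem sh_zero (w : ℤ → Option B) : sh 0 w = w := by
  funext j
  change w (j + 0) = w j
  rw [add_zero]

omit [Fintype B] in
/-- a shift can be reduced modulo the period -/
theorem sh_mod {w : ℤ → Option B} {L : ℕ} (hw : Per w L) (h : ℤ) : sh h w = sh (h % L) w := by
  funext j
  change w (j + h) = w (j + h % L)
  have h1 := hw.zmul (h / L) (j + h % L)
  rw [← h1]
  congr 1
  have h2 := Int.emod_add_mul_ediv h L
  linarith

theorem vc_sh {d m g L s : ℕ} {δ μ : (ZMod g)ˣ} (U : Un d m g L s δ μ) {w : ℤ → Option B}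
    (hw : Wd w L s) (h : ℤ) (i : B) : vc δ μ L (sh h w) i =
      ((δ ^ (-h) * μ ^ (zf w h) : (ZMod g)ˣ) : ZMod g) * vc δ μ L w i := by
  unfold vc
  rw [← sum_cz_window δ μ w (zf w) L s hw.per U.per (fun j => hw.zf_add j) i h, mul_sum]
  refine sum_bij (fun j _ => j + h) ?_ ?_ ?_ ?_
  · intro j hj
    rw [mem_filter, mem_Ico] at hj ⊢
    exact ⟨⟨by omega, by omega⟩, hj.2⟩
  · intro a _ c _ hac
    exact add_right_cancel hac
  · intro j hj
    rw [mem_filter, mem_Ico] at hj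
    refine ⟨j - h, ?_, sub_add_cancel j h⟩
    rw [mem_filter, mem_Ico]
    refine ⟨⟨by omega, by omega⟩, ?_⟩
    change w (j - h + h) = some i
    rw [sub_add_cancel]
    exact hj.2
  · intro j _
    unfold cz
    rw [← Units.val_mul]
    congr 1
    rw [zf_sh, zpow_add δ j h, neg_sub, sub_eq_add_neg, zpow_add μ, zpow_neg δ h]
    have : ∀ a b c e : (ZMod g)ˣ, a * (b * c) = e⁻¹ * b * (a * e * c) := by
      intro a b c e
      calc a * (b * c) = (e⁻¹ * e) * (a * (b * c)) := by rw [inv_mul_cancel, one_mul]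
        _ = e⁻¹ * b * (a * e * c) := by simp only [mul_assoc, mul_left_comm, mul_comm]
    exact this _ _ _ _

theorem V_eq_vc {d m g L s : ℕ} {δ μ : (ZMod g)ˣ} (U : Un d m g L s δ μ) {w : ℤ → Option B}
    (hw : Wd w L s) (hs : 0 < s) (i : B) : (V d m w L i : ZMod g) =
      ((μ ^ ((s : ℤ) - 1) : (ZMod g)ˣ) : ZMod g) * vc δ μ L w i := by
  have h := V_eq_cz w U.hδ U.hμ L (by rw [hw.cnt]; exact hs) i
  rw [hw.cnt] at h
  exact h

private theorem Base_V_sh {d m g L s : ℕ} {δ μ : (ZMod g)ˣ} (U : Un d m g L s δ μ)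
    {w : ℤ → Option B} (hw : Wd w L s) (hs : 0 < s) (h : ℤ) (i : B) :
    (V d m (sh h w) L i : ZMod g) =
      ((δ ^ (-h) * μ ^ (zf w h) : (ZMod g)ˣ) : ZMod g) * (V d m w L i : ZMod g) := by
  rw [V_eq_vc U (hw.sh h) hs, V_eq_vc U hw hs, vc_sh U hw, mul_left_comm]

theorem exists_un {d m g L s : ℕ} (hgd : Nat.Coprime d g) (hgm : Nat.Coprime m g)
    (hle : m ^ s ≤ d ^ L) (hdvd : g ∣ d ^ L - m ^ s) : ∃ δ μ : (ZMod g)ˣ, Un d m g L s δ μ := by
  refine ⟨ZMod.unitOfCoprime d hgd, ZMod.unitOfCoprime m hgm, ZMod.coe_unitOfCoprime _ _,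
    ZMod.coe_unitOfCoprime _ _, ?_⟩
  apply Units.ext
  rw [Units.val_pow_eq_pow_val, Units.val_pow_eq_pow_val, ZMod.coe_unitOfCoprime,
    ZMod.coe_unitOfCoprime]
  have h1 : ((d ^ L - m ^ s : ℕ) : ZMod g) = 0 := (ZMod.natCast_eq_zero_iff _ _).2 hdvd
  rw [Nat.cast_sub hle, sub_eq_zero] at h1
  exact_mod_cast h1

theorem mem_PW {L : ℕ} (hL : 0 < L) (w : ℤ → Option B) : w ∈ PW B L ↔ Per w L := by
  have : NeZero L := ⟨by omega⟩
  unfold PW
  rw [dif_neg (by omega)]
  simp only [mem_image, mem_univ, true_and]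
  constructor
  · rintro ⟨v, rfl⟩
    exact ext_per L v
  · intro h
    refine ⟨fun j => w ((j : ℕ) : ℤ), ?_⟩
    funext x
    have h1 := Int.emod_nonneg x (show (L : ℤ) ≠ 0 by positivity)
    change w (((x % (L : ℤ)).toNat : ℕ) : ℤ) = w x
    rw [Int.toNat_of_nonneg h1]
    exact h.emod x

theorem card_PW {L : ℕ} (hL : 0 < L) : (PW B L).card = (Fintype.card B + 1) ^ L := by
  have : NeZero L := ⟨by omega⟩
  classical
  unfold PW
  rw [dif_neg (by omega)]
  rw [card_image_of_injective _ (ext_injective L), card_univ, Fintype.card_fun,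
    Fintype.card_option, Fintype.card_fin]

omit [Fintype B] in
theorem Ty.sh {b L Δ : ℕ} {w : ℤ → Option B} (hw : Ty b w L Δ) (h : ℤ) : Ty b (sh h w) L Δ := by
  intro x y hxy hyx
  have h1 := hw (x + h) (y + h) (by omega) (by omega)
  rw [zf_sh, zf_sh]
  have h2 : zf w (y + h) - zf w h - (zf w (x + h) - zf w h) = zf w (y + h) - zf w (x + h) := by
    ring
  have h3 : y - x = y + h - (x + h) := by ring
  rw [h2, h3]
  exact h1

theorem Prim_sh {d m D L s : ℕ} {w : ℤ → Option B} (hw : Wd w L s) (hs : 0 < s)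
    (hD : Nat.Coprime d D) (hD' : Nat.Coprime m D) (hle : m ^ s ≤ d ^ L) (hdvd : D ∣ d ^ L - m ^ s)
    (hp : Prim d m D L w) (h : ℤ) : Prim d m D L (sh h w) := by
  intro p hpp hpD
  obtain ⟨i, hi⟩ := hp p hpp hpD
  obtain ⟨δ, μ, U⟩ := exists_un (Nat.Coprime.coprime_dvd_right hpD hD)
    (Nat.Coprime.coprime_dvd_right hpD hD') hle (hpD.trans hdvd)
  refine ⟨i, fun hcon => hi ?_⟩
  rw [← ZMod.natCast_eq_zero_iff] at hcon ⊢
  rw [Base_V_sh U hw hs] at hcon
  exact (Units.mul_right_eq_zero _).1 hcon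

theorem RelG_sh {d m g L s : ℕ} {w w' : ℤ → Option B} (hw : Wd w L s) (hw' : Wd w' L s)
    (hs : 0 < s) (hD : Nat.Coprime d g) (hD' : Nat.Coprime m g) (hle : m ^ s ≤ d ^ L)
    (hdvd : g ∣ d ^ L - m ^ s) (hr : RelG d m g L L w w') (h h' : ℤ) :
    RelG d m g L L (sh h w) (sh h' w') := by
  obtain ⟨δ, μ, U⟩ := exists_un hD hD' hle hdvd
  obtain ⟨l, hl⟩ := hr
  refine ⟨(δ ^ (-h') * μ ^ (zf w' h')) * l * (δ ^ (-h) * μ ^ (zf w h))⁻¹, fun i => ?_⟩
  rw [Base_V_sh U hw hs, Base_V_sh U hw' hs, hl i, ← mul_assoc, ← mul_assoc, ← Units.val_mul,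
    ← Units.val_mul]
  congr 2
  rw [inv_mul_cancel_right]

/-- equality of the coefficients modulo `g` and common shifts -/
theorem veq_sh {d m g L s : ℕ} {w w' : ℤ → Option B} (hw : Wd w L s) (hw' : Wd w' L s)
    (hs : 0 < s) (hD : Nat.Coprime d g) (hD' : Nat.Coprime m g) (hle : m ^ s ≤ d ^ L)
    (hdvd : g ∣ d ^ L - m ^ s) (hr : ∀ i, (V d m w L i : ZMod g) = V d m w' L i) (h : ℤ)
    (hz : zf w h = zf w' h) :
    ∀ i, (V d m (sh h w) L i : ZMod g) = V d m (sh h w') L i := by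
  intro i
  obtain ⟨δ, μ, U⟩ := exists_un hD hD' hle hdvd
  rw [Base_V_sh U hw hs, Base_V_sh U hw' hs, hr i, hz]

private theorem Base_pos {b m L s y ε : ℕ} (P : NP b m L s y ε) : 0 < s ∧ 0 < L := by
  have h1 := P.Lge
  have h2 := P.yge
  have h3 := P.eps
  have h4 := P.zer
  omega

/-- a divisor of `D` is coprime to `b + 1` and to `m` -/
theorem DP.cop {b m L s y ε M0 D g : ℕ} (P : NP b m L s y ε) (Q : DP b m L s M0 D) (hg : g ∣ D) :
    Nat.Coprime (b + 1) g ∧ Nat.Coprime m g := by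
  obtain ⟨hs, hL⟩ := Base_pos P
  have hle : m ^ s ≤ (b + 1) ^ L := by
    have := Q.le2
    omega
  have key : ∀ p : ℕ, p.Prime → p ∣ g → (p ∣ b + 1 ↔ p ∣ m) := by
    intro p hp hpg
    have h1 : p ∣ (b + 1) ^ L - m ^ s := (hpg.trans hg).trans Q.dvd
    constructor
    · intro h
      have h2 : p ∣ (b + 1) ^ L := h.trans (dvd_pow_self _ hL.ne')
      exact hp.dvd_of_dvd_pow ((Nat.dvd_sub_iff_right hle h2).1 h1)
    · intro h
      have h2 : p ∣ m ^ s := h.trans (dvd_pow_self _ hs.ne')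
      exact hp.dvd_of_dvd_pow ((Nat.dvd_sub_iff_left hle h2).1 h1)
  have hno : ∀ p : ℕ, p.Prime → p ∣ m → ¬ p ∣ b + 1 := by
    intro p hp h1 h2
    have h3 := Nat.dvd_gcd h1 h2
    rw [Nat.Coprime.gcd_eq_one P.cop] at h3
    exact hp.one_lt.ne' (Nat.dvd_one.1 h3)
  constructor
  · refine Nat.Coprime.symm (Nat.coprime_of_dvd fun p hp h1 h2 => ?_)
    exact hno p hp ((key p hp h1).1 h2) h2
  · refine Nat.Coprime.symm (Nat.coprime_of_dvd fun p hp h1 h2 => ?_)
    exact hno p hp h2 ((key p hp h1).2 h2)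

theorem NP.s_pos {b m L s y ε : ℕ} (P : NP b m L s y ε) : 0 < s ∧ 0 < L :=
  Base_pos P

/-- powers of `m` against powers of `b + 1` -/
theorem NP.m_pow {b m L s y ε : ℕ} (P : NP b m L s y ε) (n : ℕ) (hn : n ≤ L) :
    m ^ n ≤ (b + 1) ^ (n + ε) := by
  have h1 : 0 < (b + 1) ^ (L - n) := by positivity
  refine Nat.le_of_mul_le_mul_right ?_ h1
  calc m ^ n * (b + 1) ^ (L - n) ≤ m ^ n * m ^ (L - n) :=
        Nat.mul_le_mul_left _ (Nat.pow_le_pow_left P.dm _)
    _ = m ^ L := by rw [← pow_add, Nat.add_sub_of_le hn]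
    _ ≤ (b + 1) ^ (L + ε) := P.mL
    _ = (b + 1) ^ (n + ε) * (b + 1) ^ (L - n) := by
        rw [← pow_add]
        congr 1
        omega

end GC85
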