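import Mathlib
import Pool.Agent.Helper85.DN.Base

/-!
# DN-Win: splitting off the integer part of a window

* `win_id`: `GC70.sum_cz_window` with `o = x`, split `Ico x (x + L)` at `x + n`; for `j = x + t`, `t < n`,
  `GC70.cz_nat` with `o = x`.
* `xs_bd`: `0 ≤ (Z - z (x + t)).toNat ≤ n - t + E` and `d ^ t ≤ m ^ t`.
* `xs_bd_typ`: with `e = zf w (x + n) - zf w (x + t)`, `(b + 1) e ≤ b (n - t) + (b + 1) Δ`, so
  `(m ^ e) ^ (b + 1) ≤ (m ^ b) ^ (n - t) * m ^ ((b + 1) Δ) ≤ ((b + 1) ^ (n - t) * m ^ Δ) ^ (b + 1)`,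
  hence `m ^ e ≤ (b + 1) ^ (n - t) * m ^ Δ`.
* `xs_int`: an equation between integer parts modulo `g` is exact if both are in `[0, g)`.
-/

set_option autoImplicit false

namespace GC85

open Finset GC70

variable {B : Type} [Fintype B] [DecidableEq B]

private lemma win_sum_shift {M : Type*} [AddCommMonoid M] (f : ℤ → M) (x : ℤ) (n : ℕ) :
    ∑ j ∈ Ico x (x + n), f j = ∑ t ∈ range n, f (x + (t : ℤ)) := by
  refine sum_nbij' (fun j => (j - x).toNat) (fun t => x + (t : ℤ)) ?_ ?_ ?_ ?_ ?_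
  · intro j hj
    rw [mem_Ico] at hj
    rw [mem_range]
    omega
  · intro t ht
    rw [mem_range] at ht
    rw [mem_Ico]
    omega
  · intro j hj
    rw [mem_Ico] at hj
    show x + ((j - x).toNat : ℤ) = j
    omega
  · intro t ht
    show (x + (t : ℤ) - x).toNat = t
    omega
  · intro j hj
    rw [mem_Ico] at hj
    show f j = f (x + ((j - x).toNat : ℤ))
    congr 1
    omega

theorem win_id {d m g L s : ℕ} {δ μ : (ZMod g)ˣ} (U : Un d m g L s δ μ) {w : ℤ → Option B}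
    (hw : Wd w L s) (x : ℤ) (n : ℕ) (hn : n ≤ L) (Z : ℤ)
    (hZ : ∀ t : ℕ, t < n → zf w (x + t) ≤ Z) (i : B) :
    ((δ ^ (-x) * μ ^ Z : (ZMod g)ˣ) : ZMod g) * vc δ μ L w i =
      ((xs d m (zf w) Z x n w i : ℤ) : ZMod g) +
        ∑ j ∈ (Ico (x + n) (x + L)).filter (fun j => w j = some i),
          ((δ ^ (j - x) * μ ^ (Z - zf w j) : (ZMod g)ˣ) : ZMod g) := by
  have h1 : vc δ μ L w i =
      ∑ j ∈ (Ico x (x + L)).filter (fun j => w j = some i), cz δ μ (zf w) j := by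
    rw [sum_cz_window δ μ w (zf w) L s hw.per U.per hw.zf_add i x]
    rfl
  rw [h1, sum_filter, sum_filter,
    ← Ico_union_Ico_eq_Ico (show x ≤ x + (n : ℤ) by omega)
      (show x + (n : ℤ) ≤ x + (L : ℤ) by omega),
    sum_union (Ico_disjoint_Ico_consecutive _ _ _), mul_add]
  congr 1
  · rw [win_sum_shift, mul_sum]
    unfold xs
    rw [Int.cast_sum]
    refine sum_congr rfl fun t ht => ?_
    rw [mem_range] at ht
    by_cases hwt : w (x + (t : ℤ)) = some i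
    · rw [if_pos hwt, if_pos hwt,
        ← cz_nat d m δ μ U.hδ U.hμ (zf w) (x + (t : ℤ)) x Z (by omega) (hZ t ht)]
      push_cast
      congr 2
      omega
    · rw [if_neg hwt, if_neg hwt]
      simp
  · rw [mul_sum]
    refine sum_congr rfl fun j hj => ?_
    by_cases hwj : w j = some i
    · rw [if_pos hwj, if_pos hwj]
      unfold cz
      rw [← Units.val_mul]
      congr 1
      rw [show j - x = -x + j by ring, zpow_add, show Z - zf w j = Z + -(zf w j) by ring,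
        zpow_add μ]
      exact mul_mul_mul_comm _ _ _ _
    · rw [if_neg hwj, if_neg hwj, mul_zero]

private lemma win_xs_term {d m : ℕ} (C : ℤ) (hC : 0 ≤ C) (z : ℤ → ℤ) (Z x : ℤ) (n : ℕ)
    (w : ℤ → Option B) (i : B)
    (h : ∀ t : ℕ, t < n → (d : ℤ) ^ t * (m : ℤ) ^ ((Z - z (x + (t : ℤ))).toNat) ≤ C) :
    0 ≤ xs d m z Z x n w i ∧ xs d m z Z x n w i ≤ (n : ℤ) * C := by
  unfold xs
  constructor
  · refine sum_nonneg fun t _ => mul_nonneg (by positivity) ?_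
    split_ifs
    · positivity
    · exact le_refl _
  · refine (sum_le_card_nsmul (range n) _ C fun t ht => ?_).trans ?_
    · rw [mem_range] at ht
      split_ifs
      · exact h t ht
      · rw [mul_zero]
        exact hC
    · rw [card_range, nsmul_eq_mul]

theorem xs_bd {d m : ℕ} (hdm : d ≤ m) (hm : 0 < m) (z : ℤ → ℤ) (Z x : ℤ) (n E : ℕ)
    (h : ∀ t : ℕ, t < n → Z - z (x + t) ≤ (n : ℤ) - t + E) (w : ℤ → Option B) (i : B) :
    0 ≤ xs d m z Z x n w i ∧ xs d m z Z x n w i ≤ (n : ℤ) * (m : ℤ) ^ (n + E) := by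
  refine win_xs_term _ (by positivity) z Z x n w i fun t ht => ?_
  have h1 := h t ht
  have h2 : (Z - z (x + (t : ℤ))).toNat ≤ n - t + E := by omega
  have h3 : (d : ℤ) ^ t ≤ (m : ℤ) ^ t := by
    have : (d : ℤ) ≤ m := by exact_mod_cast hdm
    exact pow_le_pow_left₀ (by positivity) this t
  have h4 : (m : ℤ) ^ ((Z - z (x + (t : ℤ))).toNat) ≤ (m : ℤ) ^ (n - t + E) :=
    pow_le_pow_right₀ (by exact_mod_cast hm) h2
  calc (d : ℤ) ^ t * (m : ℤ) ^ ((Z - z (x + (t : ℤ))).toNat)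
      ≤ (m : ℤ) ^ t * (m : ℤ) ^ (n - t + E) := mul_le_mul h3 h4 (by positivity) (by positivity)
    _ = (m : ℤ) ^ (n + E) := by
        rw [← pow_add]
        congr 1
        omega

private lemma win_pow {b m Δ e k : ℕ} (hm0 : 0 < m) (hm : m ^ b < (b + 1) ^ (b + 1))
    (h : (b + 1) * e ≤ b * k + (b + 1) * Δ) : m ^ e ≤ (b + 1) ^ k * m ^ Δ := by
  have h1 : (m ^ e) ^ (b + 1) ≤ ((b + 1) ^ k * m ^ Δ) ^ (b + 1) := by
    calc (m ^ e) ^ (b + 1) = m ^ ((b + 1) * e) := by rw [← pow_mul, mul_comm]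
      _ ≤ m ^ (b * k + (b + 1) * Δ) := Nat.pow_le_pow_right hm0 h
      _ = (m ^ b) ^ k * m ^ ((b + 1) * Δ) := by rw [pow_add, pow_mul]
      _ ≤ ((b + 1) ^ (b + 1)) ^ k * m ^ ((b + 1) * Δ) :=
          Nat.mul_le_mul_right _ (Nat.pow_le_pow_left hm.le k)
      _ = ((b + 1) ^ k * m ^ Δ) ^ (b + 1) := by
          rw [mul_pow, ← pow_mul, ← pow_mul, ← pow_mul, mul_comm (b + 1) k, mul_comm (b + 1) Δ]
  exact (Nat.pow_le_pow_iff_left (by omega)).mp h1

theorem xs_bd_typ {b m L Δ : ℕ} (hm0 : 0 < m) (hm : m ^ b < (b + 1) ^ (b + 1))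
    {w : ℤ → Option B} (hw : Ty b w L Δ) (x : ℤ) (n K : ℕ) (hn : n ≤ L) (i : B) :
    0 ≤ xs (b + 1) m (zf w) (zf w (x + n) + K) x n w i ∧
      xs (b + 1) m (zf w) (zf w (x + n) + K) x n w i ≤
        (n : ℤ) * ((b : ℤ) + 1) ^ n * (m : ℤ) ^ (Δ + K) := by
  rw [mul_assoc]
  refine win_xs_term _ (by positivity) (zf w) _ x n w i fun t ht => ?_
  have hmono := (zf_isZ w).mono (show x + (t : ℤ) ≤ x + (n : ℤ) by omega)
  obtain ⟨e, he⟩ := Int.eq_ofNat_of_zero_le (sub_nonneg.mpr hmono)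
  have hty := hw (x + (t : ℤ)) (x + (n : ℤ)) (by omega) (by omega)
  rw [he] at hty
  have hty2 := (abs_le.mp hty).2
  have hsub : x + (n : ℤ) - (x + (t : ℤ)) = ((n - t : ℕ) : ℤ) := by omega
  rw [hsub] at hty2
  have hnat : (b + 1) * e ≤ b * (n - t) + (b + 1) * Δ := by
    zify
    linarith
  have hpow := win_pow hm0 hm hnat
  have hexp : (zf w (x + (n : ℤ)) + (K : ℤ) - zf w (x + (t : ℤ))).toNat = e + K := by omega
  rw [hexp]
  have hN : (b + 1) ^ t * m ^ (e + K) ≤ (b + 1) ^ n * m ^ (Δ + K) := by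
    calc (b + 1) ^ t * m ^ (e + K) = (b + 1) ^ t * m ^ e * m ^ K := by rw [pow_add]; ring
      _ ≤ (b + 1) ^ t * ((b + 1) ^ (n - t) * m ^ Δ) * m ^ K :=
          Nat.mul_le_mul_right _ (Nat.mul_le_mul_left _ hpow)
      _ = (b + 1) ^ (t + (n - t)) * m ^ (Δ + K) := by rw [pow_add, pow_add]; ring
      _ = (b + 1) ^ n * m ^ (Δ + K) := by rw [show t + (n - t) = n by omega]
  exact_mod_cast hN

end GC85
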