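import Mathlib
import Pool.Agent.Helper85.DN.Win

/-!
# DN-B1a: a small relation from two pairs which differ in short windows only

All first words have the same skeleton, so the same `zf = z`; all second words have the same `zf = z'`.
`t0` is the first position in `[0, ℓ)` with `p.1 t0 ≠ p2.1 t0` (it exists because the words are periodic
and different). Both letters are different from `none`; let `p.1 t0 = some i`.
Put `A = xs (b+1) m z (z ℓ) t0 (ℓ - t0) p.1 i - (the same for p2.1)`. By `win_id` with `x = t0`,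
`n = ℓ - t0`, `Z = z ℓ` for both words (the remaining sums agree: the words agree on `[ℓ, t0 + L)`,
note `p.1 = p2.1` on `[L, L + t0)` by the choice of `t0` and periodicity):
`δ ^ (-t0) μ ^ (z ℓ) (vc p.1 i - vc p2.1 i) = A`, and `A ≡ m ^ (z ℓ - z t0)` mod `b + 1`, `|A| ≤ ℓ m ^ ℓ`.
Same for the second words with the window `[a, a + ℓ') ∩ [0, L)`, coordinate `i`, `t0'` = the first position
with `(p.2 t = some i) ≠ (p2.2 t = some i)`; it exists, because otherwise `vc p.2 i = vc p2.2 i`, so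
`vc p.1 i = vc p2.1 i` (`l` is a unit), so `A = 0` in `ZMod g`, but `0 < |A| < g`.
This gives `A'` coprime to `b + 1` with `δ ^ (-t0') μ ^ (z' e') (vc p.2 i - vc p2.2 i) = A'`, `e'` the end of
the window. As `vc p.2 i - vc p2.2 i = l (vc p.1 i - vc p2.1 i)`,
`A' δ ^ t0' μ ^ (-z' e') = l A δ ^ t0 μ ^ (-z ℓ)`. For every `q ∈ S`, multiply by `vc q.1`, use
`l vc q.1 = vc q.2` and `vc_sh`:
`P = A' m ^ (z ℓ - z t0)`, `Q = A m ^ (z' e' - z' t0')` satisfy `P vc (sh t0 q.1) = Q vc (sh t0' q.2)`.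
-/

set_option autoImplicit false

namespace GC85

open Finset GC70

variable {B : Type} [Fintype B] [DecidableEq B]

omit [Fintype B] [DecidableEq B] in
private theorem zf_congr {w w' : ℤ → Option B} (h : ∀ j, (w j).isSome = (w' j).isSome) :
    zf w = zf w' := by
  funext j
  unfold zf
  simp only [h]

omit [Fintype B] in
/-- the first term of the integer part -/
private theorem xs_head (d m : ℕ) (z : ℤ → ℤ) (Z x : ℤ) (k : ℕ) (w : ℤ → Option B) (i : B) :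
    ∃ c : ℤ, xs d m z Z x (k + 1) w i =
      (if w x = some i then (m : ℤ) ^ ((Z - z x).toNat) else 0) + (d : ℤ) * c := by
  unfold xs
  rw [sum_range_succ']
  refine ⟨∑ t ∈ range k, (d : ℤ) ^ t * (if w (x + ((t + 1 : ℕ) : ℤ)) = some i then
    (m : ℤ) ^ ((Z - z (x + ((t + 1 : ℕ) : ℤ))).toNat) else 0), ?_⟩
  rw [mul_sum, add_comm]
  congr 1
  · simp
  · refine sum_congr rfl fun t _ => ?_
    rw [pow_succ]
    ring

/-- two words with the same skeleton which differ at `x` and agree from `x + n` to `x + L` -/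
private theorem win_dif {b m g L s : ℕ} (hb : 2 ≤ b) (hdm : b + 1 ≤ m)
    (hcop : Nat.Coprime m (b + 1)) {δ μ : (ZMod g)ˣ} (U : Un (b + 1) m g L s δ μ)
    {w w' : ℤ → Option B} (hw : Wd w L s) (hw' : Wd w' L s)
    (hs : ∀ j, (w j).isSome = (w' j).isSome) (x : ℤ) (n : ℕ) (hn : n ≤ L) (hn0 : 0 < n) (i : B)
    (hx : ¬ (w x = some i ↔ w' x = some i))
    (hr : ∀ j : ℤ, x + n ≤ j → j < x + L → (w j = some i ↔ w' j = some i)) :
    ∃ A : ℤ, IsCoprime A ((b : ℤ) + 1) ∧ |A| ≤ (n : ℤ) * (m : ℤ) ^ n ∧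
      ((δ ^ (-x) * μ ^ (zf w (x + n)) : (ZMod g)ˣ) : ZMod g) * (vc δ μ L w i - vc δ μ L w' i) =
        (A : ZMod g) := by
  have hz : zf w = zf w' := zf_congr hs
  have hIs := zf_isZ w
  have hZ : ∀ t : ℕ, t < n → zf w (x + t) ≤ zf w (x + n) := fun t ht =>
    hIs.mono (by omega)
  have e1 := win_id U hw x n hn (zf w (x + n)) hZ i
  have e2 := win_id U hw' x n hn (zf w (x + n)) (by rw [← hz]; exact hZ) i
  rw [← hz] at e2
  have hrest : (Ico (x + n) (x + L)).filter (fun j => w j = some i) =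
      (Ico (x + n) (x + L)).filter (fun j => w' j = some i) := by
    refine filter_congr fun j hj => ?_
    rw [mem_Ico] at hj
    exact hr j hj.1 hj.2
  rw [← hrest] at e2
  have hE : ∀ t : ℕ, t < n → zf w (x + n) - zf w (x + t) ≤ (n : ℤ) - t + (0 : ℕ) := by
    intro t ht
    have := hIs.lip (show x + (t : ℤ) ≤ x + n by omega)
    push_cast
    linarith
  have b1 := xs_bd (d := b + 1) hdm (by omega : 0 < m) (zf w) (zf w (x + n)) x n 0 hE w i
  have b2 := xs_bd (d := b + 1) hdm (by omega : 0 < m) (zf w) (zf w (x + n)) x n 0 hE w' i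
  refine ⟨xs (b + 1) m (zf w) (zf w (x + n)) x n w i - xs (b + 1) m (zf w) (zf w (x + n)) x n w' i,
    ?_, ?_, ?_⟩
  · obtain ⟨k, rfl⟩ : ∃ k, n = k + 1 := ⟨n - 1, by omega⟩
    obtain ⟨c, hc⟩ := xs_head (b + 1) m (zf w) (zf w (x + ((k + 1 : ℕ) : ℤ))) x k w i
    obtain ⟨c', hc'⟩ := xs_head (b + 1) m (zf w) (zf w (x + ((k + 1 : ℕ) : ℤ))) x k w' i
    have hmc : IsCoprime ((m : ℤ) ^ ((zf w (x + ((k + 1 : ℕ) : ℤ)) - zf w x).toNat))
        ((b : ℤ) + 1) := by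
      apply IsCoprime.pow_left
      have := Nat.isCoprime_iff_coprime.2 hcop
      push_cast at this
      exact this
    rw [hc, hc']
    push_cast
    by_cases h1 : w x = some i
    · have h2 : ¬ w' x = some i := fun h => hx ⟨fun _ => h, fun _ => h1⟩
      rw [if_pos h1, if_neg h2]
      have h3 := hmc.add_mul_left_left (c - c')
      have h4 : (m : ℤ) ^ ((zf w (x + ((k + 1 : ℕ) : ℤ)) - zf w x).toNat) + ((b : ℤ) + 1) * c -
          (0 + ((b : ℤ) + 1) * c') =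
          (m : ℤ) ^ ((zf w (x + ((k + 1 : ℕ) : ℤ)) - zf w x).toNat) + ((b : ℤ) + 1) * (c - c') := by
        ring
      push_cast at h3 h4
      rw [h4]
      exact h3
    · have h2 : w' x = some i := by
        by_contra h
        exact hx ⟨fun h' => absurd h' h1, fun h' => absurd h' h⟩
      rw [if_neg h1, if_pos h2]
      have h3 := hmc.neg_left.add_mul_left_left (c - c')
      have h4 : 0 + ((b : ℤ) + 1) * c -
          ((m : ℤ) ^ ((zf w (x + ((k + 1 : ℕ) : ℤ)) - zf w x).toNat) + ((b : ℤ) + 1) * c') =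
          -(m : ℤ) ^ ((zf w (x + ((k + 1 : ℕ) : ℤ)) - zf w x).toNat) +
            ((b : ℤ) + 1) * (c - c') := by
        ring
      push_cast at h3 h4
      rw [h4]
      exact h3
  · rw [abs_le]
    rw [add_zero] at b1 b2
    constructor <;> linarith [b1.1, b1.2, b2.1, b2.2]
  · rw [mul_sub, e1, e2]
    push_cast
    ring

omit [DecidableEq B] [Fintype B] in
private theorem first_pos (a e : ℤ) (Q : ℤ → Prop) (h : ∃ t, a ≤ t ∧ t < e ∧ Q t) :
    ∃ t, a ≤ t ∧ t < e ∧ Q t ∧ ∀ j, a ≤ j → j < t → ¬ Q j := by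
  classical
  obtain ⟨t, h1, h2, h3⟩ := h
  have hex : ∃ n : ℕ, a + n < e ∧ Q (a + n) := ⟨(t - a).toNat, by
    rw [Int.toNat_of_nonneg (by omega), add_sub_cancel]
    exact ⟨h2, h3⟩⟩
  refine ⟨a + (Nat.find hex : ℕ), by omega, (Nat.find_spec hex).1, (Nat.find_spec hex).2, ?_⟩
  intro j hj hj2 hQ
  have := Nat.find_min hex (m := (j - a).toNat) (by omega)
  apply this
  rw [Int.toNat_of_nonneg (by omega), add_sub_cancel]
  exact ⟨by have := (Nat.find_spec hex).1; omega, hQ⟩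

private theorem unit_id {G : Type*} [CommGroup G] (D0 D1 M0 M0e M1 M1e : G) :
    D1 * M1e * (M0e * M0⁻¹) * (D0 * M0) = D0 * M0e * (M1e * M1⁻¹) * (D1 * M1) := by
  have h1 : (M0e * M0⁻¹) * (D0 * M0) = M0e * D0 := by
    rw [mul_comm D0 M0, mul_assoc, ← mul_assoc M0⁻¹, inv_mul_cancel, one_mul]
  have h2 : (M1e * M1⁻¹) * (D1 * M1) = M1e * D1 := by
    rw [mul_comm D1 M1, mul_assoc, ← mul_assoc M1⁻¹, inv_mul_cancel, one_mul]
  rw [mul_assoc (D1 * M1e), h1, mul_assoc (D0 * M0e), h2]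
  ac_rfl

theorem extract {b m g L s ℓ : ℕ} (hB : Fintype.card B = b) (hb : 2 ≤ b) (hdm : b + 1 ≤ m)
    (hcop : Nat.Coprime m (b + 1)) {δ μ : (ZMod g)ˣ} (U : Un (b + 1) m g L s δ μ)
    (hℓ : ℓ ≤ L) (hL : 0 < L) (hX : 2 * ℓ * m ^ ℓ < g)
    (S : Finset ((ℤ → Option B) × (ℤ → Option B)))
    (hS : ∀ p ∈ S, Wd p.1 L s ∧ Wd p.2 L s)
    (hsk : ∀ p ∈ S, ∀ p' ∈ S, ∀ j, (p.1 j).isSome = (p'.1 j).isSome ∧
      (p.2 j).isSome = (p'.2 j).isSome)
    (l : (ZMod g)ˣ) (hrel : ∀ p ∈ S, ∀ i, vc δ μ L p.2 i = l * vc δ μ L p.1 i)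
    (p p2 : (ℤ → Option B) × (ℤ → Option B)) (hp : p ∈ S) (hp2 : p2 ∈ S) (hne : p.1 ≠ p2.1)
    (h1 : ∀ t : ℤ, (ℓ : ℤ) ≤ t → t < L → p.1 t = p2.1 t) (a : ℤ) (ha : 0 ≤ a)
    (h2 : ∀ t : ℤ, 0 ≤ t → t < L → ¬ (a ≤ t ∧ t < a + ℓ) → p.2 t = p2.2 t) :
    ∃ (h h' P Q : ℤ), 0 ≤ h ∧ h < L ∧ 0 ≤ h' ∧ h' < L ∧ IsCoprime P ((b : ℤ) + 1) ∧
      IsCoprime Q ((b : ℤ) + 1) ∧ |P| ≤ (ℓ : ℤ) * (m : ℤ) ^ (2 * ℓ) ∧
      |Q| ≤ (ℓ : ℤ) * (m : ℤ) ^ (2 * ℓ) ∧
      ∀ q ∈ S, ∀ i, (P : ZMod g) * vc δ μ L (sh h q.1) i = (Q : ZMod g) * vc δ μ L (sh h' q.2) i := by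
  have hw1 := (hS p hp).1
  have hw1' := (hS p2 hp2).1
  have hw2 := (hS p hp).2
  have hw2' := (hS p2 hp2).2
  have hs1 : ∀ j, (p.1 j).isSome = (p2.1 j).isSome := fun j => (hsk p hp p2 hp2 j).1
  have hs2 : ∀ j, (p.2 j).isSome = (p2.2 j).isSome := fun j => (hsk p hp p2 hp2 j).2
  have hz1 : zf p.1 = zf p2.1 := zf_congr hs1
  have hz2 : zf p.2 = zf p2.2 := zf_congr hs2
  -- the first difference of the first words
  have hex1 : ∃ t : ℤ, 0 ≤ t ∧ t < (ℓ : ℤ) ∧ p.1 t ≠ p2.1 t := by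
    by_contra hcon
    push Not at hcon
    apply hne
    refine Per.ext hL hw1.per hw1'.per fun j hj => ?_
    by_cases hjl : (j : ℤ) < ℓ
    · exact hcon j (by omega) hjl
    · exact h1 j (by omega) (by omega)
  obtain ⟨t0, ht0, ht0l, hdiff, hmin⟩ := first_pos 0 ℓ (fun t => p.1 t ≠ p2.1 t) hex1
  obtain ⟨i, hi⟩ : ∃ i, p.1 t0 = some i := by
    rw [← Option.isSome_iff_exists]
    by_contra hcon
    have h3 : p.1 t0 = none := by simpa using hcon
    have h4 : p2.1 t0 = none := by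
      have := hs1 t0
      rw [h3] at this
      simpa using this.symm
    exact hdiff (by rw [h3, h4])
  obtain ⟨n, hn⟩ : ∃ n : ℕ, (n : ℤ) = ℓ - t0 := ⟨(ℓ - t0).toNat, by omega⟩
  have hxor1 : ¬ (p.1 t0 = some i ↔ p2.1 t0 = some i) := by
    intro h
    exact hdiff (by rw [hi, h.1 hi])
  obtain ⟨A, hAc, hAb, hA⟩ := win_dif hb hdm hcop U hw1 hw1' hs1 t0 n (by omega) (by omega) i hxor1
    (fun j hj hj2 => by
      by_cases hjL : j < L
      · rw [h1 j (by omega) hjL]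
      · have e1 := hw1.per (j - L)
        have e2 := hw1'.per (j - L)
        rw [sub_add_cancel] at e1 e2
        have h3 := hmin (j - L) (by omega) (by omega)
        rw [e1, e2, not_ne_iff.1 h3])
  have hmpos : (0 : ℤ) < m := by omega
  have hm1 : (1 : ℤ) ≤ m := by omega
  have hAb2 : |A| ≤ (ℓ : ℤ) * (m : ℤ) ^ ℓ := by
    refine hAb.trans ?_
    have h3 : (n : ℤ) ≤ ℓ := by omega
    have h4 : (m : ℤ) ^ n ≤ (m : ℤ) ^ ℓ := pow_le_pow_right₀ hm1 (by omega)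
    exact mul_le_mul h3 h4 (by positivity) (by positivity)
  have hA0 : A ≠ 0 := by
    intro h
    rw [h] at hAc
    have h3 := isCoprime_zero_left.1 hAc
    have h4 := Int.isUnit_iff.1 h3
    omega
  have hXZ : 2 * (ℓ : ℤ) * (m : ℤ) ^ ℓ < g := by exact_mod_cast hX
  have hAg : (A : ZMod g) ≠ 0 := by
    intro h
    rw [ZMod.intCast_zmod_eq_zero_iff_dvd] at h
    have h3 := Int.eq_zero_of_abs_lt_dvd h (by
      have : 0 ≤ (ℓ : ℤ) * (m : ℤ) ^ ℓ := by positivity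
      linarith)
    exact hA0 h3
  -- the second words
  obtain ⟨e', he'⟩ : ∃ e' : ℤ, e' = min (a + ℓ) L := ⟨_, rfl⟩
  have hex2 : ∃ t : ℤ, a ≤ t ∧ t < e' ∧ ¬ (p.2 t = some i ↔ p2.2 t = some i) := by
    by_contra hcon
    push Not at hcon
    have hall : ∀ t : ℤ, 0 ≤ t → t < L → (p.2 t = some i ↔ p2.2 t = some i) := by
      intro t ht htL
      by_cases hta : a ≤ t ∧ t < a + ℓ
      · exact hcon t hta.1 (by rw [he']; exact lt_min hta.2 htL)
      · rw [h2 t ht htL hta]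
    have hv : vc δ μ L p.2 i = vc δ μ L p2.2 i := by
      unfold vc
      rw [hz2]
      refine sum_congr (filter_congr fun j hj => ?_) fun _ _ => rfl
      rw [mem_Ico] at hj
      exact hall j hj.1 hj.2
    rw [hrel p hp i, hrel p2 hp2 i] at hv
    have hv2 : vc δ μ L p.1 i = vc δ μ L p2.1 i := (Units.mul_right_inj l).1 hv
    rw [hv2, sub_self, mul_zero] at hA
    exact hAg hA.symm
  obtain ⟨t1, ht1, ht1l, hdiff2, hmin2⟩ := first_pos a e'
    (fun t => ¬ (p.2 t = some i ↔ p2.2 t = some i)) hex2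
  have hea : e' ≤ a + ℓ := by rw [he']; exact min_le_left _ _
  have heL : e' ≤ L := by rw [he']; exact min_le_right _ _
  obtain ⟨n', hn'⟩ : ∃ n' : ℕ, (n' : ℤ) = e' - t1 := ⟨(e' - t1).toNat, by omega⟩
  obtain ⟨A', hAc', hAb', hA'⟩ := win_dif hb hdm hcop U hw2 hw2' hs2 t1 n' (by omega) (by omega) i
    hdiff2 (fun j hj hj2 => by
      by_cases hjL : j < L
      · have : ¬ (a ≤ j ∧ j < a + ℓ) := by
          intro h
          have h3 : j < e' := by rw [he']; exact lt_min h.2 hjL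
          omega
        rw [h2 j (by omega) hjL this]
      · have e1 := hw2.per (j - L)
        have e2 := hw2'.per (j - L)
        rw [sub_add_cancel] at e1 e2
        rw [e1, e2]
        by_cases hja : a ≤ j - L
        · exact not_not.1 (hmin2 (j - L) hja (by omega))
        · rw [h2 (j - L) (by omega) (by omega) (by omega)])
  have hAb2' : |A'| ≤ (ℓ : ℤ) * (m : ℤ) ^ ℓ := by
    refine hAb'.trans ?_
    have h3 : (n' : ℤ) ≤ ℓ := by omega
    have h4 : (m : ℤ) ^ n' ≤ (m : ℤ) ^ ℓ := pow_le_pow_right₀ hm1 (by omega)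
    exact mul_le_mul h3 h4 (by positivity) (by positivity)
  -- the heights
  have hI1 := zf_isZ p.1
  have hI2 := zf_isZ p.2
  have k1 : 0 ≤ zf p.1 (t0 + n) - zf p.1 t0 := sub_nonneg.2 (hI1.mono (by omega))
  have k2 : 0 ≤ zf p.2 (t1 + n') - zf p.2 t1 := sub_nonneg.2 (hI2.mono (by omega))
  have k3 : zf p.1 (t0 + n) - zf p.1 t0 ≤ ℓ := by
    have := hI1.lip (show t0 ≤ t0 + n by omega)
    omega
  have k4 : zf p.2 (t1 + n') - zf p.2 t1 ≤ ℓ := by
    have := hI2.lip (show t1 ≤ t1 + n' by omega)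
    omega
  obtain ⟨E, hE⟩ : ∃ E : ℕ, (E : ℤ) = zf p.1 (t0 + n) - zf p.1 t0 :=
    ⟨(zf p.1 (t0 + n) - zf p.1 t0).toNat, by omega⟩
  obtain ⟨E', hE'⟩ : ∃ E' : ℕ, (E' : ℤ) = zf p.2 (t1 + n') - zf p.2 t1 :=
    ⟨(zf p.2 (t1 + n') - zf p.2 t1).toNat, by omega⟩
  have hmcop : IsCoprime (m : ℤ) ((b : ℤ) + 1) := by
    have := Nat.isCoprime_iff_coprime.2 hcop
    push_cast at this
    exact this
  have bound : ∀ (C : ℤ) (F : ℕ), |C| ≤ (ℓ : ℤ) * (m : ℤ) ^ ℓ → F ≤ ℓ →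
      |C * (m : ℤ) ^ F| ≤ (ℓ : ℤ) * (m : ℤ) ^ (2 * ℓ) := by
    intro C F hC hF
    rw [abs_mul, abs_of_pos (pow_pos hmpos F), two_mul, pow_add, ← mul_assoc]
    exact mul_le_mul hC (pow_le_pow_right₀ hm1 hF) (by positivity) (by positivity)
  refine ⟨t0, t1, A' * (m : ℤ) ^ E, A * (m : ℤ) ^ E', ht0, by omega, by omega, by omega,
    hAc'.mul_left (hmcop.pow_left), hAc.mul_left (hmcop.pow_left),
    bound A' E hAb2' (by omega), bound A E' hAb2 (by omega), ?_⟩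
  intro q hq k
  have hzq1 : zf q.1 = zf p.1 := zf_congr fun j => (hsk q hq p hp j).1
  have hzq2 : zf q.2 = zf p.2 := zf_congr fun j => (hsk q hq p hp j).2
  rw [vc_sh U (hS q hq).1 t0 k, vc_sh U (hS q hq).2 t1 k, hrel q hq k, hzq1, hzq2]
  -- the relation between `A` and `A'`
  rw [hrel p hp i, hrel p2 hp2 i, ← mul_sub] at hA'
  have hmE : ((m : ZMod g)) ^ E = ((μ ^ (zf p.1 (t0 + n) - zf p.1 t0) : (ZMod g)ˣ) : ZMod g) := by
    rw [← hE, zpow_natCast, Units.val_pow_eq_pow_val, U.hμ]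
  have hmE' : ((m : ZMod g)) ^ E' =
      ((μ ^ (zf p.2 (t1 + n') - zf p.2 t1) : (ZMod g)ˣ) : ZMod g) := by
    rw [← hE', zpow_natCast, Units.val_pow_eq_pow_val, U.hμ]
  push_cast
  rw [hmE, hmE', ← hA, ← hA']
  set v := vc δ μ L p.1 i - vc δ μ L p2.1 i with hv
  set u := vc δ μ L q.1 k with hu
  have u1 : (δ ^ (-t1) * μ ^ zf p.2 (t1 + n') : (ZMod g)ˣ) *
      (μ ^ (zf p.1 (t0 + n) - zf p.1 t0)) * (δ ^ (-t0) * μ ^ zf p.1 t0) =
      (δ ^ (-t0) * μ ^ zf p.1 (t0 + n)) * (μ ^ (zf p.2 (t1 + n') - zf p.2 t1)) *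
        (δ ^ (-t1) * μ ^ zf p.2 t1) := by
    rw [zpow_sub, zpow_sub]
    exact unit_id _ _ _ _ _ _
  have u2 := congrArg (Units.val) u1
  simp only [Units.val_mul] at u2 ⊢
  linear_combination (v * u * (l : ZMod g)) * u2

end GC85
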