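import Mathlib
import Pool.Agent.Helper85.DN.Defs

/-!
# DN-B1c: a counting lemma

`S` is a set of pairs of words of length `L`, `d = Fintype.card B + 1`. Two elements of `S` are called
`T`-close if their first words agree off `T`.

1. The number of pairs `(P, P2)` of `T`-close elements is at least `S.card ^ 2 / d ^ (L - T.card)`
   (Cauchy-Schwarz: `sq_sum_le_card_mul_sum_sq`, at most `d ^ (L - T.card)` classes).
2. The number of `T`-close pairs with `k ≤ #{t | P.2 t ≠ P2.2 t}` is at most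
   `d ^ (2 * T.card) * A * d ^ ρ`: choose `P.1` and `P2.1` on `T`, then `(P.2, P2.2)` (`h2`), then
   `P.1` (`h1`); `P2.1` is then determined.
3. By `n1` this is at most half of 1. So some `P0 ∈ S` has a set `C` of `T`-close partners `P` with less
   than `k` differences between `P0.2` and `P.2`, and `2 * C.card * d ^ κ ≥ d ^ T.card`. The image `X` of `C`
   under `P ↦ P.1` satisfies `C.card ≤ X.card * d ^ ρ` (`h1'`).
4. For `x ∈ X` choose `P ∈ C` with `P.1 = x`, and `j` such that at most `k - k / M` of the differences of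
   `P0.2` and `P.2` are outside `W j` (one `j` has at least the average number of differences). The
   restriction of `P.2` to the complement of `W j` (given `j`) takes at most `2 ^ L * d ^ (k - k / M)` values
   (set of the differences, letters there). By `n2`, `X.card > M * 2 ^ L * d ^ (k - k / M)`, so two different
   `x` have the same `j` and the same restriction.
-/

set_option autoImplicit false

namespace GC85

open Finset GC70

variable {B : Type} [Fintype B] [DecidableEq B]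

private lemma B1c_restr {L d : ℕ} (hd : Fintype.card B + 1 = d) (E : Finset (Fin L))
    (y0 : Fin L → Option B) :
    (univ.filter (fun f : Fin L → Option B => ∀ t, t ∉ E → f t = y0 t)).card ≤ d ^ E.card := by
  have hc : Fintype.card ({t // t ∈ E} → Option B) = d ^ E.card := by
    rw [Fintype.card_fun, Fintype.card_option, hd, Fintype.card_coe]
  rw [← hc, ← Finset.card_univ]
  refine Finset.card_le_card_of_injOn (fun f t => f t.1) (fun f _ => mem_coe.mpr (mem_univ _)) ?_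
  intro f hf g hg h
  rw [mem_coe, mem_filter] at hf hg
  funext t
  by_cases ht : t ∈ E
  · exact congrFun h ⟨t, ht⟩
  · rw [hf.2 t ht, hg.2 t ht]

private lemma B1c_ball {L d : ℕ} (hd : Fintype.card B + 1 = d) (y0 : Fin L → Option B) (m : ℕ) :
    (univ.filter (fun f : Fin L → Option B =>
      (univ.filter (fun t => y0 t ≠ f t)).card ≤ m)).card ≤ 2 ^ L * d ^ m := by
  have hsub : univ.filter (fun f : Fin L → Option B =>
      (univ.filter (fun t => y0 t ≠ f t)).card ≤ m) ⊆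
      (univ.filter (fun E : Finset (Fin L) => E.card ≤ m)).biUnion
        (fun E => univ.filter (fun f : Fin L → Option B => ∀ t, t ∉ E → f t = y0 t)) := by
    intro f hf
    rw [mem_filter] at hf
    rw [mem_biUnion]
    refine ⟨univ.filter (fun t => y0 t ≠ f t), ?_, ?_⟩
    · rw [mem_filter]
      exact ⟨mem_univ _, hf.2⟩
    · rw [mem_filter]
      refine ⟨mem_univ _, fun t ht => ?_⟩
      by_contra hne
      exact ht (mem_filter.mpr ⟨mem_univ _, fun h => hne h.symm⟩)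
  refine (card_le_card hsub).trans ?_
  refine (card_biUnion_le_card_mul _ _ (d ^ m) ?_).trans ?_
  · intro E hE
    rw [mem_filter] at hE
    refine (B1c_restr hd E y0).trans ?_
    exact Nat.pow_le_pow_right (by omega) hE.2
  · refine Nat.mul_le_mul_right _ ?_
    refine (card_filter_le _ _).trans ?_
    rw [Finset.card_univ, Fintype.card_finset, Fintype.card_fin]

private lemma B1c_cs {L d : ℕ} (hd : Fintype.card B + 1 = d)
    (S : Finset ((Fin L → Option B) × (Fin L → Option B))) (T : Finset (Fin L)) :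
    S.card ^ 2 ≤ d ^ (L - T.card) *
      ((S ×ˢ S).filter (fun q => ∀ t, t ∉ T → q.1.1 t = q.2.1 t)).card := by
  obtain ⟨cl, hcl⟩ : ∃ cl : ((Fin L → Option B) × (Fin L → Option B)) → ({t // t ∉ T} → Option B),
      ∀ P t, cl P t = P.1 t.1 := ⟨fun P t => P.1 t.1, fun _ _ => rfl⟩
  have hc : Fintype.card ({t // t ∉ T} → Option B) = d ^ (L - T.card) := by
    rw [Fintype.card_fun, Fintype.card_option, hd, Fintype.card_subtype_compl, Fintype.card_coe,
      Fintype.card_fin]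
  have h1 : S.card = ∑ c : {t // t ∉ T} → Option B, (S.filter (fun P => cl P = c)).card :=
    Finset.card_eq_sum_card_fiberwise (fun P _ => mem_coe.mpr (mem_univ _))
  have h2 : ((S ×ˢ S).filter (fun q => ∀ t, t ∉ T → q.1.1 t = q.2.1 t)).card =
      ∑ c : {t // t ∉ T} → Option B, (S.filter (fun P => cl P = c)).card ^ 2 := by
    rw [Finset.card_eq_sum_card_fiberwise (f := fun q => cl q.1) (t := univ)
      (fun P _ => mem_coe.mpr (mem_univ _))]
    refine sum_congr rfl fun c _ => ?_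
    rw [sq, ← card_product]
    congr 1
    ext ⟨P, Q⟩
    simp only [mem_filter, mem_product]
    constructor
    · rintro ⟨⟨⟨hP, hQ⟩, hPQ⟩, hc⟩
      refine ⟨⟨hP, hc⟩, hQ, ?_⟩
      rw [← hc]
      funext t
      rw [hcl, hcl]
      exact (hPQ t.1 t.2).symm
    · rintro ⟨⟨hP, hc⟩, hQ, hc'⟩
      refine ⟨⟨⟨hP, hQ⟩, fun t ht => ?_⟩, hc⟩
      have := congrFun (hc.trans hc'.symm) ⟨t, ht⟩
      rwa [hcl, hcl] at this
  rw [h2, h1]
  have := sq_sum_le_card_mul_sum_sq (s := (univ : Finset ({t // t ∉ T} → Option B)))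
    (f := fun c => (S.filter (fun P => cl P = c)).card)
  rw [Finset.card_univ, hc] at this
  exact this

private lemma B1c_bad {L d : ℕ} (hd : Fintype.card B + 1 = d)
    (S : Finset ((Fin L → Option B) × (Fin L → Option B))) (T : Finset (Fin L)) (ρ k A : ℕ)
    (h1 : ∀ y, (S.filter (fun p => p.2 = y)).card ≤ d ^ ρ)
    (h2 : ∀ a a2 : Fin L → Option B,
      ∀ Y : Finset ((Fin L → Option B) × (Fin L → Option B)),
      (∀ q ∈ Y, ∃ x x2, (x, q.1) ∈ S ∧ (x2, q.2) ∈ S ∧ (∀ t ∈ T, x t = a t ∧ x2 t = a2 t) ∧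
        (∀ t, t ∉ T → x t = x2 t) ∧ k ≤ (univ.filter (fun t => q.1 t ≠ q.2 t)).card) →
      Y.card ≤ A) :
    ((S ×ˢ S).filter (fun q => (∀ t, t ∉ T → q.1.1 t = q.2.1 t) ∧
      k ≤ (univ.filter (fun t => q.1.2 t ≠ q.2.2 t)).card)).card ≤ d ^ (2 * T.card) * A * d ^ ρ := by
  obtain ⟨Bad, hBad⟩ : ∃ Bad : Finset (((Fin L → Option B) × (Fin L → Option B)) ×
      ((Fin L → Option B) × (Fin L → Option B))), Bad = (S ×ˢ S).filter
        (fun q => (∀ t, t ∉ T → q.1.1 t = q.2.1 t) ∧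
        k ≤ (univ.filter (fun t => q.1.2 t ≠ q.2.2 t)).card) := ⟨_, rfl⟩
  rw [← hBad]
  obtain ⟨re, hre⟩ : ∃ re : (Fin L → Option B) → ({t // t ∈ T} → Option B),
      ∀ x t, re x t = x t.1 := ⟨fun x t => x t.1, fun _ _ => rfl⟩
  have hc : Fintype.card (({t // t ∈ T} → Option B) × ({t // t ∈ T} → Option B)) =
      d ^ (2 * T.card) := by
    rw [Fintype.card_prod, Fintype.card_fun, Fintype.card_option, hd, Fintype.card_coe, ← pow_add,
      two_mul]
  have key : Bad.card ≤ (d ^ ρ * A) *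
      (univ : Finset (({t // t ∈ T} → Option B) × ({t // t ∈ T} → Option B))).card := by
    refine card_le_mul_card_image_of_maps_to (f := fun q => (re q.1.1, re q.2.1))
      (fun q _ => mem_univ _) _ ?_
    intro b _
    obtain ⟨F, hF⟩ : ∃ F, F = Bad.filter (fun q => (re q.1.1, re q.2.1) = b) := ⟨_, rfl⟩
    rw [← hF]
    obtain ⟨Y, hY⟩ : ∃ Y, Y = F.image (fun q => (q.1.2, q.2.2)) := ⟨_, rfl⟩
    have hmem : ∀ q ∈ F, (q.1 ∈ S ∧ q.2 ∈ S) ∧ (∀ t, t ∉ T → q.1.1 t = q.2.1 t) ∧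
        k ≤ (univ.filter (fun t => q.1.2 t ≠ q.2.2 t)).card ∧ re q.1.1 = b.1 ∧ re q.2.1 = b.2 := by
      intro q hq
      rw [hF, mem_filter, hBad, mem_filter, mem_product] at hq
      obtain ⟨⟨h3, h4, h5⟩, h6⟩ := hq
      refine ⟨h3, h4, h5, ?_, ?_⟩
      · rw [← h6]
      · rw [← h6]
    have hYc : Y.card ≤ A := by
      refine h2 (fun t => if h : t ∈ T then b.1 ⟨t, h⟩ else none)
        (fun t => if h : t ∈ T then b.2 ⟨t, h⟩ else none) Y ?_
      intro y hy
      rw [hY, mem_image] at hy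
      obtain ⟨q, hq, rfl⟩ := hy
      obtain ⟨h3, h4, h5, h6, h7⟩ := hmem q hq
      refine ⟨q.1.1, q.2.1, h3.1, h3.2, fun t ht => ?_, h4, h5⟩
      rw [dif_pos ht, dif_pos ht, ← h6, ← h7, hre, hre]
      exact ⟨rfl, rfl⟩
    refine le_trans ?_ (Nat.mul_le_mul_left (d ^ ρ) hYc)
    refine card_le_mul_card_image_of_maps_to (f := fun q => (q.1.2, q.2.2))
      (fun q hq => by rw [hY]; exact mem_image_of_mem _ hq) _ ?_
    intro y _
    refine le_trans ?_ (h1 y.1)
    refine card_le_card_of_injOn (fun q => q.1) ?_ ?_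
    · intro q hq
      rw [mem_coe, mem_filter] at hq
      rw [mem_coe, mem_filter]
      exact ⟨(hmem q hq.1).1.1, by rw [← hq.2]⟩
    · intro q hq q' hq' he
      rw [mem_coe, mem_filter] at hq hq'
      obtain ⟨-, h4, -, -, h7⟩ := hmem q hq.1
      obtain ⟨-, h4', -, -, h7'⟩ := hmem q' hq'.1
      have he : q.1 = q'.1 := he
      refine Prod.ext he (Prod.ext ?_ ?_)
      · funext t
        by_cases ht : t ∈ T
        · have := congrFun (h7.trans h7'.symm) ⟨t, ht⟩
          rwa [hre, hre] at this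
        · rw [← h4 t ht, ← h4' t ht, he]
      · have h8 := hq.2.trans hq'.2.symm
        exact (Prod.mk.inj h8).2
  rw [Finset.card_univ, hc] at key
  refine key.trans (le_of_eq ?_)
  ring

private lemma B1c_best {L d : ℕ} (hd : Fintype.card B + 1 = d)
    (S : Finset ((Fin L → Option B) × (Fin L → Option B))) (T : Finset (Fin L)) (κ ρ k A : ℕ)
    (hS : d ^ L ≤ S.card * d ^ κ)
    (h1 : ∀ y, (S.filter (fun p => p.2 = y)).card ≤ d ^ ρ)
    (h2 : ∀ a a2 : Fin L → Option B,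
      ∀ Y : Finset ((Fin L → Option B) × (Fin L → Option B)),
      (∀ q ∈ Y, ∃ x x2, (x, q.1) ∈ S ∧ (x2, q.2) ∈ S ∧ (∀ t ∈ T, x t = a t ∧ x2 t = a2 t) ∧
        (∀ t, t ∉ T → x t = x2 t) ∧ k ≤ (univ.filter (fun t => q.1 t ≠ q.2 t)).card) →
      Y.card ≤ A)
    (n1 : 2 * (d ^ (2 * T.card) * A * d ^ ρ) * d ^ (L - T.card) * d ^ (2 * κ) ≤ d ^ (2 * L)) :
    ∃ P0 ∈ S, d ^ T.card ≤ 2 * (S.filter (fun P => (∀ t, t ∉ T → P0.1 t = P.1 t) ∧
      (univ.filter (fun t => P0.2 t ≠ P.2 t)).card < k)).card * d ^ κ := by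
  have hd1 : 0 < d := by omega
  have hSpos : 0 < S.card := by
    rcases Nat.eq_zero_or_pos S.card with h | h
    · rw [h, zero_mul] at hS
      have := Nat.pow_pos (n := L) hd1
      omega
    · exact h
  obtain ⟨c, hc⟩ : ∃ c : ((Fin L → Option B) × (Fin L → Option B)) → ℕ,
    ∀ P0, c P0 = (S.filter (fun P => (∀ t, t ∉ T → P0.1 t = P.1 t) ∧
      (univ.filter (fun t => P0.2 t ≠ P.2 t)).card < k)).card := ⟨_, fun _ => rfl⟩
  obtain ⟨P0, hP0, hmax⟩ := exists_max_image S c (card_pos.mp hSpos)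
  refine ⟨P0, hP0, ?_⟩
  rw [← hc]
  have hcs := B1c_cs hd S T
  have hbad := B1c_bad hd S T ρ k A h1 h2
  obtain ⟨N, hN⟩ : ∃ N, N = ((S ×ˢ S).filter (fun q => ∀ t, t ∉ T → q.1.1 t = q.2.1 t)).card :=
    ⟨_, rfl⟩
  obtain ⟨Nb, hNb⟩ : ∃ N, N = ((S ×ˢ S).filter (fun q => (∀ t, t ∉ T → q.1.1 t = q.2.1 t) ∧
      k ≤ (univ.filter (fun t => q.1.2 t ≠ q.2.2 t)).card)).card := ⟨_, rfl⟩
  obtain ⟨G, hG⟩ : ∃ G, G = (S ×ˢ S).filter (fun q => (∀ t, t ∉ T → q.1.1 t = q.2.1 t) ∧
      (univ.filter (fun t => q.1.2 t ≠ q.2.2 t)).card < k) := ⟨_, rfl⟩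
  rw [← hN] at hcs
  rw [← hNb] at hbad
  have hsplit : N ≤ Nb + G.card := by
    rw [hN, hNb, hG]
    refine le_trans (card_le_card ?_) (card_union_le _ _)
    intro q hq
    rw [mem_filter] at hq
    rw [mem_union, mem_filter, mem_filter]
    rcases le_or_gt k (univ.filter (fun t => q.1.2 t ≠ q.2.2 t)).card with h | h
    · exact Or.inl ⟨hq.1, hq.2, h⟩
    · exact Or.inr ⟨hq.1, hq.2, h⟩
  have hGc : G.card ≤ c P0 * S.card := by
    refine card_le_mul_card_image_of_maps_to (f := fun q => q.1) ?_ _ ?_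
    · intro q hq
      rw [hG, mem_filter, mem_product] at hq
      exact hq.1.1
    · intro P hP
      refine le_trans ?_ (hmax P hP)
      rw [hc]
      refine card_le_card_of_injOn (fun q => q.2) ?_ ?_
      · intro q hq
        rw [mem_coe, mem_filter, hG, mem_filter, mem_product] at hq
        obtain ⟨⟨⟨-, h3⟩, h4, h5⟩, rfl⟩ := hq
        rw [mem_coe, mem_filter]
        exact ⟨h3, h4, h5⟩
      · intro q hq q' hq' he
        rw [mem_coe, mem_filter] at hq hq'
        exact Prod.ext (hq.2.trans hq'.2.symm) he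
  obtain ⟨u, hu⟩ : ∃ u, u = d ^ (L - T.card) := ⟨_, rfl⟩
  obtain ⟨w, hw⟩ : ∃ w, w = d ^ κ := ⟨_, rfl⟩
  obtain ⟨Bd, hBd⟩ : ∃ Bd, Bd = d ^ (2 * T.card) * A * d ^ ρ := ⟨_, rfl⟩
  have hupos : 0 < u := by rw [hu]; exact Nat.pow_pos hd1
  have hwpos : 0 < w := by rw [hw]; exact Nat.pow_pos hd1
  have hL : d ^ L = u * d ^ T.card := by
    rw [hu, ← pow_add]
    congr 1
    have := card_le_univ T
    rw [Fintype.card_fin] at this
    omega
  have hw2 : d ^ (2 * κ) = w * w := by rw [hw, ← pow_add, two_mul]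
  have hL2 : d ^ (2 * L) = d ^ L * d ^ L := by rw [← pow_add, two_mul]
  rw [← hBd] at n1 hbad
  rw [← hu] at n1 hcs
  rw [← hw] at hS
  rw [hw2, hL2] at n1
  rw [← hw]
  have e1 : d ^ L * d ^ L ≤ (S.card * w) * (S.card * w) := Nat.mul_le_mul hS hS
  have e2 : 2 * Bd * (u * (w * w)) ≤ N * (u * (w * w)) := by
    calc 2 * Bd * (u * (w * w)) = 2 * Bd * u * (w * w) := by ring
      _ ≤ d ^ L * d ^ L := n1
      _ ≤ (S.card * w) * (S.card * w) := e1
      _ = S.card ^ 2 * (w * w) := by ring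
      _ ≤ (u * N) * (w * w) := Nat.mul_le_mul_right _ hcs
      _ = N * (u * (w * w)) := by ring
  have e3 : 2 * Bd ≤ N := Nat.le_of_mul_le_mul_right e2 (by positivity)
  have e4 : N ≤ 2 * (c P0 * S.card) := by omega
  have e5 : S.card * S.card ≤ (2 * c P0 * u) * S.card := by
    calc S.card * S.card = S.card ^ 2 := by ring
      _ ≤ u * N := hcs
      _ ≤ u * (2 * (c P0 * S.card)) := Nat.mul_le_mul_left _ e4
      _ = (2 * c P0 * u) * S.card := by ring
  have e6 : S.card ≤ 2 * c P0 * u := Nat.le_of_mul_le_mul_right e5 hSpos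
  have e7 : u * d ^ T.card ≤ u * (2 * c P0 * w) := by
    calc u * d ^ T.card = d ^ L := hL.symm
      _ ≤ S.card * w := hS
      _ ≤ (2 * c P0 * u) * w := Nat.mul_le_mul_right _ e6
      _ = u * (2 * c P0 * w) := by ring
  exact Nat.le_of_mul_le_mul_left e7 hupos

private lemma B1c_win {L M k : ℕ} (hM : 0 < M) (W : Fin M → Finset (Fin L))
    (hW : ∀ t, ∃ j, t ∈ W j) (D : Finset (Fin L)) (hD : D.card < k) :
    ∃ j, (D.filter (fun t => t ∉ W j)).card ≤ k - k / M := by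
  obtain ⟨j, -, hj⟩ := exists_max_image (univ : Finset (Fin M))
    (fun j => (D.filter (fun t => t ∈ W j)).card) ⟨⟨0, hM⟩, mem_univ _⟩
  have h1 : D.card ≤ M * (D.filter (fun t => t ∈ W j)).card := by
    have hsub : D ⊆ (univ : Finset (Fin M)).biUnion (fun j => D.filter (fun t => t ∈ W j)) := by
      intro t ht
      obtain ⟨i, hi⟩ := hW t
      rw [mem_biUnion]
      exact ⟨i, mem_univ _, mem_filter.mpr ⟨ht, hi⟩⟩
    refine (card_le_card hsub).trans ?_
    refine (card_biUnion_le_card_mul _ _ _ (fun i hi => hj i hi)).trans ?_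
    rw [Finset.card_univ, Fintype.card_fin]
  have h2 := card_filter_add_card_filter_not (s := D) (fun t => t ∈ W j)
  refine ⟨j, ?_⟩
  obtain ⟨a, ha⟩ : ∃ a, a = (D.filter (fun t => t ∈ W j)).card := ⟨_, rfl⟩
  obtain ⟨b, hb⟩ : ∃ b, b = (D.filter (fun t => t ∉ W j)).card := ⟨_, rfl⟩
  rw [← ha] at h1 h2
  rw [← hb] at h2 ⊢
  obtain ⟨q, hq⟩ : ∃ q, q = k / M := ⟨_, rfl⟩
  rw [← hq]
  have hqk : q * M ≤ k := by rw [hq]; exact Nat.div_mul_le_self k M
  rcases le_or_gt q a with h | h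
  · omega
  · obtain ⟨e, he⟩ := Nat.exists_eq_add_of_lt h
    have h3 : M * a + (e + 1) ≤ q * M := by
      rw [he]
      have : (a + e + 1) * M = M * a + (e + 1) * M := by ring
      rw [this]
      have : (e + 1) * 1 ≤ (e + 1) * M := Nat.mul_le_mul_left _ hM
      omega
    omega

theorem B1count {L d : ℕ} (hd : Fintype.card B + 1 = d)
    (S : Finset ((Fin L → Option B) × (Fin L → Option B))) (T : Finset (Fin L)) (M : ℕ)
    (hM : 0 < M) (W : Fin M → Finset (Fin L)) (hW : ∀ t, ∃ j, t ∈ W j) (κ ρ k A : ℕ)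
    (hS : d ^ L ≤ S.card * d ^ κ)
    (h1 : ∀ y, (S.filter (fun p => p.2 = y)).card ≤ d ^ ρ)
    (h1' : ∀ x, (S.filter (fun p => p.1 = x)).card ≤ d ^ ρ)
    (h2 : ∀ a a2 : Fin L → Option B,
      ∀ Y : Finset ((Fin L → Option B) × (Fin L → Option B)),
      (∀ q ∈ Y, ∃ x x2, (x, q.1) ∈ S ∧ (x2, q.2) ∈ S ∧ (∀ t ∈ T, x t = a t ∧ x2 t = a2 t) ∧
        (∀ t, t ∉ T → x t = x2 t) ∧ k ≤ (univ.filter (fun t => q.1 t ≠ q.2 t)).card) →
      Y.card ≤ A)
    (n1 : 2 * (d ^ (2 * T.card) * A * d ^ ρ) * d ^ (L - T.card) * d ^ (2 * κ) ≤ d ^ (2 * L))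
    (n2 : 2 * M * 2 ^ L * d ^ (k - k / M) * d ^ (κ + ρ) < d ^ T.card) :
    ∃ p ∈ S, ∃ p2 ∈ S, ∃ j, p.1 ≠ p2.1 ∧ (∀ t, t ∉ T → p.1 t = p2.1 t) ∧
      ∀ t, t ∉ W j → p.2 t = p2.2 t := by
  have hd1 : 0 < d := by omega
  obtain ⟨P0, hP0, hbest⟩ := B1c_best hd S T κ ρ k A hS h1 h2 n1
  obtain ⟨C, hC⟩ : ∃ C, C = S.filter (fun P => (∀ t, t ∉ T → P0.1 t = P.1 t) ∧
      (univ.filter (fun t => P0.2 t ≠ P.2 t)).card < k) := ⟨_, rfl⟩
  rw [← hC] at hbest
  have hCm : ∀ P ∈ C, P ∈ S ∧ (∀ t, t ∉ T → P0.1 t = P.1 t) ∧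
      (univ.filter (fun t => P0.2 t ≠ P.2 t)).card < k := by
    intro P hP
    rw [hC, mem_filter] at hP
    exact hP
  obtain ⟨X, hX⟩ : ∃ X, X = C.image Prod.fst := ⟨_, rfl⟩
  have hXc : C.card ≤ d ^ ρ * X.card := by
    refine card_le_mul_card_image_of_maps_to (f := Prod.fst)
      (fun P hP => by rw [hX]; exact mem_image_of_mem _ hP) _ ?_
    intro x _
    refine le_trans (card_le_card ?_) (h1' x)
    intro P hP
    rw [mem_filter] at hP
    exact mem_filter.mpr ⟨(hCm P hP.1).1, hP.2⟩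
  have hbig : M * (2 ^ L * d ^ (k - k / M)) < X.card := by
    have h3 : 2 * M * 2 ^ L * d ^ (k - k / M) * d ^ (κ + ρ) < 2 * X.card * d ^ (κ + ρ) := by
      refine lt_of_lt_of_le n2 (hbest.trans ?_)
      calc 2 * C.card * d ^ κ ≤ 2 * (d ^ ρ * X.card) * d ^ κ :=
            Nat.mul_le_mul_right _ (Nat.mul_le_mul_left _ hXc)
        _ = 2 * X.card * d ^ (κ + ρ) := by rw [pow_add]; ring
    have h4 := Nat.lt_of_mul_lt_mul_right h3
    have h5 : 2 * (M * (2 ^ L * d ^ (k - k / M))) < 2 * X.card := by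
      refine lt_of_eq_of_lt ?_ h4
      ring
    omega
  have hch : ∀ x ∈ X, ∃ P ∈ C, P.1 = x ∧ ∃ j : Fin M,
      ((univ.filter (fun t => P0.2 t ≠ P.2 t)).filter (fun t => t ∉ W j)).card ≤ k - k / M := by
    intro x hx
    rw [hX, mem_image] at hx
    obtain ⟨P, hP, rfl⟩ := hx
    exact ⟨P, hP, rfl, B1c_win hM W hW _ (hCm P hP).2.2⟩
  have : Nonempty (Fin M) := ⟨⟨0, hM⟩⟩
  choose! Pf hPfC hPf1 jf hjf using hch
  obtain ⟨nf, hnf⟩ : ∃ nf : (Fin L → Option B) → (Fin L → Option B),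
      ∀ x t, nf x t = if t ∈ W (jf x) then P0.2 t else (Pf x).2 t :=
    ⟨fun x t => if t ∈ W (jf x) then P0.2 t else (Pf x).2 t, fun _ _ => rfl⟩
  have hcard : ((univ : Finset (Fin M)) ×ˢ (univ.filter (fun f : Fin L → Option B =>
      (univ.filter (fun t => P0.2 t ≠ f t)).card ≤ k - k / M))).card < X.card := by
    rw [card_product, Finset.card_univ, Fintype.card_fin]
    exact lt_of_le_of_lt (Nat.mul_le_mul_left _ (B1c_ball hd P0.2 _)) hbig
  obtain ⟨x, hx, x', hx', hne, heq⟩ := exists_ne_map_eq_of_card_lt_of_maps_to hcard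
    (f := fun x => (jf x, nf x)) (by
      intro x hx
      simp only [mem_coe, mem_product, mem_univ, mem_filter, true_and]
      refine le_trans (card_le_card ?_) (hjf x hx)
      intro t ht
      rw [mem_filter] at ht
      have h6 := ht.2
      rw [hnf] at h6
      by_cases h7 : t ∈ W (jf x)
      · rw [if_pos h7] at h6
        exact absurd rfl h6
      · rw [if_neg h7] at h6
        exact mem_filter.mpr ⟨mem_filter.mpr ⟨mem_univ _, h6⟩, h7⟩)
  have hj : jf x = jf x' := congrArg Prod.fst heq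
  have hn : nf x = nf x' := congrArg Prod.snd heq
  have hx1 := hCm _ (hPfC x hx)
  have hx2 := hCm _ (hPfC x' hx')
  refine ⟨Pf x, hx1.1, Pf x', hx2.1, jf x, ?_, ?_, ?_⟩
  · rw [hPf1 x hx, hPf1 x' hx']
    exact hne
  · intro t ht
    rw [← hx1.2.1 t ht, ← hx2.2.1 t ht]
  · intro t ht
    have h8 := congrFun hn t
    rw [hnf, hnf, if_neg ht, ← hj, if_neg ht] at h8
    exact h8

end GC85
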