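import Mathlib
import Pool.Agent.Helper85.DN.Defs

/-!
# DN-Tree: solutions of an exact relation, digit by digit

The weights `A y t` depend on the letters up to `t` only and are coprime to `d`.

`tree`: induction on `n` (generalizing everything). Let `Π` be the set of the first pairs
`(p.1 0, p.2 0)`, `p ∈ S`. Modulo `d` all of them satisfy
`(if x = some i then a x else 0) - (if x' = some i then a' x' else 0) ≡ c i`, `a x` coprime to `d`.
Case 1: all pairs of `Π` have `x = x'`: at most `Fintype.card B + 1 ≤ d` pairs, each of the fibres has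
at most `3 ^ k * d ^ (n - k)` elements.
Case 2: some pair of `Π` has `x ≠ x'`. Then `{i | c i ≢ 0}` is nonempty and is `{i, j}`
(`x = some i`, `x' = some j`) or `{i}` (`x = some i`, `x' = none` or conversely). In the first case the
other pairs are `(some i, some j)`, `(some j, some i)` only, in the second case
`(some i, none)`, `(none, some i)`, `(some i, some i)` only. So `Π` has at most 3 elements, and each
fibre has at most `3 ^ (k - 1) * d ^ (n - (k - 1))` elements (`3 ≤ d`).
For the fibre over `(x, x')` use the words `fun t : Fin n => y t.succ`, the weights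
`fun y t => A (Fin.cons x y) t.succ`, and the constant
`(c i - (first terms)) / d`. It may be convenient to prove the statement in the form
`S.card * d ^ k ≤ 3 ^ k * d ^ n` for all `k` (if `k > n` then `S` is empty).

`word_inj`: look at the first position where `y` and `y2` differ; before it the terms agree, the
terms after it are divisible by `d ^ (t + 1)`.
-/

set_option autoImplicit false

namespace GC85

open Finset GC70

variable {B : Type} [Fintype B] [DecidableEq B]

private theorem Tree_cons {n : ℕ} (y : Fin (n + 1) → Option B) {x : Option B} (h : y 0 = x) :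
    (Fin.cons x (fun t : Fin n => y t.succ) : Fin (n + 1) → Option B) = y := by
  subst h
  exact Fin.cons_self_tail y

private theorem Tree_agree {n : ℕ} (x : Option B) (y y2 : Fin n → Option B) (t : Fin n)
    (h : ∀ j ≤ t, y j = y2 j) :
    ∀ j ≤ t.succ, (Fin.cons x y : Fin (n + 1) → Option B) j = (Fin.cons x y2 : Fin (n + 1) → Option B) j := by
  intro j hj
  refine Fin.cases ?_ (fun i hi => ?_) j hj
  · intro _
    rfl
  · simp only [Fin.cons_succ]
    exact h i (Fin.succ_le_succ_iff.1 hi)

/-- the first letter of a relation modulo `d` -/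
private theorem Tree_head {d : ℕ} (n : ℕ) (A A' : (Fin (n + 1) → Option B) → Fin (n + 1) → ℤ)
    (c : B → ℤ) (p : (Fin (n + 1) → Option B) × (Fin (n + 1) → Option B))
    (hS : ∀ i, ∑ t : Fin (n + 1), (d : ℤ) ^ (t : ℕ) *
      ((if p.1 t = some i then A p.1 t else 0) - (if p.2 t = some i then A' p.2 t else 0)) = c i)
    (i : B) :
    c i - ((if p.1 0 = some i then A p.1 0 else 0) - (if p.2 0 = some i then A' p.2 0 else 0)) =
      d * ∑ t : Fin n, (d : ℤ) ^ (t : ℕ) *
        ((if p.1 t.succ = some i then A p.1 t.succ else 0) -
          (if p.2 t.succ = some i then A' p.2 t.succ else 0)) := by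
  rw [← hS i, Fin.sum_univ_succ, Finset.mul_sum]
  simp only [Fin.val_zero, pow_zero, one_mul, Fin.val_succ, pow_succ']
  rw [add_sub_cancel_left]
  exact Finset.sum_congr rfl fun t _ => by ring

theorem word_inj {d : ℕ} (hd : 2 ≤ d) (n : ℕ) (A : (Fin n → Option B) → Fin n → ℤ)
    (hA : ∀ y y2 : Fin n → Option B, ∀ t, (∀ j ≤ t, y j = y2 j) → A y t = A y2 t)
    (hc : ∀ y t, IsCoprime (A y t) (d : ℤ)) (y y2 : Fin n → Option B)
    (h : ∀ i, ∑ t : Fin n, (d : ℤ) ^ (t : ℕ) * (if y t = some i then A y t else 0) =
      ∑ t : Fin n, (d : ℤ) ^ (t : ℕ) * (if y2 t = some i then A y2 t else 0)) : y = y2 := by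
  induction n with
  | zero =>
    funext t
    exact t.elim0
  | succ n ih =>
    have hS : ∀ i, ∑ t : Fin (n + 1), (d : ℤ) ^ (t : ℕ) *
        ((if y t = some i then A y t else 0) - (if y2 t = some i then A y2 t else 0)) =
        (fun _ : B => (0 : ℤ)) i := by
      intro i
      simp only [mul_sub, Finset.sum_sub_distrib]
      rw [h i, sub_self]
    have hh := Tree_head n A A (fun _ => 0) (y, y2) hS
    simp only [zero_sub, neg_sub] at hh
    have hd0 : (d : ℤ) ≠ 0 := by
      have : (2 : ℤ) ≤ d := by exact_mod_cast hd
      omega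
    have hunit : ∀ a : ℤ, IsCoprime a (d : ℤ) → ¬ (d : ℤ) ∣ a := by
      intro a ha hda
      have h1 := ha.isUnit_of_dvd' hda (dvd_refl _)
      rw [Int.isUnit_iff] at h1
      have : (2 : ℤ) ≤ d := by exact_mod_cast hd
      omega
    have hcomm : ∀ i, (d : ℤ) ∣ ((if y 0 = some i then A y 0 else 0) -
        (if y2 0 = some i then A y2 0 else 0)) := by
      intro i
      have h1 := hh i
      rw [← dvd_neg, neg_sub]
      exact ⟨_, h1⟩
    have h0 : y 0 = y2 0 := by
      by_contra hne
      rcases hy : y 0 with _ | i
      · rcases hy2 : y2 0 with _ | i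
        · exact hne (by rw [hy, hy2])
        · have h1 := hcomm i
          rw [hy, hy2, if_pos rfl, if_neg (by simp), zero_sub, dvd_neg] at h1
          exact hunit _ (hc _ _) h1
      · have h1 := hcomm i
        rw [if_pos hy, if_neg (fun h2 => hne (by rw [hy, h2])), sub_zero] at h1
        exact hunit _ (hc _ _) h1
    have hA0 : A y 0 = A y2 0 := by
      refine hA y y2 0 fun j hj => ?_
      have : j = 0 := Fin.le_zero_iff.1 hj
      rw [this]
      exact h0
    set x := y 0 with hx
    have e1 := Tree_cons y (x := x) rfl
    have e2 := Tree_cons y2 (x := x) h0.symm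
    have htail : (fun t : Fin n => y t.succ) = fun t : Fin n => y2 t.succ := by
      refine ih (fun z t => A (Fin.cons x z) t.succ) ?_ (fun z t => hc _ _) _ _ ?_
      · intro z z2 t hz
        exact hA _ _ _ (Tree_agree x z z2 t hz)
      · intro i
        simp only [e1, e2]
        have h1 := hh i
        rw [← h0, ← hA0, sub_self] at h1
        have h2 := (mul_eq_zero.1 h1.symm).resolve_left hd0
        simp only [mul_sub, Finset.sum_sub_distrib] at h2
        linarith
    rw [← e1, ← e2, htail]

/-- number of positions where the words differ -/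
private theorem Tree_diff {n : ℕ} (p : (Fin (n + 1) → Option B) × (Fin (n + 1) → Option B)) :
    (univ.filter (fun t => p.1 t ≠ p.2 t)).card = (if p.1 0 ≠ p.2 0 then 1 else 0) +
      (univ.filter (fun t : Fin n => p.1 t.succ ≠ p.2 t.succ)).card := by
  rw [Finset.card_filter, Finset.card_filter, Fin.sum_univ_succ]

theorem tree {d : ℕ} (hd : 3 ≤ d) (hB : Fintype.card B + 1 ≤ d) (n k : ℕ)
    (A A' : (Fin n → Option B) → Fin n → ℤ)
    (hA : ∀ y y2 : Fin n → Option B, ∀ t, (∀ j ≤ t, y j = y2 j) → A y t = A y2 t)
    (hA' : ∀ y y2 : Fin n → Option B, ∀ t, (∀ j ≤ t, y j = y2 j) → A' y t = A' y2 t)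
    (hc : ∀ y t, IsCoprime (A y t) (d : ℤ)) (hc' : ∀ y t, IsCoprime (A' y t) (d : ℤ))
    (c : B → ℤ) (S : Finset ((Fin n → Option B) × (Fin n → Option B)))
    (hS : ∀ p ∈ S, ∀ i, ∑ t : Fin n, (d : ℤ) ^ (t : ℕ) *
      ((if p.1 t = some i then A p.1 t else 0) - (if p.2 t = some i then A' p.2 t else 0)) = c i)
    (hk : ∀ p ∈ S, k ≤ (univ.filter (fun t => p.1 t ≠ p.2 t)).card) :
    S.card * d ^ k ≤ 3 ^ k * d ^ n := by
  induction n generalizing k c with
  | zero =>
    rcases S.eq_empty_or_nonempty with rfl | ⟨p, hp⟩
    · simp
    · have h1 := hk p hp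
      simp only [univ_eq_empty, filter_empty, card_empty, Nat.le_zero] at h1
      subst h1
      have h2 : S.card ≤ 1 := Finset.card_le_one.2 fun a _ b _ => by
        ext t <;> exact t.elim0
      simpa using h2
  | succ n ih =>
    have hd0 : (d : ℤ) ≠ 0 := by
      have : (3 : ℤ) ≤ d := by exact_mod_cast hd
      omega
    have hunit : ∀ a : ℤ, IsCoprime a (d : ℤ) → ¬ (d : ℤ) ∣ a := by
      intro a ha hda
      have h1 := ha.isUnit_of_dvd' hda (dvd_refl _)
      rw [Int.isUnit_iff] at h1
      have : (3 : ℤ) ≤ d := by exact_mod_cast hd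
      omega
    set F : (Fin (n + 1) → Option B) × (Fin (n + 1) → Option B) → Option B × Option B :=
      fun p => (p.1 0, p.2 0) with hF
    -- the fibres
    have hfib : ∀ q : Option B × Option B, ∀ k' : ℕ,
        (∀ p ∈ S, F p = q → k' ≤ (univ.filter (fun t : Fin n => p.1 t.succ ≠ p.2 t.succ)).card) →
        (S.filter (fun p => F p = q)).card * d ^ k' ≤ 3 ^ k' * d ^ n := by
      intro q k' hk'
      set T : (Fin (n + 1) → Option B) × (Fin (n + 1) → Option B) →
        (Fin n → Option B) × (Fin n → Option B) :=
        fun p => (fun t => p.1 t.succ, fun t => p.2 t.succ) with hT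
      have hinj : Set.InjOn T ((S.filter (fun p => F p = q) :
          Finset ((Fin (n + 1) → Option B) × (Fin (n + 1) → Option B))) :
          Set ((Fin (n + 1) → Option B) × (Fin (n + 1) → Option B))) := by
        intro a ha b hb hab
        rw [Finset.mem_coe, Finset.mem_filter] at ha hb
        have a1 : a.1 0 = q.1 := congrArg Prod.fst ha.2
        have a2 : a.2 0 = q.2 := congrArg Prod.snd ha.2
        have b1 : b.1 0 = q.1 := congrArg Prod.fst hb.2
        have b2 : b.2 0 = q.2 := congrArg Prod.snd hb.2
        have c1 : (fun t : Fin n => a.1 t.succ) = fun t => b.1 t.succ := congrArg Prod.fst hab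
        have c2 : (fun t : Fin n => a.2 t.succ) = fun t => b.2 t.succ := congrArg Prod.snd hab
        refine Prod.ext ?_ ?_
        · rw [← Tree_cons a.1 a1, ← Tree_cons b.1 b1, c1]
        · rw [← Tree_cons a.2 a2, ← Tree_cons b.2 b2, c2]
      rw [← Finset.card_image_of_injOn hinj]
      refine ih k' (fun z t => A (Fin.cons q.1 z) t.succ) (fun z t => A' (Fin.cons q.2 z) t.succ)
        ?_ ?_ (fun z t => hc _ _) (fun z t => hc' _ _)
        (fun i => (c i - ((if q.1 = some i then A (Fin.cons q.1 fun _ => none) 0 else 0) -
          (if q.2 = some i then A' (Fin.cons q.2 fun _ => none) 0 else 0))) / d) _ ?_ ?_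
      · intro z z2 t hz
        exact hA _ _ _ (Tree_agree q.1 z z2 t hz)
      · intro z z2 t hz
        exact hA' _ _ _ (Tree_agree q.2 z z2 t hz)
      · intro r hr i
        obtain ⟨p, hp, rfl⟩ := Finset.mem_image.1 hr
        rw [Finset.mem_filter] at hp
        have a1 : p.1 0 = q.1 := congrArg Prod.fst hp.2
        have a2 : p.2 0 = q.2 := congrArg Prod.snd hp.2
        have h1 := Tree_head n A A' c p (hS p hp.1) i
        have h2 : A p.1 0 = A (Fin.cons q.1 fun _ => none) 0 := by
          refine hA _ _ 0 fun j hj => ?_
          have : j = 0 := Fin.le_zero_iff.1 hj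
          rw [this, a1]
          rfl
        have h3 : A' p.2 0 = A' (Fin.cons q.2 fun _ => none) 0 := by
          refine hA' _ _ 0 fun j hj => ?_
          have : j = 0 := Fin.le_zero_iff.1 hj
          rw [this, a2]
          rfl
        rw [a1, a2, h2, h3] at h1
        rw [h1, Int.mul_ediv_cancel_left _ hd0]
        simp only [hT, Tree_cons p.1 a1, Tree_cons p.2 a2]
      · intro r hr
        obtain ⟨p, hp, rfl⟩ := Finset.mem_image.1 hr
        rw [Finset.mem_filter] at hp
        exact hk' p hp.1 hp.2
    have hsum : S.card = ∑ q ∈ S.image F, (S.filter (fun p => F p = q)).card :=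
      Finset.card_eq_sum_card_image F S
    -- the first letters modulo `d`
    have hmod : ∀ p ∈ S, ∀ i, (d : ℤ) ∣ c i - ((if p.1 0 = some i then A p.1 0 else 0) -
        (if p.2 0 = some i then A' p.2 0 else 0)) := fun p hp i =>
      ⟨_, Tree_head n A A' c p (hS p hp) i⟩
    by_cases hall : ∀ p ∈ S, p.1 0 = p.2 0
    · have hP : (S.image F).card ≤ d := by
        have h1 : S.image F ⊆ univ.image (fun x : Option B => (x, x)) := by
          intro q hq
          obtain ⟨p, hp, rfl⟩ := Finset.mem_image.1 hq
          refine Finset.mem_image.2 ⟨p.1 0, mem_univ _, ?_⟩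
          show (p.1 0, p.1 0) = (p.1 0, p.2 0)
          rw [← hall p hp]
        refine (Finset.card_le_card h1).trans (Finset.card_image_le.trans ?_)
        rw [Finset.card_univ, Fintype.card_option]
        exact hB
      have h2 : ∀ q ∈ S.image F, (S.filter (fun p => F p = q)).card * d ^ k ≤ 3 ^ k * d ^ n := by
        intro q _
        refine hfib q k fun p hp _ => ?_
        have h3 := hk p hp
        rw [Tree_diff, if_neg (not_not.2 (hall p hp)), zero_add] at h3
        exact h3
      calc S.card * d ^ k = ∑ q ∈ S.image F, (S.filter (fun p => F p = q)).card * d ^ k := by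
            rw [hsum, Finset.sum_mul]
        _ ≤ ∑ q ∈ S.image F, 3 ^ k * d ^ n := Finset.sum_le_sum h2
        _ = (S.image F).card * (3 ^ k * d ^ n) := by rw [Finset.sum_const, smul_eq_mul]
        _ ≤ d * (3 ^ k * d ^ n) := Nat.mul_le_mul_right _ hP
        _ = 3 ^ k * d ^ (n + 1) := by ring
    · push Not at hall
      obtain ⟨p₀, hp₀, hne⟩ := hall
      have hP : (S.image F).card ≤ 3 := by
        -- nonzero residues
        have hres : ∀ p ∈ S, ∀ i, p.1 0 = some i → p.2 0 ≠ some i → ¬ (d : ℤ) ∣ c i := by
          intro p hp i h1 h2 h3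
          have h4 := hmod p hp i
          rw [if_pos h1, if_neg h2, sub_zero] at h4
          exact hunit _ (hc _ _) ((Int.dvd_iff_dvd_of_dvd_sub h4).1 h3)
        have hres' : ∀ p ∈ S, ∀ i, p.1 0 ≠ some i → p.2 0 = some i → ¬ (d : ℤ) ∣ c i := by
          intro p hp i h1 h2 h3
          have h4 := hmod p hp i
          rw [if_neg h1, if_pos h2, zero_sub, sub_neg_eq_add] at h4
          exact hunit _ (hc' _ _) ((dvd_add_right h3).1 h4)
        have hzero : ∀ p ∈ S, ∀ i, p.1 0 ≠ some i → p.2 0 ≠ some i → (d : ℤ) ∣ c i := by
          intro p hp i h1 h2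
          have h4 := hmod p hp i
          rw [if_neg h1, if_neg h2, sub_zero, sub_zero] at h4
          exact h4
        have hin : ∀ p ∈ S, ∀ i, ¬ (d : ℤ) ∣ c i → p.1 0 = some i ∨ p.2 0 = some i := by
          intro p hp i h1
          by_contra h2
          push Not at h2
          exact h1 (hzero p hp i h2.1 h2.2)
        have hcase : ∀ i, ¬ (d : ℤ) ∣ c i → (∀ j, j ≠ i → (d : ℤ) ∣ c j) →
            (S.image F).card ≤ 3 := by
          intro i hi hj
          have h1 : S.image F ⊆ {(some i, none), (none, some i), (some i, some i)} := by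
            intro q hq
            obtain ⟨p, hp, rfl⟩ := Finset.mem_image.1 hq
            have hx : ∀ j, p.1 0 = some j → p.2 0 ≠ some j → j = i := by
              intro j a1 a2
              by_contra a3
              exact hres p hp j a1 a2 (hj j a3)
            have hx' : ∀ j, p.1 0 ≠ some j → p.2 0 = some j → j = i := by
              intro j a1 a2
              by_contra a3
              exact hres' p hp j a1 a2 (hj j a3)
            have hh := hin p hp i hi
            simp only [hF, Finset.mem_insert, Finset.mem_singleton, Prod.mk.injEq]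
            rcases e1 : p.1 0 with _ | j
            · rcases e2 : p.2 0 with _ | l
              · rw [e1, e2] at hh
                simp at hh
              · have := hx' l (by rw [e1]; simp) e2
                subst this
                simp
            · rcases e2 : p.2 0 with _ | l
              · have := hx j e1 (by rw [e2]; simp)
                subst this
                simp
              · by_cases hjl : j = l
                · subst hjl
                  rw [e1, e2] at hh
                  simp at hh
                  subst hh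
                  simp
                · have a1 := hx j e1 (by rw [e2]; simpa using fun h => hjl h.symm)
                  have a2 := hx' l (by rw [e1]; simpa using hjl) e2
                  exact absurd (a1.trans a2.symm) hjl
          exact (Finset.card_le_card h1).trans Finset.card_le_three
        rcases e1 : p₀.1 0 with _ | i
        · rcases e2 : p₀.2 0 with _ | j
          · exact absurd (e1.trans e2.symm) hne
          · refine hcase j (hres' p₀ hp₀ j (by rw [e1]; simp) e2) fun l hl => ?_
            exact hzero p₀ hp₀ l (by rw [e1]; simp) (by rw [e2]; simpa using fun h => hl h.symm)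
        · rcases e2 : p₀.2 0 with _ | j
          · refine hcase i (hres p₀ hp₀ i e1 (by rw [e2]; simp)) fun l hl => ?_
            exact hzero p₀ hp₀ l (by rw [e1]; simpa using fun h => hl h.symm) (by rw [e2]; simp)
          · have hij : i ≠ j := fun h => hne (by rw [e1, e2, h])
            have hi := hres p₀ hp₀ i e1 (by rw [e2]; simpa using hij.symm)
            have hj := hres' p₀ hp₀ j (by rw [e1]; simpa using hij) e2
            have h1 : S.image F ⊆ {(some i, some j), (some j, some i)} := by
              intro q hq
              obtain ⟨p, hp, rfl⟩ := Finset.mem_image.1 hq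
              simp only [hF, Finset.mem_insert, Finset.mem_singleton, Prod.mk.injEq]
              rcases hin p hp i hi with a | a <;> rcases hin p hp j hj with b | b
              · rw [a] at b
                exact absurd (Option.some.inj b) hij
              · exact Or.inl ⟨a, b⟩
              · exact Or.inr ⟨b, a⟩
              · rw [a] at b
                exact absurd (Option.some.inj b) hij
            exact (Finset.card_le_card h1).trans (Finset.card_le_two.trans (by norm_num))
      rcases k with _ | k
      · have h2 : ∀ q ∈ S.image F, (S.filter (fun p => F p = q)).card * d ^ 0 ≤ 3 ^ 0 * d ^ n :=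
          fun q _ => hfib q 0 fun _ _ _ => Nat.zero_le _
        calc S.card * d ^ 0 = ∑ q ∈ S.image F, (S.filter (fun p => F p = q)).card * d ^ 0 := by
              rw [hsum, Finset.sum_mul]
          _ ≤ ∑ q ∈ S.image F, 3 ^ 0 * d ^ n := Finset.sum_le_sum h2
          _ = (S.image F).card * (3 ^ 0 * d ^ n) := by rw [Finset.sum_const, smul_eq_mul]
          _ ≤ d * (3 ^ 0 * d ^ n) := Nat.mul_le_mul_right _ (hP.trans hd)
          _ = 3 ^ 0 * d ^ (n + 1) := by ring
      · have h2 : ∀ q ∈ S.image F, (S.filter (fun p => F p = q)).card * d ^ k ≤ 3 ^ k * d ^ n := by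
          intro q _
          refine hfib q k fun p hp _ => ?_
          have h3 := hk p hp
          rw [Tree_diff] at h3
          split_ifs at h3 <;> omega
        calc S.card * d ^ (k + 1) =
              (∑ q ∈ S.image F, (S.filter (fun p => F p = q)).card * d ^ k) * d := by
              rw [hsum, ← Finset.sum_mul, pow_succ, mul_assoc]
          _ ≤ (∑ q ∈ S.image F, 3 ^ k * d ^ n) * d :=
              Nat.mul_le_mul_right _ (Finset.sum_le_sum h2)
          _ = (S.image F).card * (3 ^ k * d ^ n) * d := by rw [Finset.sum_const, smul_eq_mul]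
          _ ≤ 3 * (3 ^ k * d ^ n) * d := Nat.mul_le_mul_right _ (Nat.mul_le_mul_right _ hP)
          _ = 3 ^ (k + 1) * d ^ (n + 1) := by ring

end GC85
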