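import Mathlib
import Pool.Agent.Helper85.DN.Tree
import Pool.Agent.Helper85.DN.Win

/-!
# DN-Inj: words and pairs of words with the same skeleton and given coefficients modulo `g`

Put `n = L - ρ`. All words in question have the same skeleton, so the same `zf` (`zf w j` is a sum
over `(w t).isSome`). Use `win_id` with `x = 0`, `Z = zf w n` (the same number for all words):
`zf w n - zf w t ≤ n - t` (`GC70.IsZ.lip`), so `xs_bd` with `E = 0` bounds the integer parts by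
`n * m ^ n`. If two words agree on `[n, L)` then the remaining sums agree.

* `inj_count`: the map `w ↦ (w (n + j))_{j < ρ}` is injective on `S`: two words with the same image
  have integer parts equal modulo `g`, both in `[0, g)`, so equal, and `word_inj` gives equality on
  `[0, n)` (weights `m ^ (zf w n - zf w t)`, which do not depend on the letters).
* `pair_count`: fix the letters of both words on `[n, L)`: `(b + 1) ^ (2 ρ)` classes. In a class the
  differences of the integer parts are equal modulo `g` and of absolute value at most `L * m ^ n`, so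
  equal; and there are at least `k - ρ` differences in `[0, n)`. `tree` with `A = A'`.
-/

set_option autoImplicit false

namespace GC85

open Finset GC70

variable {B : Type} [Fintype B] [DecidableEq B]

omit [Fintype B] [DecidableEq B] in
private theorem Inj_zf {w w' : ℤ → Option B} (h : ∀ j, (w j).isSome = (w' j).isSome) :
    zf w = zf w' := by
  funext j
  unfold zf
  simp only [h]

private theorem Inj_key {d m g L s : ℕ} {δ μ : (ZMod g)ˣ} (U : Un d m g L s δ μ)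
    {w w' : ℤ → Option B} (hw : Wd w L s) (hw' : Wd w' L s) (hz : zf w' = zf w) {n : ℕ}
    (hL : n ≤ L) (ht : ∀ j : ℤ, (n : ℤ) ≤ j → j < L → w j = w' j) (i : B) :
    ((δ ^ (-(0 : ℤ)) * μ ^ (zf w n) : (ZMod g)ˣ) : ZMod g) * (vc δ μ L w i - vc δ μ L w' i) =
      ((xs d m (zf w) (zf w n) 0 n w i - xs d m (zf w) (zf w n) 0 n w' i : ℤ) : ZMod g) := by
  have hm : ∀ t : ℕ, t < n → zf w (0 + t) ≤ zf w n := by
    intro t ht'
    rw [zero_add]
    exact (zf_isZ w).mono (by exact_mod_cast ht'.le)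
  have h1 := win_id U hw 0 n hL (zf w n) hm i
  have h2 := win_id U hw' 0 n hL (zf w n) (by rw [hz]; exact hm) i
  rw [hz] at h2
  have h3 : (Ico ((0 : ℤ) + n) (0 + L)).filter (fun j => w j = some i) =
      (Ico ((0 : ℤ) + n) (0 + L)).filter (fun j => w' j = some i) := by
    refine filter_congr fun j hj => ?_
    rw [mem_Ico] at hj
    rw [ht j (by omega) (by omega)]
  rw [h3] at h1
  rw [mul_sub, h1, h2]
  push_cast
  ring

private theorem Inj_bd {d m : ℕ} (hdm : d ≤ m) (hm : 0 < m) (w w' : ℤ → Option B) (n : ℕ)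
    (i : B) : 0 ≤ xs d m (zf w) (zf w n) 0 n w' i ∧
      xs d m (zf w) (zf w n) 0 n w' i ≤ (n : ℤ) * (m : ℤ) ^ n := by
  have h := xs_bd hdm hm (zf w) (zf w n) 0 n 0 (fun t ht => by
    have := (zf_isZ w).lip (show ((0 : ℤ) + t) ≤ n by rw [zero_add]; exact_mod_cast ht.le)
    push_cast
    linarith) w' i
  simpa using h

omit [Fintype B] in
private theorem Inj_xs (d m : ℕ) (z : ℤ → ℤ) (Z : ℤ) (n : ℕ) (w : ℤ → Option B) (i : B) :
    xs d m z Z 0 n w i = ∑ t : Fin n, (d : ℤ) ^ (t : ℕ) *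
      (if w ((t : ℕ) : ℤ) = some i then (m : ℤ) ^ ((Z - z ((t : ℕ) : ℤ)).toNat) else 0) := by
  unfold xs
  rw [Finset.sum_range]
  simp only [zero_add]

private theorem Inj_big {m g L ρ : ℕ} (hX : 2 * L * m ^ (L - ρ) < g) :
    2 * (((L - ρ : ℕ) : ℤ) * (m : ℤ) ^ (L - ρ)) < g := by
  have h1 : 2 * ((L - ρ) * m ^ (L - ρ)) ≤ 2 * L * m ^ (L - ρ) := by
    rw [mul_assoc]
    exact Nat.mul_le_mul_left _ (Nat.mul_le_mul_right _ (Nat.sub_le _ _))
  have h2 := lt_of_le_of_lt h1 hX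
  exact_mod_cast h2

omit [Fintype B] [DecidableEq B] in
private theorem Inj_tail {w w' : ℤ → Option B} {n ρ L : ℕ} (hn : n + ρ = L)
    (h : (fun j : Fin ρ => w ((n : ℤ) + (j : ℕ))) = fun j : Fin ρ => w' ((n : ℤ) + (j : ℕ))) :
    ∀ j : ℤ, (n : ℤ) ≤ j → j < L → w j = w' j := by
  intro j hj hj'
  have h1 := congrFun h ⟨(j - n).toNat, by omega⟩
  have h2 : (n : ℤ) + ((j - n).toNat : ℕ) = j := by omega
  simp only [h2] at h1
  exact h1

omit [Fintype B] [DecidableEq B] in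
private theorem Inj_ext {w w' : ℤ → Option B} {n L : ℕ} (hL : 0 < L)
    (h : Per w L) (h' : Per w' L) (h1 : ∀ j : ℤ, (n : ℤ) ≤ j → j < L → w j = w' j)
    (h2 : (fun j : Fin n => w ((j : ℕ) : ℤ)) = fun j : Fin n => w' ((j : ℕ) : ℤ)) : w = w' := by
  refine Per.ext hL h h' fun j hj => ?_
  rcases lt_or_ge j n with hjn | hjn
  · exact congrFun h2 ⟨j, hjn⟩
  · exact h1 j (by exact_mod_cast hjn) (by exact_mod_cast hj)

theorem inj_count {b m g L s ρ : ℕ} (hB : Fintype.card B = b) (hb : 2 ≤ b) (hdm : b + 1 ≤ m)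
    (hcop : Nat.Coprime m (b + 1)) {δ μ : (ZMod g)ˣ} (U : Un (b + 1) m g L s δ μ)
    (hρ : ρ ≤ L) (hX : 2 * L * m ^ (L - ρ) < g) (hL : 0 < L) (S : Finset (ℤ → Option B))
    (hS : ∀ w ∈ S, Wd w L s)
    (hsk : ∀ w ∈ S, ∀ w' ∈ S, ∀ j, (w j).isSome = (w' j).isSome)
    (v : B → ZMod g) (hv : ∀ w ∈ S, ∀ i, vc δ μ L w i = v i) : S.card ≤ (b + 1) ^ ρ := by
  classical
  obtain ⟨n, hn⟩ : ∃ n, n = L - ρ := ⟨_, rfl⟩
  have hnL : n + ρ = L := by omega
  have hbig := Inj_big hX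
  rw [← hn] at hbig
  have hinj : Set.InjOn (fun w : ℤ → Option B => (fun j : Fin ρ => w ((n : ℤ) + (j : ℕ)))) S := by
    intro w hw w' hw' he
    have htl := Inj_tail hnL he
    have hz : zf w' = zf w := Inj_zf (hsk w' hw' w hw)
    refine Inj_ext hL (hS w hw).per (hS w' hw').per htl ?_
    refine word_inj (d := b + 1) (by omega) n
      (fun _ t => (m : ℤ) ^ ((zf w n - zf w ((t : ℕ) : ℤ)).toNat)) (fun _ _ _ _ => rfl)
      (fun _ _ => IsCoprime.pow_left (Nat.isCoprime_iff_coprime.2 hcop)) _ _ fun i => ?_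
    rw [← Inj_xs (b + 1) m (zf w) (zf w n) n w i, ← Inj_xs (b + 1) m (zf w) (zf w n) n w' i]
    have h1 := Inj_key U (hS w hw) (hS w' hw') hz (by omega) htl i
    rw [hv w hw i, hv w' hw' i, sub_self, mul_zero] at h1
    have h2 : (g : ℤ) ∣ xs (b + 1) m (zf w) (zf w n) 0 n w i -
        xs (b + 1) m (zf w) (zf w n) 0 n w' i :=
      (ZMod.intCast_zmod_eq_zero_iff_dvd _ g).1 h1.symm
    have b1 := Inj_bd hdm (by omega) w w n i
    have b2 := Inj_bd hdm (by omega) w w' n i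
    have h3 := Int.eq_zero_of_abs_lt_dvd h2 (by rw [abs_lt]; constructor <;> linarith)
    linarith
  calc S.card = (S.image (fun w : ℤ → Option B =>
        (fun j : Fin ρ => w ((n : ℤ) + (j : ℕ))))).card := (card_image_of_injOn hinj).symm
    _ ≤ (univ : Finset (Fin ρ → Option B)).card := card_le_univ _
    _ = (b + 1) ^ ρ := by simp [hB]

private theorem Inj_class {b m g L s ρ k : ℕ} (hB : Fintype.card B = b) (hb : 2 ≤ b)
    (hdm : b + 1 ≤ m)
    (hcop : Nat.Coprime m (b + 1)) {δ μ : (ZMod g)ˣ} (U : Un (b + 1) m g L s δ μ)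
    (hX : 2 * L * m ^ (L - ρ) < g) (hL : 0 < L) {n : ℕ} (hnL : n + ρ = L)
    (S : Finset ((ℤ → Option B) × (ℤ → Option B)))
    (hS : ∀ p ∈ S, Wd p.1 L s ∧ Wd p.2 L s)
    (hsk : ∀ p ∈ S, ∀ p' ∈ S, ∀ j, (p.1 j).isSome = (p'.1 j).isSome ∧
      (p.2 j).isSome = (p'.1 j).isSome)
    (v : B → ZMod g) (hv : ∀ p ∈ S, ∀ i, vc δ μ L p.1 i - vc δ μ L p.2 i = v i)
    (hk : ∀ p ∈ S, k ≤ dis p.1 p.2 L)
    (ht : ∀ p ∈ S, ∀ p' ∈ S, ∀ j : ℤ, (n : ℤ) ≤ j → j < L → p.1 j = p'.1 j ∧ p.2 j = p'.2 j) :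
    S.card * (b + 1) ^ k ≤ 3 ^ L * (b + 1) ^ L := by
  classical
  rcases S.eq_empty_or_nonempty with rfl | ⟨p0, hp0⟩
  · simp
  have hn : n = L - ρ := by omega
  have hbig := Inj_big hX
  rw [← hn] at hbig
  obtain ⟨z, hz⟩ : ∃ z, z = zf p0.1 := ⟨_, rfl⟩
  have hz1 : ∀ p ∈ S, zf p.1 = z := fun p hp => by
    rw [hz]; exact Inj_zf fun j => (hsk p hp p0 hp0 j).1
  have hz2 : ∀ p ∈ S, zf p.2 = z := fun p hp => by
    rw [hz]; exact Inj_zf fun j => (hsk p hp p0 hp0 j).2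
  -- the restriction map
  obtain ⟨F, hF⟩ : ∃ F : (ℤ → Option B) × (ℤ → Option B) →
      (Fin n → Option B) × (Fin n → Option B), F = fun p =>
        ((fun j : Fin n => p.1 ((j : ℕ) : ℤ)), (fun j : Fin n => p.2 ((j : ℕ) : ℤ))) := ⟨_, rfl⟩
  have hinj : Set.InjOn F S := by
    intro p hp p' hp' he
    rw [hF] at he
    simp only [Prod.mk.injEq] at he
    refine Prod.ext ?_ ?_
    · exact Inj_ext hL (hS p hp).1.per (hS p' hp').1.per (fun j h1 h2 => (ht p hp p' hp' j h1 h2).1)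
        he.1
    · exact Inj_ext hL (hS p hp).2.per (hS p' hp').2.per (fun j h1 h2 => (ht p hp p' hp' j h1 h2).2)
        he.2
  have hcoef : ∀ p ∈ S, ∀ i, xs (b + 1) m z (z n) 0 n p.1 i - xs (b + 1) m z (z n) 0 n p.2 i =
      xs (b + 1) m z (z n) 0 n p0.1 i - xs (b + 1) m z (z n) 0 n p0.2 i := by
    intro p hp i
    have h1 := Inj_key U (hS p hp).1 (hS p0 hp0).1 ((hz1 p0 hp0).trans (hz1 p hp).symm)
      (by omega) (fun j h1 h2 => (ht p hp p0 hp0 j h1 h2).1) i
    have h2 := Inj_key U (hS p hp).2 (hS p0 hp0).2 ((hz2 p0 hp0).trans (hz2 p hp).symm)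
      (by omega) (fun j h1 h2 => (ht p hp p0 hp0 j h1 h2).2) i
    rw [hz1 p hp] at h1
    rw [hz2 p hp] at h2
    have h3 : vc δ μ L p.1 i - vc δ μ L p0.1 i = vc δ μ L p.2 i - vc δ μ L p0.2 i := by
      have e1 := hv p hp i
      have e2 := hv p0 hp0 i
      have e3 : vc δ μ L p.1 i - vc δ μ L p.2 i = vc δ μ L p0.1 i - vc δ μ L p0.2 i := by
        rw [e1, e2]
      linear_combination e3
    rw [h3, h2] at h1
    have h4 : (g : ℤ) ∣ (xs (b + 1) m z (z n) 0 n p.2 i - xs (b + 1) m z (z n) 0 n p0.2 i) -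
        (xs (b + 1) m z (z n) 0 n p.1 i - xs (b + 1) m z (z n) 0 n p0.1 i) := by
      rw [← ZMod.intCast_zmod_eq_zero_iff_dvd, Int.cast_sub, h1, sub_self]
    have hb : ∀ w : ℤ → Option B, 0 ≤ xs (b + 1) m z (z n) 0 n w i ∧
        xs (b + 1) m z (z n) 0 n w i ≤ (n : ℤ) * (m : ℤ) ^ n := by
      intro w
      rw [hz]
      exact Inj_bd hdm (by omega) p0.1 w n i
    have b1 := hb p.1
    have b2 := hb p.2
    have b3 := hb p0.1
    have b4 := hb p0.2
    have h5 := Int.eq_zero_of_abs_lt_dvd h4 (by rw [abs_lt]; constructor <;> linarith)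
    linarith
  have htree := tree (d := b + 1) (by omega) (by omega) n (k - ρ)
    (fun _ t => (m : ℤ) ^ ((z n - z ((t : ℕ) : ℤ)).toNat))
    (fun _ t => (m : ℤ) ^ ((z n - z ((t : ℕ) : ℤ)).toNat)) (fun _ _ _ _ => rfl)
    (fun _ _ _ _ => rfl) (fun _ _ => IsCoprime.pow_left (Nat.isCoprime_iff_coprime.2 hcop))
    (fun _ _ => IsCoprime.pow_left (Nat.isCoprime_iff_coprime.2 hcop))
    (fun i => xs (b + 1) m z (z n) 0 n p0.1 i - xs (b + 1) m z (z n) 0 n p0.2 i) (S.image F)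
    (by
      intro q hq i
      rw [mem_image] at hq
      obtain ⟨p, hp, rfl⟩ := hq
      rw [← hcoef p hp i, Inj_xs, Inj_xs, ← Finset.sum_sub_distrib, hF]
      exact Finset.sum_congr rfl fun t _ => by rw [mul_sub])
    (by
      intro q hq
      rw [mem_image] at hq
      obtain ⟨p, hp, rfl⟩ := hq
      have h1 := hk p hp
      unfold dis at h1
      have h2 : (Ico (0 : ℤ) L).filter (fun j => p.1 j ≠ p.2 j) ⊆
          (univ.filter (fun t : Fin n => (F p).1 t ≠ (F p).2 t)).image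
            (fun t : Fin n => ((t : ℕ) : ℤ)) ∪ Ico (n : ℤ) L := by
        intro j hj
        rw [mem_filter, mem_Ico] at hj
        rw [mem_union, mem_image, mem_Ico]
        rcases lt_or_ge j n with h | h
        · left
          refine ⟨⟨j.toNat, by omega⟩, ?_, by simp only; omega⟩
          rw [mem_filter, hF]
          refine ⟨mem_univ _, ?_⟩
          have : ((j.toNat : ℕ) : ℤ) = j := by omega
          simp only [this]
          exact hj.2
        · right
          exact ⟨h, hj.1.2⟩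
      have h3 := (card_le_card h2).trans (card_union_le _ _)
      have h4 : ((univ.filter (fun t : Fin n => (F p).1 t ≠ (F p).2 t)).image
          (fun t : Fin n => ((t : ℕ) : ℤ))).card ≤
          (univ.filter (fun t : Fin n => (F p).1 t ≠ (F p).2 t)).card := card_image_le
      rw [Int.card_Ico] at h3
      have h5 : ((L : ℤ) - n).toNat = ρ := by omega
      rw [h5] at h3
      omega)
  rw [card_image_of_injOn hinj] at htree
  have hkL : k ≤ L := by
    have h1 := hk p0 hp0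
    unfold dis at h1
    have h2 := card_filter_le (Ico (0 : ℤ) L) (fun j => p0.1 j ≠ p0.2 j)
    rw [Int.card_Ico] at h2
    omega
  calc S.card * (b + 1) ^ k ≤ S.card * (b + 1) ^ ((k - ρ) + ρ) :=
        Nat.mul_le_mul_left _ (Nat.pow_le_pow_right (by omega) (by omega))
    _ = (S.card * (b + 1) ^ (k - ρ)) * (b + 1) ^ ρ := by rw [pow_add]; ring
    _ ≤ (3 ^ (k - ρ) * (b + 1) ^ n) * (b + 1) ^ ρ := Nat.mul_le_mul_right _ htree
    _ = 3 ^ (k - ρ) * (b + 1) ^ L := by rw [← hnL, pow_add]; ring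
    _ ≤ 3 ^ L * (b + 1) ^ L :=
        Nat.mul_le_mul_right _ (Nat.pow_le_pow_right (by norm_num) (by omega))

theorem pair_count {b m g L s ρ k : ℕ} (hB : Fintype.card B = b) (hb : 2 ≤ b) (hdm : b + 1 ≤ m)
    (hcop : Nat.Coprime m (b + 1)) {δ μ : (ZMod g)ˣ} (U : Un (b + 1) m g L s δ μ)
    (hρ : ρ ≤ L) (hX : 2 * L * m ^ (L - ρ) < g) (hL : 0 < L)
    (S : Finset ((ℤ → Option B) × (ℤ → Option B)))
    (hS : ∀ p ∈ S, Wd p.1 L s ∧ Wd p.2 L s)
    (hsk : ∀ p ∈ S, ∀ p' ∈ S, ∀ j, (p.1 j).isSome = (p'.1 j).isSome ∧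
      (p.2 j).isSome = (p'.1 j).isSome)
    (v : B → ZMod g) (hv : ∀ p ∈ S, ∀ i, vc δ μ L p.1 i - vc δ μ L p.2 i = v i)
    (hk : ∀ p ∈ S, k ≤ dis p.1 p.2 L) :
    S.card * (b + 1) ^ k ≤ 3 ^ L * (b + 1) ^ (L + 2 * ρ) := by
  classical
  obtain ⟨n, hn⟩ : ∃ n, n = L - ρ := ⟨_, rfl⟩
  have hnL : n + ρ = L := by omega
  obtain ⟨Φ, hΦ⟩ : ∃ Φ : (ℤ → Option B) × (ℤ → Option B) →
      (Fin ρ → Option B) × (Fin ρ → Option B), Φ = fun p =>
        ((fun j : Fin ρ => p.1 ((n : ℤ) + (j : ℕ))), (fun j : Fin ρ => p.2 ((n : ℤ) + (j : ℕ)))) :=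
    ⟨_, rfl⟩
  have h1 : S.card = ∑ c : (Fin ρ → Option B) × (Fin ρ → Option B),
      (S.filter (fun p => Φ p = c)).card :=
    card_eq_sum_card_fiberwise fun _ _ => by simp
  rw [h1, Finset.sum_mul]
  calc ∑ c : (Fin ρ → Option B) × (Fin ρ → Option B),
        (S.filter (fun p => Φ p = c)).card * (b + 1) ^ k
      ≤ ∑ c : (Fin ρ → Option B) × (Fin ρ → Option B), 3 ^ L * (b + 1) ^ L := by
        refine Finset.sum_le_sum fun c _ => ?_
        refine Inj_class hB hb hdm hcop U hX hL hnL _ (fun p hp => hS p (mem_filter.1 hp).1)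
          (fun p hp p' hp' => hsk p (mem_filter.1 hp).1 p' (mem_filter.1 hp').1) v
          (fun p hp => hv p (mem_filter.1 hp).1) (fun p hp => hk p (mem_filter.1 hp).1) ?_
        intro p hp p' hp' j hj hj'
        have e := (mem_filter.1 hp).2.trans (mem_filter.1 hp').2.symm
        rw [hΦ] at e
        simp only [Prod.mk.injEq] at e
        exact ⟨Inj_tail hnL e.1 j hj hj', Inj_tail hnL e.2 j hj hj'⟩
    _ = 3 ^ L * (b + 1) ^ (L + 2 * ρ) := by
        rw [Finset.sum_const, smul_eq_mul, Finset.card_univ, Fintype.card_prod, Fintype.card_fun,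
          Fintype.card_option, Fintype.card_fin, hB]
        ring

end GC85
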