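import Mathlib
import Pool.Agent.Helper85.DN.B1a
import Pool.Agent.Helper85.DN.B1c
import Pool.Agent.Helper85.DN.Inj

/-!
# DN-B1: many pairs with the same factor `l` give a relation with small integer coefficients

`ℓ = 10 ^ 7 y`, `M = 200001`, `κ = 8 y`, `ρ = 5 y`, `k = ℓ + 32 y`, `A` = the largest number with
`A (b + 1) ^ k ≤ 3 ^ L (b + 1) ^ (L + 2 ρ)`.
Apply `B1count` to the image of `S` under restriction to `Fin L` (injective on periodic words), with
`T = {t < ℓ}`, `W j = {t | j ℓ ≤ t < (j + 1) ℓ}`; `M ℓ ≥ L`. `h1`, `h1'`: `inj_count`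
(`vc q.2` determines `vc q.1` and conversely). `h2`: `pair_count` for the second words:
`vc p.2 - vc p2.2 = l (vc p.1 - vc p2.1)` depends on the letters `a, a2` on `T` only (same skeleton, the
words `x, x2` agree off `T`). `hX : 2 L m ^ (L - 5 y) < g` from `hg`, `NP.m_pow`, `NP.pw`:
`2 L m ^ (L - 5 y) ≤ (b + 1) ^ (L - 5 y + 2 ε) < (b + 1) ^ (L - 4 y) ≤ g`.
Exponents in `n1`: `ℓ + 3 ρ + 2 κ + ε + 1 ≤ k`; in `n2`: `ε + k - k / M + κ + ρ < ℓ`, `k / M ≥ 49 y`.
Then `extract`; `ℓ m ^ (2 ℓ) ≤ L m ^ (2 ℓ)`.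
-/

set_option autoImplicit false

namespace GC85

open Finset GC70

variable {B : Type} [Fintype B] [DecidableEq B]

/-- restriction to one period -/
def rsw (L : ℕ) (w : ℤ → Option B) : Fin L → Option B := fun t => w ((t : ℕ) : ℤ)

omit [Fintype B] [DecidableEq B] in
lemma ext_rsw {L : ℕ} [NeZero L] {w : ℤ → Option B} (hw : Per w L) : ext L (rsw L w) = w := by
  funext x
  have h0 : 0 < L := Nat.pos_of_ne_zero (NeZero.ne L)
  have h1 : 0 ≤ x % (L : ℤ) := Int.emod_nonneg x (by positivity)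
  have h2 : ext L (rsw L w) x = w (((x % (L : ℤ)).toNat : ℕ) : ℤ) := rfl
  rw [h2, Int.toNat_of_nonneg h1, hw.emod]

omit [Fintype B] [DecidableEq B] in
lemma rsw_inj {L : ℕ} (hL : 0 < L) {w w' : ℤ → Option B} (hw : Per w L) (hw' : Per w' L)
    (h : rsw L w = rsw L w') : w = w' := by
  have : NeZero L := ⟨hL.ne'⟩
  rw [← ext_rsw hw, ← ext_rsw hw', h]

omit [Fintype B] in
lemma dis_ge {L : ℕ} (w w' : ℤ → Option B) :
    (univ.filter (fun t : Fin L => rsw L w t ≠ rsw L w' t)).card ≤ dis w w' L := by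
  unfold dis
  apply card_le_card_of_injOn (fun t : Fin L => ((t : ℕ) : ℤ))
  · intro t ht
    simp only [coe_filter, mem_univ, true_and, Set.mem_ofPred_eq, mem_Ico] at ht ⊢
    exact ⟨⟨by positivity, by exact_mod_cast t.2⟩, ht⟩
  · intro t _ t' _ h
    apply Fin.ext
    simpa using h

omit [Fintype B] [DecidableEq B] in
lemma zf_congr {w w' : ℤ → Option B} (h : ∀ j, (w j).isSome = (w' j).isSome) : zf w = zf w' := by
  funext j
  unfold zf
  simp only [h]

lemma num1 {b m L s y ε : ℕ} (P : NP b m L s y ε) :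
    2 * L * m ^ (L - 5 * y) * (b + 1) ^ (4 * y) < (b + 1) ^ L := by
  have hL := P.Lge
  have hy := P.yge
  have he := P.eps
  have hb := P.b1
  have hb1 : 1 < b + 1 := by omega
  have h1 : 2 * L ≤ 16 ^ L := by
    have h2 : L < 2 ^ L := Nat.lt_two_pow_self
    have h3 : 2 * 2 ^ L ≤ 16 ^ L := by
      have h4 : 16 ^ L = 8 ^ L * 2 ^ L := by rw [← mul_pow]; norm_num
      rw [h4]
      apply Nat.mul_le_mul_right
      calc 2 ≤ 8 ^ 1 := by norm_num
        _ ≤ 8 ^ L := Nat.pow_le_pow_right (by norm_num) (by omega)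
    omega
  have h2 := h1.trans P.pw
  have h3 := P.m_pow (L - 5 * y) (by omega)
  calc 2 * L * m ^ (L - 5 * y) * (b + 1) ^ (4 * y)
      ≤ (b + 1) ^ ε * (b + 1) ^ (L - 5 * y + ε) * (b + 1) ^ (4 * y) :=
        Nat.mul_le_mul_right _ (Nat.mul_le_mul h2 h3)
    _ = (b + 1) ^ (ε + (L - 5 * y + ε) + 4 * y) := by rw [← pow_add, ← pow_add]
    _ < (b + 1) ^ L := Nat.pow_lt_pow_right hb1 (by omega)

/-- the numerical condition for the number of close pairs -/
lemma num2 {b m L s y ε A : ℕ} (P : NP b m L s y ε)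
    (hA : A * (b + 1) ^ (10 ^ 7 * y + 32 * y) ≤ 3 ^ L * (b + 1) ^ (L + 2 * (5 * y))) :
    2 * ((b + 1) ^ (2 * (10 ^ 7 * y)) * A * (b + 1) ^ (5 * y)) * (b + 1) ^ (L - 10 ^ 7 * y) *
      (b + 1) ^ (2 * (8 * y)) ≤ (b + 1) ^ (2 * L) := by
  have hL := P.Lge
  have hy := P.yge
  have he := P.eps
  have hb := P.b1
  have hb1 : 0 < b + 1 := by omega
  have h1 : 2 * 3 ^ L ≤ (b + 1) ^ ε := by
    refine le_trans ?_ P.pw
    calc 2 * 3 ^ L ≤ 2 ^ L * 3 ^ L := by
          apply Nat.mul_le_mul_right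
          calc 2 = 2 ^ 1 := by norm_num
            _ ≤ 2 ^ L := Nat.pow_le_pow_right (by norm_num) (by omega)
      _ = 6 ^ L := by rw [← mul_pow]; norm_num
      _ ≤ 16 ^ L := Nat.pow_le_pow_left (by norm_num) L
  generalize hl : 10 ^ 7 * y = l at *
  have hlL : l ≤ L := by omega
  apply Nat.le_of_mul_le_mul_right _ (pow_pos hb1 (l + 32 * y))
  calc 2 * ((b + 1) ^ (2 * l) * A * (b + 1) ^ (5 * y)) * (b + 1) ^ (L - l) *
      (b + 1) ^ (2 * (8 * y)) * (b + 1) ^ (l + 32 * y)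
      = 2 * (A * (b + 1) ^ (l + 32 * y)) * ((b + 1) ^ (2 * l) * (b + 1) ^ (5 * y) *
        (b + 1) ^ (L - l) * (b + 1) ^ (2 * (8 * y))) := by ring
    _ ≤ 2 * (3 ^ L * (b + 1) ^ (L + 2 * (5 * y))) * ((b + 1) ^ (2 * l) * (b + 1) ^ (5 * y) *
        (b + 1) ^ (L - l) * (b + 1) ^ (2 * (8 * y))) :=
        Nat.mul_le_mul_right _ (Nat.mul_le_mul_left _ hA)
    _ = (2 * 3 ^ L) * ((b + 1) ^ (L + 2 * (5 * y)) * ((b + 1) ^ (2 * l) * (b + 1) ^ (5 * y) *
        (b + 1) ^ (L - l) * (b + 1) ^ (2 * (8 * y)))) := by ring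
    _ ≤ (b + 1) ^ ε * ((b + 1) ^ (L + 2 * (5 * y)) * ((b + 1) ^ (2 * l) * (b + 1) ^ (5 * y) *
        (b + 1) ^ (L - l) * (b + 1) ^ (2 * (8 * y)))) := Nat.mul_le_mul_right _ h1
    _ = (b + 1) ^ (ε + (L + 2 * (5 * y) + (2 * l + 5 * y + (L - l) + 2 * (8 * y)))) := by
        simp only [pow_add]
    _ ≤ (b + 1) ^ (2 * L + (l + 32 * y)) := Nat.pow_le_pow_right hb1 (by omega)
    _ = (b + 1) ^ (2 * L) * (b + 1) ^ (l + 32 * y) := pow_add _ _ _

lemma num3 {b m L s y ε : ℕ} (P : NP b m L s y ε) :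
    2 * 200001 * 2 ^ L * (b + 1) ^ ((10 ^ 7 * y + 32 * y) - (10 ^ 7 * y + 32 * y) / 200001) *
      (b + 1) ^ (8 * y + 5 * y) < (b + 1) ^ (10 ^ 7 * y) := by
  have hL := P.Lge
  have hy := P.yge
  have he := P.eps
  have hb := P.b1
  have hb1 : 1 < b + 1 := by omega
  have h1 : 2 * 200001 * 2 ^ L ≤ (b + 1) ^ ε := by
    refine le_trans ?_ P.pw
    have h4 : 16 ^ L = 8 ^ L * 2 ^ L := by rw [← mul_pow]; norm_num
    rw [h4]
    apply Nat.mul_le_mul_right
    calc 2 * 200001 ≤ 8 ^ 7 := by norm_num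
      _ ≤ 8 ^ L := Nat.pow_le_pow_right (by norm_num) (by omega)
  have h2 : 49 * y ≤ (10 ^ 7 * y + 32 * y) / 200001 := by
    rw [Nat.le_div_iff_mul_le (by norm_num)]
    omega
  calc 2 * 200001 * 2 ^ L * (b + 1) ^ ((10 ^ 7 * y + 32 * y) - (10 ^ 7 * y + 32 * y) / 200001) *
      (b + 1) ^ (8 * y + 5 * y)
      ≤ (b + 1) ^ ε * (b + 1) ^ ((10 ^ 7 * y + 32 * y) - (10 ^ 7 * y + 32 * y) / 200001) *
      (b + 1) ^ (8 * y + 5 * y) := Nat.mul_le_mul_right _ (Nat.mul_le_mul_right _ h1)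
    _ = (b + 1) ^ (ε + ((10 ^ 7 * y + 32 * y) - (10 ^ 7 * y + 32 * y) / 200001) +
      (8 * y + 5 * y)) := by rw [← pow_add, ← pow_add]
    _ < (b + 1) ^ (10 ^ 7 * y) := Nat.pow_lt_pow_right hb1 (by omega)

omit [Fintype B] in
/-- the coefficients in terms of all positions -/
lemma vc_sum {g : ℕ} (δ μ : (ZMod g)ˣ) (L : ℕ) (w : ℤ → Option B) (i : B) :
    vc δ μ L w i = ∑ j ∈ Ico (0 : ℤ) L, (if w j = some i then cz δ μ (zf w) j else 0) := by
  unfold vc
  rw [sum_filter]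

omit [Fintype B] in
/-- the difference of the coefficients of two words which agree off `[0, n)` -/
lemma vc_diff {g : ℕ} (δ μ : (ZMod g)ˣ) (L n : ℕ) (hn : n ≤ L) (w w' : ℤ → Option B)
    (z : ℤ → ℤ) (h1 : zf w = z) (h2 : zf w' = z) (a a' : ℤ → Option B)
    (h3 : ∀ t : ℤ, 0 ≤ t → t < n → w t = a t ∧ w' t = a' t)
    (h4 : ∀ t : ℤ, (n : ℤ) ≤ t → t < L → w t = w' t) (i : B) :
    vc δ μ L w i - vc δ μ L w' i = ∑ j ∈ Ico (0 : ℤ) n, ((if a j = some i then cz δ μ z j else 0) -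
      (if a' j = some i then cz δ μ z j else 0)) := by
  rw [vc_sum, vc_sum, ← sum_sub_distrib, h1, h2]
  have h5 : Ico (0 : ℤ) n ⊆ Ico (0 : ℤ) L := by
    intro t ht
    rw [mem_Ico] at ht ⊢
    exact ⟨ht.1, by have : (n : ℤ) ≤ L := by exact_mod_cast hn
                    omega⟩
  rw [← sum_subset h5]
  · apply sum_congr rfl
    intro t ht
    rw [mem_Ico] at ht
    rw [(h3 t ht.1 ht.2).1, (h3 t ht.1 ht.2).2]
  · intro t ht ht'
    rw [mem_Ico] at ht ht'
    rw [h4 t (by omega) ht.2, sub_self]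

lemma card_lt_filter {L n : ℕ} (hn : n ≤ L) :
    (univ.filter (fun t : Fin L => t.val < n)).card = n := by
  have h : (univ.filter (fun t : Fin L => t.val < n)).card = (range n).card := by
    apply card_bij (fun t _ => t.val)
    · intro t ht
      simpa using ht
    · intro t _ t' _ h
      exact Fin.ext h
    · intro t ht
      rw [mem_range] at ht
      exact ⟨⟨t, by omega⟩, by simpa using ht, rfl⟩
  rw [h, card_range]

theorem B1 {b m g L s y ε : ℕ} (hB : Fintype.card B = b) (P : NP b m L s y ε)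
    {δ μ : (ZMod g)ˣ} (U : Un (b + 1) m g L s δ μ) (hg : (b + 1) ^ L ≤ g * (b + 1) ^ (4 * y))
    (S : Finset ((ℤ → Option B) × (ℤ → Option B)))
    (hS : ∀ p ∈ S, Wd p.1 L s ∧ Wd p.2 L s)
    (hsk : ∀ p ∈ S, ∀ p' ∈ S, ∀ j, (p.1 j).isSome = (p'.1 j).isSome ∧
      (p.2 j).isSome = (p'.2 j).isSome)
    (l : (ZMod g)ˣ) (hrel : ∀ p ∈ S, ∀ i, vc δ μ L p.2 i = l * vc δ μ L p.1 i)
    (hbig : (b + 1) ^ L ≤ S.card * (b + 1) ^ (8 * y)) :
    ∃ (h h' P Q : ℤ), 0 ≤ h ∧ h < L ∧ 0 ≤ h' ∧ h' < L ∧ IsCoprime P ((b : ℤ) + 1) ∧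
      IsCoprime Q ((b : ℤ) + 1) ∧ |P| ≤ (L : ℤ) * (m : ℤ) ^ (2 * (10 ^ 7 * y)) ∧
      |Q| ≤ (L : ℤ) * (m : ℤ) ^ (2 * (10 ^ 7 * y)) ∧
      ∀ q ∈ S, ∀ i, (P : ZMod g) * vc δ μ L (sh h q.1) i = (Q : ZMod g) * vc δ μ L (sh h' q.2) i := by
  classical
  obtain ⟨hs0, hL0⟩ := P.s_pos
  have : NeZero L := ⟨hL0.ne'⟩
  have hy := P.yge
  have hLge := P.Lge
  have hLle := P.Lle
  have heps := P.eps
  have hb := P.b1
  have hnum := num1 P
  have hX : 2 * L * m ^ (L - 5 * y) < g := by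
    by_contra hc
    push Not at hc
    have h1 := Nat.mul_le_mul_right ((b + 1) ^ (4 * y)) hc
    omega
  have hb2 : 2 ≤ b := le_trans (by norm_num) hb
  have h5L : 5 * y ≤ L := by omega
  -- the first lemma for the second condition
  have hn2 := num3 P
  have hA1 : (3 ^ L * (b + 1) ^ (L + 2 * (5 * y))) / (b + 1) ^ (10 ^ 7 * y + 32 * y) *
      (b + 1) ^ (10 ^ 7 * y + 32 * y) ≤ 3 ^ L * (b + 1) ^ (L + 2 * (5 * y)) :=
    Nat.div_mul_le_self _ _
  have hn1 := num2 P hA1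
  have hℓ1 : 10 ^ 7 * y ≤ L - 5 * y := by omega
  have hML : L ≤ 200001 * (10 ^ 7 * y) := by omega
  have hXe : 2 * (10 ^ 7 * y) * m ^ (10 ^ 7 * y) < g := by
    refine lt_of_le_of_lt ?_ hX
    apply Nat.mul_le_mul
    · omega
    · exact Nat.pow_le_pow_right (by have := P.dm; omega) hℓ1
  generalize hl : 10 ^ 7 * y = ℓ at *
  have hℓL : ℓ ≤ L := by omega
  have hℓ0 : 0 < ℓ := by omega
  have hlz : (ℓ : ℤ) ≤ L := by exact_mod_cast hℓL
  let R : (ℤ → Option B) × (ℤ → Option B) → (Fin L → Option B) × (Fin L → Option B) :=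
    fun p => (rsw L p.1, rsw L p.2)
  have hRinj : Set.InjOn R (S : Set _) := by
    intro p hp q hq h
    have h1 := rsw_inj hL0 (hS p hp).1.per (hS q hq).1.per (congrArg Prod.fst h)
    have h2 := rsw_inj hL0 (hS p hp).2.per (hS q hq).2.per (congrArg Prod.snd h)
    exact Prod.ext h1 h2
  have hcard : (S.image R).card = S.card := card_image_of_injOn hRinj
  have key1 : ∀ x, ((S.image R).filter (fun p => p.2 = x)).card ≤ (b + 1) ^ (5 * y) := by
    intro x
    refine le_trans ?_ (inj_count hB hb2 P.dm P.cop U h5L hX hL0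
      ((S.filter (fun p => rsw L p.2 = x)).image Prod.fst) ?_ ?_
      (fun i => ((l⁻¹ : (ZMod g)ˣ) : ZMod g) * vc δ μ L (ext L x) i) ?_)
    · apply card_le_card_of_injOn (fun q => ext L q.1)
      · intro q hq
        simp only [coe_filter, Set.mem_ofPred_eq, mem_image] at hq
        obtain ⟨⟨p, hp, rfl⟩, hq2⟩ := hq
        rw [mem_coe, mem_image]
        refine ⟨p, mem_filter.mpr ⟨hp, hq2⟩, ?_⟩
        exact (ext_rsw (hS p hp).1.per).symm
      · intro q hq q' hq' h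
        simp only [coe_filter, Set.mem_ofPred_eq] at hq hq'
        exact Prod.ext (ext_injective L h) (hq.2.trans hq'.2.symm)
    · intro w hw
      obtain ⟨p, hp, rfl⟩ := mem_image.mp hw
      exact (hS p (mem_filter.mp hp).1).1
    · intro w hw w' hw' j
      obtain ⟨p, hp, rfl⟩ := mem_image.mp hw
      obtain ⟨p', hp', rfl⟩ := mem_image.mp hw'
      exact (hsk p (mem_filter.mp hp).1 p' (mem_filter.mp hp').1 j).1
    · intro w hw i
      obtain ⟨p, hp, rfl⟩ := mem_image.mp hw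
      obtain ⟨hp1, hp2⟩ := mem_filter.mp hp
      rw [← hp2, ext_rsw (hS p hp1).2.per, hrel p hp1 i, Units.inv_mul_cancel_left]
  have key1' : ∀ x, ((S.image R).filter (fun p => p.1 = x)).card ≤ (b + 1) ^ (5 * y) := by
    intro x
    refine le_trans ?_ (inj_count hB hb2 P.dm P.cop U h5L hX hL0
      ((S.filter (fun p => rsw L p.1 = x)).image Prod.snd) ?_ ?_
      (fun i => (l : ZMod g) * vc δ μ L (ext L x) i) ?_)
    · apply card_le_card_of_injOn (fun q => ext L q.2)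
      · intro q hq
        simp only [coe_filter, Set.mem_ofPred_eq, mem_image] at hq
        obtain ⟨⟨p, hp, rfl⟩, hq2⟩ := hq
        rw [mem_coe, mem_image]
        refine ⟨p, mem_filter.mpr ⟨hp, hq2⟩, ?_⟩
        exact (ext_rsw (hS p hp).2.per).symm
      · intro q hq q' hq' h
        simp only [coe_filter, Set.mem_ofPred_eq] at hq hq'
        exact Prod.ext (hq.2.trans hq'.2.symm) (ext_injective L h)
    · intro w hw
      obtain ⟨p, hp, rfl⟩ := mem_image.mp hw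
      exact (hS p (mem_filter.mp hp).1).2
    · intro w hw w' hw' j
      obtain ⟨p, hp, rfl⟩ := mem_image.mp hw
      obtain ⟨p', hp', rfl⟩ := mem_image.mp hw'
      exact (hsk p (mem_filter.mp hp).1 p' (mem_filter.mp hp').1 j).2
    · intro w hw i
      obtain ⟨p, hp, rfl⟩ := mem_image.mp hw
      obtain ⟨hp1, hp2⟩ := mem_filter.mp hp
      rw [← hp2, ext_rsw (hS p hp1).1.per, hrel p hp1 i]
  have hSne : S.Nonempty := by
    rw [nonempty_iff_ne_empty]
    rintro rfl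
    simp at hbig
  obtain ⟨p0, hp0⟩ := hSne
  let T : Finset (Fin L) := univ.filter (fun t : Fin L => t.val < ℓ)
  have hT : T.card = ℓ := card_lt_filter hℓL
  have key2 : ∀ a a2 : Fin L → Option B,
      ∀ Y : Finset ((Fin L → Option B) × (Fin L → Option B)),
      (∀ q ∈ Y, ∃ x x2, (x, q.1) ∈ S.image R ∧ (x2, q.2) ∈ S.image R ∧
        (∀ t ∈ T, x t = a t ∧ x2 t = a2 t) ∧
        (∀ t, t ∉ T → x t = x2 t) ∧ ℓ + 32 * y ≤ (univ.filter (fun t => q.1 t ≠ q.2 t)).card) →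
      Y.card ≤ (3 ^ L * (b + 1) ^ (L + 2 * (5 * y))) / (b + 1) ^ (ℓ + 32 * y) := by
    intro a a2 Y hY
    rw [Nat.le_div_iff_mul_le (by positivity)]
    have hYc : (Y.image (fun q => (ext L q.1, ext L q.2))).card = Y.card := by
      apply card_image_of_injective
      intro q q' h
      exact Prod.ext (ext_injective L (congrArg Prod.fst h)) (ext_injective L (congrArg Prod.snd h))
    rw [← hYc]
    -- the data of a pair
    have hdat : ∀ q ∈ Y, ∃ P1 ∈ S, ∃ P2 ∈ S, ext L q.1 = P1.2 ∧ ext L q.2 = P2.2 ∧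
        rsw L P1.2 = q.1 ∧ rsw L P2.2 = q.2 ∧
        (∀ t : ℤ, 0 ≤ t → t < ℓ → P1.1 t = ext L a t ∧ P2.1 t = ext L a2 t) ∧
        (∀ t : ℤ, (ℓ : ℤ) ≤ t → t < L → P1.1 t = P2.1 t) := by
      intro q hq
      obtain ⟨x, x2, hx, hx2, h3, h4, _⟩ := hY q hq
      obtain ⟨P1, hP1, e1⟩ := mem_image.mp hx
      obtain ⟨P2, hP2, e2⟩ := mem_image.mp hx2
      have e11 : rsw L P1.1 = x := congrArg Prod.fst e1
      have e12 : rsw L P1.2 = q.1 := congrArg Prod.snd e1
      have e21 : rsw L P2.1 = x2 := congrArg Prod.fst e2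
      have e22 : rsw L P2.2 = q.2 := congrArg Prod.snd e2
      refine ⟨P1, hP1, P2, hP2, ?_, ?_, e12, e22, ?_, ?_⟩
      · rw [← e12, ext_rsw (hS P1 hP1).2.per]
      · rw [← e22, ext_rsw (hS P2 hP2).2.per]
      · intro t ht0 ht1
        obtain ⟨n, rfl⟩ := Int.eq_ofNat_of_zero_le ht0
        have hn : n < ℓ := by exact_mod_cast ht1
        have hnL : n < L := by omega
        have h5 := h3 ⟨n, hnL⟩ (mem_filter.mpr ⟨mem_univ _, hn⟩)
        constructor
        · have : P1.1 (n : ℤ) = x ⟨n, hnL⟩ := by rw [← e11]; rfl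
          rw [this, h5.1]
          unfold GC70.ext
          rw [idx_nat L n hnL]
        · have : P2.1 (n : ℤ) = x2 ⟨n, hnL⟩ := by rw [← e21]; rfl
          rw [this, h5.2]
          unfold GC70.ext
          rw [idx_nat L n hnL]
      · intro t ht0 ht1
        obtain ⟨n, rfl⟩ := Int.eq_ofNat_of_zero_le (by omega : 0 ≤ t)
        have hn : ℓ ≤ n := by exact_mod_cast ht0
        have hnL : n < L := by exact_mod_cast ht1
        have h5 := h4 ⟨n, hnL⟩ (by
          intro hc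
          have := (mem_filter.mp hc).2
          simp only at this
          omega)
        rw [← e11, ← e21] at h5
        exact h5
    refine pair_count hB hb2 P.dm P.cop U h5L hX hL0 (Y.image (fun q => (ext L q.1, ext L q.2)))
      ?_ ?_ (fun i => (l : ZMod g) * ∑ j ∈ Ico (0 : ℤ) ℓ,
        ((if ext L a j = some i then cz δ μ (zf p0.1) j else 0) -
          (if ext L a2 j = some i then cz δ μ (zf p0.1) j else 0))) ?_ ?_
    · intro p hp
      obtain ⟨q, hq, rfl⟩ := mem_image.mp hp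
      obtain ⟨P1, hP1, P2, hP2, e1, e2, -⟩ := hdat q hq
      simp only
      rw [e1, e2]
      exact ⟨(hS P1 hP1).2, (hS P2 hP2).2⟩
    · intro p hp p' hp' j
      obtain ⟨q, hq, rfl⟩ := mem_image.mp hp
      obtain ⟨q', hq', rfl⟩ := mem_image.mp hp'
      obtain ⟨P1, hP1, P2, hP2, e1, e2, -⟩ := hdat q hq
      obtain ⟨P1', hP1', P2', hP2', e1', e2', -⟩ := hdat q' hq'
      simp only
      rw [e1, e2, e1']
      exact ⟨(hsk P1 hP1 P1' hP1' j).2, (hsk P2 hP2 P1' hP1' j).2⟩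
    · intro p hp i
      obtain ⟨q, hq, rfl⟩ := mem_image.mp hp
      obtain ⟨P1, hP1, P2, hP2, e1, e2, -, -, h3, h4⟩ := hdat q hq
      simp only
      rw [e1, e2, hrel P1 hP1 i, hrel P2 hP2 i, ← mul_sub,
        vc_diff δ μ L ℓ hℓL P1.1 P2.1 (zf p0.1) (zf_congr (fun j => (hsk P1 hP1 p0 hp0 j).1))
          (zf_congr (fun j => (hsk P2 hP2 p0 hp0 j).1)) (ext L a) (ext L a2) h3 h4 i]
    · intro p hp
      obtain ⟨q, hq, rfl⟩ := mem_image.mp hp
      obtain ⟨P1, hP1, P2, hP2, e1, e2, e3, e4, -⟩ := hdat q hq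
      obtain ⟨_, _, _, _, _, _, h5⟩ := hY q hq
      simp only
      rw [e1, e2]
      refine h5.trans ?_
      rw [← e3, ← e4]
      exact dis_ge _ _
  let W : Fin 200001 → Finset (Fin L) :=
    fun j => univ.filter (fun t : Fin L => j.val * ℓ ≤ t.val ∧ t.val < (j.val + 1) * ℓ)
  have hW : ∀ t, ∃ j, t ∈ W j := by
    intro t
    have h1 : t.val / ℓ < 200001 := by
      rw [Nat.div_lt_iff_lt_mul hℓ0]
      have := t.2
      omega
    refine ⟨⟨t.val / ℓ, h1⟩, mem_filter.mpr ⟨mem_univ _, ?_, ?_⟩⟩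
    · exact Nat.div_mul_le_self _ _
    · simp only
      rw [mul_comm]
      exact Nat.lt_mul_div_succ _ hℓ0
  obtain ⟨p, hp, p2, hp2, j, hne, hT', hWj⟩ := B1count (by rw [hB]) (S.image R) T 200001 (by norm_num) W hW (8 * y) (5 * y)
    (ℓ + 32 * y) ((3 ^ L * (b + 1) ^ (L + 2 * (5 * y))) / (b + 1) ^ (ℓ + 32 * y))
    (by rw [hcard]; exact hbig) key1 key1' key2 (by rw [hT]; exact hn1) (by rw [hT]; exact hn2)
  obtain ⟨P1, hP1, rfl⟩ := mem_image.mp hp
  obtain ⟨P2, hP2, rfl⟩ := mem_image.mp hp2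
  obtain ⟨h, h', p', q', h1, h2, h3, h4, h5, h6, h7, h8, h9⟩ := extract hB hb2 P.dm P.cop U hℓL hL0 hXe S hS hsk l hrel P1 P2 hP1 hP2
    (fun hc => hne (by simp only [R, hc])) (by
      intro t ht0 ht1
      obtain ⟨n, rfl⟩ := Int.eq_ofNat_of_zero_le (by omega : 0 ≤ t)
      have hn : ℓ ≤ n := by exact_mod_cast ht0
      have hnL : n < L := by exact_mod_cast ht1
      exact hT' ⟨n, hnL⟩ (by
        intro hc
        have := (mem_filter.mp hc).2
        simp only at this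
        omega)) ((j.val * ℓ : ℕ) : ℤ) (by positivity) (by
      intro t ht0 ht1 ht2
      obtain ⟨n, rfl⟩ := Int.eq_ofNat_of_zero_le ht0
      have hnL : n < L := by exact_mod_cast ht1
      exact hWj ⟨n, hnL⟩ (by
        intro hc
        obtain ⟨h6, h7⟩ := (mem_filter.mp hc).2
        simp only at h6 h7
        apply ht2
        rw [add_mul, one_mul] at h7
        constructor
        · exact_mod_cast h6
        · exact_mod_cast h7))
  have hmono : (ℓ : ℤ) * (m : ℤ) ^ (2 * ℓ) ≤ (L : ℤ) * (m : ℤ) ^ (2 * ℓ) :=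
    mul_le_mul_of_nonneg_right hlz (by positivity)
  exact ⟨h, h', p', q', h1, h2, h3, h4, h5, h6, h7.trans hmono, h8.trans hmono, h9⟩

end GC85
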