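import Mathlib
import Pool.Agent.Helper85.DN.Inj

/-!
# DN-B2: with a small relation most of the pairs agree at most positions

`n = L - ρ2`, `ρ2 = 2 * 10 ^ 7 y + 6 y`, `k2 = 2 * 10 ^ 7 y + 16 y`. The pairs with at least `k2` differences in
`[0, n)`: fix the letters of both words on `[n, L)`, `(b + 1) ^ (2 ρ2)` classes. In one class, by `win_id`
(`x = 0`, `Z` = the larger one of `z n` and `z' n`, where `z, z'` are the `zf` of the first and of the
second words; `|z n - z' n| ≤ ε` because both are in `[n - ε, n]`, by `NP.zer`)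
the numbers `P xs(p.1) i - Q xs(p.2) i` are equal modulo `g`, and their differences are at most
`4 L m ^ (2 * 10 ^ 7 y) * L m ^ (n + ε) < g`, so they are equal. `tree` with
`A y t = P m ^ (Z - z t)`, `A' y t = Q m ^ (Z - z' t)` (the sum over `range n` as a sum over `Fin n`:
`Finset.sum_range`) gives at most `3 ^ k2 (b + 1) ^ (n - k2)` pairs in a class. In total
`3 ^ L (b + 1) ^ (L + ρ2 - k2) ≤ S.card / 2`, because `k2 ≥ ρ2 + 8 y + ε + 1`.
-/

set_option autoImplicit false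

namespace GC85

open Finset GC70

variable {B : Type} [Fintype B] [DecidableEq B]

omit [Fintype B] in
/-- `|zf w n - n| ≤ ε` for words with at most `ε` letters `none` -/
theorem zf_near {b m L s y ε : ℕ} (P : NP b m L s y ε) {w : ℤ → Option B} (hw : Wd w L s)
    (n : ℕ) (hn : n ≤ L) : (n : ℤ) - ε ≤ zf w n ∧ zf w n ≤ n := by
  have h0 : zf w 0 = 0 := zf_zero w
  have h1 := (zf_isZ w).lip (show (0 : ℤ) ≤ n by positivity)
  have hnL : (n : ℤ) ≤ L := by exact_mod_cast hn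
  have h2 := (zf_isZ w).lip hnL
  have h3 := hw.zf_add 0
  rw [zero_add, h0, zero_add] at h3
  have h4 : (L : ℤ) ≤ s + ε := by exact_mod_cast P.zer
  rw [h0] at h1
  constructor
  · linarith
  · linarith

omit [Fintype B] [DecidableEq B] in
private theorem zf_congr {w w' : ℤ → Option B} (h : ∀ j, (w j).isSome = (w' j).isSome) :
    zf w = zf w' := by
  funext j
  unfold zf
  simp only [h]

omit [Fintype B] in
private theorem dis_fin (w w' : ℤ → Option B) (n : ℕ) :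
    dis w w' n = (univ.filter (fun t : Fin n => w ((t : ℕ) : ℤ) ≠ w' ((t : ℕ) : ℤ))).card := by
  unfold dis
  symm
  refine card_bij (fun (t : Fin n) _ => ((t : ℕ) : ℤ)) ?_ ?_ ?_
  · intro t ht
    simp only [mem_filter, mem_univ, true_and, mem_Ico] at ht ⊢
    exact ⟨⟨by positivity, by exact_mod_cast t.2⟩, ht⟩
  · intro t _ t' _ h
    exact Fin.ext (by exact_mod_cast h)
  · intro j hj
    simp only [mem_filter, mem_Ico] at hj
    have hj0 : ((j.toNat : ℕ) : ℤ) = j := Int.toNat_of_nonneg hj.1.1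
    refine ⟨⟨j.toNat, by omega⟩, ?_, hj0⟩
    simp only [mem_filter, mem_univ, true_and]
    rw [hj0]
    exact hj.2

omit [Fintype B] [DecidableEq B] in
private theorem word_ext {L n ρ : ℕ} (hL : 0 < L) (hnρ : n + ρ = L) {w w' : ℤ → Option B}
    (h : Per w L) (h' : Per w' L)
    (h1 : ∀ t : Fin n, w ((t : ℕ) : ℤ) = w' ((t : ℕ) : ℤ))
    (h2 : ∀ j : Fin ρ, w ((n : ℤ) + (j : ℕ)) = w' ((n : ℤ) + (j : ℕ))) : w = w' := by
  funext x
  rw [← h.emod x, ← h'.emod x]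
  have hx0 : 0 ≤ x % L := Int.emod_nonneg _ (by omega)
  have hx1 : x % L < L := Int.emod_lt_of_pos _ (by omega)
  generalize x % L = j at hx0 hx1
  by_cases hj : j < n
  · have := h1 ⟨j.toNat, by omega⟩
    simp only [Int.toNat_of_nonneg hx0] at this
    exact this
  · have := h2 ⟨(j - n).toNat, by omega⟩
    simp only [Int.toNat_of_nonneg (show 0 ≤ j - n by omega)] at this
    rw [show (n : ℤ) + (j - n) = j by ring] at this
    exact this

omit [Fintype B] in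
private theorem tail_sum {g : ℕ} {δ μ : (ZMod g)ˣ} {L n ρ : ℕ} (hnρ : n + ρ = L)
    {w w' : ℤ → Option B} (hz : zf w = zf w')
    (h2 : ∀ j : Fin ρ, w ((n : ℤ) + (j : ℕ)) = w' ((n : ℤ) + (j : ℕ))) (Z : ℤ) (i : B) :
    ∑ j ∈ (Ico ((0 : ℤ) + n) (0 + L)).filter (fun j => w j = some i),
          ((δ ^ (j - 0) * μ ^ (Z - zf w j) : (ZMod g)ˣ) : ZMod g) =
      ∑ j ∈ (Ico ((0 : ℤ) + n) (0 + L)).filter (fun j => w' j = some i),
          ((δ ^ (j - 0) * μ ^ (Z - zf w' j) : (ZMod g)ˣ) : ZMod g) := by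
  rw [hz]
  refine sum_congr ?_ fun _ _ => rfl
  refine filter_congr fun j hj => ?_
  rw [mem_Ico] at hj
  have := h2 ⟨(j - n).toNat, by omega⟩
  simp only [Int.toNat_of_nonneg (show 0 ≤ j - n by omega)] at this
  rw [show (n : ℤ) + (j - n) = j by ring] at this
  rw [this]

omit [Fintype B] in
/-- the integer part as a sum over `Fin n` -/
private theorem xs_fin {d m : ℕ} (z z' : ℤ → ℤ) (Z : ℤ) (n : ℕ) (w w' : ℤ → Option B) (P Q : ℤ)
    (i : B) :
    P * xs d m z Z 0 n w i - Q * xs d m z' Z 0 n w' i =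
      ∑ t : Fin n, (d : ℤ) ^ (t : ℕ) *
        ((if w ((t : ℕ) : ℤ) = some i then P * (m : ℤ) ^ ((Z - z ((t : ℕ) : ℤ)).toNat) else 0) -
          (if w' ((t : ℕ) : ℤ) = some i then Q * (m : ℤ) ^ ((Z - z' ((t : ℕ) : ℤ)).toNat)
            else 0)) := by
  unfold xs
  rw [mul_sum, mul_sum, ← sum_sub_distrib, sum_range]
  refine sum_congr rfl fun t _ => ?_
  simp only [zero_add]
  split_ifs <;> ring

/-- one class -/
private theorem cls_bound {b m g L s y ε : ℕ} (hB : Fintype.card B = b) (N : NP b m L s y ε)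
    {δ μ : (ZMod g)ˣ} (U : Un (b + 1) m g L s δ μ) {n ρ k : ℕ} (hnρ : n + ρ = L)
    (C : Finset ((ℤ → Option B) × (ℤ → Option B)))
    (hS : ∀ p ∈ C, Wd p.1 L s ∧ Wd p.2 L s)
    (hsk : ∀ p ∈ C, ∀ p' ∈ C, ∀ j, (p.1 j).isSome = (p'.1 j).isSome ∧
      (p.2 j).isSome = (p'.2 j).isSome)
    (P Q : ℤ) (hP : IsCoprime P ((b : ℤ) + 1)) (hQ : IsCoprime Q ((b : ℤ) + 1))
    (M : ℤ) (hP' : |P| ≤ M) (hQ' : |Q| ≤ M)
    (hM : 2 * (M * ((n : ℤ) * (m : ℤ) ^ (n + ε))) < g)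
    (hrel : ∀ q ∈ C, ∀ i, (P : ZMod g) * vc δ μ L q.1 i = (Q : ZMod g) * vc δ μ L q.2 i)
    (hfix : ∀ p ∈ C, ∀ p' ∈ C, ∀ j : Fin ρ, p.1 ((n : ℤ) + (j : ℕ)) = p'.1 ((n : ℤ) + (j : ℕ)) ∧
      p.2 ((n : ℤ) + (j : ℕ)) = p'.2 ((n : ℤ) + (j : ℕ)))
    (hk : ∀ p ∈ C, k ≤ dis p.1 p.2 n) :
    C.card * (b + 1) ^ k ≤ 3 ^ k * (b + 1) ^ n := by
  rcases C.eq_empty_or_nonempty with rfl | ⟨p0, hp0⟩
  · simp
  have hsL := N.s_pos
  have hL : 0 < L := hsL.2
  have hnL : n ≤ L := by omega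
  have hb := N.b1
  have hdm := N.dm
  set z := zf p0.1 with hz
  set z' := zf p0.2 with hz'
  have hzp : ∀ p ∈ C, zf p.1 = z := fun p hp => zf_congr fun j => (hsk p hp p0 hp0 j).1
  have hzp' : ∀ p ∈ C, zf p.2 = z' := fun p hp => zf_congr fun j => (hsk p hp p0 hp0 j).2
  have hn1 := zf_near N (hS p0 hp0).1 n hnL
  have hn2 := zf_near N (hS p0 hp0).2 n hnL
  rw [← hz] at hn1
  rw [← hz'] at hn2
  set Z := max (z n) (z' n) with hZ
  have hZ1 : Z ≤ z n + ε := by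
    rw [hZ]; refine max_le ?_ ?_ <;> linarith
  have hZ2 : Z ≤ z' n + ε := by
    rw [hZ]; refine max_le ?_ ?_ <;> linarith
  have hmono : ∀ t : ℕ, t < n → z ((t : ℕ) : ℤ) ≤ z n := fun t ht =>
    (zf_isZ p0.1).mono (by exact_mod_cast ht.le)
  have hmono' : ∀ t : ℕ, t < n → z' ((t : ℕ) : ℤ) ≤ z' n := fun t ht =>
    (zf_isZ p0.2).mono (by exact_mod_cast ht.le)
  have hlip : ∀ t : ℕ, t < n → z n ≤ z ((t : ℕ) : ℤ) + ((n : ℤ) - t) := fun t ht =>
    (zf_isZ p0.1).lip (by exact_mod_cast ht.le)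
  have hlip' : ∀ t : ℕ, t < n → z' n ≤ z' ((t : ℕ) : ℤ) + ((n : ℤ) - t) := fun t ht =>
    (zf_isZ p0.2).lip (by exact_mod_cast ht.le)
  -- bounds
  have hm0 : 0 < m := by omega
  have hbd : ∀ (w : ℤ → Option B) (i : B), 0 ≤ xs (b + 1) m z Z 0 n w i ∧
      xs (b + 1) m z Z 0 n w i ≤ (n : ℤ) * (m : ℤ) ^ (n + ε) := fun w i =>
    xs_bd hdm hm0 z Z 0 n ε (fun t ht => by
      rw [zero_add]; have := hlip t ht; linarith) w i
  have hbd' : ∀ (w : ℤ → Option B) (i : B), 0 ≤ xs (b + 1) m z' Z 0 n w i ∧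
      xs (b + 1) m z' Z 0 n w i ≤ (n : ℤ) * (m : ℤ) ^ (n + ε) := fun w i =>
    xs_bd hdm hm0 z' Z 0 n ε (fun t ht => by
      rw [zero_add]; have := hlip' t ht; linarith) w i
  -- the exact relation
  set c : B → ℤ := fun i => P * xs (b + 1) m z Z 0 n p0.1 i - Q * xs (b + 1) m z' Z 0 n p0.2 i
    with hc
  have hwin : ∀ p ∈ C, ∀ i, ((P * xs (b + 1) m z Z 0 n p.1 i -
      Q * xs (b + 1) m z' Z 0 n p.2 i : ℤ) : ZMod g) = ((c i : ℤ) : ZMod g) := by
    intro p hp i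
    have key : ∀ q ∈ C, ((P * xs (b + 1) m z Z 0 n q.1 i -
        Q * xs (b + 1) m z' Z 0 n q.2 i : ℤ) : ZMod g) =
        (Q : ZMod g) * (∑ j ∈ (Ico ((0 : ℤ) + n) (0 + L)).filter (fun j => q.2 j = some i),
          ((δ ^ (j - 0) * μ ^ (Z - zf q.2 j) : (ZMod g)ˣ) : ZMod g)) -
        (P : ZMod g) * (∑ j ∈ (Ico ((0 : ℤ) + n) (0 + L)).filter (fun j => q.1 j = some i),
          ((δ ^ (j - 0) * μ ^ (Z - zf q.1 j) : (ZMod g)ˣ) : ZMod g)) := by
      intro q hq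
      have w1 := win_id U (hS q hq).1 0 n hnL Z (fun t ht => by
        rw [zero_add, hzp q hq]; exact (hmono t ht).trans (le_max_left _ _)) i
      have w2 := win_id U (hS q hq).2 0 n hnL Z (fun t ht => by
        rw [zero_add, hzp' q hq]; exact (hmono' t ht).trans (le_max_right _ _)) i
      have hr := hrel q hq i
      rw [hzp q hq] at w1
      rw [hzp' q hq] at w2
      rw [hzp q hq, hzp' q hq]
      rw [Int.cast_sub, Int.cast_mul, Int.cast_mul]
      linear_combination (-(P : ZMod g)) * w1 + (Q : ZMod g) * w2 +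
        ((δ ^ (-(0 : ℤ)) * μ ^ Z : (ZMod g)ˣ) : ZMod g) * hr
    rw [key p hp, hc, key p0 hp0]
    have t1 := tail_sum (δ := δ) (μ := μ) hnρ ((hzp p hp).trans (hzp p0 hp0).symm)
      (fun j => (hfix p hp p0 hp0 j).1) Z i
    have t2 := tail_sum (δ := δ) (μ := μ) hnρ ((hzp' p hp).trans (hzp' p0 hp0).symm)
      (fun j => (hfix p hp p0 hp0 j).2) Z i
    rw [t1, t2]
  have hexact : ∀ p ∈ C, ∀ i, P * xs (b + 1) m z Z 0 n p.1 i -
      Q * xs (b + 1) m z' Z 0 n p.2 i = c i := by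
    intro p hp i
    have h1 := hwin p hp i
    rw [← sub_eq_zero, ← Int.cast_sub, ZMod.intCast_zmod_eq_zero_iff_dvd] at h1
    by_contra hne
    have h2 : (g : ℤ) ≤ |P * xs (b + 1) m z Z 0 n p.1 i -
      Q * xs (b + 1) m z' Z 0 n p.2 i - c i| :=
      Int.le_of_dvd (abs_pos.2 (sub_ne_zero.2 hne)) ((dvd_abs _ _).2 h1)
    have a1 := hbd p.1 i
    have a2 := hbd p0.1 i
    have a3 := hbd' p.2 i
    have a4 := hbd' p0.2 i
    have e : P * xs (b + 1) m z Z 0 n p.1 i - Q * xs (b + 1) m z' Z 0 n p.2 i - c i =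
        P * (xs (b + 1) m z Z 0 n p.1 i - xs (b + 1) m z Z 0 n p0.1 i) -
        Q * (xs (b + 1) m z' Z 0 n p.2 i - xs (b + 1) m z' Z 0 n p0.2 i) := by
      rw [hc]; ring
    have hM0 : 0 ≤ M := (abs_nonneg _).trans hP'
    have h3 : |P * (xs (b + 1) m z Z 0 n p.1 i - xs (b + 1) m z Z 0 n p0.1 i)| ≤
        M * ((n : ℤ) * (m : ℤ) ^ (n + ε)) := by
      rw [abs_mul]
      refine mul_le_mul hP' ?_ (abs_nonneg _) hM0
      rw [abs_le]; constructor <;> linarith [a1.1, a1.2, a2.1, a2.2]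
    have h4 : |Q * (xs (b + 1) m z' Z 0 n p.2 i - xs (b + 1) m z' Z 0 n p0.2 i)| ≤
        M * ((n : ℤ) * (m : ℤ) ^ (n + ε)) := by
      rw [abs_mul]
      refine mul_le_mul hQ' ?_ (abs_nonneg _) hM0
      rw [abs_le]; constructor <;> linarith [a3.1, a3.2, a4.1, a4.2]
    have h5 := abs_sub (P * (xs (b + 1) m z Z 0 n p.1 i - xs (b + 1) m z Z 0 n p0.1 i))
      (Q * (xs (b + 1) m z' Z 0 n p.2 i - xs (b + 1) m z' Z 0 n p0.2 i))
    rw [e] at h2
    linarith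
  -- restriction to `[0, n)`
  set R : ((ℤ → Option B) × (ℤ → Option B)) → (Fin n → Option B) × (Fin n → Option B) :=
    fun p => (fun t => p.1 ((t : ℕ) : ℤ), fun t => p.2 ((t : ℕ) : ℤ)) with hR
  have hinj : Set.InjOn R (C : Set _) := by
    intro p hp q hq hpq
    have e1 : ∀ t : Fin n, p.1 ((t : ℕ) : ℤ) = q.1 ((t : ℕ) : ℤ) := fun t =>
      congrFun (congrArg Prod.fst hpq) t
    have e2 : ∀ t : Fin n, p.2 ((t : ℕ) : ℤ) = q.2 ((t : ℕ) : ℤ) := fun t =>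
      congrFun (congrArg Prod.snd hpq) t
    exact Prod.ext (word_ext hL hnρ (hS p hp).1.per (hS q hq).1.per e1
      fun j => (hfix p hp q hq j).1) (word_ext hL hnρ (hS p hp).2.per (hS q hq).2.per e2
      fun j => (hfix p hp q hq j).2)
  have hcop : ∀ e : ℕ, IsCoprime ((m : ℤ) ^ e) (((b + 1 : ℕ) : ℤ)) := fun e =>
    (Nat.isCoprime_iff_coprime.2 N.cop).pow_left
  have hP1 : IsCoprime P (((b + 1 : ℕ) : ℤ)) := by push_cast; exact hP
  have hQ1 : IsCoprime Q (((b + 1 : ℕ) : ℤ)) := by push_cast; exact hQ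
  have htree := tree (B := B) (d := b + 1) (by omega) (by omega) n k
    (fun _ t => P * (m : ℤ) ^ ((Z - z ((t : ℕ) : ℤ)).toNat))
    (fun _ t => Q * (m : ℤ) ^ ((Z - z' ((t : ℕ) : ℤ)).toNat))
    (fun _ _ _ _ => rfl) (fun _ _ _ _ => rfl)
    (fun _ _ => IsCoprime.mul_left hP1 (hcop _)) (fun _ _ => IsCoprime.mul_left hQ1 (hcop _))
    c (C.image R) (by
      intro q hq i
      obtain ⟨p, hp, rfl⟩ := mem_image.1 hq
      rw [← hexact p hp i, xs_fin]) (by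
      intro q hq
      obtain ⟨p, hp, rfl⟩ := mem_image.1 hq
      have := hk p hp
      rw [dis_fin] at this
      exact this)
  rwa [card_image_of_injOn hinj] at htree

private theorem num_bound {b m g L s y ε : ℕ} (N : NP b m L s y ε)
    (hg : (b + 1) ^ L ≤ g * (b + 1) ^ (4 * y)) {n : ℕ}
    (hn : n + (2 * (10 ^ 7 * y) + 6 * y) = L) :
    2 * (((L : ℤ) * (m : ℤ) ^ (2 * (10 ^ 7 * y))) * ((n : ℤ) * (m : ℤ) ^ (n + ε))) < g := by
  have hb := N.b1
  have hLy := N.Lge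
  have hye := N.yge
  have heps := N.eps
  have heps1 := N.eps1
  have h1 : 2 * (10 ^ 7 * y) + (n + ε) ≤ L := by omega
  have h2 := N.m_pow (2 * (10 ^ 7 * y) + (n + ε)) h1
  have h3 : 2 * (L * n) ≤ 16 ^ L := by
    have a1 : n ≤ L := by omega
    have a2 : L < 2 ^ L := Nat.lt_two_pow_self
    calc 2 * (L * n) ≤ 2 ^ L * (2 ^ L * 2 ^ L) := by
          refine Nat.mul_le_mul ?_ (Nat.mul_le_mul a2.le (a1.trans a2.le))
          calc 2 = 2 ^ 1 := rfl
            _ ≤ 2 ^ L := Nat.pow_le_pow_right (by norm_num) (by omega)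
      _ = 8 ^ L := by rw [← mul_pow, ← mul_pow]; norm_num
      _ ≤ 16 ^ L := Nat.pow_le_pow_left (by norm_num) L
  have h4 : 2 * (L * n) ≤ (b + 1) ^ ε := h3.trans N.pw
  have h5 : 2 * (L * n) * m ^ (2 * (10 ^ 7 * y) + (n + ε)) ≤
      (b + 1) ^ (2 * (10 ^ 7 * y) + (n + ε) + ε + ε) := by
    calc 2 * (L * n) * m ^ (2 * (10 ^ 7 * y) + (n + ε))
        ≤ (b + 1) ^ ε * (b + 1) ^ (2 * (10 ^ 7 * y) + (n + ε) + ε) := Nat.mul_le_mul h4 h2
      _ = (b + 1) ^ (2 * (10 ^ 7 * y) + (n + ε) + ε + ε) := by rw [← pow_add]; congr 1; ring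
  have h6 : (b + 1) ^ (2 * (10 ^ 7 * y) + (n + ε) + ε + ε) * (b + 1) ^ (4 * y) <
      (b + 1) ^ L := by
    rw [← pow_add]
    exact Nat.pow_lt_pow_right (by omega) (by omega)
  have h7 : 2 * (L * n) * m ^ (2 * (10 ^ 7 * y) + (n + ε)) < g := by
    by_contra hcon
    push Not at hcon
    have : g * (b + 1) ^ (4 * y) ≤
        (b + 1) ^ (2 * (10 ^ 7 * y) + (n + ε) + ε + ε) * (b + 1) ^ (4 * y) :=
      Nat.mul_le_mul_right _ (hcon.trans h5)
    omega
  have h8 : ((2 * (L * n) * m ^ (2 * (10 ^ 7 * y) + (n + ε)) : ℕ) : ℤ) < g := by exact_mod_cast h7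
  refine lt_of_eq_of_lt ?_ h8
  rw [Nat.cast_mul, Nat.cast_mul, Nat.cast_mul, Nat.cast_pow,
    pow_add (m : ℤ) (2 * (10 ^ 7 * y)) (n + ε), Nat.cast_ofNat]
  ring

theorem B2 {b m g L s y ε : ℕ} (hB : Fintype.card B = b) (N : NP b m L s y ε)
    {δ μ : (ZMod g)ˣ} (U : Un (b + 1) m g L s δ μ) (hg : (b + 1) ^ L ≤ g * (b + 1) ^ (4 * y))
    (S : Finset ((ℤ → Option B) × (ℤ → Option B)))
    (hS : ∀ p ∈ S, Wd p.1 L s ∧ Wd p.2 L s)
    (hsk : ∀ p ∈ S, ∀ p' ∈ S, ∀ j, (p.1 j).isSome = (p'.1 j).isSome ∧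
      (p.2 j).isSome = (p'.2 j).isSome)
    (P Q : ℤ) (hP : IsCoprime P ((b : ℤ) + 1)) (hQ : IsCoprime Q ((b : ℤ) + 1))
    (hP' : |P| ≤ (L : ℤ) * (m : ℤ) ^ (2 * (10 ^ 7 * y)))
    (hQ' : |Q| ≤ (L : ℤ) * (m : ℤ) ^ (2 * (10 ^ 7 * y)))
    (hrel : ∀ q ∈ S, ∀ i, (P : ZMod g) * vc δ μ L q.1 i = (Q : ZMod g) * vc δ μ L q.2 i)
    (hbig : (b + 1) ^ L ≤ S.card * (b + 1) ^ (8 * y)) :
    S.card ≤ 2 * (S.filter (fun p =>
      dis p.1 p.2 (L - (2 * (10 ^ 7 * y) + 6 * y)) < 2 * (10 ^ 7 * y) + 16 * y)).card := by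
  classical
  have hb := N.b1
  have hLy := N.Lge
  have hye := N.yge
  have heps := N.eps
  have heps1 := N.eps1
  obtain ⟨n, hn⟩ : ∃ n, n + (2 * (10 ^ 7 * y) + 6 * y) = L :=
    ⟨L - (2 * (10 ^ 7 * y) + 6 * y), by omega⟩
  have hn' : L - (2 * (10 ^ 7 * y) + 6 * y) = n := by omega
  rw [hn']
  set k := 2 * (10 ^ 7 * y) + 16 * y with hk
  set ρ := 2 * (10 ^ 7 * y) + 6 * y with hρ
  set S' := S.filter (fun p => ¬ dis p.1 p.2 n < k) with hS'
  have hsplit : (S.filter (fun p => dis p.1 p.2 n < k)).card + S'.card = S.card :=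
    card_filter_add_card_filter_not _
  have hsub : ∀ p ∈ S', p ∈ S := fun p hp => (mem_filter.1 hp).1
  -- classes
  set F : ((ℤ → Option B) × (ℤ → Option B)) → (Fin ρ → Option B) × (Fin ρ → Option B) :=
    fun p => (fun j => p.1 ((n : ℤ) + (j : ℕ)), fun j => p.2 ((n : ℤ) + (j : ℕ))) with hF
  have hcls : ∀ a : (Fin ρ → Option B) × (Fin ρ → Option B),
      (S'.filter (fun p => F p = a)).card * (b + 1) ^ k ≤ 3 ^ k * (b + 1) ^ n := by
    intro a
    refine cls_bound hB N U hn _ (fun p hp => hS p (hsub p (mem_filter.1 hp).1))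
      (fun p hp p' hp' => hsk p (hsub p (mem_filter.1 hp).1) p' (hsub p' (mem_filter.1 hp').1))
      P Q hP hQ _ hP' hQ' (num_bound N hg hn)
      (fun q hq => hrel q (hsub q (mem_filter.1 hq).1)) ?_ ?_
    · intro p hp p' hp' j
      have e : F p = F p' := (mem_filter.1 hp).2.trans (mem_filter.1 hp').2.symm
      exact ⟨congrFun (congrArg Prod.fst e) j, congrFun (congrArg Prod.snd e) j⟩
    · intro p hp
      have := (mem_filter.1 (mem_filter.1 hp).1).2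
      omega
  have hcard : S'.card * (b + 1) ^ k ≤ (b + 1) ^ (2 * ρ) * (3 ^ k * (b + 1) ^ n) := by
    rw [card_eq_sum_card_fiberwise (f := F) (t := univ) (fun _ _ => mem_coe.2 (mem_univ _)),
      sum_mul]
    calc ∑ a : (Fin ρ → Option B) × (Fin ρ → Option B),
          (S'.filter (fun p => F p = a)).card * (b + 1) ^ k
        ≤ ∑ _a : (Fin ρ → Option B) × (Fin ρ → Option B), 3 ^ k * (b + 1) ^ n :=
          sum_le_sum fun a _ => hcls a
      _ = (b + 1) ^ (2 * ρ) * (3 ^ k * (b + 1) ^ n) := by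
          rw [sum_const, smul_eq_mul, card_univ, Fintype.card_prod, Fintype.card_fun,
            Fintype.card_option, Fintype.card_fin, hB, two_mul ρ, pow_add (b + 1) ρ ρ]
  -- numbers
  have h1 : 2 * 3 ^ k ≤ (b + 1) ^ (2 * y) := by
    have a1 : k + 1 ≤ L := by omega
    calc 2 * 3 ^ k ≤ 16 * 16 ^ k :=
          Nat.mul_le_mul (by norm_num) (Nat.pow_le_pow_left (by norm_num) k)
      _ = 16 ^ (k + 1) := by rw [pow_succ, mul_comm]
      _ ≤ 16 ^ L := Nat.pow_le_pow_right (by norm_num) a1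
      _ ≤ (b + 1) ^ ε := N.pw
      _ ≤ (b + 1) ^ (2 * y) := Nat.pow_le_pow_right (by omega) (by omega)
  have h2 : 2 * S'.card * (b + 1) ^ k ≤ S.card * (b + 1) ^ k := by
    calc 2 * S'.card * (b + 1) ^ k = 2 * (S'.card * (b + 1) ^ k) := by ring
      _ ≤ 2 * ((b + 1) ^ (2 * ρ) * (3 ^ k * (b + 1) ^ n)) := Nat.mul_le_mul_left _ hcard
      _ = (2 * 3 ^ k) * ((b + 1) ^ ρ * (b + 1) ^ (n + ρ)) := by
          rw [two_mul ρ, pow_add, pow_add (b + 1) n ρ]; ring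
      _ ≤ (b + 1) ^ (2 * y) * ((b + 1) ^ ρ * (S.card * (b + 1) ^ (8 * y))) := by
          refine Nat.mul_le_mul h1 (Nat.mul_le_mul_left _ ?_)
          rw [hn]
          exact hbig
      _ = S.card * (b + 1) ^ (2 * y + ρ + 8 * y) := by rw [pow_add, pow_add]; ring
      _ = S.card * (b + 1) ^ k := by congr 2; omega
  have h3 : 2 * S'.card ≤ S.card := Nat.le_of_mul_le_mul_right h2 (by positivity)
  omega

end GC85
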