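import Mathlib
import Pool.Agent.Helper85.DN.Base

/-!
# DN-B3a: pigeonhole

For each `p` let `Θ p` be the set of the `t < L - ρ` with `p.1 t = p.2 t ≠ none`. At most `ε` letters of `p.1` in `[0, L)` are
`none` (`NP.zer`, `Wd.cnt`), so `L ≤ (Θ p).card + (k + ρ + ε)`. Choose the most frequent value of the
triple `(Θ p, letters of p.1 on range L \ Θ p, letters of p.2 on range L \ Θ p)`: at most `2 ^ L` sets, and for each of them at most
`(b + 1) ^ (k + ρ + ε)` letters for each word.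
-/

set_option autoImplicit false

namespace GC85

open Finset GC70

variable {B : Type} [Fintype B] [DecidableEq B]

/-- the pigeonhole principle with the largest fiber -/
private lemma B3a_fiber {α β : Type*} [DecidableEq β] (S : Finset α) (T : Finset β) (f : α → β)
    (hf : ∀ a ∈ S, f a ∈ T) (hT : T.Nonempty) :
    ∃ y ∈ T, S.card ≤ T.card * (S.filter (fun x => f x = y)).card := by
  obtain ⟨y, hy, hmax⟩ := Finset.exists_max_image T (fun y => (S.filter (fun x => f x = y)).card) hT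
  refine ⟨y, hy, ?_⟩
  rw [Finset.card_eq_sum_card_fiberwise hf]
  exact Finset.sum_le_card_nsmul T _ _ hmax

/-- the positions where both words have the same letter other than `none` -/
private def B3a_th (n : ℕ) (p : (ℤ → Option B) × (ℤ → Option B)) : Finset ℕ :=
  (range n).filter (fun t => p.1 (t : ℤ) = p.2 (t : ℤ) ∧ (p.1 (t : ℤ)).isSome)

omit [Fintype B] in
private lemma B3a_card {L s ε ρ k : ℕ} {p : (ℤ → Option B) × (ℤ → Option B)}
    (hw : Wd p.1 L s) (hz : L ≤ s + ε) (hρ : ρ ≤ L) (hk : dis p.1 p.2 (L - ρ) < k) :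
    (range L \ B3a_th (L - ρ) p).card ≤ k + ρ + ε := by
  have hsub : range L \ B3a_th (L - ρ) p ⊆
      ((range (L - ρ)).filter (fun t : ℕ => p.1 (t : ℤ) ≠ p.2 (t : ℤ)) ∪
        (Ico (L - ρ) L)) ∪ (range L).filter (fun t : ℕ => ¬ (p.1 (t : ℤ)).isSome) := by
    intro t ht
    simp only [B3a_th, Finset.mem_sdiff, Finset.mem_range, Finset.mem_filter, Finset.mem_union,
      Finset.mem_Ico] at ht ⊢
    obtain ⟨h1, h2⟩ := ht
    by_cases h3 : t < L - ρ
    · by_cases h4 : p.1 (t : ℤ) = p.2 (t : ℤ)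
      · right
        exact ⟨h1, fun h5 => h2 ⟨h3, h4, h5⟩⟩
      · left
        left
        exact ⟨h3, h4⟩
    · left
      right
      omega
  have h1 : ((range (L - ρ)).filter (fun t : ℕ => p.1 (t : ℤ) ≠ p.2 (t : ℤ))).card ≤
      dis p.1 p.2 (L - ρ) := by
    unfold dis
    refine Finset.card_le_card_of_injOn (fun t : ℕ => (t : ℤ)) ?_ ?_
    · intro t ht
      simp only [Finset.coe_filter, Finset.mem_range, Set.mem_ofPred_eq, Finset.mem_Ico] at ht ⊢
      refine ⟨⟨by positivity, ?_⟩, ht.2⟩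
      exact_mod_cast ht.1
    · intro a _ b _ h
      exact Int.ofNat_inj.1 h
  have h2 : (Ico (L - ρ) L).card = ρ := by
    rw [Nat.card_Ico]
    omega
  have h3 : ((range L).filter (fun t : ℕ => ¬ (p.1 (t : ℤ)).isSome)).card ≤ ε := by
    have h4 := Finset.card_filter_add_card_filter_not (s := range L)
      (fun t : ℕ => (p.1 (t : ℤ)).isSome = true)
    have h5 := hw.cnt
    unfold sk at h5
    rw [Finset.card_range] at h4
    omega
  calc (range L \ B3a_th (L - ρ) p).card ≤ _ := Finset.card_le_card hsub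
    _ ≤ _ := Finset.card_union_le _ _
    _ ≤ (((range (L - ρ)).filter (fun t : ℕ => p.1 (t : ℤ) ≠ p.2 (t : ℤ))).card +
        (Ico (L - ρ) L).card) +
        ((range L).filter (fun t : ℕ => ¬ (p.1 (t : ℤ)).isSome)).card :=
      Nat.add_le_add_right (Finset.card_union_le _ _) _
    _ ≤ k + ρ + ε := by omega

theorem B3_pigeon {b m L s y ε : ℕ} (hB : Fintype.card B = b) (N : NP b m L s y ε)
    (S : Finset ((ℤ → Option B) × (ℤ → Option B)))
    (hS : ∀ p ∈ S, Wd p.1 L s ∧ Wd p.2 L s) (ρ k : ℕ) (hρ : ρ ≤ L)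
    (hk : ∀ p ∈ S, dis p.1 p.2 (L - ρ) < k) (hne : S.Nonempty) :
    ∃ (Θ : Finset ℕ) (S2 : Finset ((ℤ → Option B) × (ℤ → Option B))),
      S2 ⊆ S ∧ Θ ⊆ range (L - ρ) ∧ (∀ p ∈ S2, ∀ t ∈ Θ, p.1 (t : ℤ) = p.2 (t : ℤ) ∧ (p.1 (t : ℤ)).isSome) ∧
      (∀ p ∈ S2, ∀ p' ∈ S2, ∀ t : ℕ, t < L → t ∉ Θ →
        p.1 (t : ℤ) = p'.1 (t : ℤ) ∧ p.2 (t : ℤ) = p'.2 (t : ℤ)) ∧
      L ≤ Θ.card + (k + ρ + ε) ∧ S.card ≤ 2 ^ L * (b + 1) ^ (2 * (k + ρ + ε)) * S2.card := by
  classical
  have hth : ∀ p ∈ S, B3a_th (L - ρ) p ∈ (range L).powerset := by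
    intro p _
    rw [Finset.mem_powerset]
    intro t ht
    simp only [B3a_th, Finset.mem_filter, Finset.mem_range] at ht ⊢
    omega
  obtain ⟨Θ, -, hΘ⟩ := B3a_fiber S (range L).powerset (B3a_th (L - ρ)) hth
    ⟨∅, Finset.empty_mem_powerset _⟩
  rw [Finset.card_powerset, Finset.card_range] at hΘ
  set S1 := S.filter (fun p => B3a_th (L - ρ) p = Θ) with hS1
  have hS1ne : S1.Nonempty := by
    rw [← Finset.card_pos]
    by_contra hcon
    have h0 : S1.card = 0 := by omega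
    rw [h0, mul_zero] at hΘ
    have := hne.card_pos
    omega
  obtain ⟨p0, hp0⟩ := hS1ne
  have hp0' := Finset.mem_filter.1 hp0
  have hΘr : Θ ⊆ range (L - ρ) := by
    rw [← hp0'.2]
    exact Finset.filter_subset _ _
  have hcompl : (range L \ Θ).card ≤ k + ρ + ε := by
    rw [← hp0'.2]
    exact B3a_card (hS p0 hp0'.1).1 N.zer hρ (hk p0 hp0'.1)
  obtain ⟨v, -, hv⟩ := B3a_fiber S1
    (univ : Finset ({t // t ∈ range L \ Θ} → Option B × Option B))
    (fun p t => (p.1 ((t : ℕ) : ℤ), p.2 ((t : ℕ) : ℤ))) (fun _ _ => Finset.mem_univ _)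
    ⟨fun _ => (none, none), Finset.mem_univ _⟩
  set S2 := S1.filter (fun p => (fun t : {t // t ∈ range L \ Θ} =>
    (p.1 ((t : ℕ) : ℤ), p.2 ((t : ℕ) : ℤ))) = v) with hS2
  have hcardF : (univ : Finset ({t // t ∈ range L \ Θ} → Option B × Option B)).card ≤
      (b + 1) ^ (2 * (k + ρ + ε)) := by
    rw [Finset.card_univ, Fintype.card_fun, Fintype.card_prod, Fintype.card_option, hB,
      Fintype.card_coe, pow_mul]
    have h1 : (b + 1) * (b + 1) = (b + 1) ^ 2 := by ring
    rw [h1]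
    exact Nat.pow_le_pow_right (by positivity) hcompl
  have hS2S1 : S2 ⊆ S1 := Finset.filter_subset _ _
  have hS1S : S1 ⊆ S := Finset.filter_subset _ _
  refine ⟨Θ, S2, hS2S1.trans hS1S, hΘr, ?_, ?_, ?_, ?_⟩
  · intro p hp t ht
    have h1 := (Finset.mem_filter.1 (hS2S1 hp)).2
    rw [← h1] at ht
    simp only [B3a_th, Finset.mem_filter, Finset.mem_range] at ht
    exact ht.2
  · intro p hp p' hp' t htL htΘ
    have hmem : t ∈ range L \ Θ := Finset.mem_sdiff.2 ⟨Finset.mem_range.2 htL, htΘ⟩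
    have h1 := congrFun (Finset.mem_filter.1 hp).2 ⟨t, hmem⟩
    have h2 := congrFun (Finset.mem_filter.1 hp').2 ⟨t, hmem⟩
    rw [← h2] at h1
    simp only [Prod.mk.injEq] at h1
    exact h1
  · have h1 := Finset.card_sdiff_add_card (range L) Θ
    have h2 : (range L ∪ Θ).card ≥ (range L).card := Finset.card_le_card Finset.subset_union_left
    rw [Finset.card_range] at h2
    omega
  · calc S.card ≤ 2 ^ L * S1.card := hΘ
      _ ≤ 2 ^ L * ((b + 1) ^ (2 * (k + ρ + ε)) * S2.card) := by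
        refine Nat.mul_le_mul_left _ (hv.trans ?_)
        exact Nat.mul_le_mul_right _ hcardF
      _ = _ := by ring

end GC85
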