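import Mathlib
import Pool.Agent.Helper85.DN.Defs

/-!
# DN-Val: coefficients with different `p`-adic valuations

`val_inj`: if `f ≠ f'` on `Θ`, let `t0` be the LARGEST `t ∈ Θ` with `f t ≠ f' t` (the valuations decrease
strictly, so `γ t0` has the smallest valuation among the `γ t` with `f t ≠ f' t`); take `i = f t0`. The
difference of the two sums is `γ t0` plus terms divisible by `p ^ (v (γ t0) + 1)`, a contradiction.

`val_two`: for `a, a'` strictly decreasing on `Θ` put `γ t = P q ^ (a t) - Q q ^ (a' t)` with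
`q = m`, `p` a prime factor of `m`, `P, Q ≠ 0`.
`Θ1 = {t ∈ Θ | v P + a t v m ≠ v Q + a' t v m}`: there `v (γ t)` is the minimum of the two numbers
(`padicValInt`, or work with `p ^ k ∣ ·`), which is strictly decreasing in `t`.
On `Θ \ Θ1` the difference `a t - a' t` is constant (`= (v Q - v P) / v m`), so if one `γ t` vanishes
there, then all of them do; and if none vanishes, then
`γ t = m ^ (min (a t) (a' t)) * C` with the same `C ≠ 0` for all `t`, and the valuations are
strictly decreasing.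
The statement avoids valuations: it gives subsets on which the letters are determined.
-/

set_option autoImplicit false

namespace GC85

open Finset GC70

variable {B : Type} [Fintype B] [DecidableEq B]

theorem val_inj {p : ℕ} (hp : p.Prime) (Θ : Finset ℕ) (γ : ℕ → ℤ) (v : ℕ → ℕ)
    (h1 : ∀ t ∈ Θ, (p : ℤ) ^ (v t) ∣ γ t ∧ ¬ (p : ℤ) ^ (v t + 1) ∣ γ t)
    (h2 : ∀ t ∈ Θ, ∀ t' ∈ Θ, t < t' → v t' < v t) (f f' : ℕ → Option B)
    (hs : ∀ t ∈ Θ, (f t).isSome ∧ (f' t).isSome)
    (h : ∀ i, ∑ t ∈ Θ, (if f t = some i then γ t else 0) = ∑ t ∈ Θ, (if f' t = some i then γ t else 0)) :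
    ∀ t ∈ Θ, f t = f' t := by
  classical
  by_contra hcon
  push Not at hcon
  set S := Θ.filter (fun t => f t ≠ f' t) with hS
  have hne : S.Nonempty := by
    obtain ⟨t, ht, hft⟩ := hcon
    exact ⟨t, by simp [hS, ht, hft]⟩
  obtain ⟨t0, ht0, hmax⟩ := S.exists_max_image id hne
  have ht0' := mem_filter.1 ht0
  obtain ⟨i, hi⟩ := Option.isSome_iff_exists.1 (hs t0 ht0'.1).1
  have hi' : f' t0 ≠ some i := fun hh => ht0'.2 (by rw [hi, hh])
  have hsum : ∑ t ∈ Θ, ((if f t = some i then γ t else 0) - (if f' t = some i then γ t else 0)) = 0 := by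
    rw [Finset.sum_sub_distrib, h i, sub_self]
  rw [← Finset.add_sum_erase _ _ ht0'.1] at hsum
  rw [if_pos hi, if_neg hi', sub_zero] at hsum
  have hdvd : (p : ℤ) ^ (v t0 + 1) ∣ ∑ t ∈ Θ.erase t0,
      ((if f t = some i then γ t else 0) - (if f' t = some i then γ t else 0)) := by
    refine Finset.dvd_sum fun t ht => ?_
    have htΘ : t ∈ Θ := Finset.mem_of_mem_erase ht
    have htne : t ≠ t0 := Finset.ne_of_mem_erase ht
    rcases lt_or_gt_of_ne htne with hlt | hgt
    · have h3 : (p : ℤ) ^ (v t0 + 1) ∣ γ t :=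
        (pow_dvd_pow _ (Nat.succ_le_of_lt (h2 t htΘ t0 ht0'.1 hlt))).trans (h1 t htΘ).1
      have h4 : (p : ℤ) ^ (v t0 + 1) ∣ (if f t = some i then γ t else 0) := by
        split_ifs
        · exact h3
        · exact dvd_zero _
      have h5 : (p : ℤ) ^ (v t0 + 1) ∣ (if f' t = some i then γ t else 0) := by
        split_ifs
        · exact h3
        · exact dvd_zero _
      exact dvd_sub h4 h5
    · have h6 : f t = f' t := by
        by_contra hft
        have : t ∈ S := mem_filter.2 ⟨htΘ, hft⟩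
        exact absurd (hmax t this) (not_le.2 hgt)
      rw [h6, sub_self]
      exact dvd_zero _
  refine (h1 t0 ht0'.1).2 ?_
  have h7 : γ t0 = - ∑ t ∈ Θ.erase t0,
      ((if f t = some i then γ t else 0) - (if f' t = some i then γ t else 0)) := by
    linarith
  rw [h7]
  exact (dvd_neg).2 hdvd

private theorem val_aux_dvd {p d : ℕ} (hcp : Nat.Coprime p d) (n t : ℕ) (X : ℤ)
    (h : (p : ℤ) ^ n ∣ (d : ℤ) ^ t * X) : (p : ℤ) ^ n ∣ X := by
  have h1 : IsCoprime ((p : ℤ) ^ n) ((d : ℤ) ^ t) := (Nat.isCoprime_iff_coprime.2 hcp).pow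
  exact h1.dvd_of_dvd_mul_left h

/-- The two sets on which the coefficients `d ^ t (P m ^ (a t) - Q m ^ (a' t))` have different
valuations. -/
theorem val_two {d m : ℕ} (hm : 2 ≤ m) (hc : Nat.Coprime m d) (P Q : ℤ) (hP : P ≠ 0) (hQ : Q ≠ 0)
    (Θ : Finset ℕ) (a a' : ℕ → ℕ)
    (ha : ∀ t ∈ Θ, ∀ t' ∈ Θ, t < t' → a t' < a t) (ha' : ∀ t ∈ Θ, ∀ t' ∈ Θ, t < t' → a' t' < a' t) :
    ∃ Θ1 ⊆ Θ,
      (∀ f f' : ℕ → Option B, (∀ t ∈ Θ1, (f t).isSome ∧ (f' t).isSome) →
        (∀ i, ∑ t ∈ Θ1, (if f t = some i then (d : ℤ) ^ t * (P * (m : ℤ) ^ (a t) - Q * (m : ℤ) ^ (a' t)) else 0) =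
          ∑ t ∈ Θ1, (if f' t = some i then (d : ℤ) ^ t * (P * (m : ℤ) ^ (a t) - Q * (m : ℤ) ^ (a' t)) else 0)) →
        ∀ t ∈ Θ1, f t = f' t) ∧
      (∀ t ∈ Θ \ Θ1, ∀ t' ∈ Θ \ Θ1, (a t : ℤ) - a' t = a t' - a' t') ∧
      ((∀ t ∈ Θ \ Θ1, P * (m : ℤ) ^ (a t) = Q * (m : ℤ) ^ (a' t)) ∨
        ∀ f f' : ℕ → Option B, (∀ t ∈ Θ \ Θ1, (f t).isSome ∧ (f' t).isSome) →
        (∀ i, ∑ t ∈ Θ \ Θ1, (if f t = some i then (d : ℤ) ^ t * (P * (m : ℤ) ^ (a t) - Q * (m : ℤ) ^ (a' t)) else 0) =
          ∑ t ∈ Θ \ Θ1, (if f' t = some i then (d : ℤ) ^ t * (P * (m : ℤ) ^ (a t) - Q * (m : ℤ) ^ (a' t)) else 0)) →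
        ∀ t ∈ Θ \ Θ1, f t = f' t) := by
  classical
  set p := m.minFac with hpdef
  have hp : p.Prime := Nat.minFac_prime (by omega)
  haveI : Fact p.Prime := ⟨hp⟩
  have hpm : p ∣ m := Nat.minFac_dvd m
  have hcp : Nat.Coprime p d := Nat.Coprime.coprime_dvd_left hpm hc
  have hm0 : (m : ℤ) ≠ 0 := by exact_mod_cast (by omega : m ≠ 0)
  set e := padicValInt p (m : ℤ) with he
  have he1 : 1 ≤ e := by
    have h := (padicValInt_dvd_iff (p := p) 1 (m : ℤ)).1 (by rw [pow_one]; exact_mod_cast hpm)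
    rcases h with h | h
    · exact absurd h hm0
    · exact h
  have hval : ∀ (X : ℤ) (k : ℕ), X ≠ 0 →
      padicValInt p (X * (m : ℤ) ^ k) = padicValInt p X + k * e := by
    intro X k hX
    induction k with
    | zero => simp
    | succ k ih =>
      have h1 : X * (m : ℤ) ^ k ≠ 0 := mul_ne_zero hX (pow_ne_zero _ hm0)
      rw [pow_succ, ← mul_assoc, padicValInt.mul h1 hm0, ih]
      ring
  set vP := padicValInt p P with hvP
  set vQ := padicValInt p Q with hvQ
  have hdP : ∀ k n : ℕ, (p : ℤ) ^ n ∣ P * (m : ℤ) ^ k ↔ n ≤ vP + k * e := by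
    intro k n
    rw [padicValInt_dvd_iff, hval P k hP]
    constructor
    · rintro (h | h)
      · exact absurd h (mul_ne_zero hP (pow_ne_zero _ hm0))
      · exact h
    · exact fun h => Or.inr h
  have hdQ : ∀ k n : ℕ, (p : ℤ) ^ n ∣ Q * (m : ℤ) ^ k ↔ n ≤ vQ + k * e := by
    intro k n
    rw [padicValInt_dvd_iff, hval Q k hQ]
    constructor
    · rintro (h | h)
      · exact absurd h (mul_ne_zero hQ (pow_ne_zero _ hm0))
      · exact h
    · exact fun h => Or.inr h
  have hmonoA : ∀ t ∈ Θ, ∀ t' ∈ Θ, t < t' → vP + a t' * e < vP + a t * e := by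
    intro t ht t' ht' htt
    have := Nat.mul_lt_mul_of_pos_right (ha t ht t' ht' htt) he1
    omega
  have hmonoB : ∀ t ∈ Θ, ∀ t' ∈ Θ, t < t' → vQ + a' t' * e < vQ + a' t * e := by
    intro t ht t' ht' htt
    have := Nat.mul_lt_mul_of_pos_right (ha' t ht t' ht' htt) he1
    omega
  refine ⟨Θ.filter (fun t => vP + a t * e ≠ vQ + a' t * e), filter_subset _ _, ?_, ?_, ?_⟩
  · intro f f' hs hsum
    refine val_inj hp _ (fun t => (d : ℤ) ^ t * (P * (m : ℤ) ^ (a t) - Q * (m : ℤ) ^ (a' t)))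
      (fun t => min (vP + a t * e) (vQ + a' t * e)) ?_ ?_ f f' hs hsum
    · intro t ht
      have htne := (mem_filter.1 ht).2
      constructor
      · refine Dvd.dvd.mul_left (dvd_sub ?_ ?_) _
        · exact (hdP _ _).2 (min_le_left _ _)
        · exact (hdQ _ _).2 (min_le_right _ _)
      · intro hd
        have hd' := val_aux_dvd hcp _ _ _ hd
        rcases lt_or_gt_of_ne htne with hlt | hgt
        · have hmin : min (vP + a t * e) (vQ + a' t * e) = vP + a t * e := min_eq_left hlt.le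
          rw [hmin] at hd'
          have h1 : (p : ℤ) ^ (vP + a t * e + 1) ∣ Q * (m : ℤ) ^ (a' t) := (hdQ _ _).2 hlt
          have h2 := (dvd_sub_left h1).1 hd'
          have h3 := (hdP _ _).1 h2
          omega
        · have hmin : min (vP + a t * e) (vQ + a' t * e) = vQ + a' t * e := min_eq_right hgt.le
          rw [hmin] at hd'
          have h1 : (p : ℤ) ^ (vQ + a' t * e + 1) ∣ P * (m : ℤ) ^ (a t) := (hdP _ _).2 hgt
          have h2 := (dvd_sub_right h1).1 hd'
          have h3 := (hdQ _ _).1 h2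
          omega
    · intro t ht t' ht' htt
      have h1 := hmonoA t (mem_filter.1 ht).1 t' (mem_filter.1 ht').1 htt
      have h2 := hmonoB t (mem_filter.1 ht).1 t' (mem_filter.1 ht').1 htt
      exact min_lt_min h1 h2
  · intro t ht t' ht'
    have h1 : vP + a t * e = vQ + a' t * e := by
      by_contra hcon
      exact (mem_sdiff.1 ht).2 (mem_filter.2 ⟨(mem_sdiff.1 ht).1, hcon⟩)
    have h2 : vP + a t' * e = vQ + a' t' * e := by
      by_contra hcon
      exact (mem_sdiff.1 ht').2 (mem_filter.2 ⟨(mem_sdiff.1 ht').1, hcon⟩)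
    have h1' : (vP : ℤ) + a t * e = vQ + a' t * e := by exact_mod_cast h1
    have h2' : (vP : ℤ) + a t' * e = vQ + a' t' * e := by exact_mod_cast h2
    have h3 : (((a t : ℤ) - a' t) - (a t' - a' t')) * e = 0 := by linarith
    have he0 : (e : ℤ) ≠ 0 := by exact_mod_cast (by omega : e ≠ 0)
    have h4 := (mul_eq_zero.1 h3).resolve_right he0
    linarith
  · have hconst : ∀ t ∈ Θ \ Θ.filter (fun t => vP + a t * e ≠ vQ + a' t * e),
        ∀ t' ∈ Θ \ Θ.filter (fun t => vP + a t * e ≠ vQ + a' t * e),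
        (a t : ℤ) - a' t = a t' - a' t' := by
      intro t ht t' ht'
      have h1 : vP + a t * e = vQ + a' t * e := by
        by_contra hcon
        exact (mem_sdiff.1 ht).2 (mem_filter.2 ⟨(mem_sdiff.1 ht).1, hcon⟩)
      have h2 : vP + a t' * e = vQ + a' t' * e := by
        by_contra hcon
        exact (mem_sdiff.1 ht').2 (mem_filter.2 ⟨(mem_sdiff.1 ht').1, hcon⟩)
      have h1' : (vP : ℤ) + a t * e = vQ + a' t * e := by exact_mod_cast h1
      have h2' : (vP : ℤ) + a t' * e = vQ + a' t' * e := by exact_mod_cast h2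
      have h3 : (((a t : ℤ) - a' t) - (a t' - a' t')) * e = 0 := by linarith
      have he0 : (e : ℤ) ≠ 0 := by exact_mod_cast (by omega : e ≠ 0)
      have h4 := (mul_eq_zero.1 h3).resolve_right he0
      linarith
    set T := Θ \ Θ.filter (fun t => vP + a t * e ≠ vQ + a' t * e) with hT
    have hTΘ : ∀ t ∈ T, t ∈ Θ := fun t ht => (mem_sdiff.1 ht).1
    have hfac : ∀ t ∈ T, ∀ t' ∈ T, ∀ k : ℕ, a t = a t' + k →
        P * (m : ℤ) ^ (a t) - Q * (m : ℤ) ^ (a' t) =
          (P * (m : ℤ) ^ (a t') - Q * (m : ℤ) ^ (a' t')) * (m : ℤ) ^ k := by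
      intro t ht t' ht' k hk
      have h1 := hconst t ht t' ht'
      have h2 : a' t = a' t' + k := by
        have : (a t : ℤ) = a t' + k := by exact_mod_cast hk
        have h3 : (a' t : ℤ) = a' t' + k := by linarith
        exact_mod_cast h3
      rw [hk, h2, pow_add, pow_add]
      ring
    by_cases hz : ∃ t0 ∈ T, P * (m : ℤ) ^ (a t0) - Q * (m : ℤ) ^ (a' t0) = 0
    · left
      obtain ⟨t0, ht0, hz0⟩ := hz
      intro t ht
      rcases le_total (a t0) (a t) with hle | hle
      · obtain ⟨k, hk⟩ := Nat.exists_eq_add_of_le hle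
        have := hfac t ht t0 ht0 k hk
        rw [hz0, zero_mul] at this
        linarith
      · obtain ⟨k, hk⟩ := Nat.exists_eq_add_of_le hle
        have := hfac t0 ht0 t ht k hk
        rw [hz0] at this
        have h1 := (mul_eq_zero.1 this.symm).resolve_right (pow_ne_zero _ hm0)
        linarith
    · right
      push Not at hz
      intro f f' hs hsum
      have hnz : ∀ t ∈ T, P * (m : ℤ) ^ (a t) - Q * (m : ℤ) ^ (a' t) ≠ 0 := hz
      refine val_inj hp _ (fun t => (d : ℤ) ^ t * (P * (m : ℤ) ^ (a t) - Q * (m : ℤ) ^ (a' t)))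
        (fun t => padicValInt p (P * (m : ℤ) ^ (a t) - Q * (m : ℤ) ^ (a' t))) ?_ ?_ f f' hs hsum
      · intro t ht
        constructor
        · refine Dvd.dvd.mul_left ?_ _
          exact (padicValInt_dvd_iff _ _).2 (Or.inr le_rfl)
        · intro hd
          have hd' := val_aux_dvd hcp _ _ _ hd
          rcases (padicValInt_dvd_iff _ _).1 hd' with h | h
          · exact hnz t ht h
          · omega
      · intro t ht t' ht' htt
        have hlt := ha t (hTΘ t ht) t' (hTΘ t' ht') htt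
        obtain ⟨k, hk⟩ := Nat.exists_eq_add_of_le hlt.le
        have hk1 : 1 ≤ k := by omega
        have h1 := hfac t ht t' ht' k hk
        have h2 : padicValInt p (P * (m : ℤ) ^ (a t) - Q * (m : ℤ) ^ (a' t)) =
            padicValInt p (P * (m : ℤ) ^ (a t') - Q * (m : ℤ) ^ (a' t')) + k * e := by
          rw [h1, hval _ k (hnz t' ht')]
        have h3 : 1 ≤ k * e := Nat.mul_pos hk1 he1
        change padicValInt p (P * (m : ℤ) ^ (a t') - Q * (m : ℤ) ^ (a' t')) <
          padicValInt p (P * (m : ℤ) ^ (a t) - Q * (m : ℤ) ^ (a' t))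
        rw [h2]
        omega

end GC85
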