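import Mathlib
import Pool.Agent.Helper85.DN.B2
import Pool.Agent.Helper85.DN.B3a
import Pool.Agent.Helper85.DN.Val

/-!
# DN-B3b: the relation is `P m ^ a = Q m ^ a'` at most positions

`n = L - ρ2`, `ρ2 = 2 * 10 ^ 7 y + 6 y`, `k2 = 2 * 10 ^ 7 y + 16 y`, `K = k2 + ρ2 + ε`.
`S1` = the pairs of `S` with less than `k2` differences in `[0, n)`: `S.card ≤ 2 * S1.card` (`B2`); `B3_pigeon` gives
`Θ0 ⊆ range n`, `S2 ⊆ S1`. All pairs of `S` have the same `zf`: `z` for the first, `z'` for the second word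
(same skeletons). `Z` = the larger one of `z n` and `z' n` (`Z ≤ n`, both are `≥ n - ε`, `zf_near`).
1. For `p, p' ∈ S2`, `win_id` (`x = 0`) and `hrel` give, the same way as in `B2`,
   the exact equation `∑_{t ∈ Θ0} [p.1 t = some i] γ t = ∑_{t ∈ Θ0} [p'.1 t = some i] γ t`,
   `γ t = d ^ t (P m ^ (Z - z t) - Q m ^ (Z - z' t))`.
2. `val_two` with `a t = Z - z t`, `a' t = Z - z' t`. The letters on `Θ1` are determined by the
   letters on `Θ0 \ Θ1` (subtract the known part of the sum), so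
   `S2.card ≤ (b + 1) ^ (Θ0.card - Θ1.card)`, hence `Θ1.card ≤ Θ0.card - L + 8 y + 2 K + ε + 1 ≤ 8 y + 2 K + 2 ε`.
   In the second alternative of `val_two` also `(Θ0 \ Θ1).card ≤ 8 y + 2 K + 2 ε`, which contradicts
   `Θ0.card ≥ L - K`. So `P m ^ (a t) = Q m ^ (a' t)` for all `t ∈ Θ = Θ0 \ Θ1`, and
   `L ≤ Θ.card + 3 K + 8 y + 2 ε`, `3 K + 8 y + 2 ε ≤ 12 * 10 ^ 7 y + 80 y`.
-/

set_option autoImplicit false

namespace GC85

open Finset GC70

variable {B : Type} [Fintype B] [DecidableEq B]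

namespace B3b

omit [Fintype B] [DecidableEq B] in
lemma zf_congr' {w w' : ℤ → Option B} (h : ∀ j, (w j).isSome = (w' j).isSome) : zf w = zf w' := by
  funext j
  unfold zf
  simp only [h]

omit [DecidableEq B] in
/-- numbers of words determined by the letters off `X` -/
lemma count_det {L : ℕ} (S2 : Finset ((ℤ → Option B) × (ℤ → Option B)))
    (X : Finset ℕ) (hX : X ⊆ range L)
    (h : ∀ p ∈ S2, ∀ p' ∈ S2, (∀ t : ℕ, t < L → t ∉ X → p.1 (t : ℤ) = p'.1 (t : ℤ)) → p = p') :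
    S2.card ≤ (Fintype.card B + 1) ^ (L - X.card) := by
  have h1 : S2.card ≤ (univ : Finset ({t // t ∈ range L \ X} → Option B)).card := by
    apply card_le_card_of_injOn (fun p => fun t => p.1 ((t.1 : ℕ) : ℤ))
    · intro p _
      simp
    · intro p hp p' hp' heq
      apply h p hp p' hp'
      intro t ht htX
      exact congrFun heq ⟨t, mem_sdiff.mpr ⟨mem_range.mpr ht, htX⟩⟩
  rw [card_univ, Fintype.card_fun, Fintype.card_option, Fintype.card_coe, card_sdiff_of_subset hX,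
    card_range] at h1
  exact h1

/-- the bound used for the exact equation -/
lemma num_g {b m L s y ε : ℕ} (N : NP b m L s y ε) :
    2 * (L * m ^ (2 * (10 ^ 7 * y))) * ((L - (2 * (10 ^ 7 * y) + 6 * y)) *
      m ^ (L - (2 * (10 ^ 7 * y) + 6 * y) + ε)) * (b + 1) ^ (4 * y) < (b + 1) ^ L := by
  have hL := N.Lge
  have hy := N.yge
  have he := N.eps
  have hb := N.b1
  have hb1 : 1 < b + 1 := by omega
  have h1 : 2 * (L * L) ≤ (b + 1) ^ ε := by
    refine le_trans ?_ N.pw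
    have h2 : L < 2 ^ L := Nat.lt_two_pow_self
    have h3 : 16 ^ L = 4 ^ L * (2 ^ L * 2 ^ L) := by rw [← mul_pow, ← mul_pow]; norm_num
    rw [h3]
    apply Nat.mul_le_mul
    · calc 2 ≤ 4 ^ 1 := by norm_num
        _ ≤ 4 ^ L := Nat.pow_le_pow_right (by norm_num) (by omega)
    · exact Nat.mul_le_mul h2.le h2.le
  generalize hl : 10 ^ 7 * y = l at *
  have hlL : 2 * l + 6 * y ≤ L := by omega
  have h4 := N.m_pow (L - 6 * y + ε) (by omega)
  have h5 : m ^ (2 * l) * m ^ (L - (2 * l + 6 * y) + ε) = m ^ (L - 6 * y + ε) := by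
    rw [← pow_add]
    congr 1
    omega
  calc 2 * (L * m ^ (2 * l)) * ((L - (2 * l + 6 * y)) *
      m ^ (L - (2 * l + 6 * y) + ε)) * (b + 1) ^ (4 * y)
      ≤ 2 * (L * m ^ (2 * l)) * (L *
      m ^ (L - (2 * l + 6 * y) + ε)) * (b + 1) ^ (4 * y) := by
        apply Nat.mul_le_mul_right
        apply Nat.mul_le_mul_left
        apply Nat.mul_le_mul_right
        omega
    _ = (2 * (L * L)) * (m ^ (2 * l) * m ^ (L - (2 * l + 6 * y) + ε)) * (b + 1) ^ (4 * y) := by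
        ring
    _ ≤ (b + 1) ^ ε * (b + 1) ^ (L - 6 * y + ε + ε) * (b + 1) ^ (4 * y) := by
        rw [h5]
        exact Nat.mul_le_mul_right _ (Nat.mul_le_mul h1 h4)
    _ = (b + 1) ^ (ε + (L - 6 * y + ε + ε) + 4 * y) := by rw [← pow_add, ← pow_add]
    _ < (b + 1) ^ L := Nat.pow_lt_pow_right hb1 (by omega)

/-- a set on which the letters are determined is small -/
lemma num_X {b m L s y ε K : ℕ} (N : NP b m L s y ε) {c c1 c2 x : ℕ}
    (h1 : (b + 1) ^ L ≤ c * (b + 1) ^ (8 * y)) (h2 : c ≤ 2 * c1)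
    (h3 : c1 ≤ 2 ^ L * (b + 1) ^ (2 * K) * c2) (h4 : c2 ≤ (b + 1) ^ (L - x)) (hx : x ≤ L) :
    x ≤ ε + 2 * K + 8 * y := by
  have hL := N.Lge
  have hy := N.yge
  have he := N.eps
  have hb := N.b1
  have hb1 : 1 < b + 1 := by omega
  have h5 : 2 * 2 ^ L ≤ (b + 1) ^ ε := by
    refine le_trans ?_ N.pw
    have h3 : 16 ^ L = 8 ^ L * 2 ^ L := by rw [← mul_pow]; norm_num
    rw [h3]
    apply Nat.mul_le_mul_right
    calc 2 ≤ 8 ^ 1 := by norm_num
        _ ≤ 8 ^ L := Nat.pow_le_pow_right (by norm_num) (by omega)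
  by_contra hc
  push Not at hc
  have h6 : (b + 1) ^ L < (b + 1) ^ L := by
    calc (b + 1) ^ L ≤ c * (b + 1) ^ (8 * y) := h1
      _ ≤ (2 * c1) * (b + 1) ^ (8 * y) := Nat.mul_le_mul_right _ h2
      _ ≤ (2 * (2 ^ L * (b + 1) ^ (2 * K) * (b + 1) ^ (L - x))) * (b + 1) ^ (8 * y) := by
          apply Nat.mul_le_mul_right
          apply Nat.mul_le_mul_left
          exact h3.trans (Nat.mul_le_mul_left _ h4)
      _ = (2 * 2 ^ L) * ((b + 1) ^ (2 * K) * (b + 1) ^ (L - x) * (b + 1) ^ (8 * y)) := by ring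
      _ ≤ (b + 1) ^ ε * ((b + 1) ^ (2 * K) * (b + 1) ^ (L - x) * (b + 1) ^ (8 * y)) :=
          Nat.mul_le_mul_right _ h5
      _ = (b + 1) ^ (ε + (2 * K + (L - x) + 8 * y)) := by simp only [pow_add]
      _ < (b + 1) ^ L := Nat.pow_lt_pow_right hb1 (by omega)
  omega

/-- the exact equation on the window `[0, n)` -/
lemma exact_eq {d m g L s n E : ℕ} (hdm : d ≤ m) (hm : 0 < m) {δ μ : (ZMod g)ˣ}
    (U : Un d m g L s δ μ) (hn : n ≤ L) (P Q : ℤ) (C : ℕ) (hP : |P| ≤ C) (hQ : |Q| ≤ C)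
    (hg : 2 * C * (n * m ^ (n + E)) < g)
    (z z' : ℤ → ℤ) (Z : ℤ) (hz : ∀ t : ℕ, t < n → z t ≤ Z) (hz' : ∀ t : ℕ, t < n → z' t ≤ Z)
    (hE : ∀ t : ℕ, t < n → Z - z t ≤ (n : ℤ) - t + E)
    (hE' : ∀ t : ℕ, t < n → Z - z' t ≤ (n : ℤ) - t + E)
    {w1 w2 v1 v2 : ℤ → Option B} (hw1 : Wd w1 L s) (hw2 : Wd w2 L s) (hv1 : Wd v1 L s)
    (hv2 : Wd v2 L s) (e1 : zf w1 = z) (e2 : zf w2 = z') (f1 : zf v1 = z) (f2 : zf v2 = z')
    (ht1 : ∀ j : ℤ, (n : ℤ) ≤ j → j < L → w1 j = v1 j)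
    (ht2 : ∀ j : ℤ, (n : ℤ) ≤ j → j < L → w2 j = v2 j) (i : B)
    (hw : (P : ZMod g) * vc δ μ L w1 i = (Q : ZMod g) * vc δ μ L w2 i)
    (hv : (P : ZMod g) * vc δ μ L v1 i = (Q : ZMod g) * vc δ μ L v2 i) :
    P * xs d m z Z 0 n w1 i - Q * xs d m z' Z 0 n w2 i =
      P * xs d m z Z 0 n v1 i - Q * xs d m z' Z 0 n v2 i := by
  have a1 := win_id U hw1 0 n hn Z (by intro t ht; rw [zero_add, e1]; exact hz t ht) i
  have a2 := win_id U hw2 0 n hn Z (by intro t ht; rw [zero_add, e2]; exact hz' t ht) i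
  have b1 := win_id U hv1 0 n hn Z (by intro t ht; rw [zero_add, f1]; exact hz t ht) i
  have b2 := win_id U hv2 0 n hn Z (by intro t ht; rw [zero_add, f2]; exact hz' t ht) i
  rw [e1] at a1
  rw [e2] at a2
  rw [f1] at b1
  rw [f2] at b2
  have t1 : (Ico ((0 : ℤ) + n) (0 + L)).filter (fun j => w1 j = some i) =
      (Ico ((0 : ℤ) + n) (0 + L)).filter (fun j => v1 j = some i) := by
    apply filter_congr
    intro j hj
    rw [mem_Ico] at hj
    rw [ht1 j (by omega) (by omega)]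
  have t2 : (Ico ((0 : ℤ) + n) (0 + L)).filter (fun j => w2 j = some i) =
      (Ico ((0 : ℤ) + n) (0 + L)).filter (fun j => v2 j = some i) := by
    apply filter_congr
    intro j hj
    rw [mem_Ico] at hj
    rw [ht2 j (by omega) (by omega)]
  rw [t1] at a1
  rw [t2] at a2
  generalize ((δ ^ (-(0 : ℤ)) * μ ^ Z : (ZMod g)ˣ) : ZMod g) = c at a1 a2 b1 b2
  generalize ∑ j ∈ (Ico ((0 : ℤ) + n) (0 + L)).filter (fun j => v1 j = some i),
    ((δ ^ (j - 0) * μ ^ (Z - z j) : (ZMod g)ˣ) : ZMod g) = T1 at a1 b1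
  generalize ∑ j ∈ (Ico ((0 : ℤ) + n) (0 + L)).filter (fun j => v2 j = some i),
    ((δ ^ (j - 0) * μ ^ (Z - z' j) : (ZMod g)ˣ) : ZMod g) = T2 at a2 b2
  have hcong : (((P * xs d m z Z 0 n w1 i - Q * xs d m z' Z 0 n w2 i : ℤ)) : ZMod g) =
      ((P * xs d m z Z 0 n v1 i - Q * xs d m z' Z 0 n v2 i : ℤ) : ZMod g) := by
    push_cast
    linear_combination (-(P : ZMod g)) * a1 + (Q : ZMod g) * a2 + (P : ZMod g) * b1 -
      (Q : ZMod g) * b2 + c * hw - c * hv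
  have k1 := xs_bd hdm hm z Z 0 n E (by intro t ht; rw [zero_add]; exact hE t ht) w1 i
  have k2 := xs_bd hdm hm z' Z 0 n E (by intro t ht; rw [zero_add]; exact hE' t ht) w2 i
  have l1 := xs_bd hdm hm z Z 0 n E (by intro t ht; rw [zero_add]; exact hE t ht) v1 i
  have l2 := xs_bd hdm hm z' Z 0 n E (by intro t ht; rw [zero_add]; exact hE' t ht) v2 i
  have hdvd := (ZMod.intCast_eq_intCast_iff_dvd_sub _ _ _).mp hcong
  generalize xs d m z Z 0 n w1 i = x1 at *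
  generalize xs d m z' Z 0 n w2 i = x2 at *
  generalize xs d m z Z 0 n v1 i = y1 at *
  generalize xs d m z' Z 0 n v2 i = y2 at *
  have hz0 : (P * y1 - Q * y2) - (P * x1 - Q * x2) = 0 := by
    apply Int.eq_zero_of_abs_lt_dvd hdvd
    have hgz : 2 * (C : ℤ) * ((n : ℤ) * (m : ℤ) ^ (n + E)) < g := by exact_mod_cast hg
    have m1 : |y1 - x1| ≤ (n : ℤ) * (m : ℤ) ^ (n + E) := by rw [abs_le]; constructor <;> linarith [k1.1, k1.2, l1.1, l1.2]
    have m2 : |x2 - y2| ≤ (n : ℤ) * (m : ℤ) ^ (n + E) := by rw [abs_le]; constructor <;> linarith [k2.1, k2.2, l2.1, l2.2]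
    calc |(P * y1 - Q * y2) - (P * x1 - Q * x2)| = |P * (y1 - x1) + Q * (x2 - y2)| := by ring_nf
      _ ≤ |P * (y1 - x1)| + |Q * (x2 - y2)| := abs_add_le _ _
      _ = |P| * |y1 - x1| + |Q| * |x2 - y2| := by rw [abs_mul, abs_mul]
      _ ≤ C * ((n : ℤ) * (m : ℤ) ^ (n + E)) + C * ((n : ℤ) * (m : ℤ) ^ (n + E)) := by
          apply add_le_add
          · exact mul_le_mul hP m1 (abs_nonneg _) (by positivity)
          · exact mul_le_mul hQ m2 (abs_nonneg _) (by positivity)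
      _ = 2 * (C : ℤ) * ((n : ℤ) * (m : ℤ) ^ (n + E)) := by ring
      _ < g := hgz
  linarith

omit [Fintype B] in
/-- the exact equation restricted to the set `Θ` where the two words of each pair agree -/
lemma theta_eq {d m n : ℕ} (P Q : ℤ) (z z' : ℤ → ℤ) (Z : ℤ) (Θ : Finset ℕ) (hΘ : Θ ⊆ range n)
    {w1 w2 v1 v2 : ℤ → Option B} (hw : ∀ t ∈ Θ, w1 ((t : ℕ) : ℤ) = w2 (t : ℤ))
    (hv : ∀ t ∈ Θ, v1 ((t : ℕ) : ℤ) = v2 (t : ℤ))
    (ho : ∀ t : ℕ, t < n → t ∉ Θ → w1 (t : ℤ) = v1 (t : ℤ) ∧ w2 (t : ℤ) = v2 (t : ℤ)) (i : B)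
    (h : P * xs d m z Z 0 n w1 i - Q * xs d m z' Z 0 n w2 i =
      P * xs d m z Z 0 n v1 i - Q * xs d m z' Z 0 n v2 i) :
    ∑ t ∈ Θ, (if w1 (t : ℤ) = some i then (d : ℤ) ^ t * (P * (m : ℤ) ^ ((Z - z t).toNat) -
        Q * (m : ℤ) ^ ((Z - z' t).toNat)) else 0) =
      ∑ t ∈ Θ, (if v1 (t : ℤ) = some i then (d : ℤ) ^ t * (P * (m : ℤ) ^ ((Z - z t).toNat) -
        Q * (m : ℤ) ^ ((Z - z' t).toNat)) else 0) := by
  unfold xs at h
  simp only [zero_add] at h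
  rw [mul_sum, mul_sum, mul_sum, mul_sum, ← sum_sub_distrib, ← sum_sub_distrib,
    ← sum_sdiff hΘ, ← sum_sdiff hΘ] at h
  have h1 : ∑ x ∈ range n \ Θ, (P * ((d : ℤ) ^ x * (if w1 (x : ℤ) = some i then (m : ℤ) ^ ((Z - z x).toNat) else 0)) -
        Q * ((d : ℤ) ^ x * (if w2 (x : ℤ) = some i then (m : ℤ) ^ ((Z - z' x).toNat) else 0))) =
      ∑ x ∈ range n \ Θ, (P * ((d : ℤ) ^ x * (if v1 (x : ℤ) = some i then (m : ℤ) ^ ((Z - z x).toNat) else 0)) -
        Q * ((d : ℤ) ^ x * (if v2 (x : ℤ) = some i then (m : ℤ) ^ ((Z - z' x).toNat) else 0))) := by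
    apply sum_congr rfl
    intro t ht
    rw [mem_sdiff, mem_range] at ht
    obtain ⟨e1, e2⟩ := ho t ht.1 ht.2
    rw [e1, e2]
  rw [h1] at h
  have h2 := add_left_cancel h
  refine Eq.trans ?_ (h2.trans ?_)
  · apply sum_congr rfl
    intro t ht
    rw [← hw t ht]
    split_ifs <;> ring
  · apply sum_congr rfl
    intro t ht
    rw [← hv t ht]
    split_ifs <;> ring

end B3b

open B3b in
theorem B3_theta {b m g L s y ε : ℕ} (hB : Fintype.card B = b) (N : NP b m L s y ε)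
    {δ μ : (ZMod g)ˣ} (U : Un (b + 1) m g L s δ μ) (hg : (b + 1) ^ L ≤ g * (b + 1) ^ (4 * y))
    (S : Finset ((ℤ → Option B) × (ℤ → Option B)))
    (hS : ∀ p ∈ S, Wd p.1 L s ∧ Wd p.2 L s)
    (hsk : ∀ p ∈ S, ∀ p' ∈ S, ∀ j, (p.1 j).isSome = (p'.1 j).isSome ∧
      (p.2 j).isSome = (p'.2 j).isSome)
    (P Q : ℤ) (hP : IsCoprime P ((b : ℤ) + 1)) (hQ : IsCoprime Q ((b : ℤ) + 1))
    (hP' : |P| ≤ (L : ℤ) * (m : ℤ) ^ (2 * (10 ^ 7 * y)))
    (hQ' : |Q| ≤ (L : ℤ) * (m : ℤ) ^ (2 * (10 ^ 7 * y)))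
    (hrel : ∀ q ∈ S, ∀ i, (P : ZMod g) * vc δ μ L q.1 i = (Q : ZMod g) * vc δ μ L q.2 i)
    (hbig : (b + 1) ^ L ≤ S.card * (b + 1) ^ (8 * y)) :
    ∃ (Θ : Finset ℕ) (Z : ℤ), Θ.Nonempty ∧ Θ ⊆ range L ∧ L ≤ Θ.card + (12 * 10 ^ 7 * y + 80 * y) ∧
      ∀ p ∈ S, (∀ t ∈ Θ, zf p.1 (t : ℤ) ≤ Z ∧ zf p.2 (t : ℤ) ≤ Z ∧
        P * (m : ℤ) ^ ((Z - zf p.1 (t : ℤ)).toNat) = Q * (m : ℤ) ^ ((Z - zf p.2 (t : ℤ)).toNat)) ∧
        ∀ t ∈ Θ, ∀ t' ∈ Θ, zf p.1 (t : ℤ) - zf p.2 (t : ℤ) = zf p.1 (t' : ℤ) - zf p.2 (t' : ℤ) := by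
  classical
  obtain ⟨hs0, hL0⟩ := N.s_pos
  have hy := N.yge
  have hLge := N.Lge
  have heps := N.eps
  have hb := N.b1
  have hdm := N.dm
  have hb0 : 2 ^ 60 ≤ b := hb
  have hm2 : 2 ≤ m := by omega
  have hX : 2 * (L * m ^ (2 * (10 ^ 7 * y))) * ((L - (2 * (10 ^ 7 * y) + 6 * y)) *
      m ^ (L - (2 * (10 ^ 7 * y) + 6 * y) + ε)) < g := by
    have hnum := num_g N
    by_contra hc
    push Not at hc
    have h1 := Nat.mul_le_mul_right ((b + 1) ^ (4 * y)) hc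
    omega
  have hS1 := B2 hB N U hg S hS hsk P Q hP hQ hP' hQ' hrel hbig
  have hPne : P ≠ 0 := by
    rintro rfl
    have h1 := isCoprime_zero_left.mp hP
    have h2 := Int.isUnit_iff.mp h1
    omega
  have hQne : Q ≠ 0 := by
    rintro rfl
    have h1 := isCoprime_zero_left.mp hQ
    have h2 := Int.isUnit_iff.mp h1
    omega
  have hSpos : 0 < S.card := by
    rw [Nat.pos_iff_ne_zero]
    intro hc
    rw [hc, zero_mul] at hbig
    have : 0 < (b + 1) ^ L := by positivity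
    omega
  -- sizes
  have hbound : ∀ l : ℕ, 10 ^ 7 * y = l → 12 * 10 ^ 7 * y = 12 * l := by intro l hl; omega
  generalize hl : 10 ^ 7 * y = l at *
  rw [hbound l rfl]
  have hlL : 100 * l + 100 * y ≤ L := by omega
  have hly : 10 * y ≤ l := by omega
  generalize hnn : L - (2 * l + 6 * y) = n at *
  have hnL : n ≤ L := by omega
  generalize hS1d : S.filter (fun p => dis p.1 p.2 n < 2 * l + 16 * y) = S1 at hS1
  have hS1S : S1 ⊆ S := by rw [← hS1d]; exact filter_subset _ _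
  have hS1ne : S1.Nonempty := by
    rw [← card_pos]
    omega
  obtain ⟨Θ0, S2, hS21, hΘ0, hag, hoff, hΘc, hS2c⟩ := B3_pigeon hB N S1 (fun p hp => hS p (hS1S hp)) (2 * l + 6 * y)
    (2 * l + 16 * y) (by omega) (by
      intro p hp
      rw [← hS1d] at hp
      rw [hnn]
      exact (mem_filter.mp hp).2) hS1ne
  rw [hnn] at hΘ0
  have hS2S : S2 ⊆ S := hS21.trans hS1S
  have hS2ne : S2.Nonempty := by
    rw [← card_pos, Nat.pos_iff_ne_zero]
    intro hc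
    rw [hc, mul_zero] at hS2c
    have := card_pos.mpr hS1ne
    omega
  obtain ⟨p0, hp0⟩ := hS2ne
  have hp0S := hS2S hp0
  generalize hz : zf p0.1 = z
  generalize hz' : zf p0.2 = z'
  have hzS : ∀ p ∈ S, zf p.1 = z ∧ zf p.2 = z' := by
    intro p hp
    rw [← hz, ← hz']
    exact ⟨zf_congr' (fun j => (hsk p hp p0 hp0S j).1), zf_congr' (fun j => (hsk p hp p0 hp0S j).2)⟩
  have hzn := zf_near N (hS p0 hp0S).1
  have hzn' := zf_near N (hS p0 hp0S).2
  have hisz := zf_isZ p0.1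
  have hisz' := zf_isZ p0.2
  rw [hz] at hzn hisz
  rw [hz'] at hzn' hisz'
  have hzd : ∃ Z : ℤ, z n ≤ Z ∧ z' n ≤ Z ∧ Z ≤ n := by
    refine ⟨max (z n) (z' n), le_max_left _ _, le_max_right _ _, max_le (hzn n hnL).2 (hzn' n hnL).2⟩
  obtain ⟨Z, hZ1, hZ2, hZn⟩ := hzd
  have hzle : ∀ t : ℕ, t < n → z t ≤ Z := by
    intro t ht
    exact (hisz.mono (by exact_mod_cast ht.le)).trans hZ1
  have hzle' : ∀ t : ℕ, t < n → z' t ≤ Z := by
    intro t ht
    exact (hisz'.mono (by exact_mod_cast ht.le)).trans hZ2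
  have hE : ∀ t : ℕ, t < n → Z - z t ≤ (n : ℤ) - t + ε := by
    intro t ht
    have := (hzn t (by omega)).1
    omega
  have hE' : ∀ t : ℕ, t < n → Z - z' t ≤ (n : ℤ) - t + ε := by
    intro t ht
    have := (hzn' t (by omega)).1
    omega
  have hsomeΘ : ∀ t ∈ Θ0, (p0.1 (t : ℤ)).isSome ∧ (p0.2 (t : ℤ)).isSome := by
    intro t ht
    have h1 := hag p0 hp0 t ht
    exact ⟨h1.2, by rw [← h1.1]; exact h1.2⟩
  have ha : ∀ t ∈ Θ0, ∀ t' ∈ Θ0, t < t' → (Z - z t').toNat < (Z - z t).toNat := by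
    intro t ht t' ht' htt
    have h1 := hisz.strict (show (t : ℤ) < t' by exact_mod_cast htt) (hsomeΘ t ht).1
    have h2 := hzle t' (mem_range.mp (hΘ0 ht'))
    omega
  have ha' : ∀ t ∈ Θ0, ∀ t' ∈ Θ0, t < t' → (Z - z' t').toNat < (Z - z' t).toNat := by
    intro t ht t' ht' htt
    have h1 := hisz'.strict (show (t : ℤ) < t' by exact_mod_cast htt) (hsomeΘ t ht).2
    have h2 := hzle' t' (mem_range.mp (hΘ0 ht'))
    omega
  -- the exact equation
  have heq : ∀ p ∈ S2, ∀ p' ∈ S2, ∀ i : B,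
      ∑ t ∈ Θ0, (if p.1 (t : ℤ) = some i then ((b + 1 : ℕ) : ℤ) ^ t * (P * (m : ℤ) ^ ((Z - z t).toNat) -
        Q * (m : ℤ) ^ ((Z - z' t).toNat)) else 0) =
      ∑ t ∈ Θ0, (if p'.1 (t : ℤ) = some i then ((b + 1 : ℕ) : ℤ) ^ t * (P * (m : ℤ) ^ ((Z - z t).toNat) -
        Q * (m : ℤ) ^ ((Z - z' t).toNat)) else 0) := by
    intro p hp p' hp' i
    have hpS := hS2S hp
    have hpS' := hS2S hp'
    apply theta_eq P Q z z' Z Θ0 hΘ0 (fun t ht => (hag p hp t ht).1) (fun t ht => (hag p' hp' t ht).1)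
      (fun t ht ht' => hoff p hp p' hp' t (by omega) ht') i
    apply exact_eq hdm (by omega) U hnL P Q (L * m ^ (2 * l)) (by push_cast; exact hP')
      (by push_cast; exact hQ') hX z z' Z hzle hzle' hE hE' (hS p hpS).1 (hS p hpS).2 (hS p' hpS').1
      (hS p' hpS').2 (hzS p hpS).1 (hzS p hpS).2 (hzS p' hpS').1 (hzS p' hpS').2
      _ _ i (hrel p hpS i) (hrel p' hpS' i)
    · intro j hj1 hj2
      obtain ⟨k, rfl⟩ := Int.eq_ofNat_of_zero_le (by omega : 0 ≤ j)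
      have hk1 : n ≤ k := by exact_mod_cast hj1
      have hk2 : k < L := by exact_mod_cast hj2
      exact (hoff p hp p' hp' k hk2 (by
        intro hc
        have := mem_range.mp (hΘ0 hc)
        omega)).1
    · intro j hj1 hj2
      obtain ⟨k, rfl⟩ := Int.eq_ofNat_of_zero_le (by omega : 0 ≤ j)
      have hk1 : n ≤ k := by exact_mod_cast hj1
      have hk2 : k < L := by exact_mod_cast hj2
      exact (hoff p hp p' hp' k hk2 (by
        intro hc
        have := mem_range.mp (hΘ0 hc)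
        omega)).2
  -- a set on which the letters are determined
  have hX : ∀ X ⊆ Θ0,
      (∀ f f' : ℕ → Option B, (∀ t ∈ X, (f t).isSome ∧ (f' t).isSome) →
        (∀ i, ∑ t ∈ X, (if f t = some i then ((b + 1 : ℕ) : ℤ) ^ t * (P * (m : ℤ) ^ ((Z - z t).toNat) - Q * (m : ℤ) ^ ((Z - z' t).toNat)) else 0) =
          ∑ t ∈ X, (if f' t = some i then ((b + 1 : ℕ) : ℤ) ^ t * (P * (m : ℤ) ^ ((Z - z t).toNat) - Q * (m : ℤ) ^ ((Z - z' t).toNat)) else 0)) →
        ∀ t ∈ X, f t = f' t) → X.card ≤ ε + 2 * (2 * l + 16 * y + (2 * l + 6 * y) + ε) + 8 * y := by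
    intro X hX hD
    have hXL : X ⊆ range L := hX.trans (hΘ0.trans (range_subset_range.mpr hnL))
    apply num_X N hbig hS1 hS2c _ (by
      have := card_le_card hXL
      rwa [card_range] at this)
    rw [← hB]
    apply count_det S2 X hXL
    intro p hp p' hp' hoffX
    have hsum := heq p hp p' hp'
    have hX1 : ∀ t ∈ X, p.1 ((t : ℕ) : ℤ) = p'.1 (t : ℤ) := by
      apply hD (fun t => p.1 (t : ℤ)) (fun t => p'.1 (t : ℤ))
      · intro t ht
        exact ⟨(hag p hp t (hX ht)).2, (hag p' hp' t (hX ht)).2⟩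
      · intro i
        have h1 := hsum i
        rw [← sum_sdiff hX, ← sum_sdiff hX] at h1
        have h2 : ∑ t ∈ Θ0 \ X, (if p.1 (t : ℤ) = some i then ((b + 1 : ℕ) : ℤ) ^ t * (P * (m : ℤ) ^ ((Z - z t).toNat) -
            Q * (m : ℤ) ^ ((Z - z' t).toNat)) else 0) =
            ∑ t ∈ Θ0 \ X, (if p'.1 (t : ℤ) = some i then ((b + 1 : ℕ) : ℤ) ^ t * (P * (m : ℤ) ^ ((Z - z t).toNat) -
            Q * (m : ℤ) ^ ((Z - z' t).toNat)) else 0) := by
          apply sum_congr rfl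
          intro t ht
          rw [mem_sdiff] at ht
          rw [hoffX t (by have := mem_range.mp (hΘ0 ht.1); omega) ht.2]
        rw [h2] at h1
        exact add_left_cancel h1
    have h1 : ∀ t : ℕ, t < L → p.1 (t : ℤ) = p'.1 (t : ℤ) := by
      intro t ht
      by_cases htX : t ∈ X
      · exact hX1 t htX
      · exact hoffX t ht htX
    have h2 : ∀ t : ℕ, t < L → p.2 (t : ℤ) = p'.2 (t : ℤ) := by
      intro t ht
      by_cases htX : t ∈ Θ0
      · rw [← (hag p hp t htX).1, ← (hag p' hp' t htX).1]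
        exact h1 t ht
      · exact (hoff p hp p' hp' t ht htX).2
    apply Prod.ext
    · exact Per.ext hL0 (hS p (hS2S hp)).1.per (hS p' (hS2S hp')).1.per h1
    · exact Per.ext hL0 (hS p (hS2S hp)).2.per (hS p' (hS2S hp')).2.per h2
  obtain ⟨Θ1, hΘ1, hd1, hconst, halt⟩ := val_two (B := B) hm2 N.cop P Q hPne hQne Θ0 (fun t => (Z - z t).toNat)
    (fun t => (Z - z' t).toNat) ha ha'
  have hc1 := hX Θ1 hΘ1 hd1
  have hcs : (Θ0 \ Θ1).card + Θ1.card = Θ0.card := card_sdiff_add_card_eq_card hΘ1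
  rcases halt with halt | halt
  · refine ⟨Θ0 \ Θ1, Z, ?_, ?_, ?_, ?_⟩
    · rw [← card_pos]
      omega
    · exact sdiff_subset.trans (hΘ0.trans (range_subset_range.mpr hnL))
    · omega
    · intro p hp
      rw [(hzS p hp).1, (hzS p hp).2]
      refine ⟨?_, ?_⟩
      · intro t ht
        have htn := mem_range.mp (hΘ0 (mem_sdiff.mp ht).1)
        exact ⟨hzle t htn, hzle' t htn, halt t ht⟩
      · intro t ht t' ht'
        have h1 := hconst t ht t' ht'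
        have htn := mem_range.mp (hΘ0 (mem_sdiff.mp ht).1)
        have htn' := mem_range.mp (hΘ0 (mem_sdiff.mp ht').1)
        have e1 := hzle t htn
        have e2 := hzle' t htn
        have e3 := hzle t' htn'
        have e4 := hzle' t' htn'
        omega
  · exfalso
    have hc2 := hX (Θ0 \ Θ1) sdiff_subset halt
    omega

end GC85
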