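import Mathlib
import Pool.Agent.Helper85.DN.B3b

/-!
# DN-B3: the two skeletons are the same after a shift

`B3_theta` gives `Θ` and `Z`; take `t1 ∈ Θ`.
1. Shift all words by `t1` (`vc_sh`): `P μ ^ (-z t1) vc (sh t1 p.1) = Q μ ^ (-z' t1) vc (sh t1 p.2)`; multiply by
   `μ ^ Z`: `Y vc (sh t1 p.1) = Y vc (sh t1 p.2)` with the integer `Y = P m ^ (Z - z t1) = Q m ^ (Z - z' t1)`. Put
   `G = g / gcd (g, P)`; `gcd (g, Y) = gcd (g, P)` because `m` is a unit modulo `g`; `gcd (g, P) ≤ |P|` (`P ≠ 0`). By `V_eq_vc`,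
   `Y (V (sh t1 p.1) i - V (sh t1 p.2) i) = 0` in `ZMod g`, so `G ∣ V .. - V ..`.
2. `zf (sh t1 p.1) j - zf (sh t1 p.2) j = (z - z') (t1 + j) - (z - z') (t1)` is `0` if `t1 + j` is congruent modulo
   `L` to an element of `Θ` (`Wd.zf_add`); so `kd ≤ L - Θ.card ≤ 12 * 10 ^ 7 y + 80 y`.
-/

set_option autoImplicit false

namespace GC85

open Finset GC70

variable {B : Type} [Fintype B] [DecidableEq B]

private lemma B3_kd {w w' : ℤ → Option B} {L s : ℕ} (hw : Wd w L s) (hw' : Wd w' L s)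
    (Θ : Finset ℕ) (hΘ : Θ ⊆ range L) (t1 : ℕ) (ht1 : t1 ∈ Θ) (K : ℕ) (hK : L ≤ Θ.card + K)
    (h : ∀ t ∈ Θ, ∀ t' ∈ Θ, zf w (t : ℤ) - zf w' (t : ℤ) = zf w (t' : ℤ) - zf w' (t' : ℤ)) :
    kd (sh (t1 : ℤ) w) (sh (t1 : ℤ) w') L ≤ K := by
  classical
  have ht1L : t1 < L := mem_range.mp (hΘ ht1)
  unfold kd
  have hcard : ((Ico (0 : ℤ) L).filter
      (fun j => zf (sh (t1 : ℤ) w) j = zf (sh (t1 : ℤ) w') j)).card +
      ((Ico (0 : ℤ) L).filter (fun j => zf (sh (t1 : ℤ) w) j ≠ zf (sh (t1 : ℤ) w') j)).card = L := by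
    have h1 := card_filter_add_card_filter_not (s := Ico (0 : ℤ) L)
      (fun j => zf (sh (t1 : ℤ) w) j = zf (sh (t1 : ℤ) w') j)
    rw [Int.card_Ico] at h1
    simpa using h1
  have hge : Θ.card ≤ ((Ico (0 : ℤ) L).filter
      (fun j => zf (sh (t1 : ℤ) w) j = zf (sh (t1 : ℤ) w') j)).card := by
    apply card_le_card_of_injOn
      (fun t : ℕ => if t1 ≤ t then (t : ℤ) - t1 else (t : ℤ) - t1 + L)
    · intro t ht
      have htL : t < L := mem_range.mp (hΘ ht)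
      have hd := h t ht t1 ht1
      simp only [coe_filter, mem_Ico, Set.mem_ofPred_eq]
      rw [zf_sh, zf_sh]
      split_ifs with h2
      · refine ⟨⟨by omega, by omega⟩, ?_⟩
        rw [sub_add_cancel]
        linarith
      · refine ⟨⟨by omega, by omega⟩, ?_⟩
        have h3 : (t : ℤ) - t1 + L + t1 = t + L := by ring
        rw [h3, hw.zf_add, hw'.zf_add]
        linarith
    · intro t ht t' ht' heq
      have htL : t < L := mem_range.mp (hΘ ht)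
      have htL' : t' < L := mem_range.mp (hΘ ht')
      simp only at heq
      split_ifs at heq <;> omega
  omega

theorem B3 {b m g L s y ε : ℕ} (hB : Fintype.card B = b) (N : NP b m L s y ε)
    {δ μ : (ZMod g)ˣ} (U : Un (b + 1) m g L s δ μ) (hg : (b + 1) ^ L ≤ g * (b + 1) ^ (4 * y))
    (S : Finset ((ℤ → Option B) × (ℤ → Option B)))
    (hS : ∀ p ∈ S, Wd p.1 L s ∧ Wd p.2 L s)
    (hsk : ∀ p ∈ S, ∀ p' ∈ S, ∀ j, (p.1 j).isSome = (p'.1 j).isSome ∧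
      (p.2 j).isSome = (p'.2 j).isSome)
    (P Q : ℤ) (hP : IsCoprime P ((b : ℤ) + 1)) (hQ : IsCoprime Q ((b : ℤ) + 1))
    (hP' : |P| ≤ (L : ℤ) * (m : ℤ) ^ (2 * (10 ^ 7 * y)))
    (hQ' : |Q| ≤ (L : ℤ) * (m : ℤ) ^ (2 * (10 ^ 7 * y)))
    (hrel : ∀ q ∈ S, ∀ i, (P : ZMod g) * vc δ μ L q.1 i = (Q : ZMod g) * vc δ μ L q.2 i)
    (hbig : (b + 1) ^ L ≤ S.card * (b + 1) ^ (8 * y)) :
    ∃ (t1 : ℤ) (G : ℕ), 0 ≤ t1 ∧ t1 < L ∧ G ∣ g ∧ g ≤ G * (L * m ^ (2 * (10 ^ 7 * y))) ∧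
      ∀ p ∈ S, (∀ i, (V (b + 1) m (sh t1 p.1) L i : ZMod G) = V (b + 1) m (sh t1 p.2) L i) ∧
        kd (sh t1 p.1) (sh t1 p.2) L ≤ 12 * 10 ^ 7 * y + 80 * y := by
  obtain ⟨Θ, Z, hne, hΘ, hcard, hp⟩ := B3_theta hB N U hg S hS hsk P Q hP hQ hP' hQ' hrel hbig
  obtain ⟨t1, ht1⟩ := hne
  have ht1L : t1 < L := mem_range.mp (hΘ ht1)
  have hs0 : 0 < s := N.s_pos.1
  have hb1 := N.b1
  have hP0 : P ≠ 0 := by
    rintro rfl
    have h1 := isCoprime_zero_left.mp hP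
    have h2 := Int.isUnit_iff.mp h1
    have h3 : (2 : ℤ) ^ 60 ≤ b := by exact_mod_cast hb1
    norm_num at h3
    omega
  have hPn : 0 < P.natAbs := Int.natAbs_pos.mpr hP0
  set e : ℕ := Nat.gcd g P.natAbs with hedef
  have he0 : 0 < e := Nat.gcd_pos_of_pos_right _ hPn
  have heg : e ∣ g := Nat.gcd_dvd_left _ _
  have heP : e ≤ P.natAbs := Nat.le_of_dvd hPn (Nat.gcd_dvd_right _ _)
  refine ⟨(t1 : ℤ), g / e, by omega, by omega, Nat.div_dvd_of_dvd heg, ?_, ?_⟩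
  · have h1 : e ≤ L * m ^ (2 * (10 ^ 7 * y)) := by
      have h2 : ((P.natAbs : ℕ) : ℤ) ≤ ((L * m ^ (2 * (10 ^ 7 * y)) : ℕ) : ℤ) := by
        rw [Int.natCast_natAbs]
        push_cast
        exact hP'
      exact heP.trans (by exact_mod_cast h2)
    calc g = g / e * e := (Nat.div_mul_cancel heg).symm
      _ ≤ g / e * (L * m ^ (2 * (10 ^ 7 * y))) := Nat.mul_le_mul_left _ h1
  intro p hpS
  obtain ⟨hw, hw'⟩ := hS p hpS
  obtain ⟨hq1, hq2⟩ := hp p hpS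
  refine ⟨?_, B3_kd hw hw' Θ hΘ t1 ht1 _ hcard hq2⟩
  intro i
  obtain ⟨hz, hz', hPQ⟩ := hq1 t1 ht1
  have hV := V_eq_vc U (hw.sh (t1 : ℤ)) hs0 i
  have hV' := V_eq_vc U (hw'.sh (t1 : ℤ)) hs0 i
  have hc := vc_sh U hw (t1 : ℤ) i
  have hc' := vc_sh U hw' (t1 : ℤ) i
  have hr := hrel p hpS i
  set z : ℤ := zf p.1 (t1 : ℤ) with hzdef
  set z' : ℤ := zf p.2 (t1 : ℤ) with hzdef'
  set A : ℕ := V (b + 1) m (sh (t1 : ℤ) p.1) L i with hA
  set A' : ℕ := V (b + 1) m (sh (t1 : ℤ) p.2) L i with hA'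
  -- powers of `m` in terms of `μ`
  have hm1 : ((m : ZMod g) ^ ((Z - z).toNat)) = ((μ ^ (Z - z) : (ZMod g)ˣ) : ZMod g) := by
    rw [← U.hμ, ← Units.val_pow_eq_pow_val, ← zpow_natCast, Int.toNat_of_nonneg (by omega)]
  have hm2 : ((m : ZMod g) ^ ((Z - z').toNat)) = ((μ ^ (Z - z') : (ZMod g)ˣ) : ZMod g) := by
    rw [← U.hμ, ← Units.val_pow_eq_pow_val, ← zpow_natCast, Int.toNat_of_nonneg (by omega)]
  have hPQz : (P : ZMod g) * ((μ ^ (Z - z) : (ZMod g)ˣ) : ZMod g) =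
      (Q : ZMod g) * ((μ ^ (Z - z') : (ZMod g)ˣ) : ZMod g) := by
    rw [← hm1, ← hm2]
    exact_mod_cast congrArg (fun x : ℤ => (x : ZMod g)) hPQ
  -- the common unit
  have hun : ∀ x : ℤ, ((μ ^ (Z - x) : (ZMod g)ˣ) : ZMod g) *
      (((μ ^ ((s : ℤ) - 1) : (ZMod g)ˣ) : ZMod g) *
      ((δ ^ (-(t1 : ℤ)) * μ ^ x : (ZMod g)ˣ) : ZMod g)) =
      ((μ ^ (Z + s - 1) * δ ^ (-(t1 : ℤ)) : (ZMod g)ˣ) : ZMod g) := by
    intro x
    rw [← Units.val_mul, ← Units.val_mul]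
    congr 1
    have h1 : μ ^ (Z + s - 1) = μ ^ (Z - x) * μ ^ ((s : ℤ) - 1) * μ ^ x := by
      rw [← zpow_add, ← zpow_add]
      congr 1
      ring
    rw [h1]
    have : ∀ a b c e : (ZMod g)ˣ, a * (b * (e * c)) = a * b * c * e := by
      intro a b c e
      simp only [mul_assoc, mul_left_comm, mul_comm]
    exact this _ _ _ _
  have hY1 : (P : ZMod g) * ((μ ^ (Z - z) : (ZMod g)ˣ) : ZMod g) * (A : ZMod g) =
      ((μ ^ (Z + s - 1) * δ ^ (-(t1 : ℤ)) : (ZMod g)ˣ) : ZMod g) *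
        ((P : ZMod g) * vc δ μ L p.1 i) := by
    rw [hV, hc, ← hun z]
    ring
  have hY2 : (Q : ZMod g) * ((μ ^ (Z - z') : (ZMod g)ˣ) : ZMod g) * (A' : ZMod g) =
      ((μ ^ (Z + s - 1) * δ ^ (-(t1 : ℤ)) : (ZMod g)ˣ) : ZMod g) *
        ((Q : ZMod g) * vc δ μ L p.2 i) := by
    rw [hV', hc', ← hun z']
    ring
  have hY3 : (P : ZMod g) * ((μ ^ (Z - z) : (ZMod g)ˣ) : ZMod g) * (A : ZMod g) =
      (P : ZMod g) * ((μ ^ (Z - z) : (ZMod g)ˣ) : ZMod g) * (A' : ZMod g) := by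
    rw [hY1, hr, ← hY2, hPQz]
  have hY4 : ((μ ^ (Z - z) : (ZMod g)ˣ) : ZMod g) * ((P : ZMod g) * ((A : ZMod g) - (A' : ZMod g))) = 0 := by
    have := sub_eq_zero.mpr hY3
    rw [← this]
    ring
  have hY5 : (P : ZMod g) * ((A : ZMod g) - (A' : ZMod g)) = 0 := by
    have h1 := congrArg (fun x => ((μ ^ (Z - z) : (ZMod g)ˣ)⁻¹ : (ZMod g)ˣ).val * x) hY4
    simp only [mul_zero] at h1
    rwa [← mul_assoc, Units.inv_mul, one_mul] at h1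
  have hY6 : (g : ℤ) ∣ P * ((A : ℤ) - (A' : ℤ)) := by
    rw [← ZMod.intCast_zmod_eq_zero_iff_dvd] 
    push_cast
    exact hY5
  have hY7 : ((g / e : ℕ) : ℤ) ∣ (A : ℤ) - (A' : ℤ) := by
    have h1 : g ∣ P.natAbs * ((A : ℤ) - (A' : ℤ)).natAbs := by
      rw [← Int.natAbs_mul]
      exact Int.natCast_dvd.mp hY6
    have h2 : Nat.Coprime (g / e) (P.natAbs / e) := Nat.coprime_div_gcd_div_gcd he0
    have h3 : g / e ∣ P.natAbs / e * ((A : ℤ) - (A' : ℤ)).natAbs := by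
      have h4 : g / e * e ∣ P.natAbs / e * ((A : ℤ) - (A' : ℤ)).natAbs * e := by
        rw [Nat.div_mul_cancel heg]
        have h5 : P.natAbs / e * ((A : ℤ) - (A' : ℤ)).natAbs * e =
            (P.natAbs / e * e) * ((A : ℤ) - (A' : ℤ)).natAbs := by ring
        rw [h5, Nat.div_mul_cancel (Nat.gcd_dvd_right _ _)]
        exact h1
      exact Nat.dvd_of_mul_dvd_mul_right he0 h4
    exact Int.natCast_dvd.mpr (h2.dvd_of_dvd_mul_left h3)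
  have hY8 : (((A : ℤ) - (A' : ℤ) : ℤ) : ZMod (g / e)) = 0 := by
    rw [ZMod.intCast_zmod_eq_zero_iff_dvd]
    exact hY7
  push_cast at hY8
  exact sub_eq_zero.mp hY8

end GC85
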