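import Mathlib
import Pool.Agent.Helper85.DN.B1
import Pool.Agent.Helper85.DN.B3

/-!
# DN-BMain: the structure theorem for large moduli

`exists_un`, `V_eq_vc` (turn `hrel` into a relation between the `vc`), `B1`; `B3` for the image of `S` under
`p ↦ (sh h p.1, sh h' p.2)` (injective; `Wd.sh`; the skeletons stay constant); `sh_sh`, `sh_mod`.
-/

set_option autoImplicit false

namespace GC85

open Finset GC70

variable {B : Type} [Fintype B] [DecidableEq B]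

omit [Fintype B] [DecidableEq B] in
private theorem BMain_sh_inj (h : ℤ) : Function.Injective (sh h : (ℤ → Option B) → (ℤ → Option B)) := by
  intro w w' e
  funext j
  have := congrFun e (j - h)
  simpa [sh] using this

theorem BMain {b m g L s y ε : ℕ} (hB : Fintype.card B = b) (N : NP b m L s y ε)
    (hgd : Nat.Coprime (b + 1) g) (hgm : Nat.Coprime m g) (hle : m ^ s ≤ (b + 1) ^ L)
    (hdvd : g ∣ (b + 1) ^ L - m ^ s) (hg : (b + 1) ^ L ≤ g * (b + 1) ^ (4 * y))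
    (S : Finset ((ℤ → Option B) × (ℤ → Option B)))
    (hS : ∀ p ∈ S, Wd p.1 L s ∧ Wd p.2 L s)
    (hsk : ∀ p ∈ S, ∀ p' ∈ S, ∀ j, (p.1 j).isSome = (p'.1 j).isSome ∧
      (p.2 j).isSome = (p'.2 j).isSome)
    (l : (ZMod g)ˣ)
    (hrel : ∀ p ∈ S, ∀ i, (V (b + 1) m p.2 L i : ZMod g) = l * (V (b + 1) m p.1 L i : ZMod g))
    (hbig : (b + 1) ^ L ≤ S.card * (b + 1) ^ (8 * y)) :
    ∃ (h h' : ℤ) (G : ℕ), 0 ≤ h ∧ h < L ∧ 0 ≤ h' ∧ h' < L ∧ G ∣ g ∧
      g ≤ G * (L * m ^ (2 * (10 ^ 7 * y))) ∧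
      ∀ p ∈ S, (∀ i, (V (b + 1) m (sh h p.1) L i : ZMod G) = V (b + 1) m (sh h' p.2) L i) ∧
        kd (sh h p.1) (sh h' p.2) L ≤ 12 * 10 ^ 7 * y + 80 * y := by
  obtain ⟨δ, μ, U⟩ := exists_un (d := b + 1) (m := m) (g := g) (L := L) (s := s) hgd hgm hle hdvd
  obtain ⟨hs, hL⟩ := N.s_pos
  have hrel' : ∀ p ∈ S, ∀ i, vc δ μ L p.2 i = l * vc δ μ L p.1 i := by
    intro p hp i
    have h1 := hrel p hp i
    rw [V_eq_vc U (hS p hp).1 hs i, V_eq_vc U (hS p hp).2 hs i] at h1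
    have h2 : ((μ ^ ((s : ℤ) - 1) : (ZMod g)ˣ) : ZMod g) * vc δ μ L p.2 i =
        ((μ ^ ((s : ℤ) - 1) : (ZMod g)ˣ) : ZMod g) * (l * vc δ μ L p.1 i) := by
      rw [h1]
      ring
    exact (Units.mul_right_inj _).1 h2
  obtain ⟨h, h', P, Q, h0, h1, h0', h1', hP, hQ, hP', hQ', hPQ⟩ :=
    B1 hB N U hg S hS hsk l hrel' hbig
  classical
  have hinj : Function.Injective (fun p : (ℤ → Option B) × (ℤ → Option B) =>
      (sh h p.1, sh h' p.2)) := by
    intro p q e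
    simp only [Prod.mk.injEq] at e
    exact Prod.ext (BMain_sh_inj h e.1) (BMain_sh_inj h' e.2)
  obtain ⟨t1, G, ht0, ht1, hG, hGle, hfin⟩ := B3 hB N U hg
    (S.image fun p => (sh h p.1, sh h' p.2))
    (by
      intro q hq
      obtain ⟨p, hp, rfl⟩ := mem_image.1 hq
      exact ⟨(hS p hp).1.sh h, (hS p hp).2.sh h'⟩)
    (by
      intro q hq q' hq' j
      obtain ⟨p, hp, rfl⟩ := mem_image.1 hq
      obtain ⟨p', hp', rfl⟩ := mem_image.1 hq'
      exact ⟨(hsk p hp p' hp' (j + h)).1, (hsk p hp p' hp' (j + h')).2⟩)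
    P Q hP hQ hP' hQ'
    (by
      intro q hq i
      obtain ⟨p, hp, rfl⟩ := mem_image.1 hq
      exact hPQ p hp i)
    (by rwa [card_image_of_injective _ hinj])
  have hL' : (0 : ℤ) < L := by exact_mod_cast hL
  refine ⟨(t1 + h) % L, (t1 + h') % L, G, Int.emod_nonneg _ hL'.ne', Int.emod_lt_of_pos _ hL',
    Int.emod_nonneg _ hL'.ne', Int.emod_lt_of_pos _ hL', hG, hGle, fun p hp => ?_⟩
  have h2 := hfin (sh h p.1, sh h' p.2) (mem_image_of_mem _ hp)
  simp only [sh_sh] at h2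
  rw [← sh_mod (hS p hp).1.per, ← sh_mod (hS p hp).2.per]
  exact h2

end GC85
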