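import Mathlib
import Pool.Agent.Helper85.DN.Base

/-!
# DN: definitions for aligned pairs
-/

set_option autoImplicit false

namespace GC85

open Finset GC70

variable {B : Type} [Fintype B] [DecidableEq B]

/-- the pairs of different typical primitive words whose coefficients are equal modulo a large divisor of
`D` and whose skeletons agree at most positions -/
noncomputable def AlS (B : Type) [Fintype B] [DecidableEq B] (b m L s D y : ℕ) :
    Finset ((ℤ → Option B) × (ℤ → Option B)) := by
  classical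
  exact ((PW B L) ×ˢ (PW B L)).filter (fun p => Wd p.1 L s ∧ Wd p.2 L s ∧
    Ty b p.1 L (Del L) ∧ Ty b p.2 L (Del L) ∧ Prim (b + 1) m D L p.1 ∧ Prim (b + 1) m D L p.2 ∧
    p.1 ≠ p.2 ∧ D ≤ gG (b + 1) m D L p.1 p.2 * (b + 1) ^ (3 * 10 ^ 7 * y) ∧
    kd p.1 p.2 L ≤ 12 * 10 ^ 7 * y + 80 * y)

/-- the pairs of different typical words with the greatest common divisor `G`, with skeletons which
agree at most positions and few differences -/
noncomputable def SG (B : Type) [Fintype B] [DecidableEq B] (b m L s D y G : ℕ) :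
    Finset ((ℤ → Option B) × (ℤ → Option B)) := by
  classical
  exact ((PW B L) ×ˢ (PW B L)).filter (fun p => Wd p.1 L s ∧ Wd p.2 L s ∧
    Ty b p.1 L (Del L) ∧ Ty b p.2 L (Del L) ∧ p.1 ≠ p.2 ∧ gG (b + 1) m D L p.1 p.2 = G ∧
    kd p.1 p.2 L ≤ 12 * 10 ^ 7 * y + 80 * y ∧ 10 ^ 4 * dis p.1 p.2 L ≤ L)

/-- the difference of the coefficients divided by `G` -/
noncomputable def zd (d m G L : ℕ) (w w' : ℤ → Option B) (i : B) : ℤ :=
  ((V d m w' L i : ℤ) - (V d m w L i : ℤ)) / G

end GC85
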