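import Mathlib
import Pool.Agent.Helper85.DN.CDefs
import Pool.Agent.Helper85.DN.Win
import Pool.Agent.Helper85.DN.Tree

/-!
# DN-C1a: a window of length `ℓ` without differences implies equality

`C1a`: `DP.cop`, `exists_un` for `G`; `V_eq_vc`: `vc w = vc w'` (in `ZMod G`). `win_id` for both words at the position `x + ℓ`
with `n = L - ℓ` and `Z = zf w (x + L) = zf w' (x + L)` (both are `zf w x + s`). The remaining sums run over
`[x + L, x + ℓ + L)`; there the words agree (periodicity) and so do the `zf` (`zf w j = zf w' j` for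
`x ≤ j ≤ x + ℓ`). So the integer parts are equal modulo `G`; by `xs_bd_typ` (`K = 0`) both are in
`[0, G)`, so they are equal. `word_inj` with the weights `m ^ (s' - (number of letters ≠ none before t))`,
where `s'` is the number of letters `≠ none` in `[x + ℓ, x + L)`, the same for both words.

`C1u`: for `x ∈ [0, L)` with `zf w x = zf w' x` choose `j ∈ [x, x + ℓ)` with `w j ≠ w' j` (`C1a`). The map
`x ↦ (j mod L, j - x)` is injective into `{j ∈ [0, L) | w j ≠ w' j} × [0, ℓ)`.
-/

set_option autoImplicit false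

namespace GC85

open Finset GC70

variable {B : Type} [Fintype B] [DecidableEq B]

omit [Fintype B] [DecidableEq B] in
private theorem C1a_zf {w w' : ℤ → Option B} {x : ℤ} (hx : zf w x = zf w' x) (n : ℕ)
    (hag : ∀ j, x ≤ j → j < x + n → w j = w' j) (t : ℕ) (ht : t ≤ n) :
    zf w (x + t) = zf w' (x + t) := by
  induction t with
  | zero => simpa using hx
  | succ t ih =>
    have h1 := zf_isZ w (x + t)
    have h2 := zf_isZ w' (x + t)
    rw [hag (x + t) (by omega) (by omega)] at h1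
    have h3 : x + ((t + 1 : ℕ) : ℤ) = x + t + 1 := by push_cast; ring
    rw [h3, h1, h2, ih (by omega)]

omit [Fintype B] [DecidableEq B] in
private theorem C1a_range (w : ℤ → Option B) (x : ℤ) (t : ℕ) :
    zf w (x + t) = zf w x + ((range t).filter (fun j : ℕ => (w (x + j)).isSome)).card := by
  induction t with
  | zero => simp
  | succ t ih =>
    have h1 := zf_isZ w (x + t)
    have h3 : x + ((t + 1 : ℕ) : ℤ) = x + t + 1 := by push_cast; ring
    rw [h3, h1, ih, range_add_one, filter_insert]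
    by_cases h : (w (x + t)).isSome
    · rw [if_pos h, if_pos h, card_insert_of_notMem (by simp)]
      push_cast
      ring
    · rw [if_neg h, if_neg h]
      ring

/-- number of letters before `t` -/
private def C1a_cn {n : ℕ} (y : Fin n → Option B) (t : Fin n) : ℕ :=
  (univ.filter (fun j : Fin n => j < t ∧ (y j).isSome)).card

omit [Fintype B] [DecidableEq B] in
private theorem C1a_cn_eq {n : ℕ} (w : ℤ → Option B) (x : ℤ) (t : Fin n) :
    zf w (x + (t : ℕ)) = zf w x + C1a_cn (fun j : Fin n => w (x + (j : ℕ))) t := by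
  rw [C1a_range]
  congr 2
  symm
  unfold C1a_cn
  apply card_bij (fun (j : Fin n) _ => (j : ℕ))
  · intro j hj
    simp only [mem_filter, mem_univ, true_and] at hj
    simp only [mem_filter, mem_range]
    exact ⟨hj.1, hj.2⟩
  · intro a _ c _ hac
    exact Fin.ext hac
  · intro j hj
    simp only [mem_filter, mem_range] at hj
    refine ⟨⟨j, hj.1.trans t.2⟩, ?_, rfl⟩
    simp only [mem_filter, mem_univ, true_and]
    exact ⟨hj.1, hj.2⟩

private theorem C1a_xs {d m n : ℕ} (w : ℤ → Option B) (x Z : ℤ) (s' : ℕ)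
    (hZ : Z = zf w x + s') (i : B) :
    xs d m (zf w) Z x n w i = ∑ t : Fin n, (d : ℤ) ^ (t : ℕ) *
      (if (fun j : Fin n => w (x + (j : ℕ))) t = some i then
        (m : ℤ) ^ (s' - C1a_cn (fun j : Fin n => w (x + (j : ℕ))) t) else 0) := by
  unfold xs
  rw [← Fin.sum_univ_eq_sum_range (fun t : ℕ => (d : ℤ) ^ t *
    (if w (x + (t : ℤ)) = some i then (m : ℤ) ^ ((Z - zf w (x + (t : ℤ))).toNat) else 0)) n]
  refine sum_congr rfl fun t _ => ?_
  have h1 : (Z - zf w (x + ((t : ℕ) : ℤ))).toNat =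
      s' - C1a_cn (fun j : Fin n => w (x + (j : ℕ))) t := by
    rw [C1a_cn_eq w x t, hZ]
    have h2 : zf w x + (s' : ℤ) - (zf w x + (C1a_cn (fun j : Fin n => w (x + (j : ℕ))) t : ℤ)) =
        (s' : ℤ) - (C1a_cn (fun j : Fin n => w (x + (j : ℕ))) t : ℤ) := by ring
    rw [h2]
    exact Int.toNat_sub _ _
  rw [h1]

private theorem C1a_int {G : ℕ} {a c : ℤ} (h : (a : ZMod G) = (c : ZMod G)) (ha : 0 ≤ a)
    (ha' : a < G) (hc : 0 ≤ c) (hc' : c < G) : a = c := by
  have h1 := (ZMod.intCast_eq_intCast_iff a c G).1 h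
  have h2 : a % (G : ℤ) = c % (G : ℤ) := h1
  rwa [Int.emod_eq_of_lt ha ha', Int.emod_eq_of_lt hc hc'] at h2

theorem C1a {b m L s y ε M0 D G ℓ : ℕ} (hB : Fintype.card B = b) (N : NP b m L s y ε)
    (Q : DP b m L s M0 D) (hG : G ∣ D) (hℓ : ℓ ≤ L)
    (hsize : L * (b + 1) ^ (L - ℓ) * m ^ (Del L) < G) {w w' : ℤ → Option B}
    (hw : Wd w L s) (hw' : Wd w' L s) (ht : Ty b w L (Del L)) (ht' : Ty b w' L (Del L))
    (hrel : ∀ i, (V (b + 1) m w L i : ZMod G) = V (b + 1) m w' L i) (x : ℤ)
    (hx : zf w x = zf w' x) (hag : ∀ j, x ≤ j → j < x + ℓ → w j = w' j) : w = w' := by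
  classical
  obtain ⟨hs0, hL0⟩ := N.s_pos
  obtain ⟨c1, c2⟩ := DP.cop N Q hG
  have hle : m ^ s ≤ (b + 1) ^ L := by
    have h1 := Q.le2
    exact le_trans (Nat.le_mul_of_pos_left _ (by norm_num)) h1
  obtain ⟨δ, μ, U⟩ := exists_un c1 c2 hle (hG.trans Q.dvd)
  have hm0 : 0 < m := lt_of_lt_of_le (Nat.succ_pos b) N.dm
  have hvc : ∀ i, vc δ μ L w i = vc δ μ L w' i := by
    intro i
    have h1 := hrel i
    rw [V_eq_vc U hw hs0, V_eq_vc U hw' hs0] at h1
    exact (Units.mul_right_inj _).1 h1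
  obtain ⟨n, hn⟩ : ∃ n, n = L - ℓ := ⟨_, rfl⟩
  have hnL : n ≤ L := by omega
  obtain ⟨y0, hy0⟩ : ∃ y0 : ℤ, y0 = x + ℓ := ⟨_, rfl⟩
  have hy0n : y0 + n = x + L := by
    rw [hy0, hn]
    omega
  have hzag := C1a_zf hx ℓ hag
  have hZ : zf w (y0 + n) = zf w' (y0 + n) := by
    rw [hy0n, hw.zf_add, hw'.zf_add, hx]
  have hz0 : zf w y0 = zf w' y0 := by
    rw [hy0]
    exact hzag ℓ le_rfl
  -- agreement on the last part
  have hlast : ∀ j ∈ Ico (y0 + n) (y0 + L), w j = w' j ∧ zf w j = zf w' j := by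
    intro j hj
    rw [mem_Ico, hy0n] at hj
    obtain ⟨k, hk⟩ : ∃ k : ℕ, j - L = x + k := ⟨(j - L - x).toNat, by omega⟩
    have hkℓ : k < ℓ := by omega
    have hj1 : j = x + k + L := by omega
    constructor
    · rw [hj1, hw.per, hw'.per]
      exact hag _ (by omega) (by omega)
    · rw [hj1, hw.zf_add, hw'.zf_add, hzag k hkℓ.le]
  -- the integer parts are equal modulo `G`
  have hmod : ∀ i, ((xs (b + 1) m (zf w) (zf w (y0 + n)) y0 n w i : ℤ) : ZMod G) =
      ((xs (b + 1) m (zf w') (zf w' (y0 + n)) y0 n w' i : ℤ) : ZMod G) := by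
    intro i
    have h1 := win_id U hw y0 n hnL (zf w (y0 + n))
      (fun t htn => (zf_isZ w).mono (by omega)) i
    have h2 := win_id U hw' y0 n hnL (zf w' (y0 + n))
      (fun t htn => (zf_isZ w').mono (by omega)) i
    have h3 : ∑ j ∈ (Ico (y0 + n) (y0 + L)).filter (fun j => w j = some i),
          ((δ ^ (j - y0) * μ ^ (zf w (y0 + n) - zf w j) : (ZMod G)ˣ) : ZMod G) =
        ∑ j ∈ (Ico (y0 + n) (y0 + L)).filter (fun j => w' j = some i),
          ((δ ^ (j - y0) * μ ^ (zf w' (y0 + n) - zf w' j) : (ZMod G)ˣ) : ZMod G) := by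
      apply sum_congr
      · apply filter_congr
        intro j hj
        rw [(hlast j hj).1]
      · intro j hj
        rw [hZ, (hlast j (mem_filter.1 hj).1).2]
    rw [h3, hvc i, hZ, h2] at h1
    rw [hZ]
    exact (add_right_cancel h1).symm
  -- they are equal
  have heq : ∀ i, xs (b + 1) m (zf w) (zf w (y0 + n)) y0 n w i =
      xs (b + 1) m (zf w') (zf w' (y0 + n)) y0 n w' i := by
    intro i
    have b1 := xs_bd_typ hm0 N.hm ht y0 n 0 hnL i
    have b2 := xs_bd_typ hm0 N.hm ht' y0 n 0 hnL i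
    simp only [Nat.cast_zero, add_zero] at b1 b2
    have hb : (n : ℤ) * ((b : ℤ) + 1) ^ n * (m : ℤ) ^ (Del L) < G := by
      have h1 : n * (b + 1) ^ n * m ^ (Del L) ≤ L * (b + 1) ^ (L - ℓ) * m ^ (Del L) := by
        rw [← hn]
        gcongr
      have h2 := lt_of_le_of_lt h1 hsize
      exact_mod_cast h2
    exact C1a_int (hmod i) b1.1 (lt_of_le_of_lt b1.2 hb) b2.1 (lt_of_le_of_lt b2.2 hb)
  -- the words are equal
  obtain ⟨s', hs'⟩ : ∃ s' : ℕ, zf w (y0 + n) = zf w y0 + s' :=
    ⟨(zf w (y0 + n) - zf w y0).toNat, by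
      have : zf w y0 ≤ zf w (y0 + n) := (zf_isZ w).mono (by omega)
      omega⟩
  have hs'' : zf w' (y0 + n) = zf w' y0 + s' := by rw [← hZ, ← hz0, hs']
  have hwords := word_inj (d := b + 1) (by have := N.b1; omega) n
    (fun y t => (m : ℤ) ^ (s' - C1a_cn y t))
    (by
      intro y y2 t hyy
      have : C1a_cn y t = C1a_cn y2 t := by
        unfold C1a_cn
        congr 1
        apply filter_congr
        intro j _
        constructor
        · rintro ⟨h1, h2⟩
          exact ⟨h1, by rw [← hyy j h1.le]; exact h2⟩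
        · rintro ⟨h1, h2⟩
          exact ⟨h1, by rw [hyy j h1.le]; exact h2⟩
      simp only [this])
    (by
      intro y t
      apply IsCoprime.pow_left
      exact Nat.isCoprime_iff_coprime.2 N.cop)
    (fun j : Fin n => w (y0 + (j : ℕ))) (fun j : Fin n => w' (y0 + (j : ℕ)))
    (by
      intro i
      have h1 := heq i
      rw [C1a_xs w y0 _ s' hs' i, C1a_xs w' y0 _ s' hs'' i] at h1
      exact h1)
  have hwin : ∀ j, x ≤ j → j < x + L → w j = w' j := by
    intro j hj1 hj2
    rcases lt_or_ge j (x + ℓ) with h | h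
    · exact hag j hj1 h
    · obtain ⟨k, hk⟩ : ∃ k : ℕ, j = y0 + k := ⟨(j - y0).toNat, by omega⟩
      have hkn : k < n := by omega
      rw [hk]
      exact congrFun hwords ⟨k, hkn⟩
  funext j
  have hLz : (0 : ℤ) < L := by exact_mod_cast hL0
  have e1 : ∀ (v : ℤ → Option B), Per v L → v j = v (x + (j - x) % L) := by
    intro v hv
    have h1 : j = x + (j - x) % L + ((j - x) / L) * L := by
      have := Int.emod_add_mul_ediv (j - x) L
      linarith
    have h2 : ∀ (q : ℤ) (z : ℤ), v (z + q * L) = v z := by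
      intro q z
      rcases Int.eq_nat_or_neg q with ⟨k, rfl | rfl⟩
      · exact Per.mul hv k z
      · have h3 := Per.mul hv k (z + -(k : ℤ) * L)
        rw [← h3]
        congr 1
        ring
    conv_lhs => rw [h1]
    exact h2 _ _
  rw [e1 w hw.per, e1 w' hw'.per]
  have h1 := Int.emod_nonneg (j - x) hLz.ne'
  have h2 := Int.emod_lt_of_pos (j - x) hLz
  exact hwin _ (by omega) (by omega)

theorem C1u {b m L s y ε M0 D G ℓ : ℕ} (hB : Fintype.card B = b) (N : NP b m L s y ε)
    (Q : DP b m L s M0 D) (hG : G ∣ D) (hℓ : ℓ ≤ L)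
    (hsize : L * (b + 1) ^ (L - ℓ) * m ^ (Del L) < G) {w w' : ℤ → Option B}
    (hw : Wd w L s) (hw' : Wd w' L s) (ht : Ty b w L (Del L)) (ht' : Ty b w' L (Del L))
    (hrel : ∀ i, (V (b + 1) m w L i : ZMod G) = V (b + 1) m w' L i) (hne : w ≠ w') :
    L ≤ kd w w' L + dis w w' L * ℓ := by
  classical
  obtain ⟨hs0, hL0⟩ := N.s_pos
  have hLz : (0 : ℤ) < L := by exact_mod_cast hL0
  have key : ∀ x : ℤ, zf w x = zf w' x → ∃ k : ℕ, k < ℓ ∧ w (x + k) ≠ w' (x + k) := by
    intro x hx
    by_contra hcon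
    push Not at hcon
    apply hne
    refine C1a hB N Q hG hℓ hsize hw hw' ht ht' hrel x hx ?_
    intro j hj1 hj2
    obtain ⟨k, hk⟩ : ∃ k : ℕ, j = x + k := ⟨(j - x).toNat, by omega⟩
    rw [hk]
    exact hcon k (by omega)
  choose! k hk1 hk2 using key
  have hmod : ∀ (v : ℤ → Option B), Per v L → ∀ j, v (j % L) = v j := by
    intro v hv j
    have h1 : j = j % L + (j / L) * L := by
      have := Int.emod_add_mul_ediv j L
      linarith
    have h2 : ∀ (q : ℤ) (z : ℤ), v (z + q * L) = v z := by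
      intro q z
      rcases Int.eq_nat_or_neg q with ⟨k, rfl | rfl⟩
      · exact Per.mul hv k z
      · have h3 := Per.mul hv k (z + -(k : ℤ) * L)
        rw [← h3]
        congr 1
        ring
    conv_rhs => rw [h1]
    exact (h2 _ _).symm
  have hsplit : ((Ico (0 : ℤ) L).filter (fun j => zf w j = zf w' j)).card + kd w w' L = L := by
    have h1 := card_filter_add_card_filter_not (s := Ico (0 : ℤ) L) (fun j => zf w j = zf w' j)
    rw [Int.card_Ico] at h1
    unfold kd
    simp only [sub_zero, Int.toNat_natCast] at h1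
    exact h1
  have hinj : ((Ico (0 : ℤ) L).filter (fun j => zf w j = zf w' j)).card ≤ dis w w' L * ℓ := by
    unfold dis
    have h1 : (((Ico (0 : ℤ) L).filter (fun j => w j ≠ w' j)) ×ˢ range ℓ).card =
        ((Ico (0 : ℤ) L).filter (fun j => w j ≠ w' j)).card * ℓ := by
      rw [card_product, card_range]
    rw [← h1]
    apply card_le_card_of_injOn (fun x => ((x + k x) % L, k x))
    · intro x hx
      rw [mem_coe, mem_filter, mem_Ico] at hx
      rw [mem_coe, mem_product, mem_filter, mem_Ico, mem_range]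
      refine ⟨⟨⟨Int.emod_nonneg _ hLz.ne', Int.emod_lt_of_pos _ hLz⟩, ?_⟩, hk1 x hx.2⟩
      change w ((x + k x) % L) ≠ w' ((x + k x) % L)
      rw [hmod w hw.per, hmod w' hw'.per]
      exact hk2 x hx.2
    · intro x hx x' hx' hxx
      rw [mem_coe, mem_filter, mem_Ico] at hx hx'
      have h2 : k x = k x' := congrArg Prod.snd hxx
      have h3 : (x + k x) % L = (x' + k x') % L := congrArg Prod.fst hxx
      rw [h2] at h3
      have h4 : x % L = x' % L := Int.ModEq.add_right_cancel' (k x' : ℤ) h3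
      rwa [Int.emod_eq_of_lt hx.1.1 hx.1.2, Int.emod_eq_of_lt hx'.1.1 hx'.1.2] at h4
  omega

end GC85
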