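import Mathlib
import Pool.Agent.Helper85.DN.CDefs
import Pool.Agent.Helper85.DN.Win
import Pool.Agent.Helper85.DN.Tree

/-!
# DN-C1b: counting pairs of typical words with equal coefficients modulo `G`

For each `p ∈ S` there is `x ∈ [0, L)` such that `[x, x + ℓ)` contains at most `U ℓ / L` differences (the
average over `x ∈ [0, L)` of the number of differences in `[x, x + ℓ)` is `U ℓ / L`). Fix
* `x` (`L` values), `k = zf p.1 x - zf p.2 x` (at most `4 L + 1` values: `Ty` on `[0, x]` for both words gives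
  `|k| ≤ 2 Del L`),
* the letters of `p.1` on `[x, x + ℓ)`: `(b + 1) ^ ℓ`,
* the set of the `j ≤ U ℓ / L` differences in `[x, x + ℓ)` and the letters of `p.2` there: `ℓ.choose j * (b + 1) ^ j`.
Then the number of letters `≠ none` of `p.1` and of `p.2` in `[x + ℓ, x + L)` is known (`s` minus the rest).
`win_id` at `x + ℓ`, `n = L - ℓ`, for `p.1` with `Z = zf p.1 (x + L) + K`, for `p.2` with
`Z' = zf p.2 (x + L) + K'`, `K, K'` the negative and positive parts of `k` such that `Z = Z'` (as `μ ^ Z` must be the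
same factor; `K, K' ≤ 2 Del L`). The remaining sums are known, `vc p.1 = vc p.2` in `ZMod G`
(`V_eq_vc`), so `xs(p.1) i - xs(p.2) i` is known modulo `G`; by `xs_bd_typ` two such differences differ by at most
`2 L (b + 1) ^ (L - ℓ) m ^ (3 Del L) < G`, so they are equal. `tree` with
`A q t = m ^ (K + s1 - #{j < t | q j ≠ none})` (`s1` = the number of letters `≠ none` of `p.1` in the
window), `A'` the same with `K', s1'`; at least `U - j` differences in the window: at most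
`3 ^ (U - j) (b + 1) ^ (L - ℓ - (U - j))` pairs.
-/

set_option autoImplicit false

namespace GC85

open Finset GC70

variable {B : Type} [Fintype B] [DecidableEq B]

omit [Fintype B] [DecidableEq B] in
private theorem C1b_ext {w w' : ℤ → Option B} {L : ℕ} (hL : 0 < L) (hw : Per w L)
    (hw' : Per w' L) (x : ℤ) (h : ∀ t : ℕ, t < L → w (x + t) = w' (x + t)) : w = w' := by
  funext j
  have h1 := Int.emod_nonneg (j - x) (show (L : ℤ) ≠ 0 by positivity)
  have h2 := Int.emod_lt_of_pos (j - x) (show (0 : ℤ) < L by positivity)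
  have h3 := Int.emod_add_mul_ediv (j - x) L
  obtain ⟨r, hr⟩ : ∃ r : ℕ, (r : ℤ) = (j - x) % L :=
    ⟨((j - x) % L).toNat, Int.toNat_of_nonneg h1⟩
  obtain ⟨q, hq⟩ : ∃ q : ℤ, q = (j - x) / L := ⟨_, rfl⟩
  have h4 : j = x + r + q * L := by
    rw [hr, hq]
    linarith
  rw [h4, hw.zmul, hw'.zmul]
  exact h r (by omega)

private theorem C1b_shift (g : ℤ → ℕ) (L : ℕ) (hg : ∀ y, g (y + L) = g y) (x : ℕ) :
    ∑ t ∈ range L, g ((x : ℤ) + (t : ℕ)) = ∑ t ∈ range L, g (t : ℕ) := by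
  induction x with
  | zero => simp
  | succ x ih =>
    rw [← ih]
    have h1 := Finset.sum_range_succ (fun t : ℕ => g ((x : ℤ) + (t : ℕ))) L
    have h2 := Finset.sum_range_succ' (fun t : ℕ => g ((x : ℤ) + (t : ℕ))) L
    have h3 : g ((x : ℤ) + (L : ℕ)) = g ((x : ℤ) + ((0 : ℕ) : ℤ)) := by rw [hg]; simp
    have h4 : ∑ t ∈ range L, g (((x + 1 : ℕ) : ℤ) + (t : ℕ)) =
        ∑ t ∈ range L, g ((x : ℤ) + ((t + 1 : ℕ) : ℤ)) := by
      refine sum_congr rfl fun t _ => ?_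
      congr 1
      push_cast
      ring
    rw [h4]
    omega

private theorem C1b_avg (g : ℤ → ℕ) (L ℓ U : ℕ) (hL : 0 < L) (hg : ∀ y, g (y + L) = g y)
    (hU : ∑ t ∈ range L, g (t : ℕ) = U) :
    ∃ x ∈ range L, ∑ t ∈ range ℓ, g ((x : ℤ) + (t : ℕ)) ≤ U * ℓ / L := by
  by_contra hcon
  push Not at hcon
  have h1 : ∑ x ∈ range L, ∑ t ∈ range ℓ, g ((x : ℤ) + (t : ℕ)) = ℓ * U := by
    rw [sum_comm]
    have h2 : ∀ t ∈ range ℓ, ∑ x ∈ range L, g ((x : ℤ) + (t : ℕ)) = U := by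
      intro t _
      rw [← hU, ← C1b_shift g L hg t]
      exact sum_congr rfl fun x _ => by rw [add_comm]
    rw [sum_congr rfl h2, sum_const, card_range, smul_eq_mul]
  have h2 : ∑ x ∈ range L, (U * ℓ / L + 1) ≤
      ∑ x ∈ range L, ∑ t ∈ range ℓ, g ((x : ℤ) + (t : ℕ)) :=
    sum_le_sum fun x hx => hcon x hx
  rw [h1, sum_const, card_range, smul_eq_mul] at h2
  have h3 := Nat.div_add_mod (U * ℓ) L
  have h4 := Nat.mod_lt (U * ℓ) hL
  have h5 : L * (U * ℓ / L + 1) = L * (U * ℓ / L) + L := by ring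
  have h6 : ℓ * U = U * ℓ := mul_comm _ _
  rw [h5, h6] at h2
  omega

omit [Fintype B] in
private theorem C1b_dis (w w' : ℤ → Option B) (n : ℕ) :
    dis w w' n = ∑ t ∈ range n, if w (t : ℕ) ≠ w' (t : ℕ) then 1 else 0 := by
  unfold dis
  induction n with
  | zero => simp
  | succ n ih =>
    have h1 : Ico (0 : ℤ) ((n + 1 : ℕ) : ℤ) = insert (n : ℤ) (Ico (0 : ℤ) n) := by
      rw [Nat.cast_add, Nat.cast_one, Finset.insert_Ico_right_eq_Ico_add_one (by omega)]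
    rw [h1, filter_insert, sum_range_succ, ← ih]
    split_ifs with h2
    · rw [card_insert_of_notMem (by simp)]
    · rw [add_zero]

omit [Fintype B] [DecidableEq B] in
private theorem C1b_mono (w : ℤ → Option B) : Monotone (zf w) := by
  apply monotone_int_of_le_succ
  intro j
  have h := zf_isZ w j
  split_ifs at h <;> omega

/-- number of letters other than `none` before the position `t` -/
private def C1b_cc {n : ℕ} (q : Fin n → Option B) (t : ℕ) : ℤ :=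
  ∑ j ∈ range t, if h : j < n then (if (q ⟨j, h⟩).isSome then 1 else 0) else 0

omit [Fintype B] [DecidableEq B] in
private theorem C1b_cnt {w : ℤ → Option B} {n : ℕ} {a : ℤ} {q : Fin n → Option B}
    (hq : ∀ t : Fin n, q t = w (a + (t : ℕ))) (t : ℕ) (ht : t ≤ n) :
    zf w (a + (t : ℕ)) = zf w a + C1b_cc q t := by
  induction t with
  | zero => simp [C1b_cc]
  | succ t ih =>
    have h1 := zf_isZ w (a + (t : ℕ))
    have h2 : a + ((t + 1 : ℕ) : ℤ) = a + (t : ℕ) + 1 := by push_cast; ring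
    rw [h2, h1, ih (by omega), C1b_cc, C1b_cc, sum_range_succ, dif_pos (by omega : t < n), hq]
    ring

omit [Fintype B] in
private theorem C1b_xs {d m : ℕ} {w : ℤ → Option B} {n : ℕ} {a Z : ℤ} {q : Fin n → Option B}
    (hq : ∀ t : Fin n, q t = w (a + (t : ℕ))) (i : B) :
    xs d m (zf w) Z a n w i = ∑ t : Fin n, (d : ℤ) ^ (t : ℕ) *
      (if q t = some i then (m : ℤ) ^ ((Z - zf w a - C1b_cc q t).toNat) else 0) := by
  rw [xs, Finset.sum_range]
  refine sum_congr rfl fun t _ => ?_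
  have h1 : Z - zf w (a + (t : ℕ)) = Z - zf w a - C1b_cc q t := by
    rw [C1b_cnt hq t t.2.le]
    ring
  rw [h1, hq t]

omit [Fintype B] [DecidableEq B] in
private theorem C1b_zdiff {w w' : ℤ → Option B} {x : ℤ} {ℓ : ℕ}
    (hu : ∀ t : ℕ, t < ℓ → w (x + (t : ℕ)) = w' (x + (t : ℕ))) (t : ℕ) (ht : t ≤ ℓ) :
    zf w (x + (t : ℕ)) - zf w x = zf w' (x + (t : ℕ)) - zf w' x := by
  induction t with
  | zero => simp
  | succ t ih =>
    have h1 := zf_isZ w (x + (t : ℕ))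
    have h2 := zf_isZ w' (x + (t : ℕ))
    have h3 : x + ((t + 1 : ℕ) : ℤ) = x + (t : ℕ) + 1 := by push_cast; ring
    have h4 := ih (by omega)
    rw [← hu t (by omega)] at h2
    rw [h3, h1, h2]
    linarith

omit [Fintype B] in
private theorem C1b_tail {g L s ℓ : ℕ} {δ μ : (ZMod g)ˣ} {w w' : ℤ → Option B} (hw : Wd w L s)
    (hw' : Wd w' L s) (hℓ : ℓ ≤ L) (x Z Z' : ℤ)
    (hu : ∀ t : ℕ, t < ℓ → w (x + (t : ℕ)) = w' (x + (t : ℕ)))
    (hZ : Z - zf w x = Z' - zf w' x) (i : B) :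
    ∑ j ∈ (Ico (x + ℓ + ((L - ℓ : ℕ) : ℤ)) (x + ℓ + L)).filter (fun j => w j = some i),
        ((δ ^ (j - (x + ℓ)) * μ ^ (Z - zf w j) : (ZMod g)ˣ) : ZMod g) =
      ∑ j ∈ (Ico (x + ℓ + ((L - ℓ : ℕ) : ℤ)) (x + ℓ + L)).filter (fun j => w' j = some i),
        ((δ ^ (j - (x + ℓ)) * μ ^ (Z' - zf w' j) : (ZMod g)ˣ) : ZMod g) := by
  have key : ∀ j ∈ Ico (x + ℓ + ((L - ℓ : ℕ) : ℤ)) (x + ℓ + L),
      w j = w' j ∧ Z - zf w j = Z' - zf w' j := by
    intro j hj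
    rw [mem_Ico] at hj
    obtain ⟨t, ht⟩ : ∃ t : ℕ, (t : ℤ) = j - x - L := ⟨(j - x - L).toNat, Int.toNat_of_nonneg (by omega)⟩
    have h1 : j = x + (t : ℕ) + L := by omega
    have h2 : t < ℓ := by omega
    rw [h1]
    have h3 := hw.per (x + (t : ℕ))
    have h4 := hw'.per (x + (t : ℕ))
    have h5 := hw.zf_add (x + (t : ℕ))
    have h6 := hw'.zf_add (x + (t : ℕ))
    have h7 := C1b_zdiff hu t h2.le
    rw [h3, h4, h5, h6]
    exact ⟨hu t h2, by linarith⟩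
  have hf : (Ico (x + ℓ + ((L - ℓ : ℕ) : ℤ)) (x + ℓ + L)).filter (fun j => w j = some i) =
      (Ico (x + ℓ + ((L - ℓ : ℕ) : ℤ)) (x + ℓ + L)).filter (fun j => w' j = some i) :=
    filter_congr fun j hj => by rw [(key j hj).1]
  rw [hf]
  refine sum_congr rfl fun j hj => ?_
  rw [(key j (mem_filter.mp hj).1).2]

private theorem C1b_pairs (ℓ j : ℕ) :
    ((univ : Finset ((Fin ℓ → Option B) × (Fin ℓ → Option B))).filter
      (fun q => (univ.filter (fun t => q.1 t ≠ q.2 t)).card = j)).card ≤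
      (Fintype.card B + 1) ^ ℓ * (ℓ.choose j * (Fintype.card B + 1) ^ j) := by
  classical
  have h1 : (univ : Finset ((Fin ℓ → Option B) × (Fin ℓ → Option B))).filter
      (fun q => (univ.filter (fun t => q.1 t ≠ q.2 t)).card = j) ⊆
      (univ : Finset (Fin ℓ → Option B)).biUnion (fun u =>
        ((univ : Finset (Fin ℓ)).powersetCard j).biUnion (fun D =>
          (Fintype.piFinset (fun t => if t ∈ D then (univ : Finset (Option B)) else {u t})).image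
            (fun u' => (u, u')))) := by
    intro q hq
    rw [mem_filter] at hq
    rw [mem_biUnion]
    refine ⟨q.1, mem_univ _, ?_⟩
    rw [mem_biUnion]
    refine ⟨univ.filter (fun t => q.1 t ≠ q.2 t), ?_, ?_⟩
    · rw [mem_powersetCard]
      exact ⟨subset_univ _, hq.2⟩
    · rw [mem_image]
      refine ⟨q.2, ?_, rfl⟩
      rw [Fintype.mem_piFinset]
      intro t
      split_ifs with h
      · exact mem_univ _
      · rw [mem_filter, not_and, not_not] at h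
        rw [mem_singleton]
        exact (h (mem_univ t)).symm
  refine (card_le_card h1).trans ?_
  refine (card_biUnion_le_card_mul _ _ (ℓ.choose j * (Fintype.card B + 1) ^ j) ?_).trans ?_
  · intro u _
    refine (card_biUnion_le_card_mul _ _ ((Fintype.card B + 1) ^ j) ?_).trans ?_
    · intro D hD
      rw [mem_powersetCard] at hD
      refine card_image_le.trans ?_
      rw [Fintype.card_piFinset]
      have h2 : ∀ t ∈ (univ : Finset (Fin ℓ)),
          (if t ∈ D then (univ : Finset (Option B)) else {u t}).card =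
            if t ∈ D then Fintype.card B + 1 else 1 := by
        intro t _
        split_ifs
        · rw [card_univ, Fintype.card_option]
        · rw [card_singleton]
      rw [prod_congr rfl h2, prod_ite_mem, univ_inter, prod_const, hD.2]
    · rw [card_powersetCard, card_univ, Fintype.card_fin]
  · rw [card_univ, Fintype.card_fun, Fintype.card_option, Fintype.card_fin]

/-- the exact relation in a fibre -/
private theorem C1b_exact {b m L s y ε M0 D G ℓ : ℕ} (N : NP b m L s y ε)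
    (Q : DP b m L s M0 D) (hG : G ∣ D) (hℓ : ℓ ≤ L)
    (hsize : 2 * L * (b + 1) ^ (L - ℓ) * m ^ (3 * Del L) < G)
    {w w' v v' : ℤ → Option B}
    (hw : Wd w L s) (hw' : Wd w' L s) (hwt : Ty b w L (Del L)) (hwt' : Ty b w' L (Del L))
    (hv : Wd v L s) (hv' : Wd v' L s) (hvt : Ty b v L (Del L)) (hvt' : Ty b v' L (Del L))
    (hr : ∀ i, (V (b + 1) m w L i : ZMod G) = V (b + 1) m w' L i)
    (hr' : ∀ i, (V (b + 1) m v L i : ZMod G) = V (b + 1) m v' L i)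
    (x : ℤ) (K K' : ℕ) (hK : K ≤ 2 * Del L) (hK' : K' ≤ 2 * Del L)
    (hk : zf w x + K = zf w' x + K') (hk' : zf v x + K = zf v' x + K')
    (hu : ∀ t : ℕ, t < ℓ → w (x + (t : ℕ)) = v (x + (t : ℕ)))
    (hu' : ∀ t : ℕ, t < ℓ → w' (x + (t : ℕ)) = v' (x + (t : ℕ))) (i : B) :
    xs (b + 1) m (zf w) (zf w (x + L) + K) (x + ℓ) (L - ℓ) w i -
      xs (b + 1) m (zf w') (zf w' (x + L) + K') (x + ℓ) (L - ℓ) w' i =
    xs (b + 1) m (zf v) (zf v (x + L) + K) (x + ℓ) (L - ℓ) v i -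
      xs (b + 1) m (zf v') (zf v' (x + L) + K') (x + ℓ) (L - ℓ) v' i := by
  obtain ⟨hs, hL⟩ := N.s_pos
  obtain ⟨hcd, hcm⟩ := Q.cop N hG
  have hle : m ^ s ≤ (b + 1) ^ L := by
    have := Q.le2
    omega
  obtain ⟨δ, μ, Un⟩ := exists_un hcd hcm hle (hG.trans Q.dvd)
  have hxL : x + ℓ + ((L - ℓ : ℕ) : ℤ) = x + L := by
    push_cast [Nat.cast_sub hℓ]
    ring
  have hwin : ∀ {w : ℤ → Option B} (_ : Wd w L s) (K : ℕ) (i : B),
      ((δ ^ (-(x + ℓ)) * μ ^ (zf w (x + L) + (K : ℤ)) : (ZMod G)ˣ) : ZMod G) * vc δ μ L w i =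
      ((xs (b + 1) m (zf w) (zf w (x + L) + K) (x + ℓ) (L - ℓ) w i : ℤ) : ZMod G) +
        ∑ j ∈ (Ico (x + ℓ + ((L - ℓ : ℕ) : ℤ)) (x + ℓ + L)).filter (fun j => w j = some i),
          ((δ ^ (j - (x + ℓ)) * μ ^ (zf w (x + L) + (K : ℤ) - zf w j) : (ZMod G)ˣ) : ZMod G) := by
    intro w hw K i
    refine win_id Un hw (x + ℓ) (L - ℓ) (Nat.sub_le _ _) (zf w (x + L) + K) ?_ i
    intro t ht
    have h1 : zf w (x + ℓ + t) ≤ zf w (x + L) := C1b_mono w (by omega)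
    linarith [Int.natCast_nonneg K]
  have hvc : ∀ {w w' : ℤ → Option B} (_ : Wd w L s) (_ : Wd w' L s)
      (_ : ∀ i, (V (b + 1) m w L i : ZMod G) = V (b + 1) m w' L i) (i : B),
      vc δ μ L w i = vc δ μ L w' i := by
    intro w w' hw hw' hr i
    have h1 := hr i
    rw [V_eq_vc Un hw hs, V_eq_vc Un hw' hs] at h1
    exact (Units.mul_right_inj _).mp h1
  have e1 := hwin hw K i
  have e2 := hwin hw' K' i
  have e3 := hwin hv K i
  have e4 := hwin hv' K' i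
  rw [hvc hw hw' hr i] at e1
  rw [hvc hv hv' hr' i] at e3
  have z1 : zf w (x + L) + (K : ℤ) = zf w' (x + L) + (K' : ℤ) := by
    rw [hw.zf_add, hw'.zf_add]
    linarith
  have z2 : zf v (x + L) + (K : ℤ) = zf v' (x + L) + (K' : ℤ) := by
    rw [hv.zf_add, hv'.zf_add]
    linarith
  have t1 := C1b_tail (δ := δ) (μ := μ) hw hv hℓ x (zf w (x + L) + K) (zf v (x + L) + K) hu
    (by rw [hw.zf_add, hv.zf_add]; ring) i
  have t2 := C1b_tail (δ := δ) (μ := μ) hw' hv' hℓ x (zf w' (x + L) + K') (zf v' (x + L) + K') hu'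
    (by rw [hw'.zf_add, hv'.zf_add]; ring) i
  rw [t1, z1] at e1
  rw [t2] at e2
  rw [z2] at e3
  obtain ⟨X1, hX1⟩ : ∃ X : ℤ, X = xs (b + 1) m (zf w) (zf w (x + L) + K) (x + ℓ) (L - ℓ) w i :=
    ⟨_, rfl⟩
  obtain ⟨X2, hX2⟩ : ∃ X : ℤ, X = xs (b + 1) m (zf w') (zf w' (x + L) + K') (x + ℓ) (L - ℓ) w' i :=
    ⟨_, rfl⟩
  obtain ⟨X3, hX3⟩ : ∃ X : ℤ, X = xs (b + 1) m (zf v) (zf v (x + L) + K) (x + ℓ) (L - ℓ) v i :=
    ⟨_, rfl⟩
  obtain ⟨X4, hX4⟩ : ∃ X : ℤ, X = xs (b + 1) m (zf v') (zf v' (x + L) + K') (x + ℓ) (L - ℓ) v' i :=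
    ⟨_, rfl⟩
  rw [← z1, ← hX1, z1] at e1
  rw [← hX2] at e2
  rw [← z2, ← hX3, z2] at e3
  rw [← hX4] at e4
  rw [z2] at e1
  have hmod : ((X1 - X2 - (X3 - X4) : ℤ) : ZMod G) = 0 := by
    push_cast
    linear_combination e2 - e1 + e3 - e4
  have hdvd : (G : ℤ) ∣ X1 - X2 - (X3 - X4) := (ZMod.intCast_zmod_eq_zero_iff_dvd _ _).mp hmod
  obtain ⟨M, hM⟩ : ∃ M : ℤ, M = (L : ℤ) * ((b : ℤ) + 1) ^ (L - ℓ) * (m : ℤ) ^ (3 * Del L) :=
    ⟨_, rfl⟩
  have hm0 : 0 < m := lt_of_lt_of_le (Nat.succ_pos b) N.dm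
  have hbd : ∀ {w : ℤ → Option B} (_ : Ty b w L (Del L)) (K : ℕ) (_ : K ≤ 2 * Del L),
      0 ≤ xs (b + 1) m (zf w) (zf w (x + L) + K) (x + ℓ) (L - ℓ) w i ∧
      xs (b + 1) m (zf w) (zf w (x + L) + K) (x + ℓ) (L - ℓ) w i ≤ M := by
    intro w hw K hK
    have h1 := xs_bd_typ hm0 N.hm hw (x + ℓ) (L - ℓ) K (Nat.sub_le _ _) i
    rw [hxL] at h1
    refine ⟨h1.1, h1.2.trans ?_⟩
    rw [hM]
    have h2 : (m : ℤ) ^ (Del L + K) ≤ (m : ℤ) ^ (3 * Del L) :=
      pow_le_pow_right₀ (by exact_mod_cast hm0) (by omega)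
    have h3 : ((L - ℓ : ℕ) : ℤ) ≤ L := by exact_mod_cast Nat.sub_le _ _
    have h4 : (0 : ℤ) ≤ ((b : ℤ) + 1) ^ (L - ℓ) := by positivity
    have h5 : (0 : ℤ) ≤ (m : ℤ) ^ (3 * Del L) := by positivity
    calc ((L - ℓ : ℕ) : ℤ) * ((b : ℤ) + 1) ^ (L - ℓ) * (m : ℤ) ^ (Del L + K)
        ≤ ((L - ℓ : ℕ) : ℤ) * ((b : ℤ) + 1) ^ (L - ℓ) * (m : ℤ) ^ (3 * Del L) :=
          mul_le_mul_of_nonneg_left h2 (mul_nonneg (Int.natCast_nonneg _) h4)
      _ ≤ (L : ℤ) * ((b : ℤ) + 1) ^ (L - ℓ) * (m : ℤ) ^ (3 * Del L) :=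
          mul_le_mul_of_nonneg_right (mul_le_mul_of_nonneg_right h3 h4) h5
  have b1 := hbd hwt K hK
  have b2 := hbd hwt' K' hK'
  have b3 := hbd hvt K hK
  have b4 := hbd hvt' K' hK'
  rw [← hX1] at b1
  rw [← hX2] at b2
  rw [← hX3] at b3
  rw [← hX4] at b4
  have hMG : 2 * M < G := by
    rw [hM]
    have h1 : ((2 * L * (b + 1) ^ (L - ℓ) * m ^ (3 * Del L) : ℕ) : ℤ) < G := by
      exact_mod_cast hsize
    push_cast at h1
    linarith
  have hzero : X1 - X2 - (X3 - X4) = 0 := by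
    apply Int.eq_zero_of_abs_lt_dvd hdvd
    rw [abs_lt]
    constructor
    · linarith [b1.1, b2.2, b3.2, b4.1]
    · linarith [b1.2, b2.1, b3.1, b4.2]
  rw [← hX1, ← hX2, ← hX3, ← hX4]
  linarith

private theorem C1b_fib {b m L s y ε M0 D G ℓ : ℕ} (hB : Fintype.card B = b) (N : NP b m L s y ε)
    (Q : DP b m L s M0 D) (hG : G ∣ D) (hℓ : ℓ ≤ L)
    (hsize : 2 * L * (b + 1) ^ (L - ℓ) * m ^ (3 * Del L) < G) (U j : ℕ)
    (F : Finset ((ℤ → Option B) × (ℤ → Option B)))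
    (hS : ∀ p ∈ F, Wd p.1 L s ∧ Wd p.2 L s ∧ Ty b p.1 L (Del L) ∧ Ty b p.2 L (Del L))
    (hrel : ∀ p ∈ F, ∀ i, (V (b + 1) m p.1 L i : ZMod G) = V (b + 1) m p.2 L i)
    (hU : ∀ p ∈ F, dis p.1 p.2 L = U)
    (x : ℕ) (k : ℤ) (u u' : Fin ℓ → Option B)
    (hk : ∀ p ∈ F, zf p.1 x - zf p.2 x = k) (hk2 : |k| ≤ 2 * (Del L : ℤ))
    (hu : ∀ p ∈ F, ∀ t : Fin ℓ, u t = p.1 ((x : ℤ) + (t : ℕ)))
    (hu' : ∀ p ∈ F, ∀ t : Fin ℓ, u' t = p.2 ((x : ℤ) + (t : ℕ)))
    (hj : (univ.filter (fun t => u t ≠ u' t)).card = j) :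
    F.card * (b + 1) ^ (U - j) ≤ 3 ^ (U - j) * (b + 1) ^ (L - ℓ) := by
  classical
  rcases F.eq_empty_or_nonempty with hF | ⟨p0, hp0⟩
  · rw [hF, card_empty, zero_mul]
    exact Nat.zero_le _
  obtain ⟨hs, hL⟩ := N.s_pos
  rw [abs_le] at hk2
  obtain ⟨K, hKd⟩ : ∃ K : ℕ, K = (-k).toNat := ⟨_, rfl⟩
  obtain ⟨K', hKd'⟩ : ∃ K : ℕ, K = k.toNat := ⟨_, rfl⟩
  have hK : K ≤ 2 * Del L := by omega
  have hK' : K' ≤ 2 * Del L := by omega
  have hKK : (K : ℤ) = K' - k := by omega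
  let A : (Fin (L - ℓ) → Option B) → Fin (L - ℓ) → ℤ := fun q t =>
    (m : ℤ) ^ (((K : ℤ) + s - C1b_cc u ℓ - C1b_cc q t).toNat)
  let A' : (Fin (L - ℓ) → Option B) → Fin (L - ℓ) → ℤ := fun q t =>
    (m : ℤ) ^ (((K' : ℤ) + s - C1b_cc u' ℓ - C1b_cc q t).toNat)
  have hcop : ∀ e : ℕ, IsCoprime ((m : ℤ) ^ e) (((b + 1 : ℕ) : ℤ)) := fun e =>
    (Nat.isCoprime_iff_coprime.mpr N.cop).pow_left
  have hcc : ∀ (y y2 : Fin (L - ℓ) → Option B) (t : Fin (L - ℓ)), (∀ j ≤ t, y j = y2 j) →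
      C1b_cc y t = C1b_cc y2 t := by
    intro y y2 t h
    unfold C1b_cc
    refine sum_congr rfl fun j hj => ?_
    rw [mem_range] at hj
    have hjn : j < L - ℓ := hj.trans t.2
    rw [dif_pos hjn, dif_pos hjn, h ⟨j, hjn⟩ (Fin.le_def.mpr hj.le)]
  let c : B → ℤ := fun i =>
    xs (b + 1) m (zf p0.1) (zf p0.1 (x + L) + K) (x + ℓ) (L - ℓ) p0.1 i -
      xs (b + 1) m (zf p0.2) (zf p0.2 (x + L) + K') (x + ℓ) (L - ℓ) p0.2 i
  let φ : ((ℤ → Option B) × (ℤ → Option B)) →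
      (Fin (L - ℓ) → Option B) × (Fin (L - ℓ) → Option B) := fun p =>
    (fun t => p.1 ((x : ℤ) + ℓ + (t : ℕ)), fun t => p.2 ((x : ℤ) + ℓ + (t : ℕ)))
  have hinj : Set.InjOn φ F := by
    intro p hp q hq hpq
    have hp' := Finset.mem_coe.mp hp
    have hq' := Finset.mem_coe.mp hq
    have g1 : ∀ t : ℕ, t < L → p.1 ((x : ℤ) + (t : ℕ)) = q.1 ((x : ℤ) + (t : ℕ)) := by
      intro t ht
      by_cases htl : t < ℓ
      · have h1 := hu p hp' ⟨t, htl⟩
        have h2 := hu q hq' ⟨t, htl⟩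
        exact h1.symm.trans h2
      · have h1 := congrFun (congrArg Prod.fst hpq) ⟨t - ℓ, by omega⟩
        have h2 : (x : ℤ) + ℓ + ((t - ℓ : ℕ) : ℤ) = x + (t : ℕ) := by
          push_cast [Nat.cast_sub (not_lt.mp htl)]
          ring
        change p.1 ((x : ℤ) + ℓ + ((t - ℓ : ℕ) : ℤ)) = q.1 ((x : ℤ) + ℓ + ((t - ℓ : ℕ) : ℤ)) at h1
        rwa [h2] at h1
    have g2 : ∀ t : ℕ, t < L → p.2 ((x : ℤ) + (t : ℕ)) = q.2 ((x : ℤ) + (t : ℕ)) := by
      intro t ht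
      by_cases htl : t < ℓ
      · have h1 := hu' p hp' ⟨t, htl⟩
        have h2 := hu' q hq' ⟨t, htl⟩
        exact h1.symm.trans h2
      · have h1 := congrFun (congrArg Prod.snd hpq) ⟨t - ℓ, by omega⟩
        have h2 : (x : ℤ) + ℓ + ((t - ℓ : ℕ) : ℤ) = x + (t : ℕ) := by
          push_cast [Nat.cast_sub (not_lt.mp htl)]
          ring
        change p.2 ((x : ℤ) + ℓ + ((t - ℓ : ℕ) : ℤ)) = q.2 ((x : ℤ) + ℓ + ((t - ℓ : ℕ) : ℤ)) at h1
        rwa [h2] at h1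
    exact Prod.ext (C1b_ext hL (hS p hp').1.per (hS q hq').1.per x g1)
      (C1b_ext hL (hS p hp').2.1.per (hS q hq').2.1.per x g2)
  have hz : ∀ {w : ℤ → Option B} (_ : Wd w L s) (v : Fin ℓ → Option B)
      (_ : ∀ t : Fin ℓ, v t = w ((x : ℤ) + (t : ℕ))) (K : ℕ),
      zf w (x + L) + K - zf w (x + ℓ) = (K : ℤ) + s - C1b_cc v ℓ := by
    intro w hw v hv K
    rw [hw.zf_add, C1b_cnt hv ℓ le_rfl]
    ring
  have htree := tree (d := b + 1) (by have := N.b1; omega) (by rw [hB]) (L - ℓ) (U - j) A A'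
    (fun y y2 t h => by
      change (m : ℤ) ^ _ = (m : ℤ) ^ _
      rw [hcc y y2 t h])
    (fun y y2 t h => by
      change (m : ℤ) ^ _ = (m : ℤ) ^ _
      rw [hcc y y2 t h])
    (fun y t => hcop _) (fun y t => hcop _) c (F.image φ)
    (by
      intro q hq i
      rw [mem_image] at hq
      obtain ⟨p, hp, rfl⟩ := hq
      obtain ⟨a1, a2, a3, a4⟩ := hS p hp
      obtain ⟨b1, b2, b3, b4⟩ := hS p0 hp0
      have hex := C1b_exact N Q hG hℓ hsize a1 a2 a3 a4 b1 b2 b3 b4 (hrel p hp) (hrel p0 hp0)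
        x K K' hK hK' (by have := hk p hp; linarith) (by have := hk p0 hp0; linarith)
        (fun t ht => (hu p hp ⟨t, ht⟩).symm.trans (hu p0 hp0 ⟨t, ht⟩))
        (fun t ht => (hu' p hp ⟨t, ht⟩).symm.trans (hu' p0 hp0 ⟨t, ht⟩)) i
      change _ = xs (b + 1) m (zf p0.1) (zf p0.1 (x + L) + K) (x + ℓ) (L - ℓ) p0.1 i -
        xs (b + 1) m (zf p0.2) (zf p0.2 (x + L) + K') (x + ℓ) (L - ℓ) p0.2 i
      rw [← hex]
      rw [C1b_xs (q := (φ p).1) (fun t => rfl), C1b_xs (q := (φ p).2) (fun t => rfl),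
        ← sum_sub_distrib]
      refine sum_congr rfl fun t _ => ?_
      rw [hz a1 u (hu p hp) K, hz a2 u' (hu' p hp) K', mul_sub])
    (by
      intro q hq
      rw [mem_image] at hq
      obtain ⟨p, hp, rfl⟩ := hq
      have h1 := C1b_shift (fun r => if p.1 r ≠ p.2 r then 1 else 0) L
        (fun r => by rw [(hS p hp).1.per, (hS p hp).2.1.per]) x
      have h2 := C1b_dis p.1 p.2 L
      rw [hU p hp] at h2
      rw [← h2] at h1
      obtain ⟨n, hn⟩ : ∃ n, L = ℓ + n := ⟨L - ℓ, by omega⟩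
      have hn' : L - ℓ = n := by omega
      rw [hn, sum_range_add] at h1
      have h3 : ∑ t ∈ range ℓ, (if p.1 ((x : ℤ) + (t : ℕ)) ≠ p.2 ((x : ℤ) + (t : ℕ))
          then 1 else 0) = j := by
        rw [← hj, card_filter, Finset.sum_range]
        refine sum_congr rfl fun t _ => ?_
        rw [hu p hp t, hu' p hp t]
      have h4 : (univ.filter (fun t => (φ p).1 t ≠ (φ p).2 t)).card =
          ∑ t ∈ range n, (if p.1 ((x : ℤ) + ((ℓ + t : ℕ) : ℤ)) ≠ p.2 ((x : ℤ) + ((ℓ + t : ℕ) : ℤ))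
            then 1 else 0) := by
        rw [card_filter, ← hn', Finset.sum_range]
        refine sum_congr rfl fun t _ => ?_
        have h5 : (x : ℤ) + ((ℓ + (t : ℕ) : ℕ) : ℤ) = x + ℓ + (t : ℕ) := by
          push_cast
          ring
        rw [h5]
      rw [h4]
      rw [h3] at h1
      omega)
  rwa [card_image_of_injOn hinj] at htree

theorem C1b {b m L s y ε M0 D G ℓ : ℕ} (hB : Fintype.card B = b) (N : NP b m L s y ε)
    (Q : DP b m L s M0 D) (hG : G ∣ D) (hℓ : ℓ ≤ L)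
    (hsize : 2 * L * (b + 1) ^ (L - ℓ) * m ^ (3 * Del L) < G) (U : ℕ)
    (S : Finset ((ℤ → Option B) × (ℤ → Option B)))
    (hS : ∀ p ∈ S, Wd p.1 L s ∧ Wd p.2 L s ∧ Ty b p.1 L (Del L) ∧ Ty b p.2 L (Del L))
    (hrel : ∀ p ∈ S, ∀ i, (V (b + 1) m p.1 L i : ZMod G) = V (b + 1) m p.2 L i)
    (hU : ∀ p ∈ S, dis p.1 p.2 L = U) :
    S.card * (b + 1) ^ U ≤ L * (4 * L + 1) * 3 ^ U * (b + 1) ^ L *
      ∑ j ∈ range (U * ℓ / L + 1), ℓ.choose j * (b + 1) ^ (2 * j) := by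
  classical
  obtain ⟨hs, hL⟩ := N.s_pos
  have hDel : Del L ≤ L := Nat.div_le_self _ _
  -- choice of the window
  have hwin : ∀ p : (ℤ → Option B) × (ℤ → Option B), ∃ x : ℕ, p ∈ S → x ∈ range L ∧
      ∑ t ∈ range ℓ, (if p.1 ((x : ℤ) + (t : ℕ)) ≠ p.2 ((x : ℤ) + (t : ℕ)) then 1 else 0) ≤
        U * ℓ / L := by
    intro p
    by_cases hp : p ∈ S
    · have h2 := C1b_dis p.1 p.2 L
      rw [hU p hp] at h2
      obtain ⟨x, hx, hx2⟩ := C1b_avg (fun r => if p.1 r ≠ p.2 r then 1 else 0) L ℓ U hL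
        (fun r => by rw [(hS p hp).1.per, (hS p hp).2.1.per]) h2.symm
      exact ⟨x, fun _ => ⟨hx, hx2⟩⟩
    · exact ⟨0, fun h => absurd h hp⟩
  choose X hX using hwin
  let dq : (Fin ℓ → Option B) × (Fin ℓ → Option B) → ℕ := fun q =>
    (univ.filter (fun t => q.1 t ≠ q.2 t)).card
  let f : ((ℤ → Option B) × (ℤ → Option B)) →
      (ℕ × ℤ) × ((Fin ℓ → Option B) × (Fin ℓ → Option B)) := fun p =>
    ((X p, zf p.1 (X p) - zf p.2 (X p)),
      (fun t => p.1 ((X p : ℤ) + (t : ℕ)), fun t => p.2 ((X p : ℤ) + (t : ℕ))))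
  let T : Finset ((ℕ × ℤ) × ((Fin ℓ → Option B) × (Fin ℓ → Option B))) :=
    ((range L) ×ˢ (Icc (-(2 * (Del L : ℤ))) (2 * (Del L : ℤ)))) ×ˢ
      (univ.filter (fun q => dq q ≤ U * ℓ / L))
  have hmaps : ∀ p ∈ S, f p ∈ T := by
    intro p hp
    obtain ⟨h1, h2⟩ := hX p hp
    obtain ⟨a1, a2, a3, a4⟩ := hS p hp
    rw [mem_product, mem_product]
    refine ⟨⟨h1, ?_⟩, ?_⟩
    · rw [mem_range] at h1
      have h3 := a3 0 (X p) (by omega) (by omega)
      have h4 := a4 0 (X p) (by omega) (by omega)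
      rw [zf_zero, sub_zero, abs_le] at h3 h4
      change zf p.1 (X p) - zf p.2 (X p) ∈ _
      rw [mem_Icc]
      have hb : (0 : ℤ) < (b : ℤ) + 1 := by positivity
      constructor
      · by_contra hcon
        push Not at hcon
        have := mul_lt_mul_of_pos_left hcon hb
        linarith [h3.1, h3.2, h4.1, h4.2]
      · by_contra hcon
        push Not at hcon
        have := mul_lt_mul_of_pos_left hcon hb
        linarith [h3.1, h3.2, h4.1, h4.2]
    · rw [mem_filter]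
      refine ⟨mem_univ _, ?_⟩
      change (univ.filter (fun t : Fin ℓ => p.1 ((X p : ℤ) + (t : ℕ)) ≠
        p.2 ((X p : ℤ) + (t : ℕ)))).card ≤ U * ℓ / L
      rw [card_filter]
      rw [Finset.sum_range] at h2
      exact h2
  have hfib : ∀ q ∈ T, (S.filter (fun p => f p = q)).card * (b + 1) ^ U ≤
      3 ^ U * (b + 1) ^ (L - ℓ) * (b + 1) ^ (dq q.2) := by
    intro q hq
    rw [mem_product, mem_product] at hq
    obtain ⟨⟨hq1, hq2⟩, hq3⟩ := hq
    rw [mem_Icc] at hq2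
    have h1 := C1b_fib hB N Q hG hℓ hsize U (dq q.2) (S.filter (fun p => f p = q))
      (fun p hp => hS p (mem_filter.mp hp).1) (fun p hp => hrel p (mem_filter.mp hp).1)
      (fun p hp => hU p (mem_filter.mp hp).1) q.1.1 q.1.2 q.2.1 q.2.2
      (fun p hp => by
        rw [← (mem_filter.mp hp).2])
      (abs_le.mpr hq2)
      (fun p hp t => by
        rw [← (mem_filter.mp hp).2])
      (fun p hp t => by
        rw [← (mem_filter.mp hp).2])
      rfl
    have hb1 : 1 ≤ b + 1 := by omega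
    calc (S.filter (fun p => f p = q)).card * (b + 1) ^ U
        ≤ (S.filter (fun p => f p = q)).card * (b + 1) ^ (U - dq q.2 + dq q.2) :=
          Nat.mul_le_mul_left _ (Nat.pow_le_pow_right hb1 (by omega))
      _ = (S.filter (fun p => f p = q)).card * (b + 1) ^ (U - dq q.2) * (b + 1) ^ (dq q.2) := by
          rw [pow_add, mul_assoc]
      _ ≤ 3 ^ (U - dq q.2) * (b + 1) ^ (L - ℓ) * (b + 1) ^ (dq q.2) :=
          Nat.mul_le_mul_right _ h1
      _ ≤ 3 ^ U * (b + 1) ^ (L - ℓ) * (b + 1) ^ (dq q.2) :=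
          Nat.mul_le_mul_right _ (Nat.mul_le_mul_right _
            (Nat.pow_le_pow_right (by norm_num) (Nat.sub_le _ _)))
  have hsumq : ∑ q ∈ univ.filter (fun q => dq q ≤ U * ℓ / L), (b + 1) ^ (dq q) ≤
      (b + 1) ^ ℓ * ∑ j ∈ range (U * ℓ / L + 1), ℓ.choose j * (b + 1) ^ (2 * j) := by
    rw [← sum_fiberwise_of_maps_to (s := univ.filter (fun q => dq q ≤ U * ℓ / L))
      (t := range (U * ℓ / L + 1)) (g := dq)
      (fun q hq => by
        rw [mem_filter] at hq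
        rw [mem_range]
        omega), mul_sum]
    refine sum_le_sum fun j _ => ?_
    have h1 := C1b_pairs (B := B) ℓ j
    rw [hB] at h1
    calc ∑ q ∈ (univ.filter (fun q => dq q ≤ U * ℓ / L)).filter (fun q => dq q = j),
          (b + 1) ^ (dq q)
        = ∑ q ∈ (univ.filter (fun q => dq q ≤ U * ℓ / L)).filter (fun q => dq q = j),
          (b + 1) ^ j := sum_congr rfl fun q hq => by rw [(mem_filter.mp hq).2]
      _ = ((univ.filter (fun q => dq q ≤ U * ℓ / L)).filter (fun q => dq q = j)).card *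
          (b + 1) ^ j := by rw [sum_const, smul_eq_mul]
      _ ≤ ((univ : Finset ((Fin ℓ → Option B) × (Fin ℓ → Option B))).filter
          (fun q => dq q = j)).card * (b + 1) ^ j := by
          apply Nat.mul_le_mul_right
          apply card_le_card
          exact filter_subset_filter _ (filter_subset _ _)
      _ ≤ (b + 1) ^ ℓ * (ℓ.choose j * (b + 1) ^ j) * (b + 1) ^ j := Nat.mul_le_mul_right _ h1
      _ = (b + 1) ^ ℓ * (ℓ.choose j * (b + 1) ^ (2 * j)) := by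
          rw [two_mul, pow_add]
          ring
  have hIcc : (Icc (-(2 * (Del L : ℤ))) (2 * (Del L : ℤ))).card ≤ 4 * L + 1 := by
    rw [Int.card_Icc]
    omega
  rw [card_eq_sum_card_fiberwise (f := f) (t := T) (fun p hp => hmaps p hp), sum_mul]
  calc ∑ q ∈ T, (S.filter (fun p => f p = q)).card * (b + 1) ^ U
      ≤ ∑ q ∈ T, 3 ^ U * (b + 1) ^ (L - ℓ) * (b + 1) ^ (dq q.2) := sum_le_sum hfib
    _ = (L * (Icc (-(2 * (Del L : ℤ))) (2 * (Del L : ℤ))).card) * (3 ^ U * (b + 1) ^ (L - ℓ) *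
        ∑ q ∈ univ.filter (fun q => dq q ≤ U * ℓ / L), (b + 1) ^ (dq q)) := by
        have e : ∀ r ∈ (range L) ×ˢ (Icc (-(2 * (Del L : ℤ))) (2 * (Del L : ℤ))),
            ∑ q ∈ univ.filter (fun q => dq q ≤ U * ℓ / L),
              3 ^ U * (b + 1) ^ (L - ℓ) * (b + 1) ^ (dq (r, q).2) =
            3 ^ U * (b + 1) ^ (L - ℓ) *
              ∑ q ∈ univ.filter (fun q => dq q ≤ U * ℓ / L), (b + 1) ^ (dq q) :=
          fun r _ => by rw [mul_sum]
        rw [sum_product, sum_congr rfl e, sum_const, card_product, card_range, smul_eq_mul]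
    _ ≤ (L * (4 * L + 1)) * (3 ^ U * (b + 1) ^ (L - ℓ) *
        ((b + 1) ^ ℓ * ∑ j ∈ range (U * ℓ / L + 1), ℓ.choose j * (b + 1) ^ (2 * j))) :=
        Nat.mul_le_mul (Nat.mul_le_mul_left _ hIcc) (Nat.mul_le_mul_left _ hsumq)
    _ = L * (4 * L + 1) * 3 ^ U * (b + 1) ^ L *
        ∑ j ∈ range (U * ℓ / L + 1), ℓ.choose j * (b + 1) ^ (2 * j) := by
        have h1 : (b + 1) ^ L = (b + 1) ^ (L - ℓ) * (b + 1) ^ ℓ := by
          rw [← pow_add]
          congr 1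
          omega
        rw [h1]
        ring

end GC85
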