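import Mathlib
import Pool.Agent.Helper85.DN.Defs

/-!
# DN-Energy8: the additive energy of independent coefficients

`Uq8 c`: integer relations with coefficients `|a j| ≤ 8` between the `c j` are trivial.

`energy8`: for each `i : B`, the integers `a j = #{k < 8 | F k j = i} - #{k ≥ 8 | F k j = i}` are at most
8 in absolute value and `∑ a j • c j = 0`, so they vanish: for each `j` the multisets `{F k j | k < 8}` and
`{F k j | k ≥ 8}` are equal, i.e. one of the two lists is a permutation of the other. For one `j` this happens for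
at most `8! b ^ 8` of the functions `Fin 16 → B`; the condition is a product over `j`.
-/

set_option autoImplicit false

namespace GC85

open Finset GC70

variable {B : Type} [Fintype B] [DecidableEq B]

/-- uniqueness of the coefficients of absolute value at most 8 -/
def Uq8 {J M : Type} [Fintype J] [AddCommGroup M] (c : J → M) : Prop :=
  ∀ a : J → ℤ, (∀ j, |a j| ≤ 8) → ∑ j, a j • c j = 0 → ∀ j, a j = 0

omit [Fintype B] in
/-- two families with the same fibre cardinalities differ by a permutation -/
private theorem Energy8_perm {K : Type} [Fintype K] [DecidableEq K] (y z : K → B)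
    (h : ∀ i, Fintype.card {k // z k = i} = Fintype.card {k // y k = i}) :
    ∃ σ : Equiv.Perm K, ∀ k, z k = y (σ k) := by
  let e : ∀ i, {k // z k = i} ≃ {k // y k = i} := fun i => Fintype.equivOfCardEq (h i)
  refine ⟨(Equiv.sigmaFiberEquiv z).symm.trans
    ((Equiv.sigmaCongrRight e).trans (Equiv.sigmaFiberEquiv y)), fun k => ?_⟩
  have h1 := (e (z k) ⟨k, rfl⟩).2
  exact h1.symm

/-- the 16-tuples whose first half is a permutation of the second half -/
private def Energy8_Q (B : Type) [Fintype B] [DecidableEq B] : Finset (Fin (8 + 8) → B) :=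
  (univ : Finset (Equiv.Perm (Fin 8) × (Fin 8 → B))).image
    (fun p => Fin.append p.2 (fun k => p.2 (p.1 k)))

private theorem Energy8_card : (Energy8_Q B).card ≤ Nat.factorial 8 * Fintype.card B ^ 8 := by
  refine card_image_le.trans ?_
  rw [card_univ, Fintype.card_prod, Fintype.card_perm, Fintype.card_fin, Fintype.card_fun,
    Fintype.card_fin]

private theorem Energy8_mem (x : Fin (8 + 8) → B)
    (h : ∀ i, (∑ k : Fin 8, if x (Fin.castAdd 8 k) = i then (1 : ℤ) else 0) -
      (∑ k : Fin 8, if x (Fin.natAdd 8 k) = i then (1 : ℤ) else 0) = 0) :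
    x ∈ Energy8_Q B := by
  obtain ⟨σ, hσ⟩ := Energy8_perm (fun k => x (Fin.castAdd 8 k)) (fun k => x (Fin.natAdd 8 k)) (by
    intro i
    have h1 := h i
    rw [Fintype.card_subtype, Fintype.card_subtype]
    rw [sub_eq_zero, Finset.sum_boole, Finset.sum_boole] at h1
    exact_mod_cast h1.symm)
  unfold Energy8_Q
  refine mem_image.2 ⟨(σ, fun k => x (Fin.castAdd 8 k)), mem_univ _, ?_⟩
  funext k
  refine Fin.addCases (fun k => ?_) (fun k => ?_) k
  · rw [Fin.append_left]
  · rw [Fin.append_right]
    exact (hσ k).symm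

private theorem Energy8_left {M : Type} [AddCommMonoid M] (f : Fin 16 → M) :
    ∑ k ∈ univ.filter (fun k : Fin 16 => (k : ℕ) < 8), f k = ∑ k : Fin 8, f (Fin.castAdd 8 k) := by
  rw [sum_filter]
  have h := Fin.sum_univ_add (a := 8) (b := 8) (fun k : Fin (8 + 8) => if (k : ℕ) < 8 then f k else 0)
  refine h.trans ?_
  have h2 : ∑ k : Fin 8, (if ((Fin.natAdd 8 k : Fin (8 + 8)) : ℕ) < 8 then f (Fin.natAdd 8 k) else 0)
      = 0 := by
    refine sum_eq_zero fun k _ => ?_
    rw [if_neg]
    simp
  rw [h2, add_zero]
  refine sum_congr rfl fun k _ => ?_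
  rw [if_pos]
  simp

private theorem Energy8_right {M : Type} [AddCommMonoid M] (f : Fin 16 → M) :
    ∑ k ∈ univ.filter (fun k : Fin 16 => ¬ (k : ℕ) < 8), f k = ∑ k : Fin 8, f (Fin.natAdd 8 k) := by
  rw [sum_filter]
  have h := Fin.sum_univ_add (a := 8) (b := 8)
    (fun k : Fin (8 + 8) => if ¬ (k : ℕ) < 8 then f k else 0)
  refine h.trans ?_
  have h2 : ∑ k : Fin 8, (if ¬ ((Fin.castAdd 8 k : Fin (8 + 8)) : ℕ) < 8 then f (Fin.castAdd 8 k)
      else 0) = 0 := by
    refine sum_eq_zero fun k _ => ?_
    rw [if_neg]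
    simp
  rw [h2, zero_add]
  refine sum_congr rfl fun k _ => ?_
  rw [if_pos]
  simp

theorem energy8 {J M : Type} [Fintype J] [DecidableEq J] [AddCommGroup M] [DecidableEq M]
    (c : J → M) (hc : Uq8 c) :
    ((univ : Finset (Fin 16 → (J → B))).filter (fun F =>
      ∑ k ∈ univ.filter (fun k : Fin 16 => (k : ℕ) < 8), Vf c (F k) =
        ∑ k ∈ univ.filter (fun k : Fin 16 => ¬ (k : ℕ) < 8), Vf c (F k))).card ≤
      (Nat.factorial 8 * Fintype.card B ^ 8) ^ Fintype.card J := by
  have h1 : ((univ : Finset (Fin 16 → (J → B))).filter (fun F =>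
      ∑ k ∈ univ.filter (fun k : Fin 16 => (k : ℕ) < 8), Vf c (F k) =
        ∑ k ∈ univ.filter (fun k : Fin 16 => ¬ (k : ℕ) < 8), Vf c (F k))).card ≤
      (Fintype.piFinset (fun _ : J => Energy8_Q B)).card := by
    apply card_le_card_of_injOn (fun F => fun j => fun k => F k j)
    · intro F hF
      simp only [coe_filter, mem_univ, true_and, Set.mem_ofPred_eq] at hF
      rw [mem_coe, Fintype.mem_piFinset]
      rw [Energy8_left, Energy8_right] at hF
      intro j
      refine Energy8_mem _ fun i => ?_
      refine hc (fun j => (∑ k : Fin 8, if F (Fin.castAdd 8 k) j = i then (1 : ℤ) else 0) -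
        (∑ k : Fin 8, if F (Fin.natAdd 8 k) j = i then (1 : ℤ) else 0)) ?_ ?_ j
      · intro j
        have b1 : ∀ g : Fin 8 → B, 0 ≤ (∑ k : Fin 8, if g k = i then (1 : ℤ) else 0) ∧
            (∑ k : Fin 8, if g k = i then (1 : ℤ) else 0) ≤ 8 := by
          intro g
          constructor
          · exact sum_nonneg fun k _ => by split_ifs <;> norm_num
          · calc (∑ k : Fin 8, if g k = i then (1 : ℤ) else 0) ≤ ∑ k : Fin 8, (1 : ℤ) :=
                sum_le_sum fun k _ => by split_ifs <;> norm_num
              _ = 8 := by simp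
        have b2 := b1 fun k => F (Fin.castAdd 8 k) j
        have b3 := b1 fun k => F (Fin.natAdd 8 k) j
        rw [abs_le]
        constructor
        · linarith [b2.1, b3.2]
        · linarith [b2.2, b3.1]
      · have h2 := congrFun hF i
        simp only [Finset.sum_apply, Vf_eq] at h2
        rw [sum_comm, sum_comm (s := (univ : Finset (Fin 8))) (t := (univ : Finset J))
          (f := fun k j => (if F (Fin.natAdd 8 k) j = i then (1 : ℤ) else 0) • c j)] at h2
        simp only [sub_smul, sum_sub_distrib, Finset.sum_smul]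
        rw [h2, sub_self]
    · intro F _ F' _ heq
      funext k j
      exact congrFun (congrFun heq j) k
  refine h1.trans ?_
  rw [Fintype.card_piFinset, prod_const, card_univ]
  exact Nat.pow_le_pow_left Energy8_card _

end GC85
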