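import Mathlib
import Pool.Agent.Helper85.DN.Energy8

/-!
# DN-SupF: the sup bound from 16 independent blocks (Fourier analysis)

`sup16`: let `e = ZMod.stdAddChar`, for `ξ : B → ZMod g`, `t ∈ F`: `φ t ξ = ∑_{a : B} e (ξ a * c t)`, so `|φ| ≤ b`.
`g ^ b * #{f | Vf c f = v} = ∑_ξ e (- ∑ ξ i v i) ∏_{t ∈ F} φ t ξ` (orthogonality, `ZMod.isPrimitive_stdAddChar`,
`AddChar.sum_mulShift`; `∏_t ∑_a = ∑_f ∏_t`, `Finset.prod_univ_sum`). So it is at most
`b ^ (F.card - 16 n) ∑_ξ ∏_{k < 16} |Φ k ξ|`, `Φ k ξ = ∏_{t ∈ J k} φ t ξ`, and by AM-GM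
(`∏_{k<16} x k ≤ (∑ x k ^ 16) / 16`, `Real.inner_le_nnorm_mul_nnorm` is not needed,
`Real.geom_mean_le_arith_mean`) at most
`b ^ (F.card - 16 n) max_k ∑_ξ |Φ k ξ| ^ 16`. Finally `∑_ξ |Φ k ξ| ^ 16 = ∑_ξ Φ ^ 8 conj Φ ^ 8` is `g ^ b` times the
number of the 16-tuples in `energy8` for `J k`, at most `g ^ b (8! b ^ 8) ^ n`.
-/

set_option autoImplicit false

namespace GC85

open Finset GC70

variable {B : Type} [Fintype B] [DecidableEq B]

open scoped ComplexConjugate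

omit [Fintype B] in
private lemma SupF_vf {g : ℕ} {J : Type} [Fintype J] (c : J → ZMod g) (f : J → B) :
    Vf c f = ∑ j, (Pi.single (f j) (c j) : B → ZMod g) := by
  funext i
  unfold Vf
  rw [Finset.sum_apply, sum_filter]
  refine sum_congr rfl fun j _ => ?_
  by_cases h : f j = i
  · subst h
    simp
  · rw [if_neg h, Pi.single_eq_of_ne (Ne.symm h)]

private lemma SupF_map {G ι : Type} [AddCommGroup G] (ψ : AddChar G ℂ) (s : Finset ι)
    (f : ι → G) : ψ (∑ i ∈ s, f i) = ∏ i ∈ s, ψ (f i) := by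
  classical
  induction s using Finset.induction_on with
  | empty => simp
  | insert a s ha ih => rw [sum_insert ha, prod_insert ha, AddChar.map_add_eq_mul, ih]

private lemma SupF_sum {g : ℕ} {J : Type} [Fintype J] [DecidableEq J] (c : J → ZMod g)
    (ψ : AddChar (B → ZMod g) ℂ) :
    ∑ f : J → B, ψ (Vf c f) = ∏ j, ∑ a : B, ψ (Pi.single a (c j)) := by
  rw [Finset.prod_univ_sum, Fintype.piFinset_univ]
  refine sum_congr rfl fun f _ => ?_
  rw [SupF_vf, SupF_map]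

private lemma SupF_norm {g : ℕ} [NeZero g] (x : ZMod g) (ψ : AddChar (B → ZMod g) ℂ) :
    ‖∑ a : B, ψ (Pi.single a x)‖ ≤ Fintype.card B := by
  refine (norm_sum_le _ _).trans ?_
  simp

private lemma SupF_count {g : ℕ} [NeZero g] {J : Type} [Fintype J] [DecidableEq J]
    (c : J → ZMod g) (v : B → ZMod g) :
    (Fintype.card (B → ZMod g) : ℂ) *
      ((univ : Finset (J → B)).filter (fun f => Vf c f = v)).card =
      ∑ ψ : AddChar (B → ZMod g) ℂ, ψ (-v) * ∑ f : J → B, ψ (Vf c f) := by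
  have h1 : ∀ f : J → B, ∑ ψ : AddChar (B → ZMod g) ℂ, ψ (Vf c f + -v) =
      if Vf c f = v then (Fintype.card (B → ZMod g) : ℂ) else 0 := by
    intro f
    rw [AddChar.sum_apply_eq_ite]
    simp only [← sub_eq_add_neg, sub_eq_zero]
  calc (Fintype.card (B → ZMod g) : ℂ) *
      ((univ : Finset (J → B)).filter (fun f => Vf c f = v)).card
      = ∑ f : J → B, if Vf c f = v then (Fintype.card (B → ZMod g) : ℂ) else 0 := by
        rw [← sum_filter, sum_const, nsmul_eq_mul, mul_comm]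
    _ = ∑ f : J → B, ∑ ψ : AddChar (B → ZMod g) ℂ, ψ (Vf c f + -v) :=
        sum_congr rfl fun f _ => (h1 f).symm
    _ = ∑ ψ : AddChar (B → ZMod g) ℂ, ∑ f : J → B, ψ (Vf c f + -v) := sum_comm
    _ = _ := by
        refine sum_congr rfl fun ψ _ => ?_
        rw [mul_sum]
        refine sum_congr rfl fun f _ => ?_
        rw [AddChar.map_add_eq_mul, mul_comm]

private lemma SupF_prod16 {R : Type} [CommRing R] (u w : Fin 16 → R) :
    ∏ k : Fin 16, (if (k : ℕ) < 8 then u k else w k) =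
      (∏ k ∈ univ.filter (fun k : Fin 16 => (k : ℕ) < 8), u k) *
        ∏ k ∈ univ.filter (fun k : Fin 16 => ¬ (k : ℕ) < 8), w k := by
  rw [prod_ite]

private lemma SupF_energy {g : ℕ} [NeZero g] {J : Type} [Fintype J] [DecidableEq J]
    (c : J → ZMod g) :
    ∑ ψ : AddChar (B → ZMod g) ℂ, ‖∑ f : J → B, ψ (Vf c f)‖ ^ 16 =
      (Fintype.card (B → ZMod g) : ℝ) *
      ((univ : Finset (Fin 16 → (J → B))).filter (fun F =>
      ∑ k ∈ univ.filter (fun k : Fin 16 => (k : ℕ) < 8), Vf c (F k) =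
        ∑ k ∈ univ.filter (fun k : Fin 16 => ¬ (k : ℕ) < 8), Vf c (F k))).card := by
  have h1 : ∀ ψ : AddChar (B → ZMod g) ℂ,
      ((‖∑ f : J → B, ψ (Vf c f)‖ ^ 16 : ℝ) : ℂ) =
      ∑ F : Fin 16 → (J → B), ψ (∑ k ∈ univ.filter (fun k : Fin 16 => (k : ℕ) < 8), Vf c (F k) -
        ∑ k ∈ univ.filter (fun k : Fin 16 => ¬ (k : ℕ) < 8), Vf c (F k)) := by
    intro ψ
    set z : ℂ := ∑ f : J → B, ψ (Vf c f) with hz
    have h2 : conj z = ∑ f : J → B, ψ (-Vf c f) := by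
      rw [hz, map_sum]
      refine sum_congr rfl fun f _ => ?_
      rw [AddChar.map_neg_eq_conj]
    have h3 : ((‖z‖ ^ 16 : ℝ) : ℂ) =
        ∏ k : Fin 16, (if (k : ℕ) < 8 then z else conj z) := by
      rw [SupF_prod16, prod_const, prod_const]
      have e1 : (univ.filter (fun k : Fin 16 => (k : ℕ) < 8)).card = 8 := by decide
      have e2 : (univ.filter (fun k : Fin 16 => ¬ (k : ℕ) < 8)).card = 8 := by decide
      rw [e1, e2, ← mul_pow, Complex.mul_conj', ← pow_mul]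
      push_cast
      rfl
    rw [h3]
    have h4 : ∀ k : Fin 16, (if (k : ℕ) < 8 then z else conj z) =
        ∑ f : J → B, (if (k : ℕ) < 8 then ψ (Vf c f) else ψ (-Vf c f)) := by
      intro k
      split_ifs
      · exact hz
      · exact h2
    rw [prod_congr rfl fun k _ => h4 k, Finset.prod_univ_sum, Fintype.piFinset_univ]
    refine sum_congr rfl fun F _ => ?_
    rw [SupF_prod16, sub_eq_add_neg, AddChar.map_add_eq_mul, SupF_map,
      ← sum_neg_distrib, SupF_map]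
  have h5 : ∀ F : Fin 16 → (J → B), ∑ ψ : AddChar (B → ZMod g) ℂ,
      ψ (∑ k ∈ univ.filter (fun k : Fin 16 => (k : ℕ) < 8), Vf c (F k) -
        ∑ k ∈ univ.filter (fun k : Fin 16 => ¬ (k : ℕ) < 8), Vf c (F k)) =
      if ∑ k ∈ univ.filter (fun k : Fin 16 => (k : ℕ) < 8), Vf c (F k) =
        ∑ k ∈ univ.filter (fun k : Fin 16 => ¬ (k : ℕ) < 8), Vf c (F k) then
        (Fintype.card (B → ZMod g) : ℂ) else 0 := by
    intro F
    rw [AddChar.sum_apply_eq_ite]
    simp only [sub_eq_zero]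
  have h6 : ((∑ ψ : AddChar (B → ZMod g) ℂ, ‖∑ f : J → B, ψ (Vf c f)‖ ^ 16 : ℝ) : ℂ) =
      (Fintype.card (B → ZMod g) : ℂ) *
      ((univ : Finset (Fin 16 → (J → B))).filter (fun F =>
      ∑ k ∈ univ.filter (fun k : Fin 16 => (k : ℕ) < 8), Vf c (F k) =
        ∑ k ∈ univ.filter (fun k : Fin 16 => ¬ (k : ℕ) < 8), Vf c (F k))).card := by
    rw [Complex.ofReal_sum, sum_congr rfl fun ψ _ => h1 ψ, sum_comm,
      sum_congr rfl fun F _ => h5 F, ← sum_filter, sum_const, nsmul_eq_mul, mul_comm]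
  exact_mod_cast h6

/-- the norm of a sum over functions is at most the product over the blocks -/
private lemma SupF_block {F : Finset ℕ} (J : Fin 16 → Finset ℕ)
    (hJ : ∀ k, J k ⊆ F) (hd : ∀ k l, k ≠ l → Disjoint (J k) (J l)) (n : ℕ)
    (hn : ∀ k, (J k).card = n) (b : ℕ) (x : ℕ → ℝ) (hx0 : ∀ t, 0 ≤ x t) (hxb : ∀ t, x t ≤ b) :
    ∏ t ∈ F, x t ≤ (b : ℝ) ^ (F.card - 16 * n) * ∏ k : Fin 16, ∏ t ∈ J k, x t := by
  classical
  have h1 : (univ.biUnion J) ⊆ F := by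
    intro t ht
    obtain ⟨k, _, hk⟩ := mem_biUnion.1 ht
    exact hJ k hk
  have h2 : (univ.biUnion J).card = 16 * n := by
    rw [card_biUnion (fun k _ l _ hkl => hd k l hkl), sum_congr rfl fun k _ => hn k,
      sum_const, card_univ, Fintype.card_fin, smul_eq_mul]
  have h3 : ∏ t ∈ F, x t = (∏ t ∈ F \ univ.biUnion J, x t) * ∏ t ∈ univ.biUnion J, x t :=
    (prod_sdiff h1).symm
  rw [h3, prod_biUnion (fun k _ l _ hkl => hd k l hkl)]
  refine mul_le_mul_of_nonneg_right ?_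
    (prod_nonneg fun k _ => prod_nonneg fun t _ => hx0 t)
  calc ∏ t ∈ F \ univ.biUnion J, x t ≤ ∏ _t ∈ F \ univ.biUnion J, (b : ℝ) :=
        prod_le_prod (fun t _ => hx0 t) fun t _ => hxb t
    _ = (b : ℝ) ^ (F.card - 16 * n) := by
        rw [prod_const, card_sdiff_of_subset h1, h2]

private lemma SupF_amgm (X : Fin 16 → ℝ) (hX : ∀ k, 0 ≤ X k) :
    ∏ k, X k ≤ (∑ k, X k ^ 16) / 16 := by
  have h := Real.geom_mean_le_arith_mean_weighted univ (fun _ : Fin 16 => (1 / 16 : ℝ))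
    (fun k => X k ^ 16) (fun _ _ => by norm_num) (by simp) (fun k _ => by
      have := hX k
      positivity)
  have h2 : ∀ k, (X k ^ 16) ^ (1 / 16 : ℝ) = X k := by
    intro k
    have h3 := Real.pow_rpow_inv_natCast (hX k) (n := 16) (by norm_num)
    rw [one_div]
    exact_mod_cast h3
  simp only [h2] at h
  rw [← mul_sum] at h
  linarith

theorem sup16 {g : ℕ} [NeZero g] (F : Finset ℕ) (c : ℕ → ZMod g) (J : Fin 16 → Finset ℕ)
    (hJ : ∀ k, J k ⊆ F) (hd : ∀ k l, k ≠ l → Disjoint (J k) (J l)) (n : ℕ)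
    (hn : ∀ k, (J k).card = n) (huq : ∀ k, Uq8 (fun j : {j // j ∈ J k} => c j))
    (v : B → ZMod g) :
    ((univ : Finset ({j // j ∈ F} → B)).filter
      (fun f => Vf (fun j : {j // j ∈ F} => c j) f = v)).card *
      Fintype.card B ^ (8 * n) ≤ (Nat.factorial 8) ^ n * Fintype.card B ^ F.card := by
  set N := ((univ : Finset ({j // j ∈ F} → B)).filter
      (fun f => Vf (fun j : {j // j ∈ F} => c j) f = v)).card with hN
  set b := Fintype.card B with hb
  have hG : (0 : ℝ) < (Fintype.card (B → ZMod g) : ℝ) := by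
    exact_mod_cast Fintype.card_pos
  set x : AddChar (B → ZMod g) ℂ → ℕ → ℝ := fun ψ t =>
    ‖∑ a : B, ψ (Pi.single a (c t))‖ with hx
  have hx0 : ∀ ψ t, 0 ≤ x ψ t := fun ψ t => norm_nonneg _
  have hxb : ∀ ψ t, x ψ t ≤ b := fun ψ t => SupF_norm _ _
  have hcard : 16 * n ≤ F.card := by
    classical
    have h1 : (univ.biUnion J) ⊆ F := by
      intro t ht
      obtain ⟨k, _, hk⟩ := mem_biUnion.1 ht
      exact hJ k hk
    have h2 : (univ.biUnion J).card = 16 * n := by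
      rw [card_biUnion (fun k _ l _ hkl => hd k l hkl), sum_congr rfl fun k _ => hn k,
        sum_const, card_univ, Fintype.card_fin, smul_eq_mul]
    rw [← h2]
    exact card_le_card h1
  have hsub : ∀ (S : Finset ℕ) (ψ : AddChar (B → ZMod g) ℂ),
      ‖∑ f : {j // j ∈ S} → B, ψ (Vf (fun j : {j // j ∈ S} => c j) f)‖ = ∏ t ∈ S, x ψ t := by
    intro S ψ
    rw [SupF_sum, norm_prod, ← prod_coe_sort S (x ψ)]
  have h1 : (Fintype.card (B → ZMod g) : ℝ) * N ≤
      ∑ ψ : AddChar (B → ZMod g) ℂ, ∏ t ∈ F, x ψ t := by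
    have e1 := SupF_count (fun j : {j // j ∈ F} => c j) v
    have e2 : ‖(Fintype.card (B → ZMod g) : ℂ) * (N : ℂ)‖ =
        (Fintype.card (B → ZMod g) : ℝ) * N := by
      rw [norm_mul, Complex.norm_natCast, Complex.norm_natCast]
    rw [← e2, hN, e1]
    refine (norm_sum_le _ _).trans (sum_le_sum fun ψ _ => ?_)
    rw [norm_mul, AddChar.norm_apply, one_mul, hsub]
  have h2 : ∀ k : Fin 16, ∑ ψ : AddChar (B → ZMod g) ℂ, (∏ t ∈ J k, x ψ t) ^ 16 ≤
      (Fintype.card (B → ZMod g) : ℝ) * ((Nat.factorial 8 * b ^ 8) ^ n : ℕ) := by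
    intro k
    have e1 := SupF_energy (B := B) (fun j : {j // j ∈ J k} => c j)
    have e2 := energy8 (B := B) (fun j : {j // j ∈ J k} => c j) (huq k)
    rw [Fintype.card_coe, hn k] at e2
    simp only [hsub] at e1
    rw [e1]
    gcongr
  have h3 : ∀ ψ : AddChar (B → ZMod g) ℂ, ∏ t ∈ F, x ψ t ≤
      (b : ℝ) ^ (F.card - 16 * n) * ((∑ k, (∏ t ∈ J k, x ψ t) ^ 16) / 16) := by
    intro ψ
    refine (SupF_block J hJ hd n hn b (x ψ) (hx0 ψ) (hxb ψ)).trans ?_
    gcongr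
    exact SupF_amgm _ fun k => prod_nonneg fun t _ => hx0 ψ t
  have h4 : (Fintype.card (B → ZMod g) : ℝ) * N ≤ (Fintype.card (B → ZMod g) : ℝ) *
      ((b : ℝ) ^ (F.card - 16 * n) * ((Nat.factorial 8 * b ^ 8) ^ n : ℕ)) := by
    refine h1.trans ((sum_le_sum fun ψ _ => h3 ψ).trans ?_)
    rw [← mul_sum, ← sum_div, sum_comm]
    have e3 : ∑ k : Fin 16, ∑ ψ : AddChar (B → ZMod g) ℂ, (∏ t ∈ J k, x ψ t) ^ 16 ≤
        16 * ((Fintype.card (B → ZMod g) : ℝ) * ((Nat.factorial 8 * b ^ 8) ^ n : ℕ)) := by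
      refine (sum_le_sum fun k _ => h2 k).trans ?_
      rw [sum_const, card_univ, Fintype.card_fin, nsmul_eq_mul]
      norm_num
    calc (b : ℝ) ^ (F.card - 16 * n) *
        ((∑ k : Fin 16, ∑ ψ : AddChar (B → ZMod g) ℂ, (∏ t ∈ J k, x ψ t) ^ 16) / 16)
        ≤ (b : ℝ) ^ (F.card - 16 * n) *
        ((16 * ((Fintype.card (B → ZMod g) : ℝ) *
          ((Nat.factorial 8 * b ^ 8) ^ n : ℕ))) / 16) := by gcongr
      _ = _ := by ring
  have h5 : (N : ℝ) ≤ (b : ℝ) ^ (F.card - 16 * n) * ((Nat.factorial 8 * b ^ 8) ^ n : ℕ) :=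
    le_of_mul_le_mul_left h4 hG
  have h6 : N ≤ b ^ (F.card - 16 * n) * (Nat.factorial 8 * b ^ 8) ^ n := by
    exact_mod_cast h5
  calc N * b ^ (8 * n) ≤ b ^ (F.card - 16 * n) * (Nat.factorial 8 * b ^ 8) ^ n * b ^ (8 * n) :=
        Nat.mul_le_mul_right _ h6
    _ = (Nat.factorial 8) ^ n * (b ^ (F.card - 16 * n) * (b ^ (8 * n) * b ^ (8 * n))) := by
        rw [mul_pow, ← pow_mul]
        ring
    _ = (Nat.factorial 8) ^ n * b ^ F.card := by
        rw [← pow_add, ← pow_add]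
        congr 2
        omega

end GC85
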