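import Mathlib
import Pool.Agent.Helper85.DN.Energy8
import Pool.Agent.Helper85.DN.Base

/-!
# DN-WinU: the weights of a short window are independent

`window_uq8` is `GC70.window_uq` (`Helper70/GC/Window.lean`, with `GC70.int_uq`) with 8 instead of 2; it is enough to
repeat the proof for the set `F ∩ [a, a + q)`, where `F ⊆ N`: the weight of `j` is
`d ^ a * m ^ (number of elements of N which are ≥ a + q) * (d ^ (j - a) * m ^ (number of elements of
`N ∩ (j, a + q)`))`, and all exponents are at most `q - 1` in total.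
-/

set_option autoImplicit false

namespace GC85

open Finset GC70

variable {B : Type} [Fintype B] [DecidableEq B]

private lemma WinU_int_uq (d m : ℕ) (hd : 9 ≤ d) (hc : Nat.Coprime m d) (P : Finset ℕ) (a : ℕ)
    (hPa : ∀ j ∈ P, a ≤ j) (e : ℕ → ℕ) (c : ℕ → ℤ) (hc2 : ∀ j ∈ P, |c j| ≤ 8)
    (hsum : ∑ j ∈ P, c j * ((d : ℤ) ^ (j - a) * (m : ℤ) ^ (e j)) = 0) :
    ∀ j ∈ P, c j = 0 := by
  by_contra hcon
  push Not at hcon
  obtain ⟨j1, hj1, hj1'⟩ := hcon
  set P' := P.filter (fun j => c j ≠ 0) with hP'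
  have hne : P'.Nonempty := ⟨j1, mem_filter.mpr ⟨hj1, hj1'⟩⟩
  set j0 := P'.min' hne with hj0
  have hj0mem : j0 ∈ P' := min'_mem _ _
  have hj0P : j0 ∈ P := (mem_filter.mp hj0mem).1
  have hj0c : c j0 ≠ 0 := (mem_filter.mp hj0mem).2
  have hdvd : (d : ℤ) ^ (j0 - a + 1) ∣ ∑ j ∈ P.erase j0,
      c j * ((d : ℤ) ^ (j - a) * (m : ℤ) ^ (e j)) := by
    apply dvd_sum
    intro j hj
    rw [mem_erase] at hj
    by_cases hcj : c j = 0
    · rw [hcj, zero_mul]
      exact dvd_zero _
    · have hjP' : j ∈ P' := mem_filter.mpr ⟨hj.2, hcj⟩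
      have h1 : j0 ≤ j := min'_le _ _ hjP'
      have h2 : j0 - a + 1 ≤ j - a := by
        have := hPa j0 hj0P
        have := hj.1
        omega
      exact Dvd.dvd.mul_left (Dvd.dvd.mul_right (pow_dvd_pow _ h2) _) _
  rw [← add_sum_erase P _ hj0P] at hsum
  have h3 : (d : ℤ) ^ (j0 - a + 1) ∣ c j0 * ((d : ℤ) ^ (j0 - a) * (m : ℤ) ^ (e j0)) := by
    have : c j0 * ((d : ℤ) ^ (j0 - a) * (m : ℤ) ^ (e j0))
        = -∑ j ∈ P.erase j0, c j * ((d : ℤ) ^ (j - a) * (m : ℤ) ^ (e j)) := by linarith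
    rw [this]
    exact (dvd_neg).mpr hdvd
  have hd0 : (d : ℤ) ^ (j0 - a) ≠ 0 := by
    have : (d : ℤ) ≠ 0 := by
      have : 0 < d := by omega
      positivity
    positivity
  have h4 : (d : ℤ) ∣ c j0 * (m : ℤ) ^ (e j0) := by
    rw [pow_succ, show c j0 * ((d : ℤ) ^ (j0 - a) * (m : ℤ) ^ (e j0))
      = (d : ℤ) ^ (j0 - a) * (c j0 * (m : ℤ) ^ (e j0)) by ring] at h3
    exact (mul_dvd_mul_iff_left hd0).mp h3
  have hcop : IsCoprime (d : ℤ) ((m : ℤ) ^ (e j0)) := by
    apply IsCoprime.pow_right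
    rw [Nat.isCoprime_iff_coprime]
    exact hc.symm
  have h5 : (d : ℤ) ∣ c j0 := hcop.dvd_of_dvd_mul_right h4
  have h6 := Int.le_of_dvd (abs_pos.mpr hj0c) ((dvd_abs _ _).mpr h5)
  have h7 := hc2 j0 hj0P
  omega

theorem window_uq8 (d m g : ℕ) (hd : 9 ≤ d) (hdm : d ≤ m) (hc : Nat.Coprime m d)
    (hgd : Nat.Coprime d g) (hgm : Nat.Coprime m g) (N F : Finset ℕ) (hF : F ⊆ N) (a q : ℕ)
    (hq : 16 * q * m ^ (q - 1) < g) (P : Finset ℕ)
    (hP : P ⊆ F.filter (fun j => a ≤ j ∧ j < a + q)) :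
    Uq8 (fun j : {j // j ∈ P} => (wt d m N j : ZMod g)) := by
  set Q := N.filter (fun j => a ≤ j ∧ j < a + q) with hQdef
  have hPQ : ∀ j ∈ P, j ∈ Q := by
    intro j hj
    have h1 := mem_filter.mp (hP hj)
    exact mem_filter.mpr ⟨hF h1.1, h1.2⟩
  intro c hc2 hsum
  set c' : ℕ → ℤ := fun j => if h : j ∈ P then c ⟨j, h⟩ else 0 with hc'
  have hc'j : ∀ j : {j // j ∈ P}, c' j = c j := by
    intro j
    rw [hc']
    simp only [j.2, dif_pos]
  have hQa : ∀ j ∈ Q, a ≤ j := fun j hj => (mem_filter.mp hj).2.1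
  have hQb : ∀ j ∈ Q, j < a + q := fun j hj => (mem_filter.mp hj).2.2
  have hPa : ∀ j ∈ P, a ≤ j := fun j hj => hQa j (hPQ j hj)
  have hPb : ∀ j ∈ P, j < a + q := fun j hj => hQb j (hPQ j hj)
  have hcard : P.card ≤ q := by
    have : P ⊆ Ico a (a + q) := by
      intro j hj
      rw [mem_Ico]
      exact ⟨hPa j hj, hPb j hj⟩
    have := card_le_card this
    simpa using this
  set e : ℕ → ℕ := fun j => (Q.filter (fun t => j < t)).card with he
  set r0 := (N.filter (fun t => a + q ≤ t)).card with hr0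
  have hwt : ∀ j ∈ P, wt d m N j = d ^ a * m ^ r0 * (d ^ (j - a) * m ^ (e j)) := by
    intro j hj
    unfold wt
    have h1 : N.filter (fun t => j < t) =
        Q.filter (fun t => j < t) ∪ N.filter (fun t => a + q ≤ t) := by
      ext t
      simp only [hQdef, mem_filter, mem_union]
      have := hPa j hj
      have := hPb j hj
      constructor
      · rintro ⟨h1, h2⟩
        by_cases h3 : a + q ≤ t
        · right; exact ⟨h1, h3⟩
        · left; exact ⟨⟨h1, by omega, by omega⟩, h2⟩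
      · rintro (⟨⟨h1, _, _⟩, h2⟩ | ⟨h1, h2⟩)
        · exact ⟨h1, h2⟩
        · exact ⟨h1, by omega⟩
    have h2 : Disjoint (Q.filter (fun t => j < t)) (N.filter (fun t => a + q ≤ t)) := by
      rw [disjoint_left]
      intro t h1 h2
      have h3 := hQb t (mem_filter.mp h1).1
      have h4 := (mem_filter.mp h2).2
      omega
    rw [h1, card_union_of_disjoint h2, pow_add]
    have h3 : d ^ j = d ^ a * d ^ (j - a) := by
      rw [← pow_add]
      congr 1
      have := hPa j hj
      omega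
    rw [h3]
    simp only [he, hr0]
    ring
  have hek : ∀ j ∈ P, e j + (j - a) ≤ q - 1 := by
    intro j hj
    have : (Q.filter (fun t => j < t)) ⊆ Ico (j + 1) (a + q) := by
      intro t ht
      rw [mem_filter] at ht
      rw [mem_Ico]
      exact ⟨ht.2, hQb t ht.1⟩
    have h1 := card_le_card this
    rw [Nat.card_Ico] at h1
    have := hPa j hj
    have := hPb j hj
    simp only [he]
    omega
  have hd0 : 0 < d := by omega
  have hm0 : 0 < m := by omega
  set X : ℤ := ∑ j ∈ P, c' j * ((d : ℤ) ^ (j - a) * (m : ℤ) ^ (e j)) with hX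
  have hXg : ((X : ℤ) : ZMod g) = 0 := by
    have h1 : ((d ^ a * m ^ r0 : ℕ) : ZMod g) * ((X : ℤ) : ZMod g) = 0 := by
      rw [← hsum, hX, ← sum_coe_sort P]
      push_cast
      rw [mul_sum]
      apply sum_congr rfl
      intro j _
      rw [hc'j, hwt j j.2, zsmul_eq_mul]
      push_cast
      ring
    have h2 : IsUnit ((d ^ a * m ^ r0 : ℕ) : ZMod g) := by
      rw [ZMod.isUnit_iff_coprime]
      exact Nat.Coprime.mul_left (hgd.pow_left _) (hgm.pow_left _)
    exact h2.mul_right_eq_zero.mp h1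
  have hXabs : |X| < g := by
    calc |X| ≤ ∑ j ∈ P, |c' j * ((d : ℤ) ^ (j - a) * (m : ℤ) ^ (e j))| := abs_sum_le_sum_abs _ _
      _ ≤ ∑ j ∈ P, 8 * (m : ℤ) ^ (q - 1) := by
          apply sum_le_sum
          intro j hj
          rw [abs_mul]
          have h1 : |c' j| ≤ 8 := by
            have := hc'j ⟨j, hj⟩
            simp only at this
            rw [this]
            exact hc2 _
          have h2 : |(d : ℤ) ^ (j - a) * (m : ℤ) ^ (e j)| ≤ (m : ℤ) ^ (q - 1) := by
            rw [abs_of_nonneg (by positivity)]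
            calc (d : ℤ) ^ (j - a) * (m : ℤ) ^ (e j) ≤ (m : ℤ) ^ (j - a) * (m : ℤ) ^ (e j) := by
                  apply mul_le_mul_of_nonneg_right _ (by positivity)
                  exact pow_le_pow_left₀ (by positivity) (by exact_mod_cast hdm) _
              _ = (m : ℤ) ^ (j - a + e j) := by rw [pow_add]
              _ ≤ (m : ℤ) ^ (q - 1) := by
                  apply pow_le_pow_right₀ (by exact_mod_cast hm0)
                  have := hek j hj
                  omega
          exact mul_le_mul h1 h2 (abs_nonneg _) (by norm_num)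
      _ = P.card * (8 * (m : ℤ) ^ (q - 1)) := by rw [sum_const, nsmul_eq_mul]
      _ ≤ q * (8 * (m : ℤ) ^ (q - 1)) := by
          apply mul_le_mul_of_nonneg_right _ (by positivity)
          exact_mod_cast hcard
      _ ≤ q * (16 * (m : ℤ) ^ (q - 1)) := by
          apply mul_le_mul_of_nonneg_left _ (by positivity)
          apply mul_le_mul_of_nonneg_right (by norm_num) (by positivity)
      _ = ((16 * q * m ^ (q - 1) : ℕ) : ℤ) := by push_cast; ring
      _ < g := by exact_mod_cast hq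
  have hX0 : X = 0 := by
    rw [ZMod.intCast_zmod_eq_zero_iff_dvd] at hXg
    exact Int.eq_zero_of_abs_lt_dvd hXg hXabs
  intro j
  rw [← hc'j j]
  refine WinU_int_uq d m hd hc P a hPa e c' ?_ hX0 j j.2
  intro t ht
  have := hc'j ⟨t, ht⟩
  simp only at this
  rw [this]
  exact hc2 _

end GC85
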