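import Mathlib
import Pool.Agent.Helper85.DN.SupF
import Pool.Agent.Helper85.DN.WinU

/-!
# DN-SupW: the sup bound for words with few fixed positions

`supW`: let `q ≥ 1` be the largest number with `16 q m ^ (q - 1) < G0` (`q = 1` is allowed: `17 ≤ G0`). Then
`G0 ≤ 16 (q + 1) m ^ q`, and `m ^ (q - 1) < G0 ≤ (b + 1) ^ (L / 18)` gives `q ≤ L / 18 + 1`, in fact `q ≤ L / 18`. The windows
`[k q, (k + 1) q)`, `k < L / q`; one of them is bad if it contains more than `q / 100` elements outside `F`: at most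
`(L / 4000) / (q / 100 + 1)` bad ones, so at least 16 are good. Let `n = q - q / 100`, and `J k` a subset with `n`
elements of `F` in the `k`-th good window. `sup16`:
`card * b ^ (8 n) ≤ 8! ^ n * b ^ F.card`. Finally `8! ^ (2 n) * G0 ^ 7 ≤ b ^ (16 n)`, because
`G0 ^ 7 ≤ (16 (q + 1)) ^ 7 m ^ (7 q)`, `m ≤ 2 (b + 1) ≤ 4 b`, `n ≥ 99 q / 100`, `b ≥ 2 ^ 60`.
-/

set_option autoImplicit false

namespace GC85

open Finset GC70

variable {B : Type} [Fintype B] [DecidableEq B]

private theorem SupW_q {m G0 : ℕ} (hm : 1 ≤ m) (h17 : 17 ≤ G0) :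
    ∃ q : ℕ, 1 ≤ q ∧ 16 * q * m ^ (q - 1) < G0 ∧ G0 ≤ 16 * (q + 1) * m ^ q := by
  classical
  let P : ℕ → Prop := fun q => 16 * q * m ^ (q - 1) < G0
  have hP1 : P 1 := by
    show 16 * 1 * m ^ (1 - 1) < G0
    simp
    omega
  have h1 : (1 : ℕ) ≤ G0 := by omega
  have hq1 : 1 ≤ Nat.findGreatest P G0 := Nat.le_findGreatest h1 hP1
  have hq2 : P (Nat.findGreatest P G0) := Nat.findGreatest_spec h1 hP1
  refine ⟨Nat.findGreatest P G0, hq1, hq2, ?_⟩
  have hpos : 1 ≤ m ^ (Nat.findGreatest P G0 - 1) := Nat.one_le_pow _ _ hm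
  have hlt : Nat.findGreatest P G0 + 1 ≤ G0 := by
    have h2 : 16 * Nat.findGreatest P G0 * m ^ (Nat.findGreatest P G0 - 1) < G0 := hq2
    have h3 : Nat.findGreatest P G0 * 1 ≤
        16 * Nat.findGreatest P G0 * m ^ (Nat.findGreatest P G0 - 1) :=
      Nat.mul_le_mul (by omega) hpos
    omega
  have h4 : ¬ P (Nat.findGreatest P G0 + 1) :=
    Nat.findGreatest_is_greatest (Nat.lt_succ_self _) hlt
  have h5 : ¬ (16 * (Nat.findGreatest P G0 + 1) * m ^ (Nat.findGreatest P G0 + 1 - 1) < G0) := h4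
  rw [Nat.add_sub_cancel] at h5
  omega

private theorem SupW_num {b m q n G0 : ℕ} (hb : 2 ^ 60 ≤ b) (hm2 : m ≤ 2 * (b + 1)) (hq : 1 ≤ q)
    (hn : n = q - q / 100) (hG : G0 ≤ 16 * (q + 1) * m ^ q) :
    (Nat.factorial 8 ^ n) ^ 2 * G0 ^ 7 ≤ b ^ (16 * n) := by
  have hb1 : 1 ≤ b := le_trans (by norm_num) hb
  have h1 : Nat.factorial 8 ≤ 2 ^ 16 := by decide
  have h2 : (Nat.factorial 8 ^ n) ^ 2 ≤ 2 ^ (32 * q) := by
    calc (Nat.factorial 8 ^ n) ^ 2 ≤ ((2 ^ 16) ^ n) ^ 2 := by gcongr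
      _ = 2 ^ (32 * n) := by
        rw [← pow_mul, ← pow_mul]
        congr 1
        ring
      _ ≤ 2 ^ (32 * q) := Nat.pow_le_pow_right (by norm_num) (by omega)
  have h3 : 16 * (q + 1) ≤ 2 ^ (5 * q) := by
    have h4 : q + 1 ≤ 2 ^ q := Nat.lt_two_pow_self
    calc 16 * (q + 1) ≤ 2 ^ 4 * 2 ^ q := by
          have : (16 : ℕ) = 2 ^ 4 := by norm_num
          rw [this]
          exact Nat.mul_le_mul_left _ h4
      _ = 2 ^ (4 + q) := (pow_add _ _ _).symm
      _ ≤ 2 ^ (5 * q) := Nat.pow_le_pow_right (by norm_num) (by omega)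
  have h5 : m ≤ 2 ^ 2 * b := by omega
  have h6 : G0 ≤ 2 ^ (7 * q) * b ^ q := by
    calc G0 ≤ 16 * (q + 1) * m ^ q := hG
      _ ≤ 2 ^ (5 * q) * (2 ^ 2 * b) ^ q := Nat.mul_le_mul h3 (Nat.pow_le_pow_left h5 q)
      _ = 2 ^ (7 * q) * b ^ q := by
        rw [mul_pow, ← pow_mul, ← mul_assoc, ← pow_add]
        congr 2
        ring
  calc (Nat.factorial 8 ^ n) ^ 2 * G0 ^ 7
      ≤ 2 ^ (32 * q) * (2 ^ (7 * q) * b ^ q) ^ 7 := Nat.mul_le_mul h2 (Nat.pow_le_pow_left h6 7)
    _ = 2 ^ (81 * q) * b ^ (7 * q) := by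
      rw [mul_pow, ← pow_mul, ← pow_mul, ← mul_assoc, ← pow_add]
      congr 2
      · ring
      · ring
    _ ≤ 2 ^ (60 * (2 * q)) * b ^ (7 * q) :=
      Nat.mul_le_mul_right _ (Nat.pow_le_pow_right (by norm_num) (by omega))
    _ = (2 ^ 60) ^ (2 * q) * b ^ (7 * q) := by rw [← pow_mul]
    _ ≤ b ^ (2 * q) * b ^ (7 * q) := Nat.mul_le_mul_right _ (Nat.pow_le_pow_left hb _)
    _ = b ^ (9 * q) := by
      rw [← pow_add]
      congr 1
      ring
    _ ≤ b ^ (16 * n) := Nat.pow_le_pow_right hb1 (by omega)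

/-- sixteen good windows -/
private theorem SupW_win {L q : ℕ} (hq : 1 ≤ q) (hqL : 18 * q ≤ L) (F : Finset ℕ)
    (hF : F ⊆ range L) (hFL : 4000 * (L - F.card) ≤ L) :
    ∃ κ : Fin 16 → ℕ, Function.Injective κ ∧
      ∀ k, q - q / 100 ≤ (F.filter (fun j => j / q = κ k)).card := by
  classical
  let U : Finset ℕ := range L \ F
  have hU : U.card = L - F.card := by
    show (range L \ F).card = _
    rw [card_sdiff_of_subset hF, card_range]
  let K : ℕ := L / q
  have hKL : K * q ≤ L := Nat.div_mul_le_self L q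
  have hLK : L < (K + 1) * q := by
    rw [add_mul, one_mul]
    exact Nat.lt_div_mul_add hq
  have h18 : 18 ≤ K := (Nat.le_div_iff_mul_le hq).2 hqL
  let Bad : Finset ℕ := (range K).filter
    (fun k => q / 100 + 1 ≤ (U.filter (fun j => j / q = k)).card)
  have hsum : Bad.card * (q / 100 + 1) ≤ U.card := by
    have h1 : Bad.card • (q / 100 + 1) ≤ ∑ k ∈ Bad, (U.filter (fun j => j / q = k)).card :=
      card_nsmul_le_sum _ _ _ fun k hk => (mem_filter.1 hk).2
    have h2 : ∑ k ∈ Bad, (U.filter (fun j => j / q = k)).card =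
        (Bad.biUnion fun k => U.filter (fun j => j / q = k)).card := by
      rw [card_biUnion]
      intro k _ l _ hkl
      refine disjoint_left.2 fun j h3 h4 => hkl ?_
      rw [← (mem_filter.1 h3).2, ← (mem_filter.1 h4).2]
    have h3 : (Bad.biUnion fun k => U.filter (fun j => j / q = k)).card ≤ U.card :=
      card_le_card (biUnion_subset.2 fun k _ => filter_subset _ _)
    rw [h2, smul_eq_mul] at h1
    exact h1.trans h3
  have h40 : 40 * Bad.card ≤ K := by
    have h1 : q ≤ 100 * (q / 100 + 1) := by omega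
    have h2 : 40 * Bad.card * q ≤ L := by
      calc 40 * Bad.card * q ≤ 40 * Bad.card * (100 * (q / 100 + 1)) :=
            Nat.mul_le_mul_left _ h1
        _ = 4000 * (Bad.card * (q / 100 + 1)) := by ring
        _ ≤ 4000 * U.card := Nat.mul_le_mul_left _ hsum
        _ ≤ L := by rw [hU]; exact hFL
    have h3 : 40 * Bad.card * q < (K + 1) * q := lt_of_le_of_lt h2 hLK
    have h4 := Nat.lt_of_mul_lt_mul_right h3
    omega
  let Gd : Finset ℕ := (range K).filter
    (fun k => ¬ (q / 100 + 1 ≤ (U.filter (fun j => j / q = k)).card))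
  have hGd : 16 ≤ Gd.card := by
    have h1 : Bad.card + Gd.card = K := by
      have h2 := card_filter_add_card_filter_not (s := range K)
        (fun k => q / 100 + 1 ≤ (U.filter (fun j => j / q = k)).card)
      rw [card_range] at h2
      exact h2
    omega
  obtain ⟨S, hS, hS16⟩ := exists_subset_card_eq hGd
  refine ⟨S.orderEmbOfFin hS16, (S.orderEmbOfFin hS16).injective, fun k => ?_⟩
  have hk := mem_filter.1 (hS (orderEmbOfFin_mem S hS16 k))
  set a := S.orderEmbOfFin hS16 k with ha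
  obtain ⟨hkK, hkU⟩ := hk
  have hwin : (range L).filter (fun j => j / q = a) = Ico (a * q) (a * q + q) := by
    ext j
    rw [mem_filter, mem_range, mem_Ico, Nat.div_eq_iff (by omega)]
    have h1 : a * q + q ≤ L := by
      have h2 : (a + 1) * q ≤ K * q := Nat.mul_le_mul_right _ (mem_range.1 hkK)
      rw [add_mul, one_mul] at h2
      omega
    constructor
    · rintro ⟨h2, h3, h4⟩
      constructor
      · omega
      · omega
    · rintro ⟨h2, h3⟩
      refine ⟨by omega, by omega, by omega⟩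
  have hcard : ((range L).filter (fun j => j / q = a)).card = q := by
    rw [hwin, Nat.card_Ico]
    omega
  have hpart := card_inter_add_card_sdiff ((range L).filter (fun j => j / q = a)) F
  have e1 : (range L).filter (fun j => j / q = a) ∩ F = F.filter (fun j => j / q = a) := by
    ext j
    simp only [mem_inter, mem_filter]
    constructor
    · rintro ⟨⟨_, h2⟩, h3⟩
      exact ⟨h3, h2⟩
    · rintro ⟨h2, h3⟩
      exact ⟨⟨hF h2, h3⟩, h2⟩
  have e2 : (range L).filter (fun j => j / q = a) \ F = U.filter (fun j => j / q = a) := by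
    ext j
    simp only [U, mem_sdiff, mem_filter]
    constructor
    · rintro ⟨⟨h1, h2⟩, h3⟩
      exact ⟨⟨h1, h3⟩, h2⟩
    · rintro ⟨⟨h1, h2⟩, h3⟩
      exact ⟨⟨h1, h3⟩, h2⟩
  rw [e1, e2, hcard] at hpart
  omega

/-- At most `b ^ F.card * G0 ^ (-7/2)` assignments of letters to the free positions give the
coefficients `v` modulo `g`. -/
theorem supW {b m g L : ℕ} (hB : Fintype.card B = b) (hb : 2 ^ 60 ≤ b) (hdm : b + 1 ≤ m)
    (hm2 : m ≤ 2 * (b + 1)) (hc : Nat.Coprime m (b + 1)) (hgd : Nat.Coprime (b + 1) g)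
    (hgm : Nat.Coprime m g) (hL : 10 ^ 6 ≤ L) (N F : Finset ℕ) (hN : N ⊆ range L) (hF : F ⊆ N)
    (hFL : 4000 * (L - F.card) ≤ L) (G0 : ℕ) (h17 : 17 ≤ G0) (hG : G0 ≤ g)
    (hGL : G0 ≤ (b + 1) ^ (L / 18)) (v : B → ZMod g) :
    ((univ : Finset ({j // j ∈ F} → B)).filter (fun f =>
      Vf (fun j : {j // j ∈ F} => (wt (b + 1) m N j : ZMod g)) f = v)).card ^ 2 * G0 ^ 7 ≤
        b ^ (2 * F.card) := by
  have : NeZero g := ⟨by omega⟩
  have hb1 : 1 ≤ b := le_trans (by norm_num) hb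
  have hb8 : 9 ≤ b + 1 := by
    have : 8 ≤ b := le_trans (by norm_num) hb
    omega
  have hm1 : 1 < m := by omega
  obtain ⟨q, hq1, hq2, hq3⟩ := SupW_q (m := m) (G0 := G0) hm1.le h17
  have hqL : 18 * q ≤ L := by
    have h1 : m ^ (q - 1) < m ^ (L / 18) := by
      calc m ^ (q - 1) = 1 * m ^ (q - 1) := (one_mul _).symm
        _ ≤ 16 * q * m ^ (q - 1) := Nat.mul_le_mul_right _ (by omega)
        _ < G0 := hq2
        _ ≤ (b + 1) ^ (L / 18) := hGL
        _ ≤ m ^ (L / 18) := Nat.pow_le_pow_left hdm _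
    have h2 := (Nat.pow_lt_pow_iff_right hm1).1 h1
    omega
  obtain ⟨κ, hκ, hκF⟩ := SupW_win hq1 hqL F (hF.trans hN) hFL
  have hJ : ∀ k : Fin 16, ∃ J ⊆ F.filter (fun j => j / q = κ k), J.card = q - q / 100 :=
    fun k => exists_subset_card_eq (hκF k)
  choose J hJF hJn using hJ
  have key := sup16 F (fun j => (wt (b + 1) m N j : ZMod g)) J
    (fun k => (hJF k).trans (filter_subset _ _)) (fun k l hkl => ?_) (q - q / 100) hJn
    (fun k => ?_) v
  · rw [hB] at key
    set X := ((univ : Finset ({j // j ∈ F} → B)).filter (fun f =>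
      Vf (fun j : {j // j ∈ F} => (wt (b + 1) m N j : ZMod g)) f = v)).card with hX
    set n := q - q / 100 with hn
    have hnum := SupW_num hb hm2 hq1 hn hq3
    have hpos : 0 < b ^ (16 * n) := Nat.pow_pos (by omega)
    refine Nat.le_of_mul_le_mul_right ?_ hpos
    calc X ^ 2 * G0 ^ 7 * b ^ (16 * n) = (X * b ^ (8 * n)) ^ 2 * G0 ^ 7 := by
          rw [mul_pow, ← pow_mul, show 8 * n * 2 = 16 * n by ring]
          ring
      _ ≤ (Nat.factorial 8 ^ n * b ^ F.card) ^ 2 * G0 ^ 7 :=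
          Nat.mul_le_mul_right _ (Nat.pow_le_pow_left key 2)
      _ = b ^ (2 * F.card) * ((Nat.factorial 8 ^ n) ^ 2 * G0 ^ 7) := by
          rw [mul_pow, ← pow_mul b, mul_comm F.card 2]
          ring
      _ ≤ b ^ (2 * F.card) * b ^ (16 * n) := Nat.mul_le_mul_left _ hnum
  · refine disjoint_left.2 fun j h1 h2 => hkl (hκ ?_)
    rw [← (mem_filter.1 (hJF k h1)).2, ← (mem_filter.1 (hJF l h2)).2]
  · refine window_uq8 (b + 1) m g hb8 hdm hc hgd hgm N F hF (κ k * q) q
      (lt_of_lt_of_le hq2 hG) (J k) fun j hj => ?_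
    obtain ⟨h1, h2⟩ := mem_filter.1 (hJF k hj)
    refine mem_filter.2 ⟨h1, ?_, ?_⟩
    · rw [← h2]
      exact Nat.div_mul_le_self j q
    · rw [← h2]
      exact Nat.lt_div_mul_add hq1

end GC85
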