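import Mathlib
import Pool.Agent.Helper85.DN.CDefs
import Pool.Agent.Helper85.DN.SupW

/-!
# DN-C2a: the coefficients of most pairs are not proportional to their difference

Let `F p` be the set of `t ∈ [0, L)` with `zf p.1 t = zf p.2 t` and `p.1 t = p.2 t ≠ none`. Changing the letters at `F p`
(the same new letters `≠ none` in both words) does not change `F`, the skeletons, `zf`, the
differences `V p.1 i - V p.2 i` (the weights `wt` of the two words at `t ∈ F p` are equal: the same number of later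
letters `≠ none`, since `zf p.1 L = zf p.2 L = s`), `gG`, `zd`, `kd`, `dis`, `p.1 ≠ p.2`. So `SG` splits into classes,
each in bijection with the functions `F → B`. For `κ : (ZMod f)ˣ` fixed, the functions with `V p.1 = κ zd` in
`ZMod f` are at most `b ^ F.card * f ^ (-7/2)` by `supW` (the part of `V p.1` off `F` is constant on the class;
`L ≤ F.card + ε + kd + dis`, so `4000 * (L - F.card) ≤ L`). Sum over `κ` (at most `f` values) and over the classes:
`card ≤ SG.card * f ^ (-5/2)`.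
-/

set_option autoImplicit false

namespace GC85

open Finset GC70

variable {B : Type} [Fintype B] [DecidableEq B]

/-- the positions with free letters -/
private noncomputable def C2a_F (L : ℕ) (p : (ℤ → Option B) × (ℤ → Option B)) : Finset ℕ :=
  (range L).filter (fun t : ℕ => zf p.1 t = zf p.2 t ∧ p.1 (t : ℤ) = p.2 (t : ℤ) ∧
    p.1 (t : ℤ) ≠ none)

/-- new letters at `F` -/
private def C2a_rs (L : ℕ) (F : Finset ℕ) (φ : {j // j ∈ F} → B) (w : ℤ → Option B) :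
    ℤ → Option B :=
  fun x => if h : (x % (L : ℤ)).toNat ∈ F then some (φ ⟨(x % (L : ℤ)).toNat, h⟩) else w x

/-- the letters at `F` are deleted -/
private def C2a_off (L : ℕ) (F : Finset ℕ) (w : ℤ → Option B) : ℤ → Option B :=
  fun x => if (x % (L : ℤ)).toNat ∈ F then none else w x

/-- the class of a pair -/
private noncomputable def C2a_key (L : ℕ) (p : (ℤ → Option B) × (ℤ → Option B)) :
    Finset ℕ × (ℤ → Option B) × (ℤ → Option B) :=
  (C2a_F L p, C2a_off L (C2a_F L p) p.1, C2a_off L (C2a_F L p) p.2)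

private theorem C2a_mod {L t : ℕ} (ht : t < L) : (((t : ℕ) : ℤ) % (L : ℤ)).toNat = t := by
  rw [Int.emod_eq_of_lt (by positivity) (by exact_mod_cast ht)]
  simp

omit [Fintype B] [DecidableEq B] in
private theorem C2a_at {L : ℕ} (hL : 0 < L) {w : ℤ → Option B} (hw : Per w L) (x : ℤ) :
    w (((x % (L : ℤ)).toNat : ℕ) : ℤ) = w x := by
  rw [Int.toNat_of_nonneg (Int.emod_nonneg _ (by positivity)), hw.emod]

omit [Fintype B] [DecidableEq B] in
private theorem C2a_rs_in {L : ℕ} {F : Finset ℕ} (φ : {j // j ∈ F} → B) (w : ℤ → Option B)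
    {t : ℕ} (ht : t < L) (hF : t ∈ F) : C2a_rs L F φ w (t : ℤ) = some (φ ⟨t, hF⟩) := by
  unfold C2a_rs
  have h1 := C2a_mod ht
  rw [dif_pos (by rw [h1]; exact hF)]
  congr 2
  exact Subtype.ext h1

omit [Fintype B] [DecidableEq B] in
private theorem C2a_rs_out {L : ℕ} {F : Finset ℕ} (φ : {j // j ∈ F} → B) (w : ℤ → Option B)
    {t : ℕ} (ht : t < L) (hF : t ∉ F) : C2a_rs L F φ w (t : ℤ) = w (t : ℤ) := by
  unfold C2a_rs
  rw [dif_neg (by rw [C2a_mod ht]; exact hF)]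

omit [Fintype B] [DecidableEq B] in
private theorem C2a_rs_per {L : ℕ} {F : Finset ℕ} (φ : {j // j ∈ F} → B) {w : ℤ → Option B}
    (hw : Per w L) : Per (C2a_rs L F φ w) L := by
  intro x
  unfold C2a_rs
  simp only [Int.add_emod_right, hw x]

omit [Fintype B] [DecidableEq B] in
private theorem C2a_rs_some {L : ℕ} (hL : 0 < L) {F : Finset ℕ} (φ : {j // j ∈ F} → B)
    {w : ℤ → Option B} (hw : Per w L) (hF : ∀ t ∈ F, w ((t : ℕ) : ℤ) ≠ none) (x : ℤ) :
    (C2a_rs L F φ w x).isSome = (w x).isSome := by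
  unfold C2a_rs
  split_ifs with h
  · have h1 := hF _ h
    rw [C2a_at hL hw] at h1
    have h2 : (w x).isSome = true := Option.isSome_iff_ne_none.2 h1
    rw [h2]
    rfl
  · rfl

omit [Fintype B] [DecidableEq B] in
private theorem C2a_rs_zf {L : ℕ} (hL : 0 < L) {F : Finset ℕ} (φ : {j // j ∈ F} → B)
    {w : ℤ → Option B} (hw : Per w L) (hF : ∀ t ∈ F, w ((t : ℕ) : ℤ) ≠ none) :
    zf (C2a_rs L F φ w) = zf w := by
  funext j
  unfold zf
  simp only [C2a_rs_some hL φ hw hF]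

omit [Fintype B] [DecidableEq B] in
private theorem C2a_rs_sk {L : ℕ} (hL : 0 < L) {F : Finset ℕ} (φ : {j // j ∈ F} → B)
    {w : ℤ → Option B} (hw : Per w L) (hF : ∀ t ∈ F, w ((t : ℕ) : ℤ) ≠ none) (n : ℕ) :
    sk (C2a_rs L F φ w) n = sk w n := by
  unfold sk
  simp only [C2a_rs_some hL φ hw hF]

/-- the part of the coefficient off `F` -/
private def C2a_base (d m L : ℕ) (F : Finset ℕ) (w : ℤ → Option B) (i : B) : ℕ :=
  ∑ j ∈ range L \ F, if w ((j : ℕ) : ℤ) = some i then wt d m (sk w L) j else 0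

omit [Fintype B] in
private theorem C2a_V {d m L : ℕ} (hL : 0 < L) {F : Finset ℕ} (hFL : F ⊆ range L)
    (φ : {j // j ∈ F} → B) {w : ℤ → Option B} (hw : Per w L)
    (hF : ∀ t ∈ F, w ((t : ℕ) : ℤ) ≠ none) (i : B) :
    V d m (C2a_rs L F φ w) L i = C2a_base d m L F w i +
      ∑ j : {j // j ∈ F}, if φ j = i then wt d m (sk w L) j.1 else 0 := by
  unfold V C2a_base
  rw [C2a_rs_sk hL φ hw hF, sum_filter, ← sum_sdiff hFL]
  congr 1
  · apply sum_congr rfl
    intro j hj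
    rw [mem_sdiff, mem_range] at hj
    rw [C2a_rs_out φ w hj.1 hj.2]
  · rw [← sum_coe_sort F]
    apply sum_congr rfl
    rintro ⟨j, hj⟩ _
    have h1 := mem_range.1 (hFL hj)
    simp only [C2a_rs_in φ w h1 hj, Option.some.injEq]

omit [Fintype B] in
/-- the weights at a position where the counting functions agree -/
private theorem C2a_wt {d m L s t : ℕ} {w w' : ℤ → Option B} (h : Wd w L s) (h' : Wd w' L s)
    (ht : t < L) (hz : zf w (t : ℤ) = zf w' (t : ℤ)) (he : w (t : ℤ) = w' (t : ℤ)) :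
    wt d m (sk w L) t = wt d m (sk w' L) t := by
  have key : ∀ w : ℤ → Option B, Wd w L s →
      (((sk w L).filter (fun u => t < u)).card : ℤ) + zf w ((t : ℤ) + 1) = s := by
    intro w hw
    have h1 : zf w ((t : ℤ) + 1) = ((sk w (t + 1)).card : ℤ) := by
      have := zf_nat w (t + 1)
      push_cast at this
      exact this
    have h2 : sk w (t + 1) = (sk w L).filter (fun u => ¬ t < u) := by
      unfold sk
      ext u
      simp only [mem_filter, mem_range]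
      constructor
      · rintro ⟨h3, h4⟩
        exact ⟨⟨by omega, h4⟩, by omega⟩
      · rintro ⟨⟨h3, h4⟩, h5⟩
        exact ⟨by omega, h4⟩
    have h3 := card_filter_add_card_filter_not (s := sk w L) (fun u => t < u)
    rw [h1, h2]
    have h4 := hw.cnt
    rw [← h4]
    exact_mod_cast h3
  have k1 := key w h
  have k2 := key w' h'
  have z1 := zf_isZ w (t : ℤ)
  have z2 := zf_isZ w' (t : ℤ)
  rw [he] at z1
  have h5 : ((sk w L).filter (fun u => t < u)).card = ((sk w' L).filter (fun u => t < u)).card := by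
    have : (((sk w L).filter (fun u => t < u)).card : ℤ) =
        (((sk w' L).filter (fun u => t < u)).card : ℤ) := by
      rw [z1, hz] at k1
      rw [z2] at k2
      linarith
    exact_mod_cast this
  unfold wt
  rw [h5]

private theorem C2a_F_sub (L : ℕ) (p : (ℤ → Option B) × (ℤ → Option B)) :
    C2a_F L p ⊆ range L := filter_subset _ _

private theorem C2a_memF {L : ℕ} {p : (ℤ → Option B) × (ℤ → Option B)} {t : ℕ} :
    t ∈ C2a_F L p ↔ t < L ∧ zf p.1 t = zf p.2 t ∧ p.1 (t : ℤ) = p.2 (t : ℤ) ∧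
      p.1 (t : ℤ) ≠ none := by
  unfold C2a_F
  rw [mem_filter, mem_range]

private theorem C2a_F1 {L : ℕ} {p : (ℤ → Option B) × (ℤ → Option B)} :
    ∀ t ∈ C2a_F L p, p.1 ((t : ℕ) : ℤ) ≠ none := fun _ h => (C2a_memF.1 h).2.2.2

private theorem C2a_F2 {L : ℕ} {p : (ℤ → Option B) × (ℤ → Option B)} :
    ∀ t ∈ C2a_F L p, p.2 ((t : ℕ) : ℤ) ≠ none := fun _ h => by
  rw [← (C2a_memF.1 h).2.2.1]
  exact (C2a_memF.1 h).2.2.2

/-- the resampled pair -/
private noncomputable def C2a_R (L : ℕ) (p : (ℤ → Option B) × (ℤ → Option B))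
    (φ : {j // j ∈ C2a_F L p} → B) : (ℤ → Option B) × (ℤ → Option B) :=
  (C2a_rs L (C2a_F L p) φ p.1, C2a_rs L (C2a_F L p) φ p.2)

private theorem C2a_diff {d m L s : ℕ} (hL : 0 < L) {p : (ℤ → Option B) × (ℤ → Option B)}
    (h1 : Wd p.1 L s) (h2 : Wd p.2 L s) (φ : {j // j ∈ C2a_F L p} → B) (i : B) :
    ((V d m (C2a_R L p φ).1 L i : ℤ) - (V d m (C2a_R L p φ).2 L i : ℤ)) =
      (C2a_base d m L (C2a_F L p) p.1 i : ℤ) - (C2a_base d m L (C2a_F L p) p.2 i : ℤ) := by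
  unfold C2a_R
  rw [C2a_V hL (C2a_F_sub L p) φ h1.per C2a_F1, C2a_V hL (C2a_F_sub L p) φ h2.per C2a_F2]
  have h3 : ∑ j : {j // j ∈ C2a_F L p}, (if φ j = i then wt d m (sk p.1 L) j.1 else 0) =
      ∑ j : {j // j ∈ C2a_F L p}, (if φ j = i then wt d m (sk p.2 L) j.1 else 0) := by
    apply sum_congr rfl
    rintro ⟨j, hj⟩ _
    have h4 := C2a_memF.1 hj
    rw [C2a_wt h1 h2 h4.1 h4.2.1 h4.2.2.1]
  rw [h3]
  push_cast
  ring

/-- a pair is the resampling of each pair of its class -/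
private theorem C2a_rep {L : ℕ} (hL : 0 < L) (b0 : B) {p q : (ℤ → Option B) × (ℤ → Option B)}
    (hq1 : Per q.1 L) (hq2 : Per q.2 L) (hk : C2a_key L q = C2a_key L p) :
    q = C2a_R L p (fun j => (q.1 ((j.1 : ℕ) : ℤ)).getD b0) := by
  unfold C2a_key at hk
  rw [Prod.mk.injEq, Prod.mk.injEq] at hk
  obtain ⟨hF, hk1, hk2⟩ := hk
  rw [hF] at hk1 hk2
  have hin : ∀ x : ℤ, (x % (L : ℤ)).toNat ∈ C2a_F L p →
      q.1 x = some ((q.1 (((x % (L : ℤ)).toNat : ℕ) : ℤ)).getD b0) ∧ q.2 x = q.1 x := by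
    intro x hx
    rw [← hF] at hx
    have h1 := C2a_memF.1 hx
    rw [C2a_at hL hq1, C2a_at hL hq2] at h1
    rw [C2a_at hL hq1]
    obtain ⟨c, hc⟩ := Option.ne_none_iff_exists'.1 h1.2.2.2
    refine ⟨?_, h1.2.2.1.symm⟩
    rw [hc]
    rfl
  refine Prod.ext ?_ ?_
  · funext x
    show q.1 x = C2a_rs L (C2a_F L p) (fun j => (q.1 ((j.1 : ℕ) : ℤ)).getD b0) p.1 x
    unfold C2a_rs
    split_ifs with h
    · exact (hin x h).1
    · have h1 := congrFun hk1 x
      unfold C2a_off at h1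
      rwa [if_neg h, if_neg h] at h1
  · funext x
    show q.2 x = C2a_rs L (C2a_F L p) (fun j => (q.1 ((j.1 : ℕ) : ℤ)).getD b0) p.2 x
    unfold C2a_rs
    split_ifs with h
    · rw [(hin x h).2]
      exact (hin x h).1
    · have h1 := congrFun hk2 x
      unfold C2a_off at h1
      rwa [if_neg h, if_neg h] at h1

private theorem C2a_FR {L : ℕ} (hL : 0 < L) {p : (ℤ → Option B) × (ℤ → Option B)}
    (h1 : Per p.1 L) (h2 : Per p.2 L) (φ : {j // j ∈ C2a_F L p} → B) :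
    C2a_F L (C2a_R L p φ) = C2a_F L p := by
  ext t
  rw [C2a_memF]
  have z1 : zf (C2a_R L p φ).1 = zf p.1 := C2a_rs_zf hL φ h1 C2a_F1
  have z2 : zf (C2a_R L p φ).2 = zf p.2 := C2a_rs_zf hL φ h2 C2a_F2
  rw [z1, z2]
  by_cases htL : t < L
  swap
  · constructor
    · intro h
      exact absurd h.1 htL
    · intro h
      exact absurd (C2a_memF.1 h).1 htL
  by_cases ht : t ∈ C2a_F L p
  · have e1 : (C2a_R L p φ).1 (t : ℤ) = some (φ ⟨t, ht⟩) := C2a_rs_in φ p.1 htL ht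
    have e2 : (C2a_R L p φ).2 (t : ℤ) = some (φ ⟨t, ht⟩) := C2a_rs_in φ p.2 htL ht
    rw [e1, e2]
    exact ⟨fun _ => ht, fun _ => ⟨htL, (C2a_memF.1 ht).2.1, rfl, by simp⟩⟩
  · have e1 : (C2a_R L p φ).1 (t : ℤ) = p.1 (t : ℤ) := C2a_rs_out φ p.1 htL ht
    have e2 : (C2a_R L p φ).2 (t : ℤ) = p.2 (t : ℤ) := C2a_rs_out φ p.2 htL ht
    rw [e1, e2, C2a_memF]

private theorem C2a_keyR {L : ℕ} (hL : 0 < L) {p : (ℤ → Option B) × (ℤ → Option B)}
    (h1 : Per p.1 L) (h2 : Per p.2 L) (φ : {j // j ∈ C2a_F L p} → B) :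
    C2a_key L (C2a_R L p φ) = C2a_key L p := by
  unfold C2a_key
  rw [C2a_FR hL h1 h2 φ]
  have key : ∀ w : ℤ → Option B,
      C2a_off L (C2a_F L p) (C2a_rs L (C2a_F L p) φ w) = C2a_off L (C2a_F L p) w := by
    intro w
    funext x
    unfold C2a_off C2a_rs
    split_ifs with h
    · rfl
    · rfl
  unfold C2a_R
  rw [key, key]

private theorem C2a_Rinj {L : ℕ} {p : (ℤ → Option B) × (ℤ → Option B)} :
    Function.Injective (C2a_R L p) := by
  intro φ ψ h
  funext j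
  have h1 := congrFun (congrArg Prod.fst h) ((j.1 : ℕ) : ℤ)
  have hj := (C2a_memF.1 j.2).1
  have e1 : (C2a_R L p φ).1 ((j.1 : ℕ) : ℤ) = some (φ ⟨j.1, j.2⟩) := C2a_rs_in φ p.1 hj j.2
  have e2 : (C2a_R L p ψ).1 ((j.1 : ℕ) : ℤ) = some (ψ ⟨j.1, j.2⟩) := C2a_rs_in ψ p.1 hj j.2
  rw [e1, e2] at h1
  exact Option.some.inj h1

private theorem C2a_memSG {b m L s D y G : ℕ} (hL : 0 < L)
    {p : (ℤ → Option B) × (ℤ → Option B)} :
    p ∈ SG B b m L s D y G ↔ Wd p.1 L s ∧ Wd p.2 L s ∧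
    Ty b p.1 L (Del L) ∧ Ty b p.2 L (Del L) ∧ p.1 ≠ p.2 ∧ gG (b + 1) m D L p.1 p.2 = G ∧
    kd p.1 p.2 L ≤ 12 * 10 ^ 7 * y + 80 * y ∧ 10 ^ 4 * dis p.1 p.2 L ≤ L := by
  unfold SG
  simp only [mem_filter, mem_product]
  constructor
  · rintro ⟨_, h⟩
    exact h
  · intro h
    exact ⟨⟨(mem_PW hL _).2 h.1.per, (mem_PW hL _).2 h.2.1.per⟩, h⟩

private theorem C2a_RSG {b m L s D y G : ℕ} (hL : 0 < L) (b0 : B)
    {p : (ℤ → Option B) × (ℤ → Option B)} (hp : p ∈ SG B b m L s D y G)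
    (φ : {j // j ∈ C2a_F L p} → B) : C2a_R L p φ ∈ SG B b m L s D y G := by
  rw [C2a_memSG hL] at hp ⊢
  obtain ⟨h1, h2, h3, h4, h5, h6, h7, h8⟩ := hp
  have z1 : zf (C2a_R L p φ).1 = zf p.1 := C2a_rs_zf hL φ h1.per C2a_F1
  have z2 : zf (C2a_R L p φ).2 = zf p.2 := C2a_rs_zf hL φ h2.per C2a_F2
  have w1 : Wd (C2a_R L p φ).1 L s :=
    ⟨C2a_rs_per φ h1.per, by
      show (sk (C2a_rs L (C2a_F L p) φ p.1) L).card = s
      rw [C2a_rs_sk hL φ h1.per C2a_F1]
      exact h1.cnt⟩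
  have w2 : Wd (C2a_R L p φ).2 L s :=
    ⟨C2a_rs_per φ h2.per, by
      show (sk (C2a_rs L (C2a_F L p) φ p.2) L).card = s
      rw [C2a_rs_sk hL φ h2.per C2a_F2]
      exact h2.cnt⟩
  refine ⟨w1, w2, ?_, ?_, ?_, ?_, ?_, ?_⟩
  · unfold Ty
    rw [z1]
    exact h3
  · unfold Ty
    rw [z2]
    exact h4
  · intro he
    apply h5
    funext x
    have h9 := congrFun he x
    have e1 : (C2a_R L p φ).1 x = C2a_rs L (C2a_F L p) φ p.1 x := rfl
    have e2 : (C2a_R L p φ).2 x = C2a_rs L (C2a_F L p) φ p.2 x := rfl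
    rw [e1, e2] at h9
    unfold C2a_rs at h9
    split_ifs at h9 with h
    · have h10 := (C2a_memF.1 h).2.2.1
      rwa [C2a_at hL h1.per, C2a_at hL h2.per] at h10
    · exact h9
  · rw [← h6]
    have hrep := C2a_rep hL b0 h1.per h2.per (rfl : C2a_key L p = C2a_key L p)
    unfold gG
    congr 2
    funext i
    have e1 := C2a_diff (d := b + 1) (m := m) hL h1 h2 φ i
    have e2 := C2a_diff (d := b + 1) (m := m) hL h1 h2
      (fun j => (p.1 ((j.1 : ℕ) : ℤ)).getD b0) i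
    rw [← hrep] at e2
    rw [e1, e2]
  · unfold kd
    rw [z1, z2]
    exact h7
  · have hd : dis (C2a_R L p φ).1 (C2a_R L p φ).2 L = dis p.1 p.2 L := by
      unfold dis
      congr 1
      apply filter_congr
      intro x hx
      have e1 : (C2a_R L p φ).1 x = C2a_rs L (C2a_F L p) φ p.1 x := rfl
      have e2 : (C2a_R L p φ).2 x = C2a_rs L (C2a_F L p) φ p.2 x := rfl
      rw [e1, e2]
      unfold C2a_rs
      split_ifs with h
      · have h10 := (C2a_memF.1 h).2.2.1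
        rw [C2a_at hL h1.per, C2a_at hL h2.per] at h10
        rw [h10]
        simp
      · rfl
    rw [hd]
    exact h8

/-- few positions are not free -/
private theorem C2a_few {L s ε : ℕ} (hz : L ≤ s + ε) {p : (ℤ → Option B) × (ℤ → Option B)}
    (h1 : Wd p.1 L s) :
    L - (C2a_F L p).card ≤ kd p.1 p.2 L + dis p.1 p.2 L + ε := by
  have hcast : ∀ (P : ℤ → Prop) [DecidablePred P],
      ((range L).filter (fun t : ℕ => P (t : ℤ))).card ≤ ((Ico (0 : ℤ) L).filter P).card := by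
    intro P _
    apply card_le_card_of_injOn (fun t : ℕ => (t : ℤ))
    · intro t ht
      simp only [coe_filter, mem_range, Set.mem_ofPred_eq, mem_Ico] at ht ⊢
      exact ⟨⟨by omega, by omega⟩, ht.2⟩
    · intro a _ c _ hac
      have hac' : ((a : ℕ) : ℤ) = ((c : ℕ) : ℤ) := hac
      exact_mod_cast hac'
  have hsub : range L \ C2a_F L p ⊆
      ((range L).filter (fun t : ℕ => zf p.1 (t : ℤ) ≠ zf p.2 (t : ℤ)) ∪
        (range L).filter (fun t : ℕ => p.1 (t : ℤ) ≠ p.2 (t : ℤ))) ∪ (range L \ sk p.1 L) := by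
    intro t ht
    rw [mem_sdiff, C2a_memF, mem_range] at ht
    rw [mem_union, mem_union, mem_filter, mem_filter, mem_sdiff, mem_range]
    by_cases c1 : zf p.1 (t : ℤ) = zf p.2 (t : ℤ)
    · by_cases c2 : p.1 (t : ℤ) = p.2 (t : ℤ)
      · right
        refine ⟨ht.1, fun h => ht.2 ⟨ht.1, c1, c2, ?_⟩⟩
        have := (mem_filter.1 h).2
        exact Option.isSome_iff_ne_none.1 this
      · left; right
        exact ⟨ht.1, c2⟩
    · left; left
      exact ⟨ht.1, c1⟩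
  have hsk : sk p.1 L ⊆ range L := filter_subset _ _
  have e1 : (range L \ sk p.1 L).card = L - s := by
    rw [card_sdiff_of_subset hsk, card_range, h1.cnt]
  have e2 : (range L \ C2a_F L p).card = L - (C2a_F L p).card := by
    rw [card_sdiff_of_subset (C2a_F_sub L p), card_range]
  have e3 := hcast (fun t => zf p.1 t ≠ zf p.2 t)
  have e4 := hcast (fun t => p.1 t ≠ p.2 t)
  have e5 := card_le_card hsub
  have e6 := card_union_le ((range L).filter (fun t : ℕ => zf p.1 (t : ℤ) ≠ zf p.2 (t : ℤ)) ∪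
        (range L).filter (fun t : ℕ => p.1 (t : ℤ) ≠ p.2 (t : ℤ))) (range L \ sk p.1 L)
  have e7 := card_union_le ((range L).filter (fun t : ℕ => zf p.1 (t : ℤ) ≠ zf p.2 (t : ℤ)))
        ((range L).filter (fun t : ℕ => p.1 (t : ℤ) ≠ p.2 (t : ℤ)))
  have e8 : kd p.1 p.2 L = ((Ico (0 : ℤ) L).filter (fun t => zf p.1 t ≠ zf p.2 t)).card := rfl
  have e9 : dis p.1 p.2 L = ((Ico (0 : ℤ) L).filter (fun t => p.1 t ≠ p.2 t)).card := rfl
  rw [e2] at e5
  rw [e1] at e6
  rw [← e8] at e3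
  rw [← e9] at e4
  omega

/-- sums of squares over the units -/
private theorem C2a_units {f : ℕ} (hf : 0 < f) (n : (ZMod f)ˣ → ℕ) [Fintype (ZMod f)ˣ]
    (M : ℕ) (h : ∀ κ, n κ ^ 2 * f ^ 7 ≤ M) : (∑ κ, n κ) ^ 2 * f ^ 5 ≤ M := by
  have h1 := sq_sum_le_card_mul_sum_sq (s := (univ : Finset (ZMod f)ˣ)) (f := n)
  have hcard : (univ : Finset (ZMod f)ˣ).card ≤ f := by
    have : NeZero f := ⟨hf.ne'⟩
    rw [card_univ, Fintype.card_congr (Equiv.refl (ZMod f)ˣ), ZMod.card_units_eq_totient]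
    exact Nat.totient_le f
  have h2 : (∑ κ, n κ ^ 2) * f ^ 7 ≤ f * M := by
    rw [sum_mul]
    calc ∑ κ, n κ ^ 2 * f ^ 7 ≤ ∑ _κ : (ZMod f)ˣ, M := sum_le_sum fun κ _ => h κ
      _ = (univ : Finset (ZMod f)ˣ).card * M := by rw [sum_const, smul_eq_mul]
      _ ≤ f * M := Nat.mul_le_mul_right _ hcard
  have h3 : (∑ κ, n κ) ^ 2 * f ^ 5 * (f ^ 2) ≤ M * f ^ 2 := by
    calc (∑ κ, n κ) ^ 2 * f ^ 5 * (f ^ 2) = (∑ κ, n κ) ^ 2 * f ^ 7 := by ring
      _ ≤ ((univ : Finset (ZMod f)ˣ).card * ∑ κ, n κ ^ 2) * f ^ 7 := Nat.mul_le_mul_right _ h1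
      _ = (univ : Finset (ZMod f)ˣ).card * ((∑ κ, n κ ^ 2) * f ^ 7) := by ring
      _ ≤ f * (f * M) := Nat.mul_le_mul hcard h2
      _ = M * f ^ 2 := by ring
  exact Nat.le_of_mul_le_mul_right h3 (by positivity)

/-- from the classes to the sum -/
private theorem C2a_sum {ι : Type} (K : Finset ι) (a c : ι → ℕ) (f : ℕ)
    (h : ∀ k ∈ K, a k ^ 2 * f ^ 5 ≤ c k ^ 2) : (∑ k ∈ K, a k) ^ 2 * f ^ 5 ≤ (∑ k ∈ K, c k) ^ 2 := by
  have h1 : ∀ k ∈ K, (a k : ℝ) * √((f : ℝ) ^ 5) ≤ (c k : ℝ) := by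
    intro k hk
    have h2 : ((a k : ℝ)) ^ 2 * (f : ℝ) ^ 5 ≤ (c k : ℝ) ^ 2 := by exact_mod_cast h k hk
    apply le_of_sq_le_sq _ (by positivity)
    rw [mul_pow, Real.sq_sqrt (by positivity)]
    exact h2
  have h3 : ((∑ k ∈ K, a k : ℕ) : ℝ) * √((f : ℝ) ^ 5) ≤ ((∑ k ∈ K, c k : ℕ) : ℝ) := by
    push_cast
    rw [sum_mul]
    exact sum_le_sum h1
  have h4 : (((∑ k ∈ K, a k : ℕ) : ℝ) * √((f : ℝ) ^ 5)) ^ 2 ≤ ((∑ k ∈ K, c k : ℕ) : ℝ) ^ 2 :=
    pow_le_pow_left₀ (by positivity) h3 2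
  rw [mul_pow, Real.sq_sqrt (by positivity)] at h4
  exact_mod_cast h4

theorem C2a {b m L s y ε M0 D G f : ℕ} (hB : Fintype.card B = b) (N : NP b m L s y ε)
    (Q : DP b m L s M0 D) (hG : G ∣ D) (hGe : D ≤ G * (b + 1) ^ (3 * 10 ^ 7 * y))
    (hf : f ∣ D / G) (hf17 : 17 ≤ f) (T : Finset ((ℤ → Option B) × (ℤ → Option B)))
    (hT : T ⊆ SG B b m L s D y G)
    (hpar : ∀ p ∈ T, ∃ κ : (ZMod f)ˣ, ∀ i, (V (b + 1) m p.1 L i : ZMod f) =
      κ * ((zd (b + 1) m G L p.1 p.2 i : ℤ) : ZMod f)) :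
    T.card ^ 2 * f ^ 5 ≤ (SG B b m L s D y G).card ^ 2 := by
  classical
  obtain ⟨-, hL⟩ := N.s_pos
  have hb := N.b1
  have hyL := N.Lge
  have hyge := N.yge
  have hf0 : 0 < f := by omega
  have : NeZero f := ⟨hf0.ne'⟩
  have hB0 : 0 < Fintype.card B := by
    rw [hB]
    have : 0 < 2 ^ 60 := by positivity
    omega
  obtain ⟨b0⟩ : Nonempty B := Fintype.card_pos_iff.1 hB0
  have hfD : f ∣ D := hf.trans (Nat.div_dvd_of_dvd hG)
  have hcop := DP.cop N Q hfD
  have hD0 : 0 < D := by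
    rcases Nat.eq_zero_or_pos D with h | h
    · have := Q.ge
      rw [h, zero_mul] at this
      have h2 : 0 < (b + 1) ^ L := by positivity
      omega
    · exact h
  have hDG : 0 < D / G := Nat.div_pos (Nat.le_of_dvd hD0 hG) (Nat.pos_of_dvd_of_pos hG hD0)
  have hfle : f ≤ (b + 1) ^ (L / 18) := by
    calc f ≤ D / G := Nat.le_of_dvd hDG hf
      _ ≤ (b + 1) ^ (3 * 10 ^ 7 * y) := Nat.div_le_of_le_mul hGe
      _ ≤ (b + 1) ^ (L / 18) := by
          apply Nat.pow_le_pow_right (by omega)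
          omega
  rw [card_eq_sum_card_fiberwise (s := T) (t := (SG B b m L s D y G).image (C2a_key L))
    (f := C2a_key L) (fun p hp => mem_image_of_mem _ (hT hp)),
    card_eq_sum_card_fiberwise (s := SG B b m L s D y G)
      (t := (SG B b m L s D y G).image (C2a_key L))
    (f := C2a_key L) (fun p hp => mem_image_of_mem _ hp)]
  apply C2a_sum
  intro k hk
  obtain ⟨p, hp, rfl⟩ := mem_image.1 hk
  have hp' := (C2a_memSG hL).1 hp
  obtain ⟨h1, h2, h3, h4, h5, h6, h7, h8⟩ := hp'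
  -- the size of the class
  have hclass : b ^ (C2a_F L p).card ≤
      ((SG B b m L s D y G).filter (fun q => C2a_key L q = C2a_key L p)).card := by
    have e1 : (univ : Finset ({j // j ∈ C2a_F L p} → B)).card = b ^ (C2a_F L p).card := by
      rw [card_univ, Fintype.card_fun, Fintype.card_coe, hB]
    rw [← e1]
    apply card_le_card_of_injOn (C2a_R L p)
    · intro φ _
      rw [mem_coe, mem_filter]
      exact ⟨C2a_RSG hL b0 hp φ, C2a_keyR hL h1.per h2.per φ⟩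
    · exact C2a_Rinj.injOn
  -- the bad letters
  have hfew := C2a_few (p := p) N.zer h1
  have hFL : 4000 * (L - (C2a_F L p).card) ≤ L := by
    have := N.eps
    omega
  let vv : (ZMod f)ˣ → B → ZMod f := fun κ i =>
    κ * ((zd (b + 1) m G L p.1 p.2 i : ℤ) : ZMod f) -
      (C2a_base (b + 1) m L (C2a_F L p) p.1 i : ZMod f)
  let nn : (ZMod f)ˣ → ℕ := fun κ =>
    ((univ : Finset ({j // j ∈ C2a_F L p} → B)).filter (fun φ =>
      Vf (fun j : {j // j ∈ C2a_F L p} => (wt (b + 1) m (sk p.1 L) j : ZMod f)) φ = vv κ)).card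
  have hFN : C2a_F L p ⊆ sk p.1 L := by
    intro t ht
    have h9 := C2a_memF.1 ht
    unfold sk
    rw [mem_filter, mem_range]
    exact ⟨h9.1, Option.isSome_iff_ne_none.2 h9.2.2.2⟩
  have hnn : ∀ κ, nn κ ^ 2 * f ^ 7 ≤ b ^ (2 * (C2a_F L p).card) := fun κ =>
    supW hB hb N.dm N.m2 N.cop hcop.1 hcop.2 (by omega) (sk p.1 L) (C2a_F L p)
      (filter_subset _ _) hFN hFL f hf17 le_rfl hfle (vv κ)
  have hsum := C2a_units hf0 nn _ hnn
  have hTle : (T.filter (fun q => C2a_key L q = C2a_key L p)).card ≤ ∑ κ, nn κ := by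
    have hsub : T.filter (fun q => C2a_key L q = C2a_key L p) ⊆
        ((univ : Finset (ZMod f)ˣ).biUnion fun κ =>
          (univ : Finset ({j // j ∈ C2a_F L p} → B)).filter (fun φ =>
          Vf (fun j : {j // j ∈ C2a_F L p} => (wt (b + 1) m (sk p.1 L) j : ZMod f)) φ =
            vv κ)).image (C2a_R L p) := by
      intro q hq
      rw [mem_filter] at hq
      obtain ⟨hqT, hqk⟩ := hq
      have hq' := (C2a_memSG hL).1 (hT hqT)
      have hrep := C2a_rep hL b0 hq'.1.per hq'.2.1.per hqk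
      obtain ⟨κ, hκ⟩ := hpar q hqT
      rw [mem_image]
      refine ⟨fun j => (q.1 ((j.1 : ℕ) : ℤ)).getD b0, ?_, hrep.symm⟩
      rw [mem_biUnion]
      refine ⟨κ, mem_univ _, ?_⟩
      rw [mem_filter]
      refine ⟨mem_univ _, ?_⟩
      funext i
      have hκi := hκ i
      -- the difference is that of `p`
      have hzd : zd (b + 1) m G L q.1 q.2 i = zd (b + 1) m G L p.1 p.2 i := by
        have e1 := C2a_diff (d := b + 1) (m := m) hL h1 h2
          (fun j => (q.1 ((j.1 : ℕ) : ℤ)).getD b0) i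
        have e2 := C2a_diff (d := b + 1) (m := m) hL h1 h2
          (fun j => (p.1 ((j.1 : ℕ) : ℤ)).getD b0) i
        rw [← hrep] at e1
        rw [← C2a_rep hL b0 h1.per h2.per (rfl : C2a_key L p = C2a_key L p)] at e2
        unfold zd
        congr 1
        linarith
      have hV : V (b + 1) m q.1 L i = C2a_base (b + 1) m L (C2a_F L p) p.1 i +
          ∑ j : {j // j ∈ C2a_F L p}, if (q.1 ((j.1 : ℕ) : ℤ)).getD b0 = i then
            wt (b + 1) m (sk p.1 L) j.1 else 0 := by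
        have e3 := C2a_V (d := b + 1) (m := m) hL (C2a_F_sub L p)
          (fun j : {j // j ∈ C2a_F L p} => (q.1 ((j.1 : ℕ) : ℤ)).getD b0) h1.per C2a_F1 i
        have e4 : q.1 = C2a_rs L (C2a_F L p)
          (fun j : {j // j ∈ C2a_F L p} => (q.1 ((j.1 : ℕ) : ℤ)).getD b0) p.1 :=
          congrArg Prod.fst hrep
        rw [← e4] at e3
        exact e3
      rw [hV, hzd] at hκi
      show Vf _ _ i = κ * ((zd (b + 1) m G L p.1 p.2 i : ℤ) : ZMod f) -
        (C2a_base (b + 1) m L (C2a_F L p) p.1 i : ZMod f)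
      rw [← hκi]
      unfold Vf
      rw [sum_filter]
      push_cast
      rw [add_sub_cancel_left]
    calc (T.filter (fun q => C2a_key L q = C2a_key L p)).card ≤ _ := card_le_card hsub
      _ ≤ _ := card_image_le
      _ ≤ ∑ κ, nn κ := card_biUnion_le
  calc (T.filter (fun q => C2a_key L q = C2a_key L p)).card ^ 2 * f ^ 5
      ≤ (∑ κ, nn κ) ^ 2 * f ^ 5 := by gcongr
    _ ≤ b ^ (2 * (C2a_F L p).card) := hsum
    _ = (b ^ (C2a_F L p).card) ^ 2 := by rw [← pow_mul, mul_comm]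
    _ ≤ _ := Nat.pow_le_pow_left hclass 2

end GC85
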