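import Mathlib
import Pool.Agent.Helper85.DN.CDefs

/-!
# DN-C2b: the modulus of proportionality of a pair with greatest common divisor `G`

`g0 = gcd (g, G)`, `f = g / g0`; `f ∣ D / G` because `g ∣ D = G (D / G)`. Let `l` be the factor, `V w' = l V w`
modulo `g`. Modulo `g0`: `V w' = V w`, so `(l - 1) V w = 0` modulo `g0` for all `i`, and `w` is primitive, so
`g0 ∣ l - 1` (for integers representing `l`: if a prime power of `g0` did not divide `l - 1`, then its
prime would divide all `V w i`). Write `l - 1 = g0 c`. With `V w' - V w = G zd`: `g ∣ G zd - g0 c V w`, so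
`f ∣ (G / g0) zd - c V w`, and `G / g0` is coprime to `f`. The numbers `zd i` have no common prime factor with
`D / G` (definition of `gG`), so `c` is a unit modulo `f`. So `V w = c⁻¹ (G / g0) zd` modulo `f`.
If `f ≠ 1` then `17 ≤ M0 ≤ f` (`DP.prm`).
-/

set_option autoImplicit false

namespace GC85

open Finset GC70

variable {B : Type} [Fintype B] [DecidableEq B]

theorem C2b {b m L s y ε M0 D G g : ℕ} (N : NP b m L s y ε)
    (Q : DP b m L s M0 D) {w w' : ℤ → Option B} (hG : gG (b + 1) m D L w w' = G) (hgD : g ∣ D)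
    (hp : Prim (b + 1) m D L w) (hr : RelG (b + 1) m g L L w w') :
    ∃ f : ℕ, f ∣ D / G ∧ g ≤ G * f ∧ (f = 1 ∨ (17 ≤ f ∧ ∃ κ : (ZMod f)ˣ, ∀ i,
      (V (b + 1) m w L i : ZMod f) = κ * ((zd (b + 1) m G L w w' i : ℤ) : ZMod f))) := by
  have hD : 0 < D := by
    rcases Nat.eq_zero_or_pos D with h | h
    · exfalso
      have h1 := Q.ge
      rw [h, zero_mul] at h1
      have h2 : 0 < (b + 1) ^ L := by positivity
      omega
    · exact h
  have hGD : G ∣ D := hG ▸ Nat.gcd_dvd_left _ _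
  have hGV : ∀ i, (G : ℤ) ∣ (V (b + 1) m w' L i : ℤ) - (V (b + 1) m w L i : ℤ) := by
    intro i
    have h1 : G ∣ ((V (b + 1) m w L i : ℤ) - (V (b + 1) m w' L i : ℤ)).natAbs := by
      rw [← hG]
      exact (Nat.gcd_dvd_right _ _).trans (Finset.gcd_dvd (mem_univ i))
    rw [← Int.natCast_dvd] at h1
    rw [← dvd_neg, neg_sub]
    exact h1
  have hGmax : ∀ h : ℕ, h ∣ D →
      (∀ i, (h : ℤ) ∣ (V (b + 1) m w' L i : ℤ) - (V (b + 1) m w L i : ℤ)) → h ∣ G := by
    intro h h1 h2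
    rw [← hG]
    refine Nat.dvd_gcd h1 (Finset.dvd_gcd fun i _ => ?_)
    rw [← Int.natCast_dvd, ← dvd_neg, neg_sub]
    exact h2 i
  have hzd : ∀ i, (V (b + 1) m w' L i : ℤ) - (V (b + 1) m w L i : ℤ) =
      G * zd (b + 1) m G L w w' i := by
    intro i
    unfold zd
    rw [Int.mul_ediv_cancel' (hGV i)]
  have hG0 : 0 < G := Nat.pos_of_dvd_of_pos hGD hD
  have hg : 0 < g := Nat.pos_of_dvd_of_pos hgD hD
  have : NeZero g := ⟨hg.ne'⟩
  obtain ⟨l, hl⟩ := hr
  obtain ⟨l', hl'⟩ : ∃ l' : ℤ, (l' : ZMod g) = (l : ZMod g) :=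
    ⟨((l : ZMod g).val : ℤ), by rw [Int.cast_natCast, ZMod.natCast_zmod_val]⟩
  have hgl : ∀ i, (g : ℤ) ∣ (V (b + 1) m w' L i : ℤ) - l' * (V (b + 1) m w L i : ℤ) := by
    intro i
    rw [← ZMod.intCast_zmod_eq_zero_iff_dvd]
    push_cast
    rw [hl', hl i, sub_self]
  obtain ⟨f, G1, hco, hgf, hGf⟩ := Nat.exists_coprime g G
  set g0 := Nat.gcd g G with hg0
  have hg0p : 0 < g0 := Nat.gcd_pos_of_pos_left _ hg
  have hg0G : g0 ∣ G := Nat.gcd_dvd_right _ _
  have hg0g : g0 ∣ g := Nat.gcd_dvd_left _ _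
  have hfp : 0 < f := by
    rcases Nat.eq_zero_or_pos f with h | h
    · rw [h, zero_mul] at hgf
      omega
    · exact h
  -- `g0` divides `l' - 1`
  have hl1 : (g0 : ℤ) ∣ l' - 1 := by
    have h1 : ∀ i, g0 ∣ (l' - 1).natAbs * V (b + 1) m w L i := by
      intro i
      have h2 : (g0 : ℤ) ∣ (l' - 1) * (V (b + 1) m w L i : ℤ) := by
        have e1 : (g0 : ℤ) ∣ (V (b + 1) m w' L i : ℤ) - (V (b + 1) m w L i : ℤ) :=
          (Int.natCast_dvd_natCast.2 hg0G).trans (hGV i)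
        have e2 : (g0 : ℤ) ∣ (V (b + 1) m w' L i : ℤ) - l' * (V (b + 1) m w L i : ℤ) :=
          (Int.natCast_dvd_natCast.2 hg0g).trans (hgl i)
        have e3 := dvd_sub e1 e2
        have e4 : (V (b + 1) m w' L i : ℤ) - (V (b + 1) m w L i : ℤ) -
            ((V (b + 1) m w' L i : ℤ) - l' * (V (b + 1) m w L i : ℤ)) =
            (l' - 1) * (V (b + 1) m w L i : ℤ) := by ring
        rwa [e4] at e3
      rw [Int.natCast_dvd, Int.natAbs_mul, Int.natAbs_natCast] at h2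
      exact h2
    obtain ⟨h, u1, hco', hh, hu⟩ := Nat.exists_coprime g0 (l' - 1).natAbs
    set e := Nat.gcd g0 (l' - 1).natAbs with he
    have hep : 0 < e := Nat.gcd_pos_of_pos_left _ hg0p
    have h3 : ∀ i, h ∣ V (b + 1) m w L i := by
      intro i
      have h4 := h1 i
      rw [hu, hh, mul_comm u1 e, mul_comm h e, mul_assoc] at h4
      exact hco'.dvd_of_dvd_mul_left (Nat.dvd_of_mul_dvd_mul_left hep h4)
    have h5 : h = 1 := by
      by_contra h6
      obtain ⟨p, hpp, hph⟩ := Nat.exists_prime_and_dvd h6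
      have h7 : p ∣ D := by
        have : h ∣ g0 := ⟨e, hh⟩
        exact (hph.trans this).trans (hg0G.trans hGD)
      obtain ⟨i, hi⟩ := hp p hpp h7
      exact hi (hph.trans (h3 i))
    rw [Int.natCast_dvd]
    rw [h5, one_mul] at hh
    rw [hh]
    exact Nat.gcd_dvd_right _ _
  obtain ⟨c, hc⟩ := hl1
  -- `f` divides `D / G`
  have hfD : f ∣ D / G := by
    obtain ⟨D1, hD1⟩ := hGD
    have h1 : D / G = D1 := by
      rw [hD1, Nat.mul_div_cancel_left _ hG0]
    rw [h1]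
    have h2 := hgD
    rw [hgf, hD1, hGf] at h2
    have h3 : g0 * f ∣ g0 * (G1 * D1) := by
      have e1 : f * g0 = g0 * f := mul_comm _ _
      have e2 : G1 * g0 * D1 = g0 * (G1 * D1) := by ring
      rw [← e1, ← e2]
      exact h2
    exact hco.dvd_of_dvd_mul_left (Nat.dvd_of_mul_dvd_mul_left hg0p h3)
  have hrel : ∀ i, (f : ℤ) ∣ (G1 : ℤ) * zd (b + 1) m G L w w' i -
      c * (V (b + 1) m w L i : ℤ) := by
    intro i
    have h1 := hgl i
    have h2 : (V (b + 1) m w' L i : ℤ) - l' * (V (b + 1) m w L i : ℤ) =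
        (g0 : ℤ) * ((G1 : ℤ) * zd (b + 1) m G L w w' i - c * (V (b + 1) m w L i : ℤ)) := by
      have e1 : (G : ℤ) = G1 * g0 := by exact_mod_cast hGf
      have e2 := hzd i
      have e3 : l' = 1 + g0 * c := by linarith
      have e4 : (V (b + 1) m w' L i : ℤ) = V (b + 1) m w L i +
        G * zd (b + 1) m G L w w' i := by linarith
      rw [e4, e3, e1]
      ring
    have e5 : (g : ℤ) = g0 * f := by
      rw [mul_comm]
      exact_mod_cast hgf
    rw [h2, e5] at h1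
    exact Int.dvd_of_mul_dvd_mul_left (by exact_mod_cast hg0p.ne') h1
  refine ⟨f, hfD, ?_, ?_⟩
  · rw [hgf, mul_comm]
    exact Nat.mul_le_mul_right _ (Nat.le_of_dvd hG0 hg0G)
  by_cases hf1 : f = 1
  · exact Or.inl hf1
  right
  have hfD' : f ∣ D := by
    rw [hgf] at hgD
    exact (Dvd.intro _ rfl).trans hgD
  refine ⟨?_, ?_⟩
  · obtain ⟨p, hpp, hpf⟩ := Nat.exists_prime_and_dvd hf1
    exact Q.M17.trans ((Q.prm p hpp (hpf.trans hfD')).trans (Nat.le_of_dvd hfp hpf))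
  have hcf : Nat.Coprime f c.natAbs := by
    by_contra hcon
    rw [Nat.Prime.not_coprime_iff_dvd] at hcon
    obtain ⟨p, hpp, hpf, hpc⟩ := hcon
    have hpG1 : Nat.Coprime p G1 := hco.coprime_dvd_left hpf
    have hz : ∀ i, (p : ℤ) ∣ zd (b + 1) m G L w w' i := by
      intro i
      have h1 : (p : ℤ) ∣ (G1 : ℤ) * zd (b + 1) m G L w w' i - c * (V (b + 1) m w L i : ℤ) :=
        (Int.natCast_dvd_natCast.2 hpf).trans (hrel i)
      have h2 : (p : ℤ) ∣ c := Int.natCast_dvd.2 hpc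
      have h3 : (p : ℤ) ∣ (G1 : ℤ) * zd (b + 1) m G L w w' i :=
        (dvd_sub_left (h2.mul_right _)).1 h1
      have h4 : IsCoprime (p : ℤ) (G1 : ℤ) := Nat.isCoprime_iff_coprime.2 hpG1
      exact h4.dvd_of_dvd_mul_left h3
    have hpD : p ∣ D / G := hpf.trans hfD
    have h5 : G * p ∣ D := by
      rw [← Nat.mul_div_cancel' hGD]
      exact Nat.mul_dvd_mul_left _ hpD
    have h6 : G * p ∣ G := by
      refine hGmax _ h5 fun i => ?_
      rw [hzd i]
      push_cast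
      exact mul_dvd_mul_left _ (hz i)
    have h7 : p ∣ 1 := by
      have h8 : G * p ∣ G * 1 := by rwa [mul_one]
      exact Nat.dvd_of_mul_dvd_mul_left hG0 h8
    exact hpp.one_lt.ne' (Nat.dvd_one.1 h7)
  have hcu : IsUnit (c : ZMod f) := by
    rw [ZMod.coe_int_isUnit_iff_isCoprime]
    rw [Int.isCoprime_iff_gcd_eq_one]
    exact hcf
  have hGu : IsUnit (G1 : ZMod f) := by
    rw [ZMod.isUnit_iff_coprime]
    exact hco.symm
  obtain ⟨uc, huc⟩ := hcu
  obtain ⟨uG, huG⟩ := hGu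
  refine ⟨uc⁻¹ * uG, fun i => ?_⟩
  have h1 := hrel i
  rw [← ZMod.intCast_zmod_eq_zero_iff_dvd] at h1
  push_cast at h1
  rw [sub_eq_zero, ← huG, ← huc] at h1
  rw [Units.val_mul, mul_assoc, h1, Units.inv_mul_cancel_left]

end GC85
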