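import Mathlib
import Pool.Agent.Helper85.DN.C2a
import Pool.Agent.Helper85.DN.C2b

/-!
# DN-C2: the average of the moduli of proportionality

By `C2b` each `p` has an `f ∣ D / G` with `γ p ≤ G f`, and `f = 1` or `p ∈ T f`, where `T f` is the set of the pairs of
`SG` with the property in `C2a`. So `∑ γ p ≤ G (SG.card + ∑_{f ∣ D / G, f ≥ 17} f (T f).card)`, by `C2a`
`f (T f).card ≤ f ^ (-3/2) SG.card`, and `∑_{f ≥ 17} f ^ (-3/2) ≤ 2`.
-/

set_option autoImplicit false

namespace GC85

open Finset GC70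

variable {B : Type} [Fintype B] [DecidableEq B]

private theorem C2_step {a b : ℝ} (ha : 0 < a) (hab : b ^ 2 = a ^ 2 + 1) (hb : 0 < b) :
    1 / (b ^ 2 * b) ≤ 2 / a - 2 / b := by
  have hle : a ≤ b := by
    by_contra h
    push Not at h
    nlinarith
  have e : 2 / a - 2 / b = 2 * (b - a) / (a * b) := by field_simp
  rw [e, div_le_div_iff₀ (by positivity) (by positivity)]
  have h1 : (b - a) * (b + a) = 1 := by nlinarith
  have h2 : 1 ≤ 2 * (b - a) * b := by nlinarith
  have h3 : a * b ≤ b * b := by nlinarith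
  nlinarith [mul_le_mul_of_nonneg_right h2 (mul_pos hb hb).le]

private theorem C2_sum (N : ℕ) : ∑ f ∈ Finset.Icc 17 N, (1 : ℝ) / (f * √f) ≤ 1 / 2 := by
  have h : ∀ n : ℕ, 16 ≤ n →
      ∑ f ∈ Finset.Icc 17 n, (1 : ℝ) / (f * √f) ≤ 1 / 2 - 2 / √(n : ℝ) := by
    intro n hn
    induction n, hn using Nat.le_induction with
    | base =>
      have : √((16 : ℕ) : ℝ) = 4 := by
        rw [show ((16 : ℕ) : ℝ) = 4 ^ 2 by norm_num]
        exact Real.sqrt_sq (by norm_num)
      rw [this]
      norm_num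
    | succ n hn ih =>
      rw [Finset.sum_Icc_succ_top (by omega)]
      have hn0 : (0 : ℝ) < n := by exact_mod_cast (show 0 < n by omega)
      have h1 : 0 < √(n : ℝ) := Real.sqrt_pos.2 hn0
      have h2 : 0 < √((n + 1 : ℕ) : ℝ) := Real.sqrt_pos.2 (by positivity)
      have h3 : √((n + 1 : ℕ) : ℝ) ^ 2 = √(n : ℝ) ^ 2 + 1 := by
        rw [Real.sq_sqrt (by positivity), Real.sq_sqrt (by positivity)]
        push_cast
        ring
      have h4 := C2_step h1 h3 h2
      rw [Real.sq_sqrt (by positivity)] at h4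
      linarith
  by_cases hN : 16 ≤ N
  · have h1 := h N hN
    have h2 : 0 ≤ 2 / √(N : ℝ) := by positivity
    linarith
  · rw [Finset.Icc_eq_empty (by omega), Finset.sum_empty]
    norm_num

private theorem C2_fib {t f S : ℕ} (hf : 17 ≤ f) (h : t ^ 2 * f ^ 5 ≤ S ^ 2) :
    (t : ℝ) * f ≤ S * (1 / (f * √f)) := by
  have hf0 : (0 : ℝ) < f := by exact_mod_cast (show 0 < f by omega)
  have hs : 0 < √(f : ℝ) := Real.sqrt_pos.2 hf0
  have h1 : ((t : ℝ) * f * (f * √f)) ^ 2 ≤ (S : ℝ) ^ 2 := by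
    have e : ((t : ℝ) * f * (f * √f)) ^ 2 = (t : ℝ) ^ 2 * (f : ℝ) ^ 5 := by
      have h2 : √(f : ℝ) ^ 2 = f := Real.sq_sqrt hf0.le
      calc ((t : ℝ) * f * (f * √f)) ^ 2 = (t : ℝ) ^ 2 * (f : ℝ) ^ 4 * √(f : ℝ) ^ 2 := by ring
        _ = (t : ℝ) ^ 2 * (f : ℝ) ^ 5 := by rw [h2]; ring
    rw [e]
    exact_mod_cast h
  have h2 : (t : ℝ) * f * (f * √f) ≤ S := by
    exact (le_abs_self _).trans (abs_le_of_sq_le_sq h1 (by positivity))
  rw [mul_one_div, le_div_iff₀ (by positivity)]
  exact h2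

theorem C2 {b m L s y ε M0 D G : ℕ} (hB : Fintype.card B = b) (N : NP b m L s y ε)
    (Q : DP b m L s M0 D) (hG : G ∣ D) (hGe : D ≤ G * (b + 1) ^ (3 * 10 ^ 7 * y))
    (T : Finset ((ℤ → Option B) × (ℤ → Option B))) (hT : T ⊆ SG B b m L s D y G)
    (hp : ∀ p ∈ T, Prim (b + 1) m D L p.1)
    (γ : (ℤ → Option B) × (ℤ → Option B) → ℕ)
    (hγ : ∀ p ∈ T, γ p ∣ D ∧ RelG (b + 1) m (γ p) L L p.1 p.2) :
    ∑ p ∈ T, (γ p : ℝ) ≤ 3 * G * (SG B b m L s D y G).card := by
  classical
  have hF : ∀ p ∈ T, ∃ f : ℕ, f ∣ D / G ∧ γ p ≤ G * f ∧ (f = 1 ∨ (17 ≤ f ∧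
      ∃ κ : (ZMod f)ˣ, ∀ i, (V (b + 1) m p.1 L i : ZMod f) =
        κ * ((zd (b + 1) m G L p.1 p.2 i : ℤ) : ZMod f))) := by
    intro p hpT
    have hm := hT hpT
    unfold SG at hm
    rw [Finset.mem_filter] at hm
    exact C2b N Q hm.2.2.2.2.2.2.1 (hγ p hpT).1 (hp p hpT) (hγ p hpT).2
  choose! F hF1 hF2 hF3 using hF
  set S := (SG B b m L s D y G).card with hS
  have hSum : ∑ p ∈ T, (F p : ℝ) ≤ S + S * (1 / 2) := by
    rw [← Finset.sum_filter_add_sum_filter_not T (fun p => F p = 1)]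
    refine add_le_add ?_ ?_
    · have h1 : ∑ p ∈ T.filter (fun p => F p = 1), (F p : ℝ) =
          ((T.filter (fun p => F p = 1)).card : ℝ) := by
        rw [Finset.card_eq_sum_ones]
        push_cast
        refine Finset.sum_congr rfl fun p hp => ?_
        rw [(Finset.mem_filter.1 hp).2]
        norm_num
      rw [h1]
      exact_mod_cast Finset.card_le_card ((Finset.filter_subset _ _).trans hT)
    · set T' := T.filter (fun p => ¬ F p = 1) with hT'
      have hmaps : ∀ p ∈ T', F p ∈ Finset.Icc 17 (T.sup F) := by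
        intro p hp
        rw [hT', Finset.mem_filter] at hp
        rw [Finset.mem_Icc]
        refine ⟨?_, Finset.le_sup hp.1⟩
        rcases hF3 p hp.1 with h | h
        · exact absurd h hp.2
        · exact h.1
      rw [← Finset.sum_fiberwise_of_maps_to hmaps (fun p => (F p : ℝ))]
      calc ∑ f ∈ Finset.Icc 17 (T.sup F), ∑ p ∈ T' with F p = f, (F p : ℝ)
          ≤ ∑ f ∈ Finset.Icc 17 (T.sup F), (S : ℝ) * (1 / (f * √f)) := by
            refine Finset.sum_le_sum fun f hf => ?_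
            rw [Finset.mem_Icc] at hf
            have h1 : ∑ p ∈ T' with F p = f, (F p : ℝ) =
                ((T'.filter (fun p => F p = f)).card : ℝ) * f := by
              rw [← nsmul_eq_mul, ← Finset.sum_const]
              refine Finset.sum_congr rfl fun p hp => ?_
              rw [(Finset.mem_filter.1 hp).2]
            rw [h1]
            have hsub : T'.filter (fun p => F p = f) ⊆ T := fun p hp =>
              (Finset.mem_filter.1 (Finset.mem_filter.1 hp).1).1
            by_cases he : T'.filter (fun p => F p = f) = ∅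
            · rw [he, Finset.card_empty]
              simp only [Nat.cast_zero, zero_mul]
              positivity
            obtain ⟨p0, hp0⟩ := Finset.nonempty_iff_ne_empty.2 he
            have hfd : f ∣ D / G := by
              rw [← (Finset.mem_filter.1 hp0).2]
              exact hF1 p0 (hsub hp0)
            refine C2_fib hf.1 (C2a hB N Q hG hGe hfd hf.1 _ (hsub.trans hT) ?_)
            intro p hp
            obtain ⟨hp1, hp2⟩ := Finset.mem_filter.1 hp
            rcases hF3 p (hsub hp) with h | h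
            · omega
            · rw [hp2] at h
              exact h.2
        _ = S * ∑ f ∈ Finset.Icc 17 (T.sup F), (1 : ℝ) / (f * √f) := by
            rw [Finset.mul_sum]
        _ ≤ S * (1 / 2) := mul_le_mul_of_nonneg_left (C2_sum _) (by positivity)
  calc ∑ p ∈ T, (γ p : ℝ) ≤ ∑ p ∈ T, (G : ℝ) * F p := by
        refine Finset.sum_le_sum fun p hp => ?_
        exact_mod_cast hF2 p hp
    _ = G * ∑ p ∈ T, (F p : ℝ) := by rw [Finset.mul_sum]
    _ ≤ G * (S + S * (1 / 2)) := mul_le_mul_of_nonneg_left hSum (by positivity)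
    _ ≤ 3 * G * S := by
        have : (0 : ℝ) ≤ G * S := by positivity
        nlinarith

end GC85
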