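import Mathlib
import Pool.Agent.Helper85.DN.C1a
import Pool.Agent.Helper85.DN.C1b

/-!
# DN-C3D: the number of aligned pairs with a given number of differences

`b, m` are fixed, `L → ∞`; `Δ = Del L = L / rt L`, `rt L ≈ L ^ (1/8)`. `ℓ = a + 10 Δ`; `ℓ ≤ L` for large `L` because
`a ≤ 3 * 10 ^ 7 y + 1 ≤ L / 1000` and `10 Δ ≤ L / 1000`. The hypotheses `hsize` of `C1u` and `C1b` hold:
`m ^ (3 Δ) ≤ (b + 1) ^ (6 Δ)` (`m ≤ 2 (b + 1) ≤ (b + 1) ^ 2`), `2 L ≤ (b + 1) ^ Δ`, and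
`G ≥ D / (b + 1) ^ a ≥ (b + 1) ^ (L - 2 - a)` (`DP.ge`), `3 Δ > 2`. `C1u` gives the first claim, `C1b` (for the subset of the pairs with
`dis = U`) the second claim.
-/

set_option autoImplicit false

namespace GC85

open Finset GC70

variable {B : Type} [Fintype B] [DecidableEq B]

/-- the common hypotheses on the set of pairs -/
structure CS (B : Type) [Fintype B] [DecidableEq B] (b m L s y G : ℕ)
    (S : Finset ((ℤ → Option B) × (ℤ → Option B))) : Prop where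
  w : ∀ p ∈ S, Wd p.1 L s ∧ Wd p.2 L s ∧ Ty b p.1 L (Del L) ∧ Ty b p.2 L (Del L)
  rel : ∀ p ∈ S, ∀ i, (V (b + 1) m p.1 L i : ZMod G) = V (b + 1) m p.2 L i
  ne : ∀ p ∈ S, p.1 ≠ p.2
  kd : ∀ p ∈ S, kd p.1 p.2 L ≤ 12 * 10 ^ 7 * y + 80 * y

private lemma C3D_rt {L : ℕ} (K : ℕ) (h : K ^ 8 ≤ L) : K ≤ rt L := by
  unfold rt
  rw [Nat.le_sqrt, Nat.le_sqrt, Nat.le_sqrt]
  calc K * K * (K * K) * (K * K * (K * K)) = K ^ 8 := by ring
    _ ≤ L := h

private lemma C3D_rt_le (L : ℕ) : rt L ≤ Nat.sqrt L := by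
  unfold rt
  exact (Nat.sqrt_le_self _).trans (Nat.sqrt_le_self _)

private lemma C3D_two_pow (r : ℕ) (h : 8 ≤ r) : 2 * (r + 1) ^ 2 ≤ 2 ^ r := by
  induction r, h using Nat.le_induction with
  | base => norm_num
  | succ n hn ih =>
    rw [pow_succ 2 n]
    nlinarith

private lemma C3D_del (L : ℕ) (h : 1000 ^ 8 ≤ L) : 1000 * Del L ≤ L ∧ 64 ≤ Del L ∧ 2 * L ≤ 2 ^ Del L := by
  have h1 := C3D_rt 1000 h
  have h2 := C3D_rt_le L
  have hr : 64 ≤ Nat.sqrt L := by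
    rw [Nat.le_sqrt]
    have : (64 : ℕ) * 64 ≤ 1000 ^ 8 := by norm_num
    omega
  have h3 : Nat.sqrt L ≤ Del L := by
    unfold Del
    rw [Nat.le_div_iff_mul_le (by omega)]
    calc Nat.sqrt L * rt L ≤ Nat.sqrt L * Nat.sqrt L := Nat.mul_le_mul_left _ h2
      _ ≤ L := Nat.sqrt_le L
  refine ⟨?_, by omega, ?_⟩
  · unfold Del
    calc 1000 * (L / rt L) ≤ rt L * (L / rt L) := Nat.mul_le_mul_right _ h1
      _ ≤ L := Nat.mul_div_le L _
  · have h4 : L < (Nat.sqrt L + 1) * (Nat.sqrt L + 1) := Nat.lt_succ_sqrt L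
    calc 2 * L ≤ 2 * (Nat.sqrt L + 1) ^ 2 := by
          have : (Nat.sqrt L + 1) ^ 2 = (Nat.sqrt L + 1) * (Nat.sqrt L + 1) := by ring
          omega
      _ ≤ 2 ^ Nat.sqrt L := C3D_two_pow _ (by omega)
      _ ≤ 2 ^ Del L := Nat.pow_le_pow_right (by norm_num) h3

theorem C3core (b m : ℕ) (hB : Fintype.card B = b) : ∃ L0 : ℕ, ∀ L ≥ L0, ∀ s y ε M0 D G : ℕ,
    NP b m L s y ε → DP b m L s M0 D → G ∣ D →
    ∀ a : ℕ, a ≤ 3 * 10 ^ 7 * y + 1 → D ≤ G * (b + 1) ^ a →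
    ∀ S : Finset ((ℤ → Option B) × (ℤ → Option B)), CS B b m L s y G S →
      (∀ p ∈ S, L ≤ 2 * (dis p.1 p.2 L * (a + 10 * Del L))) ∧
      ∀ U : ℕ, (S.filter (fun p => dis p.1 p.2 L = U)).card * (b + 1) ^ U ≤
        L * (4 * L + 1) * 3 ^ U * (b + 1) ^ L *
          ∑ j ∈ range (U * (a + 10 * Del L) / L + 1), (a + 10 * Del L).choose j * (b + 1) ^ (2 * j) := by
  refine ⟨1000 ^ 8, ?_⟩
  intro L hL s y ε M0 D G P Q hG a ha hDG S hS
  obtain ⟨d1, d2, d3⟩ := C3D_del L hL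
  have hLge := P.Lge
  have hyge := P.yge
  have hb1 : 2 ^ 60 ≤ b := P.b1
  have hb4 : 4 ≤ b := by
    norm_num at hb1
    omega
  set Δ := Del L with hΔ
  have hℓ : a + 10 * Δ ≤ L := by omega
  have hGpos : 0 < G := by
    rcases Nat.eq_zero_or_pos G with h | h
    · exfalso
      have hge := Q.ge
      rw [h, zero_mul] at hDG
      have h' : D = 0 := by omega
      rw [h', zero_mul] at hge
      have : 0 < (b + 1) ^ L := by positivity
      omega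
    · exact h
  have hsize : 2 * L * (b + 1) ^ (L - (a + 10 * Δ)) * m ^ (3 * Δ) < G := by
    have hm : m ^ (3 * Δ) ≤ (b + 1) ^ (6 * Δ) := by
      calc m ^ (3 * Δ) ≤ ((b + 1) ^ 2) ^ (3 * Δ) := by
            apply Nat.pow_le_pow_left
            have h2 := P.m2
            calc m ≤ 2 * (b + 1) := h2
              _ ≤ (b + 1) * (b + 1) := Nat.mul_le_mul_right _ (by omega)
              _ = (b + 1) ^ 2 := by ring
        _ = (b + 1) ^ (6 * Δ) := by rw [← pow_mul]; congr 1; ring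
    have h2L : 2 * L ≤ (b + 1) ^ Δ := d3.trans (Nat.pow_le_pow_left (by omega) _)
    have hGge : (b + 1) ^ L ≤ G * (b + 1) ^ (a + 2) := by
      calc (b + 1) ^ L ≤ D * (b + 1) ^ 2 := Q.ge
        _ ≤ (G * (b + 1) ^ a) * (b + 1) ^ 2 := Nat.mul_le_mul_right _ hDG
        _ = G * (b + 1) ^ (a + 2) := by rw [pow_add]; ring
    have hstrict : (2 * L * (b + 1) ^ (L - (a + 10 * Δ)) * m ^ (3 * Δ)) * (b + 1) ^ (a + 2) < (b + 1) ^ L := by
      calc (2 * L * (b + 1) ^ (L - (a + 10 * Δ)) * m ^ (3 * Δ)) * (b + 1) ^ (a + 2)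
          ≤ ((b + 1) ^ Δ * (b + 1) ^ (L - (a + 10 * Δ)) * (b + 1) ^ (6 * Δ)) * (b + 1) ^ (a + 2) :=
            Nat.mul_le_mul_right _ (Nat.mul_le_mul (Nat.mul_le_mul_right _ h2L) hm)
        _ = (b + 1) ^ (Δ + (L - (a + 10 * Δ)) + 6 * Δ + (a + 2)) := by simp only [pow_add]
        _ < (b + 1) ^ L := Nat.pow_lt_pow_right (by omega) (by omega)
    have h5 := hstrict.trans_le hGge
    exact lt_of_mul_lt_mul_right h5 (Nat.zero_le _)
  have hsize1 : L * (b + 1) ^ (L - (a + 10 * Δ)) * m ^ Δ < G := by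
    refine lt_of_le_of_lt ?_ hsize
    have hm1 : 1 ≤ m := by
      have := P.dm
      omega
    calc L * (b + 1) ^ (L - (a + 10 * Δ)) * m ^ Δ ≤ (2 * L) * (b + 1) ^ (L - (a + 10 * Δ)) * m ^ (3 * Δ) := by
          apply Nat.mul_le_mul
          · apply Nat.mul_le_mul_right
            omega
          · exact Nat.pow_le_pow_right hm1 (by omega)
      _ = _ := rfl
  refine ⟨?_, ?_⟩
  · intro p hp
    obtain ⟨w1, w2, t1, t2⟩ := hS.w p hp
    have h := C1u hB P Q hG hℓ hsize1 w1 w2 t1 t2 (hS.rel p hp) (hS.ne p hp)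
    have hk := hS.kd p hp
    omega
  · intro U
    apply C1b hB P Q hG hℓ hsize U
    · intro p hp
      exact hS.w p (mem_filter.mp hp).1
    · intro p hp
      exact hS.rel p (mem_filter.mp hp).1
    · intro p hp
      exact (mem_filter.mp hp).2

end GC85
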