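import Mathlib
import Pool.Agent.Helper85.DN.C3D

/-!
# DN-C3a: aligned pairs with an almost full common divisor

`C3core` with `a = Del L = Δ` (`Δ ≤ 3 * 10 ^ 7 y` for large `L`, because `L ≤ 2 * 10 ^ 12 (y + 1)` and `rt L → ∞`), `ℓ = 11 Δ`, `ℓ / L ≤ 11 / rt L → 0`,
`ℓ.choose j ≤ L ^ j`, so the sum over `j` is at most `(L + 1) (L (b + 1) ^ 2) ^ (11 U / rt L)`, and
`(log L + 2 log (b + 1)) * 11 / rt L ≤ (1/2) log ((b + 1) / 3)` for large `L` (`rt L ≈ L ^ (1/8)`). So (`(b + 1) ^ L ≤ (b + 1) ^ 2 D`) at most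
`(b + 1) ^ 2 D L ^ 4 (3 / (b + 1)) ^ (U / 2)` pairs have `dis = U`, `U ≤ L`, and only `U ≥ rt L / 22` is possible; sum over
`U ≤ L`; this beats every power of `L`.
-/

set_option autoImplicit false

namespace GC85

open Finset GC70

variable {B : Type} [Fintype B] [DecidableEq B]

private theorem C3a_le_rt {T L : ℕ} (h : T ^ 8 ≤ L) : T ≤ rt L := by
  unfold rt
  rw [Nat.le_sqrt', Nat.le_sqrt', Nat.le_sqrt']
  calc ((T ^ 2) ^ 2) ^ 2 = T ^ 8 := by ring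
    _ ≤ L := h

private theorem C3a_lt_rt (L : ℕ) : L + 1 ≤ (rt L + 1) ^ 8 := by
  unfold rt
  have h1 : L < (Nat.sqrt L + 1) ^ 2 := Nat.lt_succ_sqrt' L
  have h2 : Nat.sqrt L < (Nat.sqrt (Nat.sqrt L) + 1) ^ 2 := Nat.lt_succ_sqrt' _
  have h3 : Nat.sqrt (Nat.sqrt L) < (Nat.sqrt (Nat.sqrt (Nat.sqrt L)) + 1) ^ 2 :=
    Nat.lt_succ_sqrt' _
  set s1 := Nat.sqrt L
  set s2 := Nat.sqrt s1
  set s3 := Nat.sqrt s2
  have h4 : s2 + 1 ≤ (s3 + 1) ^ 2 := h3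
  have h5 : s1 + 1 ≤ ((s3 + 1) ^ 2) ^ 2 := le_trans h2 (Nat.pow_le_pow_left h4 2)
  have h6 : L + 1 ≤ (((s3 + 1) ^ 2) ^ 2) ^ 2 := le_trans h1 (Nat.pow_le_pow_left h5 2)
  calc L + 1 ≤ (((s3 + 1) ^ 2) ^ 2) ^ 2 := h6
    _ = (s3 + 1) ^ 8 := by ring

/-- polynomial against exponential growth -/
private theorem C3a_growth {β : ℝ} (hβ : 1 < β) (C : ℝ) (k : ℕ) :
    ∃ t0 : ℕ, ∀ t ≥ t0, C * ((t : ℝ) + 1) ^ k ≤ β ^ t := by
  have h1 := tendsto_pow_const_div_const_pow_of_one_lt k hβ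
  have h2 : Filter.Tendsto (fun n : ℕ => ((n + 1 : ℕ) : ℝ) ^ k / β ^ (n + 1)) Filter.atTop
      (nhds 0) := h1.comp (Filter.tendsto_add_atTop_nat 1)
  have h3 := (h2.const_mul (|C| * β)).eventually_lt_const (u := 1) (by simp)
  obtain ⟨t0, ht0⟩ := Filter.eventually_atTop.1 h3
  refine ⟨t0, fun t ht => ?_⟩
  have h4 := ht0 t ht
  have hβ0 : 0 < β := by linarith
  have h5 : |C| * β * (((t + 1 : ℕ) : ℝ) ^ k / β ^ (t + 1)) =
      |C| * ((t : ℝ) + 1) ^ k / β ^ t := by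
    push_cast
    rw [pow_succ β t]
    field_simp
  rw [h5, div_lt_one (by positivity)] at h4
  refine le_trans ?_ h4.le
  exact mul_le_mul_of_nonneg_right (le_abs_self C) (by positivity)

/-- the estimate for one number of differences -/
private theorem C3a_one {b L t Δ U N D J : ℕ} {c β : ℝ} (hc : c = (b : ℝ) + 1) (hβ : β = c / 3)
    (hb : 1 < β) (hL : 0 < L) (hD : ((b + 1 : ℕ) : ℝ) ^ L ≤ D * ((b + 1 : ℕ) : ℝ) ^ 2)
    (ht11 : 11 ≤ t) (hLt : L + 1 ≤ (t + 1) ^ 8) (hΔ : Δ * t ≤ L)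
    {τ : ℝ} (hτ : τ = (t : ℝ) + 1)
    (hgr : 16 ^ 22 * c ^ 88 * τ ^ 8448 ≤ β ^ t) (hU : U ≤ L) (htU : t ≤ 22 * U)
    (hJ : J * L ≤ U * (Δ + 10 * Δ))
    (hN : N * (b + 1) ^ U ≤ L * (4 * L + 1) * 3 ^ U * (b + 1) ^ L *
      ∑ j ∈ range (J + 1), (Δ + 10 * Δ).choose j * (b + 1) ^ (2 * j)) :
    (N : ℝ) * ((L : ℝ) + 1) * (L : ℝ) ^ 20 ≤ D := by
  have hc1 : 1 ≤ c := by
    rw [hc]
    have : (0 : ℝ) ≤ b := Nat.cast_nonneg b
    linarith
  have hβ0 : 0 < β := by linarith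
  have hcβ : c = 3 * β := by rw [hβ]; ring
  have hL1 : (1 : ℝ) ≤ L := by exact_mod_cast hL
  have hΔL : Δ + 10 * Δ ≤ L := by nlinarith
  have hJt : J * t ≤ 11 * U := by
    have h1 : J * t * L ≤ 11 * U * L := by
      calc J * t * L = J * L * t := by ring
        _ ≤ U * (Δ + 10 * Δ) * t := Nat.mul_le_mul_right _ hJ
        _ = 11 * U * (Δ * t) := by ring
        _ ≤ 11 * U * L := Nat.mul_le_mul_left _ hΔ
    exact Nat.le_of_mul_le_mul_right h1 hL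
  have hJU : J ≤ U := by nlinarith
  -- the sum
  set Qn : ℕ := L * (b + 1) ^ 2 with hQn
  have hQ1 : 1 ≤ Qn := Nat.mul_pos hL (pow_pos (Nat.succ_pos b) 2)
  have hsum : ∑ j ∈ range (J + 1), (Δ + 10 * Δ).choose j * (b + 1) ^ (2 * j) ≤
      (L + 1) * Qn ^ J := by
    calc ∑ j ∈ range (J + 1), (Δ + 10 * Δ).choose j * (b + 1) ^ (2 * j)
        ≤ ∑ _j ∈ range (J + 1), Qn ^ J := by
          refine Finset.sum_le_sum fun j hj => ?_
          rw [Finset.mem_range] at hj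
          calc (Δ + 10 * Δ).choose j * (b + 1) ^ (2 * j) ≤ L ^ j * (b + 1) ^ (2 * j) :=
                Nat.mul_le_mul_right _ ((Nat.choose_le_pow _ _).trans (Nat.pow_le_pow_left hΔL j))
            _ = Qn ^ j := by rw [hQn, mul_pow, pow_mul]
            _ ≤ Qn ^ J := Nat.pow_le_pow_right hQ1 (by omega)
      _ = (J + 1) * Qn ^ J := by rw [Finset.sum_const, Finset.card_range, smul_eq_mul]
      _ ≤ (L + 1) * Qn ^ J := Nat.mul_le_mul_right _ (by omega)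
  have hN2 : N * (b + 1) ^ U ≤ L * (4 * L + 1) * 3 ^ U * (b + 1) ^ L * ((L + 1) * Qn ^ J) :=
    hN.trans (Nat.mul_le_mul_left _ hsum)
  set Q : ℝ := (L : ℝ) * c ^ 2 with hQ
  have hQQ : (Qn : ℝ) = Q := by
    rw [hQn, hQ, hc]
    push_cast
    ring
  have hQ0 : 1 ≤ Q := by
    rw [← hQQ]
    exact_mod_cast hQ1
  have hN3 : (N : ℝ) * c ^ U ≤ (L * (4 * L + 1) * (L + 1) * c ^ L) * 3 ^ U * Q ^ J := by
    have h1 : ((N * (b + 1) ^ U : ℕ) : ℝ) ≤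
        ((L * (4 * L + 1) * 3 ^ U * (b + 1) ^ L * ((L + 1) * Qn ^ J) : ℕ) : ℝ) := by
      exact_mod_cast hN2
    push_cast at h1
    rw [hQQ, ← hc] at h1
    calc (N : ℝ) * c ^ U ≤ L * (4 * L + 1) * 3 ^ U * c ^ L * ((L + 1) * Q ^ J) := h1
      _ = (L * (4 * L + 1) * (L + 1) * c ^ L) * 3 ^ U * Q ^ J := by ring
  have hτ1 : 1 ≤ τ := by
    rw [hτ]
    have : (0 : ℝ) ≤ t := Nat.cast_nonneg t
    linarith
  have hLX0 : (L : ℝ) + 1 ≤ τ ^ 8 := by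
    rw [hτ]
    exact_mod_cast hLt
  clear hτ
  have hX1 : 1 ≤ τ ^ 8 := one_le_pow₀ hτ1
  obtain ⟨X, hX⟩ : ∃ X : ℝ, X = τ ^ 8 := ⟨_, rfl⟩
  have hXX : τ ^ 8448 = X ^ 1056 := by
    rw [hX, ← pow_mul]
  rw [← hX] at hX1 hLX0
  have hLX : (L : ℝ) + 1 ≤ X := hLX0
  rw [hXX] at hgr
  clear hXX hX
  have ht0 : t ≠ 0 := by omega
  -- first condition
  have hQ22 : Q ^ 22 ≤ β ^ t := by
    refine le_trans ?_ hgr
    have e : (16 : ℝ) ^ 22 * c ^ 88 * X ^ 1056 = (16 * c ^ 4 * X ^ 48) ^ 22 := by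
      rw [mul_pow, mul_pow, ← pow_mul, ← pow_mul]
    rw [e]
    refine pow_le_pow_left₀ (by positivity) ?_ 22
    have h1 : X ≤ X ^ 48 := le_self_pow₀ hX1 (by norm_num)
    have h2 : c ^ 2 ≤ c ^ 4 := pow_le_pow_right₀ hc1 (by norm_num)
    calc Q = (L : ℝ) * c ^ 2 := rfl
      _ ≤ X ^ 48 * c ^ 4 := mul_le_mul (by linarith) h2 (by positivity) (by positivity)
      _ ≤ 16 * c ^ 4 * X ^ 48 := by
          have : 0 ≤ c ^ 4 * X ^ 48 := by positivity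
          nlinarith
  have hQJ : (Q ^ J) ^ 2 ≤ β ^ U := by
    refine le_of_pow_le_pow_left₀ ht0 (by positivity) ?_
    calc ((Q ^ J) ^ 2) ^ t = Q ^ (2 * (J * t)) := by rw [← pow_mul, ← pow_mul]; ring_nf
      _ ≤ Q ^ (22 * U) := pow_le_pow_right₀ hQ0 (by omega)
      _ = (Q ^ 22) ^ U := by rw [pow_mul]
      _ ≤ (β ^ t) ^ U := pow_le_pow_left₀ (by positivity) hQ22 U
      _ = (β ^ U) ^ t := by rw [← pow_mul, ← pow_mul, mul_comm]
  set A : ℝ := L * (4 * L + 1) * (L + 1) * c ^ 2 with hA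
  have hA0 : 0 < A := by positivity
  have hN4 : (N : ℝ) ^ 2 * β ^ U ≤ (A * D) ^ 2 := by
    set E : ℝ := L * (4 * L + 1) * (L + 1) * c ^ L with hE
    have hE0 : 0 ≤ E := by positivity
    have hED : E ≤ A * D := by
      rw [hE, hA]
      have h1 : c ^ L ≤ D * c ^ 2 := by
        have e : ((b + 1 : ℕ) : ℝ) = c := by rw [hc]; push_cast; ring
        rwa [e] at hD
      calc (L : ℝ) * (4 * L + 1) * (L + 1) * c ^ L
          ≤ (L : ℝ) * (4 * L + 1) * (L + 1) * (D * c ^ 2) :=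
            mul_le_mul_of_nonneg_left h1 (by positivity)
        _ = L * (4 * L + 1) * (L + 1) * c ^ 2 * D := by ring
    have h2 : ((N : ℝ) * c ^ U) ^ 2 ≤ (E * 3 ^ U * Q ^ J) ^ 2 :=
      pow_le_pow_left₀ (by positivity) hN3 2
    have h3 : ((N : ℝ) ^ 2 * β ^ U) * ((3 ^ U) ^ 2 * β ^ U) ≤ E ^ 2 * ((3 ^ U) ^ 2 * β ^ U) := by
      calc ((N : ℝ) ^ 2 * β ^ U) * ((3 ^ U) ^ 2 * β ^ U) = ((N : ℝ) * c ^ U) ^ 2 := by
            rw [hcβ, mul_pow]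
            ring
        _ ≤ (E * 3 ^ U * Q ^ J) ^ 2 := h2
        _ = E ^ 2 * ((3 ^ U) ^ 2 * (Q ^ J) ^ 2) := by ring
        _ ≤ E ^ 2 * ((3 ^ U) ^ 2 * β ^ U) := by
            refine mul_le_mul_of_nonneg_left (mul_le_mul_of_nonneg_left hQJ (by positivity))
              (by positivity)
    have h4 : 0 < ((3 : ℝ) ^ U) ^ 2 * β ^ U := by positivity
    exact (le_of_mul_le_mul_right h3 h4).trans (pow_le_pow_left₀ hE0 hED 2)
  have hW : (A * (L + 1) * (L : ℝ) ^ 20) ^ 2 ≤ β ^ U := by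
    refine le_of_pow_le_pow_left₀ (n := 22) (by norm_num) (by positivity) ?_
    have h1 : A * (L + 1) * (L : ℝ) ^ 20 ≤ 4 * X ^ 24 * c ^ 2 := by
      have hLX' : (L : ℝ) ≤ X := by linarith
      have h4 : 4 * (L : ℝ) + 1 ≤ 4 * X := by linarith
      calc A * (L + 1) * (L : ℝ) ^ 20
          ≤ (X * (4 * X) * X * c ^ 2) * X * X ^ 20 := by
            rw [hA]
            gcongr
        _ = 4 * X ^ 24 * c ^ 2 := by ring
    calc ((A * (L + 1) * (L : ℝ) ^ 20) ^ 2) ^ 22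
        ≤ ((4 * X ^ 24 * c ^ 2) ^ 2) ^ 22 := by
          refine pow_le_pow_left₀ (by positivity) (pow_le_pow_left₀ (by positivity) h1 2) 22
      _ = (16 * (c ^ 4 * X ^ 48)) ^ 22 := by
          congr 1
          ring
      _ = 16 ^ 22 * c ^ 88 * X ^ 1056 := by
          rw [mul_pow, mul_pow, ← pow_mul, ← pow_mul, mul_assoc]
      _ ≤ β ^ t := hgr
      _ ≤ β ^ (22 * U) := pow_le_pow_right₀ hb.le htU
      _ = (β ^ U) ^ 22 := by rw [mul_comm, pow_mul]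
  have hfin : ((N : ℝ) * ((L : ℝ) + 1) * (L : ℝ) ^ 20 * A) ^ 2 ≤ (D * A) ^ 2 := by
    calc ((N : ℝ) * ((L : ℝ) + 1) * (L : ℝ) ^ 20 * A) ^ 2
        = (N : ℝ) ^ 2 * (A * (L + 1) * (L : ℝ) ^ 20) ^ 2 := by ring
      _ ≤ (N : ℝ) ^ 2 * β ^ U := mul_le_mul_of_nonneg_left hW (by positivity)
      _ ≤ (A * D) ^ 2 := hN4
      _ = (D * A) ^ 2 := by ring
  have hfin2 := le_of_pow_le_pow_left₀ two_ne_zero (by positivity) hfin
  exact le_of_mul_le_mul_right hfin2 hA0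

theorem C3a (b m : ℕ) (hB : Fintype.card B = b) : ∃ L0 : ℕ, ∀ L ≥ L0, ∀ s y ε M0 D G : ℕ,
    NP b m L s y ε → DP b m L s M0 D → G ∣ D → D ≤ G * (b + 1) ^ (Del L) →
    ∀ S : Finset ((ℤ → Option B) × (ℤ → Option B)), CS B b m L s y G S →
      (S.card : ℝ) * (L : ℝ) ^ 20 ≤ D := by
  obtain ⟨L1, h1⟩ := C3core b m hB
  rcases lt_or_ge b (2 ^ 60) with hb | hb
  · exact ⟨0, fun L _ s y ε M0 D G hN => absurd hN.b1 (not_le.2 hb)⟩
  have hbr : (2 : ℝ) ^ 60 ≤ b := by exact_mod_cast hb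
  have hβ : (1 : ℝ) < ((b : ℝ) + 1) / 3 := by
    rw [lt_div_iff₀ (by norm_num)]
    have h60 : (3 : ℝ) < 2 ^ 60 := by norm_num
    linarith
  obtain ⟨t0, ht0⟩ := C3a_growth hβ (16 ^ 22 * ((b : ℝ) + 1) ^ 88) 8448
  refine ⟨max L1 ((max t0 (10 ^ 6)) ^ 8), fun L hL s y ε M0 D G hN hDP hG hDG S hS => ?_⟩
  have hL1 : L1 ≤ L := (le_max_left _ _).trans hL
  have ht : max t0 (10 ^ 6) ≤ rt L := C3a_le_rt ((le_max_right _ _).trans hL)
  have htt0 : t0 ≤ rt L := (le_max_left _ _).trans ht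
  have ht6 : 10 ^ 6 ≤ rt L := (le_max_right _ _).trans ht
  have hy := hN.yge
  have hLle := hN.Lle
  have hLge := hN.Lge
  have hLpos : 0 < L := by omega
  have hΔ : Del L * rt L ≤ L := Nat.div_mul_le_self L (rt L)
  have hΔ6 : Del L * 10 ^ 6 ≤ L := (Nat.mul_le_mul_left _ ht6).trans hΔ
  have ha : Del L ≤ 3 * 10 ^ 7 * y + 1 := by omega
  obtain ⟨hc1, hc2⟩ := h1 L hL1 s y ε M0 D G hN hDP hG (Del L) ha hDG S hS
  have hD : ((b + 1 : ℕ) : ℝ) ^ L ≤ D * ((b + 1 : ℕ) : ℝ) ^ 2 := by exact_mod_cast hDP.ge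
  have hone : ∀ U ∈ range (L + 1),
      ((S.filter (fun p => dis p.1 p.2 L = U)).card : ℝ) * ((L : ℝ) + 1) * (L : ℝ) ^ 20 ≤ D := by
    intro U hU
    rw [Finset.mem_range] at hU
    rcases (S.filter (fun p => dis p.1 p.2 L = U)).eq_empty_or_nonempty with he | ⟨p, hp⟩
    · rw [he, Finset.card_empty]
      simp
    · rw [Finset.mem_filter] at hp
      obtain ⟨hpS, hpU⟩ := hp
      have h2 := hc1 p hpS
      rw [hpU] at h2
      have htU : rt L ≤ 22 * U := by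
        have h3 : rt L * L ≤ 22 * U * L := by
          calc rt L * L ≤ rt L * (2 * (U * (Del L + 10 * Del L))) := Nat.mul_le_mul_left _ h2
            _ = 22 * U * (Del L * rt L) := by ring
            _ ≤ 22 * U * L := Nat.mul_le_mul_left _ hΔ
        exact Nat.le_of_mul_le_mul_right h3 hLpos
      exact C3a_one (t := rt L) (Δ := Del L) (U := U)
        (J := U * (Del L + 10 * Del L) / L) rfl rfl hβ hLpos hD (by omega) (C3a_lt_rt L) hΔ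
        rfl (ht0 _ htt0) (by omega) htU (Nat.div_mul_le_self _ _) (hc2 U)
  have hdis : ∀ p ∈ S, dis p.1 p.2 L ∈ range (L + 1) := by
    intro p _
    rw [Finset.mem_range]
    unfold dis
    refine Nat.lt_succ_of_le ((Finset.card_filter_le _ _).trans ?_)
    simp
  have hcard : S.card = ∑ U ∈ range (L + 1), (S.filter (fun p => dis p.1 p.2 L = U)).card :=
    Finset.card_eq_sum_card_fiberwise hdis
  have hsum : (S.card : ℝ) * ((L : ℝ) + 1) * (L : ℝ) ^ 20 ≤ ((L : ℝ) + 1) * D := by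
    rw [hcard]
    push_cast
    rw [Finset.sum_mul, Finset.sum_mul]
    calc ∑ U ∈ range (L + 1), ((S.filter (fun p => dis p.1 p.2 L = U)).card : ℝ) *
          ((L : ℝ) + 1) * (L : ℝ) ^ 20 ≤ ∑ _U ∈ range (L + 1), (D : ℝ) :=
          Finset.sum_le_sum hone
      _ = ((L : ℝ) + 1) * D := by
          rw [Finset.sum_const, Finset.card_range, nsmul_eq_mul]
          push_cast
          ring
  have hpos : (0 : ℝ) < (L : ℝ) + 1 := by positivity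
  have h5 : ((L : ℝ) + 1) * ((S.card : ℝ) * (L : ℝ) ^ 20) ≤ ((L : ℝ) + 1) * D := by
    calc ((L : ℝ) + 1) * ((S.card : ℝ) * (L : ℝ) ^ 20)
        = (S.card : ℝ) * ((L : ℝ) + 1) * (L : ℝ) ^ 20 := by ring
      _ ≤ ((L : ℝ) + 1) * D := hsum
  exact le_of_mul_le_mul_left h5 hpos

end GC85
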