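import Mathlib
import Pool.Agent.Helper85.DN.C3D

/-!
# DN-C3b: aligned pairs with a common divisor of middle size

Let `a` be the least number with `D ≤ G (b + 1) ^ a`; `Del L < a ≤ 3 * 10 ^ 7 y`, and `(b + 1) ^ (a - 1) < e = D / G`. `C3core`:
`ℓ = a + 10 Δ ≤ 11 a`, also `ℓ ≤ L / 4` for large `L`; `ℓ.choose j ≤ 2 ^ ℓ ≤ 2 ^ (11 a)`, `(b + 1) ^ (2 j) ≤ (b + 1) ^ (U / 2)` as `j ≤ U ℓ / L`, so
the sum over `j` is at most `(L + 1) 2 ^ (11 a) (b + 1) ^ (U / 2)`, and `(3 / (b + 1)) ^ U (b + 1) ^ (U / 2) ≤ 1`. So at most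
`L (4 L + 1) (L + 1) 2 ^ (11 a) (b + 1) ^ L` pairs for each `U ≤ L`, `(b + 1) ^ L ≤ (b + 1) ^ 2 D`, and `2 ^ (11 a) ≤ e ^ (1/5)`:
`(b + 1) ^ ((a - 1) / 5) ≥ 2 ^ (12 (a - 1)) ≥ 2 ^ (11 a)` for `a ≥ 12` (`b ≥ 2 ^ 60`; `a > Del L → ∞`).
-/

set_option autoImplicit false

namespace GC85

open Finset GC70

variable {B : Type} [Fintype B] [DecidableEq B]

omit [Fintype B] in
private theorem C3b_dis_le (w w' : ℤ → Option B) (L : ℕ) : dis w w' L ≤ L := by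
  unfold dis
  refine (Finset.card_filter_le _ _).trans ?_
  rw [Int.card_Ico]
  simp

private theorem C3b_rt {L : ℕ} (hL : 10 ^ 16 ≤ L) : 100 ≤ rt L := by
  have h1 : 10 ^ 8 ≤ Nat.sqrt L := by
    rw [Nat.le_sqrt']
    calc (10 ^ 8) ^ 2 = 10 ^ 16 := by norm_num
      _ ≤ L := hL
  have h2 : 10 ^ 4 ≤ Nat.sqrt (Nat.sqrt L) := by
    rw [Nat.le_sqrt']
    calc (10 ^ 4) ^ 2 = 10 ^ 8 := by norm_num
      _ ≤ _ := h1
  unfold rt
  rw [Nat.le_sqrt']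
  calc 100 ^ 2 = 10 ^ 4 := by norm_num
    _ ≤ _ := h2

private theorem C3b_del {L : ℕ} (hL : 10 ^ 16 ≤ L) : 12 ≤ Del L ∧ 100 * Del L ≤ L := by
  have h1 := C3b_rt hL
  have h2 : rt L ≤ Nat.sqrt L := by
    unfold rt
    exact (Nat.sqrt_le_self _).trans (Nat.sqrt_le_self _)
  have h3 : 10 ^ 8 ≤ Nat.sqrt L := by
    rw [Nat.le_sqrt']
    calc (10 ^ 8) ^ 2 = 10 ^ 16 := by norm_num
      _ ≤ L := hL
  constructor
  · unfold Del
    rw [Nat.le_div_iff_mul_le (by omega)]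
    calc 12 * rt L ≤ Nat.sqrt L * Nat.sqrt L := Nat.mul_le_mul (by omega) h2
      _ ≤ L := Nat.sqrt_le L
  · unfold Del
    calc 100 * (L / rt L) ≤ rt L * (L / rt L) := Nat.mul_le_mul_right _ h1
      _ ≤ L := Nat.mul_div_le L (rt L)

private theorem C3b_pow {β U : ℕ} (hβ : 9 ≤ β) : 3 ^ U * β ^ (U / 2) ≤ β ^ U := by
  have h1 : U ≤ 2 * (U - U / 2) := by omega
  have h2 : 3 ^ U ≤ β ^ (U - U / 2) := by
    calc 3 ^ U ≤ 3 ^ (2 * (U - U / 2)) := Nat.pow_le_pow_right (by norm_num) h1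
      _ = 9 ^ (U - U / 2) := by rw [pow_mul]; norm_num
      _ ≤ β ^ (U - U / 2) := Nat.pow_le_pow_left hβ _
  calc 3 ^ U * β ^ (U / 2) ≤ β ^ (U - U / 2) * β ^ (U / 2) := Nat.mul_le_mul_right _ h2
    _ = β ^ U := by rw [← pow_add]; congr 1; omega

private theorem C3b_sum {β U ℓ L : ℕ} (hβ : 1 ≤ β) (hL : 0 < L) (hℓ : 4 * ℓ ≤ L) (hU : U ≤ L) :
    ∑ j ∈ range (U * ℓ / L + 1), ℓ.choose j * β ^ (2 * j) ≤ (L + 1) * (2 ^ ℓ * β ^ (U / 2)) := by
  have h1 : 4 * (U * ℓ / L) ≤ U := by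
    have h2 : L * (4 * (U * ℓ / L)) ≤ L * U := by
      calc L * (4 * (U * ℓ / L)) = 4 * (L * (U * ℓ / L)) := by ring
        _ ≤ 4 * (U * ℓ) := Nat.mul_le_mul_left _ (Nat.mul_div_le _ _)
        _ = (4 * ℓ) * U := by ring
        _ ≤ L * U := Nat.mul_le_mul_right _ hℓ
    exact Nat.le_of_mul_le_mul_left h2 hL
  calc ∑ j ∈ range (U * ℓ / L + 1), ℓ.choose j * β ^ (2 * j)
      ≤ ∑ _j ∈ range (U * ℓ / L + 1), 2 ^ ℓ * β ^ (U / 2) := by
        refine Finset.sum_le_sum fun j hj => ?_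
        have hj' : j ≤ U * ℓ / L := by
          have := Finset.mem_range.1 hj
          omega
        exact Nat.mul_le_mul (Nat.choose_le_two_pow ℓ j)
          (Nat.pow_le_pow_right hβ (by omega))
    _ = (U * ℓ / L + 1) * (2 ^ ℓ * β ^ (U / 2)) := by
        rw [Finset.sum_const, Finset.card_range, smul_eq_mul]
    _ ≤ (L + 1) * (2 ^ ℓ * β ^ (U / 2)) := Nat.mul_le_mul_right _ (by omega)

private theorem C3b_poly {L β : ℕ} (hL : 1 ≤ L) (hβ : 5 * β ≤ L) :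
    (L + 1) * (L * (4 * L + 1) * (L + 1)) * β ^ 2 ≤ L ^ 6 := by
  have h1 : L + 1 ≤ 2 * L := by omega
  have h2 : 4 * L + 1 ≤ 5 * L := by omega
  calc (L + 1) * (L * (4 * L + 1) * (L + 1)) * β ^ 2
      ≤ (2 * L) * (L * (5 * L) * (2 * L)) * β ^ 2 := by
        refine Nat.mul_le_mul_right _ (Nat.mul_le_mul h1 (Nat.mul_le_mul
          (Nat.mul_le_mul_left _ h2) h1))
    _ = 20 * β ^ 2 * L ^ 4 := by ring
    _ ≤ (5 * β) ^ 2 * L ^ 4 := by
        refine Nat.mul_le_mul_right _ ?_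
        rw [mul_pow]
        exact Nat.mul_le_mul_right _ (by norm_num)
    _ ≤ L ^ 2 * L ^ 4 := Nat.mul_le_mul_right _ (Nat.pow_le_pow_left hβ 2)
    _ = L ^ 6 := by ring

theorem C3b (b m : ℕ) (hB : Fintype.card B = b) : ∃ L0 : ℕ, ∀ L ≥ L0, ∀ s y ε M0 D G : ℕ,
    NP b m L s y ε → DP b m L s M0 D → G ∣ D → G * (b + 1) ^ (Del L) < D →
    D ≤ G * (b + 1) ^ (3 * 10 ^ 7 * y) →
    ∀ S : Finset ((ℤ → Option B) × (ℤ → Option B)), CS B b m L s y G S →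
      (S.card : ℝ) ≤ D * (L : ℝ) ^ 6 * ((D : ℝ) / G) ^ (1 / 5 : ℝ) := by
  classical
  obtain ⟨L1, hC⟩ := C3core (B := B) b m hB
  refine ⟨max L1 (max (10 ^ 16) (5 * (b + 1))), ?_⟩
  intro L hL s y ε M0 D G N Q hG hlo hhi S hS
  have hL1 : L1 ≤ L := (le_max_left _ _).trans hL
  have hL2 : 10 ^ 16 ≤ L := (le_max_left _ _).trans ((le_max_right _ _).trans hL)
  have hL3 : 5 * (b + 1) ≤ L := (le_max_right _ _).trans ((le_max_right _ _).trans hL)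
  obtain ⟨hΔ1, hΔ2⟩ := C3b_del hL2
  -- the exponent
  have hex : ∃ a, D ≤ G * (b + 1) ^ a := ⟨_, hhi⟩
  obtain ⟨a, haD, hamin⟩ : ∃ a, D ≤ G * (b + 1) ^ a ∧ ∀ a' < a, G * (b + 1) ^ a' < D :=
    ⟨Nat.find hex, Nat.find_spec hex, fun a' ha' => not_le.1 (Nat.find_min hex ha')⟩
  have ha1 : a ≤ 3 * 10 ^ 7 * y := by
    by_contra hcon
    exact absurd hhi (not_le.2 (hamin _ (not_le.1 hcon)))
  have ha2 : Del L < a := by
    by_contra hcon
    have h1 : G * (b + 1) ^ a ≤ G * (b + 1) ^ (Del L) :=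
      Nat.mul_le_mul_left _ (Nat.pow_le_pow_right (by omega) (not_lt.1 hcon))
    omega
  have hmin : G * (b + 1) ^ (a - 1) < D := hamin _ (by omega)
  have hLge := N.Lge
  have hb1 := N.b1
  have hℓ : 4 * (a + 10 * Del L) ≤ L := by omega
  have hβ9 : 9 ≤ b + 1 := by
    have : (9 : ℕ) ≤ 2 ^ 60 := by norm_num
    omega
  obtain ⟨-, hcore⟩ := hC L hL1 s y ε M0 D G N Q hG a (by omega) haD S hS
  -- one value of `U`
  have hone : ∀ U ∈ range (L + 1), (S.filter (fun p => dis p.1 p.2 L = U)).card ≤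
      L * (4 * L + 1) * (L + 1) * 2 ^ (11 * a) * (b + 1) ^ L := by
    intro U hU
    have hU' : U ≤ L := by
      have := Finset.mem_range.1 hU
      omega
    have h1 := hcore U
    have h2 := C3b_sum (β := b + 1) (by omega) (by omega) hℓ hU'
    have h3 : (2 : ℕ) ^ (a + 10 * Del L) ≤ 2 ^ (11 * a) :=
      Nat.pow_le_pow_right (by norm_num) (by omega)
    have h4 : (S.filter (fun p => dis p.1 p.2 L = U)).card * (b + 1) ^ U ≤
        (L * (4 * L + 1) * (L + 1) * 2 ^ (11 * a) * (b + 1) ^ L) * (b + 1) ^ U := by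
      calc (S.filter (fun p => dis p.1 p.2 L = U)).card * (b + 1) ^ U
          ≤ L * (4 * L + 1) * 3 ^ U * (b + 1) ^ L *
            ((L + 1) * (2 ^ (a + 10 * Del L) * (b + 1) ^ (U / 2))) :=
            h1.trans (Nat.mul_le_mul_left _ h2)
        _ = (L * (4 * L + 1) * (L + 1) * 2 ^ (a + 10 * Del L) * (b + 1) ^ L) *
            (3 ^ U * (b + 1) ^ (U / 2)) := by ring
        _ ≤ (L * (4 * L + 1) * (L + 1) * 2 ^ (11 * a) * (b + 1) ^ L) * (b + 1) ^ U := by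
            refine Nat.mul_le_mul (Nat.mul_le_mul_right _ (Nat.mul_le_mul_left _ h3))
              (C3b_pow hβ9)
    exact Nat.le_of_mul_le_mul_right h4 (Nat.pow_pos (by omega))
  have hcard : S.card ≤ (L + 1) * (L * (4 * L + 1) * (L + 1) * 2 ^ (11 * a) * (b + 1) ^ L) := by
    rw [Finset.card_eq_sum_card_fiberwise (f := fun p => dis p.1 p.2 L) (t := range (L + 1))
      (fun p _ => Finset.mem_coe.2 (Finset.mem_range.2 (Nat.lt_succ_of_le (C3b_dis_le _ _ _))))]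
    refine (Finset.sum_le_sum hone).trans ?_
    rw [Finset.sum_const, Finset.card_range, smul_eq_mul]
  have hcard2 : S.card ≤ D * L ^ 6 * 2 ^ (11 * a) := by
    calc S.card ≤ (L + 1) * (L * (4 * L + 1) * (L + 1) * 2 ^ (11 * a) * (b + 1) ^ L) := hcard
      _ ≤ (L + 1) * (L * (4 * L + 1) * (L + 1) * 2 ^ (11 * a) * (D * (b + 1) ^ 2)) :=
          Nat.mul_le_mul_left _ (Nat.mul_le_mul_left _ Q.ge)
      _ = D * ((L + 1) * (L * (4 * L + 1) * (L + 1)) * (b + 1) ^ 2) * 2 ^ (11 * a) := by ring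
      _ ≤ D * L ^ 6 * 2 ^ (11 * a) :=
          Nat.mul_le_mul_right _ (Nat.mul_le_mul_left _ (C3b_poly (by omega) hL3))
  -- the power of `D / G`
  have hG0 : 0 < G := by
    rcases Nat.eq_zero_or_pos G with h | h
    · subst h; omega
    · exact h
  have hpow : (2 : ℝ) ^ (11 * a) ≤ ((D : ℝ) / G) ^ (1 / 5 : ℝ) := by
    have h1 : (2 : ℝ) ^ (11 * a) ≤ 2 ^ (12 * (a - 1)) :=
      pow_le_pow_right₀ (by norm_num) (by omega)
    have h2 : ((2 : ℝ) ^ (12 * (a - 1))) ^ 5 ≤ (D : ℝ) / G := by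
      have hGr : (0 : ℝ) < G := by exact_mod_cast hG0
      rw [le_div_iff₀ hGr]
      have h3 : (2 ^ (12 * (a - 1))) ^ 5 * G ≤ D := by
        calc (2 ^ (12 * (a - 1))) ^ 5 * G = G * (2 ^ 60) ^ (a - 1) := by
              rw [← pow_mul, ← pow_mul, mul_comm]
              congr 2
              ring
          _ ≤ G * (b + 1) ^ (a - 1) :=
              Nat.mul_le_mul_left _ (Nat.pow_le_pow_left (by omega) _)
          _ ≤ D := hmin.le
      exact_mod_cast h3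
    have h4 : (((2 : ℝ) ^ (12 * (a - 1))) ^ 5) ^ (1 / 5 : ℝ) = 2 ^ (12 * (a - 1)) := by
      have h5 := Real.pow_rpow_inv_natCast (x := (2 : ℝ) ^ (12 * (a - 1))) (by positivity)
        (n := 5) (by norm_num)
      rw [one_div]
      exact_mod_cast h5
    calc (2 : ℝ) ^ (11 * a) ≤ 2 ^ (12 * (a - 1)) := h1
      _ = (((2 : ℝ) ^ (12 * (a - 1))) ^ 5) ^ (1 / 5 : ℝ) := h4.symm
      _ ≤ ((D : ℝ) / G) ^ (1 / 5 : ℝ) := Real.rpow_le_rpow (by positivity) h2 (by norm_num)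
  calc (S.card : ℝ) ≤ ((D * L ^ 6 * 2 ^ (11 * a) : ℕ) : ℝ) := by exact_mod_cast hcard2
    _ = D * (L : ℝ) ^ 6 * 2 ^ (11 * a) := by push_cast; ring
    _ ≤ D * (L : ℝ) ^ 6 * ((D : ℝ) / G) ^ (1 / 5 : ℝ) :=
        mul_le_mul_of_nonneg_left hpow (by positivity)

end GC85
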