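import Mathlib
import Pool.Agent.Helper85.DN.C3D

/-!
# DN-C3c: aligned pairs with many differences

`C3core` with `a = 3 * 10 ^ 7 y`: `ℓ = a + 10 Δ ≤ L / 1000` for large `L` (`L ≥ 2 * 10 ^ 12 y`), so `j ≤ U / 1000`,
`(b + 1) ^ (2 j) ≤ (b + 1) ^ (U / 500)`, `ℓ.choose j ≤ 2 ^ L`,
`3 ^ U ≤ 3 ^ L`: at most `(b + 1) ^ (L + 2 ε - (9/10) U)` pairs with `dis = U` (all factors `L`, `2 ^ L`, `3 ^ L` are at most
`(b + 1) ^ ε`, `NP.pw`; `16 ^ L` covers them), `U ≥ L / 10 ^ 4 ≥ 2 * 10 ^ 8 y`, `U ≤ L`. `DP.ge`: `(b + 1) ^ L ≤ D (b + 1) ^ 2`.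
-/

set_option autoImplicit false

namespace GC85

open Finset GC70

variable {B : Type} [Fintype B] [DecidableEq B]

private theorem C3c_rt {n L : ℕ} (h : ((n * n) * (n * n)) * ((n * n) * (n * n)) ≤ L) :
    n ≤ rt L := by
  unfold rt
  rw [Nat.le_sqrt, Nat.le_sqrt, Nat.le_sqrt]
  exact h

private theorem C3c_Del {L : ℕ} (h : 20000 ≤ rt L) : 20000 * Del L ≤ L := by
  unfold Del
  have h1 : L / rt L ≤ L / 20000 := Nat.div_le_div_left h (by norm_num)
  have h2 : L / 20000 * 20000 ≤ L := Nat.div_mul_le_self _ _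
  omega

private theorem C3c_dis (w w' : ℤ → Option B) (L : ℕ) : dis w w' L ≤ L := by
  unfold dis
  refine (card_filter_le _ _).trans ?_
  simp

private theorem C3c_num {L U J : ℕ} (hL : 2 ≤ L) (hU : U ≤ L) (hJ : J ≤ L) :
    L * (4 * L + 1) * 3 ^ U * ((J + 1) * 2 ^ L) ≤ 16 ^ L * 16 ^ L := by
  have h2 : L + 1 ≤ 2 ^ L := Nat.lt_two_pow_self
  have h4 : 4 ≤ 2 ^ L := by
    calc (4 : ℕ) = 2 ^ 2 := by norm_num
      _ ≤ 2 ^ L := Nat.pow_le_pow_right (by norm_num) hL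
  have hA : L ≤ 2 ^ L := by omega
  have hB : 4 * L + 1 ≤ 2 ^ L * 2 ^ L := by
    calc 4 * L + 1 ≤ 4 * (L + 1) := by omega
      _ ≤ 2 ^ L * 2 ^ L := Nat.mul_le_mul h4 h2
  have hC : 3 ^ U ≤ 2 ^ L * 2 ^ L := by
    calc 3 ^ U ≤ 4 ^ U := Nat.pow_le_pow_left (by norm_num) U
      _ ≤ 4 ^ L := Nat.pow_le_pow_right (by norm_num) hU
      _ = 2 ^ L * 2 ^ L := by rw [← mul_pow]; norm_num
  have hD : J + 1 ≤ 2 ^ L := by omega
  have h16 : (16 : ℕ) ^ L = 2 ^ L * 2 ^ L * (2 ^ L * 2 ^ L) := by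
    rw [← mul_pow, ← mul_pow]; norm_num
  have h1 : 1 ≤ 2 ^ L := Nat.one_le_two_pow
  calc L * (4 * L + 1) * 3 ^ U * ((J + 1) * 2 ^ L)
      ≤ 2 ^ L * (2 ^ L * 2 ^ L) * (2 ^ L * 2 ^ L) * (2 ^ L * 2 ^ L) := by
        refine Nat.mul_le_mul (Nat.mul_le_mul (Nat.mul_le_mul hA hB) hC) ?_
        exact Nat.mul_le_mul_right _ hD
    _ ≤ 2 ^ L * (2 ^ L * 2 ^ L) * (2 ^ L * 2 ^ L) * (2 ^ L * 2 ^ L) * 2 ^ L :=
        Nat.le_mul_of_pos_right _ h1
    _ = 16 ^ L * 16 ^ L := by rw [h16]; ring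

private theorem C3c_sum {l J q : ℕ} (L : ℕ) (hl : l ≤ L) (hq : 1 ≤ q) :
    ∑ j ∈ range (J + 1), l.choose j * q ^ (2 * j) ≤ (J + 1) * 2 ^ L * q ^ (2 * J) := by
  calc ∑ j ∈ range (J + 1), l.choose j * q ^ (2 * j)
      ≤ ∑ j ∈ range (J + 1), 2 ^ L * q ^ (2 * J) := by
        refine sum_le_sum fun j hj => ?_
        have hj' : j ≤ J := by simpa [Nat.lt_succ_iff] using hj
        refine Nat.mul_le_mul ?_ (Nat.pow_le_pow_right hq (by omega))
        exact (Nat.choose_le_two_pow l j).trans (Nat.pow_le_pow_right (by norm_num) hl)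
    _ = (J + 1) * 2 ^ L * q ^ (2 * J) := by
        rw [sum_const, card_range, smul_eq_mul]; ring

theorem C3c (b m : ℕ) (hB : Fintype.card B = b) : ∃ L0 : ℕ, ∀ L ≥ L0, ∀ s y ε M0 D G : ℕ,
    NP b m L s y ε → DP b m L s M0 D → G ∣ D → D ≤ G * (b + 1) ^ (3 * 10 ^ 7 * y) →
    ∀ S : Finset ((ℤ → Option B) × (ℤ → Option B)), CS B b m L s y G S →
      (∀ p ∈ S, L < 10 ^ 4 * dis p.1 p.2 L) → S.card * (b + 1) ^ (10 ^ 7 * y) ≤ D := by
  classical
  obtain ⟨L1, hL1⟩ := C3core (B := B) b m hB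
  refine ⟨max L1 (((20000 * 20000) * (20000 * 20000)) * ((20000 * 20000) * (20000 * 20000))), ?_⟩
  intro L hL s y ε M0 D G hN hD hG hDG S hS hdis
  have hLa : L1 ≤ L := (le_max_left _ _).trans hL
  have hLb : 20000 ≤ rt L := C3c_rt ((le_max_right _ _).trans hL)
  have hDel := C3c_Del hLb
  have hcore := (hL1 L hLa s y ε M0 D G hN hD hG (3 * 10 ^ 7 * y) (by omega) hDG S hS).2
  have hLge := hN.Lge
  have hyge := hN.yge
  have heps := hN.eps
  have hL2 : 2 ≤ L := by omega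
  have hq : 1 ≤ b + 1 := by omega
  have hqpos : 0 < b + 1 := by omega
  set l := 3 * 10 ^ 7 * y + 10 * Del L with hl
  have hl1 : 1000 * l ≤ L := by omega
  -- the bound for each number of differences
  have key : ∀ U ∈ range (L + 1),
      (S.filter (fun p => dis p.1 p.2 L = U)).card * (b + 1) ^ (19 * 10 ^ 7 * y)
        ≤ (b + 1) ^ (2 * ε + L) := by
    intro U hU
    have hUL : U ≤ L := by simpa [Nat.lt_succ_iff] using hU
    rcases (S.filter (fun p => dis p.1 p.2 L = U)).eq_empty_or_nonempty with he | ⟨p, hp⟩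
    · rw [he]; simp
    have hpU : L < 10 ^ 4 * U := by
      have h1 := (mem_filter.1 hp).1
      have h2 := (mem_filter.1 hp).2
      have h3 := hdis p h1
      rwa [h2] at h3
    have hc := hcore U
    set J := U * l / L with hJ
    have hJ1 : 1000 * J ≤ U := by
      have h1 : J * L ≤ U * l := Nat.div_mul_le_self _ _
      have h2 : 1000 * J * L ≤ U * L := by
        calc 1000 * J * L = 1000 * (J * L) := by ring
          _ ≤ 1000 * (U * l) := Nat.mul_le_mul_left _ h1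
          _ = U * (1000 * l) := by ring
          _ ≤ U * L := Nat.mul_le_mul_left _ hl1
      exact Nat.le_of_mul_le_mul_right h2 (by omega)
    have hJL : J ≤ L := by omega
    have hsum := C3c_sum (l := l) (J := J) (q := b + 1) L (by omega) hq
    have hnum := C3c_num hL2 hUL hJL
    have hpw := hN.pw
    have hexp : 19 * 10 ^ 7 * y + 2 * J ≤ U := by omega
    have e1 : (S.filter (fun p => dis p.1 p.2 L = U)).card * (b + 1) ^ (19 * 10 ^ 7 * y)
        * (b + 1) ^ (2 * J) ≤ (b + 1) ^ (2 * ε + L) * (b + 1) ^ (2 * J) := by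
      calc (S.filter (fun p => dis p.1 p.2 L = U)).card * (b + 1) ^ (19 * 10 ^ 7 * y)
            * (b + 1) ^ (2 * J)
          = (S.filter (fun p => dis p.1 p.2 L = U)).card * (b + 1) ^ (19 * 10 ^ 7 * y + 2 * J) := by
            rw [pow_add, mul_assoc]
        _ ≤ (S.filter (fun p => dis p.1 p.2 L = U)).card * (b + 1) ^ U :=
            Nat.mul_le_mul_left _ (Nat.pow_le_pow_right hqpos hexp)
        _ ≤ L * (4 * L + 1) * 3 ^ U * (b + 1) ^ L *
              ∑ j ∈ range (J + 1), l.choose j * (b + 1) ^ (2 * j) := hc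
        _ ≤ L * (4 * L + 1) * 3 ^ U * (b + 1) ^ L * ((J + 1) * 2 ^ L * (b + 1) ^ (2 * J)) :=
            Nat.mul_le_mul_left _ hsum
        _ = (L * (4 * L + 1) * 3 ^ U * ((J + 1) * 2 ^ L)) * ((b + 1) ^ L * (b + 1) ^ (2 * J)) := by
            ring
        _ ≤ (16 ^ L * 16 ^ L) * ((b + 1) ^ L * (b + 1) ^ (2 * J)) :=
            Nat.mul_le_mul_right _ hnum
        _ ≤ ((b + 1) ^ ε * (b + 1) ^ ε) * ((b + 1) ^ L * (b + 1) ^ (2 * J)) :=
            Nat.mul_le_mul_right _ (Nat.mul_le_mul hpw hpw)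
        _ = (b + 1) ^ (2 * ε + L) * (b + 1) ^ (2 * J) := by
            rw [two_mul ε, pow_add, pow_add]; ring
    exact Nat.le_of_mul_le_mul_right e1 (by positivity)
  have hfib : S.card = ∑ U ∈ range (L + 1), (S.filter (fun p => dis p.1 p.2 L = U)).card := by
    refine card_eq_sum_card_fiberwise
      (f := fun p : (ℤ → Option B) × (ℤ → Option B) => dis p.1 p.2 L) ?_
    intro p _
    simpa [Nat.lt_succ_iff] using C3c_dis p.1 p.2 L
  have htot : S.card * (b + 1) ^ (19 * 10 ^ 7 * y) ≤ (b + 1) ^ (3 * ε + L) := by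
    calc S.card * (b + 1) ^ (19 * 10 ^ 7 * y)
        = ∑ U ∈ range (L + 1),
            (S.filter (fun p => dis p.1 p.2 L = U)).card * (b + 1) ^ (19 * 10 ^ 7 * y) := by
          rw [hfib, sum_mul]
      _ ≤ ∑ U ∈ range (L + 1), (b + 1) ^ (2 * ε + L) := sum_le_sum key
      _ = (L + 1) * (b + 1) ^ (2 * ε + L) := by
          rw [sum_const, card_range, smul_eq_mul]
      _ ≤ 16 ^ L * (b + 1) ^ (2 * ε + L) := by
          refine Nat.mul_le_mul_right _ ?_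
          have h2 : L + 1 ≤ 2 ^ L := Nat.lt_two_pow_self
          exact h2.trans (Nat.pow_le_pow_left (by norm_num) L)
      _ ≤ (b + 1) ^ ε * (b + 1) ^ (2 * ε + L) := Nat.mul_le_mul_right _ hN.pw
      _ = (b + 1) ^ (3 * ε + L) := by
          rw [← pow_add]; congr 1; omega
  have hfin : S.card * (b + 1) ^ (10 ^ 7 * y) * (b + 1) ^ (18 * 10 ^ 7 * y)
      ≤ D * (b + 1) ^ (18 * 10 ^ 7 * y) := by
    calc S.card * (b + 1) ^ (10 ^ 7 * y) * (b + 1) ^ (18 * 10 ^ 7 * y)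
        = S.card * (b + 1) ^ (19 * 10 ^ 7 * y) := by
          rw [mul_assoc, ← pow_add]; congr 2; ring
      _ ≤ (b + 1) ^ (3 * ε + L) := htot
      _ = (b + 1) ^ (3 * ε) * (b + 1) ^ L := by rw [pow_add]
      _ ≤ (b + 1) ^ (3 * ε) * (D * (b + 1) ^ 2) := Nat.mul_le_mul_left _ hD.ge
      _ = D * (b + 1) ^ (3 * ε + 2) := by rw [pow_add]; ring
      _ ≤ D * (b + 1) ^ (18 * 10 ^ 7 * y) :=
          Nat.mul_le_mul_left _ (Nat.pow_le_pow_right hqpos (by omega))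
  exact Nat.le_of_mul_le_mul_right hfin (by positivity)

end GC85
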