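import Mathlib
import Pool.Agent.Helper70.GC.Main
import Pool.Agent.Helper85.DN.Defs

/-!
# DN-DivSum: sums over divisors

`sum_inv`: `∑_{e ∣ D} 1 / e ≤ ∑_{e ≤ D} 1 / e ≤ 1 + log D ≤ 1 + L log (b + 1)`, `G ↦ D / G` permutes the divisors.

`sum_pow`: `∑_{e ∣ D, e > Y} e ^ (-4/5) ≤ Y ^ (-1/2) ∑_{e ∣ D} e ^ (-3/10) ≤ Y ^ (-1/2) Sq D`
(`GC70.Sq`, `GC70.fq` in `Helper70/GC/Divs.lean`; `GC70.fq g = g ^ (-1/4)` or similar, see there), `Y = (b + 1) ^ (Del L)`; `GC70.rankin` with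
`t = L * (Nat.log 2 (b + 1) + 1)` and `Y' ≈ t ^ (4/5)` gives
`Sq D ≤ exp (C L ^ (4/5))`, while `Y ^ (-1/2) ≤ exp (- c L ^ (7/8))` (`Del L = L / rt L`, `rt L ≤ L ^ (1/8)`).
-/

set_option autoImplicit false

namespace GC85

open Finset GC70

private theorem ds_reidx (D : ℕ) (hD : 0 < D) (f : ℝ → ℝ) :
    ∑ G ∈ D.divisors, f ((D : ℝ) / G) = ∑ e ∈ D.divisors, f e := by
  rw [← Nat.sum_div_divisors D (fun e => f e)]
  refine sum_congr rfl fun G hG => ?_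
  rw [Nat.mem_divisors] at hG
  have hG0 : (G : ℝ) ≠ 0 := by
    intro h
    have h1 : G = 0 := by exact_mod_cast h
    rw [h1, zero_dvd_iff] at hG
    omega
  rw [Nat.cast_div hG.1 hG0]

theorem sum_inv (b : ℕ) (hb : 1 ≤ b) : ∃ L0 : ℕ, ∀ L ≥ L0, ∀ D : ℕ, 0 < D → D ≤ (b + 1) ^ L →
    ∑ G ∈ D.divisors, (G : ℝ) / D ≤ (L : ℝ) ^ 2 := by
  refine ⟨b + 2, fun L hL D hD hDb => ?_⟩
  have h1 : ∑ G ∈ D.divisors, (G : ℝ) / D = ∑ e ∈ D.divisors, (e : ℝ)⁻¹ := by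
    rw [← ds_reidx D hD (fun x => x⁻¹)]
    refine sum_congr rfl fun G _ => ?_
    rw [inv_div]
  have h2 : ∑ e ∈ D.divisors, (e : ℝ)⁻¹ ≤ ∑ e ∈ Icc 1 D, (e : ℝ)⁻¹ := by
    apply sum_le_sum_of_subset_of_nonneg
    · intro e he
      rw [mem_Icc]
      exact ⟨Nat.pos_of_mem_divisors he, Nat.divisor_le he⟩
    · intro e _ _
      positivity
  have h3 : ∑ e ∈ Icc 1 D, (e : ℝ)⁻¹ ≤ 1 + Real.log D := by
    have h4 := harmonic_le_one_add_log D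
    rw [harmonic_eq_sum_Icc] at h4
    push_cast at h4
    exact h4
  have hD0 : (0 : ℝ) < D := by exact_mod_cast hD
  have h5 : Real.log D ≤ L * b := by
    have h6 : Real.log D ≤ Real.log (((b : ℝ) + 1) ^ L) := by
      apply Real.log_le_log hD0
      exact_mod_cast hDb
    rw [Real.log_pow] at h6
    have h7 : Real.log ((b : ℝ) + 1) ≤ b := by
      have := Real.log_le_sub_one_of_pos (show (0 : ℝ) < (b : ℝ) + 1 by positivity)
      linarith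
    have h8 : (L : ℝ) * Real.log ((b : ℝ) + 1) ≤ L * b :=
      mul_le_mul_of_nonneg_left h7 (Nat.cast_nonneg L)
    linarith
  have hL1 : (b : ℝ) + 2 ≤ L := by exact_mod_cast hL
  have hb0 : (0 : ℝ) ≤ b := Nat.cast_nonneg b
  rw [h1]
  nlinarith

private theorem ds_asymp (c : ℝ) : ∃ X0 : ℝ, ∀ x ≥ X0, 1 ≤ x ∧
    4 * c * x ^ (4 / 5 : ℝ) + 30 * Real.log x + 3 ≤ 1 / 3 * x ^ (7 / 8 : ℝ) := by
  have h1 := (tendsto_rpow_atTop (show (0 : ℝ) < 3 / 40 by norm_num)).eventually_ge_atTop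
    (3 * (4 * c + 2))
  have h2 := (isLittleO_log_rpow_atTop (show (0 : ℝ) < 4 / 5 by norm_num)).bound
    (show (0 : ℝ) < 1 / 30 by norm_num)
  have h3 := (tendsto_rpow_atTop (show (0 : ℝ) < 4 / 5 by norm_num)).eventually_ge_atTop (3 : ℝ)
  obtain ⟨X0, hX⟩ := Filter.eventually_atTop.1 (h1.and (h2.and (h3.and
    (Filter.eventually_ge_atTop (1 : ℝ)))))
  refine ⟨X0, fun x hx => ?_⟩
  obtain ⟨h4, h5, h6, h7⟩ := hX x hx
  refine ⟨h7, ?_⟩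
  have hx0 : 0 < x := by linarith
  have h8 : x ^ (7 / 8 : ℝ) = x ^ (4 / 5 : ℝ) * x ^ (3 / 40 : ℝ) := by
    rw [← Real.rpow_add hx0]
    norm_num
  have h9 : Real.log x ≤ 1 / 30 * x ^ (4 / 5 : ℝ) := by
    have h10 : ‖x ^ (4 / 5 : ℝ)‖ = x ^ (4 / 5 : ℝ) := Real.norm_of_nonneg (by positivity)
    rw [h10] at h5
    exact (Real.le_norm_self _).trans h5
  have h10 : x ^ (4 / 5 : ℝ) * (3 * (4 * c + 2)) ≤ x ^ (4 / 5 : ℝ) * x ^ (3 / 40 : ℝ) :=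
    mul_le_mul_of_nonneg_left h4 (by positivity)
  rw [h8]
  nlinarith

/-- Rankin's bound -/
private theorem ds_Sq (b : ℕ) (hb : 1 ≤ b) (L D : ℕ) (hL : 1 ≤ L)
    (hL2 : 32 ≤ L) (hD : 0 < D) (hDb : D ≤ (b + 1) ^ L) :
    Sq D ≤ Real.exp (4 * (Nat.log 2 (b + 1) + 1 : ℕ) * (L : ℝ) ^ (4 / 5 : ℝ) + 2) := by
  set c : ℕ := Nat.log 2 (b + 1) + 1 with hc
  have hc1 : 1 ≤ c := by omega
  have hcb : b + 1 < 2 ^ c := Nat.lt_pow_succ_log_self (by norm_num) _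
  have hlt : D < 2 ^ (c * L) := by
    refine lt_of_le_of_lt hDb ?_
    rw [pow_mul]
    exact Nat.pow_lt_pow_left hcb (by omega)
  set x : ℝ := ((c * L : ℕ) : ℝ) with hx
  have hx32 : 32 ≤ x := by
    rw [hx]
    have : 32 ≤ c * L := hL2.trans (Nat.le_mul_of_pos_left L hc1)
    exact_mod_cast this
  have hx0 : 0 < x := by linarith
  set Y : ℕ := ⌈x ^ (4 / 5 : ℝ)⌉₊ with hY
  have hY1 : x ^ (4 / 5 : ℝ) ≤ Y := Nat.le_ceil _
  have hY2 : (Y : ℝ) ≤ x ^ (4 / 5 : ℝ) + 1 := (Nat.ceil_lt_add_one (by positivity)).le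
  have hY16 : 16 ≤ Y := by
    have h1 : (16 : ℝ) ≤ x ^ (4 / 5 : ℝ) := by
      have h2 : (32 : ℝ) ^ (4 / 5 : ℝ) = 16 := by
        have h3 : (32 : ℝ) = 2 ^ (5 : ℝ) := by
          rw [show (5 : ℝ) = ((5 : ℕ) : ℝ) by norm_num, Real.rpow_natCast]
          norm_num
        rw [h3, ← Real.rpow_mul (by norm_num)]
        rw [show (5 : ℝ) * (4 / 5) = ((4 : ℕ) : ℝ) by norm_num, Real.rpow_natCast]
        norm_num
      rw [← h2]
      exact Real.rpow_le_rpow (by norm_num) hx32 (by norm_num)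
    have h2 : (16 : ℝ) ≤ Y := h1.trans hY1
    exact_mod_cast h2
  have h1 := rankin D Y hD hY16 (c * L) hlt
  rw [← hx] at h1
  refine h1.trans ?_
  have h7 : (7 : ℝ) ≤ Real.exp 2 := by
    have h8 := Real.exp_one_gt_d9
    have h9 : Real.exp 2 = Real.exp 1 * Real.exp 1 := by
      rw [← Real.exp_add]
      norm_num
    rw [h9]
    nlinarith
  have h2 : (7 : ℝ) ^ Y ≤ Real.exp (2 * (x ^ (4 / 5 : ℝ) + 1)) := by
    calc (7 : ℝ) ^ Y ≤ Real.exp 2 ^ Y := pow_le_pow_left₀ (by norm_num) h7 _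
      _ = Real.exp (2 * Y) := by
        rw [← Real.exp_nat_mul]
        congr 1
        ring
      _ ≤ Real.exp (2 * (x ^ (4 / 5 : ℝ) + 1)) := by
        apply Real.exp_le_exp.2
        linarith
  have h3 : fq Y ≤ x ^ (-(1 / 5) : ℝ) := by
    unfold fq
    have h4 : (x ^ (4 / 5 : ℝ)) ^ (-(1 / 4) : ℝ) = x ^ (-(1 / 5) : ℝ) := by
      rw [← Real.rpow_mul hx0.le]
      norm_num
    rw [← h4]
    exact Real.rpow_le_rpow_of_nonpos (by positivity) hY1 (by norm_num)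
  have h4 : 2 * x * fq Y ≤ 2 * x ^ (4 / 5 : ℝ) := by
    have h5 : x * x ^ (-(1 / 5) : ℝ) = x ^ (4 / 5 : ℝ) := by
      have h6 : x ^ (4 / 5 : ℝ) = x ^ (1 + -(1 / 5) : ℝ) := by norm_num
      rw [h6, Real.rpow_add hx0, Real.rpow_one]
    have h6 : x * fq Y ≤ x * x ^ (-(1 / 5) : ℝ) := mul_le_mul_of_nonneg_left h3 hx0.le
    rw [h5] at h6
    linarith
  have h5 : x ^ (4 / 5 : ℝ) ≤ c * (L : ℝ) ^ (4 / 5 : ℝ) := by
    rw [hx]
    push_cast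
    rw [Real.mul_rpow (by positivity) (by positivity)]
    apply mul_le_mul_of_nonneg_right _ (by positivity)
    have h6 : (1 : ℝ) ≤ c := by exact_mod_cast hc1
    calc (c : ℝ) ^ (4 / 5 : ℝ) ≤ (c : ℝ) ^ (1 : ℝ) :=
          Real.rpow_le_rpow_of_exponent_le h6 (by norm_num)
      _ = c := Real.rpow_one _
  calc (7 : ℝ) ^ Y * Real.exp (2 * x * fq Y)
      ≤ Real.exp (2 * (x ^ (4 / 5 : ℝ) + 1)) * Real.exp (2 * x ^ (4 / 5 : ℝ)) :=
        mul_le_mul h2 (Real.exp_le_exp.2 h4) (Real.exp_pos _).le (Real.exp_pos _).le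
    _ = Real.exp (4 * x ^ (4 / 5 : ℝ) + 2) := by
        rw [← Real.exp_add]
        congr 1
        ring
    _ ≤ _ := by
        apply Real.exp_le_exp.2
        nlinarith

private theorem ds_Del (L : ℕ) (hL : 1 ≤ L) : (L : ℝ) ^ (7 / 8 : ℝ) - 1 ≤ Del L := by
  have hL0 : (0 : ℝ) < L := by exact_mod_cast hL
  have hr1 : 0 < rt L := by
    unfold rt
    exact Nat.sqrt_pos.2 (Nat.sqrt_pos.2 (Nat.sqrt_pos.2 hL))
  have hr8 : rt L ^ 8 ≤ L := by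
    unfold rt
    have h1 := Nat.sqrt_le' L
    have h2 := Nat.sqrt_le' (Nat.sqrt L)
    have h3 := Nat.sqrt_le' (Nat.sqrt (Nat.sqrt L))
    calc Nat.sqrt (Nat.sqrt (Nat.sqrt L)) ^ 8
        = ((Nat.sqrt (Nat.sqrt (Nat.sqrt L)) ^ 2) ^ 2) ^ 2 := by ring
      _ ≤ (Nat.sqrt (Nat.sqrt L) ^ 2) ^ 2 := Nat.pow_le_pow_left (Nat.pow_le_pow_left h3 2) 2
      _ ≤ Nat.sqrt L ^ 2 := Nat.pow_le_pow_left h2 2
      _ ≤ L := h1
  have hrR : (0 : ℝ) < rt L := by exact_mod_cast hr1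
  have h4 : (rt L : ℝ) ≤ (L : ℝ) ^ (1 / 8 : ℝ) := by
    have h5 : ((rt L : ℝ) ^ (8 : ℕ)) ≤ L := by exact_mod_cast hr8
    have h6 : ((rt L : ℝ) ^ (8 : ℕ)) ^ (1 / 8 : ℝ) = rt L := by
      rw [← Real.rpow_natCast, ← Real.rpow_mul hrR.le]
      norm_num
    rw [← h6]
    exact Real.rpow_le_rpow (by positivity) h5 (by norm_num)
  have h5 : (L : ℝ) < rt L * ((Del L : ℝ) + 1) := by
    have h6 : L < rt L * (L / rt L + 1) := Nat.lt_mul_div_succ L hr1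
    unfold Del
    exact_mod_cast h6
  have h6 : (L : ℝ) ^ (7 / 8 : ℝ) * (L : ℝ) ^ (1 / 8 : ℝ) = L := by
    rw [← Real.rpow_add hL0]
    norm_num
  have h7 : (L : ℝ) ^ (7 / 8 : ℝ) * rt L ≤ L := by
    have h8 : (L : ℝ) ^ (7 / 8 : ℝ) * rt L ≤ (L : ℝ) ^ (7 / 8 : ℝ) * (L : ℝ) ^ (1 / 8 : ℝ) :=
      mul_le_mul_of_nonneg_left h4 (by positivity)
    linarith
  have h8 : (L : ℝ) ^ (7 / 8 : ℝ) * rt L < ((Del L : ℝ) + 1) * rt L := by
    rw [mul_comm ((Del L : ℝ) + 1)]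
    linarith
  have h9 := lt_of_mul_lt_mul_right h8 hrR.le
  linarith

theorem sum_pow (b : ℕ) (hb : 1 ≤ b) : ∃ L0 : ℕ, ∀ L ≥ L0, ∀ D : ℕ, 0 < D → D ≤ (b + 1) ^ L →
    (∑ G ∈ D.divisors.filter (fun G => G * (b + 1) ^ (Del L) < D),
      ((G : ℝ) / D) * ((D : ℝ) / G) ^ (1 / 5 : ℝ)) * (L : ℝ) ^ 30 ≤ 1 := by
  obtain ⟨X0, hX⟩ := ds_asymp ((Nat.log 2 (b + 1) + 1 : ℕ) : ℝ)
  refine ⟨max 32 ⌈X0⌉₊, fun L hL D hD hDb => ?_⟩
  have hL32 : 32 ≤ L := (le_max_left _ _).trans hL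
  have hLX : X0 ≤ L := (Nat.le_ceil X0).trans (by exact_mod_cast (le_max_right _ _).trans hL)
  obtain ⟨hL1, hmain⟩ := hX L hLX
  have hL0 : (0 : ℝ) < L := by linarith
  have hSq := ds_Sq b hb L D (by omega) hL32 hD hDb
  have hDel := ds_Del L (by omega)
  have hD0 : (0 : ℝ) < D := by exact_mod_cast hD
  set Y : ℝ := ((b : ℝ) + 1) ^ (Del L) with hY
  have hb0 : (0 : ℝ) < (b : ℝ) + 1 := by positivity
  have hY0 : 0 < Y := by positivity
  -- the sum over the large divisors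
  have h1 : ∑ G ∈ D.divisors.filter (fun G => G * (b + 1) ^ (Del L) < D),
      ((G : ℝ) / D) * ((D : ℝ) / G) ^ (1 / 5 : ℝ) ≤
      ∑ G ∈ D.divisors, Y ^ (-(11 / 20) : ℝ) * ((D : ℝ) / G) ^ (-(1 / 4) : ℝ) := by
    refine (sum_le_sum fun G hG => ?_).trans (sum_le_sum_of_subset_of_nonneg
      (filter_subset _ _) fun G _ _ => by positivity)
    rw [mem_filter, Nat.mem_divisors] at hG
    have hG0 : 0 < G := Nat.pos_of_dvd_of_pos hG.1.1 hD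
    have hG0' : (0 : ℝ) < G := by exact_mod_cast hG0
    set e : ℝ := (D : ℝ) / G with he
    have he0 : 0 < e := by positivity
    have hYe : Y ≤ e := by
      rw [he, le_div_iff₀ hG0', hY]
      have h2 := hG.2.le
      have h3 : (G : ℝ) * ((b : ℝ) + 1) ^ (Del L) ≤ D := by exact_mod_cast h2
      linarith
    have h2 : (G : ℝ) / D = e ^ (-1 : ℝ) := by
      rw [Real.rpow_neg_one, he, inv_div]
    rw [h2, ← Real.rpow_add he0]
    have h3 : e ^ (-1 + 1 / 5 : ℝ) = e ^ (-(11 / 20) : ℝ) * e ^ (-(1 / 4) : ℝ) := by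
      rw [← Real.rpow_add he0]
      norm_num
    rw [h3]
    apply mul_le_mul_of_nonneg_right _ (by positivity)
    exact Real.rpow_le_rpow_of_nonpos hY0 hYe (by norm_num)
  have h2 : ∑ G ∈ D.divisors, Y ^ (-(11 / 20) : ℝ) * ((D : ℝ) / G) ^ (-(1 / 4) : ℝ) =
      Y ^ (-(11 / 20) : ℝ) * Sq D := by
    rw [← mul_sum, ds_reidx D hD (fun x => x ^ (-(1 / 4) : ℝ))]
    rfl
  -- the size of `Y`
  have hY2 : Real.exp (2 / 3 * Del L) ≤ Y := by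
    have h3 : Real.exp (2 / 3) ≤ 2 := by
      have h4 := Real.log_two_gt_d9
      calc Real.exp (2 / 3) ≤ Real.exp (Real.log 2) := Real.exp_le_exp.2 (by linarith)
        _ = 2 := Real.exp_log (by norm_num)
    have h4 : Real.exp (2 / 3 * Del L) = Real.exp (2 / 3) ^ (Del L) := by
      rw [← Real.exp_nat_mul]
      congr 1
      ring
    rw [h4, hY]
    apply pow_le_pow_left₀ (Real.exp_pos _).le
    have h5 : (1 : ℝ) ≤ b := by exact_mod_cast hb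
    linarith
  have hY3 : Y ^ (-(11 / 20) : ℝ) ≤ Real.exp (-(1 / 3 * Del L)) := by
    calc Y ^ (-(11 / 20) : ℝ) ≤ Real.exp (2 / 3 * Del L) ^ (-(11 / 20) : ℝ) :=
          Real.rpow_le_rpow_of_nonpos (Real.exp_pos _) hY2 (by norm_num)
      _ = Real.exp (2 / 3 * Del L * (-(11 / 20))) := (Real.exp_mul _ _).symm
      _ ≤ Real.exp (-(1 / 3 * Del L)) := by
          apply Real.exp_le_exp.2
          have : (0 : ℝ) ≤ Del L := Nat.cast_nonneg _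
          nlinarith
  have hL30 : (L : ℝ) ^ 30 = Real.exp (30 * Real.log L) := by
    rw [show (30 : ℝ) * Real.log L = ((30 : ℕ) : ℝ) * Real.log L by norm_num, Real.exp_nat_mul,
      Real.exp_log hL0]
  have hs0 : 0 ≤ Sq D := Sq_nonneg D
  calc (∑ G ∈ D.divisors.filter (fun G => G * (b + 1) ^ (Del L) < D),
      ((G : ℝ) / D) * ((D : ℝ) / G) ^ (1 / 5 : ℝ)) * (L : ℝ) ^ 30
      ≤ (Y ^ (-(11 / 20) : ℝ) * Sq D) * (L : ℝ) ^ 30 := by
        apply mul_le_mul_of_nonneg_right _ (by positivity)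
        rw [← h2]
        exact h1
    _ ≤ (Real.exp (-(1 / 3 * Del L)) * Real.exp (4 * (Nat.log 2 (b + 1) + 1 : ℕ) *
          (L : ℝ) ^ (4 / 5 : ℝ) + 2)) * Real.exp (30 * Real.log L) := by
        rw [hL30]
        apply mul_le_mul_of_nonneg_right _ (Real.exp_pos _).le
        exact mul_le_mul hY3 hSq hs0 (Real.exp_pos _).le
    _ = Real.exp (-(1 / 3 * Del L) + (4 * (Nat.log 2 (b + 1) + 1 : ℕ) *
          (L : ℝ) ^ (4 / 5 : ℝ) + 2) + 30 * Real.log L) := by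
        rw [← Real.exp_add, ← Real.exp_add]
    _ ≤ Real.exp 0 := by
        apply Real.exp_le_exp.2
        linarith
    _ = 1 := Real.exp_zero

end GC85
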