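import Mathlib
import Pool.Agent.Helper85.DN.C2
import Pool.Agent.Helper85.DN.C3a
import Pool.Agent.Helper85.DN.C3b
import Pool.Agent.Helper85.DN.DivSum

/-!
# DN-CFew: the sum over the aligned pairs with few differences

Split the pairs according to `G = gG p` (a divisor of `D` with `D ≤ G (b + 1) ^ (3 * 10 ^ 7 y)`); `V p.1 = V p.2` in `ZMod G`, so `CS`
holds for `S = SG G`. `C2` gives `∑ γ ≤ 3 G (SG G).card`. If `D ≤ G (b + 1) ^ (Del L)`: `C3a` gives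
`≤ 3 G D / L ^ 20`; sum over `G ∣ D` with `sum_inv`: `≤ 3 D ^ 2 L ^ 2 / L ^ 20`. Otherwise `C3b` gives
`3 G D L ^ 6 (D / G) ^ (1/5)`; sum with `sum_pow`: `≤ 3 D ^ 2 L ^ 6 / L ^ 30`.
-/

set_option autoImplicit false

namespace GC85

open Finset GC70

variable {B : Type} [Fintype B] [DecidableEq B]

private theorem CFew_mem {b m L s D y : ℕ} {p : (ℤ → Option B) × (ℤ → Option B)}
    (hp : p ∈ AlS B b m L s D y) (hd : 10 ^ 4 * dis p.1 p.2 L ≤ L) :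
    p ∈ SG B b m L s D y (gG (b + 1) m D L p.1 p.2) ∧ Prim (b + 1) m D L p.1 ∧
      D ≤ gG (b + 1) m D L p.1 p.2 * (b + 1) ^ (3 * 10 ^ 7 * y) := by
  classical
  unfold AlS at hp
  rw [mem_filter] at hp
  obtain ⟨h1, h2, h3, h4, h5, h6, h7, h8, h9, h10⟩ := hp
  refine ⟨?_, h6, h9⟩
  unfold SG
  rw [mem_filter]
  exact ⟨h1, h2, h3, h4, h5, h8, rfl, h10, hd⟩

private theorem CFew_CS {b m L s D y G : ℕ} : CS B b m L s y G (SG B b m L s D y G) := by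
  classical
  have key : ∀ p ∈ SG B b m L s D y G, Wd p.1 L s ∧ Wd p.2 L s ∧
      Ty b p.1 L (Del L) ∧ Ty b p.2 L (Del L) ∧ p.1 ≠ p.2 ∧ gG (b + 1) m D L p.1 p.2 = G ∧
      kd p.1 p.2 L ≤ 12 * 10 ^ 7 * y + 80 * y ∧ 10 ^ 4 * dis p.1 p.2 L ≤ L := by
    intro p hp
    unfold SG at hp
    rw [mem_filter] at hp
    exact hp.2
  refine ⟨fun p hp => ?_, fun p hp i => ?_, fun p hp => ?_, fun p hp => ?_⟩
  · obtain ⟨h2, h3, h4, h5, h8, h9, h10, h11⟩ := key p hp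
    exact ⟨h2, h3, h4, h5⟩
  · obtain ⟨h2, h3, h4, h5, h8, h9, h10, h11⟩ := key p hp
    have h12 : (G : ℤ) ∣ (V (b + 1) m p.1 L i : ℤ) - (V (b + 1) m p.2 L i : ℤ) := by
      rw [Int.natCast_dvd, ← h9]
      unfold gG
      exact (Nat.gcd_dvd_right _ _).trans (Finset.gcd_dvd (mem_univ i))
    have h13 := (ZMod.intCast_zmod_eq_zero_iff_dvd _ G).2 h12
    push_cast at h13
    exact sub_eq_zero.1 h13
  · obtain ⟨h2, h3, h4, h5, h8, h9, h10, h11⟩ := key p hp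
    exact h8
  · obtain ⟨h2, h3, h4, h5, h8, h9, h10, h11⟩ := key p hp
    exact h10

theorem CFew (b m : ℕ) (hB : Fintype.card B = b) : ∃ L0 : ℕ, ∀ L ≥ L0, ∀ s y ε M0 D : ℕ,
    NP b m L s y ε → DP b m L s M0 D →
    ∀ γ : (ℤ → Option B) × (ℤ → Option B) → ℕ,
      (∀ p ∈ AlS B b m L s D y, γ p ∣ D ∧ RelG (b + 1) m (γ p) L L p.1 p.2) →
      (∑ p ∈ (AlS B b m L s D y).filter (fun p => 10 ^ 4 * dis p.1 p.2 L ≤ L), (γ p : ℝ)) *
        (2 * (L : ℝ) ^ 10) ≤ (D : ℝ) ^ 2 := by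
  classical
  by_cases hb1 : 1 ≤ b
  swap
  · refine ⟨0, fun L _ s y ε M0 D N _ => ?_⟩
    exfalso
    have h1 := N.b1
    have h2 : 1 ≤ 2 ^ 60 := Nat.one_le_two_pow
    exact hb1 (h2.trans h1)
  obtain ⟨L1, H1⟩ := C3a (B := B) b m hB
  obtain ⟨L2, H2⟩ := C3b (B := B) b m hB
  obtain ⟨L3, H3⟩ := sum_inv b hb1
  obtain ⟨L4, H4⟩ := sum_pow b hb1
  refine ⟨max (max L1 L2) (max (max L3 L4) 2), fun L hL s y ε M0 D N Q γ hγ => ?_⟩
  have hL1 : L1 ≤ L := (le_max_left _ _).trans ((le_max_left _ _).trans hL)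
  have hL2 : L2 ≤ L := (le_max_right _ _).trans ((le_max_left _ _).trans hL)
  have hL3 : L3 ≤ L := (le_max_left _ _).trans ((le_max_left _ _).trans ((le_max_right _ _).trans hL))
  have hL4 : L4 ≤ L := (le_max_right _ _).trans ((le_max_left _ _).trans ((le_max_right _ _).trans hL))
  have hL5 : 2 ≤ L := (le_max_right _ _).trans ((le_max_right _ _).trans hL)
  -- the size of `D`
  have hD0 : 0 < D := by
    rcases Nat.eq_zero_or_pos D with h | h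
    · exfalso
      have h1 := Q.ge
      rw [h, zero_mul] at h1
      have h2 : 0 < (b + 1) ^ L := by positivity
      omega
    · exact h
  have hDL : D ≤ (b + 1) ^ L := by
    have hm0 : 0 < m := lt_of_lt_of_le (Nat.succ_pos b) N.dm
    have h1 : 0 < m ^ s := by positivity
    have h2 := Q.le2
    have h3 : 0 < (b + 1) ^ L - m ^ s := by omega
    exact (Nat.le_of_dvd h3 Q.dvd).trans (Nat.sub_le _ _)
  have hDr : (0 : ℝ) < D := by exact_mod_cast hD0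
  have hLr : (2 : ℝ) ≤ L := by exact_mod_cast hL5
  have hLr0 : (0 : ℝ) < L := by linarith
  set F := (AlS B b m L s D y).filter (fun p => 10 ^ 4 * dis p.1 p.2 L ≤ L) with hF
  have hmaps : ∀ p ∈ F, gG (b + 1) m D L p.1 p.2 ∈ D.divisors := by
    intro p _
    rw [Nat.mem_divisors]
    exact ⟨Nat.gcd_dvd_left _ _, hD0.ne'⟩
  rw [← Finset.sum_fiberwise_of_maps_to hmaps]
  -- the bound for one divisor
  have hone : ∀ G ∈ D.divisors,
      ∑ p ∈ F.filter (fun p => gG (b + 1) m D L p.1 p.2 = G), (γ p : ℝ) ≤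
        3 * (D : ℝ) ^ 2 / (L : ℝ) ^ 20 * ((G : ℝ) / D) +
          (if G * (b + 1) ^ (Del L) < D then
            3 * (D : ℝ) ^ 2 * (L : ℝ) ^ 6 * (((G : ℝ) / D) * ((D : ℝ) / G) ^ (1 / 5 : ℝ)) else 0) := by
    intro G hG
    have hGD : G ∣ D := Nat.dvd_of_mem_divisors hG
    have hG0 : 0 < G := Nat.pos_of_dvd_of_pos hGD hD0
    have hGr : (0 : ℝ) < G := by exact_mod_cast hG0
    have hA0 : 0 ≤ 3 * (D : ℝ) ^ 2 / (L : ℝ) ^ 20 * ((G : ℝ) / D) := by positivity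
    have hB0 : 0 ≤ (if G * (b + 1) ^ (Del L) < D then
            3 * (D : ℝ) ^ 2 * (L : ℝ) ^ 6 * (((G : ℝ) / D) * ((D : ℝ) / G) ^ (1 / 5 : ℝ)) else 0) := by
      split_ifs
      · positivity
      · exact le_rfl
    rcases (F.filter (fun p => gG (b + 1) m D L p.1 p.2 = G)).eq_empty_or_nonempty with he | ⟨q, hq⟩
    · rw [he, sum_empty]
      linarith
    have hT : ∀ p ∈ F.filter (fun p => gG (b + 1) m D L p.1 p.2 = G),
        p ∈ AlS B b m L s D y ∧ p ∈ SG B b m L s D y G ∧ Prim (b + 1) m D L p.1 ∧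
          D ≤ G * (b + 1) ^ (3 * 10 ^ 7 * y) := by
      intro p hp
      obtain ⟨hp1, hp2⟩ := mem_filter.1 hp
      obtain ⟨hp3, hp4⟩ := mem_filter.1 hp1
      have h1 := CFew_mem hp3 hp4
      rw [hp2] at h1
      exact ⟨hp3, h1⟩
    have hGe := (hT q hq).2.2.2
    have h2 := C2 hB N Q hGD hGe (F.filter (fun p => gG (b + 1) m D L p.1 p.2 = G))
      (fun p hp => (hT p hp).2.1) (fun p hp => (hT p hp).2.2.1) γ (fun p hp => hγ p (hT p hp).1)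
    refine h2.trans ?_
    by_cases hlt : G * (b + 1) ^ (Del L) < D
    · rw [if_pos hlt]
      have h3 := H2 L hL2 s y ε M0 D G N Q hGD hlt hGe (SG B b m L s D y G) CFew_CS
      have h4 : 3 * (G : ℝ) * ((SG B b m L s D y G).card : ℝ) ≤
          3 * (G : ℝ) * (D * (L : ℝ) ^ 6 * ((D : ℝ) / G) ^ (1 / 5 : ℝ)) :=
        mul_le_mul_of_nonneg_left h3 (by positivity)
      have h5 : 3 * (G : ℝ) * (D * (L : ℝ) ^ 6 * ((D : ℝ) / G) ^ (1 / 5 : ℝ)) =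
          3 * (D : ℝ) ^ 2 * (L : ℝ) ^ 6 * (((G : ℝ) / D) * ((D : ℝ) / G) ^ (1 / 5 : ℝ)) := by
        field_simp
      linarith
    · rw [if_neg hlt, add_zero]
      have h3 := H1 L hL1 s y ε M0 D G N Q hGD (not_lt.1 hlt) (SG B b m L s D y G) CFew_CS
      have h4 : ((SG B b m L s D y G).card : ℝ) ≤ D / (L : ℝ) ^ 20 := by
        rw [le_div_iff₀ (by positivity)]
        exact h3
      have h5 : 3 * (G : ℝ) * ((SG B b m L s D y G).card : ℝ) ≤ 3 * (G : ℝ) * (D / (L : ℝ) ^ 20) :=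
        mul_le_mul_of_nonneg_left h4 (by positivity)
      have h6 : 3 * (G : ℝ) * (D / (L : ℝ) ^ 20) =
          3 * (D : ℝ) ^ 2 / (L : ℝ) ^ 20 * ((G : ℝ) / D) := by
        field_simp
      linarith
  -- the sum over the divisors
  have h1 := sum_le_sum hone
  rw [sum_add_distrib, ← mul_sum, ← sum_filter, ← mul_sum] at h1
  have h3 := H3 L hL3 D hD0 hDL
  have h4 := H4 L hL4 D hD0 hDL
  set X : ℝ := ∑ G ∈ D.divisors, (G : ℝ) / D with hX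
  set Y : ℝ := ∑ G ∈ D.divisors.filter (fun G => G * (b + 1) ^ (Del L) < D),
      ((G : ℝ) / D) * ((D : ℝ) / G) ^ (1 / 5 : ℝ) with hY
  set W : ℝ := ∑ G ∈ D.divisors,
    ∑ p ∈ F.filter (fun p => gG (b + 1) m D L p.1 p.2 = G), (γ p : ℝ) with hW
  have h5 : 3 * (D : ℝ) ^ 2 / (L : ℝ) ^ 20 * X ≤ 3 * (D : ℝ) ^ 2 / (L : ℝ) ^ 18 := by
    calc 3 * (D : ℝ) ^ 2 / (L : ℝ) ^ 20 * X ≤ 3 * (D : ℝ) ^ 2 / (L : ℝ) ^ 20 * (L : ℝ) ^ 2 :=
          mul_le_mul_of_nonneg_left h3 (by positivity)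
      _ = 3 * (D : ℝ) ^ 2 / (L : ℝ) ^ 18 := by
          field_simp
  have h6 : 3 * (D : ℝ) ^ 2 * (L : ℝ) ^ 6 * Y ≤ 3 * (D : ℝ) ^ 2 / (L : ℝ) ^ 24 := by
    have h7 : Y ≤ 1 / (L : ℝ) ^ 30 := by
      rw [le_div_iff₀ (by positivity)]
      exact h4
    calc 3 * (D : ℝ) ^ 2 * (L : ℝ) ^ 6 * Y ≤ 3 * (D : ℝ) ^ 2 * (L : ℝ) ^ 6 * (1 / (L : ℝ) ^ 30) :=
          mul_le_mul_of_nonneg_left h7 (by positivity)
      _ = 3 * (D : ℝ) ^ 2 / (L : ℝ) ^ 24 := by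
          field_simp
  have h8 : 3 * (D : ℝ) ^ 2 / (L : ℝ) ^ 24 ≤ 3 * (D : ℝ) ^ 2 / (L : ℝ) ^ 18 :=
    div_le_div_of_nonneg_left (by positivity) (by positivity)
      (pow_le_pow_right₀ (by linarith) (by norm_num))
  have h9 : W ≤ 6 * (D : ℝ) ^ 2 / (L : ℝ) ^ 18 := by
    have e : 6 * (D : ℝ) ^ 2 / (L : ℝ) ^ 18 =
        3 * (D : ℝ) ^ 2 / (L : ℝ) ^ 18 + 3 * (D : ℝ) ^ 2 / (L : ℝ) ^ 18 := by ring
    rw [e]
    linarith
  have h10 : (12 : ℝ) ≤ (L : ℝ) ^ 8 := by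
    calc (12 : ℝ) ≤ 2 ^ 8 := by norm_num
      _ ≤ (L : ℝ) ^ 8 := pow_le_pow_left₀ (by norm_num) hLr 8
  calc W * (2 * (L : ℝ) ^ 10) ≤ 6 * (D : ℝ) ^ 2 / (L : ℝ) ^ 18 * (2 * (L : ℝ) ^ 10) :=
        mul_le_mul_of_nonneg_right h9 (by positivity)
    _ = 12 * (D : ℝ) ^ 2 / (L : ℝ) ^ 8 := by
        field_simp
        ring
    _ ≤ (D : ℝ) ^ 2 := by
        rw [div_le_iff₀ (by positivity)]
        nlinarith [mul_le_mul_of_nonneg_right h10 (sq_nonneg (D : ℝ))]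

end GC85
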