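import Mathlib
import Pool.Agent.Helper85.DN.C3c
import Pool.Agent.Helper94.Abc.Basic

/-!
# DN-CMany: the sum over the aligned pairs with many differences

Split the pairs according to `G = gG p` (a divisor of `D` with `D ≤ G (b + 1) ^ (3 * 10 ^ 7 y)`; `V p.1 = V p.2` in `ZMod G`, so `CS`
holds). `γ p ≤ D` and `C3c`: `∑ γ ≤ D * D / (b + 1) ^ (10 ^ 7 y)` for each `G`; at most `D.divisors.card` values `G`, and
`D.divisors.card ≤ C D ^ (10 ^ (-7))` (`Helper94.Abc.divisor_bound`), `D ≤ (b + 1) ^ L`, `10 ^ 7 y ≥ 2 * 10 ^ (-6) L`.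
-/

set_option autoImplicit false

namespace GC85

open Finset GC70

variable {B : Type} [Fintype B] [DecidableEq B]

private theorem CMany_mem {b m L s D y : ℕ} {p : (ℤ → Option B) × (ℤ → Option B)}
    (hp : p ∈ AlS B b m L s D y) :
    (Wd p.1 L s ∧ Wd p.2 L s ∧ Ty b p.1 L (Del L) ∧ Ty b p.2 L (Del L)) ∧ p.1 ≠ p.2 ∧
      D ≤ gG (b + 1) m D L p.1 p.2 * (b + 1) ^ (3 * 10 ^ 7 * y) ∧
      kd p.1 p.2 L ≤ 12 * 10 ^ 7 * y + 80 * y := by
  classical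
  unfold AlS at hp
  rw [mem_filter] at hp
  obtain ⟨h1, h2, h3, h4, h5, h6, h7, h8, h9, h10⟩ := hp
  exact ⟨⟨h2, h3, h4, h5⟩, h8, h9, h10⟩

private theorem CMany_CS {b m L s D y G : ℕ} (S : Finset ((ℤ → Option B) × (ℤ → Option B)))
    (hS : ∀ p ∈ S, p ∈ AlS B b m L s D y ∧ gG (b + 1) m D L p.1 p.2 = G) :
    CS B b m L s y G S := by
  refine ⟨fun p hp => ?_, fun p hp i => ?_, fun p hp => ?_, fun p hp => ?_⟩
  · exact (CMany_mem (hS p hp).1).1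
  · have h12 : (G : ℤ) ∣ (V (b + 1) m p.1 L i : ℤ) - (V (b + 1) m p.2 L i : ℤ) := by
      rw [Int.natCast_dvd, ← (hS p hp).2]
      unfold gG
      exact (Nat.gcd_dvd_right _ _).trans (Finset.gcd_dvd (mem_univ i))
    have h13 := (ZMod.intCast_zmod_eq_zero_iff_dvd _ G).2 h12
    push_cast at h13
    exact sub_eq_zero.1 h13
  · exact (CMany_mem (hS p hp).1).2.1
  · exact (CMany_mem (hS p hp).1).2.2.2

private theorem CMany_exp (C : ℝ) (hC : 1 ≤ C) : ∃ L0 : ℕ, ∀ L ≥ L0,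
    C * (2 * (L : ℝ) ^ 10) ≤ (16 : ℝ) ^ L := by
  have h := tendsto_pow_const_div_const_pow_of_one_lt 10 (show (1 : ℝ) < 16 by norm_num)
  have hpos : (0 : ℝ) < 1 / (2 * C) := by positivity
  obtain ⟨L0, hL0⟩ := Filter.eventually_atTop.1 (h.eventually (gt_mem_nhds hpos))
  refine ⟨L0, fun L hL => ?_⟩
  have h1 := hL0 L hL
  have h2 : (0 : ℝ) < (16 : ℝ) ^ L := by positivity
  rw [div_lt_div_iff₀ h2 (by positivity)] at h1
  have e : C * (2 * (L : ℝ) ^ 10) = (L : ℝ) ^ 10 * (2 * C) := by ring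
  rw [e]
  linarith

theorem CMany (b m : ℕ) (hB : Fintype.card B = b) : ∃ L0 : ℕ, ∀ L ≥ L0, ∀ s y ε M0 D : ℕ,
    NP b m L s y ε → DP b m L s M0 D →
    ∀ γ : (ℤ → Option B) × (ℤ → Option B) → ℕ,
      (∀ p ∈ AlS B b m L s D y, γ p ∣ D ∧ RelG (b + 1) m (γ p) L L p.1 p.2) →
      (∑ p ∈ (AlS B b m L s D y).filter (fun p => ¬ 10 ^ 4 * dis p.1 p.2 L ≤ L), (γ p : ℝ)) *
        (2 * (L : ℝ) ^ 10) ≤ (D : ℝ) ^ 2 := by
  classical
  obtain ⟨L1, H1⟩ := C3c (B := B) b m hB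
  obtain ⟨C, hC1, hC⟩ := Pool.Agent.Helper94.Abc.divisor_bound (ε := 1 / 10 ^ 7) (by positivity)
  obtain ⟨L2, H2⟩ := CMany_exp C hC1
  refine ⟨max L1 L2, fun L hL s y ε M0 D N Q γ hγ => ?_⟩
  have hL1 : L1 ≤ L := (le_max_left _ _).trans hL
  have hL2 : L2 ≤ L := (le_max_right _ _).trans hL
  -- the size of `D`
  have hD0 : 0 < D := by
    rcases Nat.eq_zero_or_pos D with h | h
    · exfalso
      have h1 := Q.ge
      rw [h, zero_mul] at h1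
      have h2 : 0 < (b + 1) ^ L := by positivity
      omega
    · exact h
  have hDL : D ≤ (b + 1) ^ L := by
    have hm0 : 0 < m := lt_of_lt_of_le (Nat.succ_pos b) N.dm
    have h1 : 0 < m ^ s := by positivity
    have h2 := Q.le2
    have h3 : 0 < (b + 1) ^ L - m ^ s := by omega
    exact (Nat.le_of_dvd h3 Q.dvd).trans (Nat.sub_le _ _)
  have hDr : (0 : ℝ) < D := by exact_mod_cast hD0
  have hb0 : (1 : ℝ) ≤ (b : ℝ) + 1 := by
    have : (0 : ℝ) ≤ (b : ℝ) := Nat.cast_nonneg b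
    linarith
  set F := (AlS B b m L s D y).filter (fun p => ¬ 10 ^ 4 * dis p.1 p.2 L ≤ L) with hF
  have hmaps : ∀ p ∈ F, gG (b + 1) m D L p.1 p.2 ∈ D.divisors := by
    intro p _
    rw [Nat.mem_divisors]
    exact ⟨Nat.gcd_dvd_left _ _, hD0.ne'⟩
  rw [← Finset.sum_fiberwise_of_maps_to hmaps]
  -- the bound for one divisor
  have hone : ∀ G ∈ D.divisors,
      (∑ p ∈ F.filter (fun p => gG (b + 1) m D L p.1 p.2 = G), (γ p : ℝ)) *
        ((b : ℝ) + 1) ^ (10 ^ 7 * y) ≤ (D : ℝ) ^ 2 := by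
    intro G hG
    have hGD : G ∣ D := Nat.dvd_of_mem_divisors hG
    rcases (F.filter (fun p => gG (b + 1) m D L p.1 p.2 = G)).eq_empty_or_nonempty with he | ⟨q, hq⟩
    · rw [he, sum_empty, zero_mul]
      positivity
    have hT : ∀ p ∈ F.filter (fun p => gG (b + 1) m D L p.1 p.2 = G),
        (p ∈ AlS B b m L s D y ∧ gG (b + 1) m D L p.1 p.2 = G) ∧ L < 10 ^ 4 * dis p.1 p.2 L := by
      intro p hp
      obtain ⟨hp1, hp2⟩ := mem_filter.1 hp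
      obtain ⟨hp3, hp4⟩ := mem_filter.1 hp1
      exact ⟨⟨hp3, hp2⟩, not_le.1 hp4⟩
    have hGe : D ≤ G * (b + 1) ^ (3 * 10 ^ 7 * y) := by
      have h1 := (CMany_mem (hT q hq).1.1).2.2.1
      rw [(hT q hq).1.2] at h1
      exact h1
    have h2 := H1 L hL1 s y ε M0 D G N Q hGD hGe
      (F.filter (fun p => gG (b + 1) m D L p.1 p.2 = G))
      (CMany_CS _ (fun p hp => (hT p hp).1)) (fun p hp => (hT p hp).2)
    have h3 : (∑ p ∈ F.filter (fun p => gG (b + 1) m D L p.1 p.2 = G), (γ p : ℝ)) ≤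
        ((F.filter (fun p => gG (b + 1) m D L p.1 p.2 = G)).card : ℝ) * D := by
      rw [← nsmul_eq_mul]
      refine Finset.sum_le_card_nsmul _ _ _ (fun p hp => ?_)
      exact_mod_cast Nat.le_of_dvd hD0 (hγ p (hT p hp).1.1).1
    have h4 : ((F.filter (fun p => gG (b + 1) m D L p.1 p.2 = G)).card : ℝ) *
        ((b : ℝ) + 1) ^ (10 ^ 7 * y) ≤ D := by
      exact_mod_cast h2
    have h5 : (0 : ℝ) < ((b : ℝ) + 1) ^ (10 ^ 7 * y) := by positivity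
    calc (∑ p ∈ F.filter (fun p => gG (b + 1) m D L p.1 p.2 = G), (γ p : ℝ)) *
        ((b : ℝ) + 1) ^ (10 ^ 7 * y)
        ≤ (((F.filter (fun p => gG (b + 1) m D L p.1 p.2 = G)).card : ℝ) * D) *
            ((b : ℝ) + 1) ^ (10 ^ 7 * y) := mul_le_mul_of_nonneg_right h3 h5.le
      _ = (((F.filter (fun p => gG (b + 1) m D L p.1 p.2 = G)).card : ℝ) *
            ((b : ℝ) + 1) ^ (10 ^ 7 * y)) * D := by ring
      _ ≤ D * D := mul_le_mul_of_nonneg_right h4 hDr.le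
      _ = (D : ℝ) ^ 2 := by ring
  -- the number of divisors
  have hcard : ((D.divisors.card : ℕ) : ℝ) * (2 * (L : ℝ) ^ 10) ≤ ((b : ℝ) + 1) ^ (10 ^ 7 * y) := by
    have h1 := hC D hD0.ne'
    have h2 : ((D : ℝ)) ^ ((1 : ℝ) / 10 ^ 7) ≤ ((b : ℝ) + 1) ^ (4 * 10 ^ 5 * y) := by
      have h3 : (D : ℝ) ≤ ((b : ℝ) + 1) ^ L := by exact_mod_cast hDL
      calc ((D : ℝ)) ^ ((1 : ℝ) / 10 ^ 7) ≤ (((b : ℝ) + 1) ^ L) ^ ((1 : ℝ) / 10 ^ 7) :=
            Real.rpow_le_rpow hDr.le h3 (by positivity)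
        _ = ((b : ℝ) + 1) ^ ((L : ℝ) * ((1 : ℝ) / 10 ^ 7)) := by
            rw [← Real.rpow_natCast, ← Real.rpow_mul (by linarith)]
        _ ≤ ((b : ℝ) + 1) ^ (((4 * 10 ^ 5 * y : ℕ) : ℝ)) := by
            refine Real.rpow_le_rpow_of_exponent_le hb0 ?_
            have h4 : (L : ℝ) ≤ 2 * 10 ^ 12 * ((y : ℝ) + 1) := by exact_mod_cast N.Lle
            have h5 : (1 : ℝ) ≤ y := by
              have := N.yge
              have h6 : (1 : ℕ) ≤ y := le_trans (by norm_num) this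
              exact_mod_cast h6
            push_cast
            rw [mul_one_div, div_le_iff₀ (by positivity)]
            nlinarith
        _ = ((b : ℝ) + 1) ^ (4 * 10 ^ 5 * y) := by rw [Real.rpow_natCast]
    have h6 : C * (2 * (L : ℝ) ^ 10) ≤ ((b : ℝ) + 1) ^ y := by
      have h7 : (16 : ℝ) ^ L ≤ ((b : ℝ) + 1) ^ ε := by exact_mod_cast N.pw
      have h8 : ε ≤ y := by
        have := N.eps
        omega
      exact ((H2 L hL2).trans h7).trans (pow_le_pow_right₀ hb0 h8)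
    have h9 : (0 : ℝ) ≤ 2 * (L : ℝ) ^ 10 := by positivity
    calc ((D.divisors.card : ℕ) : ℝ) * (2 * (L : ℝ) ^ 10)
        ≤ (C * (D : ℝ) ^ ((1 : ℝ) / 10 ^ 7)) * (2 * (L : ℝ) ^ 10) :=
          mul_le_mul_of_nonneg_right h1 h9
      _ = (C * (2 * (L : ℝ) ^ 10)) * (D : ℝ) ^ ((1 : ℝ) / 10 ^ 7) := by ring
      _ ≤ ((b : ℝ) + 1) ^ y * ((b : ℝ) + 1) ^ (4 * 10 ^ 5 * y) :=
          mul_le_mul h6 h2 (by positivity) (by positivity)
      _ = ((b : ℝ) + 1) ^ (y + 4 * 10 ^ 5 * y) := by rw [pow_add]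
      _ ≤ ((b : ℝ) + 1) ^ (10 ^ 7 * y) := pow_le_pow_right₀ hb0 (by omega)
  have hQ : (0 : ℝ) < ((b : ℝ) + 1) ^ (10 ^ 7 * y) := by positivity
  set W : ℝ := ∑ G ∈ D.divisors,
    ∑ p ∈ F.filter (fun p => gG (b + 1) m D L p.1 p.2 = G), (γ p : ℝ) with hW
  have hW1 : W * ((b : ℝ) + 1) ^ (10 ^ 7 * y) ≤ ((D.divisors.card : ℕ) : ℝ) * (D : ℝ) ^ 2 := by
    rw [hW, Finset.sum_mul, ← nsmul_eq_mul]
    exact Finset.sum_le_card_nsmul _ _ _ hone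
  have h9 : (0 : ℝ) ≤ 2 * (L : ℝ) ^ 10 := by positivity
  have hfin : (W * (2 * (L : ℝ) ^ 10)) * ((b : ℝ) + 1) ^ (10 ^ 7 * y) ≤
      (D : ℝ) ^ 2 * ((b : ℝ) + 1) ^ (10 ^ 7 * y) := by
    calc (W * (2 * (L : ℝ) ^ 10)) * ((b : ℝ) + 1) ^ (10 ^ 7 * y)
        = (W * ((b : ℝ) + 1) ^ (10 ^ 7 * y)) * (2 * (L : ℝ) ^ 10) := by ring
      _ ≤ (((D.divisors.card : ℕ) : ℝ) * (D : ℝ) ^ 2) * (2 * (L : ℝ) ^ 10) :=
          mul_le_mul_of_nonneg_right hW1 h9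
      _ = (D : ℝ) ^ 2 * (((D.divisors.card : ℕ) : ℝ) * (2 * (L : ℝ) ^ 10)) := by ring
      _ ≤ (D : ℝ) ^ 2 * ((b : ℝ) + 1) ^ (10 ^ 7 * y) :=
          mul_le_mul_of_nonneg_left hcard (sq_nonneg _)
  exact le_of_mul_le_mul_right hfin hQ

end GC85
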