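import Mathlib
import Pool.Agent.Helper85.DN.CFew
import Pool.Agent.Helper85.DN.CMany

/-!
# DN-CMain: the sum over the aligned pairs is negligible
-/

set_option autoImplicit false

namespace GC85

open Finset GC70

variable {B : Type} [Fintype B] [DecidableEq B]

theorem CMain (b m : ℕ) (hB : Fintype.card B = b) : ∃ L0 : ℕ, ∀ L ≥ L0, ∀ s y ε M0 D : ℕ,
    NP b m L s y ε → DP b m L s M0 D →
    ∀ γ : (ℤ → Option B) × (ℤ → Option B) → ℕ,
      (∀ p ∈ AlS B b m L s D y, γ p ∣ D ∧ RelG (b + 1) m (γ p) L L p.1 p.2) →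
      (∑ p ∈ AlS B b m L s D y, (γ p : ℝ)) * (L : ℝ) ^ 10 ≤ (D : ℝ) ^ 2 := by
  classical
  obtain ⟨L1, h1⟩ := CFew (B := B) b m hB
  obtain ⟨L2, h2⟩ := CMany (B := B) b m hB
  refine ⟨max L1 L2, ?_⟩
  intro L hL s y ε M0 D N Q γ hγ
  have a1 := h1 L (le_trans (le_max_left _ _) hL) s y ε M0 D N Q γ hγ
  have a2 := h2 L (le_trans (le_max_right _ _) hL) s y ε M0 D N Q γ hγ
  rw [← sum_filter_add_sum_filter_not (AlS B b m L s D y) (fun p => 10 ^ 4 * dis p.1 p.2 L ≤ L)]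
  nlinarith [a1, a2]

end GC85
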