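import Mathlib
import Pool.Agent.Helper85.DN.CDefs

/-!
# DN: the family of words
-/

set_option autoImplicit false

namespace GC85

open Finset GC70

variable {B : Type} [Fintype B] [DecidableEq B]

/-- typical primitive words such that the sum of the coefficients has a small common divisor with `D` -/
noncomputable def W0 (B : Type) [Fintype B] [DecidableEq B] (b m L s D y : ℕ) :
    Finset (ℤ → Option B) := by
  classical
  exact (PW B L).filter (fun w => Wd w L s ∧ Ty b w L (Del L) ∧ Prim (b + 1) m D L w ∧
    Nat.gcd (TN (b + 1) m (sk w L)) D ≤ (b + 1) ^ y)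

/-- the number of all words of period `L` with `s` letters other than `none` -/
def Nt (b L s : ℕ) : ℕ := L.choose s * b ^ s

/-- the parameter `y` -/
def yy (L : ℕ) : ℕ := L / (2 * 10 ^ 12)

/-- the possible numbers of letters other than `none` in the words of period `L` -/
def Tys (b N0 L : ℕ) : Finset ℕ :=
  (range (L + 1)).filter (fun s => N0 ∣ s ∧
    |((b : ℤ) + 1) * (s : ℤ) - (b : ℤ) * (L : ℤ)| ≤ ((b : ℤ) + 1) * (Del L : ℤ))

/-- the modulus for the words of period `L` with `s` letters other than `none` -/
def DD (b m D1 L s : ℕ) : ℕ := ((b + 1) ^ L - m ^ s) / D1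

/-- the good words for the residues `ρ` modulo `D1` -/
noncomputable def Wr (B : Type) [Fintype B] [DecidableEq B] (b m D1 L s : ℕ) (ρ : B → ZMod D1) :
    Finset (ℤ → Option B) := by
  classical
  exact (W0 B b m L s (DD b m D1 L s) (yy L)).filter (fun w =>
    ∑ i, (V (b + 1) m w L i : ZMod D1) * ρ i = 0)

end GC85
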