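import Mathlib
import Pool.Agent.Helper85.DN.PDefs
import Pool.Agent.Helper85.DN.SupW

/-!
# DN-SupT: the sup bound for all words of a type

The words with given skeleton `N` (`N.card = s`, `N ⊆ range L`) correspond to the functions
`N → B` (`GC70.V_eq_Vf`, `GC70.res_inj'` in `Helper70/GC/Range1.lean`); `GC70.sk_mem_powersetCard`: at most `L.choose s` skeletons.
`card_type`: at most `b ^ s` words for each skeleton. `sup_type`: for each skeleton `supW` with `F = N`; take square roots (work with the
real number `G0 ^ (-7/2)`, or with the least bound), and sum over the skeletons: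
`S.card ≤ L.choose s * b ^ s * G0 ^ (-7/2)`.
-/

set_option autoImplicit false

namespace GC85

open Finset GC70

variable {B : Type} [Fintype B] [DecidableEq B]

omit [Fintype B] [DecidableEq B] in
private lemma supT_fiber {L s c : ℕ} (S : Finset (ℤ → Option B)) (hS : ∀ w ∈ S, Wd w L s)
    (hc : ∀ N ∈ (range L).powersetCard s, (S.filter (fun w => sk w L = N)).card ≤ c) :
    S.card ≤ L.choose s * c := by
  classical
  have h1 : ∀ w ∈ S, sk w L ∈ (range L).powersetCard s := by
    intro w hw
    rw [mem_powersetCard]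
    exact ⟨filter_subset _ _, (hS w hw).cnt⟩
  rw [card_eq_sum_card_fiberwise h1]
  refine (sum_le_card_nsmul _ _ c hc).trans ?_
  rw [card_powersetCard, card_range, smul_eq_mul]

theorem card_type {b L s : ℕ} (hB : Fintype.card B = b) (hL : 0 < L)
    (S : Finset (ℤ → Option B)) (hS : ∀ w ∈ S, Wd w L s) : S.card ≤ Nt b L s := by
  classical
  refine supT_fiber S hS ?_
  intro N hN
  rw [mem_powersetCard] at hN
  rcases isEmpty_or_nonempty B with hE | ⟨⟨b0⟩⟩
  · -- no letters
    rcases (S.filter (fun w => sk w L = N)).eq_empty_or_nonempty with h0 | ⟨w, hw⟩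
    · rw [h0, card_empty]
      exact Nat.zero_le _
    · have hs : s = 0 := by
        have h1 := (hS w (mem_filter.1 hw).1).cnt
        rw [← h1, card_eq_zero]
        unfold sk
        rw [filter_eq_empty_iff]
        intro j _ hj
        obtain ⟨x, _⟩ := Option.isSome_iff_exists.mp hj
        exact hE.elim x
      rw [hs, pow_zero, card_le_one]
      intro a _ a' _
      funext j
      rcases h : a j with _ | x
      · rcases h' : a' j with _ | x'
        · rfl
        · exact hE.elim x'
      · exact hE.elim x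
  · have h2 : (univ : Finset ({j // j ∈ N} → B)).card = b ^ s := by
      rw [card_univ, Fintype.card_fun, Fintype.card_coe, hB, hN.2]
    rw [← h2]
    apply card_le_card_of_injOn (fun w => res b0 N w) (fun _ _ => mem_coe.2 (mem_univ _))
    intro w hw w' hw' heq
    rw [mem_coe, mem_filter] at hw hw'
    exact res_inj' b0 L hL N w w' (hS w hw.1).per (hS w' hw'.1).per hw.2 hw'.2 heq

/-- the number of the words of a type with given coefficients modulo `g` -/
theorem sup_type {b m g L s : ℕ} (hB : Fintype.card B = b) (hb : 2 ^ 60 ≤ b) (hdm : b + 1 ≤ m)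
    (hm2 : m ≤ 2 * (b + 1)) (hc : Nat.Coprime m (b + 1)) (hgd : Nat.Coprime (b + 1) g)
    (hgm : Nat.Coprime m g) (hL : 10 ^ 6 ≤ L) (hs : 4000 * (L - s) ≤ L) (hsL : s ≤ L)
    (G0 : ℕ) (h17 : 17 ≤ G0) (hG : G0 ≤ g) (hGL : G0 ≤ (b + 1) ^ (L / 18))
    (v : B → ZMod g) (S : Finset (ℤ → Option B))
    (hS : ∀ w ∈ S, Wd w L s ∧ ∀ i, (V (b + 1) m w L i : ZMod g) = v i) :
    S.card ^ 2 * G0 ^ 7 ≤ (Nt b L s) ^ 2 := by
  classical
  have hL0 : 0 < L := lt_of_lt_of_le (by norm_num) hL
  have hB0 : Nonempty B := by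
    rw [← Fintype.card_pos_iff, hB]
    exact lt_of_lt_of_le (by norm_num) hb
  obtain ⟨b0⟩ := hB0
  have hne : ((range L).powersetCard s).Nonempty := by
    rw [powersetCard_nonempty, card_range]
    exact hsL
  obtain ⟨N, hN, hmax⟩ := exists_max_image ((range L).powersetCard s)
    (fun N => (S.filter (fun w => sk w L = N)).card) hne
  have h1 := supT_fiber S (fun w hw => (hS w hw).1) hmax
  rw [mem_powersetCard] at hN
  have h2 := supW (B := B) hB hb hdm hm2 hc hgd hgm hL N N hN.1 (Subset.refl _)
    (by rw [hN.2]; exact hs) G0 h17 hG hGL v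
  have h3 : (S.filter (fun w => sk w L = N)).card ≤
      ((univ : Finset ({j // j ∈ N} → B)).filter (fun f =>
        Vf (fun j : {j // j ∈ N} => (wt (b + 1) m N j : ZMod g)) f = v)).card := by
    apply card_le_card_of_injOn (fun w => res b0 N w)
    · intro w hw
      rw [mem_coe, mem_filter] at hw ⊢
      refine ⟨mem_univ _, ?_⟩
      funext i
      rw [← V_eq_Vf b0 (b + 1) m g w L N hw.2 i]
      exact (hS w hw.1).2 i
    · intro w hw w' hw' heq
      rw [mem_coe, mem_filter] at hw hw'
      exact res_inj' b0 L hL0 N w w' (hS w hw.1).1.per (hS w' hw'.1).1.per hw.2 hw'.2 heq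
  rw [hN.2] at h2
  set c := (S.filter (fun w => sk w L = N)).card with hcd
  have h4 : c ^ 2 * G0 ^ 7 ≤ b ^ (2 * s) :=
    (Nat.mul_le_mul_right _ (Nat.pow_le_pow_left h3 2)).trans h2
  calc S.card ^ 2 * G0 ^ 7 ≤ (L.choose s * c) ^ 2 * G0 ^ 7 :=
        Nat.mul_le_mul_right _ (Nat.pow_le_pow_left h1 2)
    _ = (L.choose s) ^ 2 * (c ^ 2 * G0 ^ 7) := by ring
    _ ≤ (L.choose s) ^ 2 * b ^ (2 * s) := Nat.mul_le_mul_left _ h4
    _ = (Nt b L s) ^ 2 := by
        unfold Nt
        ring

end GC85
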