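import Mathlib
import Pool.Agent.Helper85.DN.SupT

/-!
# DN-SmallG: pairs of words which are proportional modulo a small number

All prime factors of `γ p ≠ 1` are at least `M0` (`DP.prm`; `γ p ∣ D`, `D > 0` by `DP.ge`), so `M0 ≤ γ p`.
For `g` with `M0 ≤ g ≤ (b + 1) ^ (L' / 18)` the number of the pairs `p ∈ S` with `γ p = g` is at most
`#(first words) * g * (maximal number of the words w' with V w' = v mod g)` (`g` bounds the number of the units `l`), and by `sup_type` with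
`G0 = g` the last factor is at most `Nt b L' s' * g ^ (-7/2)`. So `∑ γ ≤ ∑_{g ≥ M0} g * g * Nt b L s * Nt b L' s' * g ^ (-7/2)` and
`∑_{g ≥ M0} g ^ (-3/2) ≤ 4 / √M0`. The number of the first words is at most `Nt b L s` (`card_type`). `N'.zer` gives
`4000 * (L' - s') ≤ L'`. `DP.cop` for the coprimality.
-/

set_option autoImplicit false

namespace GC85

open Finset GC70

variable {B : Type} [Fintype B] [DecidableEq B]

private theorem SmallG_step {K : ℕ} (hK : 2 ≤ K) :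
    1 / ((K : ℝ) * Real.sqrt K) + 2 / Real.sqrt K ≤ 2 / Real.sqrt ((K : ℝ) - 1) := by
  have hK' : (2 : ℝ) ≤ K := by exact_mod_cast hK
  have ha : 0 < Real.sqrt ((K : ℝ) - 1) := Real.sqrt_pos.2 (by linarith)
  have hb : 0 < Real.sqrt (K : ℝ) := Real.sqrt_pos.2 (by linarith)
  have ha2 : Real.sqrt ((K : ℝ) - 1) ^ 2 = K - 1 := Real.sq_sqrt (by linarith)
  have hb2 : Real.sqrt (K : ℝ) ^ 2 = K := Real.sq_sqrt (by linarith)
  have hab : Real.sqrt ((K : ℝ) - 1) ≤ Real.sqrt K := Real.sqrt_le_sqrt (by linarith)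
  generalize Real.sqrt ((K : ℝ) - 1) = x at *
  generalize Real.sqrt (K : ℝ) = z at *
  have h1 : 2 / x - 2 / z = 2 / (x * z * (x + z)) := by
    have h2 : (z - x) * (x + z) = 1 := by nlinarith
    rw [div_sub_div _ _ ha.ne' hb.ne', div_eq_div_iff (by positivity) (by positivity)]
    linear_combination (2 * x * z) * h2
  have h3 : 1 / ((K : ℝ) * z) ≤ 2 / (x * z * (x + z)) := by
    rw [← hb2, div_le_div_iff₀ (by positivity) (by positivity)]
    have h4 : x * (x + z) ≤ 2 * z ^ 2 := by nlinarith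
    nlinarith
  linarith

private theorem SmallG_ico {M0 : ℕ} (h : 2 ≤ M0) (K : ℕ) (hK : M0 ≤ K) :
    ∑ g ∈ Ico M0 K, 1 / ((g : ℝ) * Real.sqrt g) + 2 / Real.sqrt ((K : ℝ) - 1) ≤
      2 / Real.sqrt ((M0 : ℝ) - 1) := by
  induction K, hK using Nat.le_induction with
  | base => simp
  | succ K hK ih =>
    rw [Finset.sum_Ico_succ_top hK]
    have h1 := SmallG_step (h.trans hK)
    have h2 : (((K + 1 : ℕ) : ℝ) - 1) = K := by push_cast; ring
    rw [h2]
    linarith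

private theorem SmallG_sum {M0 : ℕ} (h : 2 ≤ M0) (T : Finset ℕ) (hT : ∀ g ∈ T, M0 ≤ g) :
    ∑ g ∈ T, 1 / ((g : ℝ) * Real.sqrt g) ≤ 4 / Real.sqrt M0 := by
  obtain ⟨K, hK⟩ : ∃ K, ∀ g ∈ T, g < K := by
    refine ⟨T.sup id + 1, fun g hg => ?_⟩
    have := Finset.le_sup (f := id) hg
    simp only [id] at this
    omega
  have hM : (2 : ℝ) ≤ M0 := by exact_mod_cast h
  have h1 : ∑ g ∈ T, 1 / ((g : ℝ) * Real.sqrt g) ≤
      ∑ g ∈ Ico M0 (max M0 K), 1 / ((g : ℝ) * Real.sqrt g) := by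
    refine Finset.sum_le_sum_of_subset_of_nonneg (fun g hg => ?_) fun g _ _ => by positivity
    rw [mem_Ico]
    exact ⟨hT g hg, lt_max_of_lt_right (hK g hg)⟩
  have h2 := SmallG_ico h (max M0 K) (le_max_left _ _)
  have h3 : (0 : ℝ) ≤ 2 / Real.sqrt (((max M0 K : ℕ) : ℝ) - 1) := by positivity
  have h4 : 2 / Real.sqrt ((M0 : ℝ) - 1) ≤ 4 / Real.sqrt M0 := by
    have h5 : 0 < Real.sqrt ((M0 : ℝ) - 1) := Real.sqrt_pos.2 (by linarith)
    have h6 : 0 < Real.sqrt (M0 : ℝ) := Real.sqrt_pos.2 (by linarith)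
    rw [div_le_div_iff₀ h5 h6]
    have h7 : Real.sqrt (M0 : ℝ) ≤ 2 * Real.sqrt ((M0 : ℝ) - 1) := by
      rw [Real.sqrt_le_left (by positivity), mul_pow, Real.sq_sqrt (by linarith)]
      linarith
    linarith
  linarith

private theorem SmallG_real {c g X : ℕ} (h : c ^ 2 * g ^ 7 ≤ X ^ 2) (hg : 0 < g) :
    (c : ℝ) * (g : ℝ) ^ 2 ≤ X * (1 / ((g : ℝ) * Real.sqrt g)) := by
  have hg' : (0 : ℝ) < g := by exact_mod_cast hg
  have hs : 0 < Real.sqrt (g : ℝ) := Real.sqrt_pos.2 hg'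
  have hs2 : Real.sqrt (g : ℝ) ^ 2 = g := Real.sq_sqrt hg'.le
  have h1 : (c : ℝ) ^ 2 * (g : ℝ) ^ 7 ≤ (X : ℝ) ^ 2 := by exact_mod_cast h
  have h2 : (c : ℝ) * ((g : ℝ) ^ 3 * Real.sqrt g) ≤ X := by
    refine (pow_le_pow_iff_left₀ (by positivity) (by positivity) two_ne_zero).1 ?_
    calc ((c : ℝ) * ((g : ℝ) ^ 3 * Real.sqrt g)) ^ 2
        = (c : ℝ) ^ 2 * ((g : ℝ) ^ 6 * Real.sqrt (g : ℝ) ^ 2) := by ring
      _ = (c : ℝ) ^ 2 * (g : ℝ) ^ 7 := by rw [hs2]; ring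
      _ ≤ (X : ℝ) ^ 2 := h1
  rw [mul_one_div, le_div_iff₀ (by positivity)]
  calc (c : ℝ) * (g : ℝ) ^ 2 * ((g : ℝ) * Real.sqrt (g : ℝ))
      = (c : ℝ) * ((g : ℝ) ^ 3 * Real.sqrt (g : ℝ)) := by ring
    _ ≤ (X : ℝ) := h2

/-- the number of the pairs with a given `g` -/
private theorem SmallG_card {b m L s y ε L' s' y' ε' M0 D' g : ℕ} (hB : Fintype.card B = b)
    (N : NP b m L s y ε) (N' : NP b m L' s' y' ε') (Q' : DP b m L' s' M0 D')
    (T : Finset ((ℤ → Option B) × (ℤ → Option B)))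
    (hT : ∀ p ∈ T, Wd p.1 L s ∧ Wd p.2 L' s' ∧ RelG (b + 1) m g L L' p.1 p.2)
    (hgD : g ∣ D') (h17 : 17 ≤ g) (hg : g ≤ (b + 1) ^ (L' / 18)) :
    T.card ≤ Nat.sqrt ((Nt b L' s') ^ 2 / g ^ 7) * (Nt b L s * g) := by
  classical
  have : NeZero g := ⟨by omega⟩
  obtain ⟨hc1, hc2⟩ := DP.cop N' Q' hgD
  set f : (ℤ → Option B) × (ℤ → Option B) → (ℤ → Option B) × (ZMod g)ˣ := fun p =>
    (p.1, if h : RelG (b + 1) m g L L' p.1 p.2 then h.choose else 1) with hf
  have hL : 10 ^ 6 ≤ L' := by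
    have h1 := N'.Lge
    have h2 := N'.yge
    omega
  have hs : 4000 * (L' - s') ≤ L' := by
    have h1 := N'.Lge
    have h2 := N'.zer
    have h3 := N'.eps
    omega
  have hfib : ∀ a ∈ T.image f, (T.filter fun p => f p = a).card ≤
      Nat.sqrt ((Nt b L' s') ^ 2 / g ^ 7) := by
    intro a _
    have h1 : ((T.filter fun p => f p = a).image Prod.snd).card = (T.filter fun p => f p = a).card := by
      refine Finset.card_image_of_injOn ?_
      intro p hp p' hp' hpp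
      rw [Finset.mem_coe, Finset.mem_filter] at hp hp'
      refine Prod.ext ?_ hpp
      have h2 := congrArg Prod.fst hp.2
      have h3 := congrArg Prod.fst hp'.2
      simp only [hf] at h2 h3
      rw [h2, h3]
    have h2 := sup_type (m := m) (g := g) (L := L') (s := s') hB N'.b1 N'.dm N'.m2 N'.cop hc1 hc2 hL hs N'.sL g h17 le_rfl hg
      (fun i => ((a.2 : (ZMod g)ˣ) : ZMod g) * (V (b + 1) m a.1 L i : ZMod g))
      ((T.filter fun p => f p = a).image Prod.snd) (by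
        intro w hw
        obtain ⟨p, hp, rfl⟩ := Finset.mem_image.1 hw
        rw [Finset.mem_filter] at hp
        obtain ⟨e1, e2, e3⟩ := hT p hp.1
        refine ⟨e2, fun i => ?_⟩
        have h3 := hp.2
        simp only [hf, dif_pos e3] at h3
        rw [← h3]
        exact e3.choose_spec i)
    rw [h1] at h2
    rw [Nat.le_sqrt, ← sq]
    rwa [Nat.le_div_iff_mul_le (by positivity)]
  refine (Finset.card_le_mul_card_image T _ hfib).trans (Nat.mul_le_mul_left _ ?_)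
  have h1 : T.image f ⊆ (T.image Prod.fst) ×ˢ (Finset.univ : Finset (ZMod g)ˣ) := by
    intro a ha
    obtain ⟨p, hp, rfl⟩ := Finset.mem_image.1 ha
    rw [Finset.mem_product]
    exact ⟨Finset.mem_image_of_mem Prod.fst hp, Finset.mem_univ _⟩
  refine (Finset.card_le_card h1).trans ?_
  rw [Finset.card_product, Finset.card_univ, ZMod.card_units_eq_totient]
  refine Nat.mul_le_mul ?_ (Nat.totient_le g)
  refine card_type hB (NP.s_pos N).2 _ fun w hw => ?_
  obtain ⟨p, hp, rfl⟩ := Finset.mem_image.1 hw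
  exact (hT p hp).1

theorem smallG {b m L s y ε L' s' y' ε' M0 D D' : ℕ} (hB : Fintype.card B = b)
    (N : NP b m L s y ε) (N' : NP b m L' s' y' ε') (Q : DP b m L s M0 D) (Q' : DP b m L' s' M0 D')
    (S : Finset ((ℤ → Option B) × (ℤ → Option B)))
    (hS : ∀ p ∈ S, Wd p.1 L s ∧ Wd p.2 L' s')
    (γ : (ℤ → Option B) × (ℤ → Option B) → ℕ)
    (hγ : ∀ p ∈ S, γ p ∣ D ∧ γ p ∣ D' ∧ RelG (b + 1) m (γ p) L L' p.1 p.2 ∧ γ p ≠ 1 ∧
      γ p ≤ (b + 1) ^ (L' / 18)) :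
    ∑ p ∈ S, (γ p : ℝ) ≤ 4 / Real.sqrt M0 * (Nt b L s) * (Nt b L' s') := by
  classical
  have hD : D ≠ 0 := by
    rintro rfl
    have h1 := Q.ge
    rw [zero_mul] at h1
    have h2 : 0 < (b + 1) ^ L := by positivity
    omega
  have hM17 := Q.M17
  -- the values of `γ`
  have hge : ∀ g ∈ S.image γ, M0 ≤ g := by
    intro g hg
    obtain ⟨p, hp, rfl⟩ := Finset.mem_image.1 hg
    obtain ⟨e1, e2, e3, e4, e5⟩ := hγ p hp
    obtain ⟨q, hq, hqd⟩ := Nat.exists_prime_and_dvd e4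
    have h1 := Q.prm q hq (hqd.trans e1)
    have h2 : γ p ≠ 0 := fun h0 => hD (by rw [h0] at e1; exact zero_dvd_iff.1 e1)
    exact h1.trans (Nat.le_of_dvd (Nat.pos_of_ne_zero h2) hqd)
  have hterm : ∀ g ∈ S.image γ, ∑ p ∈ S.filter (fun p => γ p = g), (γ p : ℝ) ≤
      (Nt b L s) * (Nt b L' s') * (1 / ((g : ℝ) * Real.sqrt g)) := by
    intro g hg
    have hMg := hge g hg
    obtain ⟨p₀, hp₀, hpg⟩ := Finset.mem_image.1 hg
    obtain ⟨e1, e2, e3, e4, e5⟩ := hγ p₀ hp₀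
    rw [hpg] at e1 e2 e5
    have h1 := SmallG_card (g := g) hB N N' Q' (S.filter fun p => γ p = g) (by
      intro p hp
      rw [Finset.mem_filter] at hp
      obtain ⟨k1, k2, k3, k4, k5⟩ := hγ p hp.1
      rw [hp.2] at k3
      exact ⟨(hS p hp.1).1, (hS p hp.1).2, k3⟩) e2 (by omega) e5
    set c := Nat.sqrt ((Nt b L' s') ^ 2 / g ^ 7) with hc
    have h2 : c ^ 2 * g ^ 7 ≤ (Nt b L' s') ^ 2 := by
      have h3 : c ^ 2 ≤ (Nt b L' s') ^ 2 / g ^ 7 := by
        rw [sq]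
        exact Nat.sqrt_le _
      have hg0 : 0 < g := by omega
      exact (Nat.le_div_iff_mul_le (by positivity)).1 h3
    have h3 := SmallG_real h2 (show 0 < g by omega)
    have h4 : ((S.filter fun p => γ p = g).card : ℝ) ≤ c * (Nt b L s * g) := by exact_mod_cast h1
    have h5 : ∑ p ∈ S.filter (fun p => γ p = g), (γ p : ℝ) =
        ((S.filter fun p => γ p = g).card : ℝ) * g := by
      rw [Finset.sum_congr rfl fun p hp => by rw [(Finset.mem_filter.1 hp).2], Finset.sum_const,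
        nsmul_eq_mul]
    rw [h5]
    calc ((S.filter fun p => γ p = g).card : ℝ) * g ≤ c * (Nt b L s * g) * g :=
          mul_le_mul_of_nonneg_right h4 (Nat.cast_nonneg _)
      _ = Nt b L s * (c * (g : ℝ) ^ 2) := by ring
      _ ≤ Nt b L s * (Nt b L' s' * (1 / ((g : ℝ) * Real.sqrt g))) :=
          mul_le_mul_of_nonneg_left h3 (Nat.cast_nonneg _)
      _ = _ := by ring
  rw [← Finset.sum_fiberwise_of_maps_to (s := S) (t := S.image γ) (g := γ)
    (fun p hp => Finset.mem_image_of_mem γ hp)]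
  refine (Finset.sum_le_sum hterm).trans ?_
  rw [← Finset.mul_sum]
  have h6 := SmallG_sum (show 2 ≤ M0 by omega) (S.image γ) hge
  calc (Nt b L s : ℝ) * (Nt b L' s') * ∑ g ∈ S.image γ, 1 / ((g : ℝ) * Real.sqrt g)
      ≤ (Nt b L s : ℝ) * (Nt b L' s') * (4 / Real.sqrt M0) :=
        mul_le_mul_of_nonneg_left h6 (by positivity)
    _ = _ := by ring

end GC85
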