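import Mathlib
import Pool.Agent.Helper85.DN.SmallG
import Pool.Agent.Helper70.GC.Numer

/-!
# DN-Cross: pairs of words of different types

`smallG`. Every common divisor `g` of `D` and `D'` is at most `(b + 1) ^ (L' / 18)`: if `40 L ≤ L'` then `g ≤ D ≤ (b + 1) ^ L`;
otherwise `40 (L' - L) ≤ L`, and `GC70.common_small` (`L < L'`) or `GC70.common_same` (`L = L'`, `s ≠ s'`), both in
`Helper70/GC/Numer.lean`, with `U = ε + ε'` give `g ≤ m ^ (L' - L + U)`; `m ≤ (b + 1) ^ 2`, `ε, ε' ≤ L' / 10 ^ 13`.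
-/

set_option autoImplicit false

namespace GC85

open Finset GC70

variable {B : Type} [Fintype B] [DecidableEq B]

/-- the length of a divisor of `D` -/
private lemma Cross_pos {b m L s M0 D : ℕ} (Q : DP b m L s M0 D) : 0 < D := by
  rcases Nat.eq_zero_or_pos D with h | h
  · have h1 := Q.ge
    rw [h, zero_mul] at h1
    have h2 : 0 < (b + 1) ^ L := by positivity
    omega
  · exact h

private lemma Cross_le {b m L s M0 D : ℕ} (hm : 0 < m) (Q : DP b m L s M0 D) :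
    D ≤ (b + 1) ^ L := by
  have h1 := Q.le2
  have h2 : 0 < m ^ s := by positivity
  have h3 := Nat.le_of_dvd (by omega) Q.dvd
  omega

/-- a common divisor of `D` and `D'` is small -/
private lemma Cross_small {b m L s y ε L' s' y' ε' M0 D D' g : ℕ}
    (N : NP b m L s y ε) (N' : NP b m L' s' y' ε') (Q : DP b m L s M0 D) (Q' : DP b m L' s' M0 D')
    (hL : (L < L' ∧ (40 * L ≤ L' ∨ 40 * (L' - L) ≤ L)) ∨ (L = L' ∧ s ≠ s'))
    (hg : g ∣ D) (hg' : g ∣ D') : g ≤ (b + 1) ^ (L' / 18) := by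
  have hb := N.b1
  have hdm := N.dm
  have hm2 := N.m2
  have hgm : Nat.Coprime m g := (DP.cop N Q hg).2
  have hle : m ^ s ≤ (b + 1) ^ L := by have := Q.le2; omega
  have hle' : m ^ s' ≤ (b + 1) ^ L' := by have := Q'.le2; omega
  have hmb : m ≤ (b + 1) ^ 2 := by nlinarith
  have e1 := N.Lge
  have e2 := N.eps
  have e3 := N'.Lge
  have e4 := N'.eps
  have z1 := N.zer
  have z2 := N'.zer
  have s1 := N.sL
  have s2 := N'.sL
  have key : ∀ n : ℕ, 2 * n ≤ L' / 18 → m ^ n ≤ (b + 1) ^ (L' / 18) := by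
    intro n hn
    calc m ^ n ≤ ((b + 1) ^ 2) ^ n := Nat.pow_le_pow_left hmb n
      _ = (b + 1) ^ (2 * n) := by rw [← pow_mul]
      _ ≤ (b + 1) ^ (L' / 18) := Nat.pow_le_pow_right (by omega) hn
  rcases hL with ⟨hLL, h | h⟩ | ⟨hLL, hne⟩
  · have h1 : g ≤ D := Nat.le_of_dvd (Cross_pos Q) hg
    have h2 := Cross_le (by omega) Q
    exact (h1.trans h2).trans (Nat.pow_le_pow_right (by omega) (by omega))
  · have h1 := common_small (b + 1) m g L L' s s' (ε + ε') (by omega) hdm N.cop hgm hLL hle hle'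
      (hg.trans Q.dvd) (hg'.trans Q'.dvd) (by omega) s2 s1 (by omega)
    exact h1.trans (key _ (by omega))
  · subst hLL
    have h1 := common_same (b + 1) m g L s s' (ε + ε') (by omega) hgm hle hle'
      (hg.trans Q.dvd) (hg'.trans Q'.dvd) (by omega) (by omega) s1 s2 hne
    exact h1.trans (key _ (by omega))

theorem cross {b m L s y ε L' s' y' ε' M0 D D' : ℕ} (hB : Fintype.card B = b)
    (N : NP b m L s y ε) (N' : NP b m L' s' y' ε') (Q : DP b m L s M0 D) (Q' : DP b m L' s' M0 D')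
    (hL : (L < L' ∧ (40 * L ≤ L' ∨ 40 * (L' - L) ≤ L)) ∨ (L = L' ∧ s ≠ s'))
    (γ : (ℤ → Option B) × (ℤ → Option B) → ℕ)
    (hγ : ∀ p : (ℤ → Option B) × (ℤ → Option B), p.1 ∈ W0 B b m L s D y →
      p.2 ∈ W0 B b m L' s' D' y' → γ p ∣ D ∧ γ p ∣ D' ∧ RelG (b + 1) m (γ p) L L' p.1 p.2) :
    ∑ p ∈ ((W0 B b m L s D y) ×ˢ (W0 B b m L' s' D' y')).filter (fun p => γ p ≠ 1), (γ p : ℝ) ≤
      4 / Real.sqrt M0 * (Nt b L s) * (Nt b L' s') := by
  have hW : ∀ (L s D y : ℕ) (w : ℤ → Option B), w ∈ W0 B b m L s D y → Wd w L s := by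
    classical
    intro L s D y w hw
    unfold W0 at hw
    exact (mem_filter.mp hw).2.1
  apply smallG hB N N' Q Q'
  · intro p hp
    rw [mem_filter, mem_product] at hp
    exact ⟨hW _ _ _ _ _ hp.1.1, hW _ _ _ _ _ hp.1.2⟩
  · intro p hp
    rw [mem_filter, mem_product] at hp
    obtain ⟨h1, h2, h3⟩ := hγ p hp.1.1 hp.1.2
    exact ⟨h1, h2, h3, hp.2, Cross_small N N' Q Q' hL h1 h2⟩

end GC85
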