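import Mathlib
import Pool.Agent.Helper85.DN.Defs

/-!
# DN-Fiber2: conditioning on the residues modulo `D1`

`ZMod (D1 * Q2)` is in bijection with `ZMod D1 × ZMod Q2` (`ZMod.chineseRemainder`). `Bad` is the disjoint union over
`ρ1 : B → ZMod D1` of its fibres, and each fibre is in bijection with its image in `B → ZMod Q2`; there are `D1 ^ b` fibres.
`dot_cast`, `dot_cast1`: `GC70.dvd_dot_iff` for both moduli, `ZMod.castHom` is compatible with composition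
(`ZMod.castHom_comp` or `RingHom.ext_zmod`); for `D = D1` see `GC70.lin`.
-/

set_option autoImplicit false

namespace GC85

open Finset GC70

variable {B : Type} [Fintype B] [DecidableEq B]

private theorem Fiber2_inj {D1 Q2 : ℕ} (hc : Nat.Coprime D1 Q2) {x y : ZMod (D1 * Q2)}
    (h1 : ZMod.castHom (Dvd.intro _ rfl : D1 ∣ D1 * Q2) (ZMod D1) x =
      ZMod.castHom (Dvd.intro _ rfl : D1 ∣ D1 * Q2) (ZMod D1) y)
    (h2 : ZMod.castHom (Dvd.intro_left _ rfl : Q2 ∣ D1 * Q2) (ZMod Q2) x =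
      ZMod.castHom (Dvd.intro_left _ rfl : Q2 ∣ D1 * Q2) (ZMod Q2) y) : x = y := by
  apply (ZMod.chineseRemainder hc).injective
  have e1 : (RingHom.fst _ _).comp ((ZMod.chineseRemainder hc : _ ≃+* _) :
      ZMod (D1 * Q2) →+* ZMod D1 × ZMod Q2) =
      ZMod.castHom (Dvd.intro _ rfl : D1 ∣ D1 * Q2) (ZMod D1) := RingHom.ext_zmod _ _
  have e2 : (RingHom.snd _ _).comp ((ZMod.chineseRemainder hc : _ ≃+* _) :
      ZMod (D1 * Q2) →+* ZMod D1 × ZMod Q2) =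
      ZMod.castHom (Dvd.intro_left _ rfl : Q2 ∣ D1 * Q2) (ZMod Q2) := RingHom.ext_zmod _ _
  rw [← e1] at h1
  rw [← e2] at h2
  exact Prod.ext h1 h2

theorem fiber {D1 Q2 : ℕ} [NeZero D1] [NeZero Q2] [NeZero (D1 * Q2)] (hc : Nat.Coprime D1 Q2)
    (δ : ℝ) (Bad : Finset (B → ZMod (D1 * Q2)))
    (h : ∀ ρ1 : B → ZMod D1, ∀ S : Finset (B → ZMod Q2),
      (∀ σ ∈ S, ∃ ρ ∈ Bad, (∀ i, ZMod.castHom (Dvd.intro _ rfl : D1 ∣ D1 * Q2) (ZMod D1) (ρ i) = ρ1 i) ∧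
        ∀ i, ZMod.castHom (Dvd.intro_left _ rfl : Q2 ∣ D1 * Q2) (ZMod Q2) (ρ i) = σ i) →
      (S.card : ℝ) ≤ δ * (Q2 : ℝ) ^ Fintype.card B) :
    (Bad.card : ℝ) ≤ δ * ((D1 * Q2 : ℕ) : ℝ) ^ Fintype.card B := by
  classical
  set π1 : (B → ZMod (D1 * Q2)) → B → ZMod D1 := fun ρ i =>
    ZMod.castHom (Dvd.intro _ rfl : D1 ∣ D1 * Q2) (ZMod D1) (ρ i) with hπ1
  set π2 : (B → ZMod (D1 * Q2)) → B → ZMod Q2 := fun ρ i =>
    ZMod.castHom (Dvd.intro_left _ rfl : Q2 ∣ D1 * Q2) (ZMod Q2) (ρ i) with hπ2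
  have hinj : ∀ ρ ρ', π1 ρ = π1 ρ' → π2 ρ = π2 ρ' → ρ = ρ' := by
    intro ρ ρ' h1 h2
    funext i
    exact Fiber2_inj hc (congrFun h1 i) (congrFun h2 i)
  have hsum : Bad.card = ∑ ρ1 : B → ZMod D1, (Bad.filter fun ρ => π1 ρ = ρ1).card :=
    card_eq_sum_card_fiberwise fun _ _ => mem_univ _
  have hf : ∀ ρ1 : B → ZMod D1, ((Bad.filter fun ρ => π1 ρ = ρ1).card : ℝ) ≤
      δ * (Q2 : ℝ) ^ Fintype.card B := by
    intro ρ1
    have hcard : ((Bad.filter fun ρ => π1 ρ = ρ1).image π2).card =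
        (Bad.filter fun ρ => π1 ρ = ρ1).card := by
      refine card_image_of_injOn fun ρ hρ ρ' hρ' hh => ?_
      simp only [coe_filter, Set.mem_setOf_eq] at hρ hρ'
      exact hinj ρ ρ' (hρ.2.trans hρ'.2.symm) hh
    rw [← hcard]
    refine h ρ1 _ fun σ hσ => ?_
    obtain ⟨ρ, hρ, rfl⟩ := mem_image.1 hσ
    obtain ⟨hb, h1⟩ := mem_filter.1 hρ
    exact ⟨ρ, hb, fun i => congrFun h1 i, fun i => rfl⟩
  calc (Bad.card : ℝ) = ∑ ρ1 : B → ZMod D1, ((Bad.filter fun ρ => π1 ρ = ρ1).card : ℝ) := by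
        rw [hsum, Nat.cast_sum]
    _ ≤ ∑ _ρ1 : B → ZMod D1, δ * (Q2 : ℝ) ^ Fintype.card B := sum_le_sum fun ρ1 _ => hf ρ1
    _ = δ * ((D1 * Q2 : ℕ) : ℝ) ^ Fintype.card B := by
        rw [sum_const, card_univ, Fintype.card_fun, ZMod.card, nsmul_eq_mul]
        push_cast
        rw [mul_pow]
        ring

theorem dot_cast {D1 Q2 D : ℕ} [NeZero Q2] [NeZero (D1 * Q2)] (hD : D ∣ Q2) (v : B → ℕ)
    (ρ : B → ZMod (D1 * Q2)) :
    D ∣ dot (D1 * Q2) v ρ ↔ D ∣ dot Q2 v (fun i =>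
      ZMod.castHom (Dvd.intro_left _ rfl : Q2 ∣ D1 * Q2) (ZMod Q2) (ρ i)) := by
  rw [dvd_dot_iff (D1 * Q2) D (hD.trans (Dvd.intro_left _ rfl)) v ρ, dvd_dot_iff Q2 D hD]
  have e : ∀ x : ZMod (D1 * Q2), ZMod.castHom (hD.trans (Dvd.intro_left _ rfl)) (ZMod D) x =
      ZMod.castHom hD (ZMod D)
        (ZMod.castHom (Dvd.intro_left _ rfl : Q2 ∣ D1 * Q2) (ZMod Q2) x) := by
    intro x
    have e1 : ZMod.castHom (hD.trans (Dvd.intro_left _ rfl)) (ZMod D) =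
      (ZMod.castHom hD (ZMod D)).comp
        (ZMod.castHom (Dvd.intro_left _ rfl : Q2 ∣ D1 * Q2) (ZMod Q2)) := RingHom.ext_zmod _ _
    rw [e1, RingHom.comp_apply]
  have e2 : lin (D1 * Q2) D (hD.trans (Dvd.intro_left _ rfl)) v ρ = lin Q2 D hD v fun i =>
      ZMod.castHom (Dvd.intro_left _ rfl : Q2 ∣ D1 * Q2) (ZMod Q2) (ρ i) :=
    sum_congr rfl fun i _ => by rw [e]
  rw [e2]

theorem dot_cast1 {D1 Q2 : ℕ} [NeZero (D1 * Q2)] (v : B → ℕ) (ρ : B → ZMod (D1 * Q2)) :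
    D1 ∣ dot (D1 * Q2) v ρ ↔ ∑ i, (v i : ZMod D1) *
      ZMod.castHom (Dvd.intro _ rfl : D1 ∣ D1 * Q2) (ZMod D1) (ρ i) = 0 := by
  rw [dvd_dot_iff (D1 * Q2) D1 (Dvd.intro _ rfl) v ρ]
  rfl

end GC85
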