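import Mathlib
import Pool.Agent.Helper85.DN.PDefs

/-!
# DN-E2: arithmetic of the types

`D1 = b / gcd (b, m ^ b)`: it divides `b`, is coprime to `m` (for a prime `p ∣ m` the exponent of `p` in `b` is at most `b`, so the
full power of `p` in `b` divides `gcd (b, m ^ b)`), and all prime factors of `b / D1` divide `m`.
Let `P` be the product of the primes `p < M0` which do not divide `(b + 1) * m`, `n = D1 * P`,
`N0 = φ(n) * φ(D1) * D1`. If `L ≡ 1` and `s ≡ 0` modulo `N0` then `(b + 1) ^ L ≡ b + 1`, `m ^ s ≡ 1` modulo `n` (Euler; `b + 1` and `m`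
are coprime to `n`), so `(b + 1) ^ L - m ^ s ≡ b` modulo `D1 P`. So `D1` divides it (as `D1 ∣ b`), and the quotient is
`≡ b / D1` modulo `P`, which is coprime to `P`. A prime `p < M0` dividing the quotient does not divide `P`, so it divides
`(b + 1) * m`; but the quotient divides `(b + 1) ^ L - m ^ s`, which is coprime to `b + 1` and `m`
(`GC70.coprime_D`).
-/

set_option autoImplicit false

namespace GC85

open Finset GC70

private theorem E2_cop (b m : ℕ) (hb : 1 ≤ b) :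
    Nat.Coprime m (b / Nat.gcd b (m ^ b)) := by
  rw [Nat.coprime_iff_gcd_eq_one]
  by_contra hcon
  obtain ⟨p, hp, hpd⟩ := Nat.exists_prime_and_dvd hcon
  have h1 : p ∣ m := hpd.trans (Nat.gcd_dvd_left _ _)
  have h2 : p ∣ b / Nat.gcd b (m ^ b) := hpd.trans (Nat.gcd_dvd_right _ _)
  have hb0 : b ≠ 0 := by omega
  set v := b.factorization p with hv
  have h3 : p ^ v ∣ b := Nat.ordProj_dvd b p
  have h4 : v ≤ b := by
    have h5 : p ^ v ≤ b := Nat.le_of_dvd (by omega) h3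
    exact (Nat.lt_pow_self hp.one_lt).le.trans h5
  have h6 : p ^ v ∣ m ^ b := (pow_dvd_pow_of_dvd h1 v).trans (pow_dvd_pow m h4)
  have h7 : p ^ v ∣ Nat.gcd b (m ^ b) := Nat.dvd_gcd h3 h6
  have h8 : p ^ (v + 1) ∣ b := by
    have h9 : b = Nat.gcd b (m ^ b) * (b / Nat.gcd b (m ^ b)) :=
      (Nat.mul_div_cancel' (Nat.gcd_dvd_left _ _)).symm
    rw [h9, pow_succ]
    exact mul_dvd_mul h7 h2
  exact Nat.pow_succ_factorization_not_dvd hb0 hp h8

theorem E2 (b m M0 : ℕ) (hb : 1 ≤ b) (hm : 2 ≤ m) (hc : Nat.Coprime m (b + 1)) :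
    ∃ D1 N0 : ℕ, 0 < D1 ∧ D1 ∣ b ∧ Nat.Coprime m D1 ∧ 0 < N0 ∧ Nat.totient D1 * D1 ∣ N0 ∧
      ∀ L s : ℕ, L % N0 = 1 % N0 → 1 ≤ L → N0 ∣ s → 1 ≤ s → m ^ s ≤ (b + 1) ^ L →
        D1 ∣ (b + 1) ^ L - m ^ s ∧
          ∀ p : ℕ, p.Prime → p ∣ DD b m D1 L s → M0 ≤ p := by
  classical
  set g := Nat.gcd b (m ^ b) with hg
  have hgb : g ∣ b := Nat.gcd_dvd_left _ _
  have hg0 : 0 < g := Nat.pos_of_dvd_of_pos hgb (by omega)
  set D1 := b / g with hD1
  have hbg : b = D1 * g := (Nat.div_mul_cancel hgb).symm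
  have hD10 : 0 < D1 := Nat.div_pos (Nat.le_of_dvd (by omega) hgb) hg0
  have hD1b : D1 ∣ b := ⟨g, hbg⟩
  have hmD1 : Nat.Coprime m D1 := E2_cop b m hb
  set S := (range M0).filter (fun p => p.Prime ∧ ¬ p ∣ (b + 1) * m) with hS
  set P := ∏ p ∈ S, p with hP
  have hSp : ∀ p ∈ S, p.Prime ∧ ¬ p ∣ (b + 1) * m := fun p hp => (Finset.mem_filter.1 hp).2
  have hP0 : 0 < P := Finset.prod_pos fun p hp => (hSp p hp).1.pos
  have hPc : Nat.Coprime ((b + 1) * m) P := by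
    apply Nat.Coprime.prod_right
    intro p hp
    exact ((Nat.Prime.coprime_iff_not_dvd (hSp p hp).1).2 (hSp p hp).2).symm
  have hb1D1 : Nat.Coprime (b + 1) D1 := by
    apply Nat.Coprime.coprime_dvd_right hD1b
    simp
  set n := D1 * P with hn
  have hn0 : 0 < n := Nat.mul_pos hD10 hP0
  have hb1n : Nat.Coprime (b + 1) n :=
    Nat.Coprime.mul_right hb1D1 (Nat.Coprime.coprime_dvd_left (Dvd.intro _ rfl) hPc)
  have hmn : Nat.Coprime m n :=
    Nat.Coprime.mul_right hmD1 (Nat.Coprime.coprime_dvd_left (Dvd.intro_left _ rfl) hPc)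
  refine ⟨D1, Nat.totient n * (Nat.totient D1 * D1), hD10, hD1b, hmD1, ?_, Dvd.intro_left _ rfl, ?_⟩
  · exact Nat.mul_pos (Nat.totient_pos.2 hn0) (Nat.mul_pos (Nat.totient_pos.2 hD10) hD10)
  intro L s hL hL1 hs hs1 hle
  -- Euler
  have e1 : (b + 1) ^ L ≡ b + 1 [MOD n] := by
    have h1 : Nat.totient n * (Nat.totient D1 * D1) ∣ L - 1 := by
      have h2 : 1 ≡ L [MOD Nat.totient n * (Nat.totient D1 * D1)] := hL.symm
      exact (Nat.modEq_iff_dvd' hL1).1 h2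
    obtain ⟨a, ha⟩ := h1
    have h3 : L = 1 + Nat.totient n * (Nat.totient D1 * D1 * a) := by
      have h5 : Nat.totient n * (Nat.totient D1 * D1 * a) =
        Nat.totient n * (Nat.totient D1 * D1) * a := by ring
      rw [h5, ← ha]
      omega
    rw [h3, pow_add, pow_one, pow_mul]
    have h4 := (Nat.ModEq.pow_totient hb1n).pow (Nat.totient D1 * D1 * a)
    rw [one_pow] at h4
    have h5 := h4.mul_left (b + 1)
    rwa [mul_one] at h5
  have e2 : m ^ s ≡ 1 [MOD n] := by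
    obtain ⟨a, ha⟩ := hs
    have h3 : s = Nat.totient n * (Nat.totient D1 * D1 * a) := by
      rw [ha]
      ring
    rw [h3, pow_mul]
    have h4 := (Nat.ModEq.pow_totient hmn).pow (Nat.totient D1 * D1 * a)
    rwa [one_pow] at h4
  obtain ⟨X, hX⟩ : ∃ X, (b + 1) ^ L - m ^ s = X := ⟨_, rfl⟩
  have hX' : X + m ^ s = (b + 1) ^ L := by omega
  have e3 : X ≡ b [MOD n] := by
    have h1 : X + 1 ≡ b + 1 [MOD n] := by
      have h2 : X + m ^ s ≡ X + 1 [MOD n] := e2.add_left X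
      rw [hX'] at h2
      exact h2.symm.trans e1
    exact Nat.ModEq.add_right_cancel' 1 h1
  have hD1n : D1 ∣ n := ⟨P, rfl⟩
  have hD1X : D1 ∣ X := by
    have h1 : X ≡ b [MOD D1] := e3.of_dvd hD1n
    exact (Nat.ModEq.dvd_iff h1 dvd_rfl).2 hD1b
  have hcop := coprime_D (b + 1) m L s hc hL1 hs1 hle
  rw [hX] at hcop ⊢
  refine ⟨hD1X, ?_⟩
  intro p hp hpq
  unfold DD at hpq
  rw [hX] at hpq
  obtain ⟨q, hq⟩ := hD1X
  rw [hq, Nat.mul_div_cancel_left _ hD10] at hpq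
  have hpX : p ∣ X := by
    rw [hq]
    exact hpq.mul_left D1
  by_contra hlt
  rw [not_le] at hlt
  have hpn : ¬ p ∣ (b + 1) * m := by
    intro hd
    rcases (Nat.Prime.dvd_mul hp).1 hd with hd | hd
    · have := Nat.dvd_gcd hd hpX
      rw [hcop.1] at this
      exact hp.one_lt.ne' (Nat.dvd_one.1 this)
    · have := Nat.dvd_gcd hd hpX
      rw [hcop.2] at this
      exact hp.one_lt.ne' (Nat.dvd_one.1 this)
  have hpS : p ∈ S := Finset.mem_filter.2 ⟨Finset.mem_range.2 hlt, hp, hpn⟩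
  have hpP : p ∣ P := Finset.dvd_prod_of_mem _ hpS
  have e4 : q ≡ g [MOD P] := by
    have h1 : D1 * q ≡ D1 * g [MOD D1 * P] := by
      rw [← hq, ← hbg]
      exact e3
    exact Nat.ModEq.mul_left_cancel' hD10.ne' h1
  have hpg : p ∣ g := (Nat.ModEq.dvd_iff (e4.of_dvd hpP) dvd_rfl).1 hpq
  have hpm : p ∣ m := hp.dvd_of_dvd_pow (hpg.trans (Nat.gcd_dvd_right _ _))
  exact hpn (hpm.mul_left _)

end GC85
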