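import Mathlib
import Pool.Agent.Helper85.DN.SupT

/-!
# DN-E5: most words are primitive

For a word in `S` choose a prime `p ∣ D` with `V w i = 0` in `ZMod p` for all `i`; `p ≥ M0 ≥ 17`. `sup_type` with `g = p`, `v = 0`:
* `p ≤ (b + 1) ^ (L / 18)`, `G0 = p`: at most `Nt * p ^ (-7/2)` words; `∑_{p ≥ M0} p ^ (-7/2) ≤ 1 / M0`;
* `p > (b + 1) ^ (L / 18)`, `G0 = (b + 1) ^ (L / 18)`: at most `Nt * (b + 1) ^ (-(7/2) (L / 18))` words for each `p`, and `D` has at most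
  `Nat.log 2 D ≤ L (b + 1)` prime factors (`GC70.card_primeFactors_le`); for large `L` this is at most `Nt / M0`.
-/

set_option autoImplicit false

namespace GC85

open Finset GC70

variable {B : Type} [Fintype B] [DecidableEq B]

omit [Fintype B] [DecidableEq B] in
private lemma E5_grow (K : ℕ) : ∃ k0 : ℕ, ∀ k ≥ k0, K * (k + 1) ≤ 2 ^ k := by
  refine ⟨4 * K, fun k hk => ?_⟩
  have h1 : k / 2 < 2 ^ (k / 2) := Nat.lt_two_pow_self
  have h2 : k - k / 2 < 2 ^ (k - k / 2) := Nat.lt_two_pow_self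
  have h3 : 2 ^ k = 2 ^ (k / 2) * 2 ^ (k - k / 2) := by
    rw [← pow_add]
    congr 1
    omega
  have h4 : 2 * K ≤ 2 ^ (k / 2) := by omega
  have h5 : k + 1 ≤ 2 * 2 ^ (k - k / 2) := by omega
  have h6 := Nat.mul_le_mul h4 h5
  rw [h3]
  nlinarith

private lemma E5_sq (T : Finset ℕ) (hT : ∀ p ∈ T, 17 ≤ p) :
    ∑ p ∈ T, (((p : ℝ)) ^ 2)⁻¹ ≤ 1 := by
  have h1 : T ⊆ Ioo 16 (T.sup id + 1) := by
    intro p hp
    rw [mem_Ioo]
    have h2 : p ≤ T.sup id := le_sup (f := id) hp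
    have h3 := hT p hp
    omega
  have h4 := sum_Ioo_inv_sq_le (α := ℝ) 16 (T.sup id + 1)
  have h5 : ∑ p ∈ T, (((p : ℝ)) ^ 2)⁻¹ ≤ ∑ p ∈ Ioo 16 (T.sup id + 1), (((p : ℝ)) ^ 2)⁻¹ :=
    sum_le_sum_of_subset_of_nonneg h1 (fun _ _ _ => by positivity)
  refine h5.trans (h4.trans ?_)
  norm_num

private lemma E5_sqrt {a n c k : ℕ} (hc : c ^ 2 ≤ k) (h : a ^ 2 * k ≤ n ^ 2) : a * c ≤ n := by
  have h1 : (a * c) ^ 2 ≤ n ^ 2 := by
    rw [mul_pow]
    exact (Nat.mul_le_mul_left _ hc).trans h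
  exact (Nat.pow_le_pow_iff_left (by norm_num)).1 h1

theorem E5 (b m M0 : ℕ) (hB : Fintype.card B = b) : ∃ L0 : ℕ, ∀ L ≥ L0, ∀ s y ε D : ℕ,
    NP b m L s y ε → DP b m L s M0 D → ∀ S : Finset (ℤ → Option B),
      (∀ w ∈ S, Wd w L s ∧ ¬ Prim (b + 1) m D L w) →
      (S.card : ℝ) * M0 ≤ 3 * (Nt b L s) := by
  classical
  obtain ⟨k0, hk0⟩ := E5_grow ((b + 1) * M0 * 18)
  refine ⟨18 * (k0 + 5) + 18, fun L hL s y ε D P Q S hS => ?_⟩
  -- the bound for the large primes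
  set X : ℕ := (b + 1) ^ (L / 18) with hX
  have hkL : k0 + 5 ≤ L / 18 := by omega
  have hb2 : 2 ≤ b + 1 := by
    have := P.b1
    have h2 : 1 ≤ 2 ^ 60 := Nat.one_le_two_pow
    omega
  have h2X : 2 ^ (L / 18) ≤ X := Nat.pow_le_pow_left hb2 _
  have hXbig : (b + 1) * L * M0 ≤ X := by
    have h1 := hk0 (L / 18) (by omega)
    have h2 : L ≤ 18 * (L / 18 + 1) := by omega
    calc (b + 1) * L * M0 ≤ (b + 1) * (18 * (L / 18 + 1)) * M0 :=
          Nat.mul_le_mul_right _ (Nat.mul_le_mul_left _ h2)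
      _ = (b + 1) * M0 * 18 * (L / 18 + 1) := by ring
      _ ≤ 2 ^ (L / 18) := h1
      _ ≤ X := h2X
  have hX17 : 17 ≤ X := by
    have h1 : 2 ^ 5 ≤ 2 ^ (L / 18) := Nat.pow_le_pow_right (by norm_num) (by omega)
    have h3 : (2 : ℕ) ^ 5 = 32 := by norm_num
    omega
  have hX0 : 0 < X := by omega
  have hXr : (0 : ℝ) < X := by exact_mod_cast hX0
  have hD0 : 0 < D := by
    rcases Nat.eq_zero_or_pos D with h | h
    · exfalso
      have h1 := Q.ge
      rw [h, zero_mul] at h1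
      have h2 : 0 < (b + 1) ^ L := by positivity
      omega
    · exact h
  have hDle : D ≤ (b + 1) ^ L := by
    have h1 : 0 < (b + 1) ^ L - m ^ s := by
      have h2 := Q.le2
      have h3 : 0 < (b + 1) ^ L := by positivity
      omega
    have h2 := Nat.le_of_dvd h1 Q.dvd
    omega
  have hcard : D.primeFactors.card ≤ (b + 1) * L := by
    have h1 := GC70.card_primeFactors_le D hD0
    have h2 : (b + 1) ^ L ≤ 2 ^ ((b + 1) * L) := by
      rw [pow_mul]
      exact Nat.pow_le_pow_left Nat.lt_two_pow_self.le _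
    exact (Nat.pow_le_pow_iff_right (by norm_num : 1 < 2)).1 (h1.trans (hDle.trans h2))
  have hLbig : 10 ^ 6 ≤ L := by
    have h1 := P.Lge
    have h2 := P.yge
    omega
  have hsL' : 4000 * (L - s) ≤ L := by
    have h1 := P.Lge
    have h2 := P.zer
    have h3 := P.eps
    omega
  have hNt0 : (0 : ℝ) ≤ Nt b L s := by positivity
  -- the union
  have hsub : S ⊆ D.primeFactors.biUnion (fun p => S.filter (fun w =>
      ∀ i, (V (b + 1) m w L i : ZMod p) = 0)) := by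
    intro w hw
    have h1 := (hS w hw).2
    unfold Prim at h1
    push Not at h1
    obtain ⟨p, hp, hpD, h2⟩ := h1
    rw [mem_biUnion]
    refine ⟨p, Nat.mem_primeFactors.2 ⟨hp, hpD, hD0.ne'⟩, ?_⟩
    rw [mem_filter]
    exact ⟨hw, fun i => (ZMod.natCast_eq_zero_iff _ _).2 (h2 i)⟩
  have hcS : (S.card : ℝ) ≤ ∑ p ∈ D.primeFactors, ((S.filter (fun w =>
      ∀ i, (V (b + 1) m w L i : ZMod p) = 0)).card : ℝ) := by
    have h1 := (card_le_card hsub).trans card_biUnion_le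
    exact_mod_cast h1
  -- each prime
  have hone : ∀ p ∈ D.primeFactors, ((S.filter (fun w =>
      ∀ i, (V (b + 1) m w L i : ZMod p) = 0)).card : ℝ) * M0 ≤
        (Nt b L s : ℝ) * (((p : ℝ)) ^ 2)⁻¹ + (Nt b L s : ℝ) * (M0 / X) := by
    intro p hp
    rw [Nat.mem_primeFactors] at hp
    obtain ⟨hpp, hpD, -⟩ := hp
    have hpM := Q.prm p hpp hpD
    have hM17 := Q.M17
    obtain ⟨hc1, hc2⟩ := DP.cop P Q hpD
    set c := (S.filter (fun w => ∀ i, (V (b + 1) m w L i : ZMod p) = 0)).card with hcdef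
    have hmain : ∀ G0 : ℕ, 17 ≤ G0 → G0 ≤ p → G0 ≤ X → c ^ 2 * G0 ^ 7 ≤ (Nt b L s) ^ 2 := by
      intro G0 h17 hGp hGX
      refine sup_type hB P.b1 P.dm P.m2 P.cop hc1 hc2 hLbig hsL' P.sL G0 h17 hGp hGX
        (fun _ => 0) _ ?_
      intro w hw
      rw [mem_filter] at hw
      exact ⟨(hS w hw.1).1, hw.2⟩
    have hp0 : (0 : ℝ) < p := by exact_mod_cast hpp.pos
    rcases le_or_gt p X with hpX | hpX
    · have h1 := hmain p (by omega) le_rfl hpX
      have h2 : c * p ^ 3 ≤ Nt b L s := by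
        refine E5_sqrt ?_ h1
        rw [← pow_mul]
        exact Nat.pow_le_pow_right hpp.pos (by norm_num)
      have h3 : (c : ℝ) * (p : ℝ) ^ 3 ≤ Nt b L s := by exact_mod_cast h2
      have h4 : (M0 : ℝ) ≤ p := by exact_mod_cast hpM
      have h5 : (c : ℝ) * M0 ≤ (Nt b L s : ℝ) * (((p : ℝ)) ^ 2)⁻¹ := by
        calc (c : ℝ) * M0 ≤ c * p := mul_le_mul_of_nonneg_left h4 (by positivity)
          _ = (c * (p : ℝ) ^ 3) * (((p : ℝ)) ^ 2)⁻¹ := by
              field_simp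
          _ ≤ _ := mul_le_mul_of_nonneg_right h3 (by positivity)
      have h6 : 0 ≤ (Nt b L s : ℝ) * (M0 / X) := by positivity
      linarith
    · have h1 := hmain X hX17 hpX.le le_rfl
      have h2 : c * X ≤ Nt b L s := by
        refine E5_sqrt ?_ h1
        exact Nat.pow_le_pow_right hX0 (by norm_num)
      have h3 : (c : ℝ) * X ≤ Nt b L s := by exact_mod_cast h2
      have h5 : (c : ℝ) * M0 ≤ (Nt b L s : ℝ) * (M0 / X) := by
        calc (c : ℝ) * M0 = (c * X) * (M0 / X) := by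
              field_simp
          _ ≤ _ := mul_le_mul_of_nonneg_right h3 (by positivity)
      have h6 : 0 ≤ (Nt b L s : ℝ) * (((p : ℝ)) ^ 2)⁻¹ := by positivity
      linarith
  have hsum1 : ∑ p ∈ D.primeFactors, (((p : ℝ)) ^ 2)⁻¹ ≤ 1 := by
    apply E5_sq
    intro p hp
    rw [Nat.mem_primeFactors] at hp
    have h1 := Q.prm p hp.1 hp.2.1
    have h2 := Q.M17
    omega
  have hsum2 : (D.primeFactors.card : ℝ) * (M0 / X) ≤ 1 := by
    have h1 : D.primeFactors.card * M0 ≤ X := (Nat.mul_le_mul_right _ hcard).trans hXbig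
    have h2 : (D.primeFactors.card : ℝ) * M0 ≤ X := by exact_mod_cast h1
    rw [← mul_div_assoc, div_le_one hXr]
    exact h2
  calc (S.card : ℝ) * M0 ≤ (∑ p ∈ D.primeFactors, ((S.filter (fun w =>
      ∀ i, (V (b + 1) m w L i : ZMod p) = 0)).card : ℝ)) * M0 :=
        mul_le_mul_of_nonneg_right hcS (by positivity)
    _ = ∑ p ∈ D.primeFactors, ((S.filter (fun w =>
      ∀ i, (V (b + 1) m w L i : ZMod p) = 0)).card : ℝ) * M0 := by rw [sum_mul]
    _ ≤ ∑ p ∈ D.primeFactors, ((Nt b L s : ℝ) * (((p : ℝ)) ^ 2)⁻¹ +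
        (Nt b L s : ℝ) * (M0 / X)) := sum_le_sum hone
    _ = (Nt b L s : ℝ) * (∑ p ∈ D.primeFactors, (((p : ℝ)) ^ 2)⁻¹) +
        (Nt b L s : ℝ) * ((D.primeFactors.card : ℝ) * (M0 / X)) := by
          rw [sum_add_distrib, ← mul_sum, sum_const, nsmul_eq_mul]
          ring
    _ ≤ (Nt b L s : ℝ) * 1 + (Nt b L s : ℝ) * 1 :=
        add_le_add (mul_le_mul_of_nonneg_left hsum1 hNt0)
          (mul_le_mul_of_nonneg_left hsum2 hNt0)
    _ ≤ 3 * (Nt b L s) := by linarith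

end GC85
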