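import Mathlib
import Pool.Agent.Helper85.DN.Defs

/-!
# DN-E1: letters with a given sum modulo `D1`

`o = φ(D1)`, so `m ^ o = 1` in `ZMod D1`. Order the elements of `N` increasingly: `j 0 < j 1 < ... < j (s - 1)`; the weight of
`j k` is `d ^ .. * m ^ (s - 1 - k) = m ^ (s - 1 - k)` modulo `D1`. So the statement is about sequences
`x : Fin s → B` and `Z x = ∑_k m ^ (s - 1 - k) ρ (x k)` (transport with `Finset.orderEmbOfFin` or `orderIsoOfFin`).
Let `s = D1 * r`, `o ∣ r`. Cut `x` into `D1` sequences of length `r`: `Z x = ∑_{i < D1} Z (x_i)` because `m ^ r = 1`. For some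
`z : ZMod D1` at least `b ^ r / D1` sequences of length `r` have `Z = z`; if all `x_i` are such, then
`Z x = D1 * z = 0`. So at least `(b ^ r / D1) ^ D1` sequences `x` (real division) have `Z x = 0`.
-/

set_option autoImplicit false

namespace GC85

open Finset GC70

variable {B : Type} [Fintype B] [DecidableEq B]

private theorem E1_rank_lt {N : Finset ℕ} {s : ℕ} (hN : N.card = s) (j : {j // j ∈ N}) :
    (N.filter (fun t => j.1 < t)).card < s := by
  rw [← hN]
  apply Finset.card_lt_card
  rw [Finset.ssubset_iff_of_subset (Finset.filter_subset _ _)]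
  exact ⟨j.1, j.2, fun h => by
    rw [Finset.mem_filter] at h
    exact lt_irrefl _ h.2⟩

private theorem E1_rank_inj {N : Finset ℕ} (j j' : {j // j ∈ N})
    (h : (N.filter (fun t => j.1 < t)).card = (N.filter (fun t => j'.1 < t)).card) : j = j' := by
  have key : ∀ a a' : {j // j ∈ N}, a.1 < a'.1 →
      (N.filter (fun t => a'.1 < t)).card < (N.filter (fun t => a.1 < t)).card := by
    intro a a' haa
    apply Finset.card_lt_card
    rw [Finset.ssubset_iff_of_subset]
    · refine ⟨a'.1, Finset.mem_filter.2 ⟨a'.2, haa⟩, fun h => ?_⟩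
      rw [Finset.mem_filter] at h
      exact lt_irrefl _ h.2
    · intro t ht
      rw [Finset.mem_filter] at ht ⊢
      exact ⟨ht.1, haa.trans ht.2⟩
  rcases lt_trichotomy j.1 j'.1 with h1 | h1 | h1
  · have := key _ _ h1
    omega
  · exact Subtype.ext h1
  · have := key _ _ h1
    omega

theorem E1 {d m D1 s : ℕ} (hD1 : 0 < D1) (hd : (d : ZMod D1) = 1) (hm : Nat.Coprime m D1)
    (hs : Nat.totient D1 * D1 ∣ s) (N : Finset ℕ) (hN : N.card = s) (ρ : B → ZMod D1) :
    Fintype.card B ^ s ≤ D1 ^ D1 * ((univ : Finset ({j // j ∈ N} → B)).filter (fun f =>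
      ∑ j : {j // j ∈ N}, (wt d m N j : ZMod D1) * ρ (f j) = 0)).card := by
  classical
  obtain ⟨k, hk⟩ := hs
  set r := Nat.totient D1 * k with hr
  have hsr : s = D1 * r := by
    rw [hk, hr]
    ring
  have : NeZero D1 := ⟨hD1.ne'⟩
  set M : ZMod D1 := (m : ZMod D1) with hM
  have hMo : M ^ Nat.totient D1 = 1 := by
    have h1 := ZMod.pow_totient (ZMod.unitOfCoprime m hm)
    have h2 := congrArg Units.val h1
    rw [Units.val_pow_eq_pow_val, ZMod.coe_unitOfCoprime, Units.val_one] at h2
    exact h2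
  have hMr : M ^ r = 1 := by
    rw [hr, pow_mul, hMo, one_pow]
  let e : {j // j ∈ N} → Fin s := fun j =>
    ⟨(N.filter (fun t => j.1 < t)).card, E1_rank_lt hN j⟩
  have he : Function.Injective e := by
    intro j j' h
    exact E1_rank_inj j j' (congrArg Fin.val h)
  have hbij : Function.Bijective e :=
    (Fintype.bijective_iff_injective_and_card e).2 ⟨he, by simp [hN]⟩
  let σ : {j // j ∈ N} ≃ Fin D1 × Fin r :=
    (Equiv.ofBijective e hbij).trans ((finCongr hsr).trans finProdFinEquiv.symm)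
  have hσ : ∀ j : {j // j ∈ N},
      M ^ ((N.filter (fun t => j.1 < t)).card) = M ^ ((σ j).2 : ℕ) := by
    intro j
    have h1 : finProdFinEquiv (σ j) = finCongr hsr (e j) := by
      show finProdFinEquiv (finProdFinEquiv.symm (finCongr hsr (e j))) = _
      rw [Equiv.apply_symm_apply]
    have h2 : ((finProdFinEquiv (σ j) : Fin (D1 * r)) : ℕ) = (σ j).2 + r * (σ j).1 := rfl
    have h3 : ((finCongr hsr (e j) : Fin (D1 * r)) : ℕ) =
        (N.filter (fun t => j.1 < t)).card := rfl
    rw [← h3, ← h1, h2, pow_add, pow_mul, hMr, one_pow, mul_one]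
  have hwt : ∀ j : {j // j ∈ N}, (wt d m N j : ZMod D1) = M ^ ((σ j).2 : ℕ) := by
    intro j
    unfold wt
    push_cast
    rw [hd, one_pow, one_mul, ← hσ j]
  have hsum : ∀ f : {j // j ∈ N} → B, ∑ j : {j // j ∈ N}, (wt d m N j : ZMod D1) * ρ (f j) =
      ∑ q : Fin D1, ∑ t : Fin r, M ^ (t : ℕ) * ρ (f (σ.symm (q, t))) := by
    intro f
    rw [← Fintype.sum_prod_type' (fun (q : Fin D1) (t : Fin r) =>
      M ^ (t : ℕ) * ρ (f (σ.symm (q, t))))]
    rw [← Equiv.sum_comp σ]
    refine Finset.sum_congr rfl fun j _ => ?_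
    rw [hwt j]
    simp
  -- pigeonhole
  set A : ZMod D1 → Finset (Fin r → B) := fun z =>
    univ.filter (fun y => ∑ t : Fin r, M ^ (t : ℕ) * ρ (y t) = z) with hA
  have htot : ∑ z : ZMod D1, (A z).card = Fintype.card B ^ r := by
    have h1 := Finset.card_eq_sum_card_fiberwise (s := (univ : Finset (Fin r → B)))
      (t := (univ : Finset (ZMod D1))) (f := fun y => ∑ t : Fin r, M ^ (t : ℕ) * ρ (y t))
      (fun _ _ => by simp)
    rw [Finset.card_univ, Fintype.card_fun, Fintype.card_fin] at h1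
    exact h1.symm
  obtain ⟨z, hz⟩ : ∃ z, Fintype.card B ^ r ≤ D1 * (A z).card := by
    by_contra hcon
    push Not at hcon
    have h1 : ∑ z : ZMod D1, D1 * (A z).card < ∑ _z : ZMod D1, Fintype.card B ^ r :=
      Finset.sum_lt_sum_of_nonempty ⟨0, by simp⟩ fun z _ => hcon z
    rw [← Finset.mul_sum, htot, Finset.sum_const, Finset.card_univ, ZMod.card, smul_eq_mul] at h1
    exact lt_irrefl _ h1
  -- the injection
  have hcard : (A z).card ^ D1 ≤ ((univ : Finset ({j // j ∈ N} → B)).filter (fun f =>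
      ∑ j : {j // j ∈ N}, (wt d m N j : ZMod D1) * ρ (f j) = 0)).card := by
    have h1 : (A z).card ^ D1 = Fintype.card (Fin D1 → {y // y ∈ A z}) := by
      rw [Fintype.card_fun, Fintype.card_fin, Fintype.card_coe]
    rw [h1, ← Finset.card_univ]
    apply Finset.card_le_card_of_injOn
      (fun (g : Fin D1 → {y // y ∈ A z}) (j : {j // j ∈ N}) => (g (σ j).1).1 (σ j).2)
    · intro g _
      simp only [Finset.coe_filter, Finset.mem_univ, true_and, Set.mem_ofPred_eq]
      rw [hsum]
      have h2 : ∀ q : Fin D1, ∑ t : Fin r, M ^ (t : ℕ) *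
          ρ ((g (σ (σ.symm (q, t))).1).1 (σ (σ.symm (q, t))).2) = z := by
        intro q
        have h3 := (Finset.mem_filter.1 (g q).2).2
        refine Eq.trans (Finset.sum_congr rfl fun t _ => ?_) h3
        rw [Equiv.apply_symm_apply]
      rw [Finset.sum_congr rfl fun q _ => h2 q, Finset.sum_const, Finset.card_univ,
        Fintype.card_fin, nsmul_eq_mul]
      simp
    · intro g _ g' _ hgg
      funext q
      apply Subtype.ext
      funext t
      have h4 := congrFun hgg (σ.symm (q, t))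
      simp only [Equiv.apply_symm_apply] at h4
      exact h4
  calc Fintype.card B ^ s = (Fintype.card B ^ r) ^ D1 := by
        rw [← pow_mul, hsr, mul_comm D1 r]
    _ ≤ (D1 * (A z).card) ^ D1 := Nat.pow_le_pow_left hz D1
    _ = D1 ^ D1 * (A z).card ^ D1 := mul_pow _ _ _
    _ ≤ _ := Nat.mul_le_mul_left _ hcard

end GC85
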