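import Mathlib
import Pool.Agent.Helper85.DN.E1
import Pool.Agent.Helper85.DN.SupT

/-!
# DN-GoodA: the number of the words with a given condition modulo `D1`

`E1` for each of the `L.choose s` skeletons `N ⊆ range L`, `N.card = s`: the words with skeleton `N` correspond to the functions `N → B`
(`GC70.V_eq_Vf`, `GC70.res_inj'` in `Helper70/GC/Range1.lean`; one needs here that every function comes from a word, see `GC70.ext`);
`∑ i, V w i * ρ i = ∑ j, wt N j * ρ (f j)`; `b + 1 = 1` in `ZMod D1`.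
-/

set_option autoImplicit false

namespace GC85

open Finset GC70

variable {B : Type} [Fintype B] [DecidableEq B]

/-- the words of a type with the condition modulo `D1` -/
noncomputable def As (B : Type) [Fintype B] [DecidableEq B] (b m D1 L s : ℕ) (ρ : B → ZMod D1) :
    Finset (ℤ → Option B) := by
  classical
  exact (PW B L).filter (fun w => Wd w L s ∧ ∑ i, (V (b + 1) m w L i : ZMod D1) * ρ i = 0)

/-- the word with the skeleton `N` and the letters `f` -/
private def GoodA_w (L : ℕ) [NeZero L] (N : Finset ℕ) (f : {j // j ∈ N} → B) : ℤ → Option B :=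
  GC70.ext L (fun j => if h : (j : ℕ) ∈ N then some (f ⟨j, h⟩) else none)

omit [Fintype B] [DecidableEq B] in
private lemma GoodA_w_nat (L : ℕ) [NeZero L] (N : Finset ℕ) (f : {j // j ∈ N} → B) (j : ℕ)
    (hj : j < L) : GoodA_w L N f (j : ℤ) = if h : j ∈ N then some (f ⟨j, h⟩) else none := by
  unfold GoodA_w GC70.ext
  rw [idx_nat L j hj]

omit [Fintype B] [DecidableEq B] in
private lemma GoodA_sk (L : ℕ) [NeZero L] (N : Finset ℕ) (hN : N ⊆ range L)
    (f : {j // j ∈ N} → B) : sk (GoodA_w L N f) L = N := by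
  ext j
  unfold sk
  rw [mem_filter, mem_range]
  constructor
  · rintro ⟨h1, h2⟩
    rw [GoodA_w_nat L N f j h1] at h2
    by_contra h3
    rw [dif_neg h3] at h2
    simp at h2
  · intro h
    have h1 := mem_range.1 (hN h)
    refine ⟨h1, ?_⟩
    rw [GoodA_w_nat L N f j h1, dif_pos h]
    rfl

omit [Fintype B] in
private lemma GoodA_V {D1 : ℕ} (d m : ℕ) (L : ℕ) [NeZero L] (N : Finset ℕ) (hN : N ⊆ range L)
    (f : {j // j ∈ N} → B) (i : B) : (V d m (GoodA_w L N f) L i : ZMod D1) =
      ∑ j : {j // j ∈ N}, if f j = i then (wt d m N j : ZMod D1) else 0 := by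
  unfold V
  rw [GoodA_sk L N hN f]
  push_cast
  rw [← Finset.sum_filter]
  symm
  refine Finset.sum_bij (fun j _ => (j : ℕ)) ?_ ?_ ?_ ?_
  · intro j hj
    have h1 := mem_range.1 (hN j.2)
    rw [mem_filter, mem_range]
    refine ⟨h1, ?_⟩
    rw [GoodA_w_nat L N f j h1, dif_pos j.2]
    rw [(mem_filter.1 hj).2]
  · intro a _ b _ h
    exact Subtype.ext h
  · intro j hj
    rw [mem_filter, mem_range] at hj
    obtain ⟨h1, h2⟩ := hj
    rw [GoodA_w_nat L N f j h1] at h2
    by_cases h3 : j ∈ N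
    · rw [dif_pos h3] at h2
      refine ⟨⟨j, h3⟩, ?_, rfl⟩
      rw [mem_filter]
      exact ⟨mem_univ _, Option.some.inj h2⟩
    · rw [dif_neg h3] at h2
      simp at h2
  · intro j _
    rfl

private lemma GoodA_sum {D1 : ℕ} (d m : ℕ) (L : ℕ) [NeZero L] (N : Finset ℕ) (hN : N ⊆ range L)
    (f : {j // j ∈ N} → B) (ρ : B → ZMod D1) :
    ∑ i, (V d m (GoodA_w L N f) L i : ZMod D1) * ρ i =
      ∑ j : {j // j ∈ N}, (wt d m N j : ZMod D1) * ρ (f j) := by
  have h1 : ∀ i, (V d m (GoodA_w L N f) L i : ZMod D1) * ρ i =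
      ∑ j : {j // j ∈ N}, if f j = i then (wt d m N j : ZMod D1) * ρ i else 0 := by
    intro i
    rw [GoodA_V d m L N hN f i, Finset.sum_mul]
    refine Finset.sum_congr rfl fun j _ => ?_
    split_ifs with h
    · rfl
    · rw [zero_mul]
  rw [Finset.sum_congr rfl fun i _ => h1 i, Finset.sum_comm]
  refine Finset.sum_congr rfl fun j _ => ?_
  rw [Finset.sum_ite_eq]
  simp

theorem As_count {b m D1 L s : ℕ} (hB : Fintype.card B = b) (hD1 : 0 < D1) (hD1b : D1 ∣ b)
    (hm : Nat.Coprime m D1) (hL : 0 < L) (hs : Nat.totient D1 * D1 ∣ s) (ρ : B → ZMod D1) :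
    Nt b L s ≤ D1 ^ D1 * (As B b m D1 L s ρ).card := by
  classical
  have : NeZero L := ⟨hL.ne'⟩
  have hd : ((b + 1 : ℕ) : ZMod D1) = 1 := by
    have h1 : ((b : ℕ) : ZMod D1) = 0 := (ZMod.natCast_eq_zero_iff b D1).2 hD1b
    push_cast
    rw [h1, zero_add]
  have hmaps : ∀ w ∈ As B b m D1 L s ρ, sk w L ∈ (range L).powersetCard s := by
    intro w hw
    unfold As at hw
    have h1 := (mem_filter.1 hw).2.1
    rw [mem_powersetCard]
    exact ⟨filter_subset _ _, h1.cnt⟩
  have hfib : ∀ N ∈ (range L).powersetCard s,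
      b ^ s ≤ D1 ^ D1 * ((As B b m D1 L s ρ).filter (fun w => sk w L = N)).card := by
    intro N hN
    rw [mem_powersetCard] at hN
    have h1 := E1 hD1 hd hm hs N hN.2 ρ
    rw [hB] at h1
    refine h1.trans (Nat.mul_le_mul_left _ ?_)
    refine Finset.card_le_card_of_injOn (fun f => GoodA_w L N f) ?_ ?_
    · intro f hf
      have hf' := (mem_filter.1 (mem_coe.1 hf)).2
      rw [mem_coe, mem_filter]
      have hsk := GoodA_sk L N hN.1 f
      have hper : Per (GoodA_w L N f) L := ext_per L _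
      refine ⟨?_, hsk⟩
      unfold As
      rw [mem_filter, mem_PW hL]
      refine ⟨hper, ⟨hper, ?_⟩, ?_⟩
      · rw [hsk, hN.2]
      · rw [GoodA_sum (b + 1) m L N hN.1 f ρ]
        exact hf'
    · intro f _ f' _ h
      funext j
      have h1 := mem_range.1 (hN.1 j.2)
      have h2 : GoodA_w L N f ((j : ℕ) : ℤ) = GoodA_w L N f' ((j : ℕ) : ℤ) := congrFun h _
      rw [GoodA_w_nat L N f j h1, GoodA_w_nat L N f' j h1, dif_pos j.2, dif_pos j.2] at h2
      exact Option.some.inj h2
  have hcard := Finset.card_eq_sum_card_fiberwise hmaps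
  calc Nt b L s = ∑ _N ∈ (range L).powersetCard s, b ^ s := by
        rw [sum_const, card_powersetCard, card_range, smul_eq_mul, Nt]
    _ ≤ ∑ N ∈ (range L).powersetCard s,
        D1 ^ D1 * ((As B b m D1 L s ρ).filter (fun w => sk w L = N)).card :=
        Finset.sum_le_sum hfib
    _ = D1 ^ D1 * (As B b m D1 L s ρ).card := by rw [← Finset.mul_sum, ← hcard]

end GC85
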