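import Mathlib
import Pool.Agent.Helper85.DN.PDefs
import Pool.Agent.Helper85.DN.Base

/-!
# DN-E3a: the Chernoff bound

For `w ∈ PW B L` let `n t` be the number of letters `none` in `[0, t)`, `t ≤ L`: `zf w t = t - n t`. For real `x > 0`,
`∑_{w ∈ PW B L} x ^ (n t) = (b + x) ^ t (b + 1) ^ (L - t)` (a product over the positions; work with `Fin L → Option B`, `card_PW`,
`GC70.ext`). With `x = 1 + η`, `0 < η ≤ 1`: the number of words with `n t ≥ t / (b + 1) + Δ'` is at most
`(b + 1) ^ L (1 + η / (b + 1)) ^ t (1 + η) ^ (- t / (b + 1) - Δ') ≤ (b + 1) ^ L exp (η ^ 2 L - η Δ' / 2)`, because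
`log (1 + η) ≥ η - η ^ 2 / 2`; with `x = 1 - η`, `η ≤ 1/2`, the number with `n t ≤ t / (b + 1) - Δ'` (only possible if
`t / (b + 1) ≥ Δ'`) is at most
`(b + 1) ^ L exp (2 η ^ 2 L - η Δ' / 2)`. Take `η = Δ' / (8 L)`: both are at most `(b + 1) ^ L exp (- Δ' ^ 2 / (100 L))`.
-/

set_option autoImplicit false

namespace GC85

open Finset GC70

variable {B : Type} [Fintype B] [DecidableEq B]

/-- the centred letter -/
private noncomputable def E3a_c (b : ℕ) (o : Option B) : ℝ :=
  (if o.isSome then (1 : ℝ) else 0) - (b : ℝ) / ((b : ℝ) + 1)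

private theorem E3a_factor {b : ℕ} (hB : Fintype.card B = b) (l : ℝ) (hl : |l| ≤ 1) :
    ∑ o : Option B, Real.exp (l * E3a_c b o) ≤ ((b : ℝ) + 1) * Real.exp (l ^ 2) := by
  have hb0 : (0 : ℝ) ≤ b := Nat.cast_nonneg b
  have hb1 : (0 : ℝ) < (b : ℝ) + 1 := by positivity
  set p : ℝ := (b : ℝ) / ((b : ℝ) + 1) with hp
  have hp0 : 0 ≤ p := by positivity
  have hp1 : p ≤ 1 := by
    rw [hp, div_le_one hb1]
    linarith
  have hpb : p * ((b : ℝ) + 1) = b := div_mul_cancel₀ _ hb1.ne'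
  have hexp : ∀ u : ℝ, |u| ≤ 1 → Real.exp u ≤ 1 + u + u ^ 2 := by
    intro u hu
    have h := Real.abs_exp_sub_one_sub_id_le hu
    have h1 := le_abs_self (Real.exp u - 1 - u)
    linarith
  have hs : ∀ i : B, E3a_c b (some i) = 1 - p := fun i => by
    unfold E3a_c
    simp [hp]
  have hn : E3a_c b (none : Option B) = -p := by
    unfold E3a_c
    simp [hp]
  rw [Fintype.sum_option, hn]
  simp only [hs]
  rw [Finset.sum_const, Finset.card_univ, hB, nsmul_eq_mul]
  have h1 : Real.exp (l * -p) ≤ 1 + l * -p + (l * -p) ^ 2 := by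
    refine hexp _ ?_
    rw [abs_mul, abs_neg, abs_of_nonneg hp0]
    calc |l| * p ≤ 1 * 1 := mul_le_mul hl hp1 hp0 zero_le_one
      _ = 1 := one_mul 1
  have h2 : Real.exp (l * (1 - p)) ≤ 1 + l * (1 - p) + (l * (1 - p)) ^ 2 := by
    refine hexp _ ?_
    rw [abs_mul, abs_of_nonneg (sub_nonneg.2 hp1)]
    calc |l| * (1 - p) ≤ 1 * 1 :=
          mul_le_mul hl (by linarith) (sub_nonneg.2 hp1) zero_le_one
      _ = 1 := one_mul 1
  have h3 : (b : ℝ) * (1 - p) = p := by linarith
  have h4 : (b : ℝ) * (1 - p) ^ 2 + p ^ 2 = p := by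
    calc (b : ℝ) * (1 - p) ^ 2 + p ^ 2 = ((b : ℝ) * (1 - p)) * (1 - p) + p ^ 2 := by ring
      _ = p := by
        rw [h3]
        ring
  calc Real.exp (l * -p) + (b : ℝ) * Real.exp (l * (1 - p))
      ≤ (1 + l * -p + (l * -p) ^ 2) + (b : ℝ) * (1 + l * (1 - p) + (l * (1 - p)) ^ 2) :=
        add_le_add h1 (mul_le_mul_of_nonneg_left h2 hb0)
    _ = ((b : ℝ) + 1) + l * ((b : ℝ) * (1 - p) - p) +
        l ^ 2 * ((b : ℝ) * (1 - p) ^ 2 + p ^ 2) := by ring
    _ = ((b : ℝ) + 1) + l ^ 2 * p := by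
        rw [h3, h4]
        ring
    _ ≤ ((b : ℝ) + 1) * (l ^ 2 + 1) := by
        have h5 : l ^ 2 * p ≤ l ^ 2 * 1 := mul_le_mul_of_nonneg_left hp1 (sq_nonneg l)
        have h6 : 0 ≤ (b : ℝ) * l ^ 2 := by positivity
        linarith
    _ ≤ ((b : ℝ) + 1) * Real.exp (l ^ 2) :=
        mul_le_mul_of_nonneg_left (Real.add_one_le_exp _) hb1.le

private theorem E3a_total {b L : ℕ} (hB : Fintype.card B = b) (t : ℕ) (l : ℝ) (hl : |l| ≤ 1) :
    ∑ v : Fin L → Option B,
      Real.exp (l * ∑ j : Fin L, if (j : ℕ) < t then E3a_c b (v j) else 0) ≤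
      ((b : ℝ) + 1) ^ L * Real.exp (l ^ 2 * L) := by
  classical
  have hb0 : (0 : ℝ) ≤ b := Nat.cast_nonneg b
  have h1 : ∑ v : Fin L → Option B,
      Real.exp (l * ∑ j : Fin L, if (j : ℕ) < t then E3a_c b (v j) else 0) =
      ∏ j : Fin L, ∑ o : Option B, Real.exp (l * if (j : ℕ) < t then E3a_c b o else 0) := by
    rw [Finset.prod_univ_sum, Fintype.piFinset_univ]
    refine Finset.sum_congr rfl fun v _ => ?_
    rw [Finset.mul_sum, Real.exp_sum]
  rw [h1]
  calc ∏ j : Fin L, ∑ o : Option B, Real.exp (l * if (j : ℕ) < t then E3a_c b o else 0)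
      ≤ ∏ _j : Fin L, ((b : ℝ) + 1) * Real.exp (l ^ 2) := by
        refine Finset.prod_le_prod (fun j _ => Finset.sum_nonneg fun o _ => (Real.exp_pos _).le)
          fun j _ => ?_
        by_cases hj : (j : ℕ) < t
        · simp only [if_pos hj]
          exact E3a_factor hB l hl
        · simp only [if_neg hj, mul_zero, Real.exp_zero]
          rw [Finset.sum_const, Finset.card_univ, Fintype.card_option, hB, nsmul_eq_mul, mul_one]
          push_cast
          exact le_mul_of_one_le_right (by positivity) (Real.one_le_exp (sq_nonneg l))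
    _ = ((b : ℝ) + 1) ^ L * Real.exp (l ^ 2 * L) := by
        rw [Finset.prod_const, Finset.card_univ, Fintype.card_fin, mul_pow, ← Real.exp_nat_mul]
        congr 2
        ring

omit [Fintype B] [DecidableEq B] in
private theorem E3a_zf (w : ℤ → Option B) (t : ℕ) :
    (zf w (t : ℤ) : ℝ) = ∑ j ∈ range t, if (w (j : ℤ)).isSome then (1 : ℝ) else 0 := by
  induction t with
  | zero => simp [zf_zero]
  | succ t ih =>
    rw [Finset.sum_range_succ, ← ih]
    push_cast
    rw [zf_isZ w t]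
    push_cast
    rfl

omit [Fintype B] [DecidableEq B] in
private theorem E3a_sum (w : ℤ → Option B) {b L t : ℕ} (ht : t ≤ L) :
    ∑ j : Fin L, (if (j : ℕ) < t then E3a_c b (w ((j : ℕ) : ℤ)) else 0) =
      (zf w (t : ℤ) : ℝ) - (b : ℝ) * t / ((b : ℝ) + 1) := by
  rw [Fin.sum_univ_eq_sum_range (fun j => if j < t then E3a_c b (w (j : ℤ)) else 0) L, E3a_zf]
  have h1 : ∑ j ∈ range L, (if j < t then E3a_c b (w (j : ℤ)) else 0) =
      ∑ j ∈ range t, E3a_c b (w (j : ℤ)) := by
    rw [← Finset.sum_subset (Finset.range_mono ht) fun j _ hj => ?_]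
    · refine Finset.sum_congr rfl fun j hj => ?_
      rw [if_pos (Finset.mem_range.1 hj)]
    · rw [if_neg fun h => hj (Finset.mem_range.2 h)]
  rw [h1]
  unfold E3a_c
  rw [Finset.sum_sub_distrib, Finset.sum_const, Finset.card_range, nsmul_eq_mul]
  ring

theorem E3_chern {b L : ℕ} (hB : Fintype.card B = b) (hb : 1 ≤ b) (hL : 0 < L) (t : ℕ) (ht : t ≤ L)
    (x : ℝ) (hx : 0 ≤ x) (hxL : x ≤ L) (S : Finset (ℤ → Option B))
    (hS : ∀ w ∈ S, Per w L ∧ x < |(zf w (t : ℤ) : ℝ) - (b : ℝ) * t / ((b : ℝ) + 1)|) :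
    (S.card : ℝ) ≤ 2 * ((b : ℝ) + 1) ^ L * Real.exp (-(x ^ 2 / (100 * L))) := by
  classical
  have hL' : (0 : ℝ) < L := Nat.cast_pos.2 hL
  set l : ℝ := x / (2 * L) with hl
  have hl0 : 0 ≤ l := by positivity
  have hl1 : l ≤ 1 := by
    rw [hl, div_le_one (by positivity)]
    linarith
  set g : (Fin L → Option B) → ℝ :=
    fun v => ∑ j : Fin L, if (j : ℕ) < t then E3a_c b (v j) else 0 with hg
  set r : (ℤ → Option B) → (Fin L → Option B) := fun w j => w ((j : ℕ) : ℤ) with hr
  have hinj : Set.InjOn r S := by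
    intro w hw w' hw' h
    refine Per.ext hL (hS w hw).1 (hS w' hw').1 ?_
    intro j hj
    exact congrFun h ⟨j, hj⟩
  have h1 : (S.card : ℝ) * Real.exp (l * x) ≤
      ∑ v : Fin L → Option B, (Real.exp (l * g v) + Real.exp (-l * g v)) := by
    calc (S.card : ℝ) * Real.exp (l * x) = ∑ _w ∈ S, Real.exp (l * x) := by
          rw [Finset.sum_const, nsmul_eq_mul]
      _ ≤ ∑ w ∈ S, (Real.exp (l * g (r w)) + Real.exp (-l * g (r w))) := by
          refine Finset.sum_le_sum fun w hw => ?_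
          have h2 := (hS w hw).2
          rw [← E3a_sum w ht] at h2
          have h3 : x < |g (r w)| := h2
          rcases abs_cases (g (r w)) with ⟨h4, -⟩ | ⟨h4, -⟩
          · rw [h4] at h3
            have h5 : Real.exp (l * x) ≤ Real.exp (l * g (r w)) :=
              Real.exp_le_exp.2 (mul_le_mul_of_nonneg_left h3.le hl0)
            have h6 := Real.exp_pos (-l * g (r w))
            linarith
          · rw [h4] at h3
            have h5 : Real.exp (l * x) ≤ Real.exp (-l * g (r w)) := by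
              refine Real.exp_le_exp.2 ?_
              have := mul_le_mul_of_nonneg_left h3.le hl0
              linarith
            have h6 := Real.exp_pos (l * g (r w))
            linarith
      _ = ∑ v ∈ S.image r, (Real.exp (l * g v) + Real.exp (-l * g v)) := by
          rw [Finset.sum_image hinj]
      _ ≤ ∑ v : Fin L → Option B, (Real.exp (l * g v) + Real.exp (-l * g v)) :=
          Finset.sum_le_sum_of_subset_of_nonneg (Finset.subset_univ _)
            fun v _ _ => by positivity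
  have h2 : ∑ v : Fin L → Option B, (Real.exp (l * g v) + Real.exp (-l * g v)) ≤
      2 * ((b : ℝ) + 1) ^ L * Real.exp (l ^ 2 * L) := by
    rw [Finset.sum_add_distrib]
    have h3 := E3a_total (L := L) hB t l (by rwa [abs_of_nonneg hl0])
    have h4 := E3a_total (L := L) hB t (-l) (by rwa [abs_neg, abs_of_nonneg hl0])
    rw [neg_sq] at h4
    linarith
  have h3 : (S.card : ℝ) * Real.exp (l * x) ≤
      2 * ((b : ℝ) + 1) ^ L * Real.exp (l ^ 2 * L) := h1.trans h2
  have h4 : (S.card : ℝ) ≤ 2 * ((b : ℝ) + 1) ^ L * Real.exp (l ^ 2 * L - l * x) := by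
    rw [Real.exp_sub, ← mul_div_assoc, le_div_iff₀ (Real.exp_pos _)]
    exact h3
  refine h4.trans ?_
  refine mul_le_mul_of_nonneg_left (Real.exp_le_exp.2 ?_) (by positivity)
  have h5 : l ^ 2 * L - l * x = -(x ^ 2 / (4 * L)) := by
    rw [hl]
    field_simp
    ring
  rw [h5, neg_le_neg_iff]
  exact div_le_div_of_nonneg_left (sq_nonneg x) (by positivity) (by linarith)

end GC85
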