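import Mathlib
import Pool.Agent.Helper85.DN.E3a

/-!
# DN-E3: most words are typical

`E3_chern` with `x = Del L / 3` for all `t ≤ L`: the total number of the words with
`|zf w t - b t / (b + 1)| > Del L / 3` for some `t ≤ L` is at most `2 (L + 1) (b + 1) ^ L exp (- (Del L) ^ 2 / (900 L))`, and
`(Del L) ^ 2 / L ≥ L ^ (3/4) / 2` for large `L` (`rt L ≤ L ^ (1/8)`). For the other words: for `x ≤ y ≤ x + L` reduce `x` modulo `L`
(`Wd.zf_add` or `GC70.zf_per`) and split `[x, y)` at `L` if necessary (`zf w L` is within `Del L / 3` of `b L / (b + 1)` too): error at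
most `Del L` if `y ≤ L` (two values of `t`), and in the second case `zf w y - zf w x = zf w (y - L) + (zf w L - zf w x)`, three values of
`t`: at most `Del L`.
-/

set_option autoImplicit false

namespace GC85

open Finset GC70

variable {B : Type} [Fintype B] [DecidableEq B]

omit [Fintype B] in
private lemma e3_per {w : ℤ → Option B} {L : ℕ} (hw : Per w L) (k j : ℤ) :
    zf w (j + k * L) = zf w j + k * zf w L := by
  have h0 := zf_per w hw 0
  rw [zero_add, zf_zero, zero_add] at h0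
  rw [zper_mul (zf_per w hw) k j, h0]

omit [Fintype B] in
/-- words whose counting function is close to its mean are typical -/
private lemma e3_ty {b L D : ℕ} (hL : 0 < L) {w : ℤ → Option B} (hw : Per w L)
    (h : ∀ t : ℕ, t ≤ L → |(zf w (t : ℤ) : ℝ) - (b : ℝ) * t / ((b : ℝ) + 1)| ≤ (D : ℝ) / 3) :
    Ty b w L D := by
  -- the function `f t = (b + 1) zf w t - b t`
  set f : ℤ → ℤ := fun t => ((b : ℤ) + 1) * zf w t - (b : ℤ) * t with hf
  have hb1 : (0 : ℝ) < (b : ℝ) + 1 := by positivity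
  have hfb : ∀ t : ℤ, 0 ≤ t → t ≤ L → 3 * |f t| ≤ ((b : ℤ) + 1) * D := by
    intro t ht0 htL
    obtain ⟨n, rfl⟩ := Int.eq_ofNat_of_zero_le ht0
    have h1 := h n (by exact_mod_cast htL)
    have h2 : ((f n : ℤ) : ℝ) = ((b : ℝ) + 1) *
        ((zf w (n : ℤ) : ℝ) - (b : ℝ) * n / ((b : ℝ) + 1)) := by
      simp only [hf]
      push_cast
      field_simp
    have h3 : |((f n : ℤ) : ℝ)| ≤ ((b : ℝ) + 1) * ((D : ℝ) / 3) := by
      rw [h2, abs_mul, abs_of_pos hb1]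
      exact mul_le_mul_of_nonneg_left h1 hb1.le
    have h4 : 3 * |((f n : ℤ) : ℝ)| ≤ ((b : ℝ) + 1) * D := by linarith
    exact_mod_cast h4
  have hfp : ∀ k j : ℤ, f (j + k * L) = f j + k * f L := by
    intro k j
    simp only [hf]
    rw [e3_per hw k j]
    ring
  intro x y hxy hyx
  have hLz : (0 : ℤ) < L := by exact_mod_cast hL
  -- reduce `x` modulo `L`
  obtain ⟨k, hk1, hk2⟩ := rep L hL 0 x
  rw [zero_add] at hk2
  have e1 := hfp k x
  have e2 := hfp k y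
  have key : ((b : ℤ) + 1) * (zf w y - zf w x) - (b : ℤ) * (y - x) =
      f (y + k * L) - f (x + k * L) := by
    rw [e1, e2]
    simp only [hf]
    ring
  rw [key]
  have hx1 := hfb (x + k * L) hk1 hk2.le
  rcases le_or_gt (y + k * L) L with hy | hy
  · have hy1 := hfb (y + k * L) (by linarith) hy
    have := abs_sub (f (y + k * L)) (f (x + k * L))
    have hD : (0 : ℤ) ≤ ((b : ℤ) + 1) * D := by positivity
    linarith [abs_nonneg (f (y + k * L)), abs_nonneg (f (x + k * L))]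
  · have hLf := hfb L hLz.le le_rfl
    have hy1 := hfb (y + k * L - L) (by linarith) (by linarith)
    have e3 := hfp 1 (y + k * L - L)
    rw [one_mul, one_mul, sub_add_cancel] at e3
    rw [e3]
    have h1 := abs_sub (f (y + k * L - L) + f L) (f (x + k * L))
    have h2 := abs_add_le (f (y + k * L - L)) (f L)
    linarith

private lemma e3_rt (L : ℕ) : rt L ^ 8 ≤ L := by
  unfold rt
  have h1 := Nat.sqrt_le' L
  have h2 := Nat.sqrt_le' (Nat.sqrt L)
  have h3 := Nat.sqrt_le' (Nat.sqrt (Nat.sqrt L))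
  calc (Nat.sqrt (Nat.sqrt (Nat.sqrt L))) ^ 8
      = ((Nat.sqrt (Nat.sqrt (Nat.sqrt L)) ^ 2) ^ 2) ^ 2 := by ring
    _ ≤ ((Nat.sqrt (Nat.sqrt L)) ^ 2) ^ 2 := Nat.pow_le_pow_left (Nat.pow_le_pow_left h3 2) 2
    _ ≤ (Nat.sqrt L) ^ 2 := Nat.pow_le_pow_left h2 2
    _ ≤ L := h1

private lemma e3_rt_pos (L : ℕ) (hL : 0 < L) : 0 < rt L := by
  unfold rt
  rw [Nat.sqrt_pos, Nat.sqrt_pos, Nat.sqrt_pos]
  exact hL

private lemma e3_del (L : ℕ) (hL : 0 < L) : L ^ 7 ≤ (Del L + 1) ^ 8 := by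
  have h1 : L < (Del L + 1) * rt L := by
    unfold Del
    rw [mul_comm]
    exact Nat.lt_mul_div_succ L (e3_rt_pos L hL)
  have h2 : L ^ 8 ≤ (Del L + 1) ^ 8 * L := by
    calc L ^ 8 ≤ ((Del L + 1) * rt L) ^ 8 := Nat.pow_le_pow_left h1.le 8
      _ = (Del L + 1) ^ 8 * rt L ^ 8 := by rw [mul_pow]
      _ ≤ (Del L + 1) ^ 8 * L := Nat.mul_le_mul_left _ (e3_rt L)
  have h3 : L ^ 7 * L ≤ (Del L + 1) ^ 8 * L := by
    rw [← pow_succ]
    exact h2
  exact Nat.le_of_mul_le_mul_right h3 hL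

private lemma e3_del_real : ∀ᶠ L : ℕ in Filter.atTop,
    (L : ℝ) ^ ((3 : ℝ) / 4) / 3600 ≤ ((Del L : ℝ) / 3) ^ 2 / (100 * L) := by
  filter_upwards [Filter.eventually_ge_atTop 16] with L hL
  have hL0 : (0 : ℝ) < L := by
    have : 0 < L := by omega
    exact_mod_cast this
  have h1 : (L : ℝ) ^ 7 ≤ ((Del L : ℝ) + 1) ^ 8 := by
    exact_mod_cast e3_del L (by omega)
  have h2 : (L : ℝ) ^ ((7 : ℝ) / 8) ≤ (Del L : ℝ) + 1 := by
    have h3 : ((L : ℝ) ^ ((7 : ℝ) / 8)) ^ 8 = (L : ℝ) ^ 7 := by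
      rw [← Real.rpow_natCast, ← Real.rpow_mul hL0.le, ← Real.rpow_natCast]
      norm_num
    refine (pow_le_pow_iff_left₀ (by positivity) (by positivity) (show (8 : ℕ) ≠ 0 by norm_num)).mp ?_
    rw [h3]
    exact h1
  have h4 : (2 : ℝ) ≤ (L : ℝ) ^ ((7 : ℝ) / 8) := by
    have h5 : (16 : ℝ) ≤ L := by exact_mod_cast hL
    have h6 : (16 : ℝ) ^ ((1 : ℝ) / 4) = 2 := by
      rw [show (16 : ℝ) = 2 ^ (4 : ℝ) by norm_num, ← Real.rpow_mul (by norm_num)]
      norm_num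
    calc (2 : ℝ) = (16 : ℝ) ^ ((1 : ℝ) / 4) := h6.symm
      _ ≤ (L : ℝ) ^ ((1 : ℝ) / 4) := Real.rpow_le_rpow (by norm_num) h5 (by norm_num)
      _ ≤ (L : ℝ) ^ ((7 : ℝ) / 8) :=
          Real.rpow_le_rpow_of_exponent_le (by linarith) (by norm_num)
  have h7 : (L : ℝ) ^ ((7 : ℝ) / 8) / 2 ≤ (Del L : ℝ) := by linarith
  have h8 : ((L : ℝ) ^ ((7 : ℝ) / 8)) ^ 2 = (L : ℝ) ^ ((3 : ℝ) / 4) * L := by
    rw [← Real.rpow_natCast, ← Real.rpow_mul hL0.le]
    nth_rewrite 3 [← Real.rpow_one (L : ℝ)]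
    rw [← Real.rpow_add hL0]
    norm_num
  have h9 : ((L : ℝ) ^ ((7 : ℝ) / 8) / 2) ^ 2 ≤ (Del L : ℝ) ^ 2 :=
    pow_le_pow_left₀ (by positivity) h7 2
  rw [div_pow, h8] at h9
  rw [le_div_iff₀ (by positivity)]
  nlinarith

private lemma e3_exp : ∀ᶠ L : ℕ in Filter.atTop,
    2 * ((L : ℝ) + 1) * (L : ℝ) ^ 20 ≤ Real.exp ((L : ℝ) ^ ((3 : ℝ) / 4) / 3600) := by
  have h0 := (isLittleO_log_rpow_atTop (show (0 : ℝ) < 3 / 4 by norm_num)).bound
    (show (0 : ℝ) < 1 / (3600 * 22) by norm_num)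
  have h1 := (tendsto_natCast_atTop_atTop (R := ℝ)).eventually h0
  filter_upwards [h1, Filter.eventually_ge_atTop 3] with L hL hL3
  have hL3' : (3 : ℝ) ≤ L := by exact_mod_cast hL3
  have hL0 : (0 : ℝ) < L := by linarith
  rw [Real.norm_of_nonneg (Real.log_nonneg (by linarith)),
    Real.norm_of_nonneg (by positivity)] at hL
  have h2 : 22 * Real.log L ≤ (L : ℝ) ^ ((3 : ℝ) / 4) / 3600 := by
    linarith
  calc 2 * ((L : ℝ) + 1) * (L : ℝ) ^ 20 ≤ (L : ℝ) ^ 2 * (L : ℝ) ^ 20 := by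
        apply mul_le_mul_of_nonneg_right _ (by positivity)
        nlinarith
    _ = (L : ℝ) ^ 22 := by ring
    _ = Real.exp (22 * Real.log L) := by
        rw [mul_comm, Real.exp_mul, Real.exp_log hL0]
        norm_cast
    _ ≤ _ := Real.exp_le_exp.mpr h2

theorem E3 (b : ℕ) (hB : Fintype.card B = b) (hb : 2 ≤ b) : ∃ L0 : ℕ, ∀ L ≥ L0,
    ∀ S : Finset (ℤ → Option B), (∀ w ∈ S, Per w L ∧ ¬ Ty b w L (Del L)) →
      (S.card : ℝ) * (L : ℝ) ^ 20 ≤ ((b : ℝ) + 1) ^ L := by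
  classical
  have hev := (e3_del_real.and e3_exp).and (Filter.eventually_ge_atTop 1)
  obtain ⟨L0, hL0⟩ := Filter.eventually_atTop.mp hev
  refine ⟨L0, fun L hL S hS => ?_⟩
  obtain ⟨⟨h1, h2⟩, h3⟩ := hL0 L hL
  have hLpos : 0 < L := by omega
  have hLr : (0 : ℝ) < L := by exact_mod_cast hLpos
  set x : ℝ := (Del L : ℝ) / 3 with hx
  have hDel : Del L ≤ L := Nat.div_le_self _ _
  have hx0 : 0 ≤ x := by positivity
  have hxL : x ≤ L := by
    have : (Del L : ℝ) ≤ L := by exact_mod_cast hDel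
    rw [hx]
    have : (0 : ℝ) ≤ Del L := by positivity
    linarith
  set P : ℕ → (ℤ → Option B) → Prop := fun t w =>
    x < |(zf w (t : ℤ) : ℝ) - (b : ℝ) * t / ((b : ℝ) + 1)| with hP
  have hcov : S ⊆ (range (L + 1)).biUnion fun t => S.filter (P t) := by
    intro w hw
    obtain ⟨hper, hty⟩ := hS w hw
    by_contra hcon
    apply hty
    refine e3_ty hLpos hper fun t ht => ?_
    by_contra hlt
    apply hcon
    rw [mem_biUnion]
    exact ⟨t, by rw [mem_range]; omega, mem_filter.mpr ⟨hw, not_le.mp hlt⟩⟩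
  have hcard : (S.card : ℝ) ≤ ∑ t ∈ range (L + 1), ((S.filter (P t)).card : ℝ) := by
    have := (card_le_card hcov).trans card_biUnion_le
    exact_mod_cast this
  have hbound : ∀ t ∈ range (L + 1), ((S.filter (P t)).card : ℝ) ≤
      2 * ((b : ℝ) + 1) ^ L * Real.exp (-(x ^ 2 / (100 * L))) := by
    intro t ht
    rw [mem_range] at ht
    refine E3_chern hB (by omega) hLpos t (by omega) x hx0 hxL _ fun w hw => ?_
    rw [mem_filter] at hw
    exact ⟨(hS w hw.1).1, hw.2⟩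
  have hsum := hcard.trans (sum_le_sum hbound)
  rw [sum_const, card_range, nsmul_eq_mul] at hsum
  have hexp : Real.exp (-(x ^ 2 / (100 * L))) ≤ Real.exp (-((L : ℝ) ^ ((3 : ℝ) / 4) / 3600)) := by
    apply Real.exp_le_exp.mpr
    linarith
  have hA : 2 * ((L : ℝ) + 1) * (L : ℝ) ^ 20 *
      Real.exp (-((L : ℝ) ^ ((3 : ℝ) / 4) / 3600)) ≤ 1 := by
    rw [Real.exp_neg, ← div_eq_mul_inv, div_le_one (Real.exp_pos _)]
    exact h2
  have hbL : (0 : ℝ) ≤ ((b : ℝ) + 1) ^ L := by positivity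
  push_cast at hsum
  calc (S.card : ℝ) * (L : ℝ) ^ 20
      ≤ (((L : ℝ) + 1) * (2 * ((b : ℝ) + 1) ^ L * Real.exp (-(x ^ 2 / (100 * L))))) *
          (L : ℝ) ^ 20 := mul_le_mul_of_nonneg_right hsum (by positivity)
    _ ≤ (((L : ℝ) + 1) * (2 * ((b : ℝ) + 1) ^ L *
          Real.exp (-((L : ℝ) ^ ((3 : ℝ) / 4) / 3600)))) * (L : ℝ) ^ 20 := by
        gcongr
    _ = ((b : ℝ) + 1) ^ L * (2 * ((L : ℝ) + 1) * (L : ℝ) ^ 20 *
          Real.exp (-((L : ℝ) ^ ((3 : ℝ) / 4) / 3600))) := by ring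
    _ ≤ ((b : ℝ) + 1) ^ L * 1 := mul_le_mul_of_nonneg_left hA hbL
    _ = ((b : ℝ) + 1) ^ L := mul_one _

end GC85
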