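import Mathlib
import Pool.Agent.Helper85.DN.PDefs

/-!
# DN-E4: words with a given number of letters modulo `N0`

Choose the letters on `[0, L - N0)` arbitrarily, let `r` be the number of letters `≠ none` among them, and let the
last `N0` letters be a fixed letter `≠ none` on the first `k` of the last positions, `none` on the others, where
`0 ≤ k < N0`, `N0 ∣ r + k`. This gives an injection of `Fin (L - N0) → Option B` into the set in question.
-/

set_option autoImplicit false

namespace GC85

open Finset GC70

variable {B : Type} [Fintype B] [DecidableEq B]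

/-- the word with the letters `f` on `[0, n)`, `b0` on `[n, n + k)` and `none` on `[n + k, L)` -/
private def E4_word (L n k : ℕ) (b0 : B) (f : Fin n → Option B) (x : ℤ) : Option B :=
  if h : (x % (L : ℤ)).toNat < n then f ⟨(x % (L : ℤ)).toNat, h⟩
  else if (x % (L : ℤ)).toNat < n + k then some b0 else none

omit [Fintype B] [DecidableEq B] in
private theorem E4_per (L n k : ℕ) (b0 : B) (f : Fin n → Option B) : Per (E4_word L n k b0 f) L := by
  intro x
  unfold E4_word
  simp only [Int.add_emod_right]

omit [Fintype B] [DecidableEq B] in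
private theorem E4_val (L n k : ℕ) (b0 : B) (f : Fin n → Option B) (j : ℕ) (hj : j < L) :
    E4_word L n k b0 f (j : ℤ) =
      if h : j < n then f ⟨j, h⟩ else if j < n + k then some b0 else none := by
  have h1 : ((j : ℤ) % (L : ℤ)).toNat = j := by
    rw [Int.emod_eq_of_lt (by positivity) (by exact_mod_cast hj)]
    simp
  unfold E4_word
  simp only [h1]

omit [Fintype B] [DecidableEq B] in
private theorem E4_card (L n k : ℕ) (b0 : B) (f : Fin n → Option B) (hL : n + k ≤ L) :
    (sk (E4_word L n k b0 f) L).card =
      ((univ : Finset (Fin n)).filter (fun j => (f j).isSome)).card + k := by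
  have h1 : sk (E4_word L n k b0 f) L =
      ((univ : Finset (Fin n)).filter (fun j => (f j).isSome)).image (fun j : Fin n => (j : ℕ)) ∪
        Ico n (n + k) := by
    ext j
    simp only [sk, mem_filter, mem_range, mem_union, mem_image, mem_univ, true_and, mem_Ico]
    constructor
    · rintro ⟨hj, h⟩
      rw [E4_val L n k b0 f j hj] at h
      by_cases h1 : j < n
      · rw [dif_pos h1] at h
        exact Or.inl ⟨⟨j, h1⟩, h, rfl⟩
      · rw [dif_neg h1] at h
        by_cases h2 : j < n + k
        · exact Or.inr ⟨by omega, h2⟩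
        · rw [if_neg h2] at h
          simp at h
    · rintro (⟨⟨i, hi⟩, h, rfl⟩ | ⟨h1, h2⟩)
      · have hj : i < L := by omega
        refine ⟨hj, ?_⟩
        simp only
        rw [E4_val L n k b0 f i hj, dif_pos hi]
        exact h
      · have hj : j < L := by omega
        refine ⟨hj, ?_⟩
        rw [E4_val L n k b0 f j hj, dif_neg (by omega), if_pos h2]
        rfl
  rw [h1, card_union_of_disjoint, card_image_of_injective _ Fin.val_injective, Nat.card_Ico,
    Nat.add_sub_cancel_left]
  rw [disjoint_left]
  intro j hj hj'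
  obtain ⟨i, _, rfl⟩ := mem_image.1 hj
  have := i.2
  rw [mem_Ico] at hj'
  omega

theorem E4 {b N0 L : ℕ} (hB : Fintype.card B = b) (hb : 1 ≤ b) (hN0 : 0 < N0) (hL : N0 ≤ L) :
    ∃ S : Finset (ℤ → Option B), (∀ w ∈ S, Per w L ∧ N0 ∣ (sk w L).card) ∧
      (b + 1) ^ L ≤ (b + 1) ^ N0 * S.card := by
  classical
  obtain ⟨b0⟩ : Nonempty B := Fintype.card_pos_iff.1 (by omega)
  set n : ℕ := L - N0 with hn
  -- the number of additional letters
  let r : (Fin n → Option B) → ℕ := fun f => (univ.filter (fun j => (f j).isSome)).card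
  let kk : (Fin n → Option B) → ℕ := fun f => (N0 - r f % N0) % N0
  have hk : ∀ f, kk f < N0 := fun f => Nat.mod_lt _ hN0
  have hdvd : ∀ f, N0 ∣ r f + kk f := by
    intro f
    have h1 : r f % N0 < N0 := Nat.mod_lt _ hN0
    rw [Nat.dvd_iff_mod_eq_zero]
    show (r f + (N0 - r f % N0) % N0) % N0 = 0
    rw [Nat.add_mod, Nat.mod_mod, ← Nat.add_mod]
    have h2 : r f + (N0 - r f % N0) = N0 * (r f / N0 + 1) := by
      have := Nat.div_add_mod (r f) N0
      have e : N0 * (r f / N0 + 1) = N0 * (r f / N0) + N0 := by ring
      omega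
    rw [h2]
    exact Nat.mul_mod_right _ _
  refine ⟨univ.image (fun f : Fin n → Option B => E4_word L n (kk f) b0 f), ?_, ?_⟩
  · intro w hw
    obtain ⟨f, _, rfl⟩ := mem_image.1 hw
    refine ⟨E4_per _ _ _ _ _, ?_⟩
    rw [E4_card L n (kk f) b0 f (by have := hk f; omega)]
    exact hdvd f
  · have hinj : Function.Injective (fun f : Fin n → Option B => E4_word L n (kk f) b0 f) := by
      intro f f' e
      funext j
      have hj : (j : ℕ) < L := by have := j.2; omega
      have h1 := congrFun e ((j : ℕ) : ℤ)
      simp only at h1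
      rw [E4_val L n (kk f) b0 f j hj, E4_val L n (kk f') b0 f' j hj, dif_pos j.2, dif_pos j.2] at h1
      exact h1
    rw [card_image_of_injective _ hinj, card_univ, Fintype.card_fun, Fintype.card_option,
      Fintype.card_fin, hB, ← pow_add]
    apply Nat.pow_le_pow_right (by omega)
    omega

end GC85
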