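import Mathlib
import Pool.Agent.Helper85.DN.E3
import Pool.Agent.Helper85.DN.E4
import Pool.Agent.Helper85.DN.SupT

/-!
# DN-GoodB: the number of all words of the types in `Tys`

`∑_{s ∈ Tys} Nt b L s ≥ (E4) - (E3) ≥ (b + 1) ^ (L - N0) / 2`: the set of `E4` has at least `(b + 1) ^ (L - N0)` elements; at most
`(b + 1) ^ L / L ^ 20` are not typical (`E3`); a typical word `w` with `N0 ∣ (sk w L).card` has
`(sk w L).card ∈ Tys b N0 L` (`Ty` for `x = 0`, `y = L`; `zf w L = (sk w L).card`, `zf w 0 = 0`), and `card_type` for each type.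
-/

set_option autoImplicit false

namespace GC85

open Finset GC70

variable {B : Type} [Fintype B] [DecidableEq B]

theorem nt_sum (b N0 : ℕ) (hB : Fintype.card B = b) (hb : 2 ≤ b) (hN0 : 0 < N0) :
    ∃ L0 : ℕ, ∀ L ≥ L0, (b + 1) ^ L ≤ 2 * (b + 1) ^ N0 * ∑ s ∈ Tys b N0 L, Nt b L s := by
  classical
  obtain ⟨L1, hE3⟩ := E3 (B := B) b hB hb
  refine ⟨L1 + N0 + 2 * (b + 1) ^ N0 + 1, fun L hL => ?_⟩
  have hpow : 0 < (b + 1) ^ N0 := by positivity
  obtain ⟨S, hS1, hS2⟩ := E4 (B := B) hB (by omega) hN0 (show N0 ≤ L by omega)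
  set T := S.filter (fun w => Ty b w L (Del L)) with hT
  set U := S.filter (fun w => ¬ Ty b w L (Del L)) with hU
  have hTU : T.card + U.card = S.card := Finset.card_filter_add_card_filter_not _
  -- the words which are not typical
  have hUcard : U.card * L ^ 20 ≤ (b + 1) ^ L := by
    have h1 := hE3 L (by omega) U (fun w hw => by
      rw [hU, Finset.mem_filter] at hw
      exact ⟨(hS1 w hw.1).1, hw.2⟩)
    exact_mod_cast h1
  have hU2 : 2 * (b + 1) ^ N0 * U.card ≤ (b + 1) ^ L := by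
    have h1 : 2 * (b + 1) ^ N0 ≤ L ^ 20 := by
      calc 2 * (b + 1) ^ N0 ≤ L := by omega
        _ = L ^ 1 := (pow_one L).symm
        _ ≤ L ^ 20 := Nat.pow_le_pow_right (by omega) (by norm_num)
    calc 2 * (b + 1) ^ N0 * U.card ≤ L ^ 20 * U.card := Nat.mul_le_mul_right _ h1
      _ = U.card * L ^ 20 := Nat.mul_comm _ _
      _ ≤ (b + 1) ^ L := hUcard
  -- the typical words
  have hTcard : T.card ≤ ∑ s ∈ Tys b N0 L, Nt b L s := by
    have hmaps : ∀ w ∈ T, (sk w L).card ∈ Tys b N0 L := by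
      intro w hw
      rw [hT, Finset.mem_filter] at hw
      obtain ⟨hwS, hwT⟩ := hw
      have hsk : ((sk w L).card : ℤ) = zf w L := (zf_nat w L).symm
      have h1 := hwT 0 L (by positivity) (by simp)
      rw [zf_zero, sub_zero, sub_zero, ← hsk] at h1
      unfold Tys
      rw [Finset.mem_filter, Finset.mem_range]
      refine ⟨?_, (hS1 w hwS).2, h1⟩
      have h2 : (sk w L).card ≤ (range L).card := Finset.card_filter_le _ _
      rw [Finset.card_range] at h2
      omega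
    rw [Finset.card_eq_sum_card_fiberwise hmaps]
    refine Finset.sum_le_sum fun s _ => ?_
    refine card_type hB (by omega) _ ?_
    intro w hw
    rw [Finset.mem_filter, hT, Finset.mem_filter] at hw
    exact ⟨(hS1 w hw.1.1).1, hw.2⟩
  have h3 : 2 * (b + 1) ^ L ≤ 2 * (b + 1) ^ N0 * T.card + (b + 1) ^ L := by
    calc 2 * (b + 1) ^ L ≤ 2 * ((b + 1) ^ N0 * S.card) := Nat.mul_le_mul_left _ hS2
      _ = 2 * (b + 1) ^ N0 * T.card + 2 * (b + 1) ^ N0 * U.card := by
        rw [← hTU]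
        ring
      _ ≤ 2 * (b + 1) ^ N0 * T.card + (b + 1) ^ L := Nat.add_le_add_left hU2 _
  have h4 : 2 * (b + 1) ^ N0 * T.card ≤ 2 * (b + 1) ^ N0 * ∑ s ∈ Tys b N0 L, Nt b L s :=
    Nat.mul_le_mul_left _ hTcard
  omega

end GC85
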