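import Mathlib
import Pool.Agent.Helper85.DN.PDefs

/-!
# DN-Par: the numerical hypotheses hold for large `b` and large `L`

`NP_of`: take `b0` such that `b0 ≥ 2 ^ 60`, `16 ^ (10 ^ 14) ≤ b0 + 1` (do NOT let the system evaluate this number: obtain `b0` from
an abstract statement such as `∃ n, K ^ k ≤ n` with variables `K, k`), and `b0 ≥ 10 ^ 15`. `ε = yy L / 10 ≥ L / 10 ^ 14` for large `L`, so
`16 ^ L ≤ (16 ^ (10 ^ 14)) ^ ε ≤ (b + 1) ^ ε`. `mL`: `(m ^ L) ^ b = (m ^ b) ^ L ≤ (b + 1) ^ ((b + 1) L) ≤ ((b + 1) ^ (L + ε)) ^ b` as `L ≤ b ε`.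
`m2`: `GC70.m_lt_two`. `zer`: `s ∈ Tys` gives `(b + 1) s ≥ b L - (b + 1) Del L`, so `L - s ≤ L / (b + 1) + Del L + 1 ≤ ε`
(`Del L ≤ L / rt L`, `rt L → ∞`).

`Tys_zeros`: `L ≤ 2 (b + 1) (L - s)`: `L - s ≥ L / (b + 1) - Del L`.
-/

set_option autoImplicit false

namespace GC85

open Finset GC70

private lemma Par_rt {k L : ℕ} (h : k ^ 8 ≤ L) : k ≤ rt L := by
  unfold rt
  rw [Nat.le_sqrt, Nat.le_sqrt, Nat.le_sqrt]
  calc k * k * (k * k) * (k * k * (k * k)) = k ^ 8 := by ring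
    _ ≤ L := h

private lemma Par_Del {k L : ℕ} (hk : 0 < k) (h : k ^ 8 ≤ L) : k * Del L ≤ L := by
  have h1 : Del L ≤ L / k := Nat.div_le_div_left (Par_rt h) hk
  calc k * Del L ≤ k * (L / k) := Nat.mul_le_mul_left k h1
    _ ≤ L := Nat.mul_div_le L k

private lemma Par_Tys {b N0 L s : ℕ} (h : s ∈ Tys b N0 L) :
    s ≤ L ∧ (b + 1) * L ≤ (b + 1) * s + L + (b + 1) * Del L ∧
      (b + 1) * s ≤ b * L + (b + 1) * Del L := by
  unfold Tys at h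
  rw [mem_filter, mem_range] at h
  obtain ⟨h1, _, h3⟩ := h
  rw [abs_le] at h3
  obtain ⟨h4, h5⟩ := h3
  refine ⟨by omega, ?_, ?_⟩
  · zify
    linarith
  · zify
    linarith

private lemma Par_eps {L : ℕ} (hL : 10 ^ 19 ≤ L) : L ≤ 10 ^ 14 * (yy L / 10) := by
  have e : yy L = L / 2000000000000 := by
    unfold yy
    norm_num
  rw [e]
  norm_num at hL ⊢
  omega

private lemma Par_yy {L : ℕ} : 2 * 10 ^ 12 * yy L ≤ L ∧ L ≤ 2 * 10 ^ 12 * (yy L + 1) := by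
  have e : yy L = L / 2000000000000 := by
    unfold yy
    norm_num
  rw [e]
  norm_num
  constructor
  · omega
  · omega

private lemma Par_yge {L : ℕ} (hL : 10 ^ 19 ≤ L) : 10 ^ 6 ≤ yy L := by
  have e : yy L = L / 2000000000000 := by
    unfold yy
    norm_num
  rw [e]
  norm_num at hL ⊢
  omega

private lemma Par_zer {b L s D ε : ℕ} (hb : 2 ^ 60 ≤ b) (h1 : (b + 1) * L ≤ (b + 1) * s + L + (b + 1) * D)
    (h2 : 10 ^ 15 * D ≤ L) (h3 : L ≤ 10 ^ 14 * ε) : L ≤ s + ε := by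
  have h1' : ((b : ℝ) + 1) * L ≤ ((b : ℝ) + 1) * s + L + ((b : ℝ) + 1) * D := by exact_mod_cast h1
  have h2' : (10 : ℝ) ^ 15 * D ≤ L := by exact_mod_cast h2
  have h3' : (L : ℝ) ≤ 10 ^ 14 * ε := by exact_mod_cast h3
  have hb' : (2 : ℝ) ^ 60 ≤ b := by exact_mod_cast hb
  have hL : (0 : ℝ) ≤ L := by positivity
  have hb1 : (0 : ℝ) < (b : ℝ) + 1 := by positivity
  have h4 : (L : ℝ) / (b + 1) ≤ L / 10 ^ 15 := by
    apply div_le_div_of_nonneg_left hL (by norm_num)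
    have h9 : (10 : ℝ) ^ 15 ≤ 2 ^ 60 := by norm_num
    linarith
  have h5 : (L : ℝ) ≤ s + L / (b + 1) + D := by
    have h6 : ((b : ℝ) + 1) * L ≤ ((b : ℝ) + 1) * (s + L / (b + 1) + D) := by
      have h7 : ((b : ℝ) + 1) * (s + L / (b + 1) + D) =
          ((b : ℝ) + 1) * s + L + ((b : ℝ) + 1) * D := by
        field_simp
      rw [h7]
      exact h1'
    exact le_of_mul_le_mul_left h6 hb1
  have h8 : (L : ℝ) ≤ s + ε := by
    norm_num at h2' h3' h4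
    linarith
  exact_mod_cast h8

private lemma Par_mL {b m L ε : ℕ} (hb : 0 < b) (hm : m ^ b < (b + 1) ^ (b + 1)) (h : L ≤ b * ε) :
    m ^ L ≤ (b + 1) ^ (L + ε) := by
  have h1 : (m ^ L) ^ b ≤ ((b + 1) ^ (L + ε)) ^ b := by
    calc (m ^ L) ^ b = (m ^ b) ^ L := by rw [← pow_mul, ← pow_mul, mul_comm]
      _ ≤ ((b + 1) ^ (b + 1)) ^ L := Nat.pow_le_pow_left hm.le L
      _ = (b + 1) ^ ((b + 1) * L) := by rw [← pow_mul]
      _ ≤ (b + 1) ^ ((L + ε) * b) := by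
          apply Nat.pow_le_pow_right (by omega)
          nlinarith
      _ = ((b + 1) ^ (L + ε)) ^ b := by rw [← pow_mul]
  exact (Nat.pow_le_pow_iff_left (by omega)).1 h1

private lemma Par_pw {b K L ε : ℕ} (hK : 16 ^ K ≤ b + 1) (h : L ≤ K * ε) :
    16 ^ L ≤ (b + 1) ^ ε := by
  calc 16 ^ L ≤ 16 ^ (K * ε) := Nat.pow_le_pow_right (by norm_num) h
    _ = (16 ^ K) ^ ε := by rw [← pow_mul]
    _ ≤ (b + 1) ^ ε := Nat.pow_le_pow_left hK ε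

private lemma Par_NP (K : ℕ) (hK : 10 ^ 14 ≤ K) {b m : ℕ} (hb : 2 ^ 60 ≤ b) (hbK : 16 ^ K ≤ b + 1)
    (hm1 : b + 1 ≤ m) (hc : Nat.Coprime m (b + 1)) (hm : m ^ b < (b + 1) ^ (b + 1)) :
    ∃ L0 : ℕ, ∀ L ≥ L0, ∀ N0, ∀ s ∈ Tys b N0 L, NP b m L s (yy L) (yy L / 10) := by
  refine ⟨(10 ^ 15) ^ 8, fun L hL N0 s hs => ?_⟩
  have hL' : 10 ^ 19 ≤ L := le_trans (by norm_num) hL
  obtain ⟨t1, t2, _⟩ := Par_Tys hs
  have hD : 10 ^ 15 * Del L ≤ L := Par_Del (by norm_num) hL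
  have he := Par_eps hL'
  have hy := Par_yge hL'
  have hb14 : 10 ^ 14 ≤ b := le_trans (by norm_num) hb
  have hb0 : 0 < b := by
    norm_num at hb14
    omega
  exact
    { b1 := hb
      dm := hm1
      m2 := (GC70.m_lt_two b m hm).le
      cop := hc
      hm := hm
      Lge := Par_yy.1
      Lle := Par_yy.2
      yge := hy
      eps := Nat.mul_div_le _ _
      eps1 := by
        norm_num at hy
        omega
      pw := Par_pw hbK (he.trans (Nat.mul_le_mul_right _ hK))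
      mL := Par_mL hb0 hm (he.trans (Nat.mul_le_mul_right _ hb14))
      sL := t1
      zer := Par_zer hb t2 hD he }

theorem NP_of : ∃ b0 : ℕ, ∀ b ≥ b0, ∀ m : ℕ, b + 1 ≤ m → Nat.Coprime m (b + 1) →
    m ^ b < (b + 1) ^ (b + 1) → ∃ L0 : ℕ, ∀ L ≥ L0, ∀ N0, ∀ s ∈ Tys b N0 L,
      NP b m L s (yy L) (yy L / 10) := by
  obtain ⟨K, hK⟩ : ∃ K : ℕ, 10 ^ 14 ≤ K := ⟨10 ^ 14, le_rfl⟩
  refine ⟨max (2 ^ 60) (16 ^ K), fun b hb m hm1 hc hm => ?_⟩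
  exact Par_NP K hK ((le_max_left _ _).trans hb)
    (((le_max_right _ _).trans hb).trans (Nat.le_succ b)) hm1 hc hm

theorem Tys_zeros (b N0 : ℕ) : ∃ L0 : ℕ, ∀ L ≥ L0, ∀ s ∈ Tys b N0 L,
    s ≤ L ∧ L ≤ 2 * (b + 1) * (L - s) := by
  refine ⟨(2 * (b + 1)) ^ 8, fun L hL s hs => ?_⟩
  obtain ⟨t1, _, t3⟩ := Par_Tys hs
  have hD := Par_Del (by omega) hL
  refine ⟨t1, ?_⟩
  zify [t1]
  zify at t3 hD
  nlinarith

end GC85
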