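import Mathlib
import Pool.Agent.Helper85.DN.PDefs

/-!
# DN-ParD: the moduli

`DP_of`: `le2`: `(b + 1) s ≤ b L + (b + 1) Del L`, so `m ^ ((b + 1) s) ≤ (m ^ b) ^ L m ^ ((b + 1) Del L)` and
`m ^ b ≤ (b + 1) ^ (b + 1) - 1`; for large `L`, `2 ^ (b + 1) m ^ ((b + 1) Del L) (1 - (b + 1) ^ (-(b + 1))) ^ L ≤ 1`
since `Del L / L → 0` (`Del L = L / rt L`, `rt L → ∞`). `ge`: `D1 D ≥ (b + 1) ^ L / 2`, `2 D1 ≤ 2 b ≤ (b + 1) ^ 2`. `dvd` from `D1 ∣ ..` (`hE2`).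
`prm` from `hE2`. `1 ≤ s` for large `L` from `s ∈ Tys`; `N0 ∣ s` too.
-/

set_option autoImplicit false

namespace GC85

open Finset GC70

private theorem ParD_exists (A K : ℕ) (hA : 2 ≤ A) : ∃ r : ℕ, (A - 1) ^ r * K ≤ A ^ r := by
  have hA1 : (0 : ℝ) < (A : ℝ) - 1 := by
    have : (2 : ℝ) ≤ A := by exact_mod_cast hA
    linarith
  have h1 : (1 : ℝ) < (A : ℝ) / ((A : ℝ) - 1) := by
    rw [lt_div_iff₀ hA1]
    linarith
  obtain ⟨r, hr⟩ := pow_unbounded_of_one_lt (K : ℝ) h1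
  refine ⟨r, ?_⟩
  rw [div_pow, lt_div_iff₀ (by positivity)] at hr
  have h2 : ((A - 1 : ℕ) : ℝ) = (A : ℝ) - 1 := by
    rw [Nat.cast_sub (by omega)]
    simp
  have h3 : (((A - 1) ^ r * K : ℕ) : ℝ) ≤ ((A ^ r : ℕ) : ℝ) := by
    push_cast
    rw [h2]
    linarith
  exact_mod_cast h3

private theorem ParD_rt {L r : ℕ} (h : r ^ 8 ≤ L) : r ≤ rt L := by
  unfold rt
  rw [Nat.le_sqrt, Nat.le_sqrt, Nat.le_sqrt]
  have e : r * r * (r * r) * (r * r * (r * r)) = r ^ 8 := by ring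
  rw [e]
  exact h

private theorem ParD_rt_le (L : ℕ) : rt L ≤ L := by
  unfold rt
  exact (Nat.sqrt_le_self _).trans ((Nat.sqrt_le_self _).trans (Nat.sqrt_le_self _))

private theorem ParD_main {A C K r0 r L : ℕ} (hr0 : (A - 1) ^ r0 * (C * K) ≤ A ^ r0)
    (hr : r0 ≤ r) (hr1 : 1 ≤ r) (hrL : r ≤ L) (hK : 1 ≤ K) :
    K * ((A - 1) ^ L * C ^ (L / r)) ≤ A ^ L := by
  set δ := L / r with hδ
  have hδ1 : 1 ≤ δ := (Nat.one_le_div_iff (by omega)).2 hrL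
  have hδr : r0 * δ ≤ L := by
    calc r0 * δ ≤ r * δ := Nat.mul_le_mul_right _ hr
      _ ≤ L := Nat.mul_div_le L r
  obtain ⟨t, ht⟩ := Nat.exists_eq_add_of_le hδr
  have hKδ : K ≤ K ^ δ := by
    calc K = K ^ 1 := (pow_one K).symm
      _ ≤ K ^ δ := Nat.pow_le_pow_right hK hδ1
  calc K * ((A - 1) ^ L * C ^ δ) ≤ K ^ δ * ((A - 1) ^ L * C ^ δ) := Nat.mul_le_mul_right _ hKδ
    _ = ((A - 1) ^ r0 * (C * K)) ^ δ * (A - 1) ^ t := by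
        rw [ht, pow_add, pow_mul, mul_pow, mul_pow]
        ring
    _ ≤ (A ^ r0) ^ δ * A ^ t := by
        apply Nat.mul_le_mul (Nat.pow_le_pow_left hr0 _)
        exact Nat.pow_le_pow_left (Nat.sub_le _ _) _
    _ = A ^ L := by rw [← pow_mul, ← pow_add, ← ht]

theorem DP_of (b m D1 N0 M0 : ℕ) (hb : 1 ≤ b) (hm : b + 1 ≤ m) (hc : Nat.Coprime m (b + 1))
    (hmb : m ^ b < (b + 1) ^ (b + 1)) (hM : 17 ≤ M0) (hD1 : 0 < D1) (hD1b : D1 ∣ b)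
    (hE2 : ∀ L s : ℕ, L % N0 = 1 % N0 → 1 ≤ L → N0 ∣ s → 1 ≤ s → m ^ s ≤ (b + 1) ^ L →
        D1 ∣ (b + 1) ^ L - m ^ s ∧ ∀ p : ℕ, p.Prime → p ∣ DD b m D1 L s → M0 ≤ p) :
    ∃ L0 : ℕ, ∀ L ≥ L0, L % N0 = 1 % N0 → ∀ s ∈ Tys b N0 L,
      1 ≤ s ∧ D1 ∣ (b + 1) ^ L - m ^ s ∧ DP b m L s M0 (DD b m D1 L s) := by
  have hA2 : 2 ≤ (b + 1) ^ (b + 1) := by
    calc 2 = 2 ^ 1 := rfl
      _ ≤ (b + 1) ^ 1 := Nat.pow_le_pow_left (by omega) 1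
      _ ≤ (b + 1) ^ (b + 1) := Nat.pow_le_pow_right (by omega) (by omega)
  obtain ⟨r0, hr0⟩ := ParD_exists ((b + 1) ^ (b + 1)) (m ^ (b + 1) * 2 ^ (b + 1)) hA2
  refine ⟨(max r0 3) ^ 8, ?_⟩
  intro L hL hLN s hs
  have hrt : max r0 3 ≤ rt L := ParD_rt hL
  have hr0' : r0 ≤ rt L := (le_max_left _ _).trans hrt
  have hr3 : 3 ≤ rt L := (le_max_right _ _).trans hrt
  have hrL : rt L ≤ L := ParD_rt_le L
  have hL1 : 1 ≤ L := by omega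
  unfold Tys at hs
  rw [Finset.mem_filter, Finset.mem_range] at hs
  obtain ⟨hsL, hNs, habs⟩ := hs
  rw [abs_le] at habs
  obtain ⟨hlo, hhi⟩ := habs
  have hδ3 : 3 * Del L ≤ L := by
    calc 3 * Del L ≤ rt L * Del L := Nat.mul_le_mul_right _ hr3
      _ ≤ L := Nat.mul_div_le L (rt L)
  -- `1 ≤ s`
  have hs1 : 1 ≤ s := by
    by_contra hcon
    have hs0 : s = 0 := by omega
    rw [hs0] at hlo
    have h1 : (b : ℤ) * L ≤ ((b : ℤ) + 1) * Del L := by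
      push_cast at hlo
      linarith
    have h2 : b * L ≤ (b + 1) * Del L := by exact_mod_cast h1
    have h3 : 3 * (b * L) ≤ (b + 1) * L := by
      calc 3 * (b * L) ≤ 3 * ((b + 1) * Del L) := Nat.mul_le_mul_left _ h2
        _ = (b + 1) * (3 * Del L) := by ring
        _ ≤ (b + 1) * L := Nat.mul_le_mul_left _ hδ3
    nlinarith
  -- the upper bound for `s`
  have hup : (b + 1) * s ≤ b * L + (b + 1) * Del L := by
    have h1 : ((b : ℤ) + 1) * s ≤ b * L + ((b : ℤ) + 1) * Del L := by linarith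
    exact_mod_cast h1
  have hm1 : 1 ≤ m := by omega
  have hle2 : 2 * m ^ s ≤ (b + 1) ^ L := by
    have h1 : (2 * m ^ s) ^ (b + 1) ≤ ((b + 1) ^ L) ^ (b + 1) := by
      calc (2 * m ^ s) ^ (b + 1) = 2 ^ (b + 1) * m ^ ((b + 1) * s) := by
            rw [mul_pow, ← pow_mul, mul_comm s]
        _ ≤ 2 ^ (b + 1) * m ^ (b * L + (b + 1) * Del L) :=
            Nat.mul_le_mul_left _ (Nat.pow_le_pow_right hm1 hup)
        _ = 2 ^ (b + 1) * ((m ^ b) ^ L * (m ^ (b + 1)) ^ (L / rt L)) := by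
            rw [pow_add m (b * L) ((b + 1) * Del L), pow_mul m b L, pow_mul m (b + 1) (Del L)]
            rfl
        _ ≤ 2 ^ (b + 1) * (((b + 1) ^ (b + 1) - 1) ^ L * (m ^ (b + 1)) ^ (L / rt L)) := by
            apply Nat.mul_le_mul_left
            apply Nat.mul_le_mul_right
            exact Nat.pow_le_pow_left (by omega) _
        _ ≤ ((b + 1) ^ (b + 1)) ^ L :=
            ParD_main hr0 hr0' (by omega) hrL (Nat.one_le_two_pow)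
        _ = ((b + 1) ^ L) ^ (b + 1) := by rw [← pow_mul, ← pow_mul, mul_comm]
    exact (Nat.pow_le_pow_iff_left (by omega)).1 h1
  have hle : m ^ s ≤ (b + 1) ^ L := by omega
  obtain ⟨hdvd, hprm⟩ := hE2 L s hLN hL1 hNs hs1 hle
  have hDD : DD b m D1 L s * D1 = (b + 1) ^ L - m ^ s := Nat.div_mul_cancel hdvd
  refine ⟨hs1, hdvd, ⟨hM, ⟨D1, hDD.symm⟩, hle2, ?_, hprm⟩⟩
  have hD1le : D1 ≤ b := Nat.le_of_dvd (by omega) hD1b
  have h2 : 2 * D1 ≤ (b + 1) ^ 2 := by nlinarith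
  calc (b + 1) ^ L ≤ 2 * ((b + 1) ^ L - m ^ s) := by omega
    _ = DD b m D1 L s * (2 * D1) := by rw [← hDD]; ring
    _ ≤ DD b m D1 L s * (b + 1) ^ 2 := Nat.mul_le_mul_left _ h2

end GC85
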