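import Mathlib
import Pool.Agent.Helper85.DN.Defs

/-!
# DN-TL1: skeletons whose coefficient sum is divisible by `g`

`TL_one`: let `W = [0, q)`. Two sets `N, N2` of the family with `N \ W = N2 \ W` have the same number of elements in
`W` (both have `s` elements), and `TN d m N = m ^ r (∑_{j ∈ N ∩ W} d ^ j m ^ (#{t ∈ N ∩ W | j < t})) + (terms of N \ W)`,
`r = (N \ W).card`, the terms of `N \ W` are the same. So the two inner sums are equal modulo `g` (`m` is a unit) and
less than `g` (at most `q * m ^ (q - 1)`), so equal, and then `N ∩ W = N2 ∩ W`: look at the smallest element of the symmetric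
difference, modulo the next power of `d` (`GC70.key` in `Helper70/GC/Key.lean` may help). So the number of the
`N` is at most the number of the possible sets `N \ W ⊆ [q, L)`, i.e. (complements, `u = L - s`) at most
`∑_{j ≤ u} (L - q).choose (u - j) ≤ (u + 1) (L - q).choose u` because `2 u ≤ L - q`; and
`(L - q).choose u * L ^ u ≤ L.choose u * (L - q) ^ u`.
-/

set_option autoImplicit false

namespace GC85

open Finset GC70

private lemma TL1_split (d m q : ℕ) (N : Finset ℕ) :
    TN d m N = m ^ (N.filter (fun j => ¬ j < q)).card * TN d m (N.filter (fun j => j < q)) +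
      TN d m (N.filter (fun j => ¬ j < q)) := by
  unfold TN
  rw [← sum_filter_add_sum_filter_not N (fun j => j < q), mul_sum]
  congr 1
  · apply sum_congr rfl
    intro j hj
    rw [mem_filter] at hj
    unfold wt
    have h1 : N.filter (fun t => j < t) = (N.filter (fun t => ¬ t < q)) ∪
        ((N.filter (fun t => t < q)).filter (fun t => j < t)) := by
      ext t
      simp only [mem_filter, mem_union]
      constructor
      · rintro ⟨h1, h2⟩
        by_cases h3 : t < q
        · right; exact ⟨⟨h1, h3⟩, h2⟩
        · left; exact ⟨h1, h3⟩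
      · rintro (⟨h1, h2⟩ | ⟨⟨h1, h2⟩, h3⟩)
        · exact ⟨h1, by omega⟩
        · exact ⟨h1, h3⟩
    have h2 : Disjoint (N.filter (fun t => ¬ t < q))
        ((N.filter (fun t => t < q)).filter (fun t => j < t)) := by
      rw [disjoint_left]
      intro t ht ht'
      rw [mem_filter] at ht ht'
      rw [mem_filter] at ht'
      exact ht.2 ht'.1.2
    rw [h1, card_union_of_disjoint h2, pow_add]
    ring
  · apply sum_congr rfl
    intro j hj
    rw [mem_filter] at hj
    unfold wt
    have h1 : N.filter (fun t => j < t) =
        (N.filter (fun t => ¬ t < q)).filter (fun t => j < t) := by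
      ext t
      simp only [mem_filter]
      constructor
      · rintro ⟨h1, h2⟩
        exact ⟨⟨h1, by omega⟩, h2⟩
      · rintro ⟨⟨h1, _⟩, h3⟩
        exact ⟨h1, h3⟩
    rw [h1]

private lemma TL1_bound {d m q : ℕ} (hdm : d ≤ m) (hm : 1 ≤ m) (A : Finset ℕ)
    (hA : ∀ j ∈ A, j < q) : TN d m A ≤ q * m ^ q := by
  unfold TN
  have hcard : A.card ≤ q := by
    have : A ⊆ range q := fun j hj => mem_range.mpr (hA j hj)
    simpa using card_le_card this
  calc ∑ j ∈ A, wt d m A j ≤ ∑ j ∈ A, m ^ q := by
        apply sum_le_sum
        intro j hj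
        have hj' := hA j hj
        unfold wt
        have h1 : (A.filter (fun t => j < t)).card ≤ q - j - 1 := by
          have : A.filter (fun t => j < t) ⊆ Ioo j q := by
            intro t ht
            rw [mem_filter] at ht
            rw [mem_Ioo]
            exact ⟨ht.2, hA t ht.1⟩
          simpa using card_le_card this
        calc d ^ j * m ^ (A.filter (fun t => j < t)).card
            ≤ m ^ j * m ^ (A.filter (fun t => j < t)).card :=
              Nat.mul_le_mul_right _ (Nat.pow_le_pow_left hdm _)
          _ = m ^ (j + (A.filter (fun t => j < t)).card) := (pow_add _ _ _).symm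
          _ ≤ m ^ q := Nat.pow_le_pow_right hm (by omega)
    _ = A.card * m ^ q := by rw [sum_const, smul_eq_mul]
    _ ≤ q * m ^ q := Nat.mul_le_mul_right _ hcard

private lemma TL1_erase (d m : ℕ) (A : Finset ℕ) (a : ℕ) (ha : a ∈ A) (hmin : ∀ y ∈ A, a ≤ y) :
    TN d m A = d ^ a * m ^ (A.card - 1) + TN d m (A.erase a) := by
  unfold TN
  rw [← add_sum_erase A _ ha]
  congr 1
  · unfold wt
    have h1 : A.filter (fun t => a < t) = A.erase a := by
      ext t
      rw [mem_filter, mem_erase]
      constructor
      · rintro ⟨h1, h2⟩
        exact ⟨by omega, h1⟩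
      · rintro ⟨h1, h2⟩
        have := hmin t h2
        exact ⟨h2, by omega⟩
    rw [h1, card_erase_of_mem ha]
  · apply sum_congr rfl
    intro j hj
    rw [mem_erase] at hj
    have hj2 := hmin j hj.2
    unfold wt
    have h1 : A.filter (fun t => j < t) = (A.erase a).filter (fun t => j < t) := by
      ext t
      rw [mem_filter, mem_filter, mem_erase]
      constructor
      · rintro ⟨h1, h2⟩
        exact ⟨⟨by omega, h1⟩, h2⟩
      · rintro ⟨⟨_, h1⟩, h2⟩
        exact ⟨h1, h2⟩
    rw [h1]

private lemma TL1_inj {d m : ℕ} (hd : 2 ≤ d) (hc : Nat.Coprime m d) :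
    ∀ n : ℕ, ∀ A A' : Finset ℕ, A.card = n → A'.card = n → TN d m A = TN d m A' → A = A' := by
  intro n
  induction n with
  | zero =>
    intro A A' h1 h2 _
    rw [card_eq_zero] at h1 h2
    rw [h1, h2]
  | succ n ih =>
    intro A A' h1 h2 heq
    have hne : A.Nonempty := by
      rw [← card_pos]; omega
    have hne' : A'.Nonempty := by
      rw [← card_pos]; omega
    set a := A.min' hne with ha
    set a' := A'.min' hne' with ha'
    have hmem : a ∈ A := min'_mem _ _
    have hmem' : a' ∈ A' := min'_mem _ _
    have hmin : ∀ y ∈ A, a ≤ y := fun y hy => min'_le _ _ hy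
    have hmin' : ∀ y ∈ A', a' ≤ y := fun y hy => min'_le _ _ hy
    rcases lt_trichotomy a a' with hlt | hEq | hgt
    · exfalso
      refine key d m hd hc A A' (fun j => j) (fun j => (A.filter (fun t => j < t)).card)
        (fun j => j) (fun j => (A'.filter (fun t => j < t)).card) a hmem ?_ ?_ heq
      · intro y hy hya
        have := hmin y hy
        show a < y
        omega
      · intro y hy
        have := hmin' y hy
        show a < y
        omega
    · rw [TL1_erase d m A a hmem hmin, TL1_erase d m A' a' hmem' hmin', h1, h2, ← hEq] at heq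
      have h3 := Nat.add_left_cancel heq
      rw [← hEq] at hmem'
      have h4 := ih (A.erase a) (A'.erase a) (by rw [card_erase_of_mem hmem]; omega)
        (by rw [card_erase_of_mem hmem']; omega) h3
      rw [← insert_erase hmem, ← insert_erase hmem', h4]
    · exfalso
      refine key d m hd hc A' A (fun j => j) (fun j => (A'.filter (fun t => j < t)).card)
        (fun j => j) (fun j => (A.filter (fun t => j < t)).card) a' hmem' ?_ ?_ heq.symm
      · intro y hy hya
        have := hmin' y hy
        show a' < y
        omega
      · intro y hy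
        have := hmin y hy
        show a' < y
        omega

private lemma TL1_desc (n L u : ℕ) (hnL : n ≤ L) :
    n.descFactorial u * L ^ u ≤ L.descFactorial u * n ^ u := by
  induction u with
  | zero => simp
  | succ u ih =>
    rw [Nat.descFactorial_succ, Nat.descFactorial_succ, pow_succ, pow_succ]
    have h1 : (n - u) * L ≤ (L - u) * n := by
      rw [Nat.sub_mul, Nat.sub_mul]
      have h2 : u * n ≤ u * L := Nat.mul_le_mul_left _ hnL
      have h3 : n * L = L * n := Nat.mul_comm _ _
      omega
    calc (n - u) * n.descFactorial u * (L ^ u * L)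
        = ((n - u) * L) * (n.descFactorial u * L ^ u) := by ring
      _ ≤ ((L - u) * n) * (L.descFactorial u * n ^ u) := Nat.mul_le_mul h1 ih
      _ = (L - u) * L.descFactorial u * (n ^ u * n) := by ring

private lemma TL1_choose (n L u : ℕ) (hnL : n ≤ L) :
    n.choose u * L ^ u ≤ L.choose u * n ^ u := by
  have h := TL1_desc n L u hnL
  rw [Nat.descFactorial_eq_factorial_mul_choose, Nat.descFactorial_eq_factorial_mul_choose,
    mul_assoc, mul_assoc] at h
  exact Nat.le_of_mul_le_mul_left h (Nat.factorial_pos u)

private lemma TL1_mono (n u v : ℕ) (hvu : v ≤ u) (hu : 2 * u ≤ n) :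
    n.choose v ≤ n.choose u := by
  induction u with
  | zero =>
    have : v = 0 := by omega
    rw [this]
  | succ u ih =>
    rcases Nat.lt_or_ge v (u + 1) with h | h
    · refine (ih (by omega) (by omega)).trans ?_
      exact Nat.choose_le_succ_of_lt_half_left (by omega)
    · have : v = u + 1 := by omega
      rw [this]

theorem TL_one {d m g L s q : ℕ} (hd : 2 ≤ d) (hdm : d ≤ m) (hc : Nat.Coprime m d)
    (hgm : Nat.Coprime m g) (hq : q * m ^ q < g) (hqL : q ≤ L) (hs : s ≤ L)
    (hu : 2 * (L - s) ≤ L - q) (S : Finset (Finset ℕ))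
    (hS : ∀ N ∈ S, N ⊆ range L ∧ N.card = s ∧ g ∣ TN d m N) :
    S.card * L ^ (L - s) ≤ (L - s + 1) * L.choose (L - s) * (L - q) ^ (L - s) := by
  have _ := hs
  set u := L - s with hudef
  have key1 : S.card ≤ ((range (u + 1)).biUnion
      (fun v => powersetCard v (Ico q L))).card := by
    apply card_le_card_of_injOn (fun N => Ico q L \ N)
    · intro N hN
      rw [mem_coe] at hN
      obtain ⟨h1, h2, _⟩ := hS N hN
      rw [mem_coe, mem_biUnion]
      refine ⟨(Ico q L \ N).card, ?_, ?_⟩
      · rw [mem_range]
        have h3 : Ico q L \ N ⊆ range L \ N := by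
          intro t ht
          rw [mem_sdiff, mem_Ico] at ht
          rw [mem_sdiff, mem_range]
          exact ⟨ht.1.2, ht.2⟩
        have h4 := card_le_card h3
        rw [card_sdiff_of_subset h1, card_range, h2] at h4
        omega
      · rw [mem_powersetCard]
        exact ⟨sdiff_subset, rfl⟩
    · intro N hN N2 hN2 heq
      rw [mem_coe] at hN hN2
      obtain ⟨a1, a2, a3⟩ := hS N hN
      obtain ⟨b1, b2, b3⟩ := hS N2 hN2
      have hH : N.filter (fun j => ¬ j < q) = N2.filter (fun j => ¬ j < q) := by
        ext t
        have h1 : t ∈ Ico q L \ N ↔ t ∈ Ico q L \ N2 := by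
          have : (fun N => Ico q L \ N) N = (fun N => Ico q L \ N) N2 := heq
          simp only at this
          rw [this]
        rw [mem_sdiff, mem_sdiff, mem_Ico] at h1
        rw [mem_filter, mem_filter]
        constructor
        · rintro ⟨h2, h3⟩
          refine ⟨?_, h3⟩
          have h4 := mem_range.mp (a1 h2)
          by_contra h5
          exact (h1.mpr ⟨⟨by omega, h4⟩, h5⟩).2 h2
        · rintro ⟨h2, h3⟩
          refine ⟨?_, h3⟩
          have h4 := mem_range.mp (b1 h2)
          by_contra h5
          exact (h1.mp ⟨⟨by omega, h4⟩, h5⟩).2 h2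
      have hcN := card_filter_add_card_filter_not (s := N) (fun j => j < q)
      have hcN2 := card_filter_add_card_filter_not (s := N2) (fun j => j < q)
      have hcard : (N.filter (fun j => j < q)).card = (N2.filter (fun j => j < q)).card := by
        rw [hH] at hcN
        omega
      have hT : TN d m (N.filter (fun j => j < q)) = TN d m (N2.filter (fun j => j < q)) := by
        rw [TL1_split d m q N, hH] at a3
        rw [TL1_split d m q N2] at b3
        have hm1 : 1 ≤ m := by omega
        have hb1 := TL1_bound hdm hm1 (N.filter (fun j => j < q))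
          (fun j hj => (mem_filter.mp hj).2)
        have hb2 := TL1_bound hdm hm1 (N2.filter (fun j => j < q))
          (fun j hj => (mem_filter.mp hj).2)
        have h1 : (m ^ (N2.filter (fun j => ¬ j < q)).card * TN d m (N.filter (fun j => j < q)) +
            TN d m (N2.filter (fun j => ¬ j < q))) ≡
            (m ^ (N2.filter (fun j => ¬ j < q)).card * TN d m (N2.filter (fun j => j < q)) +
            TN d m (N2.filter (fun j => ¬ j < q))) [MOD g] :=
          (Nat.modEq_zero_iff_dvd.mpr a3).trans (Nat.modEq_zero_iff_dvd.mpr b3).symm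
        have h2 := Nat.ModEq.add_right_cancel' _ h1
        have hcop : Nat.gcd g (m ^ (N2.filter (fun j => ¬ j < q)).card) = 1 :=
          Nat.Coprime.pow_right _ hgm.symm
        have h3 := Nat.ModEq.cancel_left_of_coprime hcop h2
        exact Nat.ModEq.eq_of_lt_of_lt h3 (by omega) (by omega)
      have hW := TL1_inj hd hc _ _ _ rfl hcard.symm hT
      rw [← filter_union_filter_not_eq (fun j => j < q) N,
        ← filter_union_filter_not_eq (fun j => j < q) N2, hW, hH]
  have key2 : ((range (u + 1)).biUnion (fun v => powersetCard v (Ico q L))).card ≤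
      (u + 1) * (L - q).choose u := by
    refine card_biUnion_le.trans ?_
    calc ∑ v ∈ range (u + 1), (powersetCard v (Ico q L)).card
        ≤ ∑ v ∈ range (u + 1), (L - q).choose u := by
          apply sum_le_sum
          intro v hv
          rw [mem_range] at hv
          rw [card_powersetCard, Nat.card_Ico]
          exact TL1_mono _ _ _ (by omega) hu
      _ = (u + 1) * (L - q).choose u := by rw [sum_const, card_range, smul_eq_mul]
  have key3 := TL1_choose (L - q) L u (by omega)
  have _ := hqL
  calc S.card * L ^ u ≤ ((u + 1) * (L - q).choose u) * L ^ u :=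
        Nat.mul_le_mul_right _ (key1.trans key2)
    _ = (u + 1) * ((L - q).choose u * L ^ u) := by ring
    _ ≤ (u + 1) * (L.choose u * (L - q) ^ u) := Nat.mul_le_mul_left _ key3
    _ = (u + 1) * L.choose u * (L - q) ^ u := by ring

end GC85
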