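import Mathlib
import Pool.Agent.Helper85.DN.TL1
import Pool.Agent.Helper85.DN.PDefs
import Pool.Agent.Helper94.Abc.Basic

/-!
# DN-TL: for most skeletons the sum of the coefficients has a small common divisor with `D`

`TL`: the number of the bad `N` is at most the sum over the divisors `g` of `D` with `g > (b + 1) ^ y` of the bound of `TL_one`,
with `q = y / 2`: `q m ^ q < (b + 1) ^ y` (`m ≤ 2 (b + 1)`). `(1 - q / L) ^ u ≤ exp (- q u / L)`, `q / L ≥ 10 ^ (-13)`,
`u = L - s ≥ L / (2 (b + 1))`; `D.divisors.card ≤ C D ^ η` (`Helper94.Abc.divisor_bound`) with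
`η log (b + 1) = 1 / (10 ^ 14 (b + 1))`, `D ≤ (b + 1) ^ L`.
-/

set_option autoImplicit false

namespace GC85

open Finset GC70

private lemma TL_ev (C c : ℝ) (hC : 0 < C) (hc : 0 < c) : ∃ L0 : ℕ, ∀ L : ℕ, L0 ≤ L →
    C * ((L : ℝ) * ((L : ℝ) + 1)) * Real.exp (-(c * L)) ≤ 1 := by
  have h1 := Real.tendsto_pow_mul_exp_neg_atTop_nhds_zero 2
  have h2 : Filter.Tendsto (fun L : ℕ => c * (L : ℝ)) Filter.atTop Filter.atTop :=
    Filter.Tendsto.const_mul_atTop hc tendsto_natCast_atTop_atTop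
  have h3 := h1.comp h2
  have hpos : 0 < c ^ 2 / (2 * C) := by positivity
  have h4 := h3.eventually (ge_mem_nhds hpos)
  obtain ⟨L0, hL0⟩ := Filter.eventually_atTop.mp h4
  refine ⟨max L0 1, ?_⟩
  intro L hL
  have hL1 : (1 : ℝ) ≤ L := by exact_mod_cast le_trans (le_max_right _ _) hL
  have h5 := hL0 L (le_trans (le_max_left _ _) hL)
  simp only [Function.comp] at h5
  have h6 : (c * (L : ℝ)) ^ 2 * Real.exp (-(c * L)) ≤ c ^ 2 / (2 * C) := h5
  have hexp : 0 < Real.exp (-(c * L)) := Real.exp_pos _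
  have h7 : (L : ℝ) * ((L : ℝ) + 1) ≤ 2 * (L : ℝ) ^ 2 := by nlinarith
  have h8 : C * ((L : ℝ) * ((L : ℝ) + 1)) * Real.exp (-(c * L)) ≤
      C * (2 * (L : ℝ) ^ 2) * Real.exp (-(c * L)) := by
    apply mul_le_mul_of_nonneg_right _ hexp.le
    exact mul_le_mul_of_nonneg_left h7 hC.le
  refine h8.trans ?_
  have h9 : C * (2 * (L : ℝ) ^ 2) * Real.exp (-(c * L)) =
      (2 * C / c ^ 2) * ((c * (L : ℝ)) ^ 2 * Real.exp (-(c * L))) := by
    field_simp
  rw [h9]
  calc (2 * C / c ^ 2) * ((c * (L : ℝ)) ^ 2 * Real.exp (-(c * L))) ≤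
        (2 * C / c ^ 2) * (c ^ 2 / (2 * C)) := mul_le_mul_of_nonneg_left h6 (by positivity)
    _ = 1 := by field_simp

private lemma TL_part {b m L s y ε M0 D g : ℕ} (P : NP b m L s y ε) (Q : DP b m L s M0 D)
    (hgD : g ∣ D) (hg : (b + 1) ^ y < g) (hu : L ≤ 2 * (b + 1) * (L - s))
    (S : Finset (Finset ℕ)) (hS : ∀ N ∈ S, N ⊆ range L ∧ N.card = s ∧ g ∣ TN (b + 1) m N) :
    (S.card : ℝ) ≤ ((L : ℝ) + 1) * (L.choose s : ℝ) * Real.exp (-(L / (10 ^ 13 * ((b : ℝ) + 1)))) := by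
  have hy := P.yge
  have hLge := P.Lge
  have hLle := P.Lle
  have hb := P.b1
  have hsL := P.sL
  have hzer := P.zer
  have heps := P.eps
  set q := y / 2 with hq
  have hqy : 2 * q ≤ y := by omega
  have hqL : q ≤ L := by omega
  have hmq : q * m ^ q < g := by
    have h1 : m ^ q ≤ (2 * (b + 1)) ^ q := Nat.pow_le_pow_left P.m2 q
    have h2 : q ≤ 2 ^ q := Nat.lt_two_pow_self.le
    have h3 : 2 ^ q * 2 ^ q ≤ (b + 1) ^ q := by
      rw [← mul_pow]
      exact Nat.pow_le_pow_left (by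
        have : 2 ^ 60 ≤ b := hb
        norm_num at this ⊢
        omega) q
    calc q * m ^ q ≤ 2 ^ q * (2 * (b + 1)) ^ q := Nat.mul_le_mul h2 h1
      _ = (2 ^ q * 2 ^ q) * (b + 1) ^ q := by rw [mul_pow]; ring
      _ ≤ (b + 1) ^ q * (b + 1) ^ q := Nat.mul_le_mul_right _ h3
      _ = (b + 1) ^ (2 * q) := by rw [← pow_add]; congr 1; ring
      _ ≤ (b + 1) ^ y := Nat.pow_le_pow_right (by omega) hqy
      _ < g := hg
  have hcop := DP.cop P Q hgD
  have hone := TL_one (d := b + 1) (m := m) (g := g) (L := L) (s := s) (q := q) (by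
      have : 2 ^ 60 ≤ b := hb
      norm_num at this
      omega) P.dm P.cop hcop.2 hmq hqL hsL (by omega) S hS
  have hL0 : (0 : ℝ) < L := by
    have : 0 < L := by omega
    exact_mod_cast this
  have hLq : ((L - q : ℕ) : ℝ) = (L : ℝ) - q := by
    rw [Nat.cast_sub hqL]
  have hone' : (S.card : ℝ) * (L : ℝ) ^ (L - s) ≤
      (((L - s : ℕ) : ℝ) + 1) * (L.choose (L - s) : ℝ) * ((L : ℝ) - q) ^ (L - s) := by
    rw [← hLq]
    exact_mod_cast hone
  have hratio : ((L : ℝ) - q) ≤ L * Real.exp (-(q / L)) := by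
    have h1 := Real.add_one_le_exp (-((q : ℝ) / L))
    have h2 : ((L : ℝ) - q) = L * (-((q : ℝ) / L) + 1) := by
      field_simp
      ring
    rw [h2]
    exact mul_le_mul_of_nonneg_left h1 hL0.le
  have hLq0 : 0 ≤ ((L : ℝ) - q) := by
    have : (q : ℝ) ≤ L := by exact_mod_cast hqL
    linarith
  have hpow : ((L : ℝ) - q) ^ (L - s) ≤ (L : ℝ) ^ (L - s) * Real.exp (-(q / L)) ^ (L - s) := by
    rw [← mul_pow]
    exact pow_le_pow_left₀ hLq0 hratio _
  have hchoose : L.choose (L - s) = L.choose s := Nat.choose_symm hsL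
  have hexp : Real.exp (-((q : ℝ) / L)) ^ (L - s) ≤ Real.exp (-(L / (10 ^ 13 * ((b : ℝ) + 1)))) := by
    rw [← Real.exp_nat_mul]
    apply Real.exp_le_exp.mpr
    have hu' : (L : ℝ) ≤ 2 * ((b : ℝ) + 1) * ((L - s : ℕ) : ℝ) := by exact_mod_cast hu
    have hq1 : (y : ℝ) ≤ 2 * q + 1 := by
      have : y ≤ 2 * q + 1 := by omega
      exact_mod_cast this
    have hL2 : (L : ℝ) ≤ 2 * 10 ^ 12 * ((y : ℝ) + 1) := by exact_mod_cast hLle
    have hy' : (10 : ℝ) ^ 6 ≤ y := by exact_mod_cast hy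
    have hqL' : (L : ℝ) ≤ 5 * 10 ^ 12 * q := by nlinarith
    have hb0 : (0 : ℝ) < (b : ℝ) + 1 := by positivity
    have hu0 : (0 : ℝ) ≤ ((L - s : ℕ) : ℝ) := by positivity
    have h1 : (L : ℝ) / (10 ^ 13 * ((b : ℝ) + 1)) ≤ ((L - s : ℕ) : ℝ) * ((q : ℝ) / L) := by
      rw [div_le_iff₀ (by positivity)]
      have h2 : ((L - s : ℕ) : ℝ) * ((q : ℝ) / L) * (10 ^ 13 * ((b : ℝ) + 1)) =
          (2 * ((b : ℝ) + 1) * ((L - s : ℕ) : ℝ)) * ((5 * 10 ^ 12 * q) / L) := by
        field_simp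
        ring
      rw [h2]
      have h3 : (1 : ℝ) ≤ (5 * 10 ^ 12 * q) / L := by
        rw [le_div_iff₀ hL0]
        linarith
      calc (L : ℝ) = L * 1 := by ring
        _ ≤ _ := mul_le_mul hu' h3 (by norm_num) (by positivity)
    linarith
  have hLpow : (0 : ℝ) < (L : ℝ) ^ (L - s) := by positivity
  have hfin : (S.card : ℝ) * (L : ℝ) ^ (L - s) ≤
      (((L : ℝ) + 1) * (L.choose s : ℝ) * Real.exp (-(L / (10 ^ 13 * ((b : ℝ) + 1))))) * (L : ℝ) ^ (L - s) := by
    calc (S.card : ℝ) * (L : ℝ) ^ (L - s) ≤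
          (((L - s : ℕ) : ℝ) + 1) * (L.choose (L - s) : ℝ) * ((L : ℝ) - q) ^ (L - s) := hone'
      _ ≤ (((L - s : ℕ) : ℝ) + 1) * (L.choose (L - s) : ℝ) *
          ((L : ℝ) ^ (L - s) * Real.exp (-(L / (10 ^ 13 * ((b : ℝ) + 1))))) := by
          apply mul_le_mul_of_nonneg_left _ (by positivity)
          exact hpow.trans (mul_le_mul_of_nonneg_left hexp hLpow.le)
      _ ≤ ((L : ℝ) + 1) * (L.choose s : ℝ) *
          ((L : ℝ) ^ (L - s) * Real.exp (-(L / (10 ^ 13 * ((b : ℝ) + 1))))) := by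
          rw [hchoose]
          apply mul_le_mul_of_nonneg_right _ (by positivity)
          apply mul_le_mul_of_nonneg_right _ (by positivity)
          have : ((L - s : ℕ) : ℝ) ≤ L := by exact_mod_cast Nat.sub_le L s
          linarith
      _ = _ := by ring
  exact le_of_mul_le_mul_right hfin hLpow

theorem TL (b m : ℕ) : ∃ L0 : ℕ, ∀ L ≥ L0, ∀ s y ε M0 D : ℕ,
    NP b m L s y ε → DP b m L s M0 D → L ≤ 2 * (b + 1) * (L - s) →
    ∀ S : Finset (Finset ℕ), (∀ N ∈ S, N ⊆ range L ∧ N.card = s ∧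
      (b + 1) ^ y < Nat.gcd (TN (b + 1) m N) D) → S.card * L ≤ L.choose s := by
  by_cases hb : 2 ^ 60 ≤ b
  swap
  · refine ⟨0, ?_⟩
    intro L _ s y ε M0 D P
    exact absurd P.b1 hb
  have hb1 : (1 : ℝ) < (b : ℝ) + 1 := by
    have : 2 ^ 60 ≤ b := hb
    have h1 : 1 ≤ b := by
      norm_num at this
      omega
    have h2 : (1 : ℝ) ≤ b := by exact_mod_cast h1
    linarith
  have hlog : 0 < Real.log ((b : ℝ) + 1) := Real.log_pos hb1
  have hb0 : (0 : ℝ) < (b : ℝ) + 1 := by linarith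
  set η : ℝ := 1 / (10 ^ 14 * ((b : ℝ) + 1) * Real.log ((b : ℝ) + 1)) with hη
  have hη0 : 0 < η := by positivity
  obtain ⟨C, hC1, hC⟩ := Pool.Agent.Helper94.Abc.divisor_bound hη0
  set c : ℝ := 9 / (10 ^ 14 * ((b : ℝ) + 1)) with hc
  have hc0 : 0 < c := by positivity
  obtain ⟨L0, hL0⟩ := TL_ev C c (by linarith) hc0
  refine ⟨L0, ?_⟩
  intro L hL s y ε M0 D P Q hu S hS
  have hev := hL0 L hL
  have hDpos : 0 < D := by
    by_contra h
    have h' : D = 0 := by omega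
    have hge := Q.ge
    rw [h', zero_mul] at hge
    have : 0 < (b + 1) ^ L := by positivity
    omega
  have hDle : D ≤ (b + 1) ^ L := by
    have h1 := Q.le2
    have h3 : 0 < m ^ s := by
      apply Nat.pow_pos
      have := P.dm
      omega
    have h2 : D ≤ (b + 1) ^ L - m ^ s := Nat.le_of_dvd (by omega) Q.dvd
    omega
  have hdiv : (D.divisors.card : ℝ) ≤ C * Real.exp (L / (10 ^ 14 * ((b : ℝ) + 1))) := by
    refine (hC D hDpos.ne').trans ?_
    apply mul_le_mul_of_nonneg_left _ (by linarith)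
    have h1 : (D : ℝ) ≤ ((b : ℝ) + 1) ^ L := by exact_mod_cast hDle
    calc (D : ℝ) ^ η ≤ (((b : ℝ) + 1) ^ L) ^ η := Real.rpow_le_rpow (by positivity) h1 hη0.le
      _ = Real.exp (L / (10 ^ 14 * ((b : ℝ) + 1))) := by
          rw [Real.rpow_def_of_pos (by positivity), Real.log_pow, hη]
          congr 1
          field_simp
  -- splitting
  have hsub : S ⊆ (D.divisors.filter (fun g => (b + 1) ^ y < g)).biUnion
      (fun g => S.filter (fun N => g ∣ TN (b + 1) m N)) := by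
    intro N hN
    have h := hS N hN
    rw [mem_biUnion]
    refine ⟨Nat.gcd (TN (b + 1) m N) D, ?_, ?_⟩
    · rw [mem_filter, Nat.mem_divisors]
      exact ⟨⟨Nat.gcd_dvd_right _ _, hDpos.ne'⟩, h.2.2⟩
    · rw [mem_filter]
      exact ⟨hN, Nat.gcd_dvd_left _ _⟩
  set E : ℝ := ((L : ℝ) + 1) * (L.choose s : ℝ) * Real.exp (-(L / (10 ^ 13 * ((b : ℝ) + 1)))) with hE
  have hE0 : 0 ≤ E := by positivity
  have hcard : (S.card : ℝ) ≤ (D.divisors.card : ℝ) * E := by
    have h1 := (card_le_card hsub).trans card_biUnion_le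
    have h2 : (S.card : ℝ) ≤ ∑ g ∈ D.divisors.filter (fun g => (b + 1) ^ y < g),
        ((S.filter (fun N => g ∣ TN (b + 1) m N)).card : ℝ) := by exact_mod_cast h1
    refine h2.trans ?_
    have h3 : ∑ g ∈ D.divisors.filter (fun g => (b + 1) ^ y < g),
        ((S.filter (fun N => g ∣ TN (b + 1) m N)).card : ℝ) ≤
        ∑ g ∈ D.divisors.filter (fun g => (b + 1) ^ y < g), E := by
      apply sum_le_sum
      intro g hg
      rw [mem_filter, Nat.mem_divisors] at hg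
      apply TL_part P Q hg.1.1 hg.2 hu
      intro N hN
      rw [mem_filter] at hN
      have h := hS N hN.1
      exact ⟨h.1, h.2.1, hN.2⟩
    refine h3.trans ?_
    rw [sum_const, nsmul_eq_mul]
    apply mul_le_mul_of_nonneg_right _ hE0
    exact_mod_cast card_filter_le _ _
  have hfin : (S.card : ℝ) * L ≤ (L.choose s : ℝ) := by
    have hLnn : (0 : ℝ) ≤ L := by positivity
    calc (S.card : ℝ) * L ≤ ((D.divisors.card : ℝ) * E) * L := mul_le_mul_of_nonneg_right hcard hLnn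
      _ ≤ ((C * Real.exp (L / (10 ^ 14 * ((b : ℝ) + 1)))) * E) * L := by
          apply mul_le_mul_of_nonneg_right _ hLnn
          exact mul_le_mul_of_nonneg_right hdiv hE0
      _ = (C * ((L : ℝ) * ((L : ℝ) + 1)) * (Real.exp (L / (10 ^ 14 * ((b : ℝ) + 1))) *
            Real.exp (-(L / (10 ^ 13 * ((b : ℝ) + 1)))))) * (L.choose s : ℝ) := by
          rw [hE]
          ring
      _ = (C * ((L : ℝ) * ((L : ℝ) + 1)) * Real.exp (-(c * L))) * (L.choose s : ℝ) := by
          rw [← Real.exp_add]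
          congr 3
          rw [hc]
          field_simp
          ring
      _ ≤ 1 * (L.choose s : ℝ) := mul_le_mul_of_nonneg_right hev (by positivity)
      _ = _ := one_mul _
  exact_mod_cast hfin

end GC85
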