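import Mathlib
import Pool.Agent.Helper85.DN.GoodA
import Pool.Agent.Helper85.DN.GoodB
import Pool.Agent.Helper85.DN.E2
import Pool.Agent.Helper85.DN.E5
import Pool.Agent.Helper85.DN.TL
import Pool.Agent.Helper85.DN.Par
import Pool.Agent.Helper85.DN.ParD

/-!
# DN-Good: the number of the good words

For `s ∈ Tys b N0 L`: `Nt b L s ≤ D1 ^ D1 * (As s).card` (`As_count`; `N0 ∣ s`).
`As s \ Wr s` consists of words which are not typical, not primitive (`E5`: at most `3 Nt / M0 ≤ Nt / (8 D1 ^ D1)`), or have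
`gcd (TN (sk w L)) D > (b + 1) ^ (yy L)` (`TL` for the
skeletons, times at most `b ^ s` words for each skeleton: `Nt / L` words; `Tys_zeros`). Sum over `s`; for the not typical words use `E3`
(for all `s` together): at most `(b + 1) ^ L / L ^ 20 ≤ 2 (b + 1) ^ N0 (∑ Nt) / L ^ 20` (`nt_sum`). For large `L` the total loss is at
most `(1/8 + 1/16 + 1/16) (∑ Nt) / D1 ^ D1`, so `4 D1 ^ D1 ∑ (Wr).card ≥ ∑ Nt`.
-/

set_option autoImplicit false

namespace GC85

open Finset GC70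

variable {B : Type} [Fintype B] [DecidableEq B]

private theorem Good_sk {b L : ℕ} (hB : Fintype.card B = b) (hb : 2 ≤ b) (hL : 0 < L)
    (N : Finset ℕ) (S : Finset (ℤ → Option B)) (hS : ∀ w ∈ S, Per w L ∧ sk w L = N) :
    S.card ≤ b ^ N.card := by
  classical
  obtain ⟨b0⟩ : Nonempty B := Fintype.card_pos_iff.1 (by omega)
  have h1 : (S.image (res b0 N)).card = S.card := by
    apply card_image_of_injOn
    intro w hw w' hw' h
    exact res_inj' b0 L hL N w w' (hS w hw).1 (hS w' hw').1 (hS w hw).2 (hS w' hw').2 h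
  rw [← h1]
  refine (card_le_univ _).trans (le_of_eq ?_)
  rw [Fintype.card_fun, Fintype.card_coe, hB]

private theorem Good_Z {b L s : ℕ} (hB : Fintype.card B = b) (hb : 2 ≤ b) (hL : 0 < L)
    (Z : Finset (ℤ → Option B)) (hZ : ∀ w ∈ Z, Per w L ∧ (sk w L).card = s) :
    Z.card ≤ b ^ s * (Z.image (fun w => sk w L)).card := by
  classical
  apply card_le_mul_card_image
  intro N hN
  obtain ⟨w0, hw0, rfl⟩ := mem_image.1 hN
  have h1 := Good_sk hB hb hL (sk w0 L) (filter (fun w => sk w L = sk w0 L) Z)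
    (fun w hw => ⟨(hZ w (mem_filter.1 hw).1).1, (mem_filter.1 hw).2⟩)
  rwa [(hZ w0 hw0).2] at h1

/-- the words of `As` which are not typical -/
private noncomputable def Good_X (B : Type) [Fintype B] [DecidableEq B] (b m D1 L s : ℕ)
    (ρ : B → ZMod D1) : Finset (ℤ → Option B) := by
  classical
  exact (As B b m D1 L s ρ).filter (fun w => ¬ Ty b w L (Del L))

private theorem Good_one {b m D1 M0 L s K D : ℕ} (hB : Fintype.card B = b) (hb : 2 ≤ b)
    (hL : 0 < L) (ρ : B → ZMod D1) (hD : D = DD b m D1 L s)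
    (hY : ∀ S : Finset (ℤ → Option B), (∀ w ∈ S, Wd w L s ∧ ¬ Prim (b + 1) m D L w) →
      (S.card : ℝ) * M0 ≤ 3 * (Nt b L s))
    (hT : ∀ S : Finset (Finset ℕ), (∀ N ∈ S, N ⊆ range L ∧ N.card = s ∧
      (b + 1) ^ (yy L) < Nat.gcd (TN (b + 1) m N) D) → S.card * L ≤ L.choose s)
    (hA : Nt b L s ≤ K * (As B b m D1 L s ρ).card) (hM0 : 24 * K ≤ M0) (hLK : 16 * K ≤ L) :
    13 * Nt b L s ≤ 16 * K * (Wr B b m D1 L s ρ).card + 16 * K * (Good_X B b m D1 L s ρ).card := by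
  classical
  set Y := (As B b m D1 L s ρ).filter (fun w => ¬ Prim (b + 1) m D L w) with hYd
  set Z := (As B b m D1 L s ρ).filter
    (fun w => (b + 1) ^ (yy L) < Nat.gcd (TN (b + 1) m (sk w L)) D) with hZd
  have hmA : ∀ w, w ∈ As B b m D1 L s ρ → Per w L ∧ Wd w L s ∧
      ∑ i, (V (b + 1) m w L i : ZMod D1) * ρ i = 0 := by
    intro w hw
    unfold As at hw
    obtain ⟨h1, h2, h3⟩ := mem_filter.1 hw
    exact ⟨(mem_PW hL w).1 h1, h2, h3⟩
  have hsub : As B b m D1 L s ρ ⊆ ((Wr B b m D1 L s ρ ∪ Good_X B b m D1 L s ρ) ∪ Y) ∪ Z := by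
    intro w hw
    obtain ⟨h1, h2, h3⟩ := hmA w hw
    by_cases hz : (b + 1) ^ (yy L) < Nat.gcd (TN (b + 1) m (sk w L)) D
    · exact mem_union_right _ (mem_filter.2 ⟨hw, hz⟩)
    apply mem_union_left
    by_cases hy : Prim (b + 1) m D L w
    · apply mem_union_left
      by_cases hx : Ty b w L (Del L)
      · apply mem_union_left
        unfold Wr W0
        rw [mem_filter, mem_filter]
        rw [← hD]
        exact ⟨⟨(mem_PW hL w).2 h1, h2, hx, hy, not_lt.1 hz⟩, h3⟩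
      · apply mem_union_right
        unfold Good_X
        exact mem_filter.2 ⟨hw, hx⟩
    · exact mem_union_right _ (mem_filter.2 ⟨hw, hy⟩)
  have hc : (As B b m D1 L s ρ).card ≤ (Wr B b m D1 L s ρ).card +
      (Good_X B b m D1 L s ρ).card + Y.card + Z.card := by
    refine (card_le_card hsub).trans ((card_union_le _ _).trans ?_)
    refine Nat.add_le_add_right ((card_union_le _ _).trans ?_) _
    exact Nat.add_le_add_right (card_union_le _ _) _
  have hY1 : 8 * K * Y.card ≤ Nt b L s := by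
    have h1 := hY Y (fun w hw => ⟨(hmA w (mem_filter.1 hw).1).2.1, (mem_filter.1 hw).2⟩)
    have h2 : Y.card * M0 ≤ 3 * Nt b L s := by exact_mod_cast h1
    have h3 : Y.card * (24 * K) ≤ 3 * Nt b L s := (Nat.mul_le_mul_left _ hM0).trans h2
    have h4 : Y.card * (24 * K) = 3 * (8 * K * Y.card) := by ring
    omega
  have hZ1 : 16 * K * Z.card ≤ Nt b L s := by
    have h1 := Good_Z hB hb hL Z (s := s)
      (fun w hw => ⟨(hmA w (mem_filter.1 hw).1).1, (hmA w (mem_filter.1 hw).1).2.1.cnt⟩)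
    have h2 := hT (Z.image (fun w => sk w L)) (by
      intro N hN
      obtain ⟨w, hw, rfl⟩ := mem_image.1 hN
      exact ⟨filter_subset _ _, (hmA w (mem_filter.1 hw).1).2.1.cnt, (mem_filter.1 hw).2⟩)
    calc 16 * K * Z.card ≤ L * (b ^ s * (Z.image (fun w => sk w L)).card) :=
          Nat.mul_le_mul hLK h1
      _ = b ^ s * ((Z.image (fun w => sk w L)).card * L) := by ring
      _ ≤ b ^ s * L.choose s := Nat.mul_le_mul_left _ h2
      _ = Nt b L s := by unfold Nt; ring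
  have h5 : 16 * K * (As B b m D1 L s ρ).card ≤ 16 * K * ((Wr B b m D1 L s ρ).card +
      (Good_X B b m D1 L s ρ).card + Y.card + Z.card) := Nat.mul_le_mul_left _ hc
  have h6 : 16 * K * ((Wr B b m D1 L s ρ).card +
      (Good_X B b m D1 L s ρ).card + Y.card + Z.card) = 16 * K * (Wr B b m D1 L s ρ).card +
      16 * K * (Good_X B b m D1 L s ρ).card + 2 * (8 * K * Y.card) + 16 * K * Z.card := by ring
  have h7 : 16 * K * (As B b m D1 L s ρ).card = 16 * (K * (As B b m D1 L s ρ).card) := by ring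
  omega

theorem good (b m D1 N0 M0 : ℕ) (hB : Fintype.card B = b) (hb : 2 ≤ b)
    (hD1 : 0 < D1) (hD1b : D1 ∣ b) (hm : Nat.Coprime m D1) (hN0 : 0 < N0)
    (hN1 : Nat.totient D1 * D1 ∣ N0) (hM0 : 24 * D1 ^ D1 ≤ M0)
    (hNP : ∃ L0 : ℕ, ∀ L ≥ L0, ∀ s ∈ Tys b N0 L, NP b m L s (yy L) (yy L / 10))
    (hDP : ∃ L0 : ℕ, ∀ L ≥ L0, L % N0 = 1 % N0 → ∀ s ∈ Tys b N0 L,
      1 ≤ s ∧ D1 ∣ (b + 1) ^ L - m ^ s ∧ DP b m L s M0 (DD b m D1 L s)) :
    ∃ L0 : ℕ, ∀ L ≥ L0, L % N0 = 1 % N0 → ∀ ρ : B → ZMod D1,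
      ∑ s ∈ Tys b N0 L, Nt b L s ≤ 4 * D1 ^ D1 * ∑ s ∈ Tys b N0 L, (Wr B b m D1 L s ρ).card ∧
      (b + 1) ^ L ≤ 2 * (b + 1) ^ N0 * ∑ s ∈ Tys b N0 L, Nt b L s := by
  classical
  obtain ⟨L1, hNP⟩ := hNP
  obtain ⟨L2, hDP⟩ := hDP
  obtain ⟨L3, h3⟩ := E3 (B := B) b hB hb
  obtain ⟨L4, h4⟩ := E5 (B := B) b m M0 hB
  obtain ⟨L5, h5⟩ := TL b m
  obtain ⟨L6, h6⟩ := nt_sum (B := B) b N0 hB hb hN0
  obtain ⟨L7, h7⟩ := Tys_zeros b N0
  set K := D1 ^ D1 with hK
  have hK1 : 1 ≤ K := Nat.one_le_pow _ _ hD1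
  refine ⟨L1 + L2 + L3 + L4 + L5 + L6 + L7 + 32 * K * (b + 1) ^ N0, ?_⟩
  intro L hL hLN ρ
  have hpow : 1 ≤ (b + 1) ^ N0 := Nat.one_le_pow _ _ (by omega)
  have hLK : 16 * K ≤ L := by
    have : 32 * K * 1 ≤ 32 * K * (b + 1) ^ N0 := Nat.mul_le_mul_left _ hpow
    omega
  have hL0 : 0 < L := by omega
  have hn := h6 L (by omega)
  refine ⟨?_, hn⟩
  have key : ∀ s ∈ Tys b N0 L, 13 * Nt b L s ≤ 16 * K * (Wr B b m D1 L s ρ).card +
      16 * K * (Good_X B b m D1 L s ρ).card := by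
    intro s hs
    have hP := hNP L (by omega) s hs
    obtain ⟨-, -, hQ⟩ := hDP L (by omega) hLN s hs
    have hN0s : N0 ∣ s := by
      unfold Tys at hs
      exact (mem_filter.1 hs).2.1
    exact Good_one (M0 := M0) hB hb hL0 ρ rfl
      (h4 L (by omega) s (yy L) (yy L / 10) _ hP hQ)
      (h5 L (by omega) s (yy L) (yy L / 10) M0 _ hP hQ (h7 L (by omega) s hs).2)
      (As_count hB hD1 hD1b hm hL0 (hN1.trans hN0s) ρ) hM0 hLK
  have hX : 16 * K * ∑ s ∈ Tys b N0 L, (Good_X B b m D1 L s ρ).card ≤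
      ∑ s ∈ Tys b N0 L, Nt b L s := by
    have hmX : ∀ s w, w ∈ Good_X B b m D1 L s ρ → Per w L ∧ (sk w L).card = s ∧
        ¬ Ty b w L (Del L) := by
      intro s w hw
      unfold Good_X As at hw
      obtain ⟨h8, h9⟩ := mem_filter.1 hw
      obtain ⟨h10, h11, -⟩ := mem_filter.1 h8
      exact ⟨(mem_PW hL0 w).1 h10, h11.cnt, h9⟩
    have e1 : ∑ s ∈ Tys b N0 L, (Good_X B b m D1 L s ρ).card =
        ((Tys b N0 L).biUnion fun s => Good_X B b m D1 L s ρ).card := by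
      rw [card_biUnion]
      intro s _ s' _ hne
      rw [Function.onFun, disjoint_left]
      intro w hw hw'
      exact hne ((hmX s w hw).2.1.symm.trans (hmX s' w hw').2.1)
    have e2 := h3 L (by omega) ((Tys b N0 L).biUnion fun s => Good_X B b m D1 L s ρ) (by
      intro w hw
      obtain ⟨s, -, hws⟩ := mem_biUnion.1 hw
      exact ⟨(hmX s w hws).1, (hmX s w hws).2.2⟩)
    rw [← e1] at e2
    set U := ∑ s ∈ Tys b N0 L, (Good_X B b m D1 L s ρ).card with hU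
    have e3 : U * L ^ 20 ≤ (b + 1) ^ L := by exact_mod_cast e2
    have e4 : L ≤ L ^ 20 := Nat.le_self_pow (by norm_num) L
    have e5 : U * (32 * K * (b + 1) ^ N0) ≤ 2 * (b + 1) ^ N0 * ∑ s ∈ Tys b N0 L, Nt b L s :=
      ((Nat.mul_le_mul_left U (by omega : 32 * K * (b + 1) ^ N0 ≤ L ^ 20)).trans e3).trans hn
    have e6 : (2 * (b + 1) ^ N0) * (16 * K * U) ≤
        (2 * (b + 1) ^ N0) * ∑ s ∈ Tys b N0 L, Nt b L s := by
      refine le_trans (le_of_eq ?_) e5
      ring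
    exact Nat.le_of_mul_le_mul_left e6 (by positivity)
  have hsum := sum_le_sum key
  rw [← mul_sum, sum_add_distrib, ← mul_sum, ← mul_sum] at hsum
  have hfin : 4 * K * ∑ s ∈ Tys b N0 L, (Wr B b m D1 L s ρ).card =
      4 * (K * ∑ s ∈ Tys b N0 L, (Wr B b m D1 L s ρ).card) := by ring
  have hfin2 : 16 * K * ∑ s ∈ Tys b N0 L, (Wr B b m D1 L s ρ).card =
      16 * (K * ∑ s ∈ Tys b N0 L, (Wr B b m D1 L s ρ).card) := by ring
  omega

end GC85
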