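import Mathlib
import Pool.Agent.Helper85.DN.Defs

/-!
# DN-Lens: the lengths

Let `Λ` be a large multiple of `40 * N0` (`Λ ≥ L0`), `Λ_i = 1600 ^ i * Λ`, `i < K`, and `Ls` the set of the
`L` with `Λ_i ≤ L ≤ Λ_i + Λ_i / 40` for some `i < K` and `L % N0 = 1 % N0`. For each `i` these are at least `Λ_i / (40 N0) - 1 ≥ Λ_i / (80 N0)`
numbers, each at most `2 Λ_i`, so the sum of the `1 / L` is at least `1 / (160 N0)`; take `K ≥ 160 N0 R`. For `L < L'` in the same
range `40 (L' - L) ≤ Λ_i ≤ L`; in different ranges `L' ≥ 1600 Λ_i ≥ 40 L`.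
-/

set_option autoImplicit false

namespace GC85

open Finset

private lemma Lens_bd (N0 A j : ℕ) (hN0 : 0 < N0) (hj : j < A) :
    40 * (N0 * A) + 1 ≤ 40 * (N0 * A) + 1 + j * N0 ∧ 40 * (N0 * A) + 1 + j * N0 ≤ 41 * (N0 * A) := by
  refine ⟨by omega, ?_⟩
  have h1 : (j + 1) * N0 ≤ A * N0 := Nat.mul_le_mul_right _ hj
  have h2 : (j + 1) * N0 = j * N0 + N0 := by ring
  have h3 : A * N0 = N0 * A := by ring
  omega

private lemma Lens_pow (i i' : ℕ) (h : i < i') : 1600 * 1600 ^ i ≤ 1600 ^ i' := by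
  calc 1600 * 1600 ^ i = 1600 ^ (i + 1) := by ring
    _ ≤ 1600 ^ i' := Nat.pow_le_pow_right (by norm_num) h

theorem lens (N0 L0 : ℕ) (hN0 : 0 < N0) (R : ℝ) : ∃ Ls : Finset ℕ,
    (∀ L ∈ Ls, L0 ≤ L ∧ 2 ≤ L ∧ L % N0 = 1 % N0) ∧
    (∀ L ∈ Ls, ∀ L' ∈ Ls, L < L' → 40 * L ≤ L' ∨ 40 * (L' - L) ≤ L) ∧
    R ≤ ∑ L ∈ Ls, 1 / (L : ℝ) := by
  set A : ℕ → ℕ := fun i => 1600 ^ i * (L0 + 2) with hA
  have hA2 : ∀ i, L0 + 2 ≤ A i := by
    intro i
    have : 1 ≤ 1600 ^ i := Nat.one_le_pow _ _ (by norm_num)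
    calc L0 + 2 = 1 * (L0 + 2) := by ring
      _ ≤ A i := Nat.mul_le_mul_right _ this
  have hN1 : ∀ i, A i ≤ N0 * A i := fun i => Nat.le_mul_of_pos_left _ hN0
  have hAlt : ∀ i i', i < i' → 1600 * (N0 * A i) ≤ N0 * A i' := by
    intro i i' h
    have h1 := Lens_pow i i' h
    calc 1600 * (N0 * A i) = N0 * ((1600 * 1600 ^ i) * (L0 + 2)) := by simp only [hA]; ring
      _ ≤ N0 * (1600 ^ i' * (L0 + 2)) := Nat.mul_le_mul_left _ (Nat.mul_le_mul_right _ h1)
  set f : (Σ _ : ℕ, ℕ) → ℕ := fun t => 40 * (N0 * A t.1) + 1 + t.2 * N0 with hf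
  set K : ℕ := ⌈80 * (N0 : ℝ) * R⌉₊ with hK
  set I : Finset (Σ _ : ℕ, ℕ) := (range K).sigma (fun i => range (A i)) with hI
  have hmem : ∀ t ∈ I, t.1 < K ∧ t.2 < A t.1 := by
    intro t ht
    rw [hI, mem_sigma, mem_range, mem_range] at ht
    exact ht
  have hbd : ∀ t ∈ I, 40 * (N0 * A t.1) + 1 ≤ f t ∧ f t ≤ 41 * (N0 * A t.1) := fun t ht =>
    Lens_bd N0 (A t.1) t.2 hN0 (hmem t ht).2
  have hsep : ∀ t ∈ I, ∀ t' ∈ I, t.1 < t'.1 → 40 * f t ≤ f t' := by
    intro t ht t' ht' h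
    have h1 := (hbd t ht).2
    have h2 := (hbd t' ht').1
    have h3 := hAlt t.1 t'.1 h
    have h4 := hN1 t.1
    omega
  have hinj : Set.InjOn f (I : Set (Σ _ : ℕ, ℕ)) := by
    intro t ht t' ht' h
    rw [mem_coe] at ht ht'
    have hpos : 0 < f t := by
      have := (hbd t ht).1
      omega
    rcases lt_trichotomy t.1 t'.1 with h1 | h1 | h1
    · have := hsep t ht t' ht' h1
      omega
    · obtain ⟨i, j⟩ := t
      obtain ⟨i', j'⟩ := t'
      simp only at h1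
      subst h1
      simp only [hf] at h
      have h2 : j * N0 = j' * N0 := by omega
      have h3 := Nat.eq_of_mul_eq_mul_right hN0 h2
      rw [h3]
    · have := hsep t' ht' t ht h1
      omega
  refine ⟨I.image f, ?_, ?_, ?_⟩
  · intro L hL
    rw [mem_image] at hL
    obtain ⟨t, ht, rfl⟩ := hL
    have h1 := (hbd t ht).1
    have h2 := hN1 t.1
    have h3 := hA2 t.1
    refine ⟨by omega, by omega, ?_⟩
    have h4 : f t = 1 + N0 * (40 * A t.1 + t.2) := by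
      simp only [hf]
      ring
    rw [h4, Nat.add_mul_mod_self_left]
  · intro L hL L' hL' hlt
    rw [mem_image] at hL hL'
    obtain ⟨t, ht, rfl⟩ := hL
    obtain ⟨t', ht', rfl⟩ := hL'
    have h1 := hbd t ht
    have h2 := hbd t' ht'
    rcases lt_trichotomy t.1 t'.1 with h3 | h3 | h3
    · left
      exact hsep t ht t' ht' h3
    · right
      rw [← h3] at h2
      omega
    · exfalso
      have h4 := hsep t' ht' t ht h3
      omega
  · rw [sum_image hinj, hI, sum_sigma]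
    have hinner : ∀ i ∈ range K, 1 / (80 * (N0 : ℝ)) ≤ ∑ j ∈ range (A i), 1 / ((f ⟨i, j⟩ : ℕ) : ℝ) := by
      intro i hi
      have hApos : (0 : ℝ) < A i := by
        have := hA2 i
        have h5 : 0 < A i := by omega
        exact_mod_cast h5
      have hNpos : (0 : ℝ) < N0 := by exact_mod_cast hN0
      calc 1 / (80 * (N0 : ℝ)) = (A i : ℝ) * (1 / (80 * (N0 * A i : ℝ))) := by field_simp
        _ = ∑ j ∈ range (A i), 1 / (80 * (N0 * A i : ℝ)) := by
            rw [sum_const, card_range, nsmul_eq_mul]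
        _ ≤ _ := by
            apply sum_le_sum
            intro j hj
            rw [mem_range] at hj
            have hb := Lens_bd N0 (A i) j hN0 hj
            apply one_div_le_one_div_of_le
            · have h6 : 0 < f ⟨i, j⟩ := by
                simp only [hf]
                omega
              exact_mod_cast h6
            · have h7 : f ⟨i, j⟩ ≤ 80 * (N0 * A i) := by
                simp only [hf]
                omega
              exact_mod_cast h7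
    calc R ≤ (K : ℝ) * (1 / (80 * (N0 : ℝ))) := by
          have hNpos : (0 : ℝ) < N0 := by exact_mod_cast hN0
          have h8 : 80 * (N0 : ℝ) * R ≤ K := Nat.le_ceil _
          rw [mul_one_div, le_div_iff₀ (by positivity)]
          linarith
      _ = ∑ i ∈ range K, 1 / (80 * (N0 : ℝ)) := by rw [sum_const, card_range, nsmul_eq_mul]
      _ ≤ _ := sum_le_sum hinner

private lemma Lens_term (L : ℕ) (hL : 2 ≤ L) : ((L : ℝ) + 1) * (1 / (L : ℝ) ^ 7) ≤
    1 / ((L : ℝ) - 1) - 1 / (L : ℝ) := by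
  have h1 : (2 : ℝ) ≤ L := by exact_mod_cast hL
  have h2 : (0 : ℝ) < (L : ℝ) - 1 := by linarith
  have h3 : (0 : ℝ) < L := by linarith
  have h4 : 1 / ((L : ℝ) - 1) - 1 / (L : ℝ) = 1 / (((L : ℝ) - 1) * L) := by
    field_simp
    ring
  rw [h4, mul_one_div, div_le_div_iff₀ (by positivity) (by positivity), one_mul]
  have h5 : (L : ℝ) ^ 2 ≤ (L : ℝ) ^ 6 := pow_le_pow_right₀ (by linarith) (by norm_num)
  have h6 : ((L : ℝ) + 1) * (((L : ℝ) - 1) * L) = ((L : ℝ) ^ 2 - 1) * L := by ring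
  rw [h6]
  calc ((L : ℝ) ^ 2 - 1) * L ≤ (L : ℝ) ^ 6 * L := mul_le_mul_of_nonneg_right (by linarith) h3.le
    _ = (L : ℝ) ^ 7 := by ring

private lemma Lens_tel (n : ℕ) : ∑ L ∈ Ico 2 (n + 2), (1 / ((L : ℝ) - 1) - 1 / (L : ℝ)) =
    1 - 1 / ((n : ℝ) + 1) := by
  induction n with
  | zero => simp
  | succ n ih =>
    rw [show n + 1 + 2 = (n + 2) + 1 by ring, sum_Ico_succ_top (by omega), ih]
    push_cast
    have h1 : (n : ℝ) + 1 ≠ 0 := by positivity
    have h2 : (n : ℝ) + 2 - 1 = (n : ℝ) + 1 := by ring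
    have h3 : (n : ℝ) + 1 + 1 = (n : ℝ) + 2 := by ring
    rw [h2, h3]
    ring

/-- the error term -/
theorem sum_small (Ls : Finset ℕ) (h2 : ∀ L ∈ Ls, 2 ≤ L) (T : ℕ → Finset ℕ)
    (hT : ∀ L, T L ⊆ range (L + 1)) :
    ∑ t ∈ Ls.sigma T, 1 / ((t.1 : ℝ)) ^ 7 ≤ 1 := by
  rw [sum_sigma]
  have h3 : ∀ L ∈ Ls, ∑ _s ∈ T L, 1 / (L : ℝ) ^ 7 ≤ 1 / ((L : ℝ) - 1) - 1 / (L : ℝ) := by
    intro L hL
    rw [sum_const, nsmul_eq_mul]
    have hc : ((T L).card : ℝ) ≤ (L : ℝ) + 1 := by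
      have := card_le_card (hT L)
      rw [card_range] at this
      exact_mod_cast this
    calc ((T L).card : ℝ) * (1 / (L : ℝ) ^ 7) ≤ ((L : ℝ) + 1) * (1 / (L : ℝ) ^ 7) :=
          mul_le_mul_of_nonneg_right hc (by positivity)
      _ ≤ _ := Lens_term L (h2 L hL)
  refine (sum_le_sum h3).trans ?_
  set n := Ls.sup id with hn
  have hsub : Ls ⊆ Ico 2 (n + 2) := by
    intro L hL
    rw [mem_Ico]
    have := le_sup (f := id) hL
    simp only [id] at this
    exact ⟨h2 L hL, by omega⟩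
  calc ∑ L ∈ Ls, (1 / ((L : ℝ) - 1) - 1 / (L : ℝ)) ≤ ∑ L ∈ Ico 2 (n + 2), (1 / ((L : ℝ) - 1) - 1 / (L : ℝ)) := by
        apply sum_le_sum_of_subset_of_nonneg hsub
        intro L hL _
        rw [mem_Ico] at hL
        have h5 : (2 : ℝ) ≤ L := by exact_mod_cast hL.1
        have h6 : (0 : ℝ) < (L : ℝ) - 1 := by linarith
        have h7 := one_div_le_one_div_of_le h6 (show (L : ℝ) - 1 ≤ L by linarith)
        linarith
    _ = 1 - 1 / ((n : ℝ) + 1) := Lens_tel n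
    _ ≤ 1 := by
        have : (0 : ℝ) ≤ 1 / ((n : ℝ) + 1) := by positivity
        linarith

end GC85
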