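import Mathlib
import Pool.Agent.Helper85.DN.Defs

/-!
# DN-Joint2: single and joint probabilities for primitive vectors

The two theorems are `GC70.card_single` and `GC70.card_joint` (`Helper70/GC/Joint.lean`) with the hypothesis
that some coordinate is coprime to `D` replaced by: the coordinates and `D` have no common prime factor. Only
`GC70.exists_lin_eq_one` uses the hypothesis: now the gcd of `D` and all `v i` is `1`, so by Bezout there are integers
`ρ i` with `∑ v i ρ i ≡ 1` modulo `D`; lift them with `ZMod.castHom_surjective`. In `card_joint` the unit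
is obtained in the same way (use `ρ` with `lin v ρ = 1` and, for the second vector, the analogous one). Copy the proofs.
-/

set_option autoImplicit false

namespace GC85

open Finset GC70

variable {B : Type} [Fintype B] [DecidableEq B]

omit [DecidableEq B] in
/-- Bezout. -/
private theorem Joint2_bezout (D : ℕ) (v : B → ℕ)
    (hp : ∀ p : ℕ, p.Prime → p ∣ D → ∃ i, ¬ p ∣ v i) :
    ∃ (a : ℤ) (c : B → ℤ), a * D + ∑ i, c i * v i = 1 := by
  classical
  let w : Option B → ℤ := fun o => o.elim (D : ℤ) fun i => (v i : ℤ)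
  have h1 : (1 : ℤ) ∈ Ideal.span (Set.range w) := by
    obtain ⟨d, hd⟩ := (inferInstance : (Ideal.span (Set.range w)).IsPrincipal)
    have hw : ∀ o, d ∣ w o := by
      intro o
      have : w o ∈ Ideal.span (Set.range w) := Ideal.subset_span ⟨o, rfl⟩
      rw [hd] at this
      exact Ideal.mem_span_singleton.1 this
    have hu : d.natAbs = 1 := by
      by_contra hne
      obtain ⟨p, hpp, hpd⟩ := Nat.exists_prime_and_dvd hne
      have hpd' : (p : ℤ) ∣ d := Int.natCast_dvd.2 hpd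
      have hD : p ∣ D := by
        have : (p : ℤ) ∣ (D : ℤ) := hpd'.trans (hw none)
        exact_mod_cast this
      obtain ⟨i, hi⟩ := hp p hpp hD
      apply hi
      have : (p : ℤ) ∣ (v i : ℤ) := hpd'.trans (hw (some i))
      exact_mod_cast this
    rw [hd]
    apply Ideal.mem_span_singleton.2
    exact (Int.isUnit_iff_natAbs_eq.2 hu).dvd
  rw [Ideal.mem_span_range_iff_exists_fun] at h1
  obtain ⟨c, hc⟩ := h1
  refine ⟨c none, fun i => c (some i), ?_⟩
  rw [Fintype.sum_option] at hc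
  exact hc

omit [DecidableEq B] in
private theorem Joint2_lin (Q D : ℕ) (h : D ∣ Q) (v : B → ℕ)
    (hp : ∀ p : ℕ, p.Prime → p ∣ D → ∃ i, ¬ p ∣ v i) : ∃ ρ, lin Q D h v ρ = 1 := by
  obtain ⟨a, c, hac⟩ := Joint2_bezout D v hp
  choose ρ hρ using fun i => ZMod.castHom_surjective h (c i : ZMod D)
  refine ⟨ρ, ?_⟩
  unfold lin
  simp only [AddMonoidHom.coe_mk, ZeroHom.coe_mk]
  have h2 := congrArg (Int.cast : ℤ → ZMod D) hac
  push_cast at h2
  rw [ZMod.natCast_self, mul_zero, zero_add] at h2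
  rw [← h2]
  refine sum_congr rfl fun i _ => ?_
  rw [hρ i, mul_comm]

theorem card_single' (Q D : ℕ) [NeZero Q] (h : D ∣ Q) (v : B → ℕ)
    (hp : ∀ p : ℕ, p.Prime → p ∣ D → ∃ i, ¬ p ∣ v i) :
    ((univ : Finset (B → ZMod Q)).filter (fun ρ => D ∣ dot Q v ρ)).card * D
      = Q ^ Fintype.card B := by
  have hD0 : D ≠ 0 := by
    rintro rfl
    exact (NeZero.ne Q) (zero_dvd_iff.mp h)
  have : NeZero D := ⟨hD0⟩
  obtain ⟨ρ0, hρ0⟩ := Joint2_lin Q D h v hp
  have hcard : Q ^ Fintype.card B = (univ : Finset (B → ZMod Q)).card := by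
    rw [card_univ, Fintype.card_fun, ZMod.card]
  have htot : (univ : Finset (B → ZMod Q)).card
      = ∑ x : ZMod D, ((univ : Finset (B → ZMod Q)).filter (fun ρ => lin Q D h v ρ = x)).card :=
    card_eq_sum_card_fiberwise (f := lin Q D h v) (t := (univ : Finset (ZMod D)))
      (by intro x _; simp)
  have : ∀ x : ZMod D, ((univ : Finset (B → ZMod Q)).filter (fun ρ => lin Q D h v ρ = x)).card
      = ((univ : Finset (B → ZMod Q)).filter (fun ρ => D ∣ dot Q v ρ)).card := by
    intro x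
    symm
    apply card_bij (fun ρ _ => ρ + x.val • ρ0)
    · intro ρ hρ
      simp only [mem_filter, mem_univ, true_and] at hρ ⊢
      rw [dvd_dot_iff Q D h] at hρ
      rw [map_add, map_nsmul, hρ, hρ0]
      simp
    · intro a _ b _ hab
      exact add_right_cancel hab
    · intro ρ hρ
      simp only [mem_filter, mem_univ, true_and] at hρ
      refine ⟨ρ - x.val • ρ0, ?_, by simp⟩
      simp only [mem_filter, mem_univ, true_and]
      rw [dvd_dot_iff Q D h, map_sub, map_nsmul, hρ, hρ0]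
      simp
  rw [hcard, htot, sum_congr rfl (fun x _ => this x)]
  rw [sum_const, card_univ, ZMod.card, smul_eq_mul, mul_comm]

theorem card_joint' (Q D D' : ℕ) [NeZero Q] (h : D ∣ Q) (h' : D' ∣ Q) (v v' : B → ℕ)
    (hp : ∀ p : ℕ, p.Prime → p ∣ D → ∃ i, ¬ p ∣ v i)
    (hp' : ∀ p : ℕ, p.Prime → p ∣ D' → ∃ i, ¬ p ∣ v' i) :
    ∃ g : ℕ, g ∣ D ∧ g ∣ D' ∧ (∃ l : (ZMod g)ˣ, ∀ i, (v' i : ZMod g) = l * (v i : ZMod g)) ∧
      ((univ : Finset (B → ZMod Q)).filter
        (fun ρ => D ∣ dot Q v ρ ∧ D' ∣ dot Q v' ρ)).card * (D * D')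
      ≤ g * Q ^ Fintype.card B := by
  have hD0 : D ≠ 0 := by
    rintro rfl
    exact (NeZero.ne Q) (zero_dvd_iff.mp h)
  have hD0' : D' ≠ 0 := by
    rintro rfl
    exact (NeZero.ne Q) (zero_dvd_iff.mp h')
  have : NeZero D := ⟨hD0⟩
  have : NeZero D' := ⟨hD0'⟩
  obtain ⟨ρ0, hρ0⟩ := Joint2_lin Q D h v hp
  set φ := lin Q D h v with hφ
  set ψ := lin Q D' h' v' with hψ
  set K : AddSubgroup ℤ := AddSubgroup.comap (Int.castAddHom (ZMod D')) (AddSubgroup.map ψ φ.ker)
    with hK
  have hKmem : ∀ y : ℤ, y ∈ K ↔ ∃ ρ, φ ρ = 0 ∧ ψ ρ = (y : ZMod D') := by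
    intro y
    simp only [hK, AddSubgroup.mem_comap, AddSubgroup.mem_map, AddMonoidHom.mem_ker,
      Int.coe_castAddHom]
  obtain ⟨a, ha⟩ := Int.subgroup_cyclic K
  have hKa : ∀ y : ℤ, y ∈ K ↔ a ∣ y := by
    intro y
    rw [ha, AddSubgroup.mem_closure_singleton]
    constructor
    · rintro ⟨n, rfl⟩
      exact ⟨n, by rw [smul_eq_mul]; ring⟩
    · rintro ⟨n, rfl⟩
      exact ⟨n, by rw [smul_eq_mul]; ring⟩
  set g := a.natAbs with hg
  have hKg : ∀ y : ℤ, y ∈ K ↔ (g : ℤ) ∣ y := by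
    intro y
    rw [hKa, hg, Int.natAbs_dvd]
  have hgD' : g ∣ D' := by
    have : (D' : ℤ) ∈ K := by
      rw [hKmem]
      exact ⟨0, by simp, by simp⟩
    rw [hKg] at this
    exact_mod_cast this
  have hg0 : g ≠ 0 := by
    intro h0
    rw [h0] at hgD'
    exact hD0' (zero_dvd_iff.mp hgD')
  obtain ⟨y0, hy0⟩ := ZMod.intCast_surjective (ψ ρ0)
  have hrel : ∀ i, (g : ℤ) ∣ (v' i : ℤ) - (v i : ℤ) * y0 := by
    intro i
    rw [← hKg, hKmem]
    refine ⟨Pi.single i 1 - (v i) • ρ0, ?_, ?_⟩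
    · rw [map_sub, map_nsmul, hρ0, hφ, lin_single_one]
      simp
    · rw [map_sub, map_nsmul, ← hy0, hψ, lin_single_one]
      simp
  have hrel' : ∀ i, (v' i : ZMod g) = (y0 : ZMod g) * (v i : ZMod g) := by
    intro i
    have h1 := hrel i
    rw [← ZMod.intCast_zmod_eq_zero_iff_dvd] at h1
    push_cast at h1
    rw [sub_eq_zero] at h1
    rw [h1]
    ring
  have hunit : IsUnit (y0 : ZMod g) := by
    obtain ⟨a, c, hac⟩ := Joint2_bezout D' v' hp'
    have h1 : (y0 : ZMod g) * (∑ i, (c i : ZMod g) * (v i : ZMod g)) = 1 := by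
      have h2 := congrArg (Int.cast : ℤ → ZMod g) hac
      push_cast at h2
      rw [(ZMod.natCast_eq_zero_iff D' g).2 hgD', mul_zero, zero_add] at h2
      rw [← h2, mul_sum]
      refine sum_congr rfl fun i _ => ?_
      rw [hrel' i]
      ring
    exact IsUnit.of_mul_eq_one _ h1
  obtain ⟨l, hl⟩ := hunit
  have hgD : g ∣ D := by
    have h1 : (D : ℤ) * y0 ∈ K := by
      rw [hKmem]
      refine ⟨D • ρ0, ?_, ?_⟩
      · rw [map_nsmul, hρ0]
        simp
      · rw [map_nsmul, ← hy0]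
        simp
    rw [hKg] at h1
    have h2 : ((D : ZMod g)) * (y0 : ZMod g) = 0 := by
      rw [← ZMod.intCast_zmod_eq_zero_iff_dvd] at h1
      push_cast at h1
      exact h1
    rw [← hl, Units.mul_left_eq_zero] at h2
    exact (ZMod.natCast_eq_zero_iff _ _).mp h2
  refine ⟨g, hgD, hgD', ⟨l, fun i => by rw [hl]; exact hrel' i⟩, ?_⟩
  obtain ⟨ρ1, hρ1, hρ1'⟩ := (hKmem (g : ℤ)).mp ((hKg _).mpr dvd_rfl)
  set S := (univ : Finset (B → ZMod Q)).filter (fun ρ => D ∣ dot Q v ρ ∧ D' ∣ dot Q v' ρ) with hS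
  have hSmem : ∀ ρ ∈ S, φ ρ = 0 ∧ ψ ρ = 0 := by
    intro ρ hρ
    rw [hS, mem_filter] at hρ
    exact ⟨(dvd_dot_iff Q D h v ρ).mp hρ.2.1, (dvd_dot_iff Q D' h' v' ρ).mp hρ.2.2⟩
  obtain ⟨k, hk⟩ := hgD'
  have hk0 : k ≠ 0 := by
    rintro rfl
    simp at hk
    exact hD0' hk
  have hinj : (S ×ˢ (range D ×ˢ range k)).card ≤ (univ : Finset (B → ZMod Q)).card := by
    apply card_le_card_of_injOn (fun p => p.1 + p.2.1 • ρ0 + p.2.2 • ρ1)
    · intro p _
      simp
    · rintro ⟨ρ, x, t⟩ hp ⟨ρ', x', t'⟩ hp' heq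
      simp only [coe_product, Set.mem_prod, mem_coe, coe_range, Set.mem_Iio] at hp hp'
      simp only at heq
      obtain ⟨hρ, hx, ht⟩ := hp
      obtain ⟨hρ', hx', ht'⟩ := hp'
      obtain ⟨e1, e2⟩ := hSmem ρ hρ
      obtain ⟨e1', e2'⟩ := hSmem ρ' hρ'
      have f1 : (x : ZMod D) = (x' : ZMod D) := by
        have := congrArg φ heq
        simp only [map_add, map_nsmul, e1, e1', hρ0, hρ1] at this
        simpa using this
      have f1' : x = x' := by
        rw [ZMod.natCast_eq_natCast_iff'] at f1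
        rw [Nat.mod_eq_of_lt hx, Nat.mod_eq_of_lt hx'] at f1
        exact f1
      subst f1'
      have f2 : ((t * g : ℕ) : ZMod D') = ((t' * g : ℕ) : ZMod D') := by
        have := congrArg ψ heq
        simp only [map_add, map_nsmul, e2, e2', hρ1'] at this
        simpa using this
      have f2' : t = t' := by
        rw [ZMod.natCast_eq_natCast_iff'] at f2
        have b1 : t * g < D' := by
          rw [hk, mul_comm]
          exact Nat.mul_lt_mul_of_pos_left ht (Nat.pos_of_ne_zero hg0)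
        have b2 : t' * g < D' := by
          rw [hk, mul_comm]
          exact Nat.mul_lt_mul_of_pos_left ht' (Nat.pos_of_ne_zero hg0)
        rw [Nat.mod_eq_of_lt b1, Nat.mod_eq_of_lt b2] at f2
        exact Nat.eq_of_mul_eq_mul_right (Nat.pos_of_ne_zero hg0) f2
      subst f2'
      have : ρ = ρ' := by
        have h3 := add_right_cancel heq
        exact add_right_cancel h3
      rw [this]
  rw [card_product, card_product, card_range, card_range, card_univ, Fintype.card_fun,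
    ZMod.card] at hinj
  calc S.card * (D * D') = g * (S.card * (D * k)) := by rw [hk]; ring
    _ ≤ g * Q ^ Fintype.card B := Nat.mul_le_mul_left _ hinj

end GC85
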