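import Mathlib
import Pool.Agent.Helper85.DN.Cross
import Pool.Agent.Helper85.DN.Joint2

/-!
# DN-MomA: the sum over the pairs of words of two types

For two types `t, t'` and words `w ∈ W0 t`, `w' ∈ W0 t'` (primitive) let `γ (w, w')` be the number `g` given by `card_joint'`
(`D = DD t`, `D' = DD t'`; `RelG` is exactly the third property). Then `|E w ∩ E w'| * (D * D') ≤ γ * Q2 ^ b`
(`Fintype.card B = b`). Sum over the pairs in
`Wr t × Wr t'` (`Wr ⊆ W0`): the pairs with `γ = 1` contribute at most `(Wr t).card * (Wr t').card`; the others, for `t = t'`, by `hsame`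
(extend `γ` by `0` or anything outside `W0 × W0`), and for `t ≠ t'` by
`cross` if `L < L'`, or `L = L'` and `s ≠ s'`; if `L' < L` exchange the two words (`RelG` is symmetric: inverse
unit; the intersection of the events is symmetric).
-/

set_option autoImplicit false

namespace GC85

open Finset GC70

variable {B : Type} [Fintype B] [DecidableEq B]

/-- the family of types -/
structure Fam (b m D1 N0 M0 : ℕ) (Ls : Finset ℕ) : Prop where
  np : ∀ L ∈ Ls, ∀ s ∈ Tys b N0 L, NP b m L s (yy L) (yy L / 10)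
  dp : ∀ L ∈ Ls, ∀ s ∈ Tys b N0 L, DP b m L s M0 (DD b m D1 L s)
  sep : ∀ L ∈ Ls, ∀ L' ∈ Ls, L < L' → 40 * L ≤ L' ∨ 40 * (L' - L) ≤ L
  two : ∀ L ∈ Ls, 2 ≤ L

/-- the expected weighted number of cycles -/
noncomputable def mu (B : Type) [Fintype B] [DecidableEq B] (b m D1 N0 : ℕ) (Ls : Finset ℕ)
    (ρ : B → ZMod D1) : ℝ :=
  ∑ t ∈ Ls.sigma (Tys b N0), ((Wr B b m D1 t.1 t.2 ρ).card : ℝ) / ((t.1 : ℝ) * DD b m D1 t.1 t.2)

/-- the same with all words of the types -/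
noncomputable def Full (b m D1 N0 : ℕ) (Ls : Finset ℕ) : ℝ :=
  ∑ t ∈ Ls.sigma (Tys b N0), (Nt b t.1 t.2 : ℝ) / ((t.1 : ℝ) * DD b m D1 t.1 t.2)

/-- the hypothesis on the pairs of one type -/
def HSame (B : Type) [Fintype B] [DecidableEq B] (b m D1 N0 M0 : ℕ) (Ls : Finset ℕ) : Prop :=
  ∀ L ∈ Ls, ∀ s ∈ Tys b N0 L, ∀ γ : (ℤ → Option B) × (ℤ → Option B) → ℕ,
      (∀ p : (ℤ → Option B) × (ℤ → Option B), p.1 ∈ W0 B b m L s (DD b m D1 L s) (yy L) →
        p.2 ∈ W0 B b m L s (DD b m D1 L s) (yy L) →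
        γ p ∣ DD b m D1 L s ∧ RelG (b + 1) m (γ p) L L p.1 p.2) →
      ∑ p ∈ ((W0 B b m L s (DD b m D1 L s) (yy L)) ×ˢ
        (W0 B b m L s (DD b m D1 L s) (yy L))).filter (fun p => γ p ≠ 1), (γ p : ℝ) ≤
        4 / Real.sqrt M0 * (Nt b L s) ^ 2 +
          L * (W0 B b m L s (DD b m D1 L s) (yy L)).card * DD b m D1 L s +
          (DD b m D1 L s : ℝ) ^ 2 / (L : ℝ) ^ 5

private theorem momA_mem {b m L s D y : ℕ} {w : ℤ → Option B} (h : w ∈ W0 B b m L s D y) :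
    Wd w L s ∧ Prim (b + 1) m D L w := by
  classical
  unfold W0 at h
  rw [Finset.mem_filter] at h
  exact ⟨h.2.1, h.2.2.2.1⟩

private theorem momA_sub {b m D1 L s : ℕ} (ρ : B → ZMod D1) :
    Wr B b m D1 L s ρ ⊆ W0 B b m L s (DD b m D1 L s) (yy L) := by
  classical
  unfold Wr
  exact Finset.filter_subset _ _

private theorem momA_relG_symm {d m g L L' : ℕ} {w w' : ℤ → Option B}
    (h : RelG d m g L L' w w') : RelG d m g L' L w' w := by
  obtain ⟨l, hl⟩ := h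
  refine ⟨l⁻¹, fun i => ?_⟩
  rw [hl i, ← mul_assoc, Units.inv_mul, one_mul]

/-- the sum of the exceptional numbers -/
private theorem momA_exc {b m D1 N0 M0 : ℕ} (hB : Fintype.card B = b) (Ls : Finset ℕ)
    (F : Fam b m D1 N0 M0 Ls) (hsame : HSame B b m D1 N0 M0 Ls) (L s L' s' : ℕ) (hL : L ∈ Ls)
    (hs : s ∈ Tys b N0 L) (hL' : L' ∈ Ls) (hs' : s' ∈ Tys b N0 L')
    (γ : (ℤ → Option B) × (ℤ → Option B) → ℕ)
    (hγ : ∀ p : (ℤ → Option B) × (ℤ → Option B), p.1 ∈ W0 B b m L s (DD b m D1 L s) (yy L) →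
      p.2 ∈ W0 B b m L' s' (DD b m D1 L' s') (yy L') →
      γ p ∣ DD b m D1 L s ∧ γ p ∣ DD b m D1 L' s' ∧ RelG (b + 1) m (γ p) L L' p.1 p.2) :
    ∑ p ∈ ((W0 B b m L s (DD b m D1 L s) (yy L)) ×ˢ
        (W0 B b m L' s' (DD b m D1 L' s') (yy L'))).filter (fun p => γ p ≠ 1), (γ p : ℝ) ≤
      4 / Real.sqrt M0 * (Nt b L s) * (Nt b L' s') +
      (if L = L' ∧ s = s' then L * (Nt b L s : ℝ) * DD b m D1 L s +
        (DD b m D1 L s : ℝ) ^ 2 / (L : ℝ) ^ 5 else 0) := by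
  classical
  by_cases hcase : L = L' ∧ s = s'
  · obtain ⟨rfl, rfl⟩ := hcase
    rw [if_pos ⟨rfl, rfl⟩]
    have h1 := hsame L hL s hs γ (fun p h1 h2 => ⟨(hγ p h1 h2).1, (hγ p h1 h2).2.2⟩)
    have hL0 : 0 < L := by have := F.two L hL; omega
    have h2 : (W0 B b m L s (DD b m D1 L s) (yy L)).card ≤ Nt b L s :=
      card_type hB hL0 _ (fun w hw => (momA_mem hw).1)
    have h3 : ((W0 B b m L s (DD b m D1 L s) (yy L)).card : ℝ) ≤ (Nt b L s : ℝ) := by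
      exact_mod_cast h2
    have h4 : (L : ℝ) * (W0 B b m L s (DD b m D1 L s) (yy L)).card * DD b m D1 L s ≤
        L * (Nt b L s : ℝ) * DD b m D1 L s := by
      gcongr
    calc _ ≤ _ := h1
      _ = 4 / Real.sqrt M0 * (Nt b L s) * (Nt b L s) +
          (L * (W0 B b m L s (DD b m D1 L s) (yy L)).card * DD b m D1 L s +
            (DD b m D1 L s : ℝ) ^ 2 / (L : ℝ) ^ 5) := by ring
      _ ≤ _ := by linarith
  · rw [if_neg hcase, add_zero]
    rcases lt_trichotomy L L' with hlt | heq | hgt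
    · exact cross hB (F.np L hL s hs) (F.np L' hL' s' hs') (F.dp L hL s hs) (F.dp L' hL' s' hs')
        (Or.inl ⟨hlt, F.sep L hL L' hL' hlt⟩) γ hγ
    · subst heq
      have hss : s ≠ s' := fun h => hcase ⟨rfl, h⟩
      exact cross hB (F.np L hL s hs) (F.np L hL' s' hs') (F.dp L hL s hs) (F.dp L hL' s' hs')
        (Or.inr ⟨rfl, hss⟩) γ hγ
    · have h1 := cross hB (F.np L' hL' s' hs') (F.np L hL s hs) (F.dp L' hL' s' hs')
        (F.dp L hL s hs) (Or.inl ⟨hgt, F.sep L' hL' L hL hgt⟩) (fun p => γ p.swap)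
        (fun p h1 h2 => ⟨(hγ p.swap h2 h1).2.1, (hγ p.swap h2 h1).1,
          momA_relG_symm (hγ p.swap h2 h1).2.2⟩)
      have h2 : ∑ p ∈ ((W0 B b m L s (DD b m D1 L s) (yy L)) ×ˢ
          (W0 B b m L' s' (DD b m D1 L' s') (yy L'))).filter (fun p => γ p ≠ 1), (γ p : ℝ) =
          ∑ p ∈ ((W0 B b m L' s' (DD b m D1 L' s') (yy L')) ×ˢ
          (W0 B b m L s (DD b m D1 L s) (yy L))).filter (fun p => γ p.swap ≠ 1),
            (γ p.swap : ℝ) := by
        refine Finset.sum_nbij' Prod.swap Prod.swap ?_ ?_ ?_ ?_ ?_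
        · rintro ⟨u, v⟩ h
          rw [Finset.mem_filter, Finset.mem_product] at h ⊢
          exact ⟨⟨h.1.2, h.1.1⟩, h.2⟩
        · rintro ⟨u, v⟩ h
          rw [Finset.mem_filter, Finset.mem_product] at h ⊢
          exact ⟨⟨h.1.2, h.1.1⟩, h.2⟩
        · rintro ⟨u, v⟩ _
          rfl
        · rintro ⟨u, v⟩ _
          rfl
        · rintro ⟨u, v⟩ _
          rfl
      rw [h2]
      calc _ ≤ _ := h1
        _ = _ := by ring

theorem pair_bound {b m D1 N0 M0 : ℕ} (hB : Fintype.card B = b) (Ls : Finset ℕ)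
    (F : Fam b m D1 N0 M0 Ls) (hsame : HSame B b m D1 N0 M0 Ls) (ρ : B → ZMod D1) (Q2 : ℕ) [NeZero Q2]
    (hQ : ∀ L ∈ Ls, ∀ s ∈ Tys b N0 L, DD b m D1 L s ∣ Q2) (L s L' s' : ℕ) (hL : L ∈ Ls)
    (hs : s ∈ Tys b N0 L) (hL' : L' ∈ Ls) (hs' : s' ∈ Tys b N0 L') :
    (∑ w ∈ Wr B b m D1 L s ρ, ∑ w' ∈ Wr B b m D1 L' s' ρ,
      (((univ : Finset (B → ZMod Q2)).filter (fun σ => DD b m D1 L s ∣ dot Q2 (V (b + 1) m w L) σ ∧
        DD b m D1 L' s' ∣ dot Q2 (V (b + 1) m w' L') σ)).card : ℝ)) *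
      (DD b m D1 L s * DD b m D1 L' s') ≤
    (Q2 : ℝ) ^ b * ((Wr B b m D1 L s ρ).card * (Wr B b m D1 L' s' ρ).card +
      4 / Real.sqrt M0 * (Nt b L s) * (Nt b L' s') +
      (if L = L' ∧ s = s' then L * (Nt b L s : ℝ) * DD b m D1 L s +
        (DD b m D1 L s : ℝ) ^ 2 / (L : ℝ) ^ 5 else 0)) := by
  classical
  have hex : ∀ p : (ℤ → Option B) × (ℤ → Option B), ∃ g : ℕ,
      p.1 ∈ W0 B b m L s (DD b m D1 L s) (yy L) →
      p.2 ∈ W0 B b m L' s' (DD b m D1 L' s') (yy L') →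
      (g ∣ DD b m D1 L s ∧ g ∣ DD b m D1 L' s' ∧ RelG (b + 1) m g L L' p.1 p.2) ∧
      ((univ : Finset (B → ZMod Q2)).filter (fun σ =>
        DD b m D1 L s ∣ dot Q2 (V (b + 1) m p.1 L) σ ∧
        DD b m D1 L' s' ∣ dot Q2 (V (b + 1) m p.2 L') σ)).card *
        (DD b m D1 L s * DD b m D1 L' s') ≤ g * Q2 ^ b := by
    intro p
    by_cases h1 : p.1 ∈ W0 B b m L s (DD b m D1 L s) (yy L)
    · by_cases h2 : p.2 ∈ W0 B b m L' s' (DD b m D1 L' s') (yy L')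
      · obtain ⟨g, hg1, hg2, hg3, hg4⟩ := card_joint' Q2 (DD b m D1 L s) (DD b m D1 L' s')
          (hQ L hL s hs) (hQ L' hL' s' hs') (V (b + 1) m p.1 L) (V (b + 1) m p.2 L')
          (momA_mem h1).2 (momA_mem h2).2
        rw [hB] at hg4
        exact ⟨g, fun _ _ => ⟨⟨hg1, hg2, hg3⟩, hg4⟩⟩
      · exact ⟨0, fun _ h => absurd h h2⟩
    · exact ⟨0, fun h => absurd h h1⟩
  choose γ hγ using hex
  have hexc := momA_exc hB Ls F hsame L s L' s' hL hs hL' hs' γ (fun p h1 h2 => (hγ p h1 h2).1)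
  set X := Wr B b m D1 L s ρ with hX
  set X' := Wr B b m D1 L' s' ρ with hX'
  have hXs : X ⊆ W0 B b m L s (DD b m D1 L s) (yy L) := momA_sub ρ
  have hXs' : X' ⊆ W0 B b m L' s' (DD b m D1 L' s') (yy L') := momA_sub ρ
  have hsum : ∑ p ∈ X ×ˢ X', (γ p : ℝ) ≤ (X.card : ℝ) * X'.card +
      ∑ p ∈ ((W0 B b m L s (DD b m D1 L s) (yy L)) ×ˢ
        (W0 B b m L' s' (DD b m D1 L' s') (yy L'))).filter (fun p => γ p ≠ 1), (γ p : ℝ) := by
    rw [← Finset.sum_filter_add_sum_filter_not (X ×ˢ X') (fun p => γ p = 1)]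
    refine add_le_add ?_ ?_
    · have h1 : ∑ p ∈ (X ×ˢ X').filter (fun p => γ p = 1), (γ p : ℝ) =
          (((X ×ˢ X').filter (fun p => γ p = 1)).card : ℝ) := by
        rw [Finset.card_eq_sum_ones]
        push_cast
        refine Finset.sum_congr rfl fun p hp => ?_
        rw [(Finset.mem_filter.1 hp).2, Nat.cast_one]
      rw [h1]
      have h2 : ((X ×ˢ X').filter (fun p => γ p = 1)).card ≤ X.card * X'.card := by
        rw [← Finset.card_product]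
        exact Finset.card_filter_le _ _
      exact_mod_cast h2
    · refine Finset.sum_le_sum_of_subset_of_nonneg ?_ (fun p _ _ => Nat.cast_nonneg _)
      intro p hp
      rw [Finset.mem_filter, Finset.mem_product] at hp ⊢
      exact ⟨⟨hXs hp.1.1, hXs' hp.1.2⟩, hp.2⟩
  rw [← Finset.sum_product', Finset.sum_mul]
  calc _ ≤ ∑ p ∈ X ×ˢ X', (γ p : ℝ) * (Q2 : ℝ) ^ b := by
        refine Finset.sum_le_sum fun p hp => ?_
        rw [Finset.mem_product] at hp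
        exact_mod_cast (hγ p (hXs hp.1) (hXs' hp.2)).2
    _ = (Q2 : ℝ) ^ b * ∑ p ∈ X ×ˢ X', (γ p : ℝ) := by rw [← Finset.sum_mul, mul_comm]
    _ ≤ _ := by
        refine mul_le_mul_of_nonneg_left ?_ (by positivity)
        linarith

end GC85
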