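import Mathlib
import Pool.Agent.Helper85.DN.MomA

/-!
# DN-Moment: Chebyshev's inequality for the number of cycles

Index set `I = (Ls.sigma (Tys b N0)).sigma (fun t => Wr ...)`, `a i = 1 / L`, `Dn i = DD`, `E i = {σ | DD ∣ dot Q2 V σ}`; `GC70.cheb`
(`Helper70/GC/Cheb.lean`). `hE`: `card_single'` (`Prim` from `W0`, `Wr ⊆ W0`). `hpair`: the double sum over `I` is the sum over pairs of types of
`1 / (L L')` times the double sum in `pair_bound`; divide by `DD DD'` (positive by `DP.ge`). The sums: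
`∑_{t, t'} (1 / (L L' DD DD')) (Wr t).card (Wr t').card = μ ^ 2`,
`∑_{t, t'} (1 / (L L' DD DD')) 4 / √M0 Nt Nt' = 4 / √M0 Full ^ 2`,
`∑_t (1 / (L ^ 2 DD ^ 2)) L Nt DD = Full`, `∑_t (1 / (L ^ 2 DD ^ 2)) DD ^ 2 / L ^ 5 = ∑_t 1 / L ^ 7`.
-/

set_option autoImplicit false

namespace GC85

open Finset GC70

variable {B : Type} [Fintype B] [DecidableEq B]

private theorem Moment_Wr {b m D1 L s : ℕ} {ρ : B → ZMod D1} {w : ℤ → Option B}
    (h : w ∈ Wr B b m D1 L s ρ) : Prim (b + 1) m (DD b m D1 L s) L w := by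
  classical
  unfold Wr W0 at h
  rw [mem_filter, mem_filter] at h
  exact h.1.2.2.2.1

theorem moment {b m D1 N0 M0 : ℕ} (hB : Fintype.card B = b) (Ls : Finset ℕ)
    (F : Fam b m D1 N0 M0 Ls)
    (hsame : HSame B b m D1 N0 M0 Ls)
    (ρ : B → ZMod D1) (Q2 : ℕ) [NeZero Q2]
    (hQ : ∀ L ∈ Ls, ∀ s ∈ Tys b N0 L, DD b m D1 L s ∣ Q2) (bad : Finset (B → ZMod Q2))
    (hbad : ∀ σ ∈ bad, ∀ L ∈ Ls, ∀ s ∈ Tys b N0 L, ∀ w ∈ Wr B b m D1 L s ρ,
      ¬ DD b m D1 L s ∣ dot Q2 (V (b + 1) m w L) σ) :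
    (bad.card : ℝ) * (mu B b m D1 N0 Ls ρ) ^ 2 ≤ (Q2 : ℝ) ^ b *
      (4 / Real.sqrt M0 * (Full b m D1 N0 Ls) ^ 2 + Full b m D1 N0 Ls +
        ∑ t ∈ Ls.sigma (Tys b N0), 1 / ((t.1 : ℝ)) ^ 7) := by
  classical
  have hcard : (Fintype.card (B → ZMod Q2) : ℝ) = (Q2 : ℝ) ^ b := by
    rw [Fintype.card_fun, ZMod.card, hB]
    push_cast
    rfl
  have hT : ∀ t ∈ Ls.sigma (Tys b N0), (t.1 ∈ Ls ∧ t.2 ∈ Tys b N0 t.1) := fun t ht =>
    mem_sigma.1 ht
  have hL0 : ∀ t ∈ Ls.sigma (Tys b N0), (0 : ℝ) < (t.1 : ℝ) := by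
    intro t ht
    have := F.two t.1 (hT t ht).1
    exact_mod_cast (by omega : 0 < t.1)
  have hD0 : ∀ t ∈ Ls.sigma (Tys b N0), (0 : ℝ) < (DD b m D1 t.1 t.2 : ℝ) := by
    intro t ht
    have h1 := (F.dp t.1 (hT t ht).1 t.2 (hT t ht).2).ge
    have h2 : DD b m D1 t.1 t.2 ≠ 0 := by
      intro h3
      rw [h3, zero_mul] at h1
      have : 0 < (b + 1) ^ t.1 := by positivity
      omega
    exact_mod_cast Nat.pos_of_ne_zero h2
  set T := Ls.sigma (Tys b N0) with hTdef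
  set I : Finset ((_ : (_ : ℕ) × ℕ) × (ℤ → Option B)) :=
    T.sigma (fun t => Wr B b m D1 t.1 t.2 ρ) with hI
  have key := cheb (Ω := B → ZMod Q2) I (fun i => 1 / (i.1.1 : ℝ))
    (fun i => (DD b m D1 i.1.1 i.1.2 : ℝ))
    (fun i => (univ : Finset (B → ZMod Q2)).filter
      (fun σ => DD b m D1 i.1.1 i.1.2 ∣ dot Q2 (V (b + 1) m i.2 i.1.1) σ))
    (by
      intro i hi
      obtain ⟨hi1, hi2⟩ := mem_sigma.1 hi
      have h1 := card_single' (B := B) Q2 (DD b m D1 i.1.1 i.1.2)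
        (hQ _ (hT _ hi1).1 _ (hT _ hi1).2) (V (b + 1) m i.2 i.1.1) (Moment_Wr hi2)
      rw [hB] at h1
      rw [hcard]
      exact_mod_cast h1)
    (by
      intro i hi
      exact hD0 _ (mem_sigma.1 hi).1)
    bad
    (by
      intro σ hσ i hi hmem
      obtain ⟨hi1, hi2⟩ := mem_sigma.1 hi
      exact hbad σ hσ _ (hT _ hi1).1 _ (hT _ hi1).2 _ hi2 (mem_filter.1 hmem).2)
    (mu B b m D1 N0 Ls ρ)
    (4 / Real.sqrt M0 * (Full b m D1 N0 Ls) ^ 2 + Full b m D1 N0 Ls +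
        ∑ t ∈ T, 1 / ((t.1 : ℝ)) ^ 7)
    (by
      unfold mu
      rw [hI, sum_sigma _ _ (fun i : (_ : (_ : ℕ) × ℕ) × (ℤ → Option B) =>
        1 / (i.1.1 : ℝ) / (DD b m D1 i.1.1 i.1.2 : ℝ)), ← hTdef]
      refine sum_congr rfl fun t ht => ?_
      simp only
      rw [sum_const, nsmul_eq_mul]
      have := hL0 t ht
      have := hD0 t ht
      field_simp)
    (by
      rw [hcard, hI, sum_sigma]
      simp_rw [sum_sigma]
      -- sum over the pairs of types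
      have hS : ∀ t ∈ T, ∀ t' ∈ T,
          ∑ w ∈ Wr B b m D1 t.1 t.2 ρ, ∑ w' ∈ Wr B b m D1 t'.1 t'.2 ρ,
            1 / (t.1 : ℝ) * (1 / (t'.1 : ℝ)) *
              ((((univ : Finset (B → ZMod Q2)).filter
                (fun σ => DD b m D1 t.1 t.2 ∣ dot Q2 (V (b + 1) m w t.1) σ)) ∩
                ((univ : Finset (B → ZMod Q2)).filter
                (fun σ => DD b m D1 t'.1 t'.2 ∣ dot Q2 (V (b + 1) m w' t'.1) σ))).card : ℝ) ≤
          (Q2 : ℝ) ^ b *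
            (((Wr B b m D1 t.1 t.2 ρ).card : ℝ) / ((t.1 : ℝ) * DD b m D1 t.1 t.2) *
              (((Wr B b m D1 t'.1 t'.2 ρ).card : ℝ) / ((t'.1 : ℝ) * DD b m D1 t'.1 t'.2)) +
            4 / Real.sqrt M0 * ((Nt b t.1 t.2 : ℝ) / ((t.1 : ℝ) * DD b m D1 t.1 t.2) *
              ((Nt b t'.1 t'.2 : ℝ) / ((t'.1 : ℝ) * DD b m D1 t'.1 t'.2))) +
            (if t = t' then (Nt b t.1 t.2 : ℝ) / ((t.1 : ℝ) * DD b m D1 t.1 t.2) +
              1 / (t.1 : ℝ) ^ 7 else 0)) := by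
        intro t ht t' ht'
        have hl := hL0 t ht
        have hl' := hL0 t' ht'
        have hd := hD0 t ht
        have hd' := hD0 t' ht'
        have h1 := pair_bound hB Ls F hsame ρ Q2 hQ t.1 t.2 t'.1 t'.2 (hT t ht).1 (hT t ht).2
          (hT t' ht').1 (hT t' ht').2
        set S : ℝ := ∑ w ∈ Wr B b m D1 t.1 t.2 ρ, ∑ w' ∈ Wr B b m D1 t'.1 t'.2 ρ,
          (((univ : Finset (B → ZMod Q2)).filter
            (fun σ => DD b m D1 t.1 t.2 ∣ dot Q2 (V (b + 1) m w t.1) σ ∧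
            DD b m D1 t'.1 t'.2 ∣ dot Q2 (V (b + 1) m w' t'.1) σ)).card : ℝ) with hSdef
        have h2 : ∑ w ∈ Wr B b m D1 t.1 t.2 ρ, ∑ w' ∈ Wr B b m D1 t'.1 t'.2 ρ,
            1 / (t.1 : ℝ) * (1 / (t'.1 : ℝ)) *
              ((((univ : Finset (B → ZMod Q2)).filter
                (fun σ => DD b m D1 t.1 t.2 ∣ dot Q2 (V (b + 1) m w t.1) σ)) ∩
                ((univ : Finset (B → ZMod Q2)).filter
                (fun σ => DD b m D1 t'.1 t'.2 ∣ dot Q2 (V (b + 1) m w' t'.1) σ))).card : ℝ) =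
            1 / (t.1 : ℝ) * (1 / (t'.1 : ℝ)) * S := by
          rw [hSdef, mul_sum]
          refine sum_congr rfl fun w _ => ?_
          rw [mul_sum]
          refine sum_congr rfl fun w' _ => ?_
          rw [← filter_and]
        rw [h2]
        have h3 : S ≤ (Q2 : ℝ) ^ b * ((Wr B b m D1 t.1 t.2 ρ).card *
            (Wr B b m D1 t'.1 t'.2 ρ).card +
            4 / Real.sqrt M0 * (Nt b t.1 t.2) * (Nt b t'.1 t'.2) +
            (if t.1 = t'.1 ∧ t.2 = t'.2 then t.1 * (Nt b t.1 t.2 : ℝ) * DD b m D1 t.1 t.2 +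
              (DD b m D1 t.1 t.2 : ℝ) ^ 2 / (t.1 : ℝ) ^ 5 else 0)) /
            (DD b m D1 t.1 t.2 * DD b m D1 t'.1 t'.2) := by
          rw [le_div_iff₀ (mul_pos hd hd')]
          exact h1
        refine (mul_le_mul_of_nonneg_left h3 (by positivity)).trans (le_of_eq ?_)
        by_cases htt : t = t'
        · subst htt
          rw [if_pos ⟨rfl, rfl⟩, if_pos rfl]
          field_simp
        · have hne : ¬ (t.1 = t'.1 ∧ t.2 = t'.2) := by
            rintro ⟨h4, h5⟩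
            exact htt (by
              obtain ⟨x, y⟩ := t
              obtain ⟨x', y'⟩ := t'
              simp only at h4 h5
              subst h4
              subst h5
              rfl)
          rw [if_neg hne, if_neg htt]
          field_simp
          ring
      calc ∑ t ∈ T, ∑ w ∈ Wr B b m D1 t.1 t.2 ρ, ∑ t' ∈ T,
            ∑ w' ∈ Wr B b m D1 t'.1 t'.2 ρ,
            1 / (t.1 : ℝ) * (1 / (t'.1 : ℝ)) *
              ((((univ : Finset (B → ZMod Q2)).filter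
                (fun σ => DD b m D1 t.1 t.2 ∣ dot Q2 (V (b + 1) m w t.1) σ)) ∩
                ((univ : Finset (B → ZMod Q2)).filter
                (fun σ => DD b m D1 t'.1 t'.2 ∣ dot Q2 (V (b + 1) m w' t'.1) σ))).card : ℝ)
          = ∑ t ∈ T, ∑ t' ∈ T, ∑ w ∈ Wr B b m D1 t.1 t.2 ρ,
            ∑ w' ∈ Wr B b m D1 t'.1 t'.2 ρ,
            1 / (t.1 : ℝ) * (1 / (t'.1 : ℝ)) *
              ((((univ : Finset (B → ZMod Q2)).filter
                (fun σ => DD b m D1 t.1 t.2 ∣ dot Q2 (V (b + 1) m w t.1) σ)) ∩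
                ((univ : Finset (B → ZMod Q2)).filter
                (fun σ => DD b m D1 t'.1 t'.2 ∣ dot Q2 (V (b + 1) m w' t'.1) σ))).card : ℝ) := by
            refine sum_congr rfl fun t _ => ?_
            rw [sum_comm]
        _ ≤ ∑ t ∈ T, ∑ t' ∈ T, (Q2 : ℝ) ^ b *
            (((Wr B b m D1 t.1 t.2 ρ).card : ℝ) / ((t.1 : ℝ) * DD b m D1 t.1 t.2) *
              (((Wr B b m D1 t'.1 t'.2 ρ).card : ℝ) / ((t'.1 : ℝ) * DD b m D1 t'.1 t'.2)) +
            4 / Real.sqrt M0 * ((Nt b t.1 t.2 : ℝ) / ((t.1 : ℝ) * DD b m D1 t.1 t.2) *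
              ((Nt b t'.1 t'.2 : ℝ) / ((t'.1 : ℝ) * DD b m D1 t'.1 t'.2))) +
            (if t = t' then (Nt b t.1 t.2 : ℝ) / ((t.1 : ℝ) * DD b m D1 t.1 t.2) +
              1 / (t.1 : ℝ) ^ 7 else 0)) :=
            sum_le_sum fun t ht => sum_le_sum fun t' ht' => hS t ht t' ht'
        _ = _ := by
            simp_rw [← mul_sum, sum_add_distrib]
            congr 1
            have e1 : ∑ t ∈ T, ∑ t' ∈ T, (if t = t' then
                (Nt b t.1 t.2 : ℝ) / ((t.1 : ℝ) * DD b m D1 t.1 t.2) +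
                1 / (t.1 : ℝ) ^ 7 else 0) = Full b m D1 N0 Ls + ∑ t ∈ T, 1 / (t.1 : ℝ) ^ 7 := by
              rw [Full, ← sum_add_distrib]
              refine sum_congr rfl fun t ht => ?_
              rw [sum_ite_eq, if_pos ht]
            rw [e1]
            unfold mu Full
            rw [sq, sq, sum_mul_sum, sum_mul_sum]
            simp_rw [mul_sum]
            ring)
  rw [hcard] at key
  exact key

end GC85
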