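import Mathlib
import Pool.Agent.Helper85.DN.Moment

/-!
# DN-MainA: comparison of `mu` and `Full`

`DD = ((b + 1) ^ L - m ^ s) / D1` exactly, and `(b + 1) ^ L / 2 ≤ (b + 1) ^ L - m ^ s ≤ (b + 1) ^ L` (`DP.le2`), so
`D1 / (b + 1) ^ L ≤ 1 / DD ≤ 2 D1 / (b + 1) ^ L`; for fixed `L` sum over `s` first (`Finset.sum_sigma`), with the two inequalities `hg`, `hg2`.
-/

set_option autoImplicit false

namespace GC85

open Finset GC70

variable {B : Type} [Fintype B] [DecidableEq B]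

/-- the two bounds for `1 / DD` -/
private lemma MainA_dd {b m D1 N0 M0 : ℕ} (hD1 : 0 < D1) {Ls : Finset ℕ}
    (F : Fam b m D1 N0 M0 Ls)
    (hdv : ∀ L ∈ Ls, ∀ s ∈ Tys b N0 L, D1 ∣ (b + 1) ^ L - m ^ s) {L s : ℕ} (hL : L ∈ Ls)
    (hs : s ∈ Tys b N0 L) :
    (D1 : ℝ) / ((b : ℝ) + 1) ^ L ≤ 1 / (DD b m D1 L s : ℝ) ∧
      1 / (DD b m D1 L s : ℝ) ≤ 2 * (D1 : ℝ) / ((b : ℝ) + 1) ^ L := by
  have h1 := (F.dp L hL s hs).le2
  have h2 : DD b m D1 L s * D1 = (b + 1) ^ L - m ^ s := Nat.div_mul_cancel (hdv L hL s hs)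
  have hA : 0 < (b + 1) ^ L := by positivity
  have h3 : DD b m D1 L s * D1 ≤ (b + 1) ^ L := by omega
  have h4 : (b + 1) ^ L ≤ 2 * (DD b m D1 L s * D1) := by omega
  have h5 : 0 < DD b m D1 L s := by
    rcases Nat.eq_zero_or_pos (DD b m D1 L s) with h0 | h0
    · rw [h0] at h4
      omega
    · exact h0
  have h3' : (DD b m D1 L s : ℝ) * D1 ≤ ((b : ℝ) + 1) ^ L := by exact_mod_cast h3
  have h4' : ((b : ℝ) + 1) ^ L ≤ 2 * ((DD b m D1 L s : ℝ) * D1) := by exact_mod_cast h4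
  have h5' : (0 : ℝ) < DD b m D1 L s := by exact_mod_cast h5
  have hA' : (0 : ℝ) < ((b : ℝ) + 1) ^ L := by positivity
  constructor
  · rw [div_le_div_iff₀ hA' h5']
    linarith
  · rw [div_le_div_iff₀ h5' hA']
    linarith

theorem full_le {b m D1 N0 M0 : ℕ} (hD1 : 0 < D1) (Ls : Finset ℕ) (F : Fam b m D1 N0 M0 Ls)
    (hdv : ∀ L ∈ Ls, ∀ s ∈ Tys b N0 L, D1 ∣ (b + 1) ^ L - m ^ s) (ρ : B → ZMod D1)
    (hg : ∀ L ∈ Ls, ∑ s ∈ Tys b N0 L, Nt b L s ≤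
      4 * D1 ^ D1 * ∑ s ∈ Tys b N0 L, (Wr B b m D1 L s ρ).card) :
    Full b m D1 N0 Ls ≤ 8 * (D1 : ℝ) ^ D1 * mu B b m D1 N0 Ls ρ := by
  have hD1' : (0 : ℝ) < D1 := by exact_mod_cast hD1
  rw [Full, mu, Finset.sum_sigma, Finset.sum_sigma, Finset.mul_sum]
  refine Finset.sum_le_sum fun L hL => ?_
  have hL0 : (0 : ℝ) < L := by
    have := F.two L hL
    have h : 0 < L := by omega
    exact_mod_cast h
  have hA : (0 : ℝ) < ((b : ℝ) + 1) ^ L := by positivity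
  have hg' : (∑ s ∈ Tys b N0 L, (Nt b L s : ℝ)) ≤
      4 * (D1 : ℝ) ^ D1 * ∑ s ∈ Tys b N0 L, ((Wr B b m D1 L s ρ).card : ℝ) := by
    exact_mod_cast hg L hL
  calc ∑ s ∈ Tys b N0 L, (Nt b L s : ℝ) / ((L : ℝ) * DD b m D1 L s)
      ≤ ∑ s ∈ Tys b N0 L, (2 * (D1 : ℝ) / ((b : ℝ) + 1) ^ L / L) * (Nt b L s : ℝ) := by
        refine Finset.sum_le_sum fun s hs => ?_
        have h := (MainA_dd hD1 F hdv hL hs).2
        have h1 : (Nt b L s : ℝ) / ((L : ℝ) * DD b m D1 L s) =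
            (Nt b L s : ℝ) / L * (1 / (DD b m D1 L s : ℝ)) := by
          rw [div_mul_div_comm, mul_one]
        rw [h1]
        calc (Nt b L s : ℝ) / L * (1 / (DD b m D1 L s : ℝ))
            ≤ (Nt b L s : ℝ) / L * (2 * (D1 : ℝ) / ((b : ℝ) + 1) ^ L) :=
              mul_le_mul_of_nonneg_left h (by positivity)
          _ = (2 * (D1 : ℝ) / ((b : ℝ) + 1) ^ L / L) * (Nt b L s : ℝ) := by ring
    _ = (2 * (D1 : ℝ) / ((b : ℝ) + 1) ^ L / L) * ∑ s ∈ Tys b N0 L, (Nt b L s : ℝ) := by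
        rw [Finset.mul_sum]
    _ ≤ (2 * (D1 : ℝ) / ((b : ℝ) + 1) ^ L / L) *
          (4 * (D1 : ℝ) ^ D1 * ∑ s ∈ Tys b N0 L, ((Wr B b m D1 L s ρ).card : ℝ)) :=
        mul_le_mul_of_nonneg_left hg' (by positivity)
    _ = 8 * (D1 : ℝ) ^ D1 * ∑ s ∈ Tys b N0 L,
          ((Wr B b m D1 L s ρ).card : ℝ) / L * ((D1 : ℝ) / ((b : ℝ) + 1) ^ L) := by
        rw [← Finset.sum_mul, ← Finset.sum_div]
        ring
    _ ≤ 8 * (D1 : ℝ) ^ D1 * ∑ s ∈ Tys b N0 L,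
          ((Wr B b m D1 L s ρ).card : ℝ) / ((L : ℝ) * DD b m D1 L s) := by
        refine mul_le_mul_of_nonneg_left (Finset.sum_le_sum fun s hs => ?_) (by positivity)
        have h := (MainA_dd hD1 F hdv hL hs).1
        have h1 : ((Wr B b m D1 L s ρ).card : ℝ) / ((L : ℝ) * DD b m D1 L s) =
            ((Wr B b m D1 L s ρ).card : ℝ) / L * (1 / (DD b m D1 L s : ℝ)) := by
          rw [div_mul_div_comm, mul_one]
        rw [h1]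
        exact mul_le_mul_of_nonneg_left h (by positivity)

theorem mu_ge {b m D1 N0 M0 : ℕ} (hD1 : 0 < D1) (Ls : Finset ℕ) (F : Fam b m D1 N0 M0 Ls)
    (hdv : ∀ L ∈ Ls, ∀ s ∈ Tys b N0 L, D1 ∣ (b + 1) ^ L - m ^ s) (ρ : B → ZMod D1)
    (hg : ∀ L ∈ Ls, ∑ s ∈ Tys b N0 L, Nt b L s ≤
      4 * D1 ^ D1 * ∑ s ∈ Tys b N0 L, (Wr B b m D1 L s ρ).card)
    (hg2 : ∀ L ∈ Ls, (b + 1) ^ L ≤ 2 * (b + 1) ^ N0 * ∑ s ∈ Tys b N0 L, Nt b L s) :
    (1 / (8 * (D1 : ℝ) ^ D1 * ((b : ℝ) + 1) ^ N0)) * ∑ L ∈ Ls, 1 / (L : ℝ) ≤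
      mu B b m D1 N0 Ls ρ := by
  have hD1' : (1 : ℝ) ≤ D1 := by exact_mod_cast hD1
  rw [mu, Finset.sum_sigma, Finset.mul_sum]
  refine Finset.sum_le_sum fun L hL => ?_
  have hL0 : (0 : ℝ) < L := by
    have := F.two L hL
    have h : 0 < L := by omega
    exact_mod_cast h
  have hA : (0 : ℝ) < ((b : ℝ) + 1) ^ L := by positivity
  have hg' : (∑ s ∈ Tys b N0 L, (Nt b L s : ℝ)) ≤
      4 * (D1 : ℝ) ^ D1 * ∑ s ∈ Tys b N0 L, ((Wr B b m D1 L s ρ).card : ℝ) := by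
    exact_mod_cast hg L hL
  have hg2' : ((b : ℝ) + 1) ^ L ≤
      2 * ((b : ℝ) + 1) ^ N0 * ∑ s ∈ Tys b N0 L, (Nt b L s : ℝ) := by
    exact_mod_cast hg2 L hL
  set S : ℝ := ∑ s ∈ Tys b N0 L, ((Wr B b m D1 L s ρ).card : ℝ) with hS
  have hN : (0 : ℝ) < ((b : ℝ) + 1) ^ N0 := by positivity
  have hDD : (0 : ℝ) < (D1 : ℝ) ^ D1 := by positivity
  have h1 : ((b : ℝ) + 1) ^ L ≤ 8 * (D1 : ℝ) ^ D1 * ((b : ℝ) + 1) ^ N0 * S := by
    calc ((b : ℝ) + 1) ^ L ≤ 2 * ((b : ℝ) + 1) ^ N0 * ∑ s ∈ Tys b N0 L, (Nt b L s : ℝ) := hg2'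
      _ ≤ 2 * ((b : ℝ) + 1) ^ N0 * (4 * (D1 : ℝ) ^ D1 * S) :=
          mul_le_mul_of_nonneg_left hg' (by positivity)
      _ = 8 * (D1 : ℝ) ^ D1 * ((b : ℝ) + 1) ^ N0 * S := by ring
  calc 1 / (8 * (D1 : ℝ) ^ D1 * ((b : ℝ) + 1) ^ N0) * (1 / (L : ℝ))
      ≤ (S / ((b : ℝ) + 1) ^ L) * (1 / (L : ℝ)) := by
        refine mul_le_mul_of_nonneg_right ?_ (by positivity)
        rw [div_le_div_iff₀ (by positivity) hA, one_mul]
        linarith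
    _ ≤ (S * ((D1 : ℝ) / ((b : ℝ) + 1) ^ L)) * (1 / (L : ℝ)) := by
        refine mul_le_mul_of_nonneg_right ?_ (by positivity)
        have hS0 : 0 ≤ S := by positivity
        rw [mul_div_assoc']
        refine div_le_div_of_nonneg_right ?_ hA.le
        exact le_mul_of_one_le_right hS0 hD1'
    _ = ∑ s ∈ Tys b N0 L,
          ((Wr B b m D1 L s ρ).card : ℝ) / L * ((D1 : ℝ) / ((b : ℝ) + 1) ^ L) := by
        rw [← Finset.sum_mul, ← Finset.sum_div, ← hS]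
        ring
    _ ≤ ∑ s ∈ Tys b N0 L,
          ((Wr B b m D1 L s ρ).card : ℝ) / ((L : ℝ) * DD b m D1 L s) := by
        refine Finset.sum_le_sum fun s hs => ?_
        have h := (MainA_dd hD1 F hdv hL hs).1
        have h1 : ((Wr B b m D1 L s ρ).card : ℝ) / ((L : ℝ) * DD b m D1 L s) =
            ((Wr B b m D1 L s ρ).card : ℝ) / L * (1 / (DD b m D1 L s : ℝ)) := by
          rw [div_mul_div_comm, mul_one]
        rw [h1]
        exact mul_le_mul_of_nonneg_left h (by positivity)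

end GC85
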