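import Mathlib
import Pool.Agent.Helper85.DN.PDefs
import Pool.Agent.Helper85.DN.Base

/-!
# DN-MidA: the number of the proportionality factors

`lam_count`: the factors `l` with `l * T = T'` in `ZMod g`: two such units differ by an element killed by `T`, and the
number of `x : ZMod g` with `x * T = 0` is `gcd (T, g)`.

`sum_V_TN`: exchange the two sums in `V` (`GC70.V`), each `j ∈ sk w L` has exactly one letter.

`split_parts`: split `S` according to the skeletons `sk p.1 L`, `sk p.2 L` (at most `4 ^ L` pairs, subsets of `range L`) and a factor `l`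
(choose one for each `p`). Summing the relation over all letters, `l * TN N = TN N'` in `ZMod g`, so for fixed skeletons
there are at most `gcd (TN N, g) ≤ gcd (TN N, D) ≤ (b + 1) ^ y` values of `l` (`W0`; `g ∣ D`, `D > 0` by `DP.ge`).
-/

set_option autoImplicit false

namespace GC85

open Finset GC70

variable {B : Type} [Fintype B] [DecidableEq B]

private theorem MidA_card {g : ℕ} [NeZero g] (T : ℕ) (A : Finset (ZMod g))
    (hA : ∀ x ∈ A, x * (T : ZMod g) = 0) : A.card ≤ Nat.gcd T g := by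
  classical
  have hg : 0 < g := Nat.pos_of_ne_zero (NeZero.ne g)
  have h1 : A ⊆ univ.filter (fun x : ZMod g => Nat.gcd T g • x = 0) := by
    intro x hx
    rw [mem_filter]
    refine ⟨mem_univ _, ?_⟩
    rw [← addOrderOf_dvd_iff_nsmul_eq_zero]
    apply Nat.dvd_gcd
    · rw [addOrderOf_dvd_iff_nsmul_eq_zero, nsmul_eq_mul, mul_comm]
      exact hA x hx
    · rw [addOrderOf_dvd_iff_nsmul_eq_zero, nsmul_eq_mul, ZMod.natCast_self, zero_mul]
  exact (card_le_card h1).trans
    (IsAddCyclic.card_nsmul_eq_zero_le (Nat.gcd_pos_of_pos_right T hg))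

theorem lam_count {g : ℕ} [NeZero g] (T T' : ℕ) (S : Finset (ZMod g)ˣ)
    (hS : ∀ l ∈ S, (l : ZMod g) * (T : ZMod g) = T') : S.card ≤ Nat.gcd T g := by
  classical
  rcases S.eq_empty_or_nonempty with rfl | ⟨l0, hl0⟩
  · simp
  have h1 : (S.image fun l : (ZMod g)ˣ => (l : ZMod g) - l0).card = S.card := by
    apply card_image_of_injective
    intro l l' h
    have h2 : (l : ZMod g) = l' := sub_left_injective h
    exact Units.ext h2
  rw [← h1]
  apply MidA_card
  intro x hx
  obtain ⟨l, hl, rfl⟩ := mem_image.1 hx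
  rw [sub_mul, hS l hl, hS l0 hl0, sub_self]

theorem sum_V_TN {d m L : ℕ} (w : ℤ → Option B) :
    ∑ i, V d m w L i = TN d m (sk w L) := by
  unfold V TN
  simp_rw [sum_filter]
  rw [sum_comm]
  have h1 : ∀ j ∈ range L, (∑ i : B, if w (j : ℤ) = some i then wt d m (sk w L) j else 0) =
      if (w (j : ℤ)).isSome then wt d m (sk w L) j else 0 := by
    intro j _
    rcases h : w (j : ℤ) with _ | i0
    · simp
    · simp
  rw [sum_congr rfl h1, ← sum_filter]
  rfl

theorem split_parts {b m L s y M0 D g : ℕ} (Q : DP b m L s M0 D) (hgD : g ∣ D)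
    (S : Finset ((ℤ → Option B) × (ℤ → Option B)))
    (hS : ∀ p ∈ S, p.1 ∈ W0 B b m L s D y ∧ p.2 ∈ W0 B b m L s D y)
    (hr : ∀ p ∈ S, RelG (b + 1) m g L L p.1 p.2) (c : ℕ)
    (hc : ∀ S' ⊆ S, ∀ l : (ZMod g)ˣ,
      (∀ p ∈ S', ∀ p' ∈ S', sk p.1 L = sk p'.1 L ∧ sk p.2 L = sk p'.2 L) →
      (∀ p ∈ S', ∀ i, (V (b + 1) m p.2 L i : ZMod g) = l * (V (b + 1) m p.1 L i : ZMod g)) →
      S'.card ≤ c) :
    S.card ≤ 4 ^ L * (b + 1) ^ y * c := by
  classical
  have hD : 0 < D := by
    rcases Nat.eq_zero_or_pos D with h | h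
    · exfalso
      have h1 := Q.ge
      rw [h, zero_mul] at h1
      have h2 : 0 < (b + 1) ^ L := by positivity
      omega
    · exact h
  have hg : g ≠ 0 := fun h => hD.ne' (by rw [h] at hgD; exact zero_dvd_iff.1 hgD)
  haveI : NeZero g := ⟨hg⟩
  have hr' : ∀ p : (ℤ → Option B) × (ℤ → Option B), ∃ l : (ZMod g)ˣ, p ∈ S →
      ∀ i, (V (b + 1) m p.2 L i : ZMod g) = l * (V (b + 1) m p.1 L i : ZMod g) := by
    intro p
    by_cases hp : p ∈ S
    · obtain ⟨l, hl⟩ := hr p hp
      exact ⟨l, fun _ => hl⟩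
    · exact ⟨1, fun h => absurd h hp⟩
  choose lf hlf using hr'
  let f : (ℤ → Option B) × (ℤ → Option B) → (Finset ℕ × Finset ℕ) × (ZMod g)ˣ := fun p =>
    ((sk p.1 L, sk p.2 L), lf p)
  have e1 : S.card ≤ c * (S.image f).card := by
    apply card_le_mul_card_image
    intro t _
    apply hc _ (filter_subset _ _) t.2
    · intro p hp p' hp'
      have h1 : f p = t := (mem_filter.1 hp).2
      have h2 : f p' = t := (mem_filter.1 hp').2
      have h3 : f p = f p' := h1.trans h2.symm
      have h4 : (sk p.1 L, sk p.2 L) = (sk p'.1 L, sk p'.2 L) := congrArg Prod.fst h3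
      exact ⟨congrArg Prod.fst h4, congrArg Prod.snd h4⟩
    · intro p hp i
      have h1 : f p = t := (mem_filter.1 hp).2
      have h2 : lf p = t.2 := congrArg Prod.snd h1
      rw [← h2]
      exact hlf p (mem_filter.1 hp).1 i
  have e2 : (S.image f).card ≤ (b + 1) ^ y * ((S.image f).image Prod.fst).card := by
    apply card_le_mul_card_image
    intro N hN
    obtain ⟨t, ht, htN⟩ := mem_image.1 hN
    obtain ⟨p0, hp0, hpt⟩ := mem_image.1 ht
    have hN0 : N = (sk p0.1 L, sk p0.2 L) := by rw [← htN, ← hpt]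
    have h1 : ((filter (fun t => t.1 = N) (S.image f)).image Prod.snd).card =
        (filter (fun t => t.1 = N) (S.image f)).card := by
      apply card_image_of_injOn
      intro t1 ht1 t2 ht2 h
      have h3 := (mem_filter.1 ht1).2
      have h4 := (mem_filter.1 ht2).2
      exact Prod.ext (h3.trans h4.symm) h
    rw [← h1]
    refine (lam_count (TN (b + 1) m (sk p0.1 L)) (TN (b + 1) m (sk p0.2 L)) _ ?_).trans ?_
    · intro l hl
      obtain ⟨t', ht', rfl⟩ := mem_image.1 hl
      obtain ⟨h5, h6⟩ := mem_filter.1 ht'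
      obtain ⟨p, hp, rfl⟩ := mem_image.1 h5
      have h7 : (sk p.1 L, sk p.2 L) = (sk p0.1 L, sk p0.2 L) := h6.trans hN0
      have h8 : sk p.1 L = sk p0.1 L := congrArg Prod.fst h7
      have h9 : sk p.2 L = sk p0.2 L := congrArg Prod.snd h7
      rw [← h8, ← h9, ← sum_V_TN, ← sum_V_TN]
      push_cast
      rw [mul_sum]
      exact sum_congr rfl fun i _ => (hlf p hp i).symm
    · have h5 := (hS p0 hp0).1
      unfold W0 at h5
      have h6 := (mem_filter.1 h5).2.2.2.2
      refine le_trans (Nat.le_of_dvd (Nat.gcd_pos_of_pos_right _ hD) ?_) h6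
      exact Nat.gcd_dvd_gcd_of_dvd_right _ hgD
  have e3 : ((S.image f).image Prod.fst).card ≤ 4 ^ L := by
    have h1 : (S.image f).image Prod.fst ⊆ (range L).powerset ×ˢ (range L).powerset := by
      intro N hN
      obtain ⟨t, ht, rfl⟩ := mem_image.1 hN
      obtain ⟨p, hp, rfl⟩ := mem_image.1 ht
      rw [mem_product, mem_powerset, mem_powerset]
      exact ⟨filter_subset _ _, filter_subset _ _⟩
    refine (card_le_card h1).trans (le_of_eq ?_)
    rw [card_product, card_powerset, card_range, ← mul_pow]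
    norm_num
  calc S.card ≤ c * (S.image f).card := e1
    _ ≤ c * ((b + 1) ^ y * 4 ^ L) :=
        Nat.mul_le_mul_left _ (e2.trans (Nat.mul_le_mul_left _ e3))
    _ = 4 ^ L * (b + 1) ^ y * c := by ring

/-- periodic words with the same skeleton -/
theorem isSome_of_sk {w w' : ℤ → Option B} {L : ℕ} (hL : 0 < L) (hw : Per w L) (hw' : Per w' L)
    (h : sk w L = sk w' L) (j : ℤ) : (w j).isSome = (w' j).isSome := by
  have hL' : (0 : ℤ) < L := by exact_mod_cast hL
  have h1 : j % L + j / L * L = j := Int.emod_add_ediv_mul j L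
  have h2 := hw.zmul (j / L) (j % L)
  have h3 := hw'.zmul (j / L) (j % L)
  rw [h1] at h2 h3
  rw [h2, h3]
  obtain ⟨r, hr⟩ := Int.eq_ofNat_of_zero_le (Int.emod_nonneg j hL'.ne')
  have hrL : r < L := by
    have h4 := Int.emod_lt_of_pos j hL'
    rw [hr] at h4
    exact_mod_cast h4
  rw [hr]
  have h5 : r ∈ sk w L ↔ r ∈ sk w' L := by rw [h]
  unfold sk at h5
  rw [mem_filter, mem_filter] at h5
  have h6 : (w (r : ℤ)).isSome = true ↔ (w' (r : ℤ)).isSome = true := by
    constructor
    · intro h7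
      exact (h5.1 ⟨mem_range.2 hrL, h7⟩).2
    · intro h7
      exact (h5.2 ⟨mem_range.2 hrL, h7⟩).2
  exact Bool.eq_iff_iff.2 h6

end GC85
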