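import Mathlib
import Pool.Agent.Helper85.DN.MidA

/-!
# DN-Mid: pairs of words of one type which are proportional modulo a number of middle size

`split_parts`. Let `(b + 1) ^ a ≤ g < (b + 1) ^ (a + 1)`, so `a ≥ L / 18`, `a + 4 y < L`, and
`q = min (L / 2) (a - 2 ε)`: `2 q m ^ (q - 1) ≤ 2 L (b + 1) ^ (q - 1 + ε) < (b + 1) ^ (q + 2 ε) ≤ g`.
`GC70.range2_count` (`Helper70/GC/Range2.lean`) with `q = q'`, `U = ε` bounds each part by
`b ^ (2 s) (2 / b) ^ (2 (q - ε)) ≤ (b + 1) ^ (2 L) 16 ^ L (b + 1) ^ (2 ε - 2 q)` (`1 / b ≤ 2 / (b + 1)`). In total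
`S.card * g * (b + 1) ^ (2 y) ≤ 4 ^ L 16 ^ L (b + 1) ^ (y + 2 L + 2 ε - 2 q + a + 1 + 2 y)`, `4 ^ L 16 ^ L ≤ (b + 1) ^ (2 ε)`, and
`2 q ≥ a + 3 y + 5 ε + 1` in both cases (`q = a - 2 ε` and `a ≥ L / 18`, or `q = L / 2` and `a + 4 y < L`).
-/

set_option autoImplicit false

namespace GC85

open Finset GC70

variable {B : Type} [Fintype B] [DecidableEq B]

/-- the numerical facts on the window -/
private theorem Mid_num {b m L s y ε g : ℕ} (N : NP b m L s y ε) (h1 : (b + 1) ^ (L / 18) ≤ g)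
    (h2 : g * (b + 1) ^ (4 * y) < (b + 1) ^ L) :
    ∃ a q : ℕ, g < (b + 1) ^ (a + 1) ∧ 2 * q ≤ L ∧ 2 * q * m ^ (q - 1) < g ∧
      a + 3 * y + 4 * ε + 1 ≤ 2 * q ∧ ε ≤ q := by
  have hb := N.b1
  have hX : 1 < b + 1 := by
    have : 0 < 2 ^ 60 := by norm_num
    omega
  have hg0 : g ≠ 0 := by
    have : 0 < (b + 1) ^ (L / 18) := by positivity
    omega
  have hLge := N.Lge
  have hy := N.yge
  have hε := N.eps
  have hε1 := N.eps1
  set a : ℕ := Nat.log (b + 1) g with ha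
  have ha1 : (b + 1) ^ a ≤ g := Nat.pow_log_le_self _ hg0
  have ha2 : g < (b + 1) ^ (a + 1) := Nat.lt_pow_succ_log_self hX g
  have ha3 : L / 18 ≤ a := by
    have : (b + 1) ^ (L / 18) < (b + 1) ^ (a + 1) := h1.trans_lt ha2
    have := (Nat.pow_lt_pow_iff_right hX).1 this
    omega
  have ha4 : a + 4 * y < L := by
    have : (b + 1) ^ (a + 4 * y) < (b + 1) ^ L := by
      rw [pow_add]
      exact (Nat.mul_le_mul_right _ ha1).trans_lt h2
    exact (Nat.pow_lt_pow_iff_right hX).1 this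
  refine ⟨a, min (L / 2) (a - 2 * ε), ha2, ?_, ?_, ?_, ?_⟩
  · have := min_le_left (L / 2) (a - 2 * ε)
    omega
  · set q : ℕ := min (L / 2) (a - 2 * ε) with hq
    have hq1 : q ≤ L / 2 := min_le_left _ _
    have hq2 : q ≤ a - 2 * ε := min_le_right _ _
    have hq3 : 1 ≤ q := by
      rw [hq]
      refine le_min ?_ ?_ <;> omega
    have hm := N.m_pow (q - 1) (by omega)
    have h16 := N.pw
    have hL16 : 2 * q ≤ (b + 1) ^ ε := by
      have : L < 16 ^ L := Nat.lt_pow_self (by norm_num)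
      omega
    calc 2 * q * m ^ (q - 1) ≤ (b + 1) ^ ε * (b + 1) ^ (q - 1 + ε) := Nat.mul_le_mul hL16 hm
      _ = (b + 1) ^ (ε + (q - 1 + ε)) := (pow_add _ _ _).symm
      _ < (b + 1) ^ a := by
          refine (Nat.pow_lt_pow_iff_right hX).2 ?_
          omega
      _ ≤ g := ha1
  · rcases min_choice (L / 2) (a - 2 * ε) with h | h <;> rw [h] <;> omega
  · refine le_min ?_ ?_ <;> omega

theorem mid {b m L s y ε M0 D g : ℕ} (hB : Fintype.card B = b) (N : NP b m L s y ε)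
    (Q : DP b m L s M0 D) (hgD : g ∣ D) (h1 : (b + 1) ^ (L / 18) ≤ g)
    (h2 : g * (b + 1) ^ (4 * y) < (b + 1) ^ L)
    (S : Finset ((ℤ → Option B) × (ℤ → Option B)))
    (hS : ∀ p ∈ S, p.1 ∈ W0 B b m L s D y ∧ p.2 ∈ W0 B b m L s D y)
    (hr : ∀ p ∈ S, RelG (b + 1) m g L L p.1 p.2) :
    S.card * g * (b + 1) ^ (2 * y) ≤ (b + 1) ^ (2 * L) := by
  classical
  obtain ⟨a, q, ha, hq2, hqm, hqa, hεq⟩ := Mid_num N h1 h2
  obtain ⟨hgd, hgm⟩ := Q.cop N hgD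
  obtain ⟨hs0, hL0⟩ := N.s_pos
  have hb60 := N.b1
  have hb2 : 2 ≤ b := le_trans (by norm_num) hb60
  have hne : Nonempty B := by
    rw [← Fintype.card_pos_iff, hB]
    omega
  obtain ⟨b0⟩ := hne
  set X : ℝ := (b : ℝ) + 1 with hX
  have hbR : (2 : ℝ) ≤ b := by exact_mod_cast hb2
  have hb0' : (0 : ℝ) < b := by linarith
  have hX1 : (1 : ℝ) ≤ X := by linarith
  have hX0 : (0 : ℝ) < X := by linarith
  set Bd : ℝ := (b : ℝ) ^ s * (b : ℝ) ^ s * (2 / (b : ℝ)) ^ ((q - ε) + (q - ε)) with hBd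
  have hBd0 : 0 ≤ Bd := by positivity
  have hmem : ∀ w : ℤ → Option B, w ∈ W0 B b m L s D y → Per w L ∧ (sk w L).card = s := by
    intro w hw
    unfold W0 at hw
    have h3 := (Finset.mem_filter.1 hw).2.1
    exact ⟨h3.per, h3.cnt⟩
  have hparts : S.card ≤ 4 ^ L * (b + 1) ^ y * ⌊Bd⌋₊ := by
    refine split_parts Q hgD S hS hr _ ?_
    intro S' hS' l hsame hl
    rcases S'.eq_empty_or_nonempty with rfl | ⟨p0, hp0⟩
    · simp
    · refine Nat.le_floor ?_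
      have hp0S := hS p0 (hS' hp0)
      obtain ⟨hper1, hc1⟩ := hmem _ hp0S.1
      obtain ⟨hper2, hc2⟩ := hmem _ hp0S.2
      have h3 := range2_count b0 (by omega) (b + 1) m g (by omega) N.dm N.cop hgd hgm L L q q ε
        hL0 hL0 hq2 hq2 hqm hqm (sk p0.1 L) (sk p0.2 L) (Finset.filter_subset _ _)
        (Finset.filter_subset _ _) (by rw [hc1]; exact N.zer) (by rw [hc2]; exact N.zer) l S' (by
          intro p hp
          have hpS := hS p (hS' hp)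
          exact ⟨(hmem _ hpS.1).1, (hmem _ hpS.2).1, (hsame p hp p0 hp0).1,
            (hsame p hp p0 hp0).2, hl p hp⟩)
      rw [hc1, hc2, hB] at h3
      exact h3
  have hpartsR : (S.card : ℝ) ≤ 4 ^ L * X ^ y * Bd := by
    have h3 : ((S.card : ℕ) : ℝ) ≤ ((4 ^ L * (b + 1) ^ y * ⌊Bd⌋₊ : ℕ) : ℝ) := by
      exact_mod_cast hparts
    push_cast at h3
    refine h3.trans ?_
    have h4 : ((⌊Bd⌋₊ : ℕ) : ℝ) ≤ Bd := Nat.floor_le hBd0
    exact mul_le_mul_of_nonneg_left h4 (by positivity)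
  -- the bound for one part
  have hBdX : Bd * X ^ ((q - ε) + (q - ε)) ≤ X ^ (2 * L) * 16 ^ L := by
    have e1 : Bd * X ^ ((q - ε) + (q - ε)) =
        (b : ℝ) ^ s * (b : ℝ) ^ s * (2 / (b : ℝ) * X) ^ ((q - ε) + (q - ε)) := by
      rw [hBd, mul_pow]
      ring
    have e2 : 2 / (b : ℝ) * X ≤ 4 := by
      rw [div_mul_eq_mul_div, div_le_iff₀ hb0']
      linarith
    have e3 : (b : ℝ) ^ s ≤ X ^ L :=
      (pow_le_pow_left₀ hb0'.le (by linarith) s).trans (pow_le_pow_right₀ hX1 N.sL)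
    have e4 : (2 / (b : ℝ) * X) ^ ((q - ε) + (q - ε)) ≤ 16 ^ L := by
      calc (2 / (b : ℝ) * X) ^ ((q - ε) + (q - ε)) ≤ 4 ^ ((q - ε) + (q - ε)) :=
            pow_le_pow_left₀ (by positivity) e2 _
        _ = 16 ^ (q - ε) := by
            rw [pow_add, ← mul_pow]
            norm_num
        _ ≤ 16 ^ L := pow_le_pow_right₀ (by norm_num) (by omega)
    rw [e1]
    calc (b : ℝ) ^ s * (b : ℝ) ^ s * (2 / (b : ℝ) * X) ^ ((q - ε) + (q - ε)) ≤
        X ^ L * X ^ L * 16 ^ L := by gcongr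
      _ = X ^ (2 * L) * 16 ^ L := by rw [two_mul, pow_add]
  have hgX : (g : ℝ) ≤ X ^ (a + 1) := by
    have h3 : ((g : ℕ) : ℝ) ≤ (((b + 1) ^ (a + 1) : ℕ) : ℝ) := by exact_mod_cast ha.le
    push_cast at h3
    exact h3
  have h16 : (16 : ℝ) ^ L ≤ X ^ ε := by
    have h3 : (((16 ^ L : ℕ)) : ℝ) ≤ (((b + 1) ^ ε : ℕ) : ℝ) := by exact_mod_cast N.pw
    push_cast at h3
    exact h3
  have h4L : (4 : ℝ) ^ L ≤ X ^ ε := by
    refine le_trans ?_ h16
    exact pow_le_pow_left₀ (by norm_num) (by norm_num) L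
  have hmain : ((S.card : ℝ) * g * X ^ (2 * y)) * X ^ ((q - ε) + (q - ε)) ≤
      X ^ (2 * L) * X ^ ((q - ε) + (q - ε)) := by
    calc ((S.card : ℝ) * g * X ^ (2 * y)) * X ^ ((q - ε) + (q - ε)) ≤
        ((4 ^ L * X ^ y * Bd) * X ^ (a + 1) * X ^ (2 * y)) * X ^ ((q - ε) + (q - ε)) := by
          gcongr
      _ = 4 ^ L * X ^ y * X ^ (a + 1) * X ^ (2 * y) * (Bd * X ^ ((q - ε) + (q - ε))) := by ring
      _ ≤ 4 ^ L * X ^ y * X ^ (a + 1) * X ^ (2 * y) * (X ^ (2 * L) * 16 ^ L) := by gcongr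
      _ ≤ X ^ ε * X ^ y * X ^ (a + 1) * X ^ (2 * y) * (X ^ (2 * L) * X ^ ε) := by gcongr
      _ = X ^ (2 * L) * X ^ (ε + y + (a + 1) + 2 * y + ε) := by
          simp only [pow_add]
          ring
      _ ≤ X ^ (2 * L) * X ^ ((q - ε) + (q - ε)) := by
          refine mul_le_mul_of_nonneg_left (pow_le_pow_right₀ hX1 ?_) (by positivity)
          omega
  have hfin : (S.card : ℝ) * g * X ^ (2 * y) ≤ X ^ (2 * L) :=
    le_of_mul_le_mul_right hmain (by positivity)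
  have hcast : (((S.card * g * (b + 1) ^ (2 * y) : ℕ)) : ℝ) ≤ (((b + 1) ^ (2 * L) : ℕ) : ℝ) := by
    push_cast
    exact hfin
  exact_mod_cast hcast

end GC85
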