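import Mathlib
import Pool.Agent.Helper85.DN.MidA
import Pool.Agent.Helper85.DN.BMain

/-!
# DN-Large: pairs of words of one type which are proportional modulo a large number

`split_parts` and `isSome_of_sk` in `MidA.lean` (bound `c = (b + 1) ^ (L - 8 y)` for the parts). A part `S'` with `(b + 1) ^ L ≤ S'.card * (b + 1) ^ (8 y)` satisfies the hypotheses of `BMain`;
so for its elements `p` there are `h, h', G` with `G ∣ g ∣ D`, `V (sh h p.1) = V (sh h' p.2)` in `ZMod G`; so `G ∣ gG (sh h p.1) (sh h' p.2)`,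
`G ≤ gG` (`D > 0`), and `D ≤ (b + 1) ^ L ≤ g (b + 1) ^ (4 y) ≤ G L m ^ (2 * 10 ^ 7 y) (b + 1) ^ (4 y) ≤ G (b + 1) ^ (3 * 10 ^ 7 y)`. So if
`sh h p.1 ≠ sh h' p.2` then the pair is in `AlS` (`Wd.sh`, `Ty.sh`, `Prim_sh`, `mem_PW`).
The other parts contain in total at most `4 ^ L (b + 1) ^ y (b + 1) ^ (L - 8 y)` elements.
-/

set_option autoImplicit false

namespace GC85

open Finset GC70

variable {B : Type} [Fintype B] [DecidableEq B]

/-- after suitable shifts the two words are equal or an aligned pair -/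
def Spec (B : Type) [Fintype B] [DecidableEq B] (b m L s D y : ℕ)
    (p : (ℤ → Option B) × (ℤ → Option B)) : Prop :=
  ∃ h h' : ℤ, 0 ≤ h ∧ h < L ∧ 0 ≤ h' ∧ h' < L ∧
    (sh h p.1 = sh h' p.2 ∨ (sh h p.1, sh h' p.2) ∈ AlS B b m L s D y)

private theorem Large_W0 {b m L s D y : ℕ} {w : ℤ → Option B} (h : w ∈ W0 B b m L s D y) :
    Wd w L s ∧ Ty b w L (Del L) ∧ Prim (b + 1) m D L w := by
  classical
  unfold W0 at h
  rw [mem_filter] at h
  exact ⟨h.2.1, h.2.2.1, h.2.2.2.1⟩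

private theorem Large_gG {d m D L G : ℕ} {w w' : ℤ → Option B} (hD : 0 < D) (hG : G ∣ D)
    (h : ∀ i, (V d m w L i : ZMod G) = V d m w' L i) : G ≤ gG d m D L w w' := by
  refine Nat.le_of_dvd (Nat.gcd_pos_of_pos_left _ hD) ?_
  refine Nat.dvd_gcd hG (Finset.dvd_gcd fun i _ => ?_)
  have h1 := h i
  have h2 : ((V d m w' L i : ℤ) : ZMod G) = ((V d m w L i : ℤ) : ZMod G) := by
    rw [Int.cast_natCast, Int.cast_natCast]
    exact h1.symm
  have h3 := (ZMod.intCast_eq_intCast_iff_dvd_sub _ _ _).1 h2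
  exact Int.natCast_dvd.1 h3

private theorem Large_num {b m L s y ε D g G : ℕ} (N : NP b m L s y ε)
    (hD : D ≤ (b + 1) ^ L) (hg : (b + 1) ^ L ≤ g * (b + 1) ^ (4 * y))
    (hG : g ≤ G * (L * m ^ (2 * (10 ^ 7 * y)))) :
    D ≤ G * (b + 1) ^ (3 * 10 ^ 7 * y) := by
  have hb : 1 ≤ b + 1 := Nat.succ_pos b
  have h1 : L ≤ (b + 1) ^ ε := (Nat.lt_pow_self (by norm_num : 1 < 16)).le.trans N.pw
  have hn : 2 * (10 ^ 7 * y) ≤ L := by
    have := N.Lge
    omega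
  have h2 := N.m_pow (2 * (10 ^ 7 * y)) hn
  have he := N.eps
  calc D ≤ g * (b + 1) ^ (4 * y) := hD.trans hg
    _ ≤ G * (L * m ^ (2 * (10 ^ 7 * y))) * (b + 1) ^ (4 * y) := Nat.mul_le_mul_right _ hG
    _ ≤ G * ((b + 1) ^ ε * (b + 1) ^ (2 * (10 ^ 7 * y) + ε)) * (b + 1) ^ (4 * y) := by
      gcongr
    _ = G * (b + 1) ^ (ε + (2 * (10 ^ 7 * y) + ε) + 4 * y) := by
      rw [pow_add (b + 1) (ε + (2 * (10 ^ 7 * y) + ε)), pow_add (b + 1) ε, mul_assoc]
    _ ≤ G * (b + 1) ^ (3 * 10 ^ 7 * y) := by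
      refine Nat.mul_le_mul_left _ (Nat.pow_le_pow_right hb ?_)
      omega

theorem large {b m L s y ε M0 D g : ℕ} (hB : Fintype.card B = b) (N : NP b m L s y ε)
    (Q : DP b m L s M0 D) (hgD : g ∣ D) (hg : (b + 1) ^ L ≤ g * (b + 1) ^ (4 * y))
    (S : Finset ((ℤ → Option B) × (ℤ → Option B)))
    (hS : ∀ p ∈ S, p.1 ∈ W0 B b m L s D y ∧ p.2 ∈ W0 B b m L s D y)
    (hr : ∀ p ∈ S, RelG (b + 1) m g L L p.1 p.2)
    (hn : ∀ p ∈ S, ¬ Spec B b m L s D y p) :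
    S.card * (b + 1) ^ (6 * y) ≤ (b + 1) ^ L := by
  classical
  obtain ⟨hs, hL⟩ := N.s_pos
  have hb : 1 ≤ b + 1 := Nat.succ_pos b
  have hpL : 0 < (b + 1) ^ L := Nat.pos_of_ne_zero (pow_ne_zero _ (Nat.succ_ne_zero b))
  have hDpos : 0 < D := by
    rcases Nat.eq_zero_or_pos D with h | h
    · exfalso
      have h1 := Q.ge
      rw [h, zero_mul] at h1
      omega
    · exact h
  have hle : m ^ s ≤ (b + 1) ^ L := by
    have := Q.le2
    omega
  have hms : 0 < m ^ s := by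
    have h1 : 0 < m := lt_of_lt_of_le (Nat.succ_pos b) N.dm
    exact pow_pos h1 s
  have hDle : D ≤ (b + 1) ^ L := by
    have h1 : 0 < (b + 1) ^ L - m ^ s := by
      have := Q.le2
      omega
    exact (Nat.le_of_dvd h1 Q.dvd).trans (Nat.sub_le _ _)
  have hcop := Q.cop N (dvd_refl D)
  have hcopg := Q.cop N hgD
  have hy : 8 * y ≤ L := by
    have := N.Lge
    omega
  have key := split_parts Q hgD S hS hr ((b + 1) ^ (L - 8 * y)) (by
    intro S' hS' l hsk hrel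
    by_contra hlt
    have hlt' : (b + 1) ^ (L - 8 * y) < S'.card := not_le.1 hlt
    have hbig : (b + 1) ^ L ≤ S'.card * (b + 1) ^ (8 * y) := by
      calc (b + 1) ^ L = (b + 1) ^ (L - 8 * y) * (b + 1) ^ (8 * y) := by
            rw [← pow_add, Nat.sub_add_cancel hy]
        _ ≤ S'.card * (b + 1) ^ (8 * y) := Nat.mul_le_mul_right _ hlt'.le
    have hW : ∀ p ∈ S', Wd p.1 L s ∧ Wd p.2 L s := fun p hp =>
      ⟨(Large_W0 (hS p (hS' hp)).1).1, (Large_W0 (hS p (hS' hp)).2).1⟩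
    obtain ⟨h, h', G, h0, h1, h0', h1', hGg, hgG, hall⟩ := BMain hB N hcopg.1 hcopg.2 hle
      (hgD.trans Q.dvd) hg S' hW
      (fun p hp p' hp' j =>
        ⟨isSome_of_sk hL (hW p hp).1.per (hW p' hp').1.per (hsk p hp p' hp').1 j,
          isSome_of_sk hL (hW p hp).2.per (hW p' hp').2.per (hsk p hp p' hp').2 j⟩)
      l hrel hbig
    have hne : S'.Nonempty := Finset.card_pos.1 (lt_of_le_of_lt (Nat.zero_le _) hlt')
    obtain ⟨p, hp⟩ := hne
    refine hn p (hS' hp) ⟨h, h', h0, h1, h0', h1', ?_⟩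
    by_cases heq : sh h p.1 = sh h' p.2
    · exact Or.inl heq
    · right
      obtain ⟨hv, hkd⟩ := hall p hp
      obtain ⟨w1, t1, q1⟩ := Large_W0 (hS p (hS' hp)).1
      obtain ⟨w2, t2, q2⟩ := Large_W0 (hS p (hS' hp)).2
      have w1' := w1.sh h
      have w2' := w2.sh h'
      unfold AlS
      rw [mem_filter, mem_product, mem_PW hL, mem_PW hL]
      refine ⟨⟨w1'.per, w2'.per⟩, w1', w2', t1.sh h, t2.sh h',
        Prim_sh w1 hs hcop.1 hcop.2 hle Q.dvd q1 h, Prim_sh w2 hs hcop.1 hcop.2 hle Q.dvd q2 h',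
        heq, ?_, hkd⟩
      refine (Large_num N hDle hg hgG).trans (Nat.mul_le_mul_right _ ?_)
      exact Large_gG hDpos (hGg.trans hgD) hv)
  have he := N.eps
  have h4 : 4 ^ L ≤ (b + 1) ^ ε := (Nat.pow_le_pow_left (by norm_num) L).trans N.pw
  calc S.card * (b + 1) ^ (6 * y)
      ≤ 4 ^ L * (b + 1) ^ y * (b + 1) ^ (L - 8 * y) * (b + 1) ^ (6 * y) :=
        Nat.mul_le_mul_right _ key
    _ ≤ (b + 1) ^ ε * (b + 1) ^ y * (b + 1) ^ (L - 8 * y) * (b + 1) ^ (6 * y) := by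
      gcongr
    _ = (b + 1) ^ (ε + y + (L - 8 * y) + 6 * y) := by
      rw [pow_add, pow_add, pow_add]
    _ ≤ (b + 1) ^ L := by
      refine Nat.pow_le_pow_right hb ?_
      omega

end GC85
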