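import Mathlib
import Pool.Agent.Helper85.DN.Large
import Pool.Agent.Helper85.DN.CMain

/-!
# DN-Same4: pairs which are special after a shift

`same_eq`: if `sh h p.1 = sh h' p.2` then `p.2 = sh (h - h') p.1` (`sh_sh`, `sh_zero`), and this depends on `h - h'` modulo `L` only
(`sh_mod`): at most `L` pairs for each `p.1`, and `γ p ≤ D` (`D > 0` by `DP.ge`).

`same_al`: `(sh h p.1, sh h' p.2) ∈ AlS` for some `h, h' ∈ [0, L)` (`L ^ 2` pairs `(h, h')`): for fixed `(h, h')` the map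
`p ↦ (sh h p.1, sh h' p.2)` is injective; apply `CMain` to
`γ' q = γ (sh (-h) q.1, sh (-h') q.2)` if this pair is in `W0 × W0` and `γ' q = 1` otherwise (`RelG_sh`; modulo 1 everything is
proportional; `DP.cop`, `NP.s_pos`, `DP.dvd`, `DP.le2`): in total `L ^ 2 D ^ 2 / L ^ 10`.
-/

set_option autoImplicit false

namespace GC85

open Finset GC70

variable {B : Type} [Fintype B] [DecidableEq B]

private theorem Same4_W0 {b m L s D y : ℕ} {w : ℤ → Option B} (h : w ∈ W0 B b m L s D y) :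
    Wd w L s := by
  classical
  unfold W0 at h
  exact (mem_filter.1 h).2.1

private theorem Same4_D {b m L s M0 D : ℕ} (Q : DP b m L s M0 D) : 0 < D := by
  rcases Nat.eq_zero_or_pos D with h | h
  · exfalso
    have h1 := Q.ge
    rw [h, Nat.zero_mul] at h1
    have h2 : 0 < (b + 1) ^ L := by positivity
    omega
  · exact h

theorem same_eq {b m L s y ε M0 D : ℕ} (N : NP b m L s y ε) (Q : DP b m L s M0 D)
    (γ : (ℤ → Option B) × (ℤ → Option B) → ℕ)
    (hγ : ∀ p : (ℤ → Option B) × (ℤ → Option B), p.1 ∈ W0 B b m L s D y → p.2 ∈ W0 B b m L s D y →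
        γ p ∣ D ∧ RelG (b + 1) m (γ p) L L p.1 p.2)
    (S : Finset ((ℤ → Option B) × (ℤ → Option B)))
    (hS : ∀ p ∈ S, p.1 ∈ W0 B b m L s D y ∧ p.2 ∈ W0 B b m L s D y)
    (hsp : ∀ p ∈ S, ∃ h h' : ℤ, 0 ≤ h ∧ h < L ∧ 0 ≤ h' ∧ h' < L ∧ sh h p.1 = sh h' p.2) :
    ∑ p ∈ S, (γ p : ℝ) ≤ L * (W0 B b m L s D y).card * D := by
  classical
  have hL : 0 < L := N.s_pos.2
  have hD : 0 < D := Same4_D Q
  have hsub : S ⊆ ((W0 B b m L s D y) ×ˢ (range L)).image
      (fun q : (ℤ → Option B) × ℕ => (q.1, sh (q.2 : ℤ) q.1)) := by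
    intro p hp
    obtain ⟨h, h', _, _, _, _, he⟩ := hsp p hp
    have hw := (hS p hp).1
    have h1 : p.2 = sh (-h' + h) p.1 := by
      have h2 : sh (-h') (sh h' p.2) = p.2 := by
        rw [sh_sh, neg_add_cancel, sh_zero]
      rw [← h2, ← he, sh_sh]
    have hLz : (0 : ℤ) < L := by exact_mod_cast hL
    have h3 : 0 ≤ (-h' + h) % (L : ℤ) := Int.emod_nonneg _ hLz.ne'
    have h4 : (-h' + h) % (L : ℤ) < L := Int.emod_lt_of_pos _ hLz
    rw [mem_image]
    refine ⟨(p.1, ((-h' + h) % (L : ℤ)).toNat), ?_, ?_⟩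
    · rw [mem_product, mem_range]
      refine ⟨hw, ?_⟩
      simp only
      omega
    · simp only
      rw [Int.toNat_of_nonneg h3, ← sh_mod (Same4_W0 hw).per, ← h1]
  have hcard : S.card ≤ (W0 B b m L s D y).card * L := by
    refine (card_le_card hsub).trans (card_image_le.trans ?_)
    rw [card_product, card_range]
  have hcard' : (S.card : ℝ) ≤ (W0 B b m L s D y).card * L := by exact_mod_cast hcard
  have h5 : ∑ p ∈ S, (γ p : ℝ) ≤ ∑ _p ∈ S, (D : ℝ) := by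
    refine sum_le_sum fun p hp => ?_
    have h6 := (hγ p (hS p hp).1 (hS p hp).2).1
    exact_mod_cast Nat.le_of_dvd hD h6
  rw [sum_const, nsmul_eq_mul] at h5
  refine h5.trans ?_
  have h7 : (0 : ℝ) ≤ D := Nat.cast_nonneg D
  calc (S.card : ℝ) * D ≤ ((W0 B b m L s D y).card * L) * D :=
        mul_le_mul_of_nonneg_right hcard' h7
    _ = L * (W0 B b m L s D y).card * D := by ring

private theorem Same4_biU {ι κ : Type*} [DecidableEq κ] (s : Finset ι)
    (t : ι → Finset κ) (f : κ → ℝ) (hf : ∀ x, 0 ≤ f x) :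
    ∑ x ∈ s.biUnion t, f x ≤ ∑ i ∈ s, ∑ x ∈ t i, f x := by
  classical
  induction s using Finset.induction_on with
  | empty => simp
  | insert a s ha ih =>
    rw [biUnion_insert, sum_insert ha]
    have h1 : ∑ x ∈ t a ∪ s.biUnion t, f x + ∑ x ∈ t a ∩ s.biUnion t, f x =
        ∑ x ∈ t a, f x + ∑ x ∈ s.biUnion t, f x := sum_union_inter
    have h2 : 0 ≤ ∑ x ∈ t a ∩ s.biUnion t, f x := sum_nonneg fun x _ => hf x
    linarith

open Classical in
private noncomputable def Same4_g (B : Type) [Fintype B] [DecidableEq B] (b m L s D y : ℕ)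
    (γ : (ℤ → Option B) × (ℤ → Option B) → ℕ) (h h' : ℤ)
    (q : (ℤ → Option B) × (ℤ → Option B)) : ℕ :=
  if sh (-h) q.1 ∈ W0 B b m L s D y ∧ sh (-h') q.2 ∈ W0 B b m L s D y then
    γ (sh (-h) q.1, sh (-h') q.2) else 1

theorem same_al (b m : ℕ) (hB : Fintype.card B = b) : ∃ L0 : ℕ, ∀ L ≥ L0, ∀ s y ε M0 D : ℕ,
    NP b m L s y ε → DP b m L s M0 D →
    ∀ γ : (ℤ → Option B) × (ℤ → Option B) → ℕ,
      (∀ p : (ℤ → Option B) × (ℤ → Option B), p.1 ∈ W0 B b m L s D y → p.2 ∈ W0 B b m L s D y →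
        γ p ∣ D ∧ RelG (b + 1) m (γ p) L L p.1 p.2) →
    ∀ S : Finset ((ℤ → Option B) × (ℤ → Option B)),
      (∀ p ∈ S, p.1 ∈ W0 B b m L s D y ∧ p.2 ∈ W0 B b m L s D y) →
      (∀ p ∈ S, ∃ h h' : ℤ, 0 ≤ h ∧ h < L ∧ 0 ≤ h' ∧ h' < L ∧
        (sh h p.1, sh h' p.2) ∈ AlS B b m L s D y) →
      (∑ p ∈ S, (γ p : ℝ)) * (L : ℝ) ^ 8 ≤ (D : ℝ) ^ 2 := by
  classical
  obtain ⟨L0, hL0⟩ := CMain (B := B) b m hB
  refine ⟨L0, ?_⟩
  intro L hL s y ε M0 D N Q γ hγ S hS hsp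
  have hLp : 0 < L := N.s_pos.2
  have hs : 0 < s := N.s_pos.1
  have hLr : (0 : ℝ) < L := by exact_mod_cast hLp
  have hle : m ^ s ≤ (b + 1) ^ L := by
    have := Q.le2
    omega
  -- the sum for one pair of shifts
  have key : ∀ h h' : ℤ,
      (∑ p ∈ S.filter (fun p => (sh h p.1, sh h' p.2) ∈ AlS B b m L s D y), (γ p : ℝ)) *
        (L : ℝ) ^ 10 ≤ (D : ℝ) ^ 2 := by
    intro h h'
    have hC := hL0 L hL s y ε M0 D N Q (Same4_g B b m L s D y γ h h') ?_
    · refine le_trans ?_ hC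
      refine mul_le_mul_of_nonneg_right ?_ (by positivity)
      have hinj : Function.Injective (fun p : (ℤ → Option B) × (ℤ → Option B) =>
          (sh h p.1, sh h' p.2)) := by
        intro p p' hpp
        simp only [Prod.mk.injEq] at hpp
        have e1 : p.1 = p'.1 := by
          have := congrArg (sh (-h)) hpp.1
          rwa [sh_sh, sh_sh, neg_add_cancel, sh_zero, sh_zero] at this
        have e2 : p.2 = p'.2 := by
          have := congrArg (sh (-h')) hpp.2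
          rwa [sh_sh, sh_sh, neg_add_cancel, sh_zero, sh_zero] at this
        exact Prod.ext e1 e2
      have h1 : ∑ p ∈ S.filter (fun p => (sh h p.1, sh h' p.2) ∈ AlS B b m L s D y), (γ p : ℝ) =
          ∑ q ∈ (S.filter (fun p => (sh h p.1, sh h' p.2) ∈ AlS B b m L s D y)).image
            (fun p : (ℤ → Option B) × (ℤ → Option B) => (sh h p.1, sh h' p.2)),
            (Same4_g B b m L s D y γ h h' q : ℝ) := by
        rw [sum_image (fun p _ p' _ hpp => hinj hpp)]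
        refine sum_congr rfl fun p hp => ?_
        have hp' := hS p (mem_filter.1 hp).1
        have e1 : sh (-h) (sh h p.1) = p.1 := by rw [sh_sh, neg_add_cancel, sh_zero]
        have e2 : sh (-h') (sh h' p.2) = p.2 := by rw [sh_sh, neg_add_cancel, sh_zero]
        unfold Same4_g
        simp only
        rw [e1, e2, if_pos hp']
      rw [h1]
      refine sum_le_sum_of_subset_of_nonneg ?_ fun q _ _ => Nat.cast_nonneg _
      intro q hq
      obtain ⟨p, hp, rfl⟩ := mem_image.1 hq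
      exact (mem_filter.1 hp).2
    · intro q hq
      unfold Same4_g
      by_cases hc : sh (-h) q.1 ∈ W0 B b m L s D y ∧ sh (-h') q.2 ∈ W0 B b m L s D y
      · rw [if_pos hc]
        obtain ⟨g1, g2⟩ := hγ (sh (-h) q.1, sh (-h') q.2) hc.1 hc.2
        refine ⟨g1, ?_⟩
        obtain ⟨c1, c2⟩ := DP.cop N Q g1
        have g3 := RelG_sh (Same4_W0 hc.1) (Same4_W0 hc.2) hs c1 c2 hle (g1.trans Q.dvd) g2 h h'
        rwa [sh_sh, sh_sh, add_neg_cancel, add_neg_cancel, sh_zero, sh_zero] at g3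
      · rw [if_neg hc]
        refine ⟨one_dvd _, 1, fun i => ?_⟩
        exact Subsingleton.elim _ _
  -- cover by the pairs of shifts
  have hcov : ∑ p ∈ S, (γ p : ℝ) ≤ ∑ a ∈ range L, ∑ c ∈ range L,
      ∑ p ∈ S.filter (fun p => (sh (a : ℤ) p.1, sh (c : ℤ) p.2) ∈ AlS B b m L s D y),
        (γ p : ℝ) := by
    have h1 : S ⊆ ((range L) ×ˢ (range L)).biUnion fun ac =>
        S.filter (fun p => (sh (ac.1 : ℤ) p.1, sh (ac.2 : ℤ) p.2) ∈ AlS B b m L s D y) := by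
      intro p hp
      obtain ⟨h, h', a1, a2, a3, a4, a5⟩ := hsp p hp
      lift h to ℕ using a1
      lift h' to ℕ using a3
      rw [mem_biUnion]
      refine ⟨(h, h'), ?_, ?_⟩
      · rw [mem_product, mem_range, mem_range]
        exact ⟨by exact_mod_cast a2, by exact_mod_cast a4⟩
      · rw [mem_filter]
        exact ⟨hp, a5⟩
    refine (sum_le_sum_of_subset_of_nonneg h1 fun _ _ _ => Nat.cast_nonneg _).trans ?_
    refine (Same4_biU _ _ _ fun _ => Nat.cast_nonneg _).trans ?_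
    rw [sum_product]
  have h2 : (∑ p ∈ S, (γ p : ℝ)) * (L : ℝ) ^ 10 ≤ (L : ℝ) ^ 2 * (D : ℝ) ^ 2 := by
    calc (∑ p ∈ S, (γ p : ℝ)) * (L : ℝ) ^ 10
        ≤ (∑ a ∈ range L, ∑ c ∈ range L,
          ∑ p ∈ S.filter (fun p => (sh (a : ℤ) p.1, sh (c : ℤ) p.2) ∈ AlS B b m L s D y),
            (γ p : ℝ)) * (L : ℝ) ^ 10 := mul_le_mul_of_nonneg_right hcov (by positivity)
      _ = ∑ a ∈ range L, ∑ c ∈ range L,
          (∑ p ∈ S.filter (fun p => (sh (a : ℤ) p.1, sh (c : ℤ) p.2) ∈ AlS B b m L s D y),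
            (γ p : ℝ)) * (L : ℝ) ^ 10 := by
          rw [sum_mul]
          refine sum_congr rfl fun a _ => ?_
          rw [sum_mul]
      _ ≤ ∑ _a ∈ range L, ∑ _c ∈ range L, (D : ℝ) ^ 2 :=
          sum_le_sum fun a _ => sum_le_sum fun c _ => key a c
      _ = (L : ℝ) ^ 2 * (D : ℝ) ^ 2 := by
          rw [sum_const, sum_const, card_range, nsmul_eq_mul, nsmul_eq_mul]
          ring
  have h3 : ((∑ p ∈ S, (γ p : ℝ)) * (L : ℝ) ^ 8) * (L : ℝ) ^ 2 ≤ (D : ℝ) ^ 2 * (L : ℝ) ^ 2 := by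
    calc ((∑ p ∈ S, (γ p : ℝ)) * (L : ℝ) ^ 8) * (L : ℝ) ^ 2
        = (∑ p ∈ S, (γ p : ℝ)) * (L : ℝ) ^ 10 := by ring
      _ ≤ (L : ℝ) ^ 2 * (D : ℝ) ^ 2 := h2
      _ = (D : ℝ) ^ 2 * (L : ℝ) ^ 2 := by ring
  exact le_of_mul_le_mul_right h3 (by positivity)

end GC85
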