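import Mathlib
import Pool.Agent.Helper85.DN.SmallG
import Pool.Agent.Helper85.DN.Mid
import Pool.Agent.Helper85.DN.Same4
import Pool.Agent.Helper94.Abc.Basic

/-!
# DN-Same: pairs of words of one type

`S` is the set of the pairs with `γ p ≠ 1`. Split (each pair is in one of the parts):
1. `γ p ≤ (b + 1) ^ (L / 18)`: `smallG`.
2. `(b + 1) ^ (L / 18) ≤ γ p = g`, `g (b + 1) ^ (4 y) < (b + 1) ^ L`: `mid` for each divisor `g` of `D`; in total at most
   `D.divisors.card (b + 1) ^ (2 L - 2 y)`.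
3. `g (b + 1) ^ (4 y) ≥ (b + 1) ^ L`, not `Spec`: `large`; `g ≤ (b + 1) ^ L`; at most `D.divisors.card (b + 1) ^ (2 L - 6 y)`.
4. `Spec`, first alternative: `same_eq`.
5. `Spec`, second alternative: `same_al`.
`D.divisors.card ≤ (b + 1) ^ (y / 2)` for large `L` by `Helper94.Abc.divisor_bound` (`y ≥ L / (4 * 10 ^ 12)`, `D ≤ (b + 1) ^ L`),
`(b + 1) ^ (2 L) ≤ D ^ 2 (b + 1) ^ 4`; so the parts 2, 3, 5 are together at most `D ^ 2 / L ^ 5` (`(b + 1) ^ (y / 2) ≥ L ^ 6` for large `L`).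
-/

set_option autoImplicit false

namespace GC85

open Finset GC70

variable {B : Type} [Fintype B] [DecidableEq B]

private theorem Same_D {b m L s y ε M0 D : ℕ} (N : NP b m L s y ε) (Q : DP b m L s M0 D) :
    0 < D ∧ D ≤ (b + 1) ^ L := by
  have hpL : 0 < (b + 1) ^ L := Nat.pos_of_ne_zero (pow_ne_zero _ (Nat.succ_ne_zero b))
  have hDpos : 0 < D := by
    rcases Nat.eq_zero_or_pos D with h | h
    · exfalso
      have h1 := Q.ge
      rw [h, zero_mul] at h1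
      omega
    · exact h
  have hms : 0 < m ^ s := by
    have h1 : 0 < m := lt_of_lt_of_le (Nat.succ_pos b) N.dm
    exact pow_pos h1 s
  refine ⟨hDpos, ?_⟩
  have h1 : 0 < (b + 1) ^ L - m ^ s := by
    have := Q.le2
    omega
  exact (Nat.le_of_dvd h1 Q.dvd).trans (Nat.sub_le _ _)

/-- the number of the divisors of the modulus -/
private theorem Same_num (b m : ℕ) : ∃ L0 : ℕ, ∀ L ≥ L0, ∀ s y ε M0 D : ℕ,
    NP b m L s y ε → DP b m L s M0 D →
    2 * (D.divisors.card : ℝ) * ((b : ℝ) + 1) ^ 4 * (L : ℝ) ^ 5 ≤ ((b : ℝ) + 1) ^ (2 * y) := by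
  obtain ⟨C, hC1, hC⟩ := Pool.Agent.Helper94.Abc.divisor_bound
    (ε := 1 / (4 * 10 ^ 12)) (by positivity)
  obtain ⟨n, hn⟩ := exists_nat_gt (2 * C)
  refine ⟨n, ?_⟩
  intro L hL s y ε M0 D N Q
  obtain ⟨hD, hDle⟩ := Same_D N Q
  set X : ℝ := (b : ℝ) + 1 with hX
  have hX1 : 1 ≤ X := by
    have : (0 : ℝ) ≤ b := Nat.cast_nonneg b
    linarith
  have hX0 : 0 < X := by linarith
  have hDX : (D : ℝ) ≤ X ^ L := by
    have h3 : ((D : ℕ) : ℝ) ≤ (((b + 1) ^ L : ℕ) : ℝ) := by exact_mod_cast hDle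
    push_cast at h3
    exact h3
  have h16 : (16 : ℝ) ^ L ≤ X ^ ε := by
    have h3 : (((16 ^ L : ℕ)) : ℝ) ≤ (((b + 1) ^ ε : ℕ) : ℝ) := by exact_mod_cast N.pw
    push_cast at h3
    exact h3
  have hy1 := N.yge
  have he := N.eps
  have hLy : (L : ℝ) ≤ 2 * 10 ^ 12 * ((y : ℝ) + 1) := by
    have h3 : ((L : ℕ) : ℝ) ≤ ((2 * 10 ^ 12 * (y + 1) : ℕ) : ℝ) := by exact_mod_cast N.Lle
    push_cast at h3
    linarith
  have hyR : (1 : ℝ) ≤ y := by
    have : 1 ≤ y := by omega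
    exact_mod_cast this
  have hpw : (D : ℝ) ^ ((1 : ℝ) / (4 * 10 ^ 12)) ≤ X ^ y := by
    calc (D : ℝ) ^ ((1 : ℝ) / (4 * 10 ^ 12)) ≤ (X ^ L) ^ ((1 : ℝ) / (4 * 10 ^ 12)) :=
          Real.rpow_le_rpow (Nat.cast_nonneg _) hDX (by positivity)
      _ = X ^ ((L : ℝ) * ((1 : ℝ) / (4 * 10 ^ 12))) := by
          rw [← Real.rpow_natCast, ← Real.rpow_mul hX0.le]
      _ ≤ X ^ (y : ℝ) := by
          refine Real.rpow_le_rpow_of_exponent_le hX1 ?_
          rw [mul_one_div, div_le_iff₀ (by norm_num)]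
          nlinarith
      _ = X ^ y := Real.rpow_natCast X y
  have hcard : (D.divisors.card : ℝ) ≤ C * X ^ y :=
    (hC D hD.ne').trans (mul_le_mul_of_nonneg_left hpw (by linarith))
  have hLlt : (L : ℝ) ≤ 2 ^ L := by
    have : L < 2 ^ L := Nat.lt_pow_self (by norm_num)
    exact_mod_cast this.le
  have h2C : 2 * C ≤ 2 ^ L := by
    have h3 : (n : ℝ) ≤ L := by exact_mod_cast hL
    linarith
  have hL5 : 2 * C * (L : ℝ) ^ 5 ≤ X ^ (2 * ε) := by
    calc 2 * C * (L : ℝ) ^ 5 ≤ 2 ^ L * (2 ^ L) ^ 5 := by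
          refine mul_le_mul h2C (pow_le_pow_left₀ (Nat.cast_nonneg _) hLlt 5) (by positivity)
            (by positivity)
      _ = 64 ^ L := by
          rw [← pow_succ', ← pow_mul, mul_comm, pow_mul]
          norm_num
      _ ≤ (16 ^ L) ^ 2 := by
          rw [← pow_mul, mul_comm, pow_mul]
          exact pow_le_pow_left₀ (by norm_num) (by norm_num) L
      _ ≤ (X ^ ε) ^ 2 := pow_le_pow_left₀ (by positivity) h16 2
      _ = X ^ (2 * ε) := by rw [← pow_mul, mul_comm]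
  calc 2 * (D.divisors.card : ℝ) * X ^ 4 * (L : ℝ) ^ 5
      ≤ 2 * (C * X ^ y) * X ^ 4 * (L : ℝ) ^ 5 := by gcongr
    _ = (2 * C * (L : ℝ) ^ 5) * X ^ y * X ^ 4 := by ring
    _ ≤ X ^ (2 * ε) * X ^ y * X ^ 4 := by gcongr
    _ = X ^ (2 * ε + y + 4) := by rw [pow_add, pow_add]
    _ ≤ X ^ (2 * y) := pow_le_pow_right₀ hX1 (by omega)

private theorem Same_ite {P : Prop} [Decidable P] {c : ℝ} (h : 0 ≤ c) :
    0 ≤ if P then c else 0 := by
  split_ifs
  · exact h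
  · exact le_rfl

private theorem Same_cover {ι : Type*} (S : Finset ι) (f : ι → ℝ) (hf : ∀ x, 0 ≤ f x)
    (P1 P2 P3 P4 : ι → Prop) [DecidablePred P1] [DecidablePred P2] [DecidablePred P3]
    [DecidablePred P4] (h : ∀ x ∈ S, P1 x ∨ P2 x ∨ P3 x ∨ P4 x) :
    ∑ x ∈ S, f x ≤ ∑ x ∈ S.filter P1, f x + ∑ x ∈ S.filter P2, f x + ∑ x ∈ S.filter P3, f x +
      ∑ x ∈ S.filter P4, f x := by
  rw [sum_filter, sum_filter, sum_filter, sum_filter, ← sum_add_distrib, ← sum_add_distrib,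
    ← sum_add_distrib]
  refine sum_le_sum fun x hx => ?_
  have i1 := Same_ite (P := P1 x) (hf x)
  have i2 := Same_ite (P := P2 x) (hf x)
  have i3 := Same_ite (P := P3 x) (hf x)
  have i4 := Same_ite (P := P4 x) (hf x)
  rcases h x hx with h | h | h | h
  · rw [if_pos h]
    linarith
  · rw [if_pos h]
    linarith
  · rw [if_pos h]
    linarith
  · rw [if_pos h]
    linarith

private theorem Same_fib {b m L s y ε M0 D g : ℕ} (hB : Fintype.card B = b) (N : NP b m L s y ε)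
    (Q : DP b m L s M0 D) (hgD : g ∣ D)
    (S : Finset ((ℤ → Option B) × (ℤ → Option B)))
    (hS : ∀ p ∈ S, p.1 ∈ W0 B b m L s D y ∧ p.2 ∈ W0 B b m L s D y)
    (hr : ∀ p ∈ S, RelG (b + 1) m g L L p.1 p.2)
    (hg : ∀ p ∈ S, (b + 1) ^ (L / 18) < g ∧
      (g * (b + 1) ^ (4 * y) < (b + 1) ^ L ∨ ¬ Spec B b m L s D y p)) :
    S.card * g * (b + 1) ^ (2 * y) ≤ (b + 1) ^ (2 * L) := by
  obtain ⟨hD, hDle⟩ := Same_D N Q
  rcases S.eq_empty_or_nonempty with he | ⟨p0, hp0⟩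
  · rw [he]
    simp
  · by_cases hlt : g * (b + 1) ^ (4 * y) < (b + 1) ^ L
    · exact mid hB N Q hgD (hg p0 hp0).1.le hlt S hS hr
    · have h1 := large hB N Q hgD (not_lt.1 hlt) S hS hr
        (fun p hp => (hg p hp).2.resolve_left hlt)
      have h2 : g ≤ (b + 1) ^ L := (Nat.le_of_dvd hD hgD).trans hDle
      calc S.card * g * (b + 1) ^ (2 * y) ≤ S.card * (b + 1) ^ L * (b + 1) ^ (6 * y) := by
            refine Nat.mul_le_mul (Nat.mul_le_mul_left _ h2) ?_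
            exact Nat.pow_le_pow_right (Nat.succ_pos b) (by omega)
        _ = S.card * (b + 1) ^ (6 * y) * (b + 1) ^ L := by ring
        _ ≤ (b + 1) ^ L * (b + 1) ^ L := Nat.mul_le_mul_right _ h1
        _ = (b + 1) ^ (2 * L) := by rw [two_mul, pow_add]

theorem same (b m : ℕ) (hB : Fintype.card B = b) : ∃ L0 : ℕ, ∀ L ≥ L0, ∀ s y ε M0 D : ℕ,
    NP b m L s y ε → DP b m L s M0 D →
    ∀ γ : (ℤ → Option B) × (ℤ → Option B) → ℕ,
      (∀ p : (ℤ → Option B) × (ℤ → Option B), p.1 ∈ W0 B b m L s D y → p.2 ∈ W0 B b m L s D y →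
        γ p ∣ D ∧ RelG (b + 1) m (γ p) L L p.1 p.2) →
      ∑ p ∈ ((W0 B b m L s D y) ×ˢ (W0 B b m L s D y)).filter (fun p => γ p ≠ 1), (γ p : ℝ) ≤
        4 / Real.sqrt M0 * (Nt b L s) ^ 2 + L * (W0 B b m L s D y).card * D +
          (D : ℝ) ^ 2 / (L : ℝ) ^ 5 := by
  classical
  obtain ⟨L1, hL1⟩ := same_al (B := B) b m hB
  obtain ⟨L2, hL2⟩ := Same_num b m
  refine ⟨max (max L1 L2) 2, ?_⟩
  intro L hL s y ε M0 D N Q γ hγ
  have hLL1 : L1 ≤ L := (le_max_left _ _).trans ((le_max_left _ _).trans hL)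
  have hLL2 : L2 ≤ L := (le_max_right _ _).trans ((le_max_left _ _).trans hL)
  have hLg2 : 2 ≤ L := (le_max_right _ _).trans hL
  obtain ⟨hD, hDle⟩ := Same_D N Q
  set W := W0 B b m L s D y with hW
  set S := (W ×ˢ W).filter (fun p => γ p ≠ 1) with hS
  have hSW : ∀ p ∈ S, p.1 ∈ W ∧ p.2 ∈ W := by
    intro p hp
    exact mem_product.1 (mem_filter.1 hp).1
  have hSγ : ∀ p ∈ S, γ p ∣ D ∧ RelG (b + 1) m (γ p) L L p.1 p.2 :=
    fun p hp => hγ p (hSW p hp).1 (hSW p hp).2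
  have hne : ∀ p ∈ S, γ p ≠ 1 := fun p hp => (mem_filter.1 hp).2
  have hWd : ∀ w ∈ W, Wd w L s := by
    intro w hw
    rw [hW] at hw
    unfold W0 at hw
    exact (mem_filter.1 hw).2.1
  set X : ℝ := (b : ℝ) + 1 with hX
  have hX1 : 1 ≤ X := by
    have : (0 : ℝ) ≤ b := Nat.cast_nonneg b
    linarith
  have hX0 : 0 < X := by linarith
  set P1 : (ℤ → Option B) × (ℤ → Option B) → Prop := fun p => γ p ≤ (b + 1) ^ (L / 18) with hP1
  set P2 : (ℤ → Option B) × (ℤ → Option B) → Prop := fun p => (b + 1) ^ (L / 18) < γ p ∧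
    (γ p * (b + 1) ^ (4 * y) < (b + 1) ^ L ∨ ¬ Spec B b m L s D y p) with hP2
  set P3 : (ℤ → Option B) × (ℤ → Option B) → Prop := fun p => ∃ h h' : ℤ, 0 ≤ h ∧ h < L ∧
    0 ≤ h' ∧ h' < L ∧ sh h p.1 = sh h' p.2 with hP3
  set P4 : (ℤ → Option B) × (ℤ → Option B) → Prop := fun p => ∃ h h' : ℤ, 0 ≤ h ∧ h < L ∧
    0 ≤ h' ∧ h' < L ∧ (sh h p.1, sh h' p.2) ∈ AlS B b m L s D y with hP4
  have hcov := Same_cover S (fun p => (γ p : ℝ)) (fun p => Nat.cast_nonneg _) P1 P2 P3 P4 (by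
    intro p _
    by_cases h1 : γ p ≤ (b + 1) ^ (L / 18)
    · exact Or.inl h1
    · right
      by_cases h2 : Spec B b m L s D y p
      · right
        obtain ⟨h, h', a1, a2, a3, a4, a5 | a5⟩ := h2
        · exact Or.inl ⟨h, h', a1, a2, a3, a4, a5⟩
        · exact Or.inr ⟨h, h', a1, a2, a3, a4, a5⟩
      · exact Or.inl ⟨not_le.1 h1, Or.inr h2⟩)
  -- small divisors
  have e1 : ∑ p ∈ S.filter P1, (γ p : ℝ) ≤ 4 / Real.sqrt M0 * (Nt b L s) * (Nt b L s) := by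
    refine smallG hB N N Q Q (S.filter P1) ?_ γ ?_
    · intro p hp
      have h1 := hSW p (mem_filter.1 hp).1
      exact ⟨hWd _ h1.1, hWd _ h1.2⟩
    · intro p hp
      obtain ⟨h1, h2⟩ := mem_filter.1 hp
      obtain ⟨h3, h4⟩ := hSγ p h1
      exact ⟨h3, h3, h4, hne p h1, h2⟩
  -- equal words after a shift
  have e3 : ∑ p ∈ S.filter P3, (γ p : ℝ) ≤ L * W.card * D :=
    same_eq N Q γ hγ (S.filter P3) (fun p hp => hSW p (mem_filter.1 hp).1)
      (fun p hp => (mem_filter.1 hp).2)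
  -- aligned pairs
  have e4 : (∑ p ∈ S.filter P4, (γ p : ℝ)) * (L : ℝ) ^ 8 ≤ (D : ℝ) ^ 2 :=
    hL1 L hLL1 s y ε M0 D N Q γ hγ (S.filter P4) (fun p hp => hSW p (mem_filter.1 hp).1)
      (fun p hp => (mem_filter.1 hp).2)
  -- the middle and the large divisors
  have e2 : (∑ p ∈ S.filter P2, (γ p : ℝ)) * X ^ (2 * y) ≤ D.divisors.card * X ^ (2 * L) := by
    rw [← Finset.sum_fiberwise_of_maps_to (s := S.filter P2) (t := D.divisors) (g := γ)
      (fun p hp => Nat.mem_divisors.2 ⟨(hSγ p (mem_filter.1 hp).1).1, hD.ne'⟩), sum_mul]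
    have hterm : ∀ g ∈ D.divisors,
        (∑ p ∈ (S.filter P2).filter (fun p => γ p = g), (γ p : ℝ)) * X ^ (2 * y) ≤
          X ^ (2 * L) := by
      intro g hg
      have h1 : ∑ p ∈ (S.filter P2).filter (fun p => γ p = g), (γ p : ℝ) =
          (((S.filter P2).filter fun p => γ p = g).card : ℝ) * g := by
        rw [Finset.sum_congr rfl fun p hp => by rw [(Finset.mem_filter.1 hp).2], Finset.sum_const,
          nsmul_eq_mul]
      have h2 := Same_fib hB N Q (Nat.dvd_of_mem_divisors hg)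
        ((S.filter P2).filter fun p => γ p = g)
        (fun p hp => hSW p (mem_filter.1 (mem_filter.1 hp).1).1)
        (by
          intro p hp
          have h3 := (hSγ p (mem_filter.1 (mem_filter.1 hp).1).1).2
          rwa [(mem_filter.1 hp).2] at h3)
        (by
          intro p hp
          have h3 : (b + 1) ^ (L / 18) < γ p ∧
              (γ p * (b + 1) ^ (4 * y) < (b + 1) ^ L ∨ ¬ Spec B b m L s D y p) :=
            (mem_filter.1 (mem_filter.1 hp).1).2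
          have h4 : γ p = g := (mem_filter.1 hp).2
          rwa [h4] at h3)
      rw [h1]
      have h5 : ((((S.filter P2).filter fun p => γ p = g).card * g * (b + 1) ^ (2 * y) : ℕ) : ℝ) ≤
          (((b + 1) ^ (2 * L) : ℕ) : ℝ) := by exact_mod_cast h2
      push_cast at h5
      exact h5
    refine (sum_le_sum hterm).trans_eq ?_
    rw [sum_const, nsmul_eq_mul]
  -- the numbers
  have hnum := hL2 L hLL2 s y ε M0 D N Q
  have hLr : (2 : ℝ) ≤ L := by exact_mod_cast hLg2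
  have hDX : X ^ (2 * L) ≤ (D : ℝ) ^ 2 * X ^ 4 := by
    have h3 : (((b + 1) ^ L : ℕ) : ℝ) ≤ ((D * (b + 1) ^ 2 : ℕ) : ℝ) := by exact_mod_cast Q.ge
    push_cast at h3
    rw [← hX] at h3
    calc X ^ (2 * L) = (X ^ L) ^ 2 := by rw [← pow_mul, mul_comm]
      _ ≤ ((D : ℝ) * X ^ 2) ^ 2 := pow_le_pow_left₀ (by positivity) h3 2
      _ = (D : ℝ) ^ 2 * X ^ 4 := by ring
  have f4 : (∑ p ∈ S.filter P4, (γ p : ℝ)) ≤ (D : ℝ) ^ 2 / (L : ℝ) ^ 5 / 2 := by
    rw [div_div, le_div_iff₀ (by positivity)]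
    refine le_trans ?_ e4
    refine mul_le_mul_of_nonneg_left ?_ (sum_nonneg fun p _ => Nat.cast_nonneg _)
    calc (L : ℝ) ^ 5 * 2 ≤ (L : ℝ) ^ 5 * (L : ℝ) ^ 3 := by
          refine mul_le_mul_of_nonneg_left ?_ (by positivity)
          calc (2 : ℝ) ≤ 2 ^ 3 := by norm_num
            _ ≤ (L : ℝ) ^ 3 := pow_le_pow_left₀ (by norm_num) hLr 3
      _ = (L : ℝ) ^ 8 := by ring
  have f2 : (∑ p ∈ S.filter P2, (γ p : ℝ)) ≤ (D : ℝ) ^ 2 / (L : ℝ) ^ 5 / 2 := by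
    rw [div_div, le_div_iff₀ (by positivity)]
    have h5 : 0 < X ^ (2 * y) := by positivity
    refine le_of_mul_le_mul_right ?_ h5
    calc (∑ p ∈ S.filter P2, (γ p : ℝ)) * ((L : ℝ) ^ 5 * 2) * X ^ (2 * y) =
        ((∑ p ∈ S.filter P2, (γ p : ℝ)) * X ^ (2 * y)) * ((L : ℝ) ^ 5 * 2) := by ring
      _ ≤ (D.divisors.card * X ^ (2 * L)) * ((L : ℝ) ^ 5 * 2) :=
          mul_le_mul_of_nonneg_right e2 (by positivity)
      _ ≤ (D.divisors.card * ((D : ℝ) ^ 2 * X ^ 4)) * ((L : ℝ) ^ 5 * 2) := by gcongr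
      _ = (D : ℝ) ^ 2 * (2 * (D.divisors.card : ℝ) * X ^ 4 * (L : ℝ) ^ 5) := by ring
      _ ≤ (D : ℝ) ^ 2 * X ^ (2 * y) := mul_le_mul_of_nonneg_left hnum (by positivity)
  have g1 : 4 / Real.sqrt M0 * (Nt b L s) * (Nt b L s) =
      4 / Real.sqrt M0 * ((Nt b L s : ℝ)) ^ 2 := by ring
  rw [g1] at e1
  linarith

end GC85
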