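import Mathlib
import Pool.Agent.Helper85.DN.MainA
import Pool.Agent.Helper85.DN.Same
import Pool.Agent.Helper85.DN.Good
import Pool.Agent.Helper85.DN.Lens
import Pool.Agent.Helper85.DN.Fiber2

/-!
# DN-Main: almost all residue vectors have a cycle word, for a fixed pair `(m, b + 1)`

`main_count2`: `b0` from `NP_of` (also `b0 ≥ 2`); `E2` with `M0` so large that `M0 ≥ 24 D1 ^ D1` and
`256 D1 ^ (2 D1) / √M0 ≤ δ / 4` for all `D1 ≤ b`, `M0 ≥ b + 1`, `M0 ≥ 17`; `DP_of`, `good`, `same` give `L0`; `lens` with `R` so large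
that `μ ≥ 1` and `8 D1 ^ D1 / μ + 1 / μ ^ 2 ≤ δ / 2`. `Q2` = the product of the `DD`; it is coprime to `D1` (all prime factors are `≥ M0 > D1`) and
to `b + 1` (`DP.cop`). `Q = D1 * Q2`. By `fiber` it is enough to bound the set of the `σ` for fixed `ρ1`; if `σ` comes from `ρ ∈ Bad`,
then for `w ∈ Wr ρ1` the number `(b + 1) ^ L - m ^ s = D1 * DD` does not divide `dot Q V ρ` (otherwise `HasWord`), while
`D1` does (`dot_cast1`), so `DD ∤ dot Q2 V σ` (`dot_cast`). `moment`, `full_le`, `sum_small`.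
-/

set_option autoImplicit false

namespace GC85

open Finset GC70

variable {B : Type} [Fintype B] [DecidableEq B]

private lemma Main_M0 (b : ℕ) (δ : ℝ) (hδ : 0 < δ) : ∃ M0 : ℕ, 17 ≤ M0 ∧ b + 1 ≤ M0 ∧
    ∀ D1 : ℕ, 0 < D1 → D1 ≤ b → 24 * D1 ^ D1 ≤ M0 ∧
      256 * ((D1 : ℝ) ^ D1) ^ 2 / Real.sqrt M0 ≤ δ / 4 := by
  set K : ℕ := b ^ b with hK
  set x : ℝ := 1024 * (K : ℝ) ^ 2 / δ with hx
  refine ⟨17 + (b + 1) + 24 * K + ⌈x ^ 2⌉₊, by omega, by omega, ?_⟩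
  intro D1 h0 hb
  have h1 : D1 ^ D1 ≤ K := by
    calc D1 ^ D1 ≤ b ^ D1 := Nat.pow_le_pow_left hb _
      _ ≤ b ^ b := Nat.pow_le_pow_right (by omega) hb
  refine ⟨by omega, ?_⟩
  have hx0 : 0 ≤ x := by positivity
  have h2 : x ^ 2 ≤ ((17 + (b + 1) + 24 * K + ⌈x ^ 2⌉₊ : ℕ) : ℝ) := by
    have := Nat.le_ceil (x ^ 2)
    push_cast
    have h3 : (0 : ℝ) ≤ 17 + ((b : ℝ) + 1) + 24 * (K : ℝ) := by positivity
    linarith
  have h3 : x ≤ Real.sqrt ((17 + (b + 1) + 24 * K + ⌈x ^ 2⌉₊ : ℕ) : ℝ) := Real.le_sqrt_of_sq_le h2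
  have hpos : (0 : ℝ) < Real.sqrt ((17 + (b + 1) + 24 * K + ⌈x ^ 2⌉₊ : ℕ) : ℝ) := by
    apply Real.sqrt_pos.mpr
    have : 0 < 17 + (b + 1) + 24 * K + ⌈x ^ 2⌉₊ := by omega
    exact_mod_cast this
  rw [div_le_iff₀ hpos]
  have h4 : ((D1 : ℝ) ^ D1) ≤ K := by exact_mod_cast h1
  have h5 : ((D1 : ℝ) ^ D1) ^ 2 ≤ (K : ℝ) ^ 2 := pow_le_pow_left₀ (by positivity) h4 2
  have h6 : δ * x = 1024 * (K : ℝ) ^ 2 := by
    rw [hx]
    field_simp
  have h7 : δ * x ≤ δ * Real.sqrt ((17 + (b + 1) + 24 * K + ⌈x ^ 2⌉₊ : ℕ) : ℝ) :=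
    mul_le_mul_of_nonneg_left h3 hδ.le
  linarith

/-- **Counting theorem.** -/
theorem main_count2 : ∃ b0 : ℕ, ∀ b ≥ b0, ∀ m : ℕ, b + 1 ≤ m →
    Nat.Coprime m (b + 1) → m ^ b < (b + 1) ^ (b + 1) → ∀ δ : ℝ, 0 < δ →
    ∃ (Q : ℕ) (_ : NeZero Q), Nat.Coprime (b + 1) Q ∧
    ∀ Bad : Finset (Fin b → ZMod Q), (∀ ρ ∈ Bad, ¬ HasWord (b + 1) m Q ρ) →
      (Bad.card : ℝ) ≤ δ * (Q : ℝ) ^ b := by
  obtain ⟨b0, h0⟩ := NP_of
  refine ⟨max b0 2, ?_⟩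
  intro b hb m hm hc hmb δ hδ
  have hb0 : b0 ≤ b := le_trans (le_max_left _ _) hb
  have hb2 : 2 ≤ b := le_trans (le_max_right _ _) hb
  obtain ⟨M0, hM17, hMb, hMD⟩ := Main_M0 b δ hδ
  obtain ⟨D1, N0, hD1, hD1b, hmD1, hN0, hN0t, hE2⟩ := E2 b m M0 (by omega) (by omega) hc
  have hD1le : D1 ≤ b := Nat.le_of_dvd (by omega) hD1b
  obtain ⟨hM24, hM256⟩ := hMD D1 hD1 hD1le
  obtain ⟨L1, h1⟩ := h0 b hb0 m hm hc hmb
  obtain ⟨L2, h2⟩ := DP_of b m D1 N0 M0 (by omega) hm hc hmb hM17 hD1 hD1b hE2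
  obtain ⟨L3, h3⟩ := good (B := Fin b) b m D1 N0 M0 (Fintype.card_fin b) hb2 hD1 hD1b hmD1 hN0 hN0t
    hM24 ⟨L1, fun L hL s hs => h1 L hL N0 s hs⟩ ⟨L2, h2⟩
  obtain ⟨L4, h4⟩ := same (B := Fin b) b m (Fintype.card_fin b)
  set K : ℝ := (D1 : ℝ) ^ D1 with hK
  have hK1 : 1 ≤ K := by
    have : 1 ≤ D1 ^ D1 := Nat.one_le_iff_ne_zero.mpr (by positivity)
    rw [hK]
    exact_mod_cast this
  set μ0 : ℝ := 1 + 2 * (8 * K + 1) / δ with hμ0
  have hμ1 : 1 ≤ μ0 := by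
    have : 0 ≤ 2 * (8 * K + 1) / δ := by positivity
    linarith
  set c : ℝ := 1 / (8 * K * ((b : ℝ) + 1) ^ N0) with hcc
  have hc0 : 0 < c := by positivity
  obtain ⟨Ls, hLs1, hLs2, hLs3⟩ := lens N0 (L1 + L2 + L3 + L4) hN0 (μ0 / c)
  have hFam : Fam b m D1 N0 M0 Ls := by
    refine ⟨?_, ?_, hLs2, fun L hL => (hLs1 L hL).2.1⟩
    · intro L hL s hs
      exact h1 L (by have := (hLs1 L hL).1; omega) N0 s hs
    · intro L hL s hs
      exact (h2 L (by have := (hLs1 L hL).1; omega) (hLs1 L hL).2.2 s hs).2.2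
  have hdv : ∀ L ∈ Ls, ∀ s ∈ Tys b N0 L, 1 ≤ s ∧ D1 ∣ (b + 1) ^ L - m ^ s := by
    intro L hL s hs
    have h := h2 L (by have := (hLs1 L hL).1; omega) (hLs1 L hL).2.2 s hs
    exact ⟨h.1, h.2.1⟩
  have hsame : HSame (Fin b) b m D1 N0 M0 Ls := by
    intro L hL s hs γ hγ
    exact h4 L (by have := (hLs1 L hL).1; omega) s (yy L) (yy L / 10) M0 (DD b m D1 L s)
      (hFam.np L hL s hs) (hFam.dp L hL s hs) γ hγ
  have hDpos : ∀ L ∈ Ls, ∀ s ∈ Tys b N0 L, 0 < DD b m D1 L s := by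
    intro L hL s hs
    have hge := (hFam.dp L hL s hs).ge
    by_contra h
    have h' : DD b m D1 L s = 0 := by omega
    rw [h', zero_mul] at hge
    have : 0 < (b + 1) ^ L := by positivity
    omega
  set Q2 : ℕ := ∏ t ∈ Ls.sigma (Tys b N0), DD b m D1 t.1 t.2 with hQ2
  have hQ2pos : 0 < Q2 := by
    apply prod_pos
    intro t ht
    rw [mem_sigma] at ht
    exact hDpos t.1 ht.1 t.2 ht.2
  haveI : NeZero Q2 := ⟨hQ2pos.ne'⟩
  haveI : NeZero D1 := ⟨hD1.ne'⟩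
  haveI hNQ : NeZero (D1 * Q2) := ⟨(Nat.mul_pos hD1 hQ2pos).ne'⟩
  have hDQ : ∀ L ∈ Ls, ∀ s ∈ Tys b N0 L, DD b m D1 L s ∣ Q2 := by
    intro L hL s hs
    exact dvd_prod_of_mem (fun t : Σ _ : ℕ, ℕ => DD b m D1 t.1 t.2)
      (mem_sigma.mpr (show (⟨L, s⟩ : Σ _ : ℕ, ℕ).1 ∈ Ls ∧ _ from ⟨hL, hs⟩))
  have hcopD : ∀ L ∈ Ls, ∀ s ∈ Tys b N0 L, Nat.Coprime D1 (DD b m D1 L s) := by
    intro L hL s hs
    apply Nat.Coprime.symm
    apply Nat.coprime_of_dvd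
    intro p hp hpD hpD1
    have e1 := (hFam.dp L hL s hs).prm p hp hpD
    have e2 := Nat.le_of_dvd hD1 hpD1
    omega
  have hcop1 : Nat.Coprime D1 Q2 := by
    rw [hQ2]
    apply Nat.Coprime.prod_right
    intro t ht
    rw [mem_sigma] at ht
    exact hcopD t.1 ht.1 t.2 ht.2
  have hcopb : Nat.Coprime (b + 1) (D1 * Q2) := by
    apply Nat.Coprime.mul_right
    · have : Nat.Coprime (b + 1) b := by simp
      exact Nat.Coprime.coprime_dvd_right hD1b this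
    · rw [hQ2]
      apply Nat.Coprime.prod_right
      intro t ht
      rw [mem_sigma] at ht
      exact (DP.cop (hFam.np t.1 ht.1 t.2 ht.2) (hFam.dp t.1 ht.1 t.2 ht.2) (dvd_refl _)).1
  refine ⟨D1 * Q2, hNQ, hcopb, ?_⟩
  intro Bad hBad
  have key : ∀ ρ1 : Fin b → ZMod D1, ∀ S : Finset (Fin b → ZMod Q2),
      (∀ σ ∈ S, ∃ ρ ∈ Bad, (∀ i, ZMod.castHom (Dvd.intro _ rfl : D1 ∣ D1 * Q2) (ZMod D1) (ρ i) = ρ1 i) ∧
        ∀ i, ZMod.castHom (Dvd.intro_left _ rfl : Q2 ∣ D1 * Q2) (ZMod Q2) (ρ i) = σ i) →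
      (S.card : ℝ) ≤ δ * (Q2 : ℝ) ^ Fintype.card (Fin b) := by
    intro ρ1 S hS
    rw [Fintype.card_fin]
    have hbadS : ∀ σ ∈ S, ∀ L ∈ Ls, ∀ s ∈ Tys b N0 L, ∀ w ∈ Wr (Fin b) b m D1 L s ρ1,
        ¬ DD b m D1 L s ∣ dot Q2 (V (b + 1) m w L) σ := by
      intro σ hσ L hL s hs w hw hdvd
      obtain ⟨ρ, hρ, hρ1, hρ2⟩ := hS σ hσ
      apply hBad ρ hρ
      have hw' : w ∈ W0 (Fin b) b m L s (DD b m D1 L s) (yy L) ∧
          ∑ i, (V (b + 1) m w L i : ZMod D1) * ρ1 i = 0 := by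
        unfold Wr at hw
        rw [mem_filter] at hw
        exact hw
      have hwd : Wd w L s := by
        classical
        have h := hw'.1
        unfold W0 at h
        rw [mem_filter] at h
        exact h.2.1
      have hD := hdv L hL s hs
      have hle2 := (hFam.dp L hL s hs).le2
      have hmpos : 0 < m ^ s := Nat.pow_pos (by omega)
      have hDDeq : D1 * DD b m D1 L s = (b + 1) ^ L - m ^ s := Nat.mul_div_cancel' hD.2
      refine ⟨w, L, ?_, ?_, ?_, ?_⟩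
      · rw [← card_pos, hwd.cnt]
        omega
      · rw [hwd.cnt]
        omega
      · rw [hwd.cnt, ← hDDeq]
        exact Nat.mul_dvd_mul_left D1 (hDQ L hL s hs)
      · rw [hwd.cnt, ← hDDeq]
        apply Nat.Coprime.mul_dvd_of_dvd_of_dvd (hcopD L hL s hs)
        · rw [dot_cast1]
          have e : ∀ i, (V (b + 1) m w L i : ZMod D1) *
              ZMod.castHom (Dvd.intro _ rfl : D1 ∣ D1 * Q2) (ZMod D1) (ρ i) =
              (V (b + 1) m w L i : ZMod D1) * ρ1 i := fun i => by rw [hρ1 i]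
          rw [sum_congr rfl (fun i _ => e i)]
          exact hw'.2
        · rw [dot_cast (hDQ L hL s hs)]
          have e : (fun i => ZMod.castHom (Dvd.intro_left _ rfl : Q2 ∣ D1 * Q2) (ZMod Q2) (ρ i)) = σ := by
            funext i
            exact hρ2 i
          rw [e]
          exact hdvd
    have hm1 := moment (Fintype.card_fin b) Ls hFam hsame ρ1 Q2 hDQ S hbadS
    have hg : ∀ L ∈ Ls, ∑ s ∈ Tys b N0 L, Nt b L s ≤
        4 * D1 ^ D1 * ∑ s ∈ Tys b N0 L, (Wr (Fin b) b m D1 L s ρ1).card := fun L hL =>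
      (h3 L (by have := (hLs1 L hL).1; omega) (hLs1 L hL).2.2 ρ1).1
    have hg2 : ∀ L ∈ Ls, (b + 1) ^ L ≤ 2 * (b + 1) ^ N0 * ∑ s ∈ Tys b N0 L, Nt b L s := fun L hL =>
      (h3 L (by have := (hLs1 L hL).1; omega) (hLs1 L hL).2.2 ρ1).2
    have hf := full_le hD1 Ls hFam (fun L hL s hs => (hdv L hL s hs).2) ρ1 hg
    have hmu := mu_ge hD1 Ls hFam (fun L hL s hs => (hdv L hL s hs).2) ρ1 hg hg2
    set μ : ℝ := mu (Fin b) b m D1 N0 Ls ρ1 with hμ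
    have hμge : μ0 ≤ μ := by
      have e1 : c * (μ0 / c) ≤ c * ∑ L ∈ Ls, 1 / (L : ℝ) := mul_le_mul_of_nonneg_left hLs3 hc0.le
      have e2 : c * (μ0 / c) = μ0 := by field_simp
      linarith
    have hμpos : 0 < μ := by linarith
    have hsmall : ∑ t ∈ Ls.sigma (Tys b N0), 1 / ((t.1 : ℝ)) ^ 7 ≤ 1 :=
      sum_small Ls (fun L hL => (hLs1 L hL).2.1) (Tys b N0) (fun L => filter_subset _ _)
    have hFull0 : 0 ≤ Full b m D1 N0 Ls := by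
      unfold Full
      apply sum_nonneg
      intro t _
      positivity
    have hsq : 0 ≤ 4 / Real.sqrt M0 := by positivity
    have hF2 : (Full b m D1 N0 Ls) ^ 2 ≤ (8 * K * μ) ^ 2 := pow_le_pow_left₀ hFull0 hf 2
    have hbound : (4 / Real.sqrt M0 * (Full b m D1 N0 Ls) ^ 2 + Full b m D1 N0 Ls +
        ∑ t ∈ Ls.sigma (Tys b N0), 1 / ((t.1 : ℝ)) ^ 7) ≤ δ * μ ^ 2 := by
      have e1 : 4 / Real.sqrt M0 * (Full b m D1 N0 Ls) ^ 2 ≤ (δ / 4) * μ ^ 2 := by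
        calc 4 / Real.sqrt M0 * (Full b m D1 N0 Ls) ^ 2 ≤ 4 / Real.sqrt M0 * (8 * K * μ) ^ 2 :=
              mul_le_mul_of_nonneg_left hF2 hsq
          _ = (256 * K ^ 2 / Real.sqrt M0) * μ ^ 2 := by ring
          _ ≤ (δ / 4) * μ ^ 2 := mul_le_mul_of_nonneg_right hM256 (by positivity)
      have e2 : 2 * (8 * K + 1) ≤ δ * μ := by
        have : δ * μ0 ≤ δ * μ := mul_le_mul_of_nonneg_left hμge hδ.le
        have e3 : δ * μ0 = δ + 2 * (8 * K + 1) := by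
          rw [hμ0]
          field_simp
        linarith
      have e3 : 1 ≤ μ := by linarith
      have e4 : 8 * K * μ + 1 ≤ (δ / 2) * μ ^ 2 := by nlinarith
      have e5 : 0 ≤ δ * μ ^ 2 := by positivity
      linarith
    have hQb : (0 : ℝ) ≤ (Q2 : ℝ) ^ b := by positivity
    have e6 : (S.card : ℝ) * μ ^ 2 ≤ (δ * (Q2 : ℝ) ^ b) * μ ^ 2 := by
      calc (S.card : ℝ) * μ ^ 2 ≤ _ := hm1
        _ ≤ (Q2 : ℝ) ^ b * (δ * μ ^ 2) := mul_le_mul_of_nonneg_left hbound hQb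
        _ = (δ * (Q2 : ℝ) ^ b) * μ ^ 2 := by ring
    exact le_of_mul_le_mul_right e6 (by positivity)
  have hfin := fiber hcop1 δ Bad key
  rw [Fintype.card_fin] at hfin
  exact hfin

end GC85
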