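import Mathlib
import Pool.Agent.Helper70.GC.Main
import Pool.Agent.Helper85.DN.Main

/-!
Proof of `MP_34c02d_nt.DensityOne` (with its own copies of the three definitions): there is a `d0` such that
for every `d ≥ d0` and every `m` coprime to `d` with `m < d ^ (d / (d - 1))`, the maps `U(m, d, R)` in the
class `G` without a purely periodic trajectory have density zero.
-/

set_option autoImplicit false

namespace GC85D

open Finset Filter GC70 GC85

/-- the map `U(m, d, R)`, where `R` consists of the numbers `r i`, `1 ≤ i ≤ d - 1` -/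
def Umap (m d : ℕ) (r : ℤ → ℤ) (n : ℤ) : ℤ :=
  if (d : ℤ) ∣ n then n / (d : ℤ) else ((m : ℤ) * n - r ((m : ℤ) * n % (d : ℤ))) / (d : ℤ)

/-- the systems `R = {r 1, ..., r (d - 1)}` with `r i ≡ i` mod `d` and `|r i| ≤ X`, such that
`U(m, d, R)` maps positive integers to positive integers (the function `r` is `0` outside
`{1, ..., d - 1}`, so that it corresponds to exactly one system `R`) -/
def All (m d X : ℕ) : Set (ℤ → ℤ) :=
  {r | (∀ i : ℤ, 1 ≤ i → i ≤ (d : ℤ) - 1 → r i ≡ i [ZMOD (d : ℤ)] ∧ |r i| ≤ (X : ℤ)) ∧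
    (∀ i : ℤ, i < 1 ∨ (d : ℤ) - 1 < i → r i = 0) ∧
    ∀ n : ℤ, 0 < n → 0 < Umap m d r n}

/-- the systems in `All m d X` for which `U(m, d, R)` has no purely periodic trajectory -/
def Bad (m d X : ℕ) : Set (ℤ → ℤ) :=
  {r | r ∈ All m d X ∧ ∀ n : ℤ, 0 < n → ∀ k : ℕ, 0 < k → (Umap m d r)^[k] n ≠ n}

/-! ### Coordinates -/

/-- the system with the coordinates `t` -/
def rOf (b : ℕ) (t : Fin b → ℤ) (j : ℤ) : ℤ :=
  if h : 1 ≤ j ∧ j ≤ (b : ℤ) then j - ((b : ℤ) + 1) * t ⟨(j - 1).toNat, by omega⟩ else 0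

lemma rOf_fin (b : ℕ) (t : Fin b → ℤ) (i : Fin b) :
    rOf b t ((i : ℤ) + 1) = (i : ℤ) + 1 - ((b : ℤ) + 1) * t i := by
  unfold rOf
  have hi := i.2
  rw [dif_pos ⟨by omega, by omega⟩]
  have : (⟨((i : ℤ) + 1 - 1).toNat, by omega⟩ : Fin b) = i := by
    apply Fin.ext
    simp
  rw [this]

lemma rOf_inj (b : ℕ) : Function.Injective (rOf b) := by
  intro t t' h
  funext i
  have h1 := congrFun h ((i : ℤ) + 1)
  rw [rOf_fin, rOf_fin] at h1
  have hb : ((b : ℤ) + 1) ≠ 0 := by positivity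
  have h2 : ((b : ℤ) + 1) * t i = ((b : ℤ) + 1) * t' i := by linarith
  exact mul_left_cancel₀ hb h2

lemma exists_fin (b : ℕ) (j : ℤ) (h1 : 1 ≤ j) (h2 : j ≤ (b : ℤ)) : ∃ i : Fin b, j = (i : ℤ) + 1 := by
  refine ⟨⟨(j - 1).toNat, by omega⟩, ?_⟩
  simp only
  omega

lemma Umap_rOf (m b : ℕ) (t : Fin b → ℤ) (n : ℤ) (i : Fin b)
    (h : (m : ℤ) * n % ((b : ℤ) + 1) = (i : ℤ) + 1) :
    Umap m (b + 1) (rOf b t) n = (m : ℤ) * n / ((b : ℤ) + 1) + t i := by
  have hnd : ¬ (((b + 1 : ℕ) : ℤ) ∣ n) := by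
    intro hd
    have h1 : ((b : ℤ) + 1) ∣ (m : ℤ) * n := by
      push_cast at hd
      exact Dvd.dvd.mul_left hd _
    have h2 := Int.emod_eq_zero_of_dvd h1
    omega
  unfold Umap
  rw [if_neg hnd]
  push_cast
  rw [h, rOf_fin]
  have h3 := Int.mul_ediv_add_emod ((m : ℤ) * n) ((b : ℤ) + 1)
  rw [h] at h3
  set q := (m : ℤ) * n / ((b : ℤ) + 1) with hq
  have h4 : (m : ℤ) * n - ((i : ℤ) + 1 - ((b : ℤ) + 1) * t i) = ((b : ℤ) + 1) * (q + t i) := by
    rw [← h3]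
    ring
  rw [h4]
  exact Int.mul_ediv_cancel_left _ (by positivity)

lemma emod_cases (m b : ℕ) (hc : Nat.Coprime m (b + 1)) (n : ℤ) (h : ¬ (((b : ℤ) + 1) ∣ n)) :
    ∃ i : Fin b, (m : ℤ) * n % ((b : ℤ) + 1) = (i : ℤ) + 1 := by
  have hb : (0 : ℤ) < (b : ℤ) + 1 := by positivity
  have h1 := Int.emod_nonneg ((m : ℤ) * n) hb.ne'
  have h2 := Int.emod_lt_of_pos ((m : ℤ) * n) hb
  have h3 : (m : ℤ) * n % ((b : ℤ) + 1) ≠ 0 := by
    intro h0
    have h4 := Int.dvd_of_emod_eq_zero h0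
    apply h
    have hcop : IsCoprime ((b : ℤ) + 1) (m : ℤ) := by
      have := (Nat.isCoprime_iff_coprime.mpr hc).symm
      push_cast at this
      exact this
    exact hcop.dvd_of_dvd_mul_left h4
  exact exists_fin b _ (by omega) (by omega)

/-- the box `[1, T] ^ b` -/
noncomputable def Bx (b : ℕ) (lo hi : ℤ) : Finset (Fin b → ℤ) := Fintype.piFinset (fun _ => Icc lo hi)

lemma mem_Bx (b : ℕ) (lo hi : ℤ) (t : Fin b → ℤ) : t ∈ Bx b lo hi ↔ ∀ i, lo ≤ t i ∧ t i ≤ hi := by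
  simp [Bx, Fintype.mem_piFinset, mem_Icc]

lemma card_Bx (b : ℕ) (lo hi : ℤ) : (Bx b lo hi).card = (hi + 1 - lo).toNat ^ b := by
  simp [Bx, Fintype.card_piFinset]

lemma Bx_sub_All (m b X : ℕ) (hm : 0 < m) (hc : Nat.Coprime m (b + 1)) (t : Fin b → ℤ)
    (ht : t ∈ Bx b 1 ((X / (b + 1) : ℕ) : ℤ)) : rOf b t ∈ All m (b + 1) X := by
  rw [mem_Bx] at ht
  set T := X / (b + 1) with hT
  have hTX : ((b : ℤ) + 1) * T ≤ X := by
    have := Nat.mul_div_le X (b + 1)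
    exact_mod_cast this
  have hb : (0 : ℤ) < (b : ℤ) + 1 := by positivity
  refine ⟨?_, ?_, ?_⟩
  · intro j hj1 hj2
    push_cast at hj2
    obtain ⟨i, rfl⟩ := exists_fin b j hj1 (by omega)
    rw [rOf_fin]
    constructor
    · push_cast
      apply Int.modEq_iff_dvd.mpr
      refine ⟨t i, by ring⟩
    · obtain ⟨h1, h2⟩ := ht i
      have h3 : ((b : ℤ) + 1) * t i ≤ ((b : ℤ) + 1) * T := mul_le_mul_of_nonneg_left h2 hb.le
      have h4 : ((b : ℤ) + 1) * 1 ≤ ((b : ℤ) + 1) * t i := mul_le_mul_of_nonneg_left h1 hb.le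
      rw [abs_le]
      constructor <;> omega
  · intro j hj
    unfold rOf
    rw [dif_neg]
    push_cast at hj
    omega
  · intro n hn
    by_cases hd : ((b : ℤ) + 1) ∣ n
    · unfold Umap
      push_cast
      rw [if_pos hd]
      obtain ⟨q, rfl⟩ := hd
      rw [Int.mul_ediv_cancel_left _ hb.ne']
      exact (mul_pos_iff_of_pos_left hb).mp hn
    · obtain ⟨i, hi⟩ := emod_cases m b hc n hd
      rw [Umap_rOf m b t n i hi]
      have h1 := (ht i).1
      have h2 : 0 ≤ (m : ℤ) * n / ((b : ℤ) + 1) := by positivity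
      omega

lemma All_sub_Bx (m b X : ℕ) (hb1 : 1 ≤ b) (hc : Nat.Coprime m (b + 1)) (r : ℤ → ℤ)
    (hr : r ∈ All m (b + 1) X) :
    ∃ t ∈ Bx b (-(m : ℤ)) (((X / (b + 1) : ℕ) : ℤ) + 1), rOf b t = r := by
  obtain ⟨h1, h2, h3⟩ := hr
  have hb : (0 : ℤ) < (b : ℤ) + 1 := by positivity
  push_cast at h1 h2
  have hdv : ∀ i : Fin b, ∃ q, (i : ℤ) + 1 - r ((i : ℤ) + 1) = ((b : ℤ) + 1) * q := by
    intro i
    have hi := i.2
    have h4 := (h1 ((i : ℤ) + 1) (by omega) (by omega)).1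
    exact Int.modEq_iff_dvd.mp h4
  choose t ht using hdv
  have hrt : rOf b t = r := by
    funext j
    by_cases hj : 1 ≤ j ∧ j ≤ (b : ℤ)
    · obtain ⟨i, rfl⟩ := exists_fin b j hj.1 hj.2
      rw [rOf_fin]
      have := ht i
      omega
    · rw [h2 j (by omega)]
      unfold rOf
      rw [dif_neg hj]
  refine ⟨t, ?_, hrt⟩
  rw [mem_Bx]
  intro i
  have hi := i.2
  set T := X / (b + 1) with hT
  have hTX : (X : ℤ) < ((b : ℤ) + 1) * (T + 1) := by
    have := Nat.lt_mul_div_succ X (show 0 < b + 1 by omega)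
    exact_mod_cast this
  constructor
  · -- lower bound
    obtain ⟨m', hm'⟩ := Nat.exists_mul_mod_eq_one_of_coprime hc (show 1 < b + 1 by omega)
    set n : ℕ := (m' * ((i : ℕ) + 1)) % (b + 1) with hn
    have hmn : (m * n) % (b + 1) = (i : ℕ) + 1 := by
      rw [hn, Nat.mul_mod_mod, ← mul_assoc, Nat.mul_mod, hm'.2, one_mul, Nat.mod_mod]
      exact Nat.mod_eq_of_lt (by omega)
    have hn0 : n ≠ 0 := by
      intro h0
      rw [h0, mul_zero, Nat.zero_mod] at hmn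
      omega
    have hnlt : n < b + 1 := Nat.mod_lt _ (by omega)
    have h5 := h3 (n : ℤ) (by omega)
    have h6 : (m : ℤ) * n % ((b : ℤ) + 1) = (i : ℤ) + 1 := by exact_mod_cast hmn
    rw [← hrt, Umap_rOf m b t n i h6] at h5
    have h7 : (m : ℤ) * n / ((b : ℤ) + 1) ≤ m := by
      calc (m : ℤ) * n / ((b : ℤ) + 1) ≤ ((b : ℤ) + 1) * m / ((b : ℤ) + 1) := by
            apply Int.ediv_le_ediv hb
            have : m * n ≤ (b + 1) * m := by
              rw [mul_comm (b + 1) m]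
              exact Nat.mul_le_mul_left m hnlt.le
            exact_mod_cast this
        _ = m := Int.mul_ediv_cancel_left _ hb.ne'
    omega
  · -- upper bound
    have h4 := (abs_le.mp (h1 ((i : ℤ) + 1) (by omega) (by omega)).2).1
    have h5 := ht i
    have h6 : ((b : ℤ) + 1) * t i < ((b : ℤ) + 1) * (T + 2) := by
      have : ((b : ℤ) + 1) * (T + 2) = ((b : ℤ) + 1) * (T + 1) + ((b : ℤ) + 1) := by ring
      omega
    have h7 := lt_of_mul_lt_mul_left h6 hb.le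
    omega

/-! ### Cycles -/

lemma cast_val_dvd {D Q : ℕ} [NeZero Q] (h : D ∣ Q) (x : ℤ) :
    (D : ℤ) ∣ (((x : ZMod Q).val : ℕ) : ℤ) - x := by
  have h1 : (Q : ℤ) ∣ (((x : ZMod Q).val : ℕ) : ℤ) - x := by
    rw [← ZMod.intCast_zmod_eq_zero_iff_dvd]
    push_cast
    rw [ZMod.natCast_zmod_val, sub_self]
  exact (Int.natCast_dvd_natCast.mpr h).trans h1

/-- a box point whose residue has a cycle word is not bad -/
lemma not_bad_of_hasWord (m b X Q : ℕ) [NeZero Q] (hb : 1 ≤ b) (hc : Nat.Coprime m (b + 1))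
    (t : Fin b → ℤ) (ht : ∀ i, 1 ≤ t i)
    (h : HasWord (b + 1) m Q (fun i : Fin b => ((((b : ℤ) + 1) * t i - ((i : ℤ) + 1) : ℤ) : ZMod Q))) :
    rOf b t ∉ Bad m (b + 1) X := by
  obtain ⟨w, L, hs, hlt, hQ, hdvd⟩ := h
  intro hbad
  set ρ : Fin b → ℤ := fun i => ((b : ℤ) + 1) * t i - ((i : ℤ) + 1) with hρ
  have hb0 : (0 : ℤ) < (b : ℤ) + 1 := by positivity
  have hρ0 : ∀ i, 0 < ρ i := by
    intro i
    have hi := i.2
    have h4 : ((b : ℤ) + 1) * 1 ≤ ((b : ℤ) + 1) * t i := mul_le_mul_of_nonneg_left (ht i) hb0.le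
    simp only [hρ]
    omega
  have hD : ((((b + 1) ^ L - m ^ (sk w L).card : ℕ)) : ℤ)
      = (((b + 1 : ℕ) : ℤ)) ^ L - (m : ℤ) ^ (sk w L).card := by
    rw [Nat.cast_sub hlt.le]
    push_cast
    rfl
  have hcyc := cycle_of_dvd (b + 1) m (by omega) hc w ρ hρ0 L hs hlt (by
    rw [← hD]
    have h1 : ((((b + 1) ^ L - m ^ (sk w L).card : ℕ)) : ℤ) ∣ ((dot Q (V (b + 1) m w L)
        (fun i : Fin b => ((ρ i : ℤ) : ZMod Q)) : ℕ) : ℤ) := Int.natCast_dvd_natCast.mpr hdvd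
    have h2 : ((dot Q (V (b + 1) m w L) (fun i : Fin b => ((ρ i : ℤ) : ZMod Q)) : ℕ) : ℤ)
        = ∑ i, (V (b + 1) m w L i : ℤ) * ρ i
          + ∑ i, (V (b + 1) m w L i : ℤ) * (((((ρ i : ℤ) : ZMod Q).val : ℕ) : ℤ) - ρ i) := by
      unfold dot
      rw [← sum_add_distrib]
      push_cast
      apply sum_congr rfl
      intro i _
      ring
    rw [h2] at h1
    refine (Int.dvd_add_left ?_).mp h1
    apply dvd_sum
    intro i _
    exact Dvd.dvd.mul_left (cast_val_dvd hQ _) _) (Umap m (b + 1) (rOf b t)) ?_ ?_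
  · obtain ⟨n, hn, k, hk, hnk⟩ := hcyc
    exact hbad.2 n hn k hk hnk
  · intro n
    unfold Umap
    rw [if_pos (dvd_mul_right _ _)]
    exact Int.mul_ediv_cancel_left _ (by push_cast; exact hb0.ne')
  · intro n n' i hn
    push_cast at hn
    have hi := i.2
    have h1 : (m : ℤ) * n = ((b : ℤ) + 1) * (n' - t i) + ((i : ℤ) + 1) := by
      simp only [hρ] at hn
      linarith
    have h2 : (m : ℤ) * n % ((b : ℤ) + 1) = (i : ℤ) + 1 := by
      rw [h1, Int.mul_add_emod_self_left]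
      exact Int.emod_eq_of_lt (by omega) (by omega)
    rw [Umap_rOf m b t n i h2]
    have h3 : (m : ℤ) * n / ((b : ℤ) + 1) = n' - t i := by
      rw [h1, Int.mul_add_ediv_left _ _ hb0.ne', Int.ediv_eq_zero_of_lt (by omega) (by omega), add_zero]
    omega

/-! ### Counting in the box -/

lemma count_box (b Q T : ℕ) [NeZero Q] (hQ : Nat.Coprime (b + 1) Q) (S : Finset (Fin b → ZMod Q))
    (P : Finset (Fin b → ℤ)) (hP : ∀ t ∈ P, t ∈ Bx b 1 (T : ℤ) ∧
      (fun i : Fin b => ((((b : ℤ) + 1) * t i - ((i : ℤ) + 1) : ℤ) : ZMod Q)) ∈ S) :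
    P.card ≤ S.card * (T / Q + 1) ^ b := by
  classical
  have hQ0 : (0 : ℤ) < Q := by
    have := NeZero.pos Q
    exact_mod_cast this
  have h1 : P.card ≤ (S ×ˢ Bx b 0 ((T / Q : ℕ) : ℤ)).card := by
    apply card_le_card_of_injOn
      (fun t => ((fun i : Fin b => ((((b : ℤ) + 1) * t i - ((i : ℤ) + 1) : ℤ) : ZMod Q)),
        fun i => t i / (Q : ℤ)))
    · intro t ht
      have ht' := hP t (mem_coe.mp ht)
      rw [mem_coe, mem_product]
      refine ⟨ht'.2, ?_⟩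
      rw [mem_Bx]
      intro i
      have h2 := (mem_Bx _ _ _ _).mp ht'.1 i
      simp only
      constructor
      · apply Int.ediv_nonneg (by omega) hQ0.le
      · push_cast
        exact Int.ediv_le_ediv hQ0 h2.2
    · intro t ht t' ht' heq
      simp only [Prod.mk.injEq] at heq
      obtain ⟨e1, e2⟩ := heq
      funext i
      have e1i := congrFun e1 i
      have e2i := congrFun e2 i
      have hu : IsUnit (((b + 1 : ℕ) : ZMod Q)) := (ZMod.isUnit_iff_coprime _ _).mpr hQ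
      have e3 : ((t i : ℤ) : ZMod Q) = ((t' i : ℤ) : ZMod Q) := by
        apply hu.mul_left_cancel
        push_cast at e1i ⊢
        linear_combination e1i
      have e4 : (t i) % (Q : ℤ) = (t' i) % (Q : ℤ) := (ZMod.intCast_eq_intCast_iff' _ _ _).mp e3
      rw [← Int.mul_ediv_add_emod (t i) Q, ← Int.mul_ediv_add_emod (t' i) Q, e2i, e4]
  refine h1.trans ?_
  rw [card_product, card_Bx]
  apply Nat.mul_le_mul_left
  apply Nat.pow_le_pow_left
  generalize T / Q = q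
  omega

lemma eventually_pow (b c : ℕ) (η : ℝ) (hη : 0 < η) :
    ∀ᶠ T : ℕ in atTop, ((T : ℝ) + c) ^ b ≤ (1 + η) * (T : ℝ) ^ b := by
  have h1 : Tendsto (fun T : ℕ => (1 + (c : ℝ) / (T : ℝ)) ^ b) atTop (nhds ((1 + 0) ^ b)) := by
    apply Tendsto.pow
    exact tendsto_const_nhds.add (tendsto_const_div_atTop_nhds_zero_nat (c : ℝ))
  rw [add_zero, one_pow] at h1
  have h2 := h1.eventually (ge_mem_nhds (show (1 : ℝ) < 1 + η by linarith))
  filter_upwards [h2, eventually_ge_atTop 1] with T hT hT1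
  have hT0 : (0 : ℝ) < T := by exact_mod_cast hT1
  have h3 : ((T : ℝ) + c) = (1 + (c : ℝ) / (T : ℝ)) * T := by
    field_simp
  rw [h3, mul_pow]
  exact mul_le_mul_of_nonneg_right hT (by positivity)

/-! ### The contracting case -/

lemma exists_periodic (U : ℤ → ℤ) (N : ℤ) (hN : 0 < N)
    (h : ∀ n : ℤ, 0 < n → n ≤ N → 0 < U n ∧ U n ≤ N) :
    ∃ n : ℤ, 0 < n ∧ ∃ k : ℕ, 0 < k ∧ U^[k] n = n := by
  have hmem : ∀ k : ℕ, U^[k] 1 ∈ Set.Icc (1 : ℤ) N := by
    intro k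
    induction k with
    | zero => exact ⟨le_refl _, hN⟩
    | succ k ih =>
      rw [Function.iterate_succ_apply']
      have := h _ (by have := ih.1; omega) ih.2
      exact ⟨this.1, this.2⟩
  have hfin : (Set.Icc (1 : ℤ) N).Finite := Set.finite_Icc _ _
  have hnotinj : ¬ Function.Injective (fun k : ℕ => U^[k] 1) := by
    intro hinj
    exact Set.infinite_of_injective_forall_mem hinj hmem hfin
  rw [Function.Injective] at hnotinj
  push Not at hnotinj
  obtain ⟨i, j, hij, hne⟩ := hnotinj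
  wlog hlt : i < j generalizing i j with H
  · exact H j i hij.symm hne.symm (by omega)
  refine ⟨U^[i] 1, by have := (hmem i).1; omega, j - i, by omega, ?_⟩
  rw [← Function.iterate_add_apply, show j - i + i = j by omega]
  exact hij.symm

lemma Bad_empty_of_lt (m d X : ℕ) (hm : 0 < m) (hd : 2 ≤ d) (hmd : m < d) : Bad m d X = ∅ := by
  rw [Set.eq_empty_iff_forall_notMem]
  rintro r ⟨⟨h1, h2, hpos⟩, hno⟩
  have hd0 : (0 : ℤ) < d := by exact_mod_cast (by omega : 0 < d)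
  have hm0 : (0 : ℤ) < m := by exact_mod_cast hm
  have hmd' : (m : ℤ) + 1 ≤ d := by exact_mod_cast hmd
  have hr : ∀ j : ℤ, |r j| ≤ (X : ℤ) := by
    intro j
    by_cases hj : 1 ≤ j ∧ j ≤ (d : ℤ) - 1
    · exact (h1 j hj.1 hj.2).2
    · rw [h2 j (by omega), abs_zero]
      positivity
  set N : ℤ := (X : ℤ) + 1 with hN
  obtain ⟨n, hn, k, hk, hnk⟩ := exists_periodic (Umap m d r) N (by positivity) (by
    intro n hn hnN
    refine ⟨hpos n hn, ?_⟩
    unfold Umap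
    split_ifs with hdvd
    · have : n / (d : ℤ) ≤ n := Int.ediv_le_self _ hn.le
      omega
    · have h2 : (m : ℤ) * n - r ((m : ℤ) * n % d) ≤ d * N := by
        have h3 := (abs_le.mp (hr ((m : ℤ) * n % d))).1
        have h4 : (m : ℤ) * n ≤ m * N := mul_le_mul_of_nonneg_left hnN hm0.le
        nlinarith
      calc ((m : ℤ) * n - r ((m : ℤ) * n % d)) / d ≤ (d * N) / d := Int.ediv_le_ediv hd0 h2
        _ = N := Int.mul_ediv_cancel_left _ hd0.ne')
  exact hno n hn k hk hnk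

lemma nat_of_real (m b : ℕ) (hb : 1 ≤ b)
    (h : (m : ℝ) < ((b + 1 : ℕ) : ℝ) ^ (((b + 1 : ℕ) : ℝ) / (((b + 1 : ℕ) : ℝ) - 1))) :
    m ^ b < (b + 1) ^ (b + 1) := by
  have hb0 : (0 : ℝ) < b := by exact_mod_cast hb
  have h1 : (m : ℝ) ^ b < (((b + 1 : ℕ) : ℝ) ^ (((b + 1 : ℕ) : ℝ) / (((b + 1 : ℕ) : ℝ) - 1))) ^ b :=
    pow_lt_pow_left₀ h (by positivity) (by omega)
  have h2 : (((b + 1 : ℕ) : ℝ) / (((b + 1 : ℕ) : ℝ) - 1)) * (b : ℝ) = ((b + 1 : ℕ) : ℝ) := by
    have h0 : ((b + 1 : ℕ) : ℝ) - 1 = b := by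
      push_cast
      ring
    rw [h0]
    exact div_mul_cancel₀ _ hb0.ne'
  have h3 : (((b + 1 : ℕ) : ℝ) ^ (((b + 1 : ℕ) : ℝ) / (((b + 1 : ℕ) : ℝ) - 1))) ^ b
      = ((b + 1 : ℕ) : ℝ) ^ (b + 1) := by
    rw [← Real.rpow_natCast _ b, ← Real.rpow_mul (by positivity), h2, Real.rpow_natCast]
  rw [h3] at h1
  exact_mod_cast h1

/-- **For every large `d` and every admissible `m`, almost all maps have a purely periodic
trajectory.** -/
theorem main : ∃ d0 : ℕ, ∀ d : ℕ, d0 ≤ d → 2 ≤ d → ∀ m : ℕ, 0 < m →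
    Nat.Coprime m d → (m : ℝ) < (d : ℝ) ^ ((d : ℝ) / ((d : ℝ) - 1)) →
    ∀ ε : ℝ, 0 < ε → ∃ X0 : ℕ, ∀ X : ℕ, X0 ≤ X →
      0 < (All m d X).ncard ∧ ((Bad m d X).ncard : ℝ) ≤ ε * ((All m d X).ncard : ℝ) := by
  classical
  obtain ⟨b0, hmain⟩ := main_count2
  refine ⟨b0 + 1, ?_⟩
  intro d hd hd2 m hm hc hlt ε hε
  obtain ⟨b, rfl⟩ : ∃ b, d = b + 1 := ⟨d - 1, by omega⟩
  have hb : 1 ≤ b := by omega
  have hnat := nat_of_real m b hb hlt
  -- lower bound for all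
  have hfin : ∀ X, (All m (b + 1) X).Finite := by
    intro X
    apply ((Bx b (-(m : ℤ)) (((X / (b + 1) : ℕ) : ℤ) + 1)).image (rOf b)).finite_toSet.subset
    intro r hr
    obtain ⟨t, ht, rfl⟩ := All_sub_Bx m b X hb hc r hr
    rw [mem_coe]
    exact mem_image_of_mem _ ht
  have hlow : ∀ X, (X / (b + 1)) ^ b ≤ (All m (b + 1) X).ncard := by
    intro X
    have h1 : ((((Bx b 1 ((X / (b + 1) : ℕ) : ℤ)).image (rOf b) : Finset (ℤ → ℤ)) : Set (ℤ → ℤ))).ncard
        ≤ (All m (b + 1) X).ncard := by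
      apply Set.ncard_le_ncard _ (hfin X)
      intro r hr
      rw [mem_coe, mem_image] at hr
      obtain ⟨t, ht, rfl⟩ := hr
      exact Bx_sub_All m b X hm hc t ht
    rw [Set.ncard_coe_finset, card_image_of_injective _ (rOf_inj b), card_Bx] at h1
    have h2 : ((((X / (b + 1) : ℕ) : ℤ) + 1 - 1)).toNat = X / (b + 1) := by
      generalize X / (b + 1) = q
      omega
    rw [h2] at h1
    exact h1
  by_cases hmd : m < b + 1
  · refine ⟨b + 1, ?_⟩
    intro X hX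
    have h1 := hlow X
    have h2 : 0 < X / (b + 1) := Nat.div_pos hX (by omega)
    have h3 : 0 < (X / (b + 1)) ^ b := Nat.pow_pos h2
    refine ⟨by omega, ?_⟩
    rw [Bad_empty_of_lt m (b + 1) X hm (by omega) hmd, Set.ncard_empty]
    push_cast
    positivity
  push Not at hmd
  obtain ⟨Q, hNe, hcopQ, hcount⟩ := hmain b (by omega) m hmd hc hnat (ε / 2) (by positivity)
  -- choice of the size
  have e1 := eventually_pow b (m + 2) (ε / 4) (by positivity)
  have e2 := eventually_pow b Q (1 / 2) (by norm_num)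
  have e3 : Tendsto (fun X : ℕ => X / (b + 1)) atTop atTop := Nat.tendsto_div_const_atTop (by omega)
  have e4 := e3.eventually (e1.and (e2.and (eventually_ge_atTop 1)))
  obtain ⟨X0, hX0⟩ := eventually_atTop.mp e4
  refine ⟨X0, ?_⟩
  intro X hX
  obtain ⟨f1, f2, f3⟩ := hX0 X hX
  have hl := hlow X
  set T := X / (b + 1) with hT
  have hTb : 0 < T ^ b := Nat.pow_pos f3
  refine ⟨by omega, ?_⟩
  -- the bad set
  set SQ : Finset (Fin b → ZMod Q) := univ.filter (fun ρ => ¬ HasWord (b + 1) m Q ρ) with hSQ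
  set P : Finset (Fin b → ℤ) := (Bx b 1 (T : ℤ)).filter (fun t =>
    (fun i : Fin b => ((((b : ℤ) + 1) * t i - ((i : ℤ) + 1) : ℤ) : ZMod Q)) ∈ SQ) with hPdef
  have hPc : P.card ≤ SQ.card * (T / Q + 1) ^ b := by
    apply count_box b Q T hcopQ SQ P
    intro t ht
    rw [hPdef, mem_filter] at ht
    exact ht
  have hbadsub : Bad m (b + 1) X ⊆ (((P ∪ (Bx b (-(m : ℤ)) ((T : ℤ) + 1) \ Bx b 1 (T : ℤ))).image (rOf b) :
      Finset (ℤ → ℤ)) : Set (ℤ → ℤ)) := by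
    intro r hr
    obtain ⟨t, ht, hrt⟩ := All_sub_Bx m b X hb hc r hr.1
    rw [mem_coe, mem_image]
    refine ⟨t, ?_, hrt⟩
    rw [mem_union, Finset.mem_sdiff]
    by_cases hin : t ∈ Bx b 1 (T : ℤ)
    · left
      rw [hPdef, mem_filter]
      refine ⟨hin, ?_⟩
      rw [hSQ, mem_filter]
      refine ⟨mem_univ _, ?_⟩
      intro hw
      have := not_bad_of_hasWord m b X Q hb hc t (fun i => ((mem_Bx _ _ _ _).mp hin i).1) hw
      rw [hrt] at this
      exact this hr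
    · right
      exact ⟨ht, hin⟩
  have hbadc : (Bad m (b + 1) X).ncard ≤ P.card + ((T + (m + 2)) ^ b - T ^ b) := by
    have h1 := Set.ncard_le_ncard hbadsub (finite_toSet _)
    rw [Set.ncard_coe_finset] at h1
    refine h1.trans (card_image_le.trans ((card_union_le _ _).trans ?_))
    apply Nat.add_le_add_left
    have hsub : Bx b 1 (T : ℤ) ⊆ Bx b (-(m : ℤ)) ((T : ℤ) + 1) := by
      intro t ht
      rw [mem_Bx] at ht ⊢
      intro i
      have := ht i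
      omega
    rw [card_sdiff_of_subset hsub, card_Bx, card_Bx]
    have g1 : ((T : ℤ) + 1 + 1 - (-(m : ℤ))).toNat = T + (m + 2) := by omega
    have g2 : ((T : ℤ) + 1 - 1).toNat = T := by omega
    rw [g1, g2]
  have hSQc : (SQ.card : ℝ) ≤ ε / 2 * (Q : ℝ) ^ b := by
    apply hcount
    intro ρ hρ
    rw [hSQ, mem_filter] at hρ
    exact hρ.2
  have hQpos : (0 : ℝ) < Q := by
    have := NeZero.pos Q
    exact_mod_cast this
  have hPr : (P.card : ℝ) ≤ ε / 2 * ((T : ℝ) + Q) ^ b := by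
    have h1 : ((P.card : ℕ) : ℝ) ≤ ((SQ.card * (T / Q + 1) ^ b : ℕ) : ℝ) := by exact_mod_cast hPc
    have h2 : (((T / Q : ℕ) : ℝ)) * Q ≤ T := by
      have := Nat.div_mul_le_self T Q
      exact_mod_cast this
    calc (P.card : ℝ) ≤ ((SQ.card * (T / Q + 1) ^ b : ℕ) : ℝ) := h1
      _ = (SQ.card : ℝ) * (((T / Q : ℕ) : ℝ) + 1) ^ b := by push_cast; rfl
      _ ≤ (ε / 2 * (Q : ℝ) ^ b) * (((T / Q : ℕ) : ℝ) + 1) ^ b :=
          mul_le_mul_of_nonneg_right hSQc (by positivity)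
      _ = ε / 2 * (((((T / Q : ℕ) : ℝ)) + 1) * Q) ^ b := by rw [mul_pow]; ring
      _ ≤ ε / 2 * ((T : ℝ) + Q) ^ b := by
          apply mul_le_mul_of_nonneg_left _ (by positivity)
          apply pow_le_pow_left₀ (by positivity)
          rw [add_mul, one_mul]
          linarith
  have hle : T ^ b ≤ (T + (m + 2)) ^ b := Nat.pow_le_pow_left (by omega) _
  have hbr : ((Bad m (b + 1) X).ncard : ℝ) ≤ (P.card : ℝ) + (((T : ℝ) + ((m + 2 : ℕ) : ℝ)) ^ b - (T : ℝ) ^ b) := by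
    have h1 : (((Bad m (b + 1) X).ncard : ℕ) : ℝ) ≤ ((P.card + ((T + (m + 2)) ^ b - T ^ b) : ℕ) : ℝ) := by
      exact_mod_cast hbadc
    rw [Nat.cast_add, Nat.cast_sub hle] at h1
    push_cast at h1 ⊢
    exact h1
  have hlr : ((T : ℝ)) ^ b ≤ ((All m (b + 1) X).ncard : ℝ) := by exact_mod_cast hl
  have hTr : (0 : ℝ) ≤ (T : ℝ) ^ b := by positivity
  have h9 : ε / 2 * ((T : ℝ) + Q) ^ b ≤ ε / 2 * ((1 + 1 / 2) * (T : ℝ) ^ b) :=
    mul_le_mul_of_nonneg_left f2 (by positivity)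
  calc ((Bad m (b + 1) X).ncard : ℝ) ≤ ε * (T : ℝ) ^ b := by linarith
    _ ≤ ε * ((All m (b + 1) X).ncard : ℝ) := mul_le_mul_of_nonneg_left hlr hε.le

end GC85D
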